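import Mathlib

/-!
Invariant monochromatic random waves on the plane `ℝ² = ℂ`, the covariance `K` of the
isotropic monochromatic Gaussian wave, spatial averages, and the statements used in the results.
-/

open Filter Topology MeasureTheory ProbabilityTheory InnerProductSpace Laplacian Metric

namespace Berry

/-- A translation invariant monochromatic random wave on the plane `ℝ² = ℂ` (eigenvalue `1`, i.e.
`∂₁²F + ∂₂²F = -F`): `F x ω` is the value at the point `x` for the outcome `ω`; the law of the whole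
path `x ↦ F x` is invariant under all translations. -/
structure InvWave {Ω : Type*} [MeasurableSpace Ω] (P : Measure Ω) (F : ℂ → Ω → ℝ) : Prop where
  measurable : ∀ x, Measurable (F x)
  smooth : ∀ ω, ContDiff ℝ 2 (fun x => F x ω)
  helmholtz : ∀ ω x, (Δ (fun x => F x ω)) x = - F x ω
  stationary : ∀ t, IdentDistrib (fun ω x => F (x + t) ω) (fun ω x => F x ω) P P

/-- `K(x) = ∫_{S¹} e^{i⟨x,ω⟩} dσ(ω)`, the covariance of the isotropic monochromatic Gaussian wave on
the plane `ℝ² = ℂ` (it is the Bessel function `J₀(|x|)`). -/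
noncomputable def waveK (x : ℂ) : ℝ :=
  (2 * Real.pi)⁻¹ * ∫ θ in (0:ℝ)..(2 * Real.pi), Real.cos (x.re * Real.cos θ + x.im * Real.sin θ)

/-- the spatial average of `F(x) F(x + a)` over the disc of radius `R` about the origin -/
noncomputable def spatialAvg {Ω : Type*} (F : ℂ → Ω → ℝ) (a : ℂ) (R : ℝ) (ω : Ω) : ℝ :=
  ⨍ x in ball (0:ℂ) R, F x ω * F (x + a) ω

/-- **Planck-scale quantum unique ergodicity** of the wave, in mean square: for every `a` the spatial
averages of `F(x) F(x + a)` over large discs converge in `L²(P)` to the constant `E[F(0)²] K(a)`. -/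
def PlanckQE {Ω : Type*} [MeasurableSpace Ω] (P : Measure Ω) (F : ℂ → Ω → ℝ) : Prop :=
  ∀ a : ℂ, Tendsto (fun R : ℝ =>
      ∫ ω, (spatialAvg F a R ω - (∫ ω', F 0 ω' ^ 2 ∂P) * waveK a) ^ 2 ∂P)
    atTop (𝓝 0)

/-- the four-point function of `F` is that of the Gaussian wave with covariance `E[F(0)²] K` -/
def FourPt {Ω : Type*} [MeasurableSpace Ω] (P : Measure Ω) (F : ℂ → Ω → ℝ) : Prop :=
  ∀ x₁ x₂ x₃ x₄ : ℂ,
  ∫ ω, F x₁ ω * F x₂ ω * F x₃ ω * F x₄ ω ∂P = (∫ ω, F 0 ω ^ 2 ∂P) ^ 2 *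
      (waveK (x₁ - x₂) * waveK (x₃ - x₄) + waveK (x₁ - x₃) * waveK (x₂ - x₄)
        + waveK (x₁ - x₄) * waveK (x₂ - x₃))

/-- all mixed moments of `F` of order at most four are those of the Gaussian wave with covariance
`E[F(0)²] K` -/
def GaussUpToFour {Ω : Type*} [MeasurableSpace Ω] (P : Measure Ω) (F : ℂ → Ω → ℝ) : Prop :=
  (∀ x, ∫ ω, F x ω ∂P = 0) ∧
  (∀ x y, ∫ ω, F x ω * F y ω ∂P = (∫ ω, F 0 ω ^ 2 ∂P) * waveK (x - y)) ∧
  (∀ x y z, ∫ ω, F x ω * F y ω * F z ω ∂P = 0) ∧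
  FourPt P F

end Berry
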