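import Pool.Agent.LibH11.Berry.Defs

/-!
Laplace eigenfunctions on the quotients of the hyperbolic plane and their local waves.
-/

open UpperHalfPlane MeasureTheory ProbabilityTheory InnerProductSpace Laplacian MatrixGroups Filter
  Topology

namespace Berry

noncomputable section

/-- `Γ`-invariant Laplace eigenfunctions on the hyperbolic plane: `φ n` has eigenvalue
`m n ^ 2`, i.e. `y²(∂₁² + ∂₂²) φₙ = - mₙ² φₙ`, and `mₙ → ∞`. -/
structure EigenSeq (Γ : Subgroup SL(2, ℝ)) (φ : ℕ → ℍ → ℝ) (m : ℕ → ℝ) : Prop where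
  invariant : ∀ n, ∀ γ ∈ Γ, ∀ z, φ n (γ • z) = φ n z
  smooth : ∀ n, ContDiffOn ℝ 2 (fun w : ℂ => φ n (ofComplex w)) {w | 0 < w.im}
  eigen : ∀ n, ∀ z : ℍ, z.im ^ 2 * (Δ (fun w : ℂ => φ n (ofComplex w))) z = - (m n ^ 2 * φ n z)
  tendsto : Tendsto m atTop atTop

/-- the rotation by the angle `θ`, as an element of `SL(2, ℝ)`; it fixes the point `i` and rotates
the tangent plane there -/
def rot (θ : ℝ) : SL(2, ℝ) :=
  ⟨!![Real.cos θ, -Real.sin θ; Real.sin θ, Real.cos θ], by
    rw [Matrix.det_fin_two_of]; nlinarith [Real.sin_sq_add_cos_sq θ]⟩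

/-- the isometry of the hyperbolic plane attached to a point `z` and an angle `θ`; it carries `i`
to `z` -/
def frame (p : ℍ × ℝ) : SL(2, ℝ) := p.1.toSL2R * rot p.2

/-- the wave `φ` seen from the point `z` in the frame `θ` at the scale `1 / m`: the value at the
point with local coordinate `x / m` -/
def localWave (φ : ℍ → ℝ) (m : ℝ) (x : ℂ) (p : ℍ × ℝ) : ℝ :=
  φ (frame p • ofComplex (Complex.I + x / m))

/-- a uniform random point of `D` together with a uniform random angle -/
def frameProb (D : Set ℍ) : Measure (ℍ × ℝ) :=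
  (ProbabilityTheory.cond (volume : Measure ℍ) D).prod
    (ProbabilityTheory.cond (volume : Measure ℝ) (Set.Ioc 0 (2 * Real.pi)))

/-- the average of `f` over `D` with respect to the hyperbolic area -/
def surfAvg (D : Set ℍ) (f : ℍ → ℝ) : ℝ :=
  ∫ z, f z ∂(ProbabilityTheory.cond (volume : Measure ℍ) D)

/-- **Gaussian four-point correlations**: the four-point functions of the local waves, averaged over
all points and frames, converge to those of the Gaussian wave with covariance `K`. -/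
def FourPtLimit (D : Set ℍ) (φ : ℕ → ℍ → ℝ) (m : ℕ → ℝ) : Prop :=
  ∀ x₁ x₂ x₃ x₄ : ℂ, Tendsto (fun n => ∫ p, localWave (φ n) (m n) x₁ p * localWave (φ n) (m n) x₂ p
      * localWave (φ n) (m n) x₃ p * localWave (φ n) (m n) x₄ p ∂(frameProb D)) atTop
    (𝓝 (waveK (x₁ - x₂) * waveK (x₃ - x₄) + waveK (x₁ - x₃) * waveK (x₂ - x₄)
      + waveK (x₁ - x₄) * waveK (x₂ - x₃)))

/-- the averages of `Fₙ(x) Fₙ(x + a)` over discs of radius `R` (on the scale of the wavelength) are
close to `K(a)` in mean square over all points and frames, in the limit `n → ∞` and then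
`R → ∞` -/
def PlanckAt (D : Set ℍ) (φ : ℕ → ℍ → ℝ) (m : ℕ → ℝ) (a : ℂ) : Prop :=
  ∀ ε > 0, ∃ R₀ : ℝ, ∀ R ≥ R₀, ∀ᶠ n in atTop,
    ∫ p, (spatialAvg (localWave (φ n) (m n)) a R p - waveK a) ^ 2 ∂(frameProb D) ≤ ε

end

end Berry
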