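import Pool.Agent.LibH11.Berry.HDefs

/-!
Laplace eigenfunctions on quotients of the hyperbolic plane with a conformal metric
`e^{2ρ} (dx² + dy²) / y²`, and their local waves.
-/

open UpperHalfPlane MeasureTheory ProbabilityTheory InnerProductSpace Laplacian MatrixGroups Filter
  Topology

namespace Berry

noncomputable section

/-- `Γ`-invariant Laplace eigenfunctions for the metric `e^{2ρ} (dx² + dy²) / y²`: `φ n` has
eigenvalue `m n ^ 2`, i.e. `y² (∂₁² + ∂₂²) φₙ = - mₙ² e^{2ρ} φₙ`, and `mₙ → ∞`. -/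
structure REigenSeq (Γ : Subgroup SL(2, ℝ)) (ρ : ℍ → ℝ) (φ : ℕ → ℍ → ℝ) (m : ℕ → ℝ) : Prop where
  invariant : ∀ n, ∀ γ ∈ Γ, ∀ z, φ n (γ • z) = φ n z
  smooth : ∀ n, ContDiffOn ℝ 2 (fun w : ℂ => φ n (ofComplex w)) {w | 0 < w.im}
  eigen : ∀ n, ∀ z : ℍ, z.im ^ 2 * (Δ (fun w : ℂ => φ n (ofComplex w))) z
    = - (m n ^ 2 * Real.exp (2 * ρ z) * φ n z)
  tendsto : Tendsto m atTop atTop

/-- the area of the metric `e^{2ρ} (dx² + dy²) / y²` -/
def area (ρ : ℍ → ℝ) : Measure ℍ :=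
  (volume : Measure ℍ).withDensity fun z => ENNReal.ofReal (Real.exp (2 * ρ z))

/-- the average of `f` over `D` with respect to the area -/
def rAvg (ρ : ℍ → ℝ) (D : Set ℍ) (f : ℍ → ℝ) : ℝ :=
  ∫ z, f z ∂(ProbabilityTheory.cond (area ρ) D)

/-- a uniform random point of `D` with respect to the area, together with a uniform random angle -/
def rFrameProb (ρ : ℍ → ℝ) (D : Set ℍ) : Measure (ℍ × ℝ) :=
  (ProbabilityTheory.cond (area ρ) D).prod
    (ProbabilityTheory.cond (volume : Measure ℝ) (Set.Ioc 0 (2 * Real.pi)))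

/-- the wave `φ` seen from the point `z` in the frame `θ` at the scale `1 / m` of the metric
`e^{2ρ} (dx² + dy²) / y²`: the map `x ↦ frame (z, θ) • (i + x / (m e^{ρ(z)}))` carries `0` to `z` and
the metric multiplied by `m²` to the euclidean metric at `0` -/
def rWave (ρ : ℍ → ℝ) (φ : ℍ → ℝ) (m : ℝ) (x : ℂ) (p : ℍ × ℝ) : ℝ :=
  φ (frame p • ofComplex (Complex.I + x / (m * Real.exp (ρ p.1) : ℝ)))

/-- **Gaussian four-point correlations**: the four-point functions of the local waves, averaged over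
all points and frames, converge to those of the Gaussian wave with covariance `K`. -/
def RFourPt (ρ : ℍ → ℝ) (D : Set ℍ) (φ : ℕ → ℍ → ℝ) (m : ℕ → ℝ) : Prop :=
  ∀ x₁ x₂ x₃ x₄ : ℂ, Tendsto (fun n => ∫ p, rWave ρ (φ n) (m n) x₁ p * rWave ρ (φ n) (m n) x₂ p
      * rWave ρ (φ n) (m n) x₃ p * rWave ρ (φ n) (m n) x₄ p ∂(rFrameProb ρ D)) atTop
    (𝓝 (waveK (x₁ - x₂) * waveK (x₃ - x₄) + waveK (x₁ - x₃) * waveK (x₂ - x₄)
      + waveK (x₁ - x₄) * waveK (x₂ - x₃)))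

/-- **Gaussian moments up to order four**: all mixed moments of order at most four of the local waves,
averaged over all points and frames, converge to those of the Gaussian wave with covariance `K`. -/
def RGaussUpToFour (ρ : ℍ → ℝ) (D : Set ℍ) (φ : ℕ → ℍ → ℝ) (m : ℕ → ℝ) : Prop :=
  (∀ x : ℂ, Tendsto (fun n => ∫ p, rWave ρ (φ n) (m n) x p ∂(rFrameProb ρ D)) atTop (𝓝 0)) ∧
  (∀ x y : ℂ, Tendsto (fun n => ∫ p, rWave ρ (φ n) (m n) x p * rWave ρ (φ n) (m n) y p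
      ∂(rFrameProb ρ D)) atTop (𝓝 (waveK (x - y)))) ∧
  (∀ x y z : ℂ, Tendsto (fun n => ∫ p, rWave ρ (φ n) (m n) x p * rWave ρ (φ n) (m n) y p
      * rWave ρ (φ n) (m n) z p ∂(rFrameProb ρ D)) atTop (𝓝 0)) ∧
  RFourPt ρ D φ m

/-- the averages of `Fₙ(x) Fₙ(x + a)` over discs of radius `R` (on the scale of the wavelength) are
close to `K(a)` in mean square over all points and frames, in the limit `n → ∞` and then
`R → ∞` -/
def RPlanckAt (ρ : ℍ → ℝ) (D : Set ℍ) (φ : ℕ → ℍ → ℝ) (m : ℕ → ℝ) (a : ℂ) : Prop :=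
  ∀ ε > 0, ∃ R₀ : ℝ, ∀ R ≥ R₀, ∀ᶠ n in atTop,
    ∫ p, (spatialAvg (rWave ρ (φ n) (m n)) a R p - waveK a) ^ 2 ∂(rFrameProb ρ D) ≤ ε

/-- the mean square, over all points and frames, of the local mass
`⨍_{|x|<R} |Fₙ(x)|² dx` of the wave in the disc of radius `R` on the scale of the wavelength -/
def massSq (ρ : ℍ → ℝ) (D : Set ℍ) (φ : ℍ → ℝ) (m : ℝ) (R : ℝ) : ℝ :=
  ∫ p, spatialAvg (rWave ρ φ m) 0 R p ^ 2 ∂(rFrameProb ρ D)

end

end Berry
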