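import Pool.Agent.LibH11.Berry.RFin2

/-!
Fourth moments of Laplace eigenfunctions on closed surfaces.
-/

open UpperHalfPlane MeasureTheory ProbabilityTheory MatrixGroups Filter Topology Set
  InnerProductSpace Laplacian
open scoped ENNReal NNReal Pointwise

namespace Berry

noncomputable section

variable {Γ : Subgroup SL(2, ℝ)} {ρ : ℍ → ℝ} {D : Set ℍ} {φ : ℕ → ℍ → ℝ} {m : ℕ → ℝ}

/-- a compact quotient has finite area -/
lemma finite_of_cocompact [Countable Γ] (hD : IsFundamentalDomain Γ D (volume : Measure ℍ))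
    (hK : ∃ K : Set ℍ, IsCompact K ∧ ∀ z, ∃ γ ∈ Γ, γ • z ∈ K) : volume D ≠ ∞ := by
  obtain ⟨K, hK, hcov⟩ := hK
  refine ne_top_of_le_ne_top (hK.measure_lt_top (μ := (volume : Measure ℍ))).ne ?_
  rw [hD.measure_eq_tsum K]
  refine le_trans (measure_mono ?_) (measure_iUnion_le _)
  intro z hz
  obtain ⟨γ, hγ, hzK⟩ := hcov z
  refine Set.mem_iUnion.2 ⟨(⟨γ, hγ⟩ : Γ)⁻¹, ?_, hz⟩
  rw [Set.mem_inv_smul_set_iff]
  exact hzK

lemma bdd_of_cocompact {f : ℍ → ℝ} (hf : Continuous f) (hinv : ∀ γ ∈ Γ, ∀ z, f (γ • z) = f z)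
    (hK : ∃ K : Set ℍ, IsCompact K ∧ ∀ z, ∃ γ ∈ Γ, γ • z ∈ K) : ∃ C : ℝ, ∀ z, |f z| ≤ C := by
  obtain ⟨K, hK, hcov⟩ := hK
  obtain ⟨C, hC⟩ := hK.exists_bound_of_continuousOn hf.continuousOn
  refine ⟨C, fun z => ?_⟩
  obtain ⟨γ, hγ, hz⟩ := hcov z
  rw [← hinv γ hγ z]
  exact hC _ hz

lemma unif_of_cocompact {f : ℍ → ℝ} (hf : Continuous f) (hinv : ∀ γ ∈ Γ, ∀ z, f (γ • z) = f z)
    (hK : ∃ K : Set ℍ, IsCompact K ∧ ∀ z, ∃ γ ∈ Γ, γ • z ∈ K) : UniformContinuous f := by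
  obtain ⟨K, hK, hcov⟩ := hK
  rw [Metric.uniformContinuous_iff]
  intro ε hε
  have h1 := hK.uniformContinuousAt_of_continuousAt f (fun a _ => hf.continuousAt)
    (Metric.dist_mem_uniformity hε)
  obtain ⟨δ, hδ, h2⟩ := Metric.mem_uniformity_dist.1 h1
  refine ⟨δ, hδ, fun {z z'} hz => ?_⟩
  obtain ⟨γ, hγ, hzK⟩ := hcov z
  have h3 : dist (γ • z) (γ • z') < δ := by rw [dist_smul]; exact hz
  have h4 := h2 h3 hzK
  simpa only [Set.mem_ofPred_eq, hinv γ hγ] using h4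

/-- the data on a closed surface -/
structure Surf (Γ : Subgroup SL(2, ℝ)) (ρ : ℍ → ℝ) (D : Set ℍ) (φ : ℕ → ℍ → ℝ) (m : ℕ → ℝ) :
    Prop where
  geo : Geo Γ ρ D
  eig : REigenSeq Γ ρ φ m
  bdd : ∀ n, ∃ C : ℝ, ∀ z, |φ n z| ≤ C

lemma Surf.subseq (h : Surf Γ ρ D φ m) {σ : ℕ → ℕ} (hσ : Tendsto σ atTop atTop) :
    Surf Γ ρ D (fun n => φ (σ n)) (fun n => m (σ n)) :=
  ⟨h.geo, ⟨fun n => h.eig.invariant (σ n), fun n => h.eig.smooth (σ n),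
    fun n => h.eig.eigen (σ n), h.eig.tendsto.comp hσ⟩, fun n => h.bdd (σ n)⟩

lemma Surf.reig (h : Surf Γ ρ D φ m) (n : ℕ) : REig ρ (φ n) (m n) :=
  ⟨h.eig.smooth n, h.eig.eigen n⟩

lemma Surf.dat [Countable Γ] (h : Surf Γ ρ D φ m) {B₁ : ℝ}
    (hB₁ : ∀ n, rAvg ρ D (fun z => φ n z ^ 4) ≤ B₁) : ∃ B, Dat Γ ρ D φ m B := by
  obtain ⟨c, hc0, hc⟩ := hyp_le h.geo
  refine ⟨c * B₁, h.geo, h.eig, h.bdd, Eventually.of_forall fun n => ?_⟩
  have hcont : Continuous fun z => φ n z ^ 4 := (h.reig n).continuous.pow 4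
  refine (hc (fun z => φ n z ^ 4) hcont (fun z => by positivity) ?_).trans
    (mul_le_mul_of_nonneg_left (hB₁ n) hc0)
  obtain ⟨C, hC⟩ := h.bdd n
  refine ⟨C ^ 4, fun z => ?_⟩
  rw [abs_pow]
  exact pow_le_pow_left₀ (abs_nonneg _) (hC z) 4

lemma Surf.c2_zero [Countable Γ] (h : Surf Γ ρ D φ m) {R : ℕ → ℕ} (n : ℕ) :
    c2 (rFrameProb ρ D) (wW ρ φ m R) n 0 0 = rAvg ρ D fun z => φ n z ^ 2 := by
  have h1 : Continuous fun z => φ n z ^ 2 := (h.reig n).continuous.pow 2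
  rw [← rFrame_fst h.geo h1.measurable]
  unfold c2
  congr 1; funext p
  unfold wW
  rw [sW_zero, cut_one (by simp)]; ring

lemma Surf.c4_zero [Countable Γ] (h : Surf Γ ρ D φ m) {R : ℕ → ℕ} (n : ℕ) :
    c4 (rFrameProb ρ D) (wW ρ φ m R) n 0 0 0 0 = rAvg ρ D fun z => φ n z ^ 4 := by
  have h1 : Continuous fun z => φ n z ^ 4 := (h.reig n).continuous.pow 4
  rw [← rFrame_fst h.geo h1.measurable]
  unfold c4
  congr 1; funext p
  unfold wW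
  rw [sW_zero, cut_one (by simp)]; ring

/-- **lower bound for the fourth moments of eigenfunctions** -/
theorem Surf.lower [Countable Γ] (h : Surf Γ ρ D φ m)
    (hnorm : ∀ n, rAvg ρ D (fun z => φ n z ^ 2) = 1) {ε : ℝ} (hε : 0 < ε) :
    ∀ᶠ n in atTop, 3 / 2 - ε ≤ rAvg ρ D fun z => φ n z ^ 4 := by
  have hP := rFrameProb_isProb h.geo
  by_contra hcon
  have hfr : ∃ᶠ n in atTop, (rAvg ρ D fun z => φ n z ^ 4) < 3 / 2 - ε := by
    rw [Filter.not_eventually] at hcon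
    exact hcon.mono fun n hn => not_le.1 hn
  obtain ⟨σ, hσ, hlt⟩ := extraction_of_frequently_atTop hfr
  have h' := h.subseq hσ.tendsto_atTop
  obtain ⟨B, hdat⟩ := h'.dat (B₁ := 3 / 2 - ε) fun n => (hlt n).le
  obtain ⟨R, B', hR, hA⟩ := hdat.aWave (B₁ := 3 / 2 - ε) fun n => (hlt n).le
  have h1 := hA.lower (v := 1) (L := 3 / 2 - ε) (by
    refine tendsto_const_nhds.congr fun n => ?_
    rw [h'.c2_zero, hnorm (σ n)]) (Eventually.of_forall fun n => by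
      rw [h'.c4_zero]; exact (hlt n).le)
  linarith

/-- for fixed points and large `n`, the cutoffs are invisible -/
lemma Surf.ev_eq (h : Surf Γ ρ D φ m) {R : ℕ → ℕ} (hR : Tendsto R atTop atTop) (r : ℝ) :
    ∀ᶠ n in atTop, ∀ x : ℂ, ‖x‖ ≤ r → ∀ p, wW ρ φ m R n x p = rWave ρ (φ n) (m n) x p := by
  obtain ⟨K, hK⟩ := h.geo.bdd
  filter_upwards [wW_eq (ρ := ρ) (φ := φ) (m := m) hR r,
    (h.eig.tendsto.const_div_atTop (|r| * Real.exp K)).eventually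
    (gt_mem_nhds (show (0:ℝ) < 1 / 4 by norm_num)), h.eig.tendsto.eventually_gt_atTop 0]
    with n h1 h2 hm x hx p
  rw [h1 x hx p]
  unfold sW rWave
  have hc0 : 0 < Real.exp (ρ p.1) := Real.exp_pos _
  rw [cutWave_eq]
  · unfold localWave
    congr 4
    rw [Complex.ofReal_mul, div_div, mul_comm]
  · rw [norm_div, norm_div, Complex.norm_real, Complex.norm_real, Real.norm_of_nonneg hm.le,
      Real.norm_of_nonneg hc0.le]
    refine le_trans ?_ h2.le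
    apply div_le_div_of_nonneg_right _ hm.le
    rw [div_eq_mul_inv, ← Real.exp_neg]
    exact mul_le_mul (hx.trans (le_abs_self r)) (Real.exp_le_exp.2
      (by have := (abs_le.1 (hK p.1)).1; linarith)) (Real.exp_pos _).le (abs_nonneg _)

lemma Surf.c4_ev (h : Surf Γ ρ D φ m) {R : ℕ → ℕ} (hR : Tendsto R atTop atTop)
    (x₁ x₂ x₃ x₄ : ℂ) : ∀ᶠ n in atTop, c4 (rFrameProb ρ D) (wW ρ φ m R) n x₁ x₂ x₃ x₄
      = ∫ p, rWave ρ (φ n) (m n) x₁ p * rWave ρ (φ n) (m n) x₂ p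
        * rWave ρ (φ n) (m n) x₃ p * rWave ρ (φ n) (m n) x₄ p ∂(rFrameProb ρ D) := by
  filter_upwards [h.ev_eq hR ‖x₁‖, h.ev_eq hR ‖x₂‖, h.ev_eq hR ‖x₃‖, h.ev_eq hR ‖x₄‖]
    with n h1 h2 h3 h4
  unfold c4
  congr 1; funext p
  rw [h1 x₁ le_rfl, h2 x₂ le_rfl, h3 x₃ le_rfl, h4 x₄ le_rfl]

lemma Surf.c2_ev (h : Surf Γ ρ D φ m) {R : ℕ → ℕ} (hR : Tendsto R atTop atTop)
    (x₁ x₂ : ℂ) : ∀ᶠ n in atTop, c2 (rFrameProb ρ D) (wW ρ φ m R) n x₁ x₂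
      = ∫ p, rWave ρ (φ n) (m n) x₁ p * rWave ρ (φ n) (m n) x₂ p ∂(rFrameProb ρ D) := by
  filter_upwards [h.ev_eq hR ‖x₁‖, h.ev_eq hR ‖x₂‖] with n h1 h2
  unfold c2
  congr 1; funext p
  rw [h1 x₁ le_rfl, h2 x₂ le_rfl]

lemma Surf.spatial_ev (h : Surf Γ ρ D φ m) {R : ℕ → ℕ} (hR : Tendsto R atTop atTop)
    (a : ℂ) (S : ℝ) : ∀ᶠ n in atTop, ∀ p,
    spatialAvg (wW ρ φ m R n) a S p = spatialAvg (rWave ρ (φ n) (m n)) a S p := by
  filter_upwards [h.ev_eq hR (S + ‖a‖)] with n hn p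
  unfold spatialAvg
  rw [setAverage_eq, setAverage_eq]
  congr 1
  apply setIntegral_congr_fun measurableSet_ball
  intro x hx
  rw [Metric.mem_ball, dist_zero_right] at hx
  simp only
  rw [hn x (by linarith [norm_nonneg a]), hn (x + a) ((norm_add_le x a).trans (by linarith))]

lemma Surf.planck_iff (h : Surf Γ ρ D φ m) {R : ℕ → ℕ} (hR : Tendsto R atTop atTop) (a : ℂ) :
    RPlanckAt ρ D φ m a ↔ ∀ ε > 0, ∃ R₀ : ℝ, ∀ S ≥ R₀, ∀ᶠ n in atTop,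
      ∫ p, (spatialAvg (wW ρ φ m R n) a S p - 1 * waveK a) ^ 2 ∂(rFrameProb ρ D) ≤ ε := by
  unfold RPlanckAt
  constructor
  · intro h1 ε hε
    obtain ⟨R₀, hR₀⟩ := h1 ε hε
    refine ⟨R₀, fun S hS => ?_⟩
    filter_upwards [hR₀ S hS, h.spatial_ev hR a S] with n hn hn2
    simp only [hn2, one_mul]
    exact hn
  · intro h1 ε hε
    obtain ⟨R₀, hR₀⟩ := h1 ε hε
    refine ⟨R₀, fun S hS => ?_⟩
    filter_upwards [hR₀ S hS, h.spatial_ev hR a S] with n hn hn2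
    simp only [hn2, one_mul] at hn
    exact hn

lemma RPlanckAt.subseq {a : ℂ} (hq : RPlanckAt ρ D φ m a) {σ : ℕ → ℕ}
    (hσ : Tendsto σ atTop atTop) :
    RPlanckAt ρ D (fun n => φ (σ n)) (fun n => m (σ n)) a := by
  intro ε hε
  obtain ⟨R₀, hR₀⟩ := hq ε hε
  exact ⟨R₀, fun S hS => hσ.eventually (hR₀ S hS)⟩

/-- **upper bound for the fourth moments under Planck-scale equidistribution of mass** -/
theorem Surf.upper [Countable Γ] (h : Surf Γ ρ D φ m) {B : ℝ}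
    (hB : ∀ n, (rAvg ρ D fun z => φ n z ^ 4) ≤ B) (hq : RPlanckAt ρ D φ m 0)
    {ε : ℝ} (hε : 0 < ε) :
    ∀ᶠ n in atTop, (rAvg ρ D fun z => φ n z ^ 4) ≤ 3 + ε := by
  have hP := rFrameProb_isProb h.geo
  by_contra hcon
  have hfr : ∃ᶠ n in atTop, 3 + ε < (rAvg ρ D fun z => φ n z ^ 4) := by
    rw [Filter.not_eventually] at hcon
    exact hcon.mono fun n hn => not_le.1 hn
  obtain ⟨σ, hσ, hlt⟩ := extraction_of_frequently_atTop hfr
  have h' := h.subseq hσ.tendsto_atTop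
  obtain ⟨B₂, hdat⟩ := h'.dat (B₁ := B) fun n => hB (σ n)
  obtain ⟨R, B', hR, hA⟩ := hdat.aWave (B₁ := B) fun n => hB (σ n)
  have hq1 := (h'.planck_iff hR 0).1 (hq.subseq hσ.tendsto_atTop)
  have h1 := hA.upper (v := 1) (L := 3 + ε) (by
    intro ε hε
    obtain ⟨R₀, hR₀⟩ := hq1 ε hε
    refine ⟨R₀, fun R hR => ?_⟩
    filter_upwards [hR₀ R hR] with n hn
    rw [waveK_zero, mul_one] at hn
    exact hn) (Eventually.of_forall fun n => by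
      rw [h'.c4_zero]; exact (hlt n).le)
  linarith

/-- **equivalence of Gaussian four-point correlations and Planck-scale quantum ergodicity** -/
theorem Surf.four_iff [Countable Γ] (h : Surf Γ ρ D φ m)
    (hnorm : ∀ n, rAvg ρ D (fun z => φ n z ^ 2) = 1) :
    RFourPt ρ D φ m ↔
      (∃ B : ℝ, ∀ n, (rAvg ρ D fun z => φ n z ^ 4) ≤ B) ∧ ∀ a, RPlanckAt ρ D φ m a := by
  have hP := rFrameProb_isProb h.geo
  constructor
  · intro hf
    have h0 : Tendsto (fun n => rAvg ρ D fun z => φ n z ^ 4) atTop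
        (𝓝 (waveK (0 - 0) * waveK (0 - 0) + waveK (0 - 0) * waveK (0 - 0)
          + waveK (0 - 0) * waveK (0 - 0))) := by
      refine (hf 0 0 0 0).congr' ?_
      filter_upwards [h.c4_ev tendsto_id 0 0 0 0] with n hn
      rw [← hn, h.c4_zero]
    obtain ⟨B₁, hB₁⟩ := h0.bddAbove_range
    have hB' : ∀ n, (rAvg ρ D fun z => φ n z ^ 4) ≤ B₁ := fun n => hB₁ ⟨n, rfl⟩
    refine ⟨⟨B₁, hB'⟩, fun a => ?_⟩
    obtain ⟨B₂, hdat⟩ := h.dat hB'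
    obtain ⟨R, B', hR, hA⟩ := hdat.aWave hB'
    have h4 : ∀ x₁ x₂ x₃ x₄, Tendsto (fun n => c4 (rFrameProb ρ D) (wW ρ φ m R) n x₁ x₂ x₃ x₄)
        atTop (𝓝 ((1:ℝ) ^ 2 * (waveK (x₁ - x₂) * waveK (x₃ - x₄)
          + waveK (x₁ - x₃) * waveK (x₂ - x₄) + waveK (x₁ - x₄) * waveK (x₂ - x₃)))) := by
      intro x₁ x₂ x₃ x₄
      rw [one_pow, one_mul]
      refine (hf x₁ x₂ x₃ x₄).congr' ?_
      filter_upwards [h.c4_ev hR x₁ x₂ x₃ x₄] with n hn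
      exact hn.symm
    rw [h.planck_iff hR]
    exact hA.planck_of_gauss (v := 1) (by
      refine tendsto_const_nhds.congr fun n => ?_
      rw [h.c2_zero, hnorm n]) h4 a
  · rintro ⟨⟨B, hB⟩, hq⟩ x₁ x₂ x₃ x₄
    obtain ⟨B₂, hdat⟩ := h.dat hB
    obtain ⟨R, B', hR, hA⟩ := hdat.aWave hB
    have h1 := (hA.gauss_of_planck (v := 1) fun a => (h.planck_iff hR a).1 (hq a)).1 x₁ x₂ x₃ x₄
    rw [one_pow, one_mul] at h1
    refine h1.congr' ?_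
    filter_upwards [h.c4_ev hR x₁ x₂ x₃ x₄] with n hn
    exact hn

/-- two-point functions -/
theorem Surf.two_of_planck [Countable Γ] (h : Surf Γ ρ D φ m) {B : ℝ}
    (hB : ∀ n, (rAvg ρ D fun z => φ n z ^ 4) ≤ B) (hq : ∀ a, RPlanckAt ρ D φ m a)
    (x₁ x₂ : ℂ) : Tendsto (fun n => ∫ p, rWave ρ (φ n) (m n) x₁ p
      * rWave ρ (φ n) (m n) x₂ p ∂(rFrameProb ρ D)) atTop (𝓝 (waveK (x₁ - x₂))) := by
  have hP := rFrameProb_isProb h.geo
  obtain ⟨B₂, hdat⟩ := h.dat hB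
  obtain ⟨R, B', hR, hA⟩ := hdat.aWave hB
  have h1 := (hA.gauss_of_planck (v := 1) fun a => (h.planck_iff hR a).1 (hq a)).2 x₁ x₂
  rw [one_mul] at h1
  refine h1.congr' ?_
  filter_upwards [h.c2_ev hR x₁ x₂] with n hn
  exact hn

/-- closed surfaces -/
theorem surf_of_cocompact [Countable Γ] (hD : IsFundamentalDomain Γ D (volume : Measure ℍ))
    (hDm : MeasurableSet D) (hK : ∃ K : Set ℍ, IsCompact K ∧ ∀ z, ∃ γ ∈ Γ, γ • z ∈ K)
    (hρ : Continuous ρ) (hρi : ∀ γ ∈ Γ, ∀ z, ρ (γ • z) = ρ z) (hφ : REigenSeq Γ ρ φ m) :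
    Surf Γ ρ D φ m :=
  ⟨⟨hD, hDm, finite_of_cocompact hD hK, hρi, bdd_of_cocompact hρ hρi hK,
    unif_of_cocompact hρ hρi hK⟩, hφ, fun n => bdd_of_cocompact
      (REig.continuous ⟨hφ.smooth n, hφ.eigen n⟩) (hφ.invariant n) hK⟩

end

end Berry
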