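import Mathlib

/-!
A real Hilbert space with prescribed Gram matrix.
-/

open MeasureTheory InnerProductSpace RKHS

namespace Berry

noncomputable section

theorem exists_hilbert {X : Type} (k : X → X → ℝ) (hsymm : ∀ x y, k x y = k y x)
    (hpsd : ∀ (s : Finset X) (c : X → ℝ), 0 ≤ ∑ x ∈ s, ∑ y ∈ s, c x * c y * k x y) :
    ∃ (H : Type) (_ : NormedAddCommGroup H) (_ : InnerProductSpace ℝ H) (_ : CompleteSpace H)
      (e : X → H), ∀ x y, inner ℝ (e x) (e y) = k x y := by
  set K : Matrix X X (ℝ →L[ℝ] ℝ) := fun x y => k x y • ContinuousLinearMap.id ℝ ℝ with hK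
  have hKapp : ∀ x y v, K x y v = k x y * v := by
    intro x y v; simp [hK]
  have hherm : K.IsHermitian := by
    ext x y
    rw [Matrix.conjTranspose_apply]
    have : K y x = K x y := by
      simp only [hK]; rw [hsymm]
    rw [this, ContinuousLinearMap.star_eq_adjoint]
    refine congrArg (fun T : ℝ →L[ℝ] ℝ => T 1) ?_
    refine ContinuousLinearMap.ext fun v => ?_
    apply ext_inner_right ℝ
    intro w
    rw [ContinuousLinearMap.adjoint_inner_left, hKapp, hKapp]
    simp only [RCLike.inner_apply, conj_trivial]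
    ring
  have hpos : K.PosSemidef := by
    apply (posSemidef_tfae.out 0 2).mpr
    refine ⟨hherm, fun vv => ?_⟩
    have h := hpsd vv.support (fun x => vv x)
    simp only [Finsupp.sum, hKapp]
    simp only [RCLike.inner_apply, conj_trivial, RCLike.re_to_real]
    refine le_of_le_of_eq h ?_
    refine Finset.sum_congr rfl fun x _ => Finset.sum_congr rfl fun y _ => ?_
    rw [hsymm x y]; ring
  haveI : Fact K.PosSemidef := ⟨hpos⟩
  refine ⟨RKHS.OfKernel K, inferInstance, inferInstance, inferInstance,
    fun x => kerFun (RKHS.OfKernel K) x 1, fun x y => ?_⟩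
  have h1 := kernel_inner (RKHS.OfKernel K) y x (1:ℝ) (1:ℝ)
  rw [RKHS.OfKernel.kernel_ofKernel] at h1
  rw [← h1, hKapp, hsymm]
  simp

end

end Berry
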