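import Pool.Agent.LibH11.Berry.Hyp

/-!
The converse: the Gaussian four-point function implies Planck-scale quantum ergodicity; and
averages of products along transversal directions.
-/

open Complex Filter Topology MeasureTheory ProbabilityTheory Metric
open scoped ENNReal

namespace Berry

noncomputable section

variable {Ω : Type*} [MeasurableSpace Ω] {P : Measure Ω} [IsProbabilityMeasure P]
  {F : ℂ → Ω → ℝ}

/-- the `L²`-valued average is a.e. equal to the pointwise average -/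
lemma InvWave.avg_prod_coeFn (hF : InvWave P F) (h4 : MemLp (F 0) 4 P) {α β : ℂ → ℂ}
    (hα : Continuous α) (hβ : Continuous β) (R : ℝ) :
    (⨍ x in ball (0:ℂ) R, mulX P (hF.toL4 h4 (α x)) (hF.toL4 h4 (β x)) : Lp ℂ 2 P) =ᵐ[P]
      fun ω => ((⨍ x in ball (0:ℂ) R, F (α x) ω * F (β x) ω : ℝ) : ℂ) := by
  have hcont := hF.continuous_toL4 h4
  have hco : ∀ x, mulX P (hF.toL4 h4 (α x)) (hF.toL4 h4 (β x)) =ᵐ[P]
      fun ω => ((F (α x) ω * F (β x) ω : ℝ) : ℂ) := by
    intro x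
    filter_upwards [coeFn_mulX (hF.toL4 h4 (α x)) (hF.toL4 h4 (β x)), hF.coeFn_toL4 h4 (α x),
      hF.coeFn_toL4 h4 (β x)] with ω h1 h2 h3
    rw [h1, h2, h3]; push_cast; ring
  have hp : ∀ x, MemLp (fun ω => ((F (α x) ω * F (β x) ω : ℝ) : ℂ)) 2 P := fun x =>
    (Lp.memLp (mulX P (hF.toL4 h4 (α x)) (hF.toL4 h4 (β x)))).ae_eq (hco x)
  have he : (fun x => (hp x).toLp _) = fun x => mulX P (hF.toL4 h4 (α x)) (hF.toL4 h4 (β x)) := by
    funext x
    apply Lp.ext
    filter_upwards [(hp x).coeFn_toLp, hco x] with ω h1 h2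
    rw [h1, h2]
  have hm : StronglyMeasurable (Function.uncurry fun (x : ℂ) ω =>
      ((F (α x) ω * F (β x) ω : ℝ) : ℂ)) := by
    have h1 : Measurable fun p : ℂ × Ω => F (α p.1) p.2 :=
      hF.measurable_uncurry.comp ((hα.measurable.comp measurable_fst).prodMk measurable_snd)
    have h2 : Measurable fun p : ℂ × Ω => F (β p.1) p.2 :=
      hF.measurable_uncurry.comp ((hβ.measurable.comp measurable_fst).prodMk measurable_snd)
    exact (Complex.measurable_ofReal.comp (h1.mul h2)).stronglyMeasurable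
  have hcm : Continuous fun x => mulX P (hF.toL4 h4 (α x)) (hF.toL4 h4 (β x)) :=
    ((mulX P).continuous.comp (hcont.comp hα)).clm_apply (hcont.comp hβ)
  have hi : Integrable (fun x => (hp x).toLp _) (volume.restrict (ball (0:ℂ) R)) := by
    rw [he]
    exact intOn hcm 0 R
  have key := Lp_integral_coeFn hm hp hi
  rw [he] at key
  rw [setAverage_eq]
  filter_upwards [key, Lp.coeFn_smul ((volume.real (ball (0:ℂ) R))⁻¹ : ℝ)
    (∫ x in ball (0:ℂ) R, mulX P (hF.toL4 h4 (α x)) (hF.toL4 h4 (β x)))] with ω h1 h2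
  rw [h2, Pi.smul_apply, h1, setAverage_eq, integral_complex_ofReal]
  simp

lemma pairX_self_sub (u : Lp ℂ 2 P) (f : Ω → ℝ) (hf : u =ᵐ[P] fun ω => (f ω : ℂ)) (k : ℝ) :
    pairX P (u - (k : ℂ) • one2 P) (u - (k : ℂ) • one2 P) = ((∫ ω, (f ω - k) ^ 2 ∂P : ℝ) : ℂ) := by
  rw [pairX_eq, ← integral_complex_ofReal]
  apply integral_congr_ae
  filter_upwards [Lp.coeFn_sub u ((k : ℂ) • one2 P), Lp.coeFn_smul (k : ℂ) (one2 P),
    coeFn_one2 (P := P), hf] with ω e1 e2 e3 e4
  rw [e1, Pi.sub_apply, e2, Pi.smul_apply, e3, e4, smul_eq_mul, mul_one]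
  push_cast; ring

omit [IsProbabilityMeasure P] in
lemma pairX_symm (a b : Lp ℂ 2 P) : pairX P a b = pairX P b a := by
  rw [pairX_eq, pairX_eq]; congr 1; funext ω; ring

omit [IsProbabilityMeasure P] in
lemma pairX_smul1 (z : ℂ) (a b : Lp ℂ 2 P) : pairX P (z • a) b = z * pairX P a b := by
  rw [pairX_eq, pairX_eq, ← integral_const_mul]
  apply integral_congr_ae
  filter_upwards [Lp.coeFn_smul z a] with ω h1
  rw [h1]; simp only [Pi.smul_apply, smul_eq_mul]; ring

omit [IsProbabilityMeasure P] in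
lemma pairX_smul2 (z : ℂ) (a b : Lp ℂ 2 P) : pairX P a (z • b) = z * pairX P a b := by
  rw [pairX_symm, pairX_smul1, pairX_symm]

lemma pairX_one_one : pairX P (one2 P) (one2 P) = 1 := by
  rw [pairX_eq]
  have : ∫ ω, (one2 P) ω * (one2 P) ω ∂P = ∫ _, (1:ℂ) ∂P := by
    apply integral_congr_ae
    filter_upwards [coeFn_one2 (P := P)] with ω h
    rw [h]; ring
  rw [this]; simp

lemma pairX_expand (u : Lp ℂ 2 P) (k : ℂ) :
    pairX P (u - k • one2 P) (u - k • one2 P)
      = pairX P u u - 2 * k * pairX P u (one2 P) + k ^ 2 := by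
  simp only [map_sub, _root_.sub_apply, pairX_smul1, pairX_smul2, pairX_one_one]
  rw [pairX_symm (one2 P) u]; ring

omit [IsProbabilityMeasure P] in
lemma pairX_avg2 (G : ℂ → Lp ℂ 2 P) (hG : Continuous G) (H : Lp ℂ 2 P) (R : ℝ) :
    pairX P H (⨍ x in ball (0:ℂ) R, G x) = ⨍ x in ball (0:ℂ) R, pairX P H (G x) := by
  rw [pairX_symm, pairX_avg G hG H R]
  congr 1
  funext x; rw [pairX_symm]

lemma avg_close {h : ℂ → ℂ} (hh : Continuous h) {L : ℂ} {ε : ℝ} (hb : ∀ s, ‖h s - L‖ ≤ ε)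
    {R : ℝ} (hR : 0 < R) : ‖(⨍ s in ball (0:ℂ) R, h s) - L‖ ≤ ε := by
  have e : (⨍ s in ball (0:ℂ) R, h s) - L = ⨍ s in ball (0:ℂ) R, (h s - L) := by
    have := avg_add hh (continuous_const (y := -L)) R
    rw [avg_const hR, ← sub_eq_add_neg] at this
    rw [← this]
    rfl
  rw [e]
  refine (avg_norm_le _ R).trans ?_
  exact avg_le_of_le (hh.sub continuous_const).norm hb hR

lemma avg_mono {g h : ℂ → ℝ} (hg : Continuous g) (hh : Continuous h) (hle : ∀ s, g s ≤ h s)
    (R : ℝ) : ⨍ s in ball (0:ℂ) R, g s ≤ ⨍ s in ball (0:ℂ) R, h s := by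
  rw [setAverage_eq, setAverage_eq, smul_eq_mul, smul_eq_mul]
  refine mul_le_mul_of_nonneg_left ?_ (by positivity)
  exact integral_mono (intOn hg 0 R) (intOn hh 0 R) hle

omit [IsProbabilityMeasure P] in
/-- two-scale averages: if `pairX (A s) (B s') = L + error`, with errors controlled by functions
vanishing at infinity, then the pairing of the averages tends to `L`. -/
lemma dbl_avg {A B : ℂ → Lp ℂ 2 P} (hA : Continuous A) (hB : Continuous B) {L : ℂ}
    {g : ℂ → ℂ} (hg : Continuous g) (hv : VanInf g) {C : ℝ} (hC : ∀ s, ‖g s‖ ≤ C)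
    {q q₂ q' : ℂ → ℂ} {v : ℝ} (hv0 : 0 ≤ v) {g' : ℂ → ℂ} (hg' : Continuous g') (hv' : VanInf g')
    (hC' : ∀ s, ‖g' s‖ ≤ C)
    (hb : ∀ s s', ‖pairX P (A s) (B s') - L‖ ≤ v * ‖g (q s + s')‖ + v * ‖g (q₂ s + s')‖
      + v * ‖g' (q' s + s')‖) :
    Tendsto (fun R : ℝ => pairX P (⨍ s in ball (0:ℂ) R, A s) (⨍ s in ball (0:ℂ) R, B s)) atTop
      (𝓝 L) := by
  rw [Metric.tendsto_atTop]
  intro ε hε
  obtain ⟨R₀, hR₀, h1⟩ := unif_avg hg hv hC (ε / (6 * (v + 1))) (by positivity)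
  obtain ⟨R₁, hR₁, h2⟩ := unif_avg hg' hv' hC' (ε / (6 * (v + 1))) (by positivity)
  refine ⟨max R₀ R₁, fun R hR => ?_⟩
  have hRpos : 0 < R := lt_of_lt_of_le hR₀ ((le_max_left _ _).trans hR)
  rw [dist_eq_norm, pairX_avg A hA]
  refine lt_of_le_of_lt (avg_close (ε := ε/2) ?_ ?_ hRpos) (by linarith)
  · exact ((pairX P).continuous.comp hA).clm_apply continuous_const
  · intro s
    rw [pairX_avg2 B hB]
    have hcB : Continuous fun s' => pairX P (A s) (B s') :=
      ((pairX P (A s)).continuous).comp hB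
    have e : (⨍ s' in ball (0:ℂ) R, pairX P (A s) (B s')) - L
        = ⨍ s' in ball (0:ℂ) R, (pairX P (A s) (B s') - L) := by
      have := avg_add hcB (continuous_const (y := -L)) R
      rw [avg_const hRpos, ← sub_eq_add_neg] at this
      rw [← this]
      rfl
    rw [e]
    refine (avg_norm_le _ R).trans ?_
    have c1 : Continuous fun s' => v * ‖g (q s + s')‖ :=
      continuous_const.mul (hg.comp (continuous_const.add continuous_id)).norm
    have c1' : Continuous fun s' => v * ‖g (q₂ s + s')‖ :=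
      continuous_const.mul (hg.comp (continuous_const.add continuous_id)).norm
    have c2 : Continuous fun s' => v * ‖g' (q' s + s')‖ :=
      continuous_const.mul (hg'.comp (continuous_const.add continuous_id)).norm
    have c11 : Continuous fun s' => v * ‖g (q s + s')‖ + v * ‖g (q₂ s + s')‖ := c1.add c1'
    have c12 : Continuous fun s' => v * ‖g (q s + s')‖ + v * ‖g (q₂ s + s')‖
      + v * ‖g' (q' s + s')‖ := c11.add c2
    refine (avg_mono (hcB.sub continuous_const).norm c12 (hb s) R).trans ?_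
    rw [avg_add c11 c2 R, avg_add c1 c1' R]
    have hm : ∀ (k : ℂ → ℂ) (p : ℂ), ⨍ s' in ball (0:ℂ) R, v * ‖k (p + s')‖
        = v * ⨍ s' in ball (0:ℂ) R, ‖k (p + s')‖ := by
      intro k p
      rw [setAverage_eq, setAverage_eq, integral_const_mul, smul_eq_mul, smul_eq_mul]; ring
    rw [hm g (q s), hm g (q₂ s), hm g' (q' s)]
    have hsm : ∀ z : ℝ, z ≤ ε / (6 * (v + 1)) → v * z ≤ ε / 6 := by
      intro z hz
      calc v * z ≤ v * (ε / (6 * (v + 1))) := mul_le_mul_of_nonneg_left hz hv0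
        _ ≤ (v + 1) * (ε / (6 * (v + 1))) := mul_le_mul_of_nonneg_right (by linarith)
            (by positivity)
        _ = ε / 6 := by field_simp
    have b1 := hsm _ (h1 R ((le_max_left _ _).trans hR) (q s))
    have b1' := hsm _ (h1 R ((le_max_left _ _).trans hR) (q₂ s))
    have b2 := hsm _ (h2 R ((le_max_right _ _).trans hR) (q' s))
    linarith

/-- `K` as a complex-valued function -/
def Kc (x : ℂ) : ℂ := (waveK x : ℂ)

lemma Kc_continuous : Continuous Kc := Complex.continuous_ofReal.comp waveK_continuous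

lemma Kc_norm (x : ℂ) : ‖Kc x‖ = |waveK x| := by rw [Kc, Complex.norm_real, Real.norm_eq_abs]

lemma Kc_le (x : ℂ) : ‖Kc x‖ ≤ 1 := by rw [Kc_norm]; exact waveK_abs_le x

lemma Kc_van : VanInf Kc := by
  intro ε hε
  obtain ⟨N, hN⟩ := waveK_vanishes ε hε
  exact ⟨N, fun s hs => by rw [Kc_norm]; exact hN s hs⟩

lemma Kc_lin_van {κ : ℂ} (hκ : κ ≠ 0) (p : ℂ) : VanInf (fun s => Kc (p + κ * s)) := by
  intro ε hε
  obtain ⟨N, hN⟩ := Kc_van ε hε
  have hk : 0 < ‖κ‖ := norm_pos_iff.2 hκ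
  refine ⟨(N + ‖p‖) / ‖κ‖, fun s hs => hN _ ?_⟩
  rw [div_le_iff₀ hk] at hs
  have : ‖κ * s‖ ≤ ‖p + κ * s‖ + ‖p‖ := by
    calc ‖κ * s‖ = ‖(p + κ * s) - p‖ := by congr 1; ring
      _ ≤ _ := norm_sub_le _ _
  rw [norm_mul] at this
  linarith [mul_comm ‖s‖ ‖κ‖]

variable (hF : InvWave P F) (h4 : MemLp (F 0) 4 P)

include hF h4 in
lemma InvWave.four_pair (h : FourPt P F) (a b : ℂ) :
    Tendsto (fun R : ℝ => pairX P (⨍ s in ball (0:ℂ) R, prodL2 (hF.toL4 h4) a s)
      (⨍ s in ball (0:ℂ) R, prodL2 (hF.toL4 h4) b s)) atTop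
      (𝓝 (((((∫ ω, F 0 ω ^ 2 ∂P) ^ 2 * (waveK a * waveK b) : ℝ)) : ℂ))) := by
  have hcont := hF.continuous_toL4 h4
  set v := ∫ ω, F 0 ω ^ 2 ∂P with hv
  refine dbl_avg (prodL2_continuous hcont a) (prodL2_continuous hcont b) (g := Kc) (g' := Kc)
    (C := 1) (q := fun s => -s) (q₂ := fun s => -s) (q' := fun s => b - s) (v := v ^ 2)
    Kc_continuous Kc_van Kc_le (by positivity) Kc_continuous Kc_van Kc_le ?_
  intro s s'
  have e1 : pairX P (prodL2 (hF.toL4 h4) a s) (prodL2 (hF.toL4 h4) b s')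
      = C4 P (hF.toL4 h4 s) (hF.toL4 h4 (s + a)) (hF.toL4 h4 s') (hF.toL4 h4 (s' + b)) := rfl
  refine le_trans ?_ (add_le_add_left (le_add_of_nonneg_right
    (by positivity : 0 ≤ v ^ 2 * ‖Kc (-s + s')‖)) _)
  rw [e1, hF.C4_F, h s (s + a) s' (s' + b), ← ofReal_sub, Complex.norm_real, Real.norm_eq_abs,
    Kc_norm, Kc_norm]
  have k1 : waveK (s - (s + a)) = waveK a := by
    rw [← waveK_neg]; congr 1; ring
  have k2 : waveK (s' - (s' + b)) = waveK b := by
    rw [← waveK_neg]; congr 1; ring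
  have k3 : waveK (s - s') = waveK (-s + s') := by
    rw [← waveK_neg]; congr 1; ring
  have k4 : waveK (s - (s' + b)) = waveK (b - s + s') := by
    rw [← waveK_neg]; congr 1; ring
  rw [k1, k2, k3, k4]
  have e2 : v ^ 2 * (waveK a * waveK b + waveK (-s + s') * waveK (s + a - (s' + b)) +
      waveK (b - s + s') * waveK (s + a - s')) - v ^ 2 * (waveK a * waveK b)
      = v ^ 2 * (waveK (-s + s') * waveK (s + a - (s' + b)))
        + v ^ 2 * (waveK (b - s + s') * waveK (s + a - s')) := by ring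
  rw [e2]
  refine (abs_add_le _ _).trans (add_le_add ?_ ?_)
  · rw [abs_mul, abs_of_nonneg (by positivity : (0:ℝ) ≤ v^2), abs_mul]
    have := waveK_abs_le (s + a - (s' + b))
    have h0 := abs_nonneg (waveK (-s + s'))
    refine mul_le_mul_of_nonneg_left ?_ (by positivity)
    nlinarith
  · rw [abs_mul, abs_of_nonneg (by positivity : (0:ℝ) ≤ v^2), abs_mul]
    have := waveK_abs_le (s + a - s')
    have h0 := abs_nonneg (waveK (b - s + s'))
    refine mul_le_mul_of_nonneg_left ?_ (by positivity)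
    nlinarith

include hF h4 in
lemma InvWave.pairX_avg_one (a : ℂ) {R : ℝ} (hR : 0 < R) :
    pairX P (⨍ s in ball (0:ℂ) R, prodL2 (hF.toL4 h4) a s) (one2 P)
      = ((∫ ω, F 0 ω * F a ω ∂P : ℝ) : ℂ) := by
  have hcont := hF.continuous_toL4 h4
  rw [pairX_avg _ (prodL2_continuous hcont a)]
  have h4' : ∀ s, pairX P (prodL2 (hF.toL4 h4) a s) (one2 P)
      = ((∫ ω, F 0 ω * F a ω ∂P : ℝ) : ℂ) := by
    intro s
    have e : pairX P (prodL2 (hF.toL4 h4) a s) (one2 P)
        = C2 P (hF.toL4 h4 s) (hF.toL4 h4 (s + a)) := by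
      rw [C2, C4, mulX_one4]; rfl
    rw [e, hF.C2_F]
    congr 1
    have := hF.int2_shift 0 a s
    rw [zero_add, add_comm a s] at this
    exact this
  simp only [h4']
  exact avg_const hR _

include hF h4 in
/-- the Gaussian four-point function implies Planck-scale quantum ergodicity -/
theorem InvWave.planck_of_fourPt (h : FourPt P F) : PlanckQE P F := by
  have hcont := hF.continuous_toL4 h4
  set v := ∫ ω, F 0 ω ^ 2 ∂P with hv
  have hv0 : 0 ≤ v := integral_nonneg fun _ => sq_nonneg _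
  set c : ℂ → ℝ := fun a => ∫ ω, F 0 ω * F a ω ∂P with hc
  have hc0 : c 0 = v := by
    simp only [hc, hv]; congr 1; funext ω; ring
  -- second moments of the averages
  have key : ∀ a : ℂ, ∀ k : ℝ, Tendsto (fun R : ℝ => ∫ ω, (spatialAvg F a R ω - k) ^ 2 ∂P) atTop
      (𝓝 (v ^ 2 * (waveK a * waveK a) - 2 * k * c a + k ^ 2)) := by
    intro a k
    have h1 := hF.four_pair h4 h a a
    rw [← hv] at h1
    have h2 : Tendsto (fun R : ℝ => ((∫ ω, (spatialAvg F a R ω - k) ^ 2 ∂P : ℝ) : ℂ)) atTop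
        (𝓝 ((v ^ 2 * (waveK a * waveK a) - 2 * k * c a + k ^ 2 : ℝ) : ℂ)) := by
      have h3 : Tendsto (fun R : ℝ =>
          pairX P (⨍ s in ball (0:ℂ) R, prodL2 (hF.toL4 h4) a s)
            (⨍ s in ball (0:ℂ) R, prodL2 (hF.toL4 h4) a s) - 2 * (k:ℂ) * (c a : ℂ) + (k:ℂ) ^ 2)
          atTop (𝓝 ((v ^ 2 * (waveK a * waveK a) - 2 * k * c a + k ^ 2 : ℝ) : ℂ)) := by
        have := (h1.sub_const (2 * (k:ℂ) * (c a : ℂ))).add_const ((k:ℂ) ^ 2)
        push_cast at this ⊢
        exact this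
      refine h3.congr' ?_
      filter_upwards [eventually_gt_atTop (0:ℝ)] with R hR
      rw [← pairX_self_sub _ _ (hF.avg_prodL2_coeFn h4 a R) k, pairX_expand,
        hF.pairX_avg_one h4 a hR]
    have h4' := (Complex.continuous_re.tendsto _).comp h2
    simpa only [Function.comp_def, ofReal_re] using h4'
  -- the energy converges
  have hV : Tendsto (fun R : ℝ => ∫ ω, (spatialAvg F 0 R ω - v) ^ 2 ∂P) atTop (𝓝 0) := by
    have := key 0 v
    rw [hc0, waveK_zero] at this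
    have e : v ^ 2 * (1 * 1) - 2 * v * v + v ^ 2 = 0 := by ring
    rwa [e] at this
  have hVL : Tendsto (fun R : ℝ => (⨍ s in ball (0:ℂ) R, prodL2 (hF.toL4 h4) 0 s)
      - (v : ℂ) • one2 P) atTop (𝓝 0) := by
    rw [tendsto_zero_iff_norm_tendsto_zero]
    have h1 : ∀ R : ℝ, ‖(⨍ s in ball (0:ℂ) R, prodL2 (hF.toL4 h4) 0 s) - (v : ℂ) • one2 P‖
        = Real.sqrt (∫ ω, (spatialAvg F 0 R ω - v) ^ 2 ∂P) := by
      intro R
      rw [← norm_sq_sub_const _ _ (hF.avg_prodL2_coeFn h4 0 R), Real.sqrt_sq (norm_nonneg _)]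
    simp only [h1]
    have := hV.sqrt
    simpa using this
  -- the two-point function
  have hcK : ∀ a, c a = v * waveK a := by
    intro a
    have h1 := hF.four_pair h4 h a 0
    rw [← hv, waveK_zero, mul_one] at h1
    -- bounded
    have hbd : ∀ R : ℝ, 0 < R → ‖(⨍ s in ball (0:ℂ) R, prodL2 (hF.toL4 h4) a s : Lp ℂ 2 P)‖ ≤
        ‖mulX P‖ * ‖hF.toL4 h4 0‖ * ‖hF.toL4 h4 0‖ := by
      intro R hR
      refine (avg_norm_le _ R).trans ?_
      refine avg_le_of_le (prodL2_continuous hcont a).norm (fun s => ?_) hR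
      refine ((mulX P).le_opNorm₂ _ _).trans (le_of_eq ?_)
      rw [hF.norm_toL4 h4 s, hF.norm_toL4 h4 (s + a)]
    have h2 : Tendsto (fun R : ℝ => pairX P (⨍ s in ball (0:ℂ) R, prodL2 (hF.toL4 h4) a s)
        ((⨍ s in ball (0:ℂ) R, prodL2 (hF.toL4 h4) 0 s) - (v : ℂ) • one2 P)) atTop (𝓝 0) := by
      have h3 : Tendsto (fun R : ℝ => ‖pairX P‖ * (‖mulX P‖ * ‖hF.toL4 h4 0‖ * ‖hF.toL4 h4 0‖)
          * ‖(⨍ s in ball (0:ℂ) R, prodL2 (hF.toL4 h4) 0 s) - (v : ℂ) • one2 P‖) atTop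
          (𝓝 0) := by
        have := hVL.norm.const_mul (‖pairX P‖ * (‖mulX P‖ * ‖hF.toL4 h4 0‖ * ‖hF.toL4 h4 0‖))
        simpa using this
      refine squeeze_zero_norm' ?_ h3
      filter_upwards [eventually_gt_atTop (0:ℝ)] with R hR
      refine ((pairX P).le_opNorm₂ _ _).trans ?_
      gcongr
      exact hbd R hR
    have h5 := h1.sub h2
    have h6 : Tendsto (fun _ : ℝ => (v : ℂ) * (c a : ℂ)) atTop
        (𝓝 (((v ^ 2 * waveK a : ℝ) : ℂ) - 0)) := by
      refine h5.congr' ?_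
      filter_upwards [eventually_gt_atTop (0:ℝ)] with R hR
      rw [map_sub, sub_sub_cancel, pairX_smul2, hF.pairX_avg_one h4 a hR]
    have h7 := tendsto_nhds_unique h6 tendsto_const_nhds
    rw [sub_zero] at h7
    have h8 : v ^ 2 * waveK a = v * c a := by exact_mod_cast h7
    rcases hv0.eq_or_lt with h0 | hpos
    · -- v = 0
      rw [← h0, zero_mul]
      have i2 : ∀ x, Integrable (fun ω => F x ω ^ 2) P := fun x =>
        ((hF.memLp h4 x).mono_exponent (p := 2) (by norm_num)).integrable_sq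
      have e1 : ∀ x, ∫ ω, F x ω ^ 2 ∂P = v := by
        intro x
        have := hF.int2_shift 0 0 x
        simp only [zero_add] at this
        rw [hv]
        simp only [sq]
        exact this
      have h9 : ∀ x, (fun ω => F x ω ^ 2) =ᵐ[P] 0 := by
        intro x
        rw [← integral_eq_zero_iff_of_nonneg (fun _ => sq_nonneg _) (i2 x), e1 x, ← h0]
      have h10 : (fun ω => F 0 ω * F a ω) =ᵐ[P] fun _ => 0 := by
        filter_upwards [h9 0] with ω hω
        have : F 0 ω = 0 := by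
          have : F 0 ω ^ 2 = 0 := hω
          exact pow_eq_zero_iff (two_ne_zero) |>.1 this
        rw [this, zero_mul]
      simp only [hc]
      rw [integral_congr_ae h10]; simp
    · have : v * c a = v * (v * waveK a) := by rw [← h8]; ring
      exact mul_left_cancel₀ hpos.ne' this
  intro a
  have := key a (v * waveK a)
  rw [hcK a] at this
  have e : v ^ 2 * (waveK a * waveK a) - 2 * (v * waveK a) * (v * waveK a) + (v * waveK a) ^ 2 = 0 := by
    ring
  rw [e] at this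
  exact this

end

end Berry
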