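import Pool.Agent.LibH11.Berry.Pair3
import Pool.Agent.LibH11.Berry.Conv

/-!
Bounds for the correction term in the general four-point formula.
-/

open Complex Filter Topology MeasureTheory Metric
open scoped ENNReal NNReal InnerProductSpace

namespace Berry

noncomputable section

variable {H : Type*} [NormedAddCommGroup H] [InnerProductSpace ℝ H]

/-- a process is continuous as soon as its kernel is -/
lemma cont_of_kernel {u : ℂ → ℂ → H}
    (hc : Continuous fun x : Fin 4 → ℂ => inner ℝ (u (x 0) (x 1)) (u (x 2) (x 3))) :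
    Continuous fun p : ℂ × ℂ => u p.1 p.2 := by
  rw [continuous_iff_continuousAt]
  intro p₀
  rw [ContinuousAt, tendsto_iff_norm_sub_tendsto_zero]
  have h1 : ∀ p : ℂ × ℂ, ‖u p.1 p.2 - u p₀.1 p₀.2‖ ^ 2 = inner ℝ (u p.1 p.2) (u p.1 p.2)
      - 2 * inner ℝ (u p.1 p.2) (u p₀.1 p₀.2) + inner ℝ (u p₀.1 p₀.2) (u p₀.1 p₀.2) := by
    intro p
    rw [← real_inner_self_eq_norm_sq, real_inner_sub_sub_self]
  have k1 : Continuous fun p : ℂ × ℂ => inner ℝ (u p.1 p.2) (u p.1 p.2) := by
    have e : Continuous fun p : ℂ × ℂ => (![p.1, p.2, p.1, p.2] : Fin 4 → ℂ) := by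
      refine continuous_pi fun i => ?_
      fin_cases i <;> simp <;> fun_prop
    exact hc.comp e
  have k2 : Continuous fun p : ℂ × ℂ => inner ℝ (u p.1 p.2) (u p₀.1 p₀.2) := by
    have e : Continuous fun p : ℂ × ℂ => (![p.1, p.2, p₀.1, p₀.2] : Fin 4 → ℂ) := by
      refine continuous_pi fun i => ?_
      fin_cases i <;> simp <;> fun_prop
    exact hc.comp e
  have h2 : Tendsto (fun p : ℂ × ℂ => ‖u p.1 p.2 - u p₀.1 p₀.2‖ ^ 2) (𝓝 p₀) (𝓝 0) := by
    have h3 := ((k1.sub (k2.const_mul 2)).add (continuous_const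
      (y := inner ℝ (u p₀.1 p₀.2) (u p₀.1 p₀.2)))).tendsto p₀
    have h4 : inner ℝ (u p₀.1 p₀.2) (u p₀.1 p₀.2) - 2 * inner ℝ (u p₀.1 p₀.2) (u p₀.1 p₀.2)
      + inner ℝ (u p₀.1 p₀.2) (u p₀.1 p₀.2) = 0 := by ring
    simp only [Pi.add_apply, Pi.sub_apply] at h3
    rw [h4] at h3
    exact h3.congr fun p => (h1 p).symm
  have h5 := (Real.continuous_sqrt.tendsto 0).comp h2
  rw [Real.sqrt_zero] at h5
  refine h5.congr fun p => ?_
  simp only [Function.comp]
  rw [Real.sqrt_sq (norm_nonneg _)]

section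

variable [CompleteSpace H]

lemma inner_avg_avg {v w : ℂ → H} (hv : Continuous v) (hw : Continuous w) (R : ℝ) :
    inner ℝ (⨍ s in ball (0:ℂ) R, v s) (⨍ s in ball (0:ℂ) R, w s)
      = ⨍ s in ball (0:ℂ) R, ⨍ s' in ball (0:ℂ) R, inner ℝ (v s) (w s') := by
  rw [PairP.inner_avg hv]
  congr 1
  funext s
  rw [real_inner_comm, PairP.inner_avg hw]
  congr 1
  funext s'
  rw [real_inner_comm]

lemma inner_avg_avg' {v w : ℂ → H} (hv : Continuous v) (hw : Continuous w) (R : ℝ) :
    inner ℝ (⨍ s in ball (0:ℂ) R, v s) (⨍ s in ball (0:ℂ) R, w s)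
      = ⨍ s in ball (0:ℂ) R, ⨍ s' in ball (0:ℂ) R, inner ℝ (v s') (w s) := by
  rw [real_inner_comm, inner_avg_avg hw hv]
  congr 1
  funext s
  congr 1
  funext s'
  rw [real_inner_comm]

end

lemma avg_addR {g h : ℂ → ℝ} (hg : Continuous g) (hh : Continuous h) (R : ℝ) :
    (⨍ s in ball (0:ℂ) R, (g s + h s)) = (⨍ s in ball (0:ℂ) R, g s) + ⨍ s in ball (0:ℂ) R, h s :=
  avg_add hg hh R

variable {u : ℂ → ℂ → H}

namespace PairP

variable (hu : PairP u)
include hu

/-- pointwise Cauchy–Schwarz -/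
lemma cs_point (r r' s : ℂ) :
    2 * inner ℝ (u r (r + s) + u r (r - s)) (u r' (r' + s) + u r' (r' - s))
      ≤ inner ℝ (u r r) (u (r' + s) (r' + s) + (2:ℝ) • u (r' + s) (r' - s) + u (r' - s) (r' - s))
      + inner ℝ (u r' r') (u (r + s) (r + s) + (2:ℝ) • u (r + s) (r - s) + u (r - s) (r - s)) := by
  set a := u r (r' + s) + u r (r' - s) with ha
  set b := u r' (r + s) + u r' (r - s) with hb
  have sw : ∀ p q, inner ℝ (u r p) (u r' q) = inner ℝ (u r q) (u r' p) := by
    intro p q
    calc inner ℝ (u r p) (u r' q) = inner ℝ (u r p) (u q r') := by rw [hu.symm r' q]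
      _ = inner ℝ (u r q) (u p r') := hu.symm4 _ _ _ _
      _ = inner ℝ (u r q) (u r' p) := by rw [hu.symm p r']
  have h1 : inner ℝ (u r (r + s) + u r (r - s)) (u r' (r' + s) + u r' (r' - s)) = inner ℝ a b := by
    rw [ha, hb]
    simp only [inner_add_left, inner_add_right]
    rw [sw (r + s) (r' + s), sw (r + s) (r' - s), sw (r - s) (r' + s), sw (r - s) (r' - s)]
    ring
  have nn : ∀ p q₁ q₂, inner ℝ (u p q₁) (u p q₂) = inner ℝ (u p p) (u q₁ q₂) := by
    intro p q₁ q₂
    rw [hu.symm4 p q₁ p q₂]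
  have h2 : inner ℝ a a = inner ℝ (u r r)
      (u (r' + s) (r' + s) + (2:ℝ) • u (r' + s) (r' - s) + u (r' - s) (r' - s)) := by
    rw [ha]
    simp only [inner_add_left, inner_add_right, inner_smul_right, nn]
    rw [hu.symm (r' - s) (r' + s)]; ring
  have h3 : inner ℝ b b = inner ℝ (u r' r')
      (u (r + s) (r + s) + (2:ℝ) • u (r + s) (r - s) + u (r - s) (r - s)) := by
    rw [hb]
    simp only [inner_add_left, inner_add_right, inner_smul_right, nn]
    rw [hu.symm (r - s) (r + s)]; ring
  rw [h1, ← h2, ← h3]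
  have h4 : 0 ≤ inner ℝ (a - b) (a - b) := real_inner_self_nonneg
  rw [real_inner_sub_sub_self] at h4
  linarith

variable [CompleteSpace H]

/-- Krein's inequality for the random covariance -/
lemma krein (s : ℂ) :
    2 * ‖hu.cov s‖ ^ 2 ≤ ‖hu.cov 0‖ ^ 2 + inner ℝ (hu.cov 0) (hu.cov (2 * s)) := by
  have cf : Continuous fun r => u r (r + s) + u r (r - s) :=
    (hu.cont₂ continuous_id (continuous_id.add continuous_const)).add
      (hu.cont₂ continuous_id (continuous_id.sub continuous_const))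
  have cv : Continuous fun r => u r r := hu.cont₂ continuous_id continuous_id
  have c1 : Continuous fun r : ℂ => u (r + s) (r + s) :=
    hu.cont₂ (continuous_id.add continuous_const) (continuous_id.add continuous_const)
  have c2 : Continuous fun r : ℂ => u (r + s) (r - s) :=
    hu.cont₂ (continuous_id.add continuous_const) (continuous_id.sub continuous_const)
  have c3 : Continuous fun r : ℂ => u (r - s) (r - s) :=
    hu.cont₂ (continuous_id.sub continuous_const) (continuous_id.sub continuous_const)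
  have cw : Continuous fun r => u (r + s) (r + s) + (2:ℝ) • u (r + s) (r - s)
      + u (r - s) (r - s) := (c1.add (c2.const_smul _)).add c3
  have key : ∀ R : ℝ, 0 < R →
      inner ℝ (⨍ r in ball (0:ℂ) R, (u r (r + s) + u r (r - s)))
        (⨍ r in ball (0:ℂ) R, (u r (r + s) + u r (r - s)))
      ≤ inner ℝ (⨍ r in ball (0:ℂ) R, u r r) (⨍ r in ball (0:ℂ) R,
        (u (r + s) (r + s) + (2:ℝ) • u (r + s) (r - s) + u (r - s) (r - s))) := by
    intro R hR
    have hA := inner_avg_avg cf cf R
    have hB := inner_avg_avg cv cw R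
    have hC := inner_avg_avg' cv cw R
    have ci : ∀ {f g : ℂ → H}, Continuous f → Continuous g → ∀ r,
        Continuous fun r' => inner ℝ (f r) (g r') := fun hf hg r =>
      continuous_const.inner hg
    have ci' : ∀ {f g : ℂ → H}, Continuous f → Continuous g → ∀ r,
        Continuous fun r' => inner ℝ (f r') (g r) := fun hf hg r =>
      hf.inner continuous_const
    have co : ∀ {f g : ℂ → H}, Continuous f → Continuous g →
        Continuous fun r => ⨍ r' in ball (0:ℂ) R, inner ℝ (f r) (g r') := by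
      intro f g hf hg
      have e : (fun r => ⨍ r' in ball (0:ℂ) R, inner ℝ (f r) (g r'))
          = fun r => inner ℝ (f r) (⨍ r' in ball (0:ℂ) R, g r') := by
        funext r
        rw [real_inner_comm, inner_avg hg]
        congr 1; funext r'; rw [real_inner_comm]
      rw [e]
      exact hf.inner continuous_const
    have co' : ∀ {f g : ℂ → H}, Continuous f → Continuous g →
        Continuous fun r => ⨍ r' in ball (0:ℂ) R, inner ℝ (f r') (g r) := by
      intro f g hf hg
      have e : (fun r => ⨍ r' in ball (0:ℂ) R, inner ℝ (f r') (g r))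
          = fun r => inner ℝ (⨍ r' in ball (0:ℂ) R, f r') (g r) := by
        funext r
        rw [inner_avg hf]
      rw [e]
      exact continuous_const.inner hg
    have h2 : 2 * inner ℝ (⨍ r in ball (0:ℂ) R, (u r (r + s) + u r (r - s)))
        (⨍ r in ball (0:ℂ) R, (u r (r + s) + u r (r - s)))
        ≤ inner ℝ (⨍ r in ball (0:ℂ) R, u r r) (⨍ r in ball (0:ℂ) R,
        (u (r + s) (r + s) + (2:ℝ) • u (r + s) (r - s) + u (r - s) (r - s)))
        + inner ℝ (⨍ r in ball (0:ℂ) R, u r r) (⨍ r in ball (0:ℂ) R,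
        (u (r + s) (r + s) + (2:ℝ) • u (r + s) (r - s) + u (r - s) (r - s))) := by
      conv_rhs => rw [hB]
      conv_rhs => arg 2; rw [← hB, hC]
      rw [hA, ← avg_addR (co cv cw) (co' cv cw)]
      have e1 : 2 * (⨍ r in ball (0:ℂ) R, ⨍ r' in ball (0:ℂ) R,
          inner ℝ (u r (r + s) + u r (r - s)) (u r' (r' + s) + u r' (r' - s)))
          = ⨍ r in ball (0:ℂ) R, ⨍ r' in ball (0:ℂ) R,
          2 * inner ℝ (u r (r + s) + u r (r - s)) (u r' (r' + s) + u r' (r' - s)) := by
        have e2 : ∀ g : ℂ → ℝ, (⨍ r in ball (0:ℂ) R, 2 * g r) = 2 * ⨍ r in ball (0:ℂ) R, g r := by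
          intro g
          have := avg_smulE (2:ℝ) g R
          simpa only [smul_eq_mul] using this
        rw [← e2]
        congr 1; funext r
        rw [← e2]
      rw [e1]
      have e3 : Continuous fun r => ⨍ r' in ball (0:ℂ) R,
          2 * inner ℝ (u r (r + s) + u r (r - s)) (u r' (r' + s) + u r' (r' - s)) := by
        have := co (f := fun r => (2:ℝ) • (u r (r + s) + u r (r - s))) (cf.const_smul _) cf
        simpa only [inner_smul_left, RCLike.conj_to_real] using this
      refine avg_mono e3 ((co cv cw).add (co' cv cw)) (fun r => ?_) R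
      simp only [Pi.add_apply]
      rw [← avg_addR (ci cv cw r) (ci' cv cw r)]
      refine avg_mono ?_ ((ci cv cw r).add (ci' cv cw r)) (fun r' => ?_) R
      · exact continuous_const.mul (ci cf cf r)
      · exact hu.cs_point r r' s
    linarith
  -- limits
  have l1 : Tendsto (fun R : ℝ => ⨍ r in ball (0:ℂ) R, (u r (r + s) + u r (r - s))) atTop
      (𝓝 (hu.cov s + hu.cov s)) := by
    have a1 := hu.tendsto_cov_shift 0 s
    have a2 := hu.tendsto_cov_shift 0 (-s)
    rw [sub_zero] at a1 a2
    rw [hu.cov_neg] at a2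
    refine (a1.add a2).congr fun R => ?_
    have := avg_add (g := fun r => u (0 + r) (s + r)) (h := fun r => u (0 + r) (-s + r))
      (hu.cont₂ (continuous_const.add continuous_id) (continuous_const.add continuous_id))
      (hu.cont₂ (continuous_const.add continuous_id) (continuous_const.add continuous_id)) R
    rw [← this]
    congr 1; funext r
    rw [zero_add, add_comm s r, sub_eq_add_neg, add_comm r (-s)]
  have l2 : Tendsto (fun R : ℝ => ⨍ r in ball (0:ℂ) R, u r r) atTop (𝓝 (hu.cov 0)) := by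
    have a1 := hu.tendsto_cov_shift 0 0
    rw [sub_zero] at a1
    simpa only [zero_add] using a1
  have l3 : Tendsto (fun R : ℝ => ⨍ r in ball (0:ℂ) R,
        (u (r + s) (r + s) + (2:ℝ) • u (r + s) (r - s) + u (r - s) (r - s))) atTop
      (𝓝 (hu.cov 0 + (2:ℝ) • hu.cov (2 * s) + hu.cov 0)) := by
    have a1 := hu.tendsto_cov_shift s s
    have a2 := (hu.tendsto_cov_shift s (-s)).const_smul (2:ℝ)
    have a3 := hu.tendsto_cov_shift (-s) (-s)
    have e1 : -s - s = -(2 * s) := by ring
    rw [sub_self] at a1 a3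
    rw [e1, hu.cov_neg] at a2
    refine ((a1.add a2).add a3).congr fun R => ?_
    have b1 := avg_add (g := fun r => u (r + s) (r + s)) (h := fun r => (2:ℝ) • u (r + s) (r - s))
      c1 (c2.const_smul _) R
    have b2 := avg_add (g := fun r => u (r + s) (r + s) + (2:ℝ) • u (r + s) (r - s))
      (h := fun r => u (r - s) (r - s)) (c1.add (c2.const_smul _)) c3 R
    rw [b2, b1, avg_smulE]
    have e2 : ∀ r : ℂ, -s + r = r - s := fun r => by ring
    simp only [e2, add_comm s]
  have l4 := le_of_tendsto_of_tendsto (l1.inner l1) (l2.inner l3)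
    (by filter_upwards [eventually_gt_atTop (0:ℝ)] with R hR using key R hR)
  simp only [inner_add_left, inner_add_right, inner_smul_right, real_inner_self_eq_norm_sq] at l4
  linarith

/-- bounds for the correction term at the origin -/
lemma h_zero_bounds {k : ℂ}
    (h : Tendsto (fun R : ℝ => ⨍ s in ball (0:ℂ) R, hu.gg 0 s) atTop (𝓝 k)) :
    0 ≤ k.re ∧ 2 * k.re ≤ ‖hu.cov 0‖ ^ 2 := by
  have e0 : ∀ s, hu.gg 0 s = ((‖hu.cov s‖ ^ 2 : ℝ) : ℂ) := by
    intro s
    unfold gg cc
    rw [add_zero, real_inner_self_eq_norm_sq]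
  have h1 : Tendsto (fun R : ℝ => ⨍ s in ball (0:ℂ) R, ‖hu.cov s‖ ^ 2) atTop (𝓝 k.re) := by
    have h2 := (Complex.continuous_re.tendsto _).comp h
    refine h2.congr fun R => ?_
    simp only [Function.comp, e0]
    rw [avg_ofReal, Complex.ofReal_re]
  have hcn : Continuous fun s => ‖hu.cov s‖ ^ 2 := (hu.cov_unif.continuous.norm).pow 2
  constructor
  · refine ge_of_tendsto h1 ?_
    filter_upwards with R
    rw [setAverage_eq, smul_eq_mul]
    exact mul_nonneg (by positivity) (integral_nonneg fun _ => by positivity)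
  · -- average of Krein's inequality
    have hW := hu.cc_helm' 0 0
    simp only [sub_zero] at hW
    have hcc : Continuous fun z => hu.cc z 0 := by
      have h1 : Continuous fun z : ℂ => ((z, 0) : ℂ × ℂ) := by fun_prop
      exact hu.cc_continuous.comp h1
    have m1 := (mz_of_weakHelm hcc (fun z => hu.cc_bound z 0) hW).dilate (κ := 2) (by norm_num)
    have hin : Continuous fun s : ℂ => inner ℝ (hu.cov 0) (hu.cov (2 * s)) :=
      continuous_const.inner (hu.cov_unif.continuous.comp (by fun_prop))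
    have m2 : Tendsto (fun R : ℝ => ⨍ s in ball (0:ℂ) R, inner ℝ (hu.cov 0) (hu.cov (2 * s)))
        atTop (𝓝 0) := by
      have h2 := (Complex.continuous_re.tendsto _).comp m1.2
      rw [Complex.zero_re] at h2
      refine h2.congr fun R => ?_
      simp only [Function.comp]
      have e : (fun s : ℂ => hu.cc ((2:ℝ) • s) 0)
          = fun s => ((inner ℝ (hu.cov 0) (hu.cov (2 * s)) : ℝ) : ℂ) := by
        funext s
        unfold cc
        rw [real_inner_comm]
        congr 3
      rw [e, avg_ofReal, Complex.ofReal_re]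
    have h3 : Tendsto (fun R : ℝ => ‖hu.cov 0‖ ^ 2
        + ⨍ s in ball (0:ℂ) R, inner ℝ (hu.cov 0) (hu.cov (2 * s))) atTop
        (𝓝 (‖hu.cov 0‖ ^ 2 + 0)) := tendsto_const_nhds.add m2
    rw [add_zero] at h3
    refine le_of_tendsto_of_tendsto (h1.const_mul 2) h3 ?_
    filter_upwards [eventually_gt_atTop (0:ℝ)] with R hR
    have e2 : 2 * (⨍ s in ball (0:ℂ) R, ‖hu.cov s‖ ^ 2) = ⨍ s in ball (0:ℂ) R, 2 * ‖hu.cov s‖ ^ 2 := by
      have := avg_smulE (2:ℝ) (fun s => ‖hu.cov s‖ ^ 2) R
      simpa only [smul_eq_mul] using this.symm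
    have e3 := avg_addR (g := fun _ => ‖hu.cov 0‖ ^ 2)
      (h := fun s => inner ℝ (hu.cov 0) (hu.cov (2 * s))) continuous_const hin R
    rw [avg_const hR] at e3
    rw [e2, ← e3]
    exact avg_mono (continuous_const.mul hcn) (continuous_const.add hin) (fun s => hu.krein s) R

end PairP

end

end Berry
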