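import Pool.Agent.LibH11.Berry.Equi3
import Pool.Agent.LibH11.Berry.Gns
import Pool.Agent.LibH11.Berry.Pair4

/-!
Limits of asymptotically invariant, approximately monochromatic waves.
-/

open Complex Filter Topology MeasureTheory Metric InnerProductSpace Laplacian
open scoped ENNReal

namespace Berry

noncomputable section

variable {Ω : Type*} [MeasurableSpace Ω] {P : Measure Ω} [IsProbabilityMeasure P]

/-- two-point function of the `n`-th wave -/
def c2 (P : Measure Ω) (F : ℕ → ℂ → Ω → ℝ) (n : ℕ) (x y : ℂ) : ℝ := ∫ ω, F n x ω * F n y ω ∂P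

/-- four-point function of the `n`-th wave -/
def c4 (P : Measure Ω) (F : ℕ → ℂ → Ω → ℝ) (n : ℕ) (x₁ x₂ x₃ x₄ : ℂ) : ℝ :=
  ∫ ω, F n x₁ ω * F n x₂ ω * F n x₃ ω * F n x₄ ω ∂P

/-- a sequence of approximately monochromatic waves with bounded fourth moments -/
structure PreWave (P : Measure Ω) (F : ℕ → ℂ → Ω → ℝ) (B : ℝ) : Prop where
  ev : ∀ᶠ n in atTop, SingleW P (F n) ∧ ∀ x, ∫ ω, F n x ω ^ 4 ∂P ≤ B
  eqn : ∀ r δ : ℝ, 0 < δ → ∀ᶠ n in atTop, ∀ ω, ∀ x ∈ ball (0:ℂ) r,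
    |(Δ (fun x => F n x ω)) x + F n x ω| ≤ δ * |F n x ω|

/-- a sequence of asymptotically translation invariant, approximately monochromatic waves with
bounded fourth moments -/
structure AWave (P : Measure Ω) (F : ℕ → ℂ → Ω → ℝ) (B : ℝ) : Prop extends PreWave P F B where
  inv4 : ∀ x₁ x₂ x₃ x₄ s, Tendsto (fun n => c4 P F n (x₁ + s) (x₂ + s) (x₃ + s) (x₄ + s)
    - c4 P F n x₁ x₂ x₃ x₄) atTop (𝓝 0)
  inv2 : ∀ x y s, Tendsto (fun n => c2 P F n (x + s) (y + s) - c2 P F n x y) atTop (𝓝 0)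

lemma abs_four_le (a b c d : ℝ) : |a| * |b * c * d| ≤ (a ^ 4 + b ^ 4 + c ^ 4 + d ^ 4) / 4 := by
  rw [← abs_mul]
  have h1 : |a * (b * c * d)| ≤ ((a * b) ^ 2 + (c * d) ^ 2) / 2 := by
    rw [abs_le]
    constructor
    · nlinarith [sq_nonneg (a * b + c * d)]
    · nlinarith [sq_nonneg (a * b - c * d)]
  nlinarith [sq_nonneg (a ^ 2 - b ^ 2), sq_nonneg (c ^ 2 - d ^ 2)]

lemma SingleW.int4 {F : ℂ → Ω → ℝ} (hF : SingleW P F) (x : ℂ) :
    Integrable (fun ω => F x ω ^ 4) P := by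
  obtain ⟨K, hK⟩ := hF.bdd
  refine integrable_bdd (C := K ^ 4) ((hF.meas x).pow_const 4) fun ω => ?_
  rw [abs_pow]
  exact pow_le_pow_left₀ (abs_nonneg _) (hK x ω) 4

lemma SingleW.four_bound {F : ℂ → Ω → ℝ} (hF : SingleW P F) {B : ℝ}
    (hB : ∀ x, ∫ ω, F x ω ^ 4 ∂P ≤ B) (y a b c : ℂ) :
    ∫ ω, |F y ω| * |F a ω * F b ω * F c ω| ∂P ≤ B := by
  have h1 : ∫ ω, |F y ω| * |F a ω * F b ω * F c ω| ∂P
      ≤ ∫ ω, (F y ω ^ 4 + F a ω ^ 4 + F b ω ^ 4 + F c ω ^ 4) / 4 ∂P := by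
    refine integral_mono_of_nonneg (Eventually.of_forall fun ω => by positivity) ?_
      (Eventually.of_forall fun ω => abs_four_le _ _ _ _)
    exact ((((hF.int4 y).add (hF.int4 a)).add (hF.int4 b)).add (hF.int4 c)).div_const 4
  refine h1.trans ?_
  have j1 : Integrable (fun ω => F y ω ^ 4 + F a ω ^ 4) P := (hF.int4 y).add (hF.int4 a)
  have j2 : Integrable (fun ω => F y ω ^ 4 + F a ω ^ 4 + F b ω ^ 4) P := j1.add (hF.int4 b)
  rw [integral_div, integral_add j2 (hF.int4 c), integral_add j1 (hF.int4 b),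
    integral_add (hF.int4 y) (hF.int4 a)]
  have := hB y
  have := hB a
  have := hB b
  have := hB c
  linarith

/-- the vectors entering the Gram matrix -/
def Vn (F : ℕ → ℂ → Ω → ℝ) (n : ℕ) : Option (ℂ × ℂ) → Ω → ℝ
  | none => fun _ => 1
  | some p => fun ω => F n p.1 ω * F n p.2 ω

omit [IsProbabilityMeasure P] in
lemma Vn_meas {F : ℕ → ℂ → Ω → ℝ} {n : ℕ} (hF : SingleW P (F n)) (i : Option (ℂ × ℂ)) :
    Measurable (Vn F n i) := by
  cases i with
  | none => exact measurable_const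
  | some p => exact (hF.meas p.1).mul (hF.meas p.2)

omit [IsProbabilityMeasure P] in
lemma Vn_bdd {F : ℕ → ℂ → Ω → ℝ} {n : ℕ} (hF : SingleW P (F n)) (i : Option (ℂ × ℂ)) :
    ∃ K : ℝ, 0 ≤ K ∧ ∀ ω, |Vn F n i ω| ≤ K := by
  cases i with
  | none => exact ⟨1, zero_le_one, fun ω => by simp [Vn]⟩
  | some p =>
    obtain ⟨K, hK⟩ := hF.bdd
    refine ⟨K * K, mul_self_nonneg K, fun ω => ?_⟩
    simp only [Vn]
    rw [abs_mul]
    exact mul_le_mul (hK _ _) (hK _ _) (abs_nonneg _) ((abs_nonneg _).trans (hK 0 ω))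

lemma Vn_int {F : ℕ → ℂ → Ω → ℝ} {n : ℕ} (hF : SingleW P (F n)) (i j : Option (ℂ × ℂ)) :
    Integrable (fun ω => Vn F n i ω * Vn F n j ω) P := by
  obtain ⟨K, hK0, hK⟩ := Vn_bdd hF i
  obtain ⟨K', hK'0, hK'⟩ := Vn_bdd hF j
  refine integrable_bdd (C := K * K') ((Vn_meas hF i).mul (Vn_meas hF j)) fun ω => ?_
  rw [abs_mul]
  exact mul_le_mul (hK ω) (hK' ω) (abs_nonneg _) hK0

lemma Vn_sq {F : ℕ → ℂ → Ω → ℝ} {n : ℕ} (hF : SingleW P (F n)) {B : ℝ}
    (hB : ∀ x, ∫ ω, F n x ω ^ 4 ∂P ≤ B) (i : Option (ℂ × ℂ)) :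
    ∫ ω, Vn F n i ω * Vn F n i ω ∂P ≤ B + 1 := by
  have hB0 : 0 ≤ B := (integral_nonneg fun ω => by positivity).trans (hB 0)
  cases i with
  | none => simp [Vn]; exact hB0
  | some p =>
    have h1 : ∫ ω, Vn F n (some p) ω * Vn F n (some p) ω ∂P
        ≤ ∫ ω, |F n p.1 ω| * |F n p.1 ω * F n p.2 ω * F n p.2 ω| ∂P := by
      refine integral_mono (Vn_int hF _ _) ?_ fun ω => ?_
      · obtain ⟨K, hK⟩ := hF.bdd
        refine integrable_bdd (C := K * (K * K * K)) ((hF.meas _).abs.mul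
          (((hF.meas _).mul (hF.meas _)).mul (hF.meas _)).abs) fun ω => ?_
        have hK0 : 0 ≤ K := (abs_nonneg _).trans (hK 0 ω)
        rw [abs_mul, abs_abs, abs_abs, abs_mul, abs_mul]
        exact mul_le_mul (hK _ _) (mul_le_mul (mul_le_mul (hK _ _) (hK _ _) (abs_nonneg _) hK0)
          (hK _ _) (abs_nonneg _) (mul_nonneg hK0 hK0)) (by positivity) hK0
      · simp only [Vn]
        rw [← abs_mul]
        refine le_trans (le_of_eq ?_) (le_abs_self _)
        ring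
    have h2 := hF.four_bound hB p.1 p.1 p.2 p.2
    linarith

lemma Vn_bound {F : ℕ → ℂ → Ω → ℝ} {n : ℕ} (hF : SingleW P (F n)) {B : ℝ}
    (hB : ∀ x, ∫ ω, F n x ω ^ 4 ∂P ≤ B) (i j : Option (ℂ × ℂ)) :
    |∫ ω, Vn F n i ω * Vn F n j ω ∂P| ≤ B + 1 := by
  have h1 : |∫ ω, Vn F n i ω * Vn F n j ω ∂P|
      ≤ ∫ ω, (Vn F n i ω * Vn F n i ω + Vn F n j ω * Vn F n j ω) / 2 ∂P := by
    rw [← Real.norm_eq_abs]
    refine norm_integral_le_of_norm_le (((Vn_int hF i i).add (Vn_int hF j j)).div_const 2)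
      (Eventually.of_forall fun ω => ?_)
    rw [Real.norm_eq_abs, abs_le]
    constructor
    · nlinarith [sq_nonneg (Vn F n i ω + Vn F n j ω)]
    · nlinarith [sq_nonneg (Vn F n i ω - Vn F n j ω)]
  rw [integral_div, integral_add (Vn_int hF i i) (Vn_int hF j j)] at h1
  have := Vn_sq hF hB i
  have := Vn_sq hF hB j
  linarith

omit [MeasurableSpace Ω] [IsProbabilityMeasure P] in
lemma ultra_lim {f : ℕ → ℝ} {U : Ultrafilter ℕ} {C : ℝ} (h : ∀ᶠ n in (U : Filter ℕ), |f n| ≤ C) :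
    ∃ L, Tendsto f (U : Filter ℕ) (𝓝 L) := by
  have h1 : (U.map f : Filter ℝ) ≤ 𝓟 (Set.Icc (-C) C) := by
    rw [le_principal_iff]
    exact h.mono fun n hn => abs_le.1 hn
  obtain ⟨L, -, hL⟩ := (isCompact_Icc (a := -C) (b := C)).ultrafilter_le_nhds (U.map f) h1
  exact ⟨L, hL⟩

/-- **Limit objects.** -/
theorem AWave.limit {F : ℕ → ℂ → Ω → ℝ} {B : ℝ} (hF : AWave P F B) (U : Ultrafilter ℕ)
    (hU : (U : Filter ℕ) ≤ atTop) :
    ∃ (H : Type) (_ : NormedAddCommGroup H) (_ : InnerProductSpace ℝ H) (_ : CompleteSpace H)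
      (u : ℂ → ℂ → H) (one : H), PairP u ∧ inner ℝ one one = 1 ∧
      (∀ x₁ x₂ x₃ x₄, Tendsto (fun n => c4 P F n x₁ x₂ x₃ x₄) (U : Filter ℕ)
        (𝓝 (inner ℝ (u x₁ x₂) (u x₃ x₄)))) ∧
      (∀ x y, Tendsto (fun n => c2 P F n x y) (U : Filter ℕ) (𝓝 (inner ℝ (u x y) one))) := by
  have hev := hU hF.ev
  -- the limits exist
  have hex : ∀ i j : Option (ℂ × ℂ), ∃ L, Tendsto (fun n => ∫ ω, Vn F n i ω * Vn F n j ω ∂P)
      (U : Filter ℕ) (𝓝 L) := fun i j => ultra_lim (C := B + 1)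
        (Filter.mem_of_superset hev fun n hn => Vn_bound hn.1 hn.2 i j)
  choose k hk using hex
  have hsymm : ∀ i j, k i j = k j i := by
    intro i j
    refine tendsto_nhds_unique (hk i j) ((hk j i).congr fun n => ?_)
    congr 1; funext ω; ring
  have hpsd : ∀ (s : Finset (Option (ℂ × ℂ))) (c : Option (ℂ × ℂ) → ℝ),
      0 ≤ ∑ x ∈ s, ∑ y ∈ s, c x * c y * k x y := by
    intro s c
    have h1 : Tendsto (fun n => ∑ x ∈ s, ∑ y ∈ s, c x * c y * ∫ ω, Vn F n x ω * Vn F n y ω ∂P)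
        (U : Filter ℕ) (𝓝 (∑ x ∈ s, ∑ y ∈ s, c x * c y * k x y)) :=
      tendsto_finsetSum _ fun x _ => tendsto_finsetSum _ fun y _ => (hk x y).const_mul _
    refine ge_of_tendsto h1 (Filter.mem_of_superset hev fun n hn => ?_)
    have h2 : ∑ x ∈ s, ∑ y ∈ s, c x * c y * ∫ ω, Vn F n x ω * Vn F n y ω ∂P
        = ∫ ω, (∑ x ∈ s, c x * Vn F n x ω) ^ 2 ∂P := by
      have h3 : ∀ ω, (∑ x ∈ s, c x * Vn F n x ω) ^ 2
          = ∑ x ∈ s, ∑ y ∈ s, c x * c y * (Vn F n x ω * Vn F n y ω) := by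
        intro ω
        rw [sq, Finset.sum_mul_sum]
        refine Finset.sum_congr rfl fun x _ => Finset.sum_congr rfl fun y _ => ?_
        ring
      simp only [h3]
      rw [integral_finsetSum _ fun x _ => integrable_finsetSum _ fun y _ =>
        (Vn_int hn.1 x y).const_mul _]
      refine Finset.sum_congr rfl fun x _ => ?_
      rw [integral_finsetSum _ fun y _ => (Vn_int hn.1 x y).const_mul _]
      refine Finset.sum_congr rfl fun y _ => ?_
      rw [integral_const_mul]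
    show 0 ≤ ∑ x ∈ s, ∑ y ∈ s, c x * c y * ∫ ω, Vn F n x ω * Vn F n y ω ∂P
    rw [h2]
    exact integral_nonneg fun ω => sq_nonneg _
  obtain ⟨H, i1, i2, i3, e, he⟩ := exists_hilbert k hsymm hpsd
  set u : ℂ → ℂ → H := fun x y => e (some (x, y)) with hu
  have hin : ∀ x₁ x₂ x₃ x₄, Tendsto (fun n => c4 P F n x₁ x₂ x₃ x₄) (U : Filter ℕ)
        (𝓝 (inner ℝ (u x₁ x₂) (u x₃ x₄))) := by
    intro x₁ x₂ x₃ x₄
    rw [hu, he]
    refine (hk (some (x₁, x₂)) (some (x₃, x₄))).congr fun n => ?_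
    unfold c4
    congr 1; funext ω
    simp only [Vn]; ring
  -- equicontinuity in the first variable
  have hslot : ∀ η : ℝ, 0 < η → ∃ d > 0, ∀ r : ℝ, ∀ᶠ n in (U : Filter ℕ), ∀ a b c t t' : ℂ,
      ‖t‖ < r → ‖t'‖ < r → ‖t - t'‖ < d → |c4 P F n t a b c - c4 P F n t' a b c| ≤ η := by
    intro η hη
    have hB0 : 0 ≤ |B| := abs_nonneg _
    obtain ⟨d, hd, h⟩ := equi (P := P) hB0 hη
    refine ⟨d, hd, fun r => ?_⟩
    have h1 := hU (hF.eqn (r + 1) 1 one_pos)
    filter_upwards [hev, h1] with n hn hn1 a b c t t' ht ht' htt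
    obtain ⟨K, hK⟩ := hn.1.bdd
    have h2 := h (F n) hn.1 (fun ω => F n a ω * F n b ω * F n c ω)
      (((hn.1.meas a).mul (hn.1.meas b)).mul (hn.1.meas c))
      ⟨K * K * K, fun ω => by
        have hK0 : 0 ≤ K := (abs_nonneg _).trans (hK 0 ω)
        rw [abs_mul, abs_mul]
        exact mul_le_mul (mul_le_mul (hK _ _) (hK _ _) (abs_nonneg _) hK0) (hK _ _)
          (abs_nonneg _) (mul_nonneg hK0 hK0)⟩
      (fun y => (hn.1.four_bound hn.2 y a b c).trans (le_abs_self B)) (r + 1) 1 zero_le_one le_rfl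
      (fun ω x hx => hn1 ω x hx) t t' (by linarith) (by linarith) htt
    have e1 : ∀ y, c4 P F n y a b c = ∫ ω, F n y ω * (F n a ω * F n b ω * F n c ω) ∂P := by
      intro y
      unfold c4
      congr 1; funext ω; ring
    rw [e1, e1]
    exact h2
  set C : ℂ → ℂ → ℂ → ℂ → ℝ := fun x₁ x₂ x₃ x₄ => inner ℝ (u x₁ x₂) (u x₃ x₄) with hC
  have hslotC : ∀ η : ℝ, 0 < η → ∃ d > 0, ∀ a b c t t' : ℂ, ‖t - t'‖ < d →
      |C t a b c - C t' a b c| ≤ η := by
    intro η hη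
    obtain ⟨d, hd, h⟩ := hslot η hη
    refine ⟨d, hd, fun a b c t t' htt => ?_⟩
    refine le_of_tendsto ((hin t a b c).sub (hin t' a b c)).abs ?_
    have h1 := h (max ‖t‖ ‖t'‖ + 1)
    filter_upwards [h1] with n hn
    exact hn a b c t t' (by linarith [le_max_left ‖t‖ ‖t'‖]) (by linarith [le_max_right ‖t‖ ‖t'‖]) htt
  -- symmetries
  have s12 : ∀ x₁ x₂ x₃ x₄, C x₁ x₂ x₃ x₄ = C x₂ x₁ x₃ x₄ := by
    intro x₁ x₂ x₃ x₄
    refine tendsto_nhds_unique (hin x₁ x₂ x₃ x₄) ((hin x₂ x₁ x₃ x₄).congr fun n => ?_)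
    unfold c4; congr 1; funext ω; ring
  have s13 : ∀ x₁ x₂ x₃ x₄, C x₁ x₂ x₃ x₄ = C x₃ x₂ x₁ x₄ := by
    intro x₁ x₂ x₃ x₄
    refine tendsto_nhds_unique (hin x₁ x₂ x₃ x₄) ((hin x₃ x₂ x₁ x₄).congr fun n => ?_)
    unfold c4; congr 1; funext ω; ring
  have s14 : ∀ x₁ x₂ x₃ x₄, C x₁ x₂ x₃ x₄ = C x₄ x₂ x₃ x₁ := by
    intro x₁ x₂ x₃ x₄
    refine tendsto_nhds_unique (hin x₁ x₂ x₃ x₄) ((hin x₄ x₂ x₃ x₁).congr fun n => ?_)
    unfold c4; congr 1; funext ω; ring
  have hpair : PairP u := by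
    constructor
    · -- continuity
      apply cont_of_kernel
      rw [Metric.continuous_iff]
      intro x ε hε
      obtain ⟨d, hd, h⟩ := hslotC (ε / 5) (by positivity)
      refine ⟨d, hd, fun y hy => ?_⟩
      have hj : ∀ j, ‖y j - x j‖ < d := fun j => by
        rw [← dist_eq_norm]; exact lt_of_le_of_lt (dist_le_pi_dist y x j) hy
      rw [Real.dist_eq]
      have e1 : inner ℝ (u (y 0) (y 1)) (u (y 2) (y 3)) - inner ℝ (u (x 0) (x 1)) (u (x 2) (x 3))
          = (C (y 0) (y 1) (y 2) (y 3) - C (x 0) (y 1) (y 2) (y 3))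
          + (C (y 1) (x 0) (y 2) (y 3) - C (x 1) (x 0) (y 2) (y 3))
          + (C (y 2) (x 1) (x 0) (y 3) - C (x 2) (x 1) (x 0) (y 3))
          + (C (y 3) (x 1) (x 2) (x 0) - C (x 3) (x 1) (x 2) (x 0)) := by
        have k1 : C (x 0) (y 1) (y 2) (y 3) = C (y 1) (x 0) (y 2) (y 3) := s12 _ _ _ _
        have k2 : C (x 1) (x 0) (y 2) (y 3) = C (y 2) (x 1) (x 0) (y 3) := by
          rw [s12, s13]
        have k3 : C (x 2) (x 1) (x 0) (y 3) = C (y 3) (x 1) (x 2) (x 0) := by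
          rw [s13, s14]
        have k4 : C (x 3) (x 1) (x 2) (x 0) = C (x 0) (x 1) (x 2) (x 3) := s14 _ _ _ _
        rw [k1, k2, k3, k4]
        simp only [hC]; ring
      rw [e1]
      have b1 := h (y 1) (y 2) (y 3) (y 0) (x 0) (hj 0)
      have b2 := h (x 0) (y 2) (y 3) (y 1) (x 1) (hj 1)
      have b3 := h (x 1) (x 0) (y 3) (y 2) (x 2) (hj 2)
      have b4 := h (x 1) (x 2) (x 0) (y 3) (x 3) (hj 3)
      refine lt_of_le_of_lt (abs_add_le _ _) ?_
      have a1 := abs_add_le ((C (y 0) (y 1) (y 2) (y 3) - C (x 0) (y 1) (y 2) (y 3))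
          + (C (y 1) (x 0) (y 2) (y 3) - C (x 1) (x 0) (y 2) (y 3)))
          (C (y 2) (x 1) (x 0) (y 3) - C (x 2) (x 1) (x 0) (y 3))
      have a2 := abs_add_le (C (y 0) (y 1) (y 2) (y 3) - C (x 0) (y 1) (y 2) (y 3))
          (C (y 1) (x 0) (y 2) (y 3) - C (x 1) (x 0) (y 2) (y 3))
      linarith
    · -- symmetry
      intro x y
      have h1 : inner ℝ (u x y - u y x) (u x y - u y x) = 0 := by
        rw [real_inner_sub_sub_self]
        have a1 : inner ℝ (u x y) (u y x) = C x y x y := by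
          refine tendsto_nhds_unique (hin x y y x) ((hin x y x y).congr fun n => ?_)
          unfold c4; congr 1; funext ω; ring
        have a2 : inner ℝ (u y x) (u y x) = C x y x y := by
          refine tendsto_nhds_unique (hin y x y x) ((hin x y x y).congr fun n => ?_)
          unfold c4; congr 1; funext ω; ring
        have a3 : inner ℝ (u x y) (u x y) = C x y x y := rfl
        rw [a1, a2, a3]; ring
      rw [real_inner_self_eq_norm_sq] at h1
      have h2 : ‖u x y - u y x‖ = 0 := by simpa using h1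
      exact sub_eq_zero.1 (norm_eq_zero.1 h2)
    · intro x₁ x₂ x₃ x₄
      refine tendsto_nhds_unique (hin x₁ x₂ x₃ x₄) ((hin x₁ x₃ x₂ x₄).congr fun n => ?_)
      unfold c4; congr 1; funext ω; ring
    · intro x₁ x₂ x₃ x₄ s
      have h1 := (hin (x₁ + s) (x₂ + s) (x₃ + s) (x₄ + s)).sub (hin x₁ x₂ x₃ x₄)
      have h2 := (hF.inv4 x₁ x₂ x₃ x₄ s).mono_left hU
      have h3 := tendsto_nhds_unique h1 h2
      linarith
    · -- Helmholtz
      intro x₂ x₃ x₄ ψ hψ t
      have hψi : Integrable ψ := hψ.continuous.integrable_of_hasCompactSupport hψ.2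
      have hgc : ∀ᶠ n in (U : Filter ℕ), Continuous fun y => c4 P F n y x₂ x₃ x₄ := by
        filter_upwards [hev] with n hn
        obtain ⟨K, hK⟩ := hn.1.bdd
        have h2 := corr_continuous hn.1 (G := fun ω => F n x₂ ω * F n x₃ ω * F n x₄ ω)
          (((hn.1.meas x₂).mul (hn.1.meas x₃)).mul (hn.1.meas x₄))
          ⟨K * K * K, fun ω => by
            have hK0 : 0 ≤ K := (abs_nonneg _).trans (hK 0 ω)
            rw [abs_mul, abs_mul]
            exact mul_le_mul (mul_le_mul (hK _ _) (hK _ _) (abs_nonneg _) hK0) (hK _ _)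
              (abs_nonneg _) (mul_nonneg hK0 hK0)⟩
        refine h2.congr fun y => ?_
        unfold c4
        congr 1; funext ω; ring
      have hg₀ : Continuous fun y => C y x₂ x₃ x₄ := by
        rw [Metric.continuous_iff]
        intro x ε hε
        obtain ⟨d, hd, h⟩ := hslotC (ε / 2) (by positivity)
        refine ⟨d, hd, fun y hy => ?_⟩
        rw [Real.dist_eq]
        have := h x₂ x₃ x₄ y x (by rw [← dist_eq_norm]; exact hy)
        linarith
      have hequi : ∀ r η : ℝ, 0 < η → ∃ d > 0, ∀ᶠ n in (U : Filter ℕ), ∀ t t' : ℂ, ‖t‖ < r →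
          ‖t'‖ < r → ‖t - t'‖ < d → |c4 P F n t x₂ x₃ x₄ - c4 P F n t' x₂ x₃ x₄| ≤ η := by
        intro r η hη
        obtain ⟨d, hd, h⟩ := hslot η hη
        refine ⟨d, hd, ?_⟩
        filter_upwards [h r] with n hn t t' ht ht' htt
        exact hn _ _ _ t t' ht ht' htt
      have hconv : ∀ {χ : ℂ → ℂ}, TestFn χ → Tendsto (fun n =>
          smear χ (fun y => ((c4 P F n y x₂ x₃ x₄ : ℝ) : ℂ)) t) (U : Filter ℕ)
          (𝓝 (smear χ (fun y => ((C y x₂ x₃ x₄ : ℝ) : ℂ)) t)) := fun hχ =>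
        ultra_smear (g := fun n y => c4 P F n y x₂ x₃ x₄) hgc hg₀ (fun z => hin z x₂ x₃ x₄) hequi hχ t
      have gen : ∀ {χ : ℂ → ℂ}, (χ = Wop (Vop ψ) ∨ χ = Vop (Wop ψ)) →
          smear χ (fun y => ((C y x₂ x₃ x₄ : ℝ) : ℂ)) t
            = - smear ψ (fun y => ((C y x₂ x₃ x₄ : ℝ) : ℂ)) t := by
        intro χ hχ
        have hχt : TestFn χ := by
          rcases hχ with h | h
          · rw [h]; exact hψ.vop.wop
          · rw [h]; exact hψ.wop.vop
        have h1 := (hconv hχt).add (hconv hψ)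
        have h2 : Tendsto (fun n => smear χ (fun y => ((c4 P F n y x₂ x₃ x₄ : ℝ) : ℂ)) t
            + smear ψ (fun y => ((c4 P F n y x₂ x₃ x₄ : ℝ) : ℂ)) t) (U : Filter ℕ) (𝓝 0) := by
          rw [Metric.tendsto_nhds]
          intro ε hε
          set L := ∫ y, ‖ψ y‖ with hL
          have hL0 : 0 ≤ L := integral_nonneg fun _ => norm_nonneg _
          have hcpt : IsCompact ((fun y => t - y) '' tsupport ψ) :=
            hψ.2.isCompact.image (by fun_prop)
          obtain ⟨r, hr⟩ := hcpt.isBounded.subset_ball (0:ℂ)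
          set δ := ε / (2 * (|B| + 1) * (L + 1)) with hδ
          have hδ0 : 0 < δ := by positivity
          filter_upwards [hev, hU (hF.eqn r δ hδ0)] with n hn hn1
          obtain ⟨K, hK⟩ := hn.1.bdd
          have h3 := approx_helm hn.1 (G := fun ω => F n x₂ ω * F n x₃ ω * F n x₄ ω)
            (((hn.1.meas x₂).mul (hn.1.meas x₃)).mul (hn.1.meas x₄))
            ⟨K * K * K, fun ω => by
              have hK0 : 0 ≤ K := (abs_nonneg _).trans (hK 0 ω)
              rw [abs_mul, abs_mul]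
              exact mul_le_mul (mul_le_mul (hK _ _) (hK _ _) (abs_nonneg _) hK0) (hK _ _)
                (abs_nonneg _) (mul_nonneg hK0 hK0)⟩
            (M := |B|) (fun y => (hn.1.four_bound hn.2 y x₂ x₃ x₄).trans (le_abs_self B)) hδ0.le
            (fun ω x hx => hn1 ω x hx) hψ (t := t) (fun y hy => by
              have := hr ⟨y, hy, rfl⟩
              simpa [mem_ball, dist_zero_right] using this) hχ
          have e1 : (fun y => ((∫ ω, F n y ω * (F n x₂ ω * F n x₃ ω * F n x₄ ω) ∂P : ℝ) : ℂ))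
              = fun y => ((c4 P F n y x₂ x₃ x₄ : ℝ) : ℂ) := by
            funext y
            unfold c4
            congr 2; funext ω; ring
          rw [e1] at h3
          rw [dist_zero_right]
          refine lt_of_le_of_lt h3 ?_
          have h4 : δ * |B| * L ≤ ε / 2 := by
            rw [hδ]
            have h5 : |B| / (|B| + 1) ≤ 1 := by rw [div_le_one (by positivity)]; linarith
            have h6 : L / (L + 1) ≤ 1 := by rw [div_le_one (by positivity)]; linarith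
            have h7 : 0 ≤ |B| / (|B| + 1) := by positivity
            have h8 : 0 ≤ L / (L + 1) := by positivity
            have e2 : ε / (2 * (|B| + 1) * (L + 1)) * |B| * L
                = (ε / 2) * ((|B| / (|B| + 1)) * (L / (L + 1))) := by
              field_simp
            rw [e2]
            have h9 : (|B| / (|B| + 1)) * (L / (L + 1)) ≤ 1 := mul_le_one₀ h5 h8 h6
            nlinarith
          linarith
        have h3 := tendsto_nhds_unique h1 h2
        linear_combination h3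
      exact ⟨gen (Or.inl rfl), gen (Or.inr rfl)⟩
  refine ⟨H, i1, i2, i3, u, e none, hpair, ?_, hin, ?_⟩
  · rw [he]
    have h1 : Tendsto (fun _ : ℕ => (1:ℝ)) (U : Filter ℕ) (𝓝 (k none none)) := by
      refine (hk none none).congr fun n => ?_
      simp [Vn]
    exact tendsto_nhds_unique h1 tendsto_const_nhds
  · intro x y
    rw [hu, he]
    refine (hk (some (x, y)) none).congr fun n => ?_
    unfold c2
    congr 1; funext ω
    simp [Vn]

end

end Berry
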