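import Pool.Agent.LibH11.Berry.Trip2

/-!
Limit objects including the one-point and three-point functions.
-/

open Complex Filter Topology MeasureTheory Metric InnerProductSpace Laplacian
open scoped ENNReal

namespace Berry

noncomputable section

section Transfer

variable {H H' : Type*} [NormedAddCommGroup H] [InnerProductSpace ℝ H]
  [NormedAddCommGroup H'] [InnerProductSpace ℝ H'] {u : ℂ → ℂ → H} {u' : ℂ → ℂ → H'}

/-- being a pair process only depends on the inner products -/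
lemma PairP.transfer (hu : PairP u)
    (h : ∀ x₁ x₂ x₃ x₄, inner ℝ (u' x₁ x₂) (u' x₃ x₄) = inner ℝ (u x₁ x₂) (u x₃ x₄)) :
    PairP u' := by
  refine ⟨cont_of_kernel ?_, fun x y => ?_, fun x₁ x₂ x₃ x₄ => ?_, fun x₁ x₂ x₃ x₄ s => ?_,
    fun x₂ x₃ x₄ => ?_⟩
  · simp only [h]
    exact (hu.cont₂ (continuous_apply 0) (continuous_apply 1)).inner
      (hu.cont₂ (continuous_apply 2) (continuous_apply 3))
  · have h1 : inner ℝ (u' x y - u' y x) (u' x y - u' y x) = 0 := by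
      rw [real_inner_sub_sub_self, h, h, h, hu.symm y x]
      ring
    exact sub_eq_zero.1 (inner_self_eq_zero.1 h1)
  · rw [h, h]; exact hu.symm4 _ _ _ _
  · rw [h, h]; exact hu.stat _ _ _ _ _
  · simp only [h]; exact hu.helm _ _ _

end Transfer

variable {Ω : Type*} [MeasurableSpace Ω] {P : Measure Ω} [IsProbabilityMeasure P]

/-- three-point function of the `n`-th wave -/
def c3 (P : Measure Ω) (F : ℕ → ℂ → Ω → ℝ) (n : ℕ) (x y z : ℂ) : ℝ :=
  ∫ ω, F n x ω * F n y ω * F n z ω ∂P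

/-- one-point function of the `n`-th wave -/
def c1 (P : Measure Ω) (F : ℕ → ℂ → Ω → ℝ) (n : ℕ) (x : ℂ) : ℝ := ∫ ω, F n x ω ∂P

/-- the vectors entering the Gram matrix -/
def Vn3 (F : ℕ → ℂ → Ω → ℝ) (n : ℕ) : Option (ℂ × ℂ) ⊕ ℂ → Ω → ℝ
  | Sum.inl i => Vn F n i
  | Sum.inr z => F n z

omit [IsProbabilityMeasure P] in
lemma Vn3_meas {F : ℕ → ℂ → Ω → ℝ} {n : ℕ} (hF : SingleW P (F n)) (i : Option (ℂ × ℂ) ⊕ ℂ) :
    Measurable (Vn3 F n i) := by
  cases i with
  | inl i => exact Vn_meas hF i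
  | inr z => exact hF.meas z

omit [IsProbabilityMeasure P] in
lemma Vn3_bdd {F : ℕ → ℂ → Ω → ℝ} {n : ℕ} (hF : SingleW P (F n)) (i : Option (ℂ × ℂ) ⊕ ℂ) :
    ∃ K : ℝ, 0 ≤ K ∧ ∀ ω, |Vn3 F n i ω| ≤ K := by
  cases i with
  | inl i => exact Vn_bdd hF i
  | inr z =>
    obtain ⟨K, hK⟩ := hF.bdd
    exact ⟨|K|, abs_nonneg _, fun ω => (hK z ω).trans (le_abs_self K)⟩

lemma Vn3_int {F : ℕ → ℂ → Ω → ℝ} {n : ℕ} (hF : SingleW P (F n)) (i j : Option (ℂ × ℂ) ⊕ ℂ) :
    Integrable (fun ω => Vn3 F n i ω * Vn3 F n j ω) P := by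
  obtain ⟨K, hK0, hK⟩ := Vn3_bdd hF i
  obtain ⟨K', hK'0, hK'⟩ := Vn3_bdd hF j
  refine integrable_bdd (C := K * K') ((Vn3_meas hF i).mul (Vn3_meas hF j)) fun ω => ?_
  rw [abs_mul]
  exact mul_le_mul (hK ω) (hK' ω) (abs_nonneg _) hK0

lemma Vn3_sq {F : ℕ → ℂ → Ω → ℝ} {n : ℕ} (hF : SingleW P (F n)) {B : ℝ}
    (hB : ∀ x, ∫ ω, F n x ω ^ 4 ∂P ≤ B) (i : Option (ℂ × ℂ) ⊕ ℂ) :
    ∫ ω, Vn3 F n i ω * Vn3 F n i ω ∂P ≤ B + 1 := by
  have hB0 : 0 ≤ B := (integral_nonneg fun ω => by positivity).trans (hB 0)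
  cases i with
  | inl i => exact Vn_sq hF hB i
  | inr z =>
    have h1 : ∫ ω, Vn3 F n (Sum.inr z) ω * Vn3 F n (Sum.inr z) ω ∂P
        ≤ ∫ ω, (F n z ω ^ 4 + 1) ∂P := by
      refine integral_mono (Vn3_int hF _ _) ((hF.int4 z).add (integrable_const 1)) fun ω => ?_
      simp only [Vn3]
      nlinarith [sq_nonneg (F n z ω ^ 2 - 1), sq_nonneg (F n z ω)]
    rw [integral_add (hF.int4 z) (integrable_const 1)] at h1
    simp only [integral_const, probReal_univ, smul_eq_mul, one_mul] at h1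
    have := hB z
    linarith

lemma Vn3_bound {F : ℕ → ℂ → Ω → ℝ} {n : ℕ} (hF : SingleW P (F n)) {B : ℝ}
    (hB : ∀ x, ∫ ω, F n x ω ^ 4 ∂P ≤ B) (i j : Option (ℂ × ℂ) ⊕ ℂ) :
    |∫ ω, Vn3 F n i ω * Vn3 F n j ω ∂P| ≤ B + 1 := by
  have h1 : |∫ ω, Vn3 F n i ω * Vn3 F n j ω ∂P|
      ≤ ∫ ω, (Vn3 F n i ω * Vn3 F n i ω + Vn3 F n j ω * Vn3 F n j ω) / 2 ∂P := by
    rw [← Real.norm_eq_abs]
    refine norm_integral_le_of_norm_le (((Vn3_int hF i i).add (Vn3_int hF j j)).div_const 2)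
      (Eventually.of_forall fun ω => ?_)
    rw [Real.norm_eq_abs, abs_le]
    constructor
    · nlinarith [sq_nonneg (Vn3 F n i ω + Vn3 F n j ω)]
    · nlinarith [sq_nonneg (Vn3 F n i ω - Vn3 F n j ω)]
  rw [integral_div, integral_add (Vn3_int hF i i) (Vn3_int hF j j)] at h1
  have := Vn3_sq hF hB i
  have := Vn3_sq hF hB j
  linarith

/-- asymptotic translation invariance of the one-point and three-point functions -/
structure OddInv (P : Measure Ω) (F : ℕ → ℂ → Ω → ℝ) : Prop where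
  inv3 : ∀ x y z s, Tendsto (fun n => c3 P F n (x + s) (y + s) (z + s) - c3 P F n x y z) atTop
    (𝓝 0)
  inv1 : ∀ x s, Tendsto (fun n => c1 P F n (x + s) - c1 P F n x) atTop (𝓝 0)

/-- **Limit objects, including odd moments.** -/
theorem AWave.limit3 {F : ℕ → ℂ → Ω → ℝ} {B : ℝ} (hF : AWave P F B) (hO : OddInv P F)
    (U : Ultrafilter ℕ) (hU : (U : Filter ℕ) ≤ atTop) :
    ∃ (H : Type) (_ : NormedAddCommGroup H) (_ : InnerProductSpace ℝ H) (_ : CompleteSpace H)
      (u : ℂ → ℂ → H) (one : H) (f : ℂ → H), TripP u f ∧ inner ℝ one one = 1 ∧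
      (∀ x₁ x₂ x₃ x₄, Tendsto (fun n => c4 P F n x₁ x₂ x₃ x₄) (U : Filter ℕ)
        (𝓝 (inner ℝ (u x₁ x₂) (u x₃ x₄)))) ∧
      (∀ x y, Tendsto (fun n => c2 P F n x y) (U : Filter ℕ) (𝓝 (inner ℝ (u x y) one))) ∧
      (∀ x y z, Tendsto (fun n => c3 P F n x y z) (U : Filter ℕ) (𝓝 (inner ℝ (u x y) (f z)))) ∧
      (∀ x y, inner ℝ (f x) (f y) = inner ℝ (u x y) one) ∧
      (∀ x, Tendsto (fun n => c1 P F n x) (U : Filter ℕ) (𝓝 (inner ℝ (f x) one))) ∧
      (∀ x s, inner ℝ (f (x + s)) one = inner ℝ (f x) one) := by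
  have hev := hU hF.ev
  obtain ⟨H₀, j1, j2, j3, u₀, one₀, hu₀, -, h4₀, -⟩ := hF.limit U hU
  -- the limits exist
  have hex : ∀ i j : Option (ℂ × ℂ) ⊕ ℂ, ∃ L, Tendsto (fun n => ∫ ω, Vn3 F n i ω * Vn3 F n j ω ∂P)
      (U : Filter ℕ) (𝓝 L) := fun i j => ultra_lim (C := B + 1)
        (Filter.mem_of_superset hev fun n hn => Vn3_bound hn.1 hn.2 i j)
  choose k hk using hex
  have hsymm : ∀ i j, k i j = k j i := by
    intro i j
    refine tendsto_nhds_unique (hk i j) ((hk j i).congr fun n => ?_)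
    congr 1; funext ω; ring
  have hpsd : ∀ (s : Finset (Option (ℂ × ℂ) ⊕ ℂ)) (c : Option (ℂ × ℂ) ⊕ ℂ → ℝ),
      0 ≤ ∑ x ∈ s, ∑ y ∈ s, c x * c y * k x y := by
    intro s c
    have h1 : Tendsto (fun n => ∑ x ∈ s, ∑ y ∈ s, c x * c y * ∫ ω, Vn3 F n x ω * Vn3 F n y ω ∂P)
        (U : Filter ℕ) (𝓝 (∑ x ∈ s, ∑ y ∈ s, c x * c y * k x y)) :=
      tendsto_finsetSum _ fun x _ => tendsto_finsetSum _ fun y _ => (hk x y).const_mul _
    refine ge_of_tendsto h1 (Filter.mem_of_superset hev fun n hn => ?_)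
    have h2 : ∑ x ∈ s, ∑ y ∈ s, c x * c y * ∫ ω, Vn3 F n x ω * Vn3 F n y ω ∂P
        = ∫ ω, (∑ x ∈ s, c x * Vn3 F n x ω) ^ 2 ∂P := by
      have h3 : ∀ ω, (∑ x ∈ s, c x * Vn3 F n x ω) ^ 2
          = ∑ x ∈ s, ∑ y ∈ s, c x * c y * (Vn3 F n x ω * Vn3 F n y ω) := by
        intro ω
        rw [sq, Finset.sum_mul_sum]
        refine Finset.sum_congr rfl fun x _ => Finset.sum_congr rfl fun y _ => ?_
        ring
      simp only [h3]
      rw [integral_finsetSum _ fun x _ => integrable_finsetSum _ fun y _ =>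
        (Vn3_int hn.1 x y).const_mul _]
      refine Finset.sum_congr rfl fun x _ => ?_
      rw [integral_finsetSum _ fun y _ => (Vn3_int hn.1 x y).const_mul _]
      refine Finset.sum_congr rfl fun y _ => ?_
      rw [integral_const_mul]
    show 0 ≤ ∑ x ∈ s, ∑ y ∈ s, c x * c y * ∫ ω, Vn3 F n x ω * Vn3 F n y ω ∂P
    rw [h2]
    exact integral_nonneg fun ω => sq_nonneg _
  obtain ⟨H, i1, i2, i3, e, he⟩ := exists_hilbert k hsymm hpsd
  set u : ℂ → ℂ → H := fun x y => e (Sum.inl (some (x, y))) with hu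
  set one : H := e (Sum.inl none) with hone
  set f : ℂ → H := fun z => e (Sum.inr z) with hf
  have hin : ∀ x₁ x₂ x₃ x₄, Tendsto (fun n => c4 P F n x₁ x₂ x₃ x₄) (U : Filter ℕ)
        (𝓝 (inner ℝ (u x₁ x₂) (u x₃ x₄))) := by
    intro x₁ x₂ x₃ x₄
    rw [hu, he]
    refine (hk (Sum.inl (some (x₁, x₂))) (Sum.inl (some (x₃, x₄)))).congr fun n => ?_
    unfold c4
    congr 1; funext ω
    simp only [Vn3, Vn]; ring
  have hpair : PairP u := hu₀.transfer fun x₁ x₂ x₃ x₄ =>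
    tendsto_nhds_unique (hin x₁ x₂ x₃ x₄) (h4₀ x₁ x₂ x₃ x₄)
  have h2 : ∀ x y, Tendsto (fun n => c2 P F n x y) (U : Filter ℕ) (𝓝 (inner ℝ (u x y) one)) := by
    intro x y
    rw [hu, hone, he]
    refine (hk (Sum.inl (some (x, y))) (Sum.inl none)).congr fun n => ?_
    unfold c2
    congr 1; funext ω
    simp [Vn3, Vn]
  have h3 : ∀ x y z, Tendsto (fun n => c3 P F n x y z) (U : Filter ℕ)
      (𝓝 (inner ℝ (u x y) (f z))) := by
    intro x y z
    rw [hu, hf, he]
    refine (hk (Sum.inl (some (x, y))) (Sum.inr z)).congr fun n => ?_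
    unfold c3
    congr 1
  have hff : ∀ x y, inner ℝ (f x) (f y) = inner ℝ (u x y) one := by
    intro x y
    have h5 : Tendsto (fun n => c2 P F n x y) (U : Filter ℕ) (𝓝 (inner ℝ (f x) (f y))) := by
      rw [hf, he]
      refine (hk (Sum.inr x) (Sum.inr y)).congr fun n => ?_
      unfold c2
      congr 1
    exact tendsto_nhds_unique h5 (h2 x y)
  have h1 : ∀ x, Tendsto (fun n => c1 P F n x) (U : Filter ℕ) (𝓝 (inner ℝ (f x) one)) := by
    intro x
    rw [hf, hone, he]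
    refine (hk (Sum.inr x) (Sum.inl none)).congr fun n => ?_
    unfold c1
    congr 1; funext ω
    simp [Vn3, Vn]
  have hone1 : inner ℝ one one = (1:ℝ) := by
    rw [hone, he]
    have h1 : Tendsto (fun _ : ℕ => (1:ℝ)) (U : Filter ℕ)
        (𝓝 (k (Sum.inl none) (Sum.inl none))) := by
      refine (hk (Sum.inl none) (Sum.inl none)).congr fun n => ?_
      simp [Vn3, Vn]
    exact tendsto_nhds_unique h1 tendsto_const_nhds
  have hfn : ∀ x, ‖f x‖ ^ 2 ≤ ‖u 0 0‖ := by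
    intro x
    rw [← real_inner_self_eq_norm_sq, hff]
    refine (real_inner_le_norm _ _).trans ?_
    have hn1 : ‖one‖ = 1 := by
      have : ‖one‖ ^ 2 = 1 := by rw [← real_inner_self_eq_norm_sq, hone1]
      nlinarith [norm_nonneg one]
    rw [hn1, mul_one]
    exact hpair.norm_le x x
  have htrip : TripP u f := by
    refine ⟨hpair, ?_, ⟨‖u 0 0‖ + 1, fun x => ?_⟩, fun x y z => ?_, fun x y z s => ?_⟩
    · rw [continuous_iff_continuousAt]
      intro x₀
      rw [ContinuousAt, tendsto_iff_norm_sub_tendsto_zero]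
      have e1 : ∀ x, ‖f x - f x₀‖ ^ 2 = inner ℝ (u x x) one - 2 * inner ℝ (u x x₀) one
          + inner ℝ (u x₀ x₀) one := by
        intro x
        rw [← real_inner_self_eq_norm_sq, real_inner_sub_sub_self, hff, hff, hff]
      have c1 : Continuous fun x => inner ℝ (u x x) one - 2 * inner ℝ (u x x₀) one
          + inner ℝ (u x₀ x₀) one :=
        (((hpair.cont₂ continuous_id continuous_id).inner continuous_const).sub
          (continuous_const.mul ((hpair.cont₂ continuous_id continuous_const).inner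
            continuous_const))).add continuous_const
      have t1 : Tendsto (fun x => ‖f x - f x₀‖ ^ 2) (𝓝 x₀) (𝓝 0) := by
        have := c1.tendsto x₀
        simp only [← e1] at this
        simpa using this
      have t2 := t1.sqrt
      simpa only [Real.sqrt_zero, Real.sqrt_sq (norm_nonneg _)] using t2
    · have h5 := hfn x
      nlinarith [norm_nonneg (f x), norm_nonneg (u 0 0), sq_nonneg (‖f x‖ - 1)]
    · refine tendsto_nhds_unique (h3 x y z) ((h3 z y x).congr fun n => ?_)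
      unfold c3; congr 1; funext ω; ring
    · have h5 := (h3 (x + s) (y + s) (z + s)).sub (h3 x y z)
      have h6 := (hO.inv3 x y z s).mono_left hU
      have h7 := tendsto_nhds_unique h5 h6
      linarith
  refine ⟨H, i1, i2, i3, u, one, f, htrip, hone1, hin, h2, h3, hff, h1, fun x s => ?_⟩
  have h5 := (h1 (x + s)).sub (h1 x)
  have h6 := (hO.inv1 x s).mono_left hU
  have h7 := tendsto_nhds_unique h5 h6
  linarith

/-- **Planck-scale quantum ergodicity forces the odd moments to vanish.** -/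
theorem AWave.odd_of_planck {F : ℕ → ℂ → Ω → ℝ} {B : ℝ} (hF : AWave P F B) (hO : OddInv P F)
    {v : ℝ} (hq : AsyPlanck P F v) :
    (∀ x y z, Tendsto (fun n => c3 P F n x y z) atTop (𝓝 0)) ∧
    ∀ x, Tendsto (fun n => c1 P F n x) atTop (𝓝 0) := by
  constructor
  · intro x y z
    rw [tendsto_iff_ultrafilter]
    intro U hU
    obtain ⟨H, i1, i2, i3, u, one, f, ht, hone, h4, h2, h3, hff, h1, hs⟩ := hF.limit3 hO U hU
    have hcov := fun a => hF.cov_of_planck (v := v) a (hq a) hU ht.pair hone h4 h2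
    have hw : WickP u v := fun x₁ x₂ x₃ x₄ => ht.pair.wick hone hcov x₁ x₂ x₃ x₄
    have := h3 x y z
    rw [ht.three hw] at this
    exact this
  · intro x
    rw [tendsto_iff_ultrafilter]
    intro U hU
    obtain ⟨H, i1, i2, i3, u, one, f, ht, hone, h4, h2, h3, hff, h1, hs⟩ := hF.limit3 hO U hU
    have hW : WeakHelm (fun x => ((inner ℝ (f x) one : ℝ) : ℂ)) := by
      refine vec_helm ht.fcont (fun x' => ?_) one
      simp only [hff]
      exact ht.pair.helm_w x' one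
    have hconst : ∀ x, inner ℝ (f x) one = inner ℝ (f 0) one := by
      intro x
      have := hs 0 x
      rw [zero_add] at this
      exact this
    simp only [hconst] at hW
    have h0 := const_helm hW
    have h5 := h1 x
    rw [hconst x] at h5
    have h6 : inner ℝ (f 0) one = (0:ℝ) := by exact_mod_cast h0
    rw [h6] at h5
    exact h5

end

end Berry
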