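import Pool.Agent.LibH11.Berry.AUp

/-!
Local masses at large scales are controlled by those at smaller scales; a lower bound for the fourth
moments in terms of local masses.
-/

open Complex Filter Topology MeasureTheory Metric InnerProductSpace Laplacian
open scoped ENNReal

namespace Berry

noncomputable section

section E

variable {E : Type*} [NormedAddCommGroup E] [NormedSpace ℝ E]

/-- quantitative translation invariance of averages over large discs -/
lemma avg_shift_bound {g : ℂ → E} (hg : Continuous g) {C : ℝ} (hC : ∀ s, ‖g s‖ ≤ C) {x : ℂ}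
    {r R : ℝ} (hx : ‖x‖ ≤ r) (hR : r < R) :
    ‖(⨍ s in ball (0:ℂ) R, g (x + s)) - ⨍ s in ball (0:ℂ) R, g s‖ ≤ 4 * C * (r / R) := by
  have hC0 : 0 ≤ C := (norm_nonneg _).trans (hC 0)
  have hpi := Real.pi_pos
  have hxR : ‖x‖ < R := lt_of_le_of_lt hx hR
  have hRpos : 0 < R := lt_of_le_of_lt (norm_nonneg _) hxR
  have h1 : ∫ s in ball (0:ℂ) R, g (x + s) = ∫ s in ball x R, g s := by
    have hmp : MeasurePreserving (fun s : ℂ => x + s) volume volume :=
      measurePreserving_add_left volume x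
    have hme : MeasurableEmbedding (fun s : ℂ => x + s) :=
      (MeasurableEquiv.addLeft x).measurableEmbedding
    have := hmp.setIntegral_preimage_emb hme g (ball x R)
    rw [← this]
    congr 2
    ext s
    simp [mem_ball]
  have hsub1 : ball (0:ℂ) (R - ‖x‖) ⊆ ball (0:ℂ) R :=
    ball_subset_ball (by linarith [norm_nonneg x])
  have hsub2 : ball (0:ℂ) (R - ‖x‖) ⊆ ball x R := by
    apply ball_subset_ball'
    rw [dist_eq, zero_sub, norm_neg]; linarith
  have hm : MeasurableSet (ball (0:ℂ) (R - ‖x‖)) := measurableSet_ball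
  have e1 : ∫ s in ball x R, g s = (∫ s in ball (0:ℂ) (R - ‖x‖), g s)
      + ∫ s in ball x R \ ball (0:ℂ) (R - ‖x‖), g s := by
    rw [← setIntegral_union (Set.disjoint_sdiff_right) (measurableSet_ball.diff hm)
      (intOn hg _ _) ((intOn hg x R).mono_set Set.sdiff_subset), Set.union_sdiff_cancel hsub2]
  have e2 : ∫ s in ball (0:ℂ) R, g s = (∫ s in ball (0:ℂ) (R - ‖x‖), g s)
      + ∫ s in ball (0:ℂ) R \ ball (0:ℂ) (R - ‖x‖), g s := by
    rw [← setIntegral_union (Set.disjoint_sdiff_right) (measurableSet_ball.diff hm)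
      (intOn hg _ _) ((intOn hg 0 R).mono_set Set.sdiff_subset), Set.union_sdiff_cancel hsub1]
  have b : ∀ y : ℂ, ball (0:ℂ) (R - ‖x‖) ⊆ ball y R →
      ‖∫ s in ball y R \ ball (0:ℂ) (R - ‖x‖), g s‖ ≤
      C * (Real.pi * R^2 - Real.pi * (R - ‖x‖)^2) := by
    intro y hy
    have h2 : ‖∫ s in ball y R \ ball (0:ℂ) (R - ‖x‖), g s‖ ≤
        C * (volume : Measure ℂ).real (ball y R \ ball (0:ℂ) (R - ‖x‖)) := by
      apply norm_setIntegral_le_of_norm_le_const
      · exact lt_of_le_of_lt (measure_mono Set.sdiff_subset) measure_ball_lt_top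
      · intro s _; exact hC s
    refine h2.trans (le_of_eq ?_)
    rw [measureReal_sdiff hy hm, vol_ball_real _ hRpos.le, vol_ball_real _ (by linarith)]
  rw [avg_eq _ hRpos.le, avg_eq _ hRpos.le, ← smul_sub, h1, e1, e2, norm_smul,
    Real.norm_of_nonneg (by positivity)]
  have h3 : ‖(∫ s in ball (0:ℂ) (R - ‖x‖), g s)
      + (∫ s in ball x R \ ball (0:ℂ) (R - ‖x‖), g s) - ((∫ s in ball (0:ℂ) (R - ‖x‖), g s)
      + ∫ s in ball (0:ℂ) R \ ball (0:ℂ) (R - ‖x‖), g s)‖ ≤
      2 * (C * (Real.pi * R^2 - Real.pi * (R - ‖x‖)^2)) := by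
    rw [add_sub_add_left_eq_sub]
    refine (norm_sub_le _ _).trans ?_
    have := b x hsub2
    have := b 0 hsub1
    linarith
  have h4 : 2 * (C * (Real.pi * R^2 - Real.pi * (R - ‖x‖)^2)) ≤ 4 * C * Real.pi * R * r := by
    have e : Real.pi * R^2 - Real.pi * (R - ‖x‖)^2 = Real.pi * (2 * R * ‖x‖ - ‖x‖ ^ 2) := by ring
    rw [e]
    have h5 : 2 * R * ‖x‖ - ‖x‖ ^ 2 ≤ 2 * R * r := by
      nlinarith [sq_nonneg ‖x‖]
    have h6 : Real.pi * (2 * R * ‖x‖ - ‖x‖ ^ 2) ≤ Real.pi * (2 * R * r) :=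
      mul_le_mul_of_nonneg_left h5 hpi.le
    have h7 := mul_le_mul_of_nonneg_left h6 hC0
    nlinarith
  refine (mul_le_mul_of_nonneg_left (h3.trans h4) (by positivity)).trans (le_of_eq ?_)
  field_simp

/-- exchanging two averages -/
lemma avg_swap {f : ℂ → ℂ → E} (hf : Continuous fun p : ℂ × ℂ => f p.1 p.2) (R r : ℝ) :
    (⨍ s in ball (0:ℂ) R, ⨍ t in ball (0:ℂ) r, f s t)
      = ⨍ t in ball (0:ℂ) r, ⨍ s in ball (0:ℂ) R, f s t := by
  have hint : Integrable (Function.uncurry f)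
      ((volume.restrict (ball (0:ℂ) R)).prod (volume.restrict (ball (0:ℂ) r))) := by
    rw [Measure.prod_restrict, ← Measure.volume_eq_prod]
    have h1 : IntegrableOn (Function.uncurry f) (closedBall (0:ℂ) R ×ˢ closedBall (0:ℂ) r)
        (volume : Measure (ℂ × ℂ)) :=
      ContinuousOn.integrableOn_compact
        ((isCompact_closedBall (0:ℂ) R).prod (isCompact_closedBall (0:ℂ) r)) hf.continuousOn
    exact h1.mono_set (Set.prod_mono ball_subset_closedBall ball_subset_closedBall)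
  simp only [setAverage_eq]
  rw [integral_smul, integral_smul, integral_integral_swap hint, smul_comm]

end E

section PairMono

variable {H : Type*} [NormedAddCommGroup H] [InnerProductSpace ℝ H] [CompleteSpace H]
  {u : ℂ → ℂ → H}

/-- the averages over translated discs have the same norm -/
lemma PairP.norm_avg_shift (hu : PairP u) (a t : ℂ) (r : ℝ) :
    ‖⨍ s in ball (0:ℂ) r, u (t + s) (a + (t + s))‖ = ‖⨍ s in ball (0:ℂ) r, u s (a + s)‖ := by
  have hc1 : Continuous fun s => u (t + s) (a + (t + s)) :=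
    hu.cont₂ (by fun_prop) (by fun_prop)
  have hc2 : Continuous fun s => u s (a + s) := hu.cont₂ (by fun_prop) (by fun_prop)
  have h1 : ‖⨍ s in ball (0:ℂ) r, u (t + s) (a + (t + s))‖ ^ 2
      = ‖⨍ s in ball (0:ℂ) r, u s (a + s)‖ ^ 2 := by
    rw [← real_inner_self_eq_norm_sq, ← real_inner_self_eq_norm_sq, inner_avg_avg hc1 hc1,
      inner_avg_avg hc2 hc2]
    congr 1; funext s
    congr 1; funext s'
    have h := hu.stat s (a + s) s' (a + s') t
    rw [← h]
    congr 2 <;> ring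
  exact (sq_eq_sq₀ (norm_nonneg _) (norm_nonneg _)).1 h1

/-- averages over large discs are almost contractions of averages over smaller discs -/
lemma PairP.avg_mono (hu : PairP u) (a : ℂ) {r R : ℝ} (hr : 0 < r) (hR : r < R) :
    ‖⨍ s in ball (0:ℂ) R, u s (a + s)‖
      ≤ ‖⨍ s in ball (0:ℂ) r, u s (a + s)‖ + 4 * ‖u 0 0‖ * (r / R) := by
  have hR0 : 0 < R := hr.trans hR
  set w : ℂ → H := fun s => u s (a + s) with hw
  have hwc : Continuous w := hu.cont₂ (by fun_prop) (by fun_prop)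
  have hwb : ∀ s, ‖w s‖ ≤ ‖u 0 0‖ := fun s => hu.norm_le _ _
  have hf : Continuous fun p : ℂ × ℂ => w (p.1 + p.2) :=
    hwc.comp (continuous_fst.add continuous_snd)
  -- the double average
  have h1 : ‖⨍ t in ball (0:ℂ) R, ⨍ s in ball (0:ℂ) r, w (t + s)‖
      ≤ ‖⨍ s in ball (0:ℂ) r, w s‖ := by
    have hcont : Continuous fun t => ⨍ s in ball (0:ℂ) r, w (t + s) := by
      have e : (fun t => ⨍ s in ball (0:ℂ) r, w (t + s))
          = fun t => ((volume : Measure ℂ).real (ball (0:ℂ) r))⁻¹ •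
            ∫ s in closedBall (0:ℂ) r, w (t + s) := by
        funext t
        rw [setAverage_eq]
        congr 1
        apply setIntegral_congr_set
        have h3 : closedBall (0:ℂ) r = ball (0:ℂ) r ∪ sphere (0:ℂ) r := ball_union_sphere.symm
        rw [h3]
        have h4 : (volume : Measure ℂ) (sphere (0:ℂ) r) = 0 := Measure.addHaar_sphere _ _ _
        exact (union_ae_eq_left_of_ae_eq_empty (ae_eq_empty.2 h4)).symm
      rw [e]
      have h2 : Continuous fun t => ∫ s in closedBall (0:ℂ) r, w (t + s) :=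
        continuous_parametric_integral_of_continuous (f := fun t s => w (t + s)) hf
          (isCompact_closedBall (0:ℂ) r)
      exact h2.const_smul ((volume : Measure ℂ).real (ball (0:ℂ) r))⁻¹
    refine (avg_norm_le _ R).trans (avg_le_of_le hcont.norm (fun t => ?_) hR0)
    exact (hu.norm_avg_shift a t r).le
  have h2 : (⨍ t in ball (0:ℂ) R, ⨍ s in ball (0:ℂ) r, w (t + s))
      = ⨍ s in ball (0:ℂ) r, ⨍ t in ball (0:ℂ) R, w (s + t) := by
    rw [avg_swap hf R r]
    congr 1; funext s; congr 1; funext t; rw [add_comm]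
  have hcont2 : Continuous fun s => ⨍ t in ball (0:ℂ) R, w (s + t) := by
    have e : (fun s => ⨍ t in ball (0:ℂ) R, w (s + t))
        = fun s => ((volume : Measure ℂ).real (ball (0:ℂ) R))⁻¹ •
          ∫ t in closedBall (0:ℂ) R, w (s + t) := by
      funext t
      rw [setAverage_eq]
      congr 1
      apply setIntegral_congr_set
      have h3 : closedBall (0:ℂ) R = ball (0:ℂ) R ∪ sphere (0:ℂ) R := ball_union_sphere.symm
      rw [h3]
      have h4 : (volume : Measure ℂ) (sphere (0:ℂ) R) = 0 := Measure.addHaar_sphere _ _ _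
      exact (union_ae_eq_left_of_ae_eq_empty (ae_eq_empty.2 h4)).symm
    rw [e]
    have h2 : Continuous fun s => ∫ t in closedBall (0:ℂ) R, w (s + t) :=
      continuous_parametric_integral_of_continuous (f := fun t s => w (t + s)) hf
        (isCompact_closedBall (0:ℂ) R)
    exact h2.const_smul ((volume : Measure ℂ).real (ball (0:ℂ) R))⁻¹
  have h3 : ‖(⨍ s in ball (0:ℂ) r, ⨍ t in ball (0:ℂ) R, w (s + t))
      - ⨍ t in ball (0:ℂ) R, w t‖ ≤ 4 * ‖u 0 0‖ * (r / R) := by
    have e : (⨍ t in ball (0:ℂ) R, w t) = ⨍ _ in ball (0:ℂ) r, ⨍ t in ball (0:ℂ) R, w t :=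
      (avg_const hr _).symm
    have e2 := PairP.avg_subE (g := fun s => ⨍ t in ball (0:ℂ) R, w (s + t))
      (h := fun _ => ⨍ t in ball (0:ℂ) R, w t) hcont2 continuous_const r
    rw [e, e2, setAverage_eq]
    have hk : ‖∫ s in ball (0:ℂ) r, ((⨍ t in ball (0:ℂ) R, w (s + t)) - ⨍ t in ball (0:ℂ) R, w t)‖
        ≤ (4 * ‖u 0 0‖ * (r / R)) * (volume : Measure ℂ).real (ball (0:ℂ) r) := by
      apply norm_setIntegral_le_of_norm_le_const measure_ball_lt_top
      intro s hs
      rw [mem_ball, dist_zero_right] at hs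
      exact avg_shift_bound hwc hwb hs.le hR
    have hv : 0 < (volume : Measure ℂ).real (ball (0:ℂ) r) := by
      rw [vol_ball_real _ hr.le]; have := Real.pi_pos; positivity
    rw [norm_smul, norm_inv, Real.norm_of_nonneg hv.le, inv_mul_le_iff₀ hv, mul_comm]
    exact hk
  rw [h2] at h1
  have h4 := norm_sub_norm_le (⨍ t in ball (0:ℂ) R, w t)
    (⨍ s in ball (0:ℂ) r, ⨍ t in ball (0:ℂ) R, w (s + t))
  rw [norm_sub_rev] at h4
  linarith

/-- the fourth moment is at least `3/2` times the square of the norm of the local mass -/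
lemma PairP.lower' (hu : PairP u) : (3 / 2) * ‖hu.cov 0‖ ^ 2 ≤ inner ℝ (u 0 0) (u 0 0) := by
  obtain ⟨h, hh, hform⟩ := hu.formula
  obtain ⟨h0, h1⟩ := hu.h_zero_bounds (hh 0)
  have h2 := congrArg Complex.re (hform (fun _ => 0))
  have e0 : hu.C4f (fun _ => (0:ℂ)) = ((inner ℝ (u 0 0) (u 0 0) : ℝ) : ℂ) := rfl
  have e1 : hu.P12 (fun _ => (0:ℂ)) = ((‖hu.cov 0‖ ^ 2 : ℝ) : ℂ) := by
    have : hu.P12 (fun _ => (0:ℂ)) = ((inner ℝ (hu.cov (0 - 0)) (hu.cov (0 - 0)) : ℝ) : ℂ) := rfl
    rw [this, sub_zero, real_inner_self_eq_norm_sq]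
  have e2 : hu.P23 (fun _ => (0:ℂ)) = ((‖hu.cov 0‖ ^ 2 : ℝ) : ℂ) := by
    have : hu.P23 (fun _ => (0:ℂ)) = ((inner ℝ (hu.cov (0 - 0)) (hu.cov (0 - 0)) : ℝ) : ℂ) := rfl
    rw [this, sub_zero, real_inner_self_eq_norm_sq]
  have e3 : hu.P13 (fun _ => (0:ℂ)) = ((‖hu.cov 0‖ ^ 2 : ℝ) : ℂ) := by
    have : hu.P13 (fun _ => (0:ℂ)) = ((inner ℝ (hu.cov (0 - 0)) (hu.cov (0 - 0)) : ℝ) : ℂ) := rfl
    rw [this, sub_zero, real_inner_self_eq_norm_sq]
  rw [e0, e1, e2, e3] at h2
  simp only [add_zero, sub_zero, Complex.add_re, Complex.sub_re, Complex.ofReal_re] at h2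
  rw [h2]
  linarith

end PairMono

end

end Berry
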