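import Pool.Agent.LibH11.Berry.AMono

/-!
A uniform lower bound for the fourth moments in terms of local masses at large scales.
-/

open Complex Filter Topology MeasureTheory Metric InnerProductSpace Laplacian
open scoped ENNReal

namespace Berry

noncomputable section

variable {Ω : Type*} [MeasurableSpace Ω] {P : Measure Ω} [IsProbabilityMeasure P]
  {F : ℕ → ℂ → Ω → ℝ} {B : ℝ}

omit [IsProbabilityMeasure P] in
lemma AWave.subseq (hF : AWave P F B) {σ : ℕ → ℕ} (hσ : Tendsto σ atTop atTop) :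
    AWave P (fun n => F (σ n)) B where
  ev := hσ.eventually hF.ev
  eqn := fun r δ hδ => hσ.eventually (hF.eqn r δ hδ)
  inv4 := fun x₁ x₂ x₃ x₄ s => (hF.inv4 x₁ x₂ x₃ x₄ s).comp hσ
  inv2 := fun x y s => (hF.inv2 x y s).comp hσ

/-- the mean square of the local mass at scale `R` -/
def mSq (P : Measure Ω) (F : ℕ → ℂ → Ω → ℝ) (R : ℝ) (n : ℕ) : ℝ :=
  ∫ ω, spatialAvg (F n) 0 R ω ^ 2 ∂P

/-- in the limit along an ultrafilter, the local masses converge to those of the limit object -/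
lemma AWave.mSq_lim (hF : AWave P F B) {U : Filter ℕ} (hU : U ≤ atTop)
    {H : Type} [NormedAddCommGroup H] [InnerProductSpace ℝ H] [CompleteSpace H] {u : ℂ → ℂ → H}
    {one : H} (hu : PairP u) (hone : inner ℝ one one = 1)
    (h4 : ∀ x₁ x₂ x₃ x₄, Tendsto (fun n => c4 P F n x₁ x₂ x₃ x₄) U
        (𝓝 (inner ℝ (u x₁ x₂) (u x₃ x₄))))
    (h2 : ∀ x y, Tendsto (fun n => c2 P F n x y) U (𝓝 (inner ℝ (u x y) one)))
    {R : ℝ} (hR : 0 < R) :
    Tendsto (mSq P F R) U (𝓝 (‖⨍ s in ball (0:ℂ) R, u s (0 + s)‖ ^ 2)) := by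
  have h := hF.norm_limit hU hu hone h4 h2 0 0 hR
  rw [zero_smul, sub_zero] at h
  refine h.congr' ?_
  filter_upwards [hU hF.ev] with n hn
  rw [← hn.1.planck_eq]
  unfold mSq
  simp only [sub_zero]

/-- local masses at a large scale are controlled by those at a smaller scale -/
lemma AWave.mSq_mono (hF : AWave P F B) {r R : ℝ} (hr : 0 < r) (hR : r < R) {η : ℝ} (hη : 0 < η) :
    ∀ᶠ n in atTop, Real.sqrt (mSq P F R n)
      ≤ Real.sqrt (mSq P F r n) + 4 * Real.sqrt |B| * (r / R) + η := by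
  by_contra hcon
  rw [Filter.not_eventually] at hcon
  have hne : (atTop ⊓ 𝓟 {n | ¬ (Real.sqrt (mSq P F R n)
      ≤ Real.sqrt (mSq P F r n) + 4 * Real.sqrt |B| * (r / R) + η)}).NeBot :=
    Filter.frequently_mem_iff_neBot.1 hcon
  set U := Ultrafilter.of (atTop ⊓ 𝓟 {n | ¬ (Real.sqrt (mSq P F R n)
      ≤ Real.sqrt (mSq P F r n) + 4 * Real.sqrt |B| * (r / R) + η)}) with hUdef
  have hU' : (U : Filter ℕ) ≤ atTop ⊓ 𝓟 {n | ¬ (Real.sqrt (mSq P F R n)
      ≤ Real.sqrt (mSq P F r n) + 4 * Real.sqrt |B| * (r / R) + η)} := Ultrafilter.of_le _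
  have hU : (U : Filter ℕ) ≤ atTop := hU'.trans inf_le_left
  have hbad : ∀ᶠ n in (U : Filter ℕ), ¬ (Real.sqrt (mSq P F R n)
      ≤ Real.sqrt (mSq P F r n) + 4 * Real.sqrt |B| * (r / R) + η) :=
    (hU'.trans inf_le_right) (mem_principal_self _)
  obtain ⟨H, i1, i2, i3, u, one, hu, hone, h4, h2⟩ := hF.limit U hU
  have hRpos : 0 < R := hr.trans hR
  have l1 := (hF.mSq_lim hU hu hone h4 h2 hRpos).sqrt
  have l2 := (hF.mSq_lim hU hu hone h4 h2 hr).sqrt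
  rw [Real.sqrt_sq (norm_nonneg _)] at l1 l2
  have hb : ‖u 0 0‖ ≤ Real.sqrt |B| := by
    apply Real.le_sqrt_of_sq_le
    rw [← real_inner_self_eq_norm_sq]
    refine le_of_tendsto (h4 0 0 0 0) ?_
    filter_upwards [hU hF.ev] with n hn
    have h5 := hn.2 0
    have e : c4 P F n 0 0 0 0 = ∫ ω, F n 0 ω ^ 4 ∂P := by
      unfold c4; congr 1; funext ω; ring
    rw [e]
    exact h5.trans (le_abs_self B)
  have hm := hu.avg_mono 0 hr hR
  have hrR : 0 ≤ r / R := by positivity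
  have hm2 : ‖⨍ s in ball (0:ℂ) R, u s (0 + s)‖
      ≤ ‖⨍ s in ball (0:ℂ) r, u s (0 + s)‖ + 4 * Real.sqrt |B| * (r / R) := by
    have : 4 * ‖u 0 0‖ * (r / R) ≤ 4 * Real.sqrt |B| * (r / R) :=
      mul_le_mul_of_nonneg_right (by linarith) hrR
    linarith
  have hlow : ‖⨍ s in ball (0:ℂ) r, u s (0 + s)‖ + 4 * Real.sqrt |B| * (r / R) + η
      ≤ ‖⨍ s in ball (0:ℂ) R, u s (0 + s)‖ := by
    refine le_of_tendsto_of_tendsto ((l2.add_const _).add_const η) l1 ?_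
    filter_upwards [hbad] with n hn
    exact (not_le.1 hn).le
  linarith

/-- **lower bound for the fourth moments in terms of local masses at large scales** -/
theorem AWave.lower_loc (hF : AWave P F B) {ε : ℝ} (hε : 0 < ε) :
    ∃ R₀ : ℝ, ∀ R ≥ R₀, ∀ᶠ n in atTop, (3 / 2) * mSq P F R n ≤ c4 P F n 0 0 0 0 + ε := by
  by_contra hcon
  push Not at hcon
  -- bad scales
  have h1 : ∀ k : ℕ, ∃ R : ℝ, ((k:ℝ) + 2) ^ 2 ≤ R ∧
      ∃ᶠ n in atTop, c4 P F n 0 0 0 0 + ε < (3 / 2) * mSq P F R n := by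
    intro k
    obtain ⟨R, hR, hn⟩ := hcon (((k:ℝ) + 2) ^ 2)
    refine ⟨R, hR, ?_⟩
    exact hn
  choose Rk hRk hfr using h1
  -- good indices
  have h2 : ∀ k : ℕ, ∃ n : ℕ, k ≤ n ∧ c4 P F n 0 0 0 0 + ε < (3 / 2) * mSq P F (Rk k) n ∧
      ∀ j ∈ Finset.range (k + 1), Real.sqrt (mSq P F (Rk k) n)
        ≤ Real.sqrt (mSq P F ((j:ℝ) + 1) n) + 4 * Real.sqrt |B| * (((j:ℝ) + 1) / Rk k)
          + 1 / ((k:ℝ) + 1) := by
    intro k
    have hk0 : (0:ℝ) ≤ k := Nat.cast_nonneg k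
    have hev : ∀ᶠ n in atTop, ∀ j ∈ Finset.range (k + 1), Real.sqrt (mSq P F (Rk k) n)
        ≤ Real.sqrt (mSq P F ((j:ℝ) + 1) n) + 4 * Real.sqrt |B| * (((j:ℝ) + 1) / Rk k)
          + 1 / ((k:ℝ) + 1) := by
      rw [Filter.eventually_all_finset]
      intro j hj
      have hjk : (j:ℝ) ≤ k := by exact_mod_cast Nat.lt_succ_iff.1 (Finset.mem_range.1 hj)
      apply hF.mSq_mono (by positivity) _ (by positivity)
      have := hRk k
      nlinarith
    obtain ⟨n, hn, hnn⟩ := (((hfr k).and_eventually hev).and_eventually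
      (eventually_ge_atTop k)).exists
    exact ⟨n, hnn, hn.1, hn.2⟩
  choose σ hσk hσb hσg using h2
  have hσ : Tendsto σ atTop atTop := tendsto_atTop_mono hσk tendsto_id
  have hF' := hF.subseq hσ
  obtain ⟨U, hU⟩ := exists_ultra
  obtain ⟨H, i1, i2, i3, u, one, hu, hone, h4, h2⟩ := hF'.limit U hU
  -- the limit of the bad local masses
  have key : ∀ j : ℕ, Real.sqrt ((2 / 3) * (inner ℝ (u 0 0) (u 0 0) + ε))
      ≤ ‖⨍ s in ball (0:ℂ) ((j:ℝ) + 1), u s (0 + s)‖ := by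
    intro j
    have l1 := (hF'.mSq_lim hU hu hone h4 h2 (R := (j:ℝ) + 1) (by positivity)).sqrt
    rw [Real.sqrt_sq (norm_nonneg _)] at l1
    have l2 : Tendsto (fun k : ℕ => 4 * Real.sqrt |B| * (((j:ℝ) + 1) / Rk k) + 1 / ((k:ℝ) + 1))
        (U : Filter ℕ) (𝓝 (4 * Real.sqrt |B| * 0 + 0)) := by
      have a1 : Tendsto (fun k : ℕ => Rk k) atTop atTop := by
        refine tendsto_atTop_mono (f := fun k : ℕ => (k:ℝ)) (fun k => ?_)
          tendsto_natCast_atTop_atTop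
        have := hRk k
        have hk0 : (0:ℝ) ≤ k := Nat.cast_nonneg k
        nlinarith
      have a2 : Tendsto (fun k : ℕ => ((j:ℝ) + 1) / Rk k) atTop (𝓝 0) :=
        tendsto_const_nhds.div_atTop a1
      exact ((a2.const_mul _).add tendsto_one_div_add_atTop_nhds_zero_nat).mono_left hU
    have l3 : Tendsto (fun k => Real.sqrt ((2 / 3) * (c4 P F (σ k) 0 0 0 0 + ε))) (U : Filter ℕ)
        (𝓝 (Real.sqrt ((2 / 3) * (inner ℝ (u 0 0) (u 0 0) + ε)))) :=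
      (((h4 0 0 0 0).add_const ε).const_mul (2 / 3)).sqrt
    have l4 := l1.add l2
    rw [mul_zero, add_zero, add_zero] at l4
    refine le_of_tendsto_of_tendsto l3 l4 ?_
    have hj : ∀ᶠ k : ℕ in (U : Filter ℕ), j ≤ k := hU (eventually_ge_atTop j)
    filter_upwards [hj] with k hk
    have b1 := hσg k j (Finset.mem_range.2 (Nat.lt_succ_of_le hk))
    have b2 : Real.sqrt ((2 / 3) * (c4 P F (σ k) 0 0 0 0 + ε)) ≤ Real.sqrt (mSq P F (Rk k) (σ k)) := by
      apply Real.sqrt_le_sqrt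
      have := hσb k
      linarith
    have b3 : mSq P (fun n => F (σ n)) ((j:ℝ) + 1) k = mSq P F ((j:ℝ) + 1) (σ k) := rfl
    rw [b3]
    linarith
  have hlim : Tendsto (fun j : ℕ => ‖⨍ s in ball (0:ℂ) ((j:ℝ) + 1), u s (0 + s)‖) atTop
      (𝓝 ‖hu.cov 0‖) := by
    have a1 : Tendsto (fun j : ℕ => (j:ℝ) + 1) atTop atTop :=
      tendsto_atTop_add_const_right _ _ tendsto_natCast_atTop_atTop
    exact ((hu.tendsto_cov 0).norm).comp a1
  have hfin := ge_of_tendsto' hlim key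
  have h5 := hu.lower'
  have h6 : (2 / 3) * (inner ℝ (u 0 0) (u 0 0) + ε) ≤ ‖hu.cov 0‖ ^ 2 := by
    have h7 : (0:ℝ) ≤ inner ℝ (u 0 0) (u 0 0) := real_inner_self_nonneg
    have h8 : 0 ≤ (2 / 3) * (inner ℝ (u 0 0) (u 0 0) + ε) := by positivity
    calc (2 / 3) * (inner ℝ (u 0 0) (u 0 0) + ε)
        = Real.sqrt ((2 / 3) * (inner ℝ (u 0 0) (u 0 0) + ε)) ^ 2 := (Real.sq_sqrt h8).symm
      _ ≤ ‖hu.cov 0‖ ^ 2 := pow_le_pow_left₀ (Real.sqrt_nonneg _) hfin 2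
  linarith

end

end Berry
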