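import Pool.Agent.LibH11.Berry.ALim

/-!
Spatial averages of asymptotically invariant waves and of their limit objects.
-/

open Complex Filter Topology MeasureTheory Metric InnerProductSpace Laplacian
open scoped ENNReal

namespace Berry

noncomputable section

variable {Ω : Type*} [MeasurableSpace Ω] {P : Measure Ω} [IsProbabilityMeasure P]

/-- exchanging a limit with a disc average -/
lemma lim_avg {U : Filter ℕ} {g : ℕ → ℂ → ℝ} {g₀ : ℂ → ℝ}
    (hgc : ∀ᶠ n in U, Continuous (g n)) (hg₀ : Continuous g₀)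
    (hlim : ∀ z, Tendsto (fun n => g n z) U (𝓝 (g₀ z)))
    (hequi : ∀ r η : ℝ, 0 < η → ∃ d > 0, ∀ᶠ n in U, ∀ t t' : ℂ, ‖t‖ < r → ‖t'‖ < r →
      ‖t - t'‖ < d → |g n t - g n t'| ≤ η) {R : ℝ} (hR : 0 < R) :
    Tendsto (fun n => ⨍ s in ball (0:ℂ) R, g n s) U (𝓝 (⨍ s in ball (0:ℂ) R, g₀ s)) := by
  set K : Set ℂ := closedBall (0:ℂ) R with hK
  have hKc : IsCompact K := isCompact_closedBall _ _
  set r := R + 1 with hr
  have hunif : ∀ η : ℝ, 0 < η → ∀ᶠ n in U, ∀ z ∈ K, |g n z - g₀ z| ≤ 3 * η := by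
    intro η hη
    obtain ⟨d, hd, h1⟩ := hequi r η hη
    obtain ⟨d', hd', h2⟩ : ∃ d' > 0, ∀ z ∈ K, ∀ z' ∈ K, dist z z' < d' → |g₀ z - g₀ z'| ≤ η := by
      have huc := hKc.uniformContinuousOn_of_continuous hg₀.continuousOn
      obtain ⟨d', hd', h⟩ := Metric.uniformContinuousOn_iff.1 huc η hη
      exact ⟨d', hd', fun z hz z' hz' hzz => (h z hz z' hz' hzz).le⟩
    set e := min d d' with he
    have he0 : 0 < e := lt_min hd hd'
    obtain ⟨S, hSK, hSf, hcov⟩ := hKc.finite_cover_balls he0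
    have h3 : ∀ᶠ n in U, ∀ p ∈ S, |g n p - g₀ p| ≤ η := by
      rw [eventually_all_finite hSf]
      intro p _
      have h4 := Metric.tendsto_nhds.1 (hlim p) η hη
      filter_upwards [h4] with n hn
      rw [Real.dist_eq] at hn
      exact hn.le
    filter_upwards [h1, h3] with n hn1 hn3 z hz
    have hz2 := hcov hz
    simp only [Set.mem_iUnion, exists_prop] at hz2
    obtain ⟨p, hp, hzp⟩ := hz2
    rw [mem_ball] at hzp
    have hpK : p ∈ K := hSK hp
    have hin : ∀ q ∈ K, ‖q‖ < r := by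
      intro q hq
      rw [hK, mem_closedBall, dist_zero_right] at hq
      linarith
    have a1 := hn1 z p (hin z hz) (hin p hpK)
      (by rw [← dist_eq_norm]; exact lt_of_lt_of_le hzp (min_le_left _ _))
    have a2 := hn3 p hp
    have a3 := h2 p hpK z hz (by rw [dist_comm]; exact lt_of_lt_of_le hzp (min_le_right _ _))
    have e1 : g n z - g₀ z = (g n z - g n p) + (g n p - g₀ p) + (g₀ p - g₀ z) := by ring
    rw [e1]
    have b1 := abs_add_le ((g n z - g n p) + (g n p - g₀ p)) (g₀ p - g₀ z)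
    have b2 := abs_add_le (g n z - g n p) (g n p - g₀ p)
    linarith
  rw [Metric.tendsto_nhds]
  intro ε hε
  filter_upwards [hunif (ε / 6) (by positivity), hgc] with n hn hnc
  rw [Real.dist_eq, avg_subR hnc hg₀]
  refine lt_of_le_of_lt (abs_avg_le hR (C := 3 * (ε / 6)) fun s hs => hn s ?_) (by linarith)
  exact ball_subset_closedBall hs
where
  avg_subR {g h : ℂ → ℝ} (hg : Continuous g) (hh : Continuous h) {R : ℝ} :
      (⨍ s in ball (0:ℂ) R, g s) - (⨍ s in ball (0:ℂ) R, h s)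
        = ⨍ s in ball (0:ℂ) R, (g s - h s) := PairP.avg_subE hg hh R
  abs_avg_le {R : ℝ} (hR : 0 < R) {g : ℂ → ℝ} {C : ℝ} (h : ∀ s ∈ ball (0:ℂ) R, |g s| ≤ C) :
      |⨍ s in ball (0:ℂ) R, g s| ≤ C := by
    rw [setAverage_eq, smul_eq_mul, abs_mul, abs_of_nonneg (by positivity)]
    have h1 : |∫ s in ball (0:ℂ) R, g s| ≤ C * (volume : Measure ℂ).real (ball (0:ℂ) R) := by
      rw [← Real.norm_eq_abs]
      refine norm_setIntegral_le_of_norm_le_const measure_ball_lt_top fun s hs => ?_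
      rw [Real.norm_eq_abs]; exact h s hs
    have hv : 0 < (volume : Measure ℂ).real (ball (0:ℂ) R) := by
      rw [vol_ball_real _ hR.le]; positivity
    calc ((volume : Measure ℂ).real (ball (0:ℂ) R))⁻¹ * |∫ s in ball (0:ℂ) R, g s|
        ≤ ((volume : Measure ℂ).real (ball (0:ℂ) R))⁻¹
          * (C * (volume : Measure ℂ).real (ball (0:ℂ) R)) :=
          mul_le_mul_of_nonneg_left h1 (by positivity)
      _ = C := by field_simp

variable {F : ℕ → ℂ → Ω → ℝ} {B : ℝ}

/-- equicontinuity of the four-point functions in one slot -/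
lemma PreWave.slot4 (hF : PreWave P F B) {η : ℝ} (hη : 0 < η) : ∃ d > 0, ∀ r : ℝ, ∀ᶠ n in atTop,
    ∀ a b c t t' : ℂ, ‖t‖ < r → ‖t'‖ < r → ‖t - t'‖ < d →
      |c4 P F n t a b c - c4 P F n t' a b c| ≤ η := by
  have hB0 : 0 ≤ |B| := abs_nonneg _
  obtain ⟨d, hd, h⟩ := equi (P := P) hB0 hη
  refine ⟨d, hd, fun r => ?_⟩
  filter_upwards [hF.ev, hF.eqn (r + 1) 1 one_pos] with n hn hn1 a b c t t' ht ht' htt
  obtain ⟨K, hK⟩ := hn.1.bdd
  have h2 := h (F n) hn.1 (fun ω => F n a ω * F n b ω * F n c ω)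
    (((hn.1.meas a).mul (hn.1.meas b)).mul (hn.1.meas c))
    ⟨K * K * K, fun ω => by
      have hK0 : 0 ≤ K := (abs_nonneg _).trans (hK 0 ω)
      rw [abs_mul, abs_mul]
      exact mul_le_mul (mul_le_mul (hK _ _) (hK _ _) (abs_nonneg _) hK0) (hK _ _)
        (abs_nonneg _) (mul_nonneg hK0 hK0)⟩
    (fun y => (hn.1.four_bound hn.2 y a b c).trans (le_abs_self B)) (r + 1) 1 zero_le_one le_rfl
    (fun ω x hx => hn1 ω x hx) t t' (by linarith) (by linarith) htt
  have e1 : ∀ y, c4 P F n y a b c = ∫ ω, F n y ω * (F n a ω * F n b ω * F n c ω) ∂P := by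
    intro y
    unfold c4
    congr 1; funext ω; ring
  rw [e1, e1]
  exact h2

/-- equicontinuity of the two-point functions in one slot -/
lemma PreWave.slot2 (hF : PreWave P F B) {η : ℝ} (hη : 0 < η) : ∃ d > 0, ∀ r : ℝ, ∀ᶠ n in atTop,
    ∀ a t t' : ℂ, ‖t‖ < r → ‖t'‖ < r → ‖t - t'‖ < d → |c2 P F n t a - c2 P F n t' a| ≤ η := by
  have hB0 : 0 ≤ |B| + 1 := by positivity
  obtain ⟨d, hd, h⟩ := equi (P := P) hB0 hη
  refine ⟨d, hd, fun r => ?_⟩
  filter_upwards [hF.ev, hF.eqn (r + 1) 1 one_pos] with n hn hn1 a t t' ht ht' htt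
  obtain ⟨K, hK⟩ := hn.1.bdd
  have hb : ∀ y, ∫ ω, |F n y ω| * |F n a ω| ∂P ≤ |B| + 1 := by
    intro y
    have h1 : ∫ ω, |F n y ω| * |F n a ω| ∂P
        ≤ ∫ ω, (F n y ω ^ 4 + F n a ω ^ 4) / 4 + 1 / 2 ∂P := by
      refine integral_mono_of_nonneg (Eventually.of_forall fun ω => by positivity) ?_
        (Eventually.of_forall fun ω => ?_)
      · exact ((((hn.1.int4 y).add (hn.1.int4 a)).div_const 4).add (integrable_const _))
      · show |F n y ω| * |F n a ω| ≤ (F n y ω ^ 4 + F n a ω ^ 4) / 4 + 1 / 2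
        have e1 : F n y ω ^ 4 = |F n y ω| ^ 4 := by
          rw [← abs_pow, abs_of_nonneg (by positivity)]
        have e2 : F n a ω ^ 4 = |F n a ω| ^ 4 := by
          rw [← abs_pow, abs_of_nonneg (by positivity)]
        rw [e1, e2]
        nlinarith [sq_nonneg (|F n y ω| - |F n a ω|), sq_nonneg (|F n y ω| ^ 2 - 1),
          sq_nonneg (|F n a ω| ^ 2 - 1)]
    have j1 : Integrable (fun ω => F n y ω ^ 4 + F n a ω ^ 4) P := (hn.1.int4 y).add (hn.1.int4 a)
    have j2 : Integrable (fun ω => (F n y ω ^ 4 + F n a ω ^ 4) / 4) P := j1.div_const 4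
    rw [integral_add j2 (integrable_const _), integral_div,
      integral_add (hn.1.int4 y) (hn.1.int4 a)] at h1
    have h3 := hn.2 y
    have h4 := hn.2 a
    have h5 := le_abs_self B
    simp only [integral_const, probReal_univ, smul_eq_mul, one_mul] at h1
    linarith [abs_nonneg B]
  exact h (F n) hn.1 (fun ω => F n a ω) (hn.1.meas a) ⟨K, fun ω => hK a ω⟩ hb (r + 1) 1
    zero_le_one le_rfl (fun ω x hx => hn1 ω x hx) t t' (by linarith) (by linarith) htt

omit [IsProbabilityMeasure P] in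
lemma c4_swap12 (n : ℕ) (x₁ x₂ x₃ x₄ : ℂ) : c4 P F n x₁ x₂ x₃ x₄ = c4 P F n x₂ x₁ x₃ x₄ := by
  unfold c4; congr 1; funext ω; ring

omit [IsProbabilityMeasure P] in
lemma c4_swap_pairs (n : ℕ) (x₁ x₂ x₃ x₄ : ℂ) : c4 P F n x₁ x₂ x₃ x₄ = c4 P F n x₃ x₄ x₁ x₂ := by
  unfold c4; congr 1; funext ω; ring

omit [IsProbabilityMeasure P] in
lemma c2_swap (n : ℕ) (x y : ℂ) : c2 P F n x y = c2 P F n y x := by
  unfold c2; congr 1; funext ω; ring

/-- equicontinuity along a pair -/
lemma PreWave.slot4_pair (hF : PreWave P F B) (a : ℂ) {η : ℝ} (hη : 0 < η) : ∃ d > 0, ∀ r : ℝ,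
    ∀ᶠ n in atTop, ∀ b c t t' : ℂ, ‖t‖ < r → ‖t'‖ < r → ‖t - t'‖ < d →
      |c4 P F n t (a + t) b c - c4 P F n t' (a + t') b c| ≤ η := by
  obtain ⟨d, hd, h⟩ := hF.slot4 (η := η / 2) (by positivity)
  refine ⟨d, hd, fun r => ?_⟩
  filter_upwards [h (r + ‖a‖)] with n hn b c t t' ht ht' htt
  have ha := norm_nonneg a
  have h1 := hn (a + t) b c t t' (by linarith) (by linarith) htt
  have h2 := hn t' b c (a + t) (a + t')
    (lt_of_le_of_lt (norm_add_le _ _) (by linarith))
    (lt_of_le_of_lt (norm_add_le _ _) (by linarith)) (by simpa using htt)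
  rw [c4_swap12 n (a + t) t', c4_swap12 n (a + t') t'] at h2
  have e : c4 P F n t (a + t) b c - c4 P F n t' (a + t') b c
      = (c4 P F n t (a + t) b c - c4 P F n t' (a + t) b c)
      + (c4 P F n t' (a + t) b c - c4 P F n t' (a + t') b c) := by ring
  rw [e]
  have := abs_add_le (c4 P F n t (a + t) b c - c4 P F n t' (a + t) b c)
    (c4 P F n t' (a + t) b c - c4 P F n t' (a + t') b c)
  linarith

lemma PreWave.slot2_pair (hF : PreWave P F B) (a : ℂ) {η : ℝ} (hη : 0 < η) : ∃ d > 0, ∀ r : ℝ,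
    ∀ᶠ n in atTop, ∀ t t' : ℂ, ‖t‖ < r → ‖t'‖ < r → ‖t - t'‖ < d →
      |c2 P F n t (a + t) - c2 P F n t' (a + t')| ≤ η := by
  obtain ⟨d, hd, h⟩ := hF.slot2 (η := η / 2) (by positivity)
  refine ⟨d, hd, fun r => ?_⟩
  filter_upwards [h (r + ‖a‖)] with n hn t t' ht ht' htt
  have ha := norm_nonneg a
  have h1 := hn (a + t) t t' (by linarith) (by linarith) htt
  have h2 := hn t' (a + t) (a + t')
    (lt_of_le_of_lt (norm_add_le _ _) (by linarith))
    (lt_of_le_of_lt (norm_add_le _ _) (by linarith)) (by simpa using htt)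
  rw [c2_swap n (a + t) t', c2_swap n (a + t') t'] at h2
  have e : c2 P F n t (a + t) - c2 P F n t' (a + t')
      = (c2 P F n t (a + t) - c2 P F n t' (a + t))
      + (c2 P F n t' (a + t) - c2 P F n t' (a + t')) := by ring
  rw [e]
  have := abs_add_le (c2 P F n t (a + t) - c2 P F n t' (a + t))
    (c2 P F n t' (a + t) - c2 P F n t' (a + t'))
  linarith

/-- joint continuity of the `n`-th four-point function -/
lemma SingleW.c4_cont {F : ℕ → ℂ → Ω → ℝ} {n : ℕ} (hF : SingleW P (F n)) {α : Type*}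
    [TopologicalSpace α] [FirstCountableTopology α] {f₁ f₂ f₃ f₄ : α → ℂ} (h₁ : Continuous f₁)
    (h₂ : Continuous f₂) (h₃ : Continuous f₃) (h₄ : Continuous f₄) :
    Continuous fun x => c4 P F n (f₁ x) (f₂ x) (f₃ x) (f₄ x) := by
  obtain ⟨K, hK⟩ := hF.bdd
  unfold c4
  refine continuous_of_dominated (bound := fun _ => K * K * K * K) ?_ ?_ (integrable_const _) ?_
  · intro y
    exact ((((hF.meas _).mul (hF.meas _)).mul (hF.meas _)).mul (hF.meas _)).aestronglyMeasurable
  · intro y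
    refine Eventually.of_forall fun ω => ?_
    have hK0 : 0 ≤ K := (abs_nonneg _).trans (hK 0 ω)
    simp only [norm_mul, Real.norm_eq_abs]
    exact mul_le_mul (mul_le_mul (mul_le_mul (hK _ _) (hK _ _) (abs_nonneg _) hK0) (hK _ _)
      (abs_nonneg _) (mul_nonneg hK0 hK0)) (hK _ _) (abs_nonneg _)
      (mul_nonneg (mul_nonneg hK0 hK0) hK0)
  · refine Eventually.of_forall fun ω => ?_
    have hc := (hF.smooth ω).continuous
    exact (((hc.comp h₁).mul (hc.comp h₂)).mul (hc.comp h₃)).mul (hc.comp h₄)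

lemma SingleW.c2_cont {F : ℕ → ℂ → Ω → ℝ} {n : ℕ} (hF : SingleW P (F n)) {α : Type*}
    [TopologicalSpace α] [FirstCountableTopology α] {f₁ f₂ : α → ℂ} (h₁ : Continuous f₁)
    (h₂ : Continuous f₂) : Continuous fun x => c2 P F n (f₁ x) (f₂ x) := by
  obtain ⟨K, hK⟩ := hF.bdd
  unfold c2
  refine continuous_of_dominated (bound := fun _ => K * K) ?_ ?_ (integrable_const _) ?_
  · intro y
    exact ((hF.meas _).mul (hF.meas _)).aestronglyMeasurable
  · intro y
    refine Eventually.of_forall fun ω => ?_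
    have hK0 : 0 ≤ K := (abs_nonneg _).trans (hK 0 ω)
    simp only [norm_mul, Real.norm_eq_abs]
    exact mul_le_mul (hK _ _) (hK _ _) (abs_nonneg _) hK0
  · refine Eventually.of_forall fun ω => ?_
    have hc := (hF.smooth ω).continuous
    exact (hc.comp h₁).mul (hc.comp h₂)

/-- **convergence of the variances of the spatial averages** -/
lemma AWave.norm_limit (hF : AWave P F B) {U : Filter ℕ} (hU : U ≤ atTop)
    {H : Type} [NormedAddCommGroup H] [InnerProductSpace ℝ H] [CompleteSpace H] {u : ℂ → ℂ → H}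
    {one : H} (hu : PairP u) (hone : inner ℝ one one = 1)
    (h4 : ∀ x₁ x₂ x₃ x₄, Tendsto (fun n => c4 P F n x₁ x₂ x₃ x₄) U
        (𝓝 (inner ℝ (u x₁ x₂) (u x₃ x₄))))
    (h2 : ∀ x y, Tendsto (fun n => c2 P F n x y) U (𝓝 (inner ℝ (u x y) one)))
    (a : ℂ) (κ : ℝ) {R : ℝ} (hR : 0 < R) :
    Tendsto (fun n => (⨍ s in ball (0:ℂ) R, ⨍ s' in ball (0:ℂ) R, c4 P F n s (a + s) s' (a + s'))
      - 2 * κ * (⨍ s in ball (0:ℂ) R, c2 P F n s (a + s)) + κ ^ 2) U
      (𝓝 (‖(⨍ s in ball (0:ℂ) R, u s (a + s)) - κ • one‖ ^ 2)) := by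
  have hcu : Continuous fun s => u s (a + s) :=
    hu.cont₂ continuous_id (continuous_const.add continuous_id)
  have e0 : ‖(⨍ s in ball (0:ℂ) R, u s (a + s)) - κ • one‖ ^ 2
      = (⨍ s in ball (0:ℂ) R, ⨍ s' in ball (0:ℂ) R, inner ℝ (u s (a + s)) (u s' (a + s')))
        - 2 * κ * (⨍ s in ball (0:ℂ) R, inner ℝ (u s (a + s)) one) + κ ^ 2 := by
    rw [← inner_avg_avg hcu hcu, ← PairP.inner_avg hcu one, ← real_inner_self_eq_norm_sq,
      real_inner_sub_sub_self, inner_smul_right, inner_smul_left, inner_smul_right, hone]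
    simp only [conj_trivial]
    ring
  rw [e0]
  -- the inner average
  have hinner : ∀ s, Tendsto (fun n => ⨍ s' in ball (0:ℂ) R, c4 P F n s (a + s) s' (a + s')) U
      (𝓝 (⨍ s' in ball (0:ℂ) R, inner ℝ (u s (a + s)) (u s' (a + s')))) := by
    intro s
    apply lim_avg (g := fun n s' => c4 P F n s (a + s) s' (a + s')) _ _ _ _ hR
    · filter_upwards [hU hF.ev] with n hn
      exact hn.1.c4_cont continuous_const continuous_const continuous_id
        (continuous_const.add continuous_id)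
    · exact continuous_const.inner hcu
    · intro z; exact h4 _ _ _ _
    · intro r η hη
      obtain ⟨d, hd, h⟩ := hF.slot4_pair a hη
      refine ⟨d, hd, ?_⟩
      filter_upwards [hU (h r)] with n hn t t' ht ht' htt
      rw [c4_swap_pairs n s, c4_swap_pairs n s]
      exact hn s (a + s) t t' ht ht' htt
  have houter : Tendsto (fun n => ⨍ s in ball (0:ℂ) R, ⨍ s' in ball (0:ℂ) R,
      c4 P F n s (a + s) s' (a + s')) U
      (𝓝 (⨍ s in ball (0:ℂ) R, ⨍ s' in ball (0:ℂ) R, inner ℝ (u s (a + s)) (u s' (a + s')))) := by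
    apply lim_avg (g := fun n s => ⨍ s' in ball (0:ℂ) R, c4 P F n s (a + s) s' (a + s')) _ _
      hinner _ hR
    · filter_upwards [hU hF.ev] with n hn
      exact avg_param_cont (f := fun s s' => c4 P F n s (a + s) s' (a + s'))
        (hn.1.c4_cont continuous_fst (continuous_const.add continuous_fst) continuous_snd
        (continuous_const.add continuous_snd)) R
    · exact avg_param_cont (f := fun s s' => inner ℝ (u s (a + s)) (u s' (a + s')))
        ((hcu.comp continuous_fst).inner (hcu.comp continuous_snd)) R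
    · intro r η hη
      obtain ⟨d, hd, h⟩ := hF.slot4_pair a hη
      refine ⟨d, hd, ?_⟩
      filter_upwards [hU (h r), hU hF.ev] with n hn hn1 t t' ht ht' htt
      have hd1 := PairP.avg_subE (g := fun s' => c4 P F n t (a + t) s' (a + s'))
        (h := fun s' => c4 P F n t' (a + t') s' (a + s'))
        (hn1.1.c4_cont continuous_const continuous_const continuous_id
        (continuous_const.add continuous_id)) (hn1.1.c4_cont continuous_const continuous_const
        continuous_id (continuous_const.add continuous_id)) R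
      rw [hd1]
      exact lim_avg.abs_avg_le hR fun s' _ => hn s' (a + s') t t' ht ht' htt
  have h2' : Tendsto (fun n => ⨍ s in ball (0:ℂ) R, c2 P F n s (a + s)) U
      (𝓝 (⨍ s in ball (0:ℂ) R, inner ℝ (u s (a + s)) one)) := by
    apply lim_avg (g := fun n s => c2 P F n s (a + s)) _ _ _ _ hR
    · filter_upwards [hU hF.ev] with n hn
      exact hn.1.c2_cont continuous_id (continuous_const.add continuous_id)
    · exact hcu.inner continuous_const
    · intro z; exact h2 _ _
    · intro r η hη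
      obtain ⟨d, hd, h⟩ := hF.slot2_pair a hη
      refine ⟨d, hd, ?_⟩
      filter_upwards [hU (h r)] with n hn t t' ht ht' htt
      exact hn t t' ht ht' htt
  exact (houter.sub (h2'.const_mul (2 * κ))).add tendsto_const_nhds
where
  avg_param_cont {f : ℂ → ℂ → ℝ} (hf : Continuous fun p : ℂ × ℂ => f p.1 p.2) (R : ℝ) :
      Continuous fun s => ⨍ s' in ball (0:ℂ) R, f s s' := by
    have h1 : (fun s => ⨍ s' in ball (0:ℂ) R, f s s')
        = fun s => ((volume : Measure ℂ).real (ball (0:ℂ) R))⁻¹ •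
          ∫ s' in closedBall (0:ℂ) R, f s s' := by
      funext s
      rw [setAverage_eq]
      congr 1
      by_cases hR : R = 0
      · subst hR; simp
      · apply setIntegral_congr_set
        have h3 : closedBall (0:ℂ) R = ball (0:ℂ) R ∪ sphere (0:ℂ) R := ball_union_sphere.symm
        rw [h3]
        have h4 : (volume : Measure ℂ) (sphere (0:ℂ) R) = 0 := Measure.addHaar_sphere _ _ _
        exact (union_ae_eq_left_of_ae_eq_empty (ae_eq_empty.2 h4)).symm
    rw [h1]
    have h2 : Continuous fun s => ∫ s' in closedBall (0:ℂ) R, f s s' :=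
      continuous_parametric_integral_of_continuous (f := f) hf (isCompact_closedBall (0:ℂ) R)
    exact h2.const_smul ((volume : Measure ℂ).real (ball (0:ℂ) R))⁻¹

end

end Berry
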