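import Pool.Agent.LibH11.Berry.ANorm

/-!
Theorems on asymptotically invariant, approximately monochromatic waves.
-/

open Complex Filter Topology MeasureTheory Metric InnerProductSpace Laplacian
open scoped ENNReal

namespace Berry

noncomputable section

variable {Ω : Type*} [MeasurableSpace Ω] {P : Measure Ω} [IsProbabilityMeasure P]

lemma avg_mul_const_R (g : ℂ → ℝ) (k : ℝ) (R : ℝ) :
    (⨍ s in ball (0:ℂ) R, k * g s) = k * ⨍ s in ball (0:ℂ) R, g s := by
  have := avg_smulE k g R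
  simpa only [smul_eq_mul] using this

/-- averages of products of two shifted copies of `K` vanish -/
lemma Kprod_avg (p q : ℂ) {σ τ : ℂ} (hσ : σ ≠ 0) :
    Tendsto (fun R : ℝ => ⨍ s in ball (0:ℂ) R, waveK (p + σ * s) * waveK (q + τ * s)) atTop
      (𝓝 0) := by
  have hv : VanInf fun s => Kc (p + σ * s) * Kc (q + τ * s) := by
    intro ε hε
    obtain ⟨N, hN⟩ := Kc_lin_van hσ p ε hε
    refine ⟨N, fun s hs => ?_⟩
    rw [norm_mul]
    calc ‖Kc (p + σ * s)‖ * ‖Kc (q + τ * s)‖ ≤ ε * 1 :=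
          mul_le_mul (hN s hs) (Kc_le _) (norm_nonneg _) hε.le
      _ = ε := mul_one ε
  have hc : Continuous fun s => Kc (p + σ * s) * Kc (q + τ * s) :=
    (Kc_continuous.comp (continuous_const.add (continuous_const.mul continuous_id))).mul
      (Kc_continuous.comp (continuous_const.add (continuous_const.mul continuous_id)))
  have h1 := (VanInf.mz hc hv (C := 1) fun s => by
    rw [norm_mul]
    exact mul_le_one₀ (Kc_le _) (norm_nonneg _) (Kc_le _)).2
  have h2 := (Complex.continuous_re.tendsto _).comp h1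
  rw [Complex.zero_re] at h2
  refine h2.congr fun R => ?_
  simp only [Function.comp]
  have e : (fun s : ℂ => Kc (p + σ * s) * Kc (q + τ * s))
      = fun s => ((waveK (p + σ * s) * waveK (q + τ * s) : ℝ) : ℂ) := by
    funext s; unfold Kc; push_cast; rfl
  rw [e, avg_ofReal, Complex.ofReal_re]

section PairOne

variable {H : Type*} [NormedAddCommGroup H] [InnerProductSpace ℝ H] [CompleteSpace H]
  {u : ℂ → ℂ → H}

/-- the covariance against an invariant vector -/
lemma PairP.cov_one (hu : PairP u) {one : H}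
    (hinv : ∀ x y s, inner ℝ (u (x + s) (y + s)) one = inner ℝ (u x y) one) (a : ℂ) :
    inner ℝ (hu.cov a) one = inner ℝ (u 0 a) one := by
  have h := hu.inner_tendsto 0 a one
  rw [sub_zero] at h
  refine tendsto_nhds_unique h (tendsto_const_nhds.congr' ?_)
  filter_upwards [eventually_gt_atTop (0:ℝ)] with R hR
  simp only [hinv]
  rw [avg_const hR]

/-- the fourth moment is at least `3/2` times the square of the second -/
lemma PairP.lower (hu : PairP u) {one : H} (hone : inner ℝ one one = (1:ℝ))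
    (hinv : ∀ x y s, inner ℝ (u (x + s) (y + s)) one = inner ℝ (u x y) one) :
    (3 / 2) * (inner ℝ (u 0 0) one) ^ 2 ≤ inner ℝ (u 0 0) (u 0 0) := by
  obtain ⟨h, hh, hform⟩ := hu.formula
  obtain ⟨h0, h1⟩ := hu.h_zero_bounds (hh 0)
  have h2 := congrArg Complex.re (hform (fun _ => 0))
  have e0 : hu.C4f (fun _ => (0:ℂ)) = ((inner ℝ (u 0 0) (u 0 0) : ℝ) : ℂ) := rfl
  have e1 : hu.P12 (fun _ => (0:ℂ)) = ((‖hu.cov 0‖ ^ 2 : ℝ) : ℂ) := by
    have : hu.P12 (fun _ => (0:ℂ)) = ((inner ℝ (hu.cov (0 - 0)) (hu.cov (0 - 0)) : ℝ) : ℂ) := rfl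
    rw [this, sub_zero, real_inner_self_eq_norm_sq]
  have e2 : hu.P23 (fun _ => (0:ℂ)) = ((‖hu.cov 0‖ ^ 2 : ℝ) : ℂ) := by
    have : hu.P23 (fun _ => (0:ℂ)) = ((inner ℝ (hu.cov (0 - 0)) (hu.cov (0 - 0)) : ℝ) : ℂ) := rfl
    rw [this, sub_zero, real_inner_self_eq_norm_sq]
  have e3 : hu.P13 (fun _ => (0:ℂ)) = ((‖hu.cov 0‖ ^ 2 : ℝ) : ℂ) := by
    have : hu.P13 (fun _ => (0:ℂ)) = ((inner ℝ (hu.cov (0 - 0)) (hu.cov (0 - 0)) : ℝ) : ℂ) := rfl
    rw [this, sub_zero, real_inner_self_eq_norm_sq]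
  rw [e0, e1, e2, e3] at h2
  simp only [add_zero, sub_zero, Complex.add_re, Complex.sub_re, Complex.ofReal_re] at h2
  have h3 : (inner ℝ (u 0 0) one) ^ 2 ≤ ‖hu.cov 0‖ ^ 2 := by
    rw [← hu.cov_one hinv]
    have h4 : |inner ℝ (hu.cov 0) one| ≤ ‖hu.cov 0‖ * ‖one‖ := abs_real_inner_le_norm _ _
    have h5 : ‖one‖ = 1 := by
      have : ‖one‖ ^ 2 = 1 := by rw [← real_inner_self_eq_norm_sq, hone]
      nlinarith [norm_nonneg one]
    rw [h5, mul_one] at h4
    rw [← sq_abs]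
    exact pow_le_pow_left₀ (abs_nonneg _) h4 2
  rw [h2]
  linarith

/-- the fourth moment is at most `3` times the square of the norm of the local mass -/
lemma PairP.upper (hu : PairP u) : inner ℝ (u 0 0) (u 0 0) ≤ 3 * ‖hu.cov 0‖ ^ 2 := by
  obtain ⟨h, hh, hform⟩ := hu.formula
  obtain ⟨h0, h1⟩ := hu.h_zero_bounds (hh 0)
  have h2 := congrArg Complex.re (hform (fun _ => 0))
  have e0 : hu.C4f (fun _ => (0:ℂ)) = ((inner ℝ (u 0 0) (u 0 0) : ℝ) : ℂ) := rfl
  have e1 : hu.P12 (fun _ => (0:ℂ)) = ((‖hu.cov 0‖ ^ 2 : ℝ) : ℂ) := by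
    have : hu.P12 (fun _ => (0:ℂ)) = ((inner ℝ (hu.cov (0 - 0)) (hu.cov (0 - 0)) : ℝ) : ℂ) := rfl
    rw [this, sub_zero, real_inner_self_eq_norm_sq]
  have e2 : hu.P23 (fun _ => (0:ℂ)) = ((‖hu.cov 0‖ ^ 2 : ℝ) : ℂ) := by
    have : hu.P23 (fun _ => (0:ℂ)) = ((inner ℝ (hu.cov (0 - 0)) (hu.cov (0 - 0)) : ℝ) : ℂ) := rfl
    rw [this, sub_zero, real_inner_self_eq_norm_sq]
  have e3 : hu.P13 (fun _ => (0:ℂ)) = ((‖hu.cov 0‖ ^ 2 : ℝ) : ℂ) := by
    have : hu.P13 (fun _ => (0:ℂ)) = ((inner ℝ (hu.cov (0 - 0)) (hu.cov (0 - 0)) : ℝ) : ℂ) := rfl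
    rw [this, sub_zero, real_inner_self_eq_norm_sq]
  rw [e0, e1, e2, e3] at h2
  simp only [add_zero, sub_zero, Complex.add_re, Complex.sub_re, Complex.ofReal_re] at h2
  rw [h2]
  linarith

/-- if all the covariances are the deterministic ones, the four-point function is Gaussian -/
lemma PairP.wick (hu : PairP u) {one : H} (hone : inner ℝ one one = (1:ℝ)) {v : ℝ}
    (hcov : ∀ a, hu.cov a = (v * waveK a) • one) (x₁ x₂ x₃ x₄ : ℂ) :
    inner ℝ (u x₁ x₂) (u x₃ x₄) = v ^ 2 * (waveK (x₁ - x₂) * waveK (x₃ - x₄)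
      + waveK (x₁ - x₃) * waveK (x₂ - x₄) + waveK (x₁ - x₄) * waveK (x₂ - x₃)) := by
  obtain ⟨h, hh, hform⟩ := hu.formula
  have hcc : ∀ a b, inner ℝ (hu.cov a) (hu.cov b) = v ^ 2 * (waveK a * waveK b) := by
    intro a b
    rw [hcov, hcov, inner_smul_left, inner_smul_right, hone]
    simp only [conj_trivial]; ring
  have hz : ∀ y, h y = 0 := by
    intro y
    refine tendsto_nhds_unique (hh y) ?_
    have e : hu.gg y = fun s => ((inner ℝ (hu.cov s) (hu.cov (s + y)) : ℝ) : ℂ) := rfl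
    have h1 : Tendsto (fun R : ℝ => ⨍ s in ball (0:ℂ) R, inner ℝ (hu.cov s) (hu.cov (s + y)))
        atTop (𝓝 (v ^ 2 * 0)) := by
      refine ((Kprod_avg 0 y (σ := 1) (τ := 1) one_ne_zero).const_mul (v ^ 2)).congr fun R => ?_
      rw [← avg_mul_const_R]
      congr 1; funext s
      rw [hcc]
      congr 2
      · congr 1; ring
      · congr 1; ring
    rw [mul_zero] at h1
    have h2 := (Complex.continuous_ofReal.tendsto _).comp h1
    rw [Complex.ofReal_zero] at h2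
    refine h2.congr fun R => ?_
    rw [e, avg_ofReal]; rfl
  have h2 := congrArg Complex.re (hform ![x₁, x₂, x₃, x₄])
  have e0 : hu.C4f ![x₁, x₂, x₃, x₄] = ((inner ℝ (u x₁ x₂) (u x₃ x₄) : ℝ) : ℂ) := rfl
  have e1 : hu.P12 ![x₁, x₂, x₃, x₄]
      = ((inner ℝ (hu.cov (x₂ - x₁)) (hu.cov (x₄ - x₃)) : ℝ) : ℂ) := rfl
  have e2 : hu.P23 ![x₁, x₂, x₃, x₄]
      = ((inner ℝ (hu.cov (x₃ - x₂)) (hu.cov (x₄ - x₁)) : ℝ) : ℂ) := rfl
  have e3 : hu.P13 ![x₁, x₂, x₃, x₄]
      = ((inner ℝ (hu.cov (x₃ - x₁)) (hu.cov (x₄ - x₂)) : ℝ) : ℂ) := rfl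
  rw [e0, e1, e2, e3, hz, hz, hz, hcc, hcc, hcc] at h2
  simp only [sub_zero, Complex.add_re, Complex.ofReal_re] at h2
  rw [h2]
  have k : ∀ a b : ℂ, waveK (a - b) = waveK (b - a) := by
    intro a b; rw [← waveK_neg, neg_sub]
  rw [k x₂ x₁, k x₄ x₃, k x₃ x₂, k x₄ x₁, k x₃ x₁, k x₄ x₂]
  ring

/-- conversely, a Gaussian four-point function forces the covariances to be deterministic -/
lemma PairP.cov_of_wick (hu : PairP u) {one : H} (hone : inner ℝ one one = (1:ℝ)) {v : ℝ}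
    (hinv : ∀ x y s, inner ℝ (u (x + s) (y + s)) one = inner ℝ (u x y) one)
    (hv : inner ℝ (u 0 0) one = v)
    (hw : ∀ x₁ x₂ x₃ x₄, inner ℝ (u x₁ x₂) (u x₃ x₄) = v ^ 2 * (waveK (x₁ - x₂) * waveK (x₃ - x₄)
      + waveK (x₁ - x₃) * waveK (x₂ - x₄) + waveK (x₁ - x₄) * waveK (x₂ - x₃))) (a : ℂ) :
    hu.cov a = (v * waveK a) • one := by
  have k : ∀ a b : ℂ, waveK (a - b) = waveK (b - a) := by
    intro a b; rw [← waveK_neg, neg_sub]
  have hcc : ∀ a b, inner ℝ (hu.cov a) (hu.cov b) = v ^ 2 * (waveK a * waveK b) := by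
    intro a b
    have h1 := hu.inner_cov 0 a b
    rw [sub_zero] at h1
    rw [← h1, real_inner_comm]
    have h2 := hu.inner_tendsto 0 b (u 0 a)
    rw [sub_zero] at h2
    refine tendsto_nhds_unique h2 ?_
    have t1 := ((Kprod_avg 0 (b - a) (σ := 1) (τ := 1) one_ne_zero).add
      (Kprod_avg (-a) b (σ := 1) (τ := 1) one_ne_zero)).const_mul (v ^ 2)
    have t2 : Tendsto (fun _ : ℝ => v ^ 2 * (waveK a * waveK b)) atTop
        (𝓝 (v ^ 2 * (waveK a * waveK b))) := tendsto_const_nhds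
    have t3 := t1.add t2
    rw [add_zero, mul_zero, zero_add] at t3
    refine t3.congr' ?_
    filter_upwards [eventually_gt_atTop (0:ℝ)] with R hR
    have c1 : ∀ p q : ℂ, Continuous fun s : ℂ => waveK (p + 1 * s) * waveK (q + 1 * s) := by
      intro p q
      have a1 : Continuous fun s : ℂ => p + 1 * s := by fun_prop
      have a2 : Continuous fun s : ℂ => q + 1 * s := by fun_prop
      exact (waveK_continuous.comp a1).mul (waveK_continuous.comp a2)
    rw [← avg_addR (c1 _ _) (c1 _ _), ← avg_mul_const_R]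
    have e3 := avg_addR (g := fun s : ℂ => v ^ 2 * (waveK (0 + 1 * s) * waveK (b - a + 1 * s)
      + waveK (-a + 1 * s) * waveK (b + 1 * s))) (h := fun _ => v ^ 2 * (waveK a * waveK b))
      (continuous_const.mul ((c1 _ _).add (c1 _ _))) continuous_const R
    rw [avg_const hR] at e3
    rw [← e3]
    congr 1; funext s
    rw [hw, k (0 + s) (b + s), k (b + s) (0 + s)]
    have f1 : waveK (0 + s - (b + s)) = waveK b := by
      rw [← waveK_neg]; congr 1; ring
    have f2 : waveK (b + s - (0 + s)) = waveK b := by congr 1; ring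
    have f3 : waveK (0 - a) = waveK a := by rw [← waveK_neg]; congr 1; ring
    have f4 : (0 : ℂ) + 1 * s = 0 + s - 0 := by ring
    have f5 : b - a + 1 * s = b + s - a := by ring
    have f6 : -a + 1 * s = 0 + s - a := by ring
    have f7 : b + 1 * s = b + s - 0 := by ring
    rw [f1, f3, f4, f5, f6, f7]
    ring
  have hone' : ‖one‖ = 1 := by
    have : ‖one‖ ^ 2 = 1 := by rw [← real_inner_self_eq_norm_sq, hone]
    nlinarith [norm_nonneg one]
  have hc0 : inner ℝ (hu.cov 0) one = v := by rw [hu.cov_one hinv]; exact hv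
  have h0 : hu.cov 0 = v • one := by
    have h1 : ‖hu.cov 0 - v • one‖ ^ 2 = 0 := by
      rw [← real_inner_self_eq_norm_sq, real_inner_sub_sub_self, hcc, inner_smul_right, hc0,
        inner_smul_left, inner_smul_right, hone, waveK_zero]
      simp only [conj_trivial]; ring
    have h2 : ‖hu.cov 0 - v • one‖ = 0 := by simpa using h1
    exact sub_eq_zero.1 (norm_eq_zero.1 h2)
  have h1 : inner ℝ (hu.cov a) one * v = v * waveK a * v := by
    have h2 := hcc a 0
    rw [h0, inner_smul_right, waveK_zero] at h2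
    linarith
  have h3 : ‖hu.cov a - (v * waveK a) • one‖ ^ 2 = 0 := by
    rw [← real_inner_self_eq_norm_sq, real_inner_sub_sub_self, hcc, inner_smul_right,
      inner_smul_left, inner_smul_right, hone]
    simp only [conj_trivial]
    have : v * waveK a * inner ℝ (hu.cov a) one = v ^ 2 * (waveK a * waveK a) := by
      have : v * waveK a * inner ℝ (hu.cov a) one = waveK a * (inner ℝ (hu.cov a) one * v) := by
        ring
      rw [this, h1]; ring
    rw [this]; ring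
  have h4 : ‖hu.cov a - (v * waveK a) • one‖ = 0 := by simpa using h3
  exact sub_eq_zero.1 (norm_eq_zero.1 h4)

end PairOne


/-- **asymptotic Planck-scale quantum ergodicity**, in mean square: the spatial averages of
`Fₙ(x) Fₙ(x + a)` over discs of large fixed radius `R` are, for large `n`, mean square close to
`v K(a)`. -/
def AsyPlanck (P : Measure Ω) (F : ℕ → ℂ → Ω → ℝ) (v : ℝ) : Prop :=
  ∀ a : ℂ, ∀ ε > 0, ∃ R₀ : ℝ, ∀ R ≥ R₀, ∀ᶠ n in atTop,
    ∫ ω, (spatialAvg (F n) a R ω - v * waveK a) ^ 2 ∂P ≤ ε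

lemma ball_finite (R : ℝ) : IsFiniteMeasure ((volume : Measure ℂ).restrict (ball 0 R)) :=
  ⟨by rw [Measure.restrict_apply_univ]; exact measure_ball_lt_top⟩

/-- the mean square of a spatial average in terms of the correlation functions -/
lemma SingleW.planck_eq {F : ℕ → ℂ → Ω → ℝ} {n : ℕ} (hF : SingleW P (F n)) (a : ℂ) (κ : ℝ)
    (R : ℝ) :
    ∫ ω, (spatialAvg (F n) a R ω - κ) ^ 2 ∂P
      = (⨍ s in ball (0:ℂ) R, ⨍ s' in ball (0:ℂ) R, c4 P F n s (a + s) s' (a + s'))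
      - 2 * κ * (⨍ s in ball (0:ℂ) R, c2 P F n s (a + s)) + κ ^ 2 := by
  have := ball_finite R
  obtain ⟨K, hK⟩ := hF.bdd
  have hm := hF.meas_uncurry
  set w : ℝ := ((volume : Measure ℂ).real (ball (0:ℂ) R))⁻¹ with hw
  set g : ℂ → Ω → ℝ := fun s ω => F n s ω * F n (s + a) ω with hg
  have hgm : Measurable (Function.uncurry g) := by
    have h1 : Measurable fun p : ℂ × Ω => F n (p.1 + a) p.2 := by
      have h2 : Measurable fun p : ℂ × Ω => (p.1 + a, p.2) := by fun_prop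
      exact hm.comp h2
    exact hm.mul h1
  have hgb : ∀ s ω, |g s ω| ≤ K * K := by
    intro s ω
    rw [hg, abs_mul]
    exact mul_le_mul (hK _ _) (hK _ _) (abs_nonneg _) ((abs_nonneg _).trans (hK 0 ω))
  have e1 : ∀ ω, spatialAvg (F n) a R ω = w * ∫ s in ball (0:ℂ) R, g s ω := by
    intro ω
    unfold spatialAvg
    rw [setAverage_eq, smul_eq_mul]
  set A : Ω → ℝ := fun ω => ∫ s in ball (0:ℂ) R, g s ω with hA
  have hAm : Measurable A := by
    have h1 : Measurable (Function.uncurry fun (ω : Ω) (s : ℂ) => g s ω) :=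
      hgm.comp measurable_swap
    exact (h1.stronglyMeasurable.integral_prod_right').measurable
  set V : ℝ := ((volume : Measure ℂ).restrict (ball (0:ℂ) R)).real Set.univ with hV
  have hAb : ∀ ω, |A ω| ≤ K * K * V := by
    intro ω
    have h1 : ‖∫ s in ball (0:ℂ) R, g s ω‖ ≤ K * K * V :=
      norm_integral_le_of_norm_le_const (Eventually.of_forall fun s => by
        rw [Real.norm_eq_abs]; exact hgb s ω)
    exact h1
  -- first moment
  have hA1 : ∫ ω, A ω ∂P = ∫ s in ball (0:ℂ) R, c2 P F n s (a + s) := by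
    rw [hA]
    have h1 : Measurable (Function.uncurry fun (ω : Ω) (s : ℂ) => g s ω) :=
      hgm.comp measurable_swap
    have h2 := swap_bdd (ν := P) (μ := (volume : Measure ℂ).restrict (ball (0:ℂ) R)) h1
      (C := K * K) (fun ω s => hgb s ω)
    rw [h2]
    congr 1; funext s
    unfold c2
    congr 1; funext ω
    rw [hg]
    simp only
    rw [add_comm s a]
  -- second moment
  have hA2 : ∫ ω, A ω ^ 2 ∂P
      = ∫ s in ball (0:ℂ) R, ∫ s' in ball (0:ℂ) R, c4 P F n s (a + s) s' (a + s') := by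
    have e2 : ∀ ω, A ω ^ 2 = ∫ s in ball (0:ℂ) R, g s ω * A ω := by
      intro ω
      rw [integral_mul_const, sq]
    simp only [e2]
    have h1 : Measurable (Function.uncurry fun (ω : Ω) (s : ℂ) => g s ω * A ω) := by
      have h2 : Measurable fun p : Ω × ℂ => g p.2 p.1 := hgm.comp measurable_swap
      exact h2.mul (hAm.comp measurable_fst)
    have h2 := swap_bdd (ν := P) (μ := (volume : Measure ℂ).restrict (ball (0:ℂ) R)) h1
      (C := K * K * (K * K * V)) (fun ω s => by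
        rw [abs_mul]
        exact mul_le_mul (hgb s ω) (hAb ω) (abs_nonneg _) ((abs_nonneg _).trans (hgb s ω)))
    rw [h2]
    congr 1; funext s
    have e3 : ∀ ω, g s ω * A ω = ∫ s' in ball (0:ℂ) R, g s ω * g s' ω := by
      intro ω
      rw [integral_const_mul]
    simp only [e3]
    have h3 : Measurable (Function.uncurry fun (ω : Ω) (s' : ℂ) => g s ω * g s' ω) := by
      have h4 : Measurable fun p : Ω × ℂ => g p.2 p.1 := hgm.comp measurable_swap
      have h5 : Measurable fun ω => g s ω := hgm.comp (measurable_const.prodMk measurable_id)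
      exact (h5.comp measurable_fst).mul h4
    have h6 := swap_bdd (ν := P) (μ := (volume : Measure ℂ).restrict (ball (0:ℂ) R)) h3
      (C := K * K * (K * K)) (fun ω s' => by
        rw [abs_mul]
        exact mul_le_mul (hgb s ω) (hgb s' ω) (abs_nonneg _) ((abs_nonneg _).trans (hgb s ω)))
    rw [h6]
    congr 1; funext s'
    unfold c4
    congr 1; funext ω
    rw [hg]
    simp only
    rw [add_comm s a, add_comm s' a]; ring
  have hAi : Integrable A P := integrable_bdd hAm hAb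
  have hA2i : Integrable (fun ω => A ω ^ 2) P := by
    refine integrable_bdd (C := (K * K * V) ^ 2) (hAm.pow_const 2) fun ω => ?_
    rw [abs_pow]
    exact pow_le_pow_left₀ (abs_nonneg _) (hAb ω) 2
  have e4 : ∀ ω, (spatialAvg (F n) a R ω - κ) ^ 2
      = w ^ 2 * A ω ^ 2 - 2 * κ * w * A ω + κ ^ 2 := by
    intro ω
    rw [e1]; ring
  simp only [e4]
  have i1 : Integrable (fun ω => w ^ 2 * A ω ^ 2) P := hA2i.const_mul _
  have i2 : Integrable (fun ω => 2 * κ * w * A ω) P := hAi.const_mul _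
  have i3 : Integrable (fun ω => w ^ 2 * A ω ^ 2 - 2 * κ * w * A ω) P := i1.sub i2
  rw [integral_add i3 (integrable_const _), integral_sub i1 i2, integral_const_mul,
    integral_const_mul, hA1, hA2]
  have e5 : (⨍ s in ball (0:ℂ) R, ⨍ s' in ball (0:ℂ) R, c4 P F n s (a + s) s' (a + s'))
      = w ^ 2 * ∫ s in ball (0:ℂ) R, ∫ s' in ball (0:ℂ) R, c4 P F n s (a + s) s' (a + s') := by
    rw [setAverage_eq, smul_eq_mul]
    have : ∀ s, (⨍ s' in ball (0:ℂ) R, c4 P F n s (a + s) s' (a + s'))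
        = w * ∫ s' in ball (0:ℂ) R, c4 P F n s (a + s) s' (a + s') := by
      intro s
      rw [setAverage_eq, smul_eq_mul]
    simp only [this]
    rw [integral_const_mul, sq, mul_assoc]
  have e6 : (⨍ s in ball (0:ℂ) R, c2 P F n s (a + s))
      = w * ∫ s in ball (0:ℂ) R, c2 P F n s (a + s) := by
    rw [setAverage_eq, smul_eq_mul]
  rw [e5, e6]
  simp only [integral_const, probReal_univ, smul_eq_mul, one_mul]
  ring

variable {F : ℕ → ℂ → Ω → ℝ} {B : ℝ}

omit [IsProbabilityMeasure P] in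
lemma AWave.inv_one (hF : AWave P F B) {U : Ultrafilter ℕ} (hU : (U : Filter ℕ) ≤ atTop)
    {H : Type} [NormedAddCommGroup H] [InnerProductSpace ℝ H] {u : ℂ → ℂ → H} {one : H}
    (h2 : ∀ x y, Tendsto (fun n => c2 P F n x y) (U : Filter ℕ) (𝓝 (inner ℝ (u x y) one)))
    (x y s : ℂ) : inner ℝ (u (x + s) (y + s)) one = inner ℝ (u x y) one := by
  have h3 := (h2 (x + s) (y + s)).sub (h2 x y)
  have h4 := (hF.inv2 x y s).mono_left hU
  have := tendsto_nhds_unique h3 h4
  linarith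

/-- an ultrafilter on `ℕ` finer than `atTop` -/
lemma exists_ultra : ∃ U : Ultrafilter ℕ, (U : Filter ℕ) ≤ atTop :=
  ⟨Ultrafilter.of atTop, Ultrafilter.of_le _⟩

/-- **lower bound for the fourth moments** -/
theorem AWave.lower (hF : AWave P F B) {v L : ℝ}
    (hv : Tendsto (fun n => c2 P F n 0 0) atTop (𝓝 v)) (hL : ∀ᶠ n in atTop, c4 P F n 0 0 0 0 ≤ L) :
    (3 / 2) * v ^ 2 ≤ L := by
  obtain ⟨U, hU⟩ := exists_ultra
  obtain ⟨H, i1, i2, i3, u, one, hu, hone, h4, h2⟩ := hF.limit U hU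
  have hv' : inner ℝ (u 0 0) one = v := tendsto_nhds_unique (h2 0 0) (hv.mono_left hU)
  have h := hu.lower hone (hF.inv_one hU h2)
  rw [hv'] at h
  exact h.trans (le_of_tendsto (h4 0 0 0 0) (hU hL))

/-- in the limit the covariances are deterministic under Planck-scale quantum ergodicity -/
lemma AWave.cov_of_planck (hF : AWave P F B) {v : ℝ} (a : ℂ)
    (hq : ∀ ε > 0, ∃ R₀ : ℝ, ∀ R ≥ R₀, ∀ᶠ n in atTop,
      ∫ ω, (spatialAvg (F n) a R ω - v * waveK a) ^ 2 ∂P ≤ ε) {U : Filter ℕ} [U.NeBot]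
    (hU : U ≤ atTop) {H : Type} [NormedAddCommGroup H] [InnerProductSpace ℝ H] [CompleteSpace H]
    {u : ℂ → ℂ → H} {one : H} (hu : PairP u) (hone : inner ℝ one one = (1:ℝ))
    (h4 : ∀ x₁ x₂ x₃ x₄, Tendsto (fun n => c4 P F n x₁ x₂ x₃ x₄) U
        (𝓝 (inner ℝ (u x₁ x₂) (u x₃ x₄))))
    (h2 : ∀ x y, Tendsto (fun n => c2 P F n x y) U (𝓝 (inner ℝ (u x y) one))) :
    hu.cov a = (v * waveK a) • one := by
  have key : ∀ ε > 0, ‖hu.cov a - (v * waveK a) • one‖ ^ 2 ≤ ε := by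
    intro ε hε
    obtain ⟨R₀, hR₀⟩ := hq ε hε
    have h1 : Tendsto (fun R : ℝ => ‖(⨍ s in ball (0:ℂ) R, u s (a + s)) - (v * waveK a) • one‖ ^ 2)
        atTop (𝓝 (‖hu.cov a - (v * waveK a) • one‖ ^ 2)) :=
      (((hu.tendsto_cov a).sub tendsto_const_nhds).norm).pow 2
    refine le_of_tendsto h1 ?_
    filter_upwards [eventually_gt_atTop (0:ℝ), eventually_ge_atTop R₀] with R hR hR1
    have h3 := hF.norm_limit hU hu hone h4 h2 a (v * waveK a) hR
    refine le_of_tendsto h3 ?_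
    filter_upwards [hU hF.ev, hU (hR₀ R hR1)] with n hn hn2
    rw [← hn.1.planck_eq]
    exact hn2
  have h0 : ‖hu.cov a - (v * waveK a) • one‖ ^ 2 ≤ 0 :=
    le_of_forall_pos_le_add fun ε hε => by simpa using key ε hε
  have h1 : ‖hu.cov a - (v * waveK a) • one‖ = 0 := by
    have := sq_nonneg ‖hu.cov a - (v * waveK a) • one‖
    have h2 : ‖hu.cov a - (v * waveK a) • one‖ ^ 2 = 0 := le_antisymm h0 this
    simpa using h2
  exact sub_eq_zero.1 (norm_eq_zero.1 h1)

/-- **upper bound for the fourth moments** under equidistribution of mass at the Planck scale -/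
theorem AWave.upper (hF : AWave P F B) {v L : ℝ}
    (hq : ∀ ε > 0, ∃ R₀ : ℝ, ∀ R ≥ R₀, ∀ᶠ n in atTop,
      ∫ ω, (spatialAvg (F n) 0 R ω - v) ^ 2 ∂P ≤ ε) (hL : ∀ᶠ n in atTop, L ≤ c4 P F n 0 0 0 0) :
    L ≤ 3 * v ^ 2 := by
  obtain ⟨U, hU⟩ := exists_ultra
  obtain ⟨H, i1, i2, i3, u, one, hu, hone, h4, h2⟩ := hF.limit U hU
  have h0 := hF.cov_of_planck (v := v) 0 (by simpa [waveK_zero] using hq) hU hu hone h4 h2
  have h := hu.upper
  rw [h0, waveK_zero, mul_one, norm_smul] at h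
  have hone' : ‖one‖ = 1 := by
    have : ‖one‖ ^ 2 = 1 := by rw [← real_inner_self_eq_norm_sq, hone]
    nlinarith [norm_nonneg one]
  rw [hone', mul_one, Real.norm_eq_abs, sq_abs] at h
  exact (ge_of_tendsto (h4 0 0 0 0) (hU hL)).trans h

/-- **Planck-scale quantum ergodicity implies Gaussian four-point functions.** -/
theorem AWave.gauss_of_planck (hF : AWave P F B) {v : ℝ} (hq : AsyPlanck P F v) :
    (∀ x₁ x₂ x₃ x₄, Tendsto (fun n => c4 P F n x₁ x₂ x₃ x₄) atTop
      (𝓝 (v ^ 2 * (waveK (x₁ - x₂) * waveK (x₃ - x₄) + waveK (x₁ - x₃) * waveK (x₂ - x₄)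
        + waveK (x₁ - x₄) * waveK (x₂ - x₃))))) ∧
    ∀ x y, Tendsto (fun n => c2 P F n x y) atTop (𝓝 (v * waveK (x - y))) := by
  constructor
  · intro x₁ x₂ x₃ x₄
    rw [tendsto_iff_ultrafilter]
    intro U hU
    obtain ⟨H, i1, i2, i3, u, one, hu, hone, h4, h2⟩ := hF.limit U hU
    have hcov := fun a => hF.cov_of_planck (v := v) a (hq a) hU hu hone h4 h2
    have := h4 x₁ x₂ x₃ x₄
    rw [hu.wick hone hcov] at this
    exact this
  · intro x y
    rw [tendsto_iff_ultrafilter]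
    intro U hU
    obtain ⟨H, i1, i2, i3, u, one, hu, hone, h4, h2⟩ := hF.limit U hU
    have hcov := fun a => hF.cov_of_planck (v := v) a (hq a) hU hu hone h4 h2
    have h5 := h2 x y
    have h6 := hF.inv_one hU h2 0 (y - x) x
    rw [zero_add, sub_add_cancel, ← hu.cov_one (hF.inv_one hU h2), hcov, inner_smul_left, hone]
      at h6
    rw [h6] at h5
    simp only [conj_trivial, mul_one] at h5
    rw [← waveK_neg, neg_sub]
    exact h5

/-- **Gaussian four-point functions imply Planck-scale quantum ergodicity.** -/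
theorem AWave.planck_of_gauss (hF : AWave P F B) {v : ℝ}
    (hv : Tendsto (fun n => c2 P F n 0 0) atTop (𝓝 v))
    (hw : ∀ x₁ x₂ x₃ x₄, Tendsto (fun n => c4 P F n x₁ x₂ x₃ x₄) atTop
      (𝓝 (v ^ 2 * (waveK (x₁ - x₂) * waveK (x₃ - x₄) + waveK (x₁ - x₃) * waveK (x₂ - x₄)
        + waveK (x₁ - x₄) * waveK (x₂ - x₃))))) : AsyPlanck P F v := by
  -- the two-point functions converge
  have h2c : ∀ x y, Tendsto (fun n => c2 P F n x y) atTop (𝓝 (v * waveK (x - y))) := by
    intro x y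
    rw [tendsto_iff_ultrafilter]
    intro U hU
    obtain ⟨H, i1, i2, i3, u, one, hu, hone, h4, h2⟩ := hF.limit U hU
    have hw' : ∀ x₁ x₂ x₃ x₄, inner ℝ (u x₁ x₂) (u x₃ x₄) = _ := fun x₁ x₂ x₃ x₄ =>
      tendsto_nhds_unique (h4 x₁ x₂ x₃ x₄) ((hw x₁ x₂ x₃ x₄).mono_left hU)
    have hv' : inner ℝ (u 0 0) one = v := tendsto_nhds_unique (h2 0 0) (hv.mono_left hU)
    have hcov := hu.cov_of_wick hone (hF.inv_one hU h2) hv' hw'
    have h5 := h2 x y
    have h6 := hF.inv_one hU h2 0 (y - x) x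
    rw [zero_add, sub_add_cancel, ← hu.cov_one (hF.inv_one hU h2), hcov, inner_smul_left, hone]
      at h6
    rw [h6] at h5
    simp only [conj_trivial, mul_one] at h5
    rw [← waveK_neg, neg_sub]
    exact h5
  obtain ⟨U, hU⟩ := exists_ultra
  obtain ⟨H, i1, i2, i3, u, one, hu, hone, h4, h2⟩ := hF.limit U hU
  have hw' : ∀ x₁ x₂ x₃ x₄, inner ℝ (u x₁ x₂) (u x₃ x₄) = _ := fun x₁ x₂ x₃ x₄ =>
    tendsto_nhds_unique (h4 x₁ x₂ x₃ x₄) ((hw x₁ x₂ x₃ x₄).mono_left hU)
  have hv' : inner ℝ (u 0 0) one = v := tendsto_nhds_unique (h2 0 0) (hv.mono_left hU)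
  have hcov := hu.cov_of_wick hone (hF.inv_one hU h2) hv' hw'
  have h4' : ∀ x₁ x₂ x₃ x₄, Tendsto (fun n => c4 P F n x₁ x₂ x₃ x₄) atTop
      (𝓝 (inner ℝ (u x₁ x₂) (u x₃ x₄))) := by
    intro x₁ x₂ x₃ x₄
    rw [hw' x₁ x₂ x₃ x₄]
    exact hw x₁ x₂ x₃ x₄
  have h2' : ∀ x y, Tendsto (fun n => c2 P F n x y) atTop (𝓝 (inner ℝ (u x y) one)) := by
    intro x y
    have := tendsto_nhds_unique (h2 x y) ((h2c x y).mono_left hU)
    rw [this]
    exact h2c x y
  intro a ε hε
  have h1 : Tendsto (fun R : ℝ => ‖(⨍ s in ball (0:ℂ) R, u s (a + s)) - (v * waveK a) • one‖ ^ 2)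
      atTop (𝓝 0) := by
    have h3 : Tendsto (fun R : ℝ => ‖(⨍ s in ball (0:ℂ) R, u s (a + s))
        - (v * waveK a) • one‖ ^ 2) atTop (𝓝 (‖hu.cov a - (v * waveK a) • one‖ ^ 2)) :=
      (((hu.tendsto_cov a).sub tendsto_const_nhds).norm).pow 2
    rw [hcov a, sub_self, norm_zero, zero_pow (by norm_num)] at h3
    exact h3
  have h5 : ∀ᶠ R : ℝ in atTop,
      ‖(⨍ s in ball (0:ℂ) R, u s (a + s)) - (v * waveK a) • one‖ ^ 2 < ε :=
    h1.eventually (gt_mem_nhds hε)
  obtain ⟨R₁, hR₁⟩ := Filter.eventually_atTop.1 (h5.and (eventually_gt_atTop (0:ℝ)))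
  refine ⟨R₁, fun R hR => ?_⟩
  obtain ⟨h6, hR0⟩ := hR₁ R hR
  have h3 := hF.norm_limit le_rfl hu hone h4' h2' a (v * waveK a) hR0
  filter_upwards [hF.ev, h3.eventually (gt_mem_nhds h6)] with n hn hn2
  rw [hn.1.planck_eq]
  exact hn2.le

end

end Berry
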