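import Pool.Agent.LibH11.Berry.AThm

/-!
The fourth moment is at most three times the second moment of the local mass, at any scale.
-/

open Complex Filter Topology MeasureTheory Metric InnerProductSpace Laplacian
open scoped ENNReal

namespace Berry

noncomputable section

section PairUp

variable {H : Type*} [NormedAddCommGroup H] [InnerProductSpace ℝ H] [CompleteSpace H]
  {u : ℂ → ℂ → H}

/-- the random covariance is a contraction of every spatial average -/
lemma PairP.cov_le_avg (hu : PairP u) (a : ℂ) {R : ℝ} (hR : 0 < R) :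
    ‖hu.cov a‖ ≤ ‖⨍ s in ball (0:ℂ) R, u s (a + s)‖ := by
  have hc : Continuous fun s => u s (a + s) :=
    hu.cont₂ continuous_id (continuous_const.add continuous_id)
  have h1 : inner ℝ (⨍ s in ball (0:ℂ) R, u s (a + s)) (hu.cov a) = ‖hu.cov a‖ ^ 2 := by
    rw [PairP.inner_avg hc]
    have e : ∀ s : ℂ, inner ℝ (u s (a + s)) (hu.cov a) = ‖hu.cov a‖ ^ 2 := by
      intro s
      rw [hu.inner_cov, add_sub_cancel_right, real_inner_self_eq_norm_sq]
    simp only [e]
    rw [avg_const hR]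
  have h2 := real_inner_le_norm (⨍ s in ball (0:ℂ) R, u s (a + s)) (hu.cov a)
  rw [h1] at h2
  rcases (norm_nonneg (hu.cov a)).eq_or_lt with h0 | hpos
  · rw [← h0]; exact norm_nonneg _
  · have h3 : ‖hu.cov a‖ * ‖hu.cov a‖
        ≤ ‖⨍ s in ball (0:ℂ) R, u s (a + s)‖ * ‖hu.cov a‖ := by rw [← sq]; exact h2
    exact le_of_mul_le_mul_right h3 hpos

end PairUp

variable {Ω : Type*} [MeasurableSpace Ω] {P : Measure Ω} [IsProbabilityMeasure P]
  {F : ℕ → ℂ → Ω → ℝ} {B : ℝ}

/-- **fourth moments against local masses at a fixed scale** -/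
theorem AWave.upper_loc (hF : AWave P F B) {R : ℝ} (hR : 0 < R) {L M : ℝ}
    (hL : ∀ᶠ n in atTop, L ≤ c4 P F n 0 0 0 0)
    (hM : ∀ᶠ n in atTop, ∫ ω, spatialAvg (F n) 0 R ω ^ 2 ∂P ≤ M) : L ≤ 3 * M := by
  obtain ⟨U, hU⟩ := exists_ultra
  obtain ⟨H, i1, i2, i3, u, one, hu, hone, h4, h2⟩ := hF.limit U hU
  have h1 := hF.norm_limit hU hu hone h4 h2 0 0 hR
  have h3 : ‖(⨍ s in ball (0:ℂ) R, u s (0 + s)) - (0:ℝ) • one‖ ^ 2 ≤ M := by
    refine le_of_tendsto h1 ?_
    filter_upwards [hU hF.ev, hU hM] with n hn hn2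
    rw [← hn.1.planck_eq]
    simpa only [sub_zero] using hn2
  rw [zero_smul, sub_zero] at h3
  have h5 := hu.cov_le_avg 0 hR
  have h6 : ‖hu.cov 0‖ ^ 2 ≤ M :=
    (pow_le_pow_left₀ (norm_nonneg _) h5 2).trans h3
  have h7 := hu.upper
  have h8 := ge_of_tendsto (h4 0 0 0 0) (hU hL)
  linarith

end

end Berry
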