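import Pool.Agent.LibH11.Berry.Smear

/-!
Averages over large discs.
-/

open Complex Filter Topology MeasureTheory Metric
open scoped ENNReal NNReal

namespace Berry

noncomputable section

variable {E : Type*} [NormedAddCommGroup E] [NormedSpace ℝ E]

lemma vol_ball_real (x : ℂ) {R : ℝ} (hR : 0 ≤ R) :
    (volume : Measure ℂ).real (ball x R) = Real.pi * R ^ 2 := by
  rw [measureReal_def, Complex.volume_ball, ENNReal.toReal_mul, ENNReal.toReal_pow,
    ENNReal.toReal_ofReal hR, mul_comm]
  rfl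

lemma avg_eq (g : ℂ → E) {R : ℝ} (hR : 0 ≤ R) :
    ⨍ s in ball (0:ℂ) R, g s = (Real.pi * R ^ 2)⁻¹ • ∫ s in ball (0:ℂ) R, g s := by
  rw [setAverage_eq, vol_ball_real 0 hR]

lemma avg_const {R : ℝ} (hR : 0 < R) (k : E) [CompleteSpace E] :
    ⨍ _ in ball (0:ℂ) R, k = k := by
  apply setAverage_const
  · exact (measure_ball_pos _ _ hR).ne'
  · exact measure_ball_lt_top.ne

omit [NormedSpace ℝ E] in
lemma intOn {g : ℂ → E} (hg : Continuous g) (x : ℂ) (R : ℝ) : IntegrableOn g (ball x R) :=
  (hg.continuousOn.integrableOn_compact (isCompact_closedBall x R)).mono_set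
    ball_subset_closedBall

lemma avg_add {g h : ℂ → E} (hg : Continuous g) (hh : Continuous h) (R : ℝ) :
    ⨍ s in ball (0:ℂ) R, (g s + h s)
      = (⨍ s in ball (0:ℂ) R, g s) + ⨍ s in ball (0:ℂ) R, h s := by
  rw [setAverage_eq, setAverage_eq, setAverage_eq, integral_add (intOn hg 0 R) (intOn hh 0 R),
    smul_add]

/-- continuous with vanishing mean over large discs -/
def MZ (g : ℂ → ℂ) : Prop :=
  Continuous g ∧ Tendsto (fun R : ℝ => ⨍ s in ball (0:ℂ) R, g s) atTop (𝓝 0)

lemma MZ.add {g h : ℂ → ℂ} (hg : MZ g) (hh : MZ h) : MZ (fun s => g s + h s) := by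
  refine ⟨hg.1.add hh.1, ?_⟩
  have := hg.2.add hh.2
  rw [add_zero] at this
  exact this.congr fun R => (avg_add hg.1 hh.1 R).symm

lemma avg_const_mul (k : ℂ) (g : ℂ → ℂ) (R : ℝ) :
    ⨍ s in ball (0:ℂ) R, k * g s = k * ⨍ s in ball (0:ℂ) R, g s := by
  rw [setAverage_eq, setAverage_eq, integral_const_mul, real_smul, real_smul]; ring

lemma MZ.const_mul {g : ℂ → ℂ} (k : ℂ) (hg : MZ g) : MZ (fun s => k * g s) := by
  refine ⟨continuous_const.mul hg.1, ?_⟩
  have := hg.2.const_mul k
  rw [mul_zero] at this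
  exact this.congr fun R => (avg_const_mul k g R).symm

lemma MZ.const {k : ℂ} (h : MZ (fun _ => k)) : k = 0 := by
  have h1 : Tendsto (fun R : ℝ => ⨍ _ in ball (0:ℂ) R, k) atTop (𝓝 k) := by
    refine tendsto_const_nhds.congr' ?_
    filter_upwards [eventually_gt_atTop (0:ℝ)] with R hR
    exact (avg_const hR k).symm
  exact tendsto_nhds_unique h1 h.2

lemma avg_norm_le (g : ℂ → E) (R : ℝ) :
    ‖⨍ s in ball (0:ℂ) R, g s‖ ≤ ⨍ s in ball (0:ℂ) R, ‖g s‖ := by
  rw [setAverage_eq, setAverage_eq, norm_smul, Real.norm_of_nonneg (by positivity), smul_eq_mul]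
  exact mul_le_mul_of_nonneg_left (norm_integral_le_integral_norm _) (by positivity)

lemma avg_le_of_le {g : ℂ → ℝ} (hg : Continuous g) {C : ℝ} (h : ∀ s, g s ≤ C) {R : ℝ}
    (hR : 0 < R) : ⨍ s in ball (0:ℂ) R, g s ≤ C := by
  have h1 : ⨍ s in ball (0:ℂ) R, g s ≤ ⨍ _ in ball (0:ℂ) R, C := by
    rw [setAverage_eq, setAverage_eq, smul_eq_mul, smul_eq_mul]
    refine mul_le_mul_of_nonneg_left ?_ (by positivity)
    exact integral_mono (intOn hg 0 R) (intOn continuous_const 0 R) h
  rwa [avg_const hR] at h1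

/-- bounded, continuous, vanishing at infinity -/
def VanInf (g : ℂ → ℂ) : Prop := ∀ ε > 0, ∃ N : ℝ, ∀ s, N ≤ ‖s‖ → ‖g s‖ ≤ ε

/-- averages of a bounded function vanishing at infinity are uniformly small, wherever centred -/
lemma unif_avg {g : ℂ → ℂ} (hg : Continuous g) (hv : VanInf g) {C : ℝ} (hC : ∀ s, ‖g s‖ ≤ C) :
    ∀ ε > 0, ∃ R₀ : ℝ, 0 < R₀ ∧ ∀ R, R₀ ≤ R → ∀ p, ⨍ s in ball (0:ℂ) R, ‖g (p + s)‖ ≤ ε := by
  intro ε hε
  obtain ⟨N, hN⟩ := hv (ε/2) (by positivity)
  have hC0 : 0 ≤ C := (norm_nonneg _).trans (hC 0)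
  set N' := max N 1 with hN'
  have hN'1 : 1 ≤ N' := le_max_right _ _
  refine ⟨N' * (2 * (C + 1) / ε + 1), by positivity, fun R hR p => ?_⟩
  have hRpos : 0 < R := lt_of_lt_of_le (by positivity) hR
  have hgc : Continuous fun s => ‖g (p + s)‖ := (hg.comp (continuous_const.add continuous_id)).norm
  rw [avg_eq _ hRpos.le, smul_eq_mul]
  -- pointwise bound
  have hpt : ∀ s, ‖g (p + s)‖ ≤ ε/2 + (ball (-p) N').indicator (fun _ => C) s := by
    intro s
    by_cases hs : s ∈ ball (-p) N'
    · rw [Set.indicator_of_mem hs]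
      have := hC (p + s)
      linarith
    · rw [Set.indicator_of_notMem hs, add_zero]
      apply hN
      rw [mem_ball, not_lt, dist_eq, sub_neg_eq_add, add_comm] at hs
      exact (le_max_left _ _).trans hs
  have hint : ∫ s in ball (0:ℂ) R, ‖g (p + s)‖ ≤ (ε/2) * (Real.pi * R^2) + C * (Real.pi * N'^2) := by
    have i1 : IntegrableOn (fun _ : ℂ => ε/2) (ball (0:ℂ) R) := intOn continuous_const 0 R
    have i2 : Integrable ((ball (-p) N').indicator fun _ : ℂ => C) :=
      (intOn continuous_const (-p) N').integrable_indicator measurableSet_ball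
    calc ∫ s in ball (0:ℂ) R, ‖g (p + s)‖
        ≤ ∫ s in ball (0:ℂ) R, (ε/2 + (ball (-p) N').indicator (fun _ => C) s) :=
          integral_mono (intOn hgc 0 R) (i1.add i2.integrableOn) hpt
      _ = (∫ s in ball (0:ℂ) R, ε/2) +
          ∫ s in ball (0:ℂ) R, (ball (-p) N').indicator (fun _ => C) s :=
          integral_add i1 i2.integrableOn
      _ ≤ (ε/2) * (Real.pi * R^2) + C * (Real.pi * N'^2) := by
          refine add_le_add ?_ ?_
          · rw [setIntegral_const, vol_ball_real 0 hRpos.le, smul_eq_mul, mul_comm]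
          · calc ∫ s in ball (0:ℂ) R, (ball (-p) N').indicator (fun _ => C) s
                ≤ ∫ s, (ball (-p) N').indicator (fun _ => C) s :=
                  setIntegral_le_integral i2 (Eventually.of_forall fun s =>
                    Set.indicator_nonneg (fun _ _ => hC0) s)
              _ = C * (Real.pi * N'^2) := by
                  rw [integral_indicator measurableSet_ball, setIntegral_const,
                    vol_ball_real _ (by linarith), smul_eq_mul, mul_comm]
  have hpi := Real.pi_pos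
  calc (Real.pi * R ^ 2)⁻¹ * ∫ s in ball (0:ℂ) R, ‖g (p + s)‖
      ≤ (Real.pi * R ^ 2)⁻¹ * ((ε/2) * (Real.pi * R^2) + C * (Real.pi * N'^2)) :=
        mul_le_mul_of_nonneg_left hint (by positivity)
    _ = ε/2 + C * (N'/R)^2 := by field_simp
    _ ≤ ε/2 + ε/2 := by
        have hq : N' / R ≤ ε / (2 * (C+1)) := by
          rw [div_le_div_iff₀ hRpos (by positivity)]
          have h1 : N' * (2 * (C + 1) / ε) ≤ R := by
            refine le_trans ?_ hR
            exact mul_le_mul_of_nonneg_left (by linarith) (by linarith)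
          have h2 : N' * (2 * (C+1)) = (N' * (2 * (C + 1) / ε)) * ε := by field_simp
          rw [h2, mul_comm ε R]
          exact mul_le_mul_of_nonneg_right h1 hε.le
        have hq1 : N' / R ≤ 1 := by
          rw [div_le_one hRpos]
          refine le_trans ?_ hR
          have : 0 ≤ 2 * (C + 1) / ε := by positivity
          nlinarith
        have hq0 : 0 ≤ N' / R := by positivity
        have h3 : C * (N'/R)^2 ≤ (C+1) * (ε / (2 * (C+1))) := by
          calc C * (N'/R)^2 ≤ (C+1) * (N'/R)^2 := by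
                exact mul_le_mul_of_nonneg_right (by linarith) (by positivity)
            _ ≤ (C+1) * (N'/R) := by
                refine mul_le_mul_of_nonneg_left ?_ (by linarith)
                nlinarith
            _ ≤ (C+1) * (ε / (2 * (C+1))) := mul_le_mul_of_nonneg_left hq (by linarith)
        have h4 : (C+1) * (ε / (2 * (C+1))) = ε/2 := by field_simp
        linarith
    _ = ε := by ring

lemma VanInf.mz {g : ℂ → ℂ} (hg : Continuous g) (hv : VanInf g) {C : ℝ} (hC : ∀ s, ‖g s‖ ≤ C) :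
    MZ g := by
  refine ⟨hg, ?_⟩
  rw [Metric.tendsto_atTop]
  intro ε hε
  obtain ⟨R₀, hR₀, h⟩ := unif_avg hg hv hC (ε/2) (by positivity)
  refine ⟨R₀, fun R hR => ?_⟩
  have h1 := h R hR 0
  simp only [zero_add] at h1
  rw [dist_zero_right]
  exact lt_of_le_of_lt ((avg_norm_le g R).trans h1) (by linarith)

/-- averages over large discs do not see a translation -/
lemma avg_shift {g : ℂ → ℂ} (hg : Continuous g) {C : ℝ} (hC : ∀ s, ‖g s‖ ≤ C) (x : ℂ) :
    Tendsto (fun R : ℝ => (⨍ s in ball (0:ℂ) R, g (x + s)) - ⨍ s in ball (0:ℂ) R, g s)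
      atTop (𝓝 0) := by
  have hC0 : 0 ≤ C := (norm_nonneg _).trans (hC 0)
  have hpi := Real.pi_pos
  have key : ∀ R : ℝ, ‖x‖ < R → ‖(⨍ s in ball (0:ℂ) R, g (x + s)) - ⨍ s in ball (0:ℂ) R, g s‖ ≤
      2 * C * (1 - ((R - ‖x‖) / R)^2) := by
    intro R hR
    have hRpos : 0 < R := lt_of_le_of_lt (norm_nonneg _) hR
    have h1 : ∫ s in ball (0:ℂ) R, g (x + s) = ∫ s in ball x R, g s := by
      have hmp : MeasurePreserving (fun s : ℂ => x + s) volume volume :=
        measurePreserving_add_left volume x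
      have hme : MeasurableEmbedding (fun s : ℂ => x + s) :=
        (MeasurableEquiv.addLeft x).measurableEmbedding
      have := hmp.setIntegral_preimage_emb hme g (ball x R)
      rw [← this]
      congr 2
      ext s
      simp [mem_ball]
    have hsub1 : ball (0:ℂ) (R - ‖x‖) ⊆ ball (0:ℂ) R :=
      ball_subset_ball (by linarith [norm_nonneg x])
    have hsub2 : ball (0:ℂ) (R - ‖x‖) ⊆ ball x R := by
      apply ball_subset_ball'
      rw [dist_eq, zero_sub, norm_neg]; linarith
    have hm : MeasurableSet (ball (0:ℂ) (R - ‖x‖)) := measurableSet_ball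
    have e1 : ∫ s in ball x R, g s = (∫ s in ball (0:ℂ) (R - ‖x‖), g s)
        + ∫ s in ball x R \ ball (0:ℂ) (R - ‖x‖), g s := by
      rw [← setIntegral_union (Set.disjoint_sdiff_right) (measurableSet_ball.diff hm)
        (intOn hg _ _) ((intOn hg x R).mono_set Set.sdiff_subset), Set.union_sdiff_cancel hsub2]
    have e2 : ∫ s in ball (0:ℂ) R, g s = (∫ s in ball (0:ℂ) (R - ‖x‖), g s)
        + ∫ s in ball (0:ℂ) R \ ball (0:ℂ) (R - ‖x‖), g s := by
      rw [← setIntegral_union (Set.disjoint_sdiff_right) (measurableSet_ball.diff hm)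
        (intOn hg _ _) ((intOn hg 0 R).mono_set Set.sdiff_subset), Set.union_sdiff_cancel hsub1]
    have b : ∀ y : ℂ, ball (0:ℂ) (R - ‖x‖) ⊆ ball y R →
        ‖∫ s in ball y R \ ball (0:ℂ) (R - ‖x‖), g s‖ ≤
        C * (Real.pi * R^2 - Real.pi * (R - ‖x‖)^2) := by
      intro y hy
      have h2 : ‖∫ s in ball y R \ ball (0:ℂ) (R - ‖x‖), g s‖ ≤
          C * (volume : Measure ℂ).real (ball y R \ ball (0:ℂ) (R - ‖x‖)) := by
        apply norm_setIntegral_le_of_norm_le_const
        · exact lt_of_le_of_lt (measure_mono Set.sdiff_subset) measure_ball_lt_top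
        · intro s _; exact hC s
      refine h2.trans (le_of_eq ?_)
      rw [measureReal_sdiff hy hm, vol_ball_real _ hRpos.le, vol_ball_real _ (by linarith)]
    rw [avg_eq _ hRpos.le, avg_eq _ hRpos.le, ← smul_sub, h1, e1, e2, norm_smul,
      Real.norm_of_nonneg (by positivity)]
    have h3 : ‖(∫ s in ball (0:ℂ) (R - ‖x‖), g s)
        + (∫ s in ball x R \ ball (0:ℂ) (R - ‖x‖), g s) - ((∫ s in ball (0:ℂ) (R - ‖x‖), g s)
        + ∫ s in ball (0:ℂ) R \ ball (0:ℂ) (R - ‖x‖), g s)‖ ≤
        2 * (C * (Real.pi * R^2 - Real.pi * (R - ‖x‖)^2)) := by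
      rw [add_sub_add_left_eq_sub]
      refine (norm_sub_le _ _).trans ?_
      have := b x hsub2
      have := b 0 hsub1
      linarith
    refine (mul_le_mul_of_nonneg_left h3 (by positivity)).trans (le_of_eq ?_)
    field_simp
  have hlim : Tendsto (fun R : ℝ => 2 * C * (1 - ((R - ‖x‖) / R)^2)) atTop (𝓝 0) := by
    have h1 : Tendsto (fun R : ℝ => (R - ‖x‖) / R) atTop (𝓝 1) := by
      have h2 : Tendsto (fun R : ℝ => 1 - ‖x‖ / R) atTop (𝓝 (1 - 0)) :=
        tendsto_const_nhds.sub (tendsto_const_nhds.div_atTop tendsto_id)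
      rw [sub_zero] at h2
      refine h2.congr' ?_
      filter_upwards [eventually_gt_atTop (0:ℝ)] with R hR
      field_simp
    have h3 := ((tendsto_const_nhds (x := (1:ℝ))).sub (h1.pow 2)).const_mul (2 * C)
    simpa using h3
  refine squeeze_zero_norm' ?_ hlim
  filter_upwards [eventually_gt_atTop ‖x‖] with R hR
  exact key R hR

/-- smearing preserves vanishing means -/
lemma MZ.smear {A : ℂ → ℂ → ℂ} (hA : Continuous (Function.uncurry A)) {C : ℝ}
    (hC : ∀ s y, ‖A s y‖ ≤ C) {ψ : ℂ → ℂ} (hψ : TestFn ψ)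
    (hc : Continuous fun s => ∫ y, ψ y * A s y)
    (h : ∀ y, Tendsto (fun R : ℝ => ⨍ s in ball (0:ℂ) R, A s y) atTop (𝓝 0)) :
    MZ (fun s => ∫ y, ψ y * A s y) := by
  refine ⟨hc, ?_⟩
  have hC0 : 0 ≤ C := (norm_nonneg _).trans (hC 0 0)
  have hψi : Integrable ψ := hψ.continuous.integrable_of_hasCompactSupport hψ.2
  have swap : ∀ R : ℝ, ⨍ s in ball (0:ℂ) R, ∫ y, ψ y * A s y
      = ∫ y, ψ y * ⨍ s in ball (0:ℂ) R, A s y := by
    intro R
    rw [setAverage_eq]
    have hint : Integrable (Function.uncurry fun (s y : ℂ) => ψ y * A s y)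
        ((volume.restrict (ball (0:ℂ) R)).prod volume) := by
      have h1 : Integrable (fun p : ℂ × ℂ => ψ p.2 * A p.1 p.2)
          ((volume.restrict (ball (0:ℂ) R)).prod volume) := by
        have h2 : Integrable (fun p : ℂ × ℂ => (1:ℂ) * ψ p.2)
            ((volume.restrict (ball (0:ℂ) R)).prod volume) :=
          Integrable.mul_prod (f := fun _ : ℂ => (1:ℂ)) (intOn continuous_const 0 R) hψi
        simp only [one_mul] at h2
        have h3 := h2.mul_bdd (g := fun p : ℂ × ℂ => A p.1 p.2) (c := C) ?_ ?_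
        · exact h3
        · exact hA.aestronglyMeasurable
        · exact Eventually.of_forall fun p => hC _ _
      exact h1
    rw [integral_integral_swap hint, ← integral_smul]
    congr 1
    funext y
    rw [setAverage_eq, integral_const_mul, real_smul, real_smul]; ring
  simp only [swap]
  have hlim : Tendsto (fun R : ℝ => ∫ y, ψ y * ⨍ s in ball (0:ℂ) R, A s y) atTop
      (𝓝 (∫ y, ψ y * 0)) := by
    apply tendsto_integral_filter_of_dominated_convergence (fun y => ‖ψ y‖ * C)
    · filter_upwards with R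
      have h1 : StronglyMeasurable fun y => ∫ s in ball (0:ℂ) R, A s y := by
        have : StronglyMeasurable (Function.uncurry fun y s => A s y) :=
          (hA.comp continuous_swap).stronglyMeasurable
        exact this.integral_prod_right
      have h2 : (fun y => ψ y * ⨍ s in ball (0:ℂ) R, A s y) =
          fun y => ψ y * ((volume.real (ball (0:ℂ) R))⁻¹ • ∫ s in ball (0:ℂ) R, A s y) := by
        funext y; rw [setAverage_eq]
      rw [h2]
      exact (hψ.continuous.stronglyMeasurable.mul (h1.const_smul ((volume.real (ball (0:ℂ) R))⁻¹ : ℝ))).aestronglyMeasurable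
    · filter_upwards [eventually_gt_atTop (0:ℝ)] with R hR
      refine Eventually.of_forall fun y => ?_
      rw [norm_mul]
      refine mul_le_mul_of_nonneg_left ?_ (norm_nonneg _)
      refine (avg_norm_le _ R).trans ?_
      have hcy : Continuous fun s => A s y := hA.comp (continuous_id.prodMk continuous_const)
      exact avg_le_of_le hcy.norm (fun s => hC s y) hR
    · exact hψi.norm.mul_const C
    · refine Eventually.of_forall fun y => ?_
      have := (h y).const_mul (ψ y)
      exact this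
  simpa using hlim

/-- smearing preserves vanishing at infinity -/
lemma VanInf.smear {A : ℂ → ℂ} (hv : VanInf A) {ψ : ℂ → ℂ} (hψ : TestFn ψ)
    (t : ℂ) : VanInf (fun s => ∫ y, ψ y * A (t - y + s)) := by
  intro ε hε
  have hψi : Integrable ψ := hψ.continuous.integrable_of_hasCompactSupport hψ.2
  set M := ∫ y, ‖ψ y‖ with hM
  have hM0 : 0 ≤ M := integral_nonneg fun _ => norm_nonneg _
  obtain ⟨N, hN⟩ := hv (ε / (M + 1)) (by positivity)
  obtain ⟨r, hr⟩ := hψ.2.isCompact.isBounded.exists_norm_le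
  refine ⟨N + ‖t‖ + r, fun s hs => ?_⟩
  have hpt : ∀ y, ‖ψ y * A (t - y + s)‖ ≤ ‖ψ y‖ * (ε / (M+1)) := by
    intro y
    rw [norm_mul]
    by_cases hy : y ∈ tsupport ψ
    · refine mul_le_mul_of_nonneg_left (hN _ ?_) (norm_nonneg _)
      have h1 := hr y hy
      have h2 : ‖s‖ ≤ ‖t - y + s‖ + (‖t‖ + ‖y‖) := by
        calc ‖s‖ = ‖(t - y + s) - (t - y)‖ := by congr 1; ring
          _ ≤ ‖t - y + s‖ + ‖t - y‖ := norm_sub_le _ _
          _ ≤ _ := by linarith [norm_sub_le t y]
      linarith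
    · have : ψ y = 0 := image_eq_zero_of_notMem_tsupport hy
      rw [this]; simp
  calc ‖∫ y, ψ y * A (t - y + s)‖ ≤ ∫ y, ‖ψ y‖ * (ε / (M+1)) :=
        norm_integral_le_of_norm_le (hψi.norm.mul_const _) (Eventually.of_forall hpt)
    _ = M * (ε / (M+1)) := by rw [integral_mul_const]
    _ ≤ ε := by
        rw [mul_div_assoc', div_le_iff₀ (by positivity)]
        nlinarith

end

end Berry
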