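import Pool.Agent.LibH11.Berry.RTwo

/-!
# Sharp two-sided bounds for the fourth moments of eigenfunctions on closed surfaces

Let `Γ ⊂ SL(2, ℝ)` be countable with compact quotient `Γ \ ℍ` (fundamental domain `D`), let `ρ` be a
continuous `Γ`-invariant function on `ℍ`, and let `φₙ` be real `Γ`-invariant Laplace eigenfunctions for
the metric `e^{2ρ} (dx² + dy²) / y²`, with eigenvalues `mₙ² → ∞` and `L²` norm `1` for the normalised
area.  Let `Mₙ(R)` be the mean square, over a uniform random point, of the local mass of `φₙ` in the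
disc of radius `R / mₙ` about the point.  Then the fourth moment of `φₙ` is at most `(3 + ε) Mₙ(R)` for
every fixed `R` and `n` large, and at least `(3/2 - ε) max(1, Mₙ(R))` for every fixed large `R` and `n`
large.
-/

open MeasureTheory UpperHalfPlane MatrixGroups Berry Filter Topology

theorem Berry.closedSurfaceL4_result
    (Γ : Subgroup SL(2, ℝ)) [Countable Γ] (D : Set ℍ) (hDm : MeasurableSet D)
    (hD : IsFundamentalDomain Γ D (volume : Measure ℍ))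
    (hK : ∃ K : Set ℍ, IsCompact K ∧ ∀ z, ∃ γ ∈ Γ, γ • z ∈ K)
    (ρ : ℍ → ℝ) (hρ : Continuous ρ) (hρΓ : ∀ γ ∈ Γ, ∀ z, ρ (γ • z) = ρ z)
    (φ : ℕ → ℍ → ℝ) (m : ℕ → ℝ) (hφ : REigenSeq Γ ρ φ m)
    (hnorm : ∀ n, rAvg ρ D (fun z => φ n z ^ 2) = 1) (ε : ℝ) (hε : 0 < ε) :
    (∀ R : ℝ, 0 < R → ∀ᶠ n in atTop,
      (rAvg ρ D fun z => φ n z ^ 4) ≤ (3 + ε) * massSq ρ D (φ n) (m n) R) ∧
    (∃ R₀ > 0, ∀ R ≥ R₀, ∀ᶠ n in atTop,
      (3 / 2 - ε) * max 1 (massSq ρ D (φ n) (m n) R) ≤ rAvg ρ D fun z => φ n z ^ 4) := by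
  have h := surf_of_cocompact hD hDm hK hρ hρΓ hφ
  refine ⟨fun _ hR => h.upper_loc hR hε, ?_⟩
  obtain ⟨R₀, hR₀, h1⟩ := h.two_sided hnorm hε
  exact ⟨R₀, hR₀, fun R hR => (h1 R hR).mono fun n hn => hn.1⟩
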