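import Mathlib

/-!
Core algebra for planar monochromatic four-point and three-point functions.

`Q a b c e t₁ t₂ t₃ t₄` is to be thought of as
`E[W^a F(t₁) W^b F(t₂) W^c F(t₃) W^e F(t₄)]`, with `W = ∂_x + i ∂_y` and `W⁻¹ = -(∂_x - i ∂_y)`.
-/

open Complex Filter Topology MeasureTheory

namespace Berry

/-- the derivative rule of a ladder family in one variable -/
noncomputable def lad (v p m : ℂ) : ℂ := (starRingEnd ℂ v) / 2 * p - v / 2 * m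

/-- a function all of whose derivatives vanish takes the same value at `1` and `0` -/
lemma eq_of_hasDerivAt_zero {g : ℝ → ℂ} (h : ∀ s, HasDerivAt g 0 s) : g 1 = g 0 := by
  have h1 : Differentiable ℝ g := fun s => (h s).differentiableAt
  have h2 : ∀ s, deriv g s = 0 := fun s => (h s).deriv
  exact is_const_of_deriv_eq_zero h1 h2 1 0

section four

variable (Q : ℤ → ℤ → ℤ → ℤ → ℂ → ℂ → ℂ → ℂ → ℂ)

/-- derivative rule in all four variables -/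
def Der4 : Prop := ∀ a b c e t₁ t₂ t₃ t₄ v₁ v₂ v₃ v₄,
  HasDerivAt (fun s : ℝ => Q a b c e (t₁ + s * v₁) (t₂ + s * v₂) (t₃ + s * v₃) (t₄ + s * v₄))
    (lad v₁ (Q (a+1) b c e t₁ t₂ t₃ t₄) (Q (a-1) b c e t₁ t₂ t₃ t₄)
     + lad v₂ (Q a (b+1) c e t₁ t₂ t₃ t₄) (Q a (b-1) c e t₁ t₂ t₃ t₄)
     + lad v₃ (Q a b (c+1) e t₁ t₂ t₃ t₄) (Q a b (c-1) e t₁ t₂ t₃ t₄)
     + lad v₄ (Q a b c (e+1) t₁ t₂ t₃ t₄) (Q a b c (e-1) t₁ t₂ t₃ t₄)) 0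

variable {Q}

lemma Der4.at (h : Der4 Q) (a b c e : ℤ) (t₁ t₂ t₃ t₄ v₁ v₂ v₃ v₄ : ℂ) (r : ℝ) :
    HasDerivAt (fun s : ℝ => Q a b c e (t₁ + s * v₁) (t₂ + s * v₂) (t₃ + s * v₃) (t₄ + s * v₄))
    (lad v₁ (Q (a+1) b c e (t₁ + r * v₁) (t₂ + r * v₂) (t₃ + r * v₃) (t₄ + r * v₄))
        (Q (a-1) b c e (t₁ + r * v₁) (t₂ + r * v₂) (t₃ + r * v₃) (t₄ + r * v₄))
     + lad v₂ (Q a (b+1) c e (t₁ + r * v₁) (t₂ + r * v₂) (t₃ + r * v₃) (t₄ + r * v₄))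
        (Q a (b-1) c e (t₁ + r * v₁) (t₂ + r * v₂) (t₃ + r * v₃) (t₄ + r * v₄))
     + lad v₃ (Q a b (c+1) e (t₁ + r * v₁) (t₂ + r * v₂) (t₃ + r * v₃) (t₄ + r * v₄))
        (Q a b (c-1) e (t₁ + r * v₁) (t₂ + r * v₂) (t₃ + r * v₃) (t₄ + r * v₄))
     + lad v₄ (Q a b c (e+1) (t₁ + r * v₁) (t₂ + r * v₂) (t₃ + r * v₃) (t₄ + r * v₄))
        (Q a b c (e-1) (t₁ + r * v₁) (t₂ + r * v₂) (t₃ + r * v₃) (t₄ + r * v₄))) r := by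
  have h0 := h a b c e (t₁ + r * v₁) (t₂ + r * v₂) (t₃ + r * v₃) (t₄ + r * v₄) v₁ v₂ v₃ v₄
  have h1 : HasDerivAt (fun s : ℝ => s - r) 1 r := (hasDerivAt_id r).sub_const r
  have h2 := HasDerivAt.scomp_of_eq (x := r) (y := (0:ℝ)) h0 h1 (by simp)
  simp only [one_smul] at h2
  refine h2.congr_of_eventuallyEq ?_
  filter_upwards with s
  simp only [Function.comp]
  push_cast
  congr 1 <;> ring

/-- joint translation invariance -/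
def Inv4 (Q : ℤ → ℤ → ℤ → ℤ → ℂ → ℂ → ℂ → ℂ → ℂ) : Prop := ∀ a b c e t₁ t₂ t₃ t₄ s,
  Q a b c e (t₁ + s) (t₂ + s) (t₃ + s) (t₄ + s) = Q a b c e t₁ t₂ t₃ t₄

lemma lad_zero_imp {p m : Fin 4 → ℂ}
    (h : ∀ v, lad v (p 0) (m 0) + lad v (p 1) (m 1) + lad v (p 2) (m 2) + lad v (p 3) (m 3) = 0) :
    p 0 + p 1 + p 2 + p 3 = 0 ∧ m 0 + m 1 + m 2 + m 3 = 0 := by
  have h1 := h 1
  have h2 := h I
  simp only [lad, map_one, conj_I] at h1 h2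
  have h3 : (p 0 + p 1 + p 2 + p 3) - (m 0 + m 1 + m 2 + m 3) = 0 := by
    linear_combination 2 * h1
  have h4 : (p 0 + p 1 + p 2 + p 3) + (m 0 + m 1 + m 2 + m 3) = 0 := by
    have h5 : I * ((p 0 + p 1 + p 2 + p 3) + (m 0 + m 1 + m 2 + m 3)) = 0 := by
      linear_combination (-2) * h2
    rcases mul_eq_zero.1 h5 with h6 | h6
    · exact absurd h6 I_ne_zero
    · exact h6
  constructor
  · linear_combination (1/2) * h3 + (1/2) * h4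
  · linear_combination (1/2) * h4 - (1/2) * h3

lemma Inv4.sum (hd : Der4 Q) (hi : Inv4 Q) (a b c e : ℤ) (t₁ t₂ t₃ t₄ : ℂ) :
    Q (a+1) b c e t₁ t₂ t₃ t₄ + Q a (b+1) c e t₁ t₂ t₃ t₄ + Q a b (c+1) e t₁ t₂ t₃ t₄
      + Q a b c (e+1) t₁ t₂ t₃ t₄ = 0 ∧
    Q (a-1) b c e t₁ t₂ t₃ t₄ + Q a (b-1) c e t₁ t₂ t₃ t₄ + Q a b (c-1) e t₁ t₂ t₃ t₄
      + Q a b c (e-1) t₁ t₂ t₃ t₄ = 0 := by
  have key : ∀ v, lad v (Q (a+1) b c e t₁ t₂ t₃ t₄) (Q (a-1) b c e t₁ t₂ t₃ t₄)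
     + lad v (Q a (b+1) c e t₁ t₂ t₃ t₄) (Q a (b-1) c e t₁ t₂ t₃ t₄)
     + lad v (Q a b (c+1) e t₁ t₂ t₃ t₄) (Q a b (c-1) e t₁ t₂ t₃ t₄)
     + lad v (Q a b c (e+1) t₁ t₂ t₃ t₄) (Q a b c (e-1) t₁ t₂ t₃ t₄) = 0 := by
    intro v
    have h1 := hd a b c e t₁ t₂ t₃ t₄ v v v v
    have h2 : (fun s : ℝ => Q a b c e (t₁ + s * v) (t₂ + s * v) (t₃ + s * v) (t₄ + s * v))
        = fun _ => Q a b c e t₁ t₂ t₃ t₄ := by
      funext s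
      exact hi _ _ _ _ _ _ _ _ _
    rw [h2] at h1
    exact h1.unique (hasDerivAt_const _ _)
  have := lad_zero_imp (p := ![Q (a+1) b c e t₁ t₂ t₃ t₄, Q a (b+1) c e t₁ t₂ t₃ t₄,
    Q a b (c+1) e t₁ t₂ t₃ t₄, Q a b c (e+1) t₁ t₂ t₃ t₄])
    (m := ![Q (a-1) b c e t₁ t₂ t₃ t₄, Q a (b-1) c e t₁ t₂ t₃ t₄,
    Q a b (c-1) e t₁ t₂ t₃ t₄, Q a b c (e-1) t₁ t₂ t₃ t₄]) (by simpa using key)
  simpa using this

/-- The identity `(W₁+W₂)(W₂+W₃)(W₃+W₁) Q = 0`. -/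
lemma Inv4.cubic (hd : Der4 Q) (hi : Inv4 Q) (a b c e : ℤ) (t₁ t₂ t₃ t₄ : ℂ) :
    Q (a+2) (b+1) c e t₁ t₂ t₃ t₄ + Q (a+2) b (c+1) e t₁ t₂ t₃ t₄
    + Q (a+1) (b+2) c e t₁ t₂ t₃ t₄ + Q a (b+2) (c+1) e t₁ t₂ t₃ t₄
    + Q (a+1) b (c+2) e t₁ t₂ t₃ t₄ + Q a (b+1) (c+2) e t₁ t₂ t₃ t₄
    + 2 * Q (a+1) (b+1) (c+1) e t₁ t₂ t₃ t₄ = 0 := by
  -- at the point (a+1, b+1, c+1, e)
  obtain ⟨-, h1⟩ := Inv4.sum hd hi (a+1) (b+1) (c+1) (e+1) t₁ t₂ t₃ t₄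
  obtain ⟨h2, -⟩ := Inv4.sum hd hi a (b+1) (c+1) e t₁ t₂ t₃ t₄
  obtain ⟨h3, -⟩ := Inv4.sum hd hi (a+1) b (c+1) e t₁ t₂ t₃ t₄
  obtain ⟨h4, -⟩ := Inv4.sum hd hi (a+1) (b+1) c e t₁ t₂ t₃ t₄
  have e1 : a + 1 - 1 = a := by ring
  have e2 : b + 1 - 1 = b := by ring
  have e3 : c + 1 - 1 = c := by ring
  have e4 : e + 1 - 1 = e := by ring
  have e5 : a + 1 + 1 = a + 2 := by ring
  have e6 : b + 1 + 1 = b + 2 := by ring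
  have e7 : c + 1 + 1 = c + 2 := by ring
  rw [e1, e2, e3, e4] at h1
  rw [e6, e7] at h2
  rw [e5, e7] at h3
  rw [e5, e6] at h4
  linear_combination h2 + h3 + h4 - h1

/-- A ladder family annihilated by `W₁ + W₂` is invariant under joint translations of the first
two variables. -/
lemma shift12 (hd : Der4 Q)
    (h : ∀ a b c e t₁ t₂ t₃ t₄, Q (a+1) b c e t₁ t₂ t₃ t₄ + Q a (b+1) c e t₁ t₂ t₃ t₄ = 0)
    (a b c e : ℤ) (t₁ t₂ t₃ t₄ s : ℂ) :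
    Q a b c e (t₁ + s) (t₂ + s) t₃ t₄ = Q a b c e t₁ t₂ t₃ t₄ := by
  have key : ∀ r : ℝ, HasDerivAt
      (fun r : ℝ => Q a b c e (t₁ + r * s) (t₂ + r * s) (t₃ + r * 0) (t₄ + r * 0)) 0 r := by
    intro r
    have h1 := hd.at a b c e t₁ t₂ t₃ t₄ s s 0 0 r
    refine h1.congr_deriv ?_
    have h2 := h a b c e (t₁ + r * s) (t₂ + r * s) (t₃ + r * 0) (t₄ + r * 0)
    have h3 := h (a-1) (b-1) c e (t₁ + r * s) (t₂ + r * s) (t₃ + r * 0) (t₄ + r * 0)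
    rw [sub_add_cancel, sub_add_cancel] at h3
    simp only [lad, map_zero]
    linear_combination (starRingEnd ℂ s / 2) * h2 - (s / 2) * h3
  have := eq_of_hasDerivAt_zero key
  simpa using this

lemma shift23 (hd : Der4 Q)
    (h : ∀ a b c e t₁ t₂ t₃ t₄, Q a (b+1) c e t₁ t₂ t₃ t₄ + Q a b (c+1) e t₁ t₂ t₃ t₄ = 0)
    (a b c e : ℤ) (t₁ t₂ t₃ t₄ s : ℂ) :
    Q a b c e t₁ (t₂ + s) (t₃ + s) t₄ = Q a b c e t₁ t₂ t₃ t₄ := by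
  have key : ∀ r : ℝ, HasDerivAt
      (fun r : ℝ => Q a b c e (t₁ + r * 0) (t₂ + r * s) (t₃ + r * s) (t₄ + r * 0)) 0 r := by
    intro r
    have h1 := hd.at a b c e t₁ t₂ t₃ t₄ 0 s s 0 r
    refine h1.congr_deriv ?_
    have h2 := h a b c e (t₁ + r * 0) (t₂ + r * s) (t₃ + r * s) (t₄ + r * 0)
    have h3 := h a (b-1) (c-1) e (t₁ + r * 0) (t₂ + r * s) (t₃ + r * s) (t₄ + r * 0)
    rw [sub_add_cancel, sub_add_cancel] at h3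
    simp only [lad, map_zero]
    linear_combination (starRingEnd ℂ s / 2) * h2 - (s / 2) * h3
  have := eq_of_hasDerivAt_zero key
  simpa using this

lemma shift13 (hd : Der4 Q)
    (h : ∀ a b c e t₁ t₂ t₃ t₄, Q (a+1) b c e t₁ t₂ t₃ t₄ + Q a b (c+1) e t₁ t₂ t₃ t₄ = 0)
    (a b c e : ℤ) (t₁ t₂ t₃ t₄ s : ℂ) :
    Q a b c e (t₁ + s) t₂ (t₃ + s) t₄ = Q a b c e t₁ t₂ t₃ t₄ := by
  have key : ∀ r : ℝ, HasDerivAt
      (fun r : ℝ => Q a b c e (t₁ + r * s) (t₂ + r * 0) (t₃ + r * s) (t₄ + r * 0)) 0 r := by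
    intro r
    have h1 := hd.at a b c e t₁ t₂ t₃ t₄ s 0 s 0 r
    refine h1.congr_deriv ?_
    have h2 := h a b c e (t₁ + r * s) (t₂ + r * 0) (t₃ + r * s) (t₄ + r * 0)
    have h3 := h (a-1) b (c-1) e (t₁ + r * s) (t₂ + r * 0) (t₃ + r * s) (t₄ + r * 0)
    rw [sub_add_cancel, sub_add_cancel] at h3
    simp only [lad, map_zero]
    linear_combination (starRingEnd ℂ s / 2) * h2 - (s / 2) * h3
  have := eq_of_hasDerivAt_zero key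
  simpa using this

/-- averages over discs centred at the origin -/
noncomputable def avg (g : ℂ → ℂ) (R : ℝ) : ℂ := ⨍ s in Metric.ball (0:ℂ) R, g s

/-- the derivative rule is stable under finite linear combinations -/
lemma Der4.add {Q' : ℤ → ℤ → ℤ → ℤ → ℂ → ℂ → ℂ → ℂ → ℂ} (h : Der4 Q) (h' : Der4 Q') :
    Der4 (fun a b c e t₁ t₂ t₃ t₄ => Q a b c e t₁ t₂ t₃ t₄ + Q' a b c e t₁ t₂ t₃ t₄) := by
  intro a b c e t₁ t₂ t₃ t₄ v₁ v₂ v₃ v₄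
  refine ((h a b c e t₁ t₂ t₃ t₄ v₁ v₂ v₃ v₄).add
    (h' a b c e t₁ t₂ t₃ t₄ v₁ v₂ v₃ v₄)).congr_deriv ?_
  simp only [lad]; ring

lemma Der4.const_mul (h : Der4 Q) (k : ℂ) :
    Der4 (fun a b c e t₁ t₂ t₃ t₄ => k * Q a b c e t₁ t₂ t₃ t₄) := by
  intro a b c e t₁ t₂ t₃ t₄ v₁ v₂ v₃ v₄
  refine ((h a b c e t₁ t₂ t₃ t₄ v₁ v₂ v₃ v₄).const_mul k).congr_deriv ?_
  simp only [lad]; ring

lemma Der4.shift (h : Der4 Q) (i j k l : ℤ) :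
    Der4 (fun a b c e t₁ t₂ t₃ t₄ => Q (a+i) (b+j) (c+k) (e+l) t₁ t₂ t₃ t₄) := by
  intro a b c e t₁ t₂ t₃ t₄ v₁ v₂ v₃ v₄
  refine (h (a+i) (b+j) (c+k) (e+l) t₁ t₂ t₃ t₄ v₁ v₂ v₃ v₄).congr_deriv ?_
  have e1 : a + i + 1 = a + 1 + i := by ring
  have e2 : b + j + 1 = b + 1 + j := by ring
  have e3 : c + k + 1 = c + 1 + k := by ring
  have e4 : e + l + 1 = e + 1 + l := by ring
  have f1 : a + i - 1 = a - 1 + i := by ring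
  have f2 : b + j - 1 = b - 1 + j := by ring
  have f3 : c + k - 1 = c - 1 + k := by ring
  have f4 : e + l - 1 = e - 1 + l := by ring
  rw [e1, e2, e3, e4, f1, f2, f3, f4]

/-- **Core lemma.** A jointly translation invariant ladder family in four planar variables whose
means over joint translations of two of the first three variables all vanish is zero. -/
theorem core4 (hd : Der4 Q) (hi : Inv4 Q) (Z : (ℂ → ℂ) → Prop)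
    (hadd : ∀ g h, Z g → Z h → Z (fun s => g s + h s)) (hconst : ∀ k : ℂ, Z (fun _ => k) → k = 0)
    (h12 : ∀ a b c e t₁ t₂ t₃ t₄, Z (fun s => Q a b c e (t₁ + s) (t₂ + s) t₃ t₄))
    (h23 : ∀ a b c e t₁ t₂ t₃ t₄, Z (fun s => Q a b c e t₁ (t₂ + s) (t₃ + s) t₄))
    (h13 : ∀ a b c e t₁ t₂ t₃ t₄, Z (fun s => Q a b c e (t₁ + s) t₂ (t₃ + s) t₄))
    (a b c e : ℤ) (t₁ t₂ t₃ t₄ : ℂ) : Q a b c e t₁ t₂ t₃ t₄ = 0 := by
  -- step 1 : `u = B C Q` vanishes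
  have s1 : ∀ a b c e t₁ t₂ t₃ t₄, Q a (b+1) (c+1) e t₁ t₂ t₃ t₄ + Q (a+1) (b+1) c e t₁ t₂ t₃ t₄
      + (Q a b (c+2) e t₁ t₂ t₃ t₄ + Q (a+1) b (c+1) e t₁ t₂ t₃ t₄) = 0 := by
    set u : ℤ → ℤ → ℤ → ℤ → ℂ → ℂ → ℂ → ℂ → ℂ := fun a b c e t₁ t₂ t₃ t₄ =>
      Q a (b+1) (c+1) e t₁ t₂ t₃ t₄ + Q (a+1) (b+1) c e t₁ t₂ t₃ t₄
      + (Q a b (c+2) e t₁ t₂ t₃ t₄ + Q (a+1) b (c+1) e t₁ t₂ t₃ t₄) with hu
    have hud : Der4 u := by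
      have := (((hd.shift 0 1 1 0).add (hd.shift 1 1 0 0)).add
        ((hd.shift 0 0 2 0).add (hd.shift 1 0 1 0)))
      simpa only [add_zero] using this
    have hA : ∀ a b c e t₁ t₂ t₃ t₄, u (a+1) b c e t₁ t₂ t₃ t₄ + u a (b+1) c e t₁ t₂ t₃ t₄ = 0 := by
      intro a b c e t₁ t₂ t₃ t₄
      have h1 := Inv4.cubic hd hi a b c e t₁ t₂ t₃ t₄
      simp only [hu]
      have e5 : a + 1 + 1 = a + 2 := by ring
      have e6 : b + 1 + 1 = b + 2 := by ring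
      rw [e5, e6]
      linear_combination h1
    intro a b c e t₁ t₂ t₃ t₄
    have hs := shift12 hud hA a b c e t₁ t₂ t₃ t₄
    apply hconst
    have hz : Z (fun s => u a b c e (t₁ + s) (t₂ + s) t₃ t₄) :=
      hadd _ _ (hadd _ _ (h12 _ _ _ _ _ _ _ _) (h12 _ _ _ _ _ _ _ _))
        (hadd _ _ (h12 _ _ _ _ _ _ _ _) (h12 _ _ _ _ _ _ _ _))
    have : (fun s => u a b c e (t₁ + s) (t₂ + s) t₃ t₄) = fun _ => u a b c e t₁ t₂ t₃ t₄ := by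
      funext s; exact hs s
    rw [this] at hz
    exact hz
  -- step 2 : `C Q` vanishes
  have s2 : ∀ a b c e t₁ t₂ t₃ t₄, Q a b (c+1) e t₁ t₂ t₃ t₄ + Q (a+1) b c e t₁ t₂ t₃ t₄ = 0 := by
    set u : ℤ → ℤ → ℤ → ℤ → ℂ → ℂ → ℂ → ℂ → ℂ := fun a b c e t₁ t₂ t₃ t₄ =>
      Q a b (c+1) e t₁ t₂ t₃ t₄ + Q (a+1) b c e t₁ t₂ t₃ t₄ with hu
    have hud : Der4 u := by
      have := ((hd.shift 0 0 1 0).add (hd.shift 1 0 0 0))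
      simpa only [add_zero] using this
    have hB : ∀ a b c e t₁ t₂ t₃ t₄, u a (b+1) c e t₁ t₂ t₃ t₄ + u a b (c+1) e t₁ t₂ t₃ t₄ = 0 := by
      intro a b c e t₁ t₂ t₃ t₄
      have h1 := s1 a b c e t₁ t₂ t₃ t₄
      simp only [hu]
      have e7 : c + 1 + 1 = c + 2 := by ring
      rw [e7]
      linear_combination h1
    intro a b c e t₁ t₂ t₃ t₄
    have hs := shift23 hud hB a b c e t₁ t₂ t₃ t₄
    apply hconst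
    have hz : Z (fun s => u a b c e t₁ (t₂ + s) (t₃ + s) t₄) :=
      hadd _ _ (h23 _ _ _ _ _ _ _ _) (h23 _ _ _ _ _ _ _ _)
    have : (fun s => u a b c e t₁ (t₂ + s) (t₃ + s) t₄) = fun _ => u a b c e t₁ t₂ t₃ t₄ := by
      funext s; exact hs s
    rw [this] at hz
    exact hz
  -- step 3 : `Q` vanishes
  have hs := shift13 hd (fun a b c e t₁ t₂ t₃ t₄ => by
    rw [add_comm]; exact s2 a b c e t₁ t₂ t₃ t₄) a b c e t₁ t₂ t₃ t₄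
  apply hconst
  have hz := h13 a b c e t₁ t₂ t₃ t₄
  have : (fun s => Q a b c e (t₁ + s) t₂ (t₃ + s) t₄) = fun _ => Q a b c e t₁ t₂ t₃ t₄ := by
    funext s; exact hs s
  rw [this] at hz
  exact hz

end four

section three

variable (Q : ℤ → ℤ → ℤ → ℂ → ℂ → ℂ → ℂ)

/-- derivative rule in three variables -/
def Der3 : Prop := ∀ a b c t₁ t₂ t₃ v₁ v₂ v₃,
  HasDerivAt (fun s : ℝ => Q a b c (t₁ + s * v₁) (t₂ + s * v₂) (t₃ + s * v₃))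
    (lad v₁ (Q (a+1) b c t₁ t₂ t₃) (Q (a-1) b c t₁ t₂ t₃)
     + lad v₂ (Q a (b+1) c t₁ t₂ t₃) (Q a (b-1) c t₁ t₂ t₃)
     + lad v₃ (Q a b (c+1) t₁ t₂ t₃) (Q a b (c-1) t₁ t₂ t₃)) 0

variable {Q}

lemma Der3.at (h : Der3 Q) (a b c : ℤ) (t₁ t₂ t₃ v₁ v₂ v₃ : ℂ) (r : ℝ) :
    HasDerivAt (fun s : ℝ => Q a b c (t₁ + s * v₁) (t₂ + s * v₂) (t₃ + s * v₃))
    (lad v₁ (Q (a+1) b c (t₁ + r * v₁) (t₂ + r * v₂) (t₃ + r * v₃))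
        (Q (a-1) b c (t₁ + r * v₁) (t₂ + r * v₂) (t₃ + r * v₃))
     + lad v₂ (Q a (b+1) c (t₁ + r * v₁) (t₂ + r * v₂) (t₃ + r * v₃))
        (Q a (b-1) c (t₁ + r * v₁) (t₂ + r * v₂) (t₃ + r * v₃))
     + lad v₃ (Q a b (c+1) (t₁ + r * v₁) (t₂ + r * v₂) (t₃ + r * v₃))
        (Q a b (c-1) (t₁ + r * v₁) (t₂ + r * v₂) (t₃ + r * v₃))) r := by
  have h0 := h a b c (t₁ + r * v₁) (t₂ + r * v₂) (t₃ + r * v₃) v₁ v₂ v₃
  have h1 : HasDerivAt (fun s : ℝ => s - r) 1 r := (hasDerivAt_id r).sub_const r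
  have h2 := HasDerivAt.scomp_of_eq (x := r) (y := (0:ℝ)) h0 h1 (by simp)
  simp only [one_smul] at h2
  refine h2.congr_of_eventuallyEq ?_
  filter_upwards with s
  simp only [Function.comp]
  push_cast
  congr 1 <;> ring

/-- joint translation invariance -/
def Inv3 (Q : ℤ → ℤ → ℤ → ℂ → ℂ → ℂ → ℂ) : Prop := ∀ a b c t₁ t₂ t₃ s,
  Q a b c (t₁ + s) (t₂ + s) (t₃ + s) = Q a b c t₁ t₂ t₃

lemma Inv3.sum (hd : Der3 Q) (hi : Inv3 Q) (a b c : ℤ) (t₁ t₂ t₃ : ℂ) :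
    Q (a+1) b c t₁ t₂ t₃ + Q a (b+1) c t₁ t₂ t₃ + Q a b (c+1) t₁ t₂ t₃ = 0 ∧
    Q (a-1) b c t₁ t₂ t₃ + Q a (b-1) c t₁ t₂ t₃ + Q a b (c-1) t₁ t₂ t₃ = 0 := by
  have key : ∀ v, lad v (Q (a+1) b c t₁ t₂ t₃) (Q (a-1) b c t₁ t₂ t₃)
     + lad v (Q a (b+1) c t₁ t₂ t₃) (Q a (b-1) c t₁ t₂ t₃)
     + lad v (Q a b (c+1) t₁ t₂ t₃) (Q a b (c-1) t₁ t₂ t₃) = 0 := by
    intro v
    have h1 := hd a b c t₁ t₂ t₃ v v v
    have h2 : (fun s : ℝ => Q a b c (t₁ + s * v) (t₂ + s * v) (t₃ + s * v))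
        = fun _ => Q a b c t₁ t₂ t₃ := by
      funext s
      exact hi _ _ _ _ _ _ _
    rw [h2] at h1
    exact h1.unique (hasDerivAt_const _ _)
  have := lad_zero_imp (p := ![Q (a+1) b c t₁ t₂ t₃, Q a (b+1) c t₁ t₂ t₃,
    Q a b (c+1) t₁ t₂ t₃, 0])
    (m := ![Q (a-1) b c t₁ t₂ t₃, Q a (b-1) c t₁ t₂ t₃,
    Q a b (c-1) t₁ t₂ t₃, 0]) (by
      intro v
      have := key v
      simp only [lad] at this ⊢
      simpa using this)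
  simpa using this

/-- `(W₁² + W₁W₂ + W₂²) Q = 0` -/
lemma Inv3.quad (hd : Der3 Q) (hi : Inv3 Q) (a b c : ℤ) (t₁ t₂ t₃ : ℂ) :
    Q (a+2) b c t₁ t₂ t₃ + Q (a+1) (b+1) c t₁ t₂ t₃ + Q a (b+2) c t₁ t₂ t₃ = 0 := by
  obtain ⟨-, h1⟩ := Inv3.sum hd hi (a+1) (b+1) (c+1) t₁ t₂ t₃
  obtain ⟨h2, -⟩ := Inv3.sum hd hi a (b+1) c t₁ t₂ t₃
  obtain ⟨h3, -⟩ := Inv3.sum hd hi (a+1) b c t₁ t₂ t₃
  have e1 : a + 1 - 1 = a := by ring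
  have e2 : b + 1 - 1 = b := by ring
  have e3 : c + 1 - 1 = c := by ring
  have e5 : a + 1 + 1 = a + 2 := by ring
  have e6 : b + 1 + 1 = b + 2 := by ring
  rw [e1, e2, e3] at h1
  rw [e6] at h2
  rw [e5] at h3
  linear_combination h2 + h3 - h1

/-- a primitive cube root of unity -/
def IsZeta (ζ : ℂ) : Prop := ζ + starRingEnd ℂ ζ = -1 ∧ ζ * starRingEnd ℂ ζ = 1

lemma shiftζ {ζ : ℂ} (hζ : IsZeta ζ) (hd : Der3 Q)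
    (h : ∀ a b c t₁ t₂ t₃, Q (a+1) b c t₁ t₂ t₃ = ζ * Q a (b+1) c t₁ t₂ t₃)
    (a b c : ℤ) (t₁ t₂ t₃ s : ℂ) :
    Q a b c (t₁ + s) (t₂ - starRingEnd ℂ ζ * s) t₃ = Q a b c t₁ t₂ t₃ := by
  have key : ∀ r : ℝ, HasDerivAt
      (fun r : ℝ => Q a b c (t₁ + r * s) (t₂ + r * (-(starRingEnd ℂ ζ) * s)) (t₃ + r * 0)) 0 r := by
    intro r
    have h1 := hd.at a b c t₁ t₂ t₃ s (-(starRingEnd ℂ ζ) * s) 0 r
    refine h1.congr_deriv ?_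
    have h2 := h a b c (t₁ + r * s) (t₂ + r * (-(starRingEnd ℂ ζ) * s)) (t₃ + r * 0)
    have h3 := h (a-1) (b-1) c (t₁ + r * s) (t₂ + r * (-(starRingEnd ℂ ζ) * s)) (t₃ + r * 0)
    rw [sub_add_cancel, sub_add_cancel] at h3
    have hz := hζ.2
    simp only [lad, map_zero, map_mul, map_neg, conj_conj]
    rw [h2, h3]
    linear_combination (s / 2) * Q (a - 1) b c (t₁ + r * s) (t₂ + r * (-(starRingEnd ℂ ζ) * s))
      (t₃ + r * 0) * hz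
  have := eq_of_hasDerivAt_zero key
  simp only [ofReal_one, one_mul, mul_zero, add_zero, ofReal_zero, zero_mul] at this
  rw [← this]
  congr 1
  ring

/-- the derivative rule is stable under finite linear combinations -/
lemma Der3.add {Q' : ℤ → ℤ → ℤ → ℂ → ℂ → ℂ → ℂ} (h : Der3 Q) (h' : Der3 Q') :
    Der3 (fun a b c t₁ t₂ t₃ => Q a b c t₁ t₂ t₃ + Q' a b c t₁ t₂ t₃) := by
  intro a b c t₁ t₂ t₃ v₁ v₂ v₃
  refine ((h a b c t₁ t₂ t₃ v₁ v₂ v₃).add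
    (h' a b c t₁ t₂ t₃ v₁ v₂ v₃)).congr_deriv ?_
  simp only [lad]; ring

lemma Der3.const_mul (h : Der3 Q) (k : ℂ) :
    Der3 (fun a b c t₁ t₂ t₃ => k * Q a b c t₁ t₂ t₃) := by
  intro a b c t₁ t₂ t₃ v₁ v₂ v₃
  refine ((h a b c t₁ t₂ t₃ v₁ v₂ v₃).const_mul k).congr_deriv ?_
  simp only [lad]; ring

lemma Der3.shift (h : Der3 Q) (i j k : ℤ) :
    Der3 (fun a b c t₁ t₂ t₃ => Q (a+i) (b+j) (c+k) t₁ t₂ t₃) := by
  intro a b c t₁ t₂ t₃ v₁ v₂ v₃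
  refine (h (a+i) (b+j) (c+k) t₁ t₂ t₃ v₁ v₂ v₃).congr_deriv ?_
  have e1 : a + i + 1 = a + 1 + i := by ring
  have e2 : b + j + 1 = b + 1 + j := by ring
  have e3 : c + k + 1 = c + 1 + k := by ring
  have f1 : a + i - 1 = a - 1 + i := by ring
  have f2 : b + j - 1 = b - 1 + j := by ring
  have f3 : c + k - 1 = c - 1 + k := by ring
  rw [e1, e2, e3, f1, f2, f3]

/-- **Core lemma, three variables.** -/
theorem core3 {ζ : ℂ} (hζ : IsZeta ζ) (hd : Der3 Q) (hi : Inv3 Q) (Z : (ℂ → ℂ) → Prop)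
    (hadd : ∀ g h, Z g → Z h → Z (fun s => g s + h s))
    (hmul : ∀ (k : ℂ) g, Z g → Z (fun s => k * g s)) (hconst : ∀ k : ℂ, Z (fun _ => k) → k = 0)
    (h1 : ∀ a b c t₁ t₂ t₃, Z (fun s => Q a b c (t₁ + s) (t₂ - starRingEnd ℂ ζ * s) t₃))
    (h2 : ∀ a b c t₁ t₂ t₃, Z (fun s => Q a b c (t₁ + s) (t₂ - ζ * s) t₃))
    (a b c : ℤ) (t₁ t₂ t₃ : ℂ) : Q a b c t₁ t₂ t₃ = 0 := by
  have s1 : ∀ a b c t₁ t₂ t₃, Q (a+1) b c t₁ t₂ t₃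
      + -(starRingEnd ℂ ζ) * Q a (b+1) c t₁ t₂ t₃ = 0 := by
    set u : ℤ → ℤ → ℤ → ℂ → ℂ → ℂ → ℂ := fun a b c t₁ t₂ t₃ =>
      Q (a+1) b c t₁ t₂ t₃ + -(starRingEnd ℂ ζ) * Q a (b+1) c t₁ t₂ t₃ with hu
    have hud : Der3 u := by
      have := ((hd.shift 1 0 0).add ((hd.shift 0 1 0).const_mul (-(starRingEnd ℂ ζ))))
      simpa only [add_zero] using this
    have hA : ∀ a b c t₁ t₂ t₃, u (a+1) b c t₁ t₂ t₃ = ζ * u a (b+1) c t₁ t₂ t₃ := by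
      intro a b c t₁ t₂ t₃
      have h3 := Inv3.quad hd hi a b c t₁ t₂ t₃
      simp only [hu]
      have e5 : a + 1 + 1 = a + 2 := by ring
      have e6 : b + 1 + 1 = b + 2 := by ring
      rw [e5, e6]
      have z1 := hζ.1
      have z2 := hζ.2
      linear_combination h3 - Q (a+1) (b+1) c t₁ t₂ t₃ * z1 + Q a (b+2) c t₁ t₂ t₃ * z2
    intro a b c t₁ t₂ t₃
    have hs := shiftζ hζ hud hA a b c t₁ t₂ t₃
    apply hconst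
    have hz : Z (fun s => u a b c (t₁ + s) (t₂ - starRingEnd ℂ ζ * s) t₃) :=
      hadd _ _ (h1 _ _ _ _ _ _) (hmul _ _ (h1 _ _ _ _ _ _))
    have : (fun s => u a b c (t₁ + s) (t₂ - starRingEnd ℂ ζ * s) t₃)
        = fun _ => u a b c t₁ t₂ t₃ := by
      funext s; exact hs s
    rw [this] at hz
    exact hz
  have hζ' : IsZeta (starRingEnd ℂ ζ) := by
    refine ⟨?_, ?_⟩
    · rw [conj_conj, add_comm]; exact hζ.1
    · rw [conj_conj, mul_comm]; exact hζ.2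
  have hs := shiftζ hζ' hd (fun a b c t₁ t₂ t₃ => by
    have := s1 a b c t₁ t₂ t₃
    linear_combination this) a b c t₁ t₂ t₃
  rw [conj_conj] at hs
  apply hconst
  have hz := h2 a b c t₁ t₂ t₃
  have : (fun s => Q a b c (t₁ + s) (t₂ - ζ * s) t₃) = fun _ => Q a b c t₁ t₂ t₃ := by
    funext s; exact hs s
  rw [this] at hz
  exact hz

end three

end Berry
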