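import Pool.Agent.LibH11.Berry.Core

/-!
Core algebra for the general (non-ergodic) four-point function.
-/

open Complex Filter Topology MeasureTheory

namespace Berry

variable {Q M : ℤ → ℤ → ℤ → ℤ → ℂ → ℂ → ℂ → ℂ → ℂ}

/-- invariance under joint shifts of the first two variables kills `W₁ + W₂` -/
lemma kill12 (hd : Der4 Q)
    (h : ∀ a b c e t₁ t₂ t₃ t₄ s, Q a b c e (t₁ + s) (t₂ + s) t₃ t₄ = Q a b c e t₁ t₂ t₃ t₄)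
    (a b c e : ℤ) (t₁ t₂ t₃ t₄ : ℂ) :
    Q (a+1) b c e t₁ t₂ t₃ t₄ + Q a (b+1) c e t₁ t₂ t₃ t₄ = 0 := by
  have key : ∀ v, lad v (Q (a+1) b c e t₁ t₂ t₃ t₄) (Q (a-1) b c e t₁ t₂ t₃ t₄)
     + lad v (Q a (b+1) c e t₁ t₂ t₃ t₄) (Q a (b-1) c e t₁ t₂ t₃ t₄) = 0 := by
    intro v
    have h1 := hd a b c e t₁ t₂ t₃ t₄ v v 0 0
    have h2 : (fun s : ℝ => Q a b c e (t₁ + s * v) (t₂ + s * v) (t₃ + s * 0) (t₄ + s * 0))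
        = fun _ => Q a b c e t₁ t₂ t₃ t₄ := by
      funext s
      rw [mul_zero, add_zero, add_zero]
      exact h _ _ _ _ _ _ _ _ _
    rw [h2] at h1
    have h3 := h1.unique (hasDerivAt_const _ _)
    simpa [lad] using h3
  have := lad_zero_imp (p := ![Q (a+1) b c e t₁ t₂ t₃ t₄, Q a (b+1) c e t₁ t₂ t₃ t₄, 0, 0])
    (m := ![Q (a-1) b c e t₁ t₂ t₃ t₄, Q a (b-1) c e t₁ t₂ t₃ t₄, 0, 0]) (by
      intro v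
      have := key v
      simp only [lad] at this ⊢
      simpa using this)
  simpa using this.1

lemma kill23 (hd : Der4 Q)
    (h : ∀ a b c e t₁ t₂ t₃ t₄ s, Q a b c e t₁ (t₂ + s) (t₃ + s) t₄ = Q a b c e t₁ t₂ t₃ t₄)
    (a b c e : ℤ) (t₁ t₂ t₃ t₄ : ℂ) :
    Q a (b+1) c e t₁ t₂ t₃ t₄ + Q a b (c+1) e t₁ t₂ t₃ t₄ = 0 := by
  have key : ∀ v, lad v (Q a (b+1) c e t₁ t₂ t₃ t₄) (Q a (b-1) c e t₁ t₂ t₃ t₄)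
     + lad v (Q a b (c+1) e t₁ t₂ t₃ t₄) (Q a b (c-1) e t₁ t₂ t₃ t₄) = 0 := by
    intro v
    have h1 := hd a b c e t₁ t₂ t₃ t₄ 0 v v 0
    have h2 : (fun s : ℝ => Q a b c e (t₁ + s * 0) (t₂ + s * v) (t₃ + s * v) (t₄ + s * 0))
        = fun _ => Q a b c e t₁ t₂ t₃ t₄ := by
      funext s
      rw [mul_zero, add_zero, add_zero]
      exact h _ _ _ _ _ _ _ _ _
    rw [h2] at h1
    have h3 := h1.unique (hasDerivAt_const _ _)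
    simpa [lad] using h3
  have := lad_zero_imp (p := ![Q a (b+1) c e t₁ t₂ t₃ t₄, Q a b (c+1) e t₁ t₂ t₃ t₄, 0, 0])
    (m := ![Q a (b-1) c e t₁ t₂ t₃ t₄, Q a b (c-1) e t₁ t₂ t₃ t₄, 0, 0]) (by
      intro v
      have := key v
      simp only [lad] at this ⊢
      simpa using this)
  simpa using this.1

lemma kill13 (hd : Der4 Q)
    (h : ∀ a b c e t₁ t₂ t₃ t₄ s, Q a b c e (t₁ + s) t₂ (t₃ + s) t₄ = Q a b c e t₁ t₂ t₃ t₄)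
    (a b c e : ℤ) (t₁ t₂ t₃ t₄ : ℂ) :
    Q (a+1) b c e t₁ t₂ t₃ t₄ + Q a b (c+1) e t₁ t₂ t₃ t₄ = 0 := by
  have key : ∀ v, lad v (Q (a+1) b c e t₁ t₂ t₃ t₄) (Q (a-1) b c e t₁ t₂ t₃ t₄)
     + lad v (Q a b (c+1) e t₁ t₂ t₃ t₄) (Q a b (c-1) e t₁ t₂ t₃ t₄) = 0 := by
    intro v
    have h1 := hd a b c e t₁ t₂ t₃ t₄ v 0 v 0
    have h2 : (fun s : ℝ => Q a b c e (t₁ + s * v) (t₂ + s * 0) (t₃ + s * v) (t₄ + s * 0))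
        = fun _ => Q a b c e t₁ t₂ t₃ t₄ := by
      funext s
      rw [mul_zero, add_zero, add_zero]
      exact h _ _ _ _ _ _ _ _ _
    rw [h2] at h1
    have h3 := h1.unique (hasDerivAt_const _ _)
    simpa [lad] using h3
  have := lad_zero_imp (p := ![Q (a+1) b c e t₁ t₂ t₃ t₄, Q a b (c+1) e t₁ t₂ t₃ t₄, 0, 0])
    (m := ![Q (a-1) b c e t₁ t₂ t₃ t₄, Q a b (c-1) e t₁ t₂ t₃ t₄, 0, 0]) (by
      intro v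
      have := key v
      simp only [lad] at this ⊢
      simpa using this)
  simpa using this.1

/-- a zero-mean predicate -/
structure ZeroMean (Z : (ℂ → ℂ) → Prop) : Prop where
  add : ∀ g h, Z g → Z h → Z (fun s => g s + h s)
  mul : ∀ (k : ℂ) g, Z g → Z (fun s => k * g s)
  const : ∀ k : ℂ, Z (fun _ => k) → k = 0

/-- `BC (Q - M) = 0` if `M` is invariant under joint shifts of `t₁, t₂` and `Q - M` has zero mean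
along these shifts. -/
lemma quad_bc {Z : (ℂ → ℂ) → Prop} (hZ : ZeroMean Z) (hd : Der4 Q) (hi : Inv4 Q) (hM : Der4 M)
    (hMi : ∀ a b c e t₁ t₂ t₃ t₄ s, M a b c e (t₁ + s) (t₂ + s) t₃ t₄ = M a b c e t₁ t₂ t₃ t₄)
    (hz : ∀ a b c e t₁ t₂ t₃ t₄, Z (fun s => Q a b c e (t₁ + s) (t₂ + s) t₃ t₄
      + (-1) * M a b c e (t₁ + s) (t₂ + s) t₃ t₄))
    (a b c e : ℤ) (t₁ t₂ t₃ t₄ : ℂ) :
    (Q a (b+1) (c+1) e t₁ t₂ t₃ t₄ + Q (a+1) (b+1) c e t₁ t₂ t₃ t₄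
      + (Q a b (c+2) e t₁ t₂ t₃ t₄ + Q (a+1) b (c+1) e t₁ t₂ t₃ t₄))
    - (M a (b+1) (c+1) e t₁ t₂ t₃ t₄ + M (a+1) (b+1) c e t₁ t₂ t₃ t₄
      + (M a b (c+2) e t₁ t₂ t₃ t₄ + M (a+1) b (c+1) e t₁ t₂ t₃ t₄)) = 0 := by
  set u : ℤ → ℤ → ℤ → ℤ → ℂ → ℂ → ℂ → ℂ → ℂ := fun a b c e t₁ t₂ t₃ t₄ =>
      Q a (b+1) (c+1) e t₁ t₂ t₃ t₄ + Q (a+1) (b+1) c e t₁ t₂ t₃ t₄
      + (Q a b (c+2) e t₁ t₂ t₃ t₄ + Q (a+1) b (c+1) e t₁ t₂ t₃ t₄) with hu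
  have hud : Der4 u := by
    have := (((hd.shift 0 1 1 0).add (hd.shift 1 1 0 0)).add
        ((hd.shift 0 0 2 0).add (hd.shift 1 0 1 0)))
    simpa only [add_zero] using this
  have hA : ∀ a b c e t₁ t₂ t₃ t₄, u (a+1) b c e t₁ t₂ t₃ t₄ + u a (b+1) c e t₁ t₂ t₃ t₄ = 0 := by
    intro a b c e t₁ t₂ t₃ t₄
    have h1 := Inv4.cubic hd hi a b c e t₁ t₂ t₃ t₄
    simp only [hu]
    have e5 : a + 1 + 1 = a + 2 := by ring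
    have e6 : b + 1 + 1 = b + 2 := by ring
    rw [e5, e6]
    linear_combination h1
  have hs := shift12 hud hA a b c e t₁ t₂ t₃ t₄
  apply hZ.const
  have z := hZ.add _ _ (hZ.add _ _ (hz a (b+1) (c+1) e t₁ t₂ t₃ t₄)
    (hz (a+1) (b+1) c e t₁ t₂ t₃ t₄)) (hZ.add _ _ (hz a b (c+2) e t₁ t₂ t₃ t₄)
    (hz (a+1) b (c+1) e t₁ t₂ t₃ t₄))
  have e : (fun s => ((Q a (b+1) (c+1) e (t₁ + s) (t₂ + s) t₃ t₄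
        + (-1) * M a (b+1) (c+1) e (t₁ + s) (t₂ + s) t₃ t₄)
      + (Q (a+1) (b+1) c e (t₁ + s) (t₂ + s) t₃ t₄
        + (-1) * M (a+1) (b+1) c e (t₁ + s) (t₂ + s) t₃ t₄))
      + ((Q a b (c+2) e (t₁ + s) (t₂ + s) t₃ t₄ + (-1) * M a b (c+2) e (t₁ + s) (t₂ + s) t₃ t₄)
      + (Q (a+1) b (c+1) e (t₁ + s) (t₂ + s) t₃ t₄
        + (-1) * M (a+1) b (c+1) e (t₁ + s) (t₂ + s) t₃ t₄)))
      = fun _ => (Q a (b+1) (c+1) e t₁ t₂ t₃ t₄ + Q (a+1) (b+1) c e t₁ t₂ t₃ t₄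
      + (Q a b (c+2) e t₁ t₂ t₃ t₄ + Q (a+1) b (c+1) e t₁ t₂ t₃ t₄))
    - (M a (b+1) (c+1) e t₁ t₂ t₃ t₄ + M (a+1) (b+1) c e t₁ t₂ t₃ t₄
      + (M a b (c+2) e t₁ t₂ t₃ t₄ + M (a+1) b (c+1) e t₁ t₂ t₃ t₄)) := by
    funext s
    have h1 := hs s
    simp only [hu] at h1
    rw [hMi, hMi, hMi, hMi]
    linear_combination h1
  rw [e] at z
  exact z

/-- `AC (Q - M) = 0` for shifts of `t₂, t₃` -/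
lemma quad_ac {Z : (ℂ → ℂ) → Prop} (hZ : ZeroMean Z) (hd : Der4 Q) (hi : Inv4 Q) (hM : Der4 M)
    (hMi : ∀ a b c e t₁ t₂ t₃ t₄ s, M a b c e t₁ (t₂ + s) (t₃ + s) t₄ = M a b c e t₁ t₂ t₃ t₄)
    (hz : ∀ a b c e t₁ t₂ t₃ t₄, Z (fun s => Q a b c e t₁ (t₂ + s) (t₃ + s) t₄
      + (-1) * M a b c e t₁ (t₂ + s) (t₃ + s) t₄))
    (a b c e : ℤ) (t₁ t₂ t₃ t₄ : ℂ) :
    (Q (a+1) b (c+1) e t₁ t₂ t₃ t₄ + Q (a+2) b c e t₁ t₂ t₃ t₄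
      + (Q a (b+1) (c+1) e t₁ t₂ t₃ t₄ + Q (a+1) (b+1) c e t₁ t₂ t₃ t₄))
    - (M (a+1) b (c+1) e t₁ t₂ t₃ t₄ + M (a+2) b c e t₁ t₂ t₃ t₄
      + (M a (b+1) (c+1) e t₁ t₂ t₃ t₄ + M (a+1) (b+1) c e t₁ t₂ t₃ t₄)) = 0 := by
  set u : ℤ → ℤ → ℤ → ℤ → ℂ → ℂ → ℂ → ℂ → ℂ := fun a b c e t₁ t₂ t₃ t₄ =>
      Q (a+1) b (c+1) e t₁ t₂ t₃ t₄ + Q (a+2) b c e t₁ t₂ t₃ t₄
      + (Q a (b+1) (c+1) e t₁ t₂ t₃ t₄ + Q (a+1) (b+1) c e t₁ t₂ t₃ t₄) with hu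
  have hud : Der4 u := by
    have := (((hd.shift 1 0 1 0).add (hd.shift 2 0 0 0)).add
        ((hd.shift 0 1 1 0).add (hd.shift 1 1 0 0)))
    simpa only [add_zero] using this
  have hB : ∀ a b c e t₁ t₂ t₃ t₄, u a (b+1) c e t₁ t₂ t₃ t₄ + u a b (c+1) e t₁ t₂ t₃ t₄ = 0 := by
    intro a b c e t₁ t₂ t₃ t₄
    have h1 := Inv4.cubic hd hi a b c e t₁ t₂ t₃ t₄
    simp only [hu]
    have e6 : b + 1 + 1 = b + 2 := by ring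
    have e7 : c + 1 + 1 = c + 2 := by ring
    rw [e6, e7]
    linear_combination h1
  have hs := shift23 hud hB a b c e t₁ t₂ t₃ t₄
  apply hZ.const
  have z := hZ.add _ _ (hZ.add _ _ (hz (a+1) b (c+1) e t₁ t₂ t₃ t₄)
    (hz (a+2) b c e t₁ t₂ t₃ t₄)) (hZ.add _ _ (hz a (b+1) (c+1) e t₁ t₂ t₃ t₄)
    (hz (a+1) (b+1) c e t₁ t₂ t₃ t₄))
  have e : (fun s => ((Q (a+1) b (c+1) e t₁ (t₂ + s) (t₃ + s) t₄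
        + (-1) * M (a+1) b (c+1) e t₁ (t₂ + s) (t₃ + s) t₄)
      + (Q (a+2) b c e t₁ (t₂ + s) (t₃ + s) t₄
        + (-1) * M (a+2) b c e t₁ (t₂ + s) (t₃ + s) t₄))
      + ((Q a (b+1) (c+1) e t₁ (t₂ + s) (t₃ + s) t₄
        + (-1) * M a (b+1) (c+1) e t₁ (t₂ + s) (t₃ + s) t₄)
      + (Q (a+1) (b+1) c e t₁ (t₂ + s) (t₃ + s) t₄
        + (-1) * M (a+1) (b+1) c e t₁ (t₂ + s) (t₃ + s) t₄)))
      = fun _ => (Q (a+1) b (c+1) e t₁ t₂ t₃ t₄ + Q (a+2) b c e t₁ t₂ t₃ t₄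
      + (Q a (b+1) (c+1) e t₁ t₂ t₃ t₄ + Q (a+1) (b+1) c e t₁ t₂ t₃ t₄))
    - (M (a+1) b (c+1) e t₁ t₂ t₃ t₄ + M (a+2) b c e t₁ t₂ t₃ t₄
      + (M a (b+1) (c+1) e t₁ t₂ t₃ t₄ + M (a+1) (b+1) c e t₁ t₂ t₃ t₄)) := by
    funext s
    have h1 := hs s
    simp only [hu] at h1
    rw [hMi, hMi, hMi, hMi]
    linear_combination h1
  rw [e] at z
  exact z

/-- `AB (Q - M) = 0` for shifts of `t₁, t₃` -/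
lemma quad_ab {Z : (ℂ → ℂ) → Prop} (hZ : ZeroMean Z) (hd : Der4 Q) (hi : Inv4 Q) (hM : Der4 M)
    (hMi : ∀ a b c e t₁ t₂ t₃ t₄ s, M a b c e (t₁ + s) t₂ (t₃ + s) t₄ = M a b c e t₁ t₂ t₃ t₄)
    (hz : ∀ a b c e t₁ t₂ t₃ t₄, Z (fun s => Q a b c e (t₁ + s) t₂ (t₃ + s) t₄
      + (-1) * M a b c e (t₁ + s) t₂ (t₃ + s) t₄))
    (a b c e : ℤ) (t₁ t₂ t₃ t₄ : ℂ) :
    (Q (a+1) (b+1) c e t₁ t₂ t₃ t₄ + Q a (b+2) c e t₁ t₂ t₃ t₄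
      + (Q (a+1) b (c+1) e t₁ t₂ t₃ t₄ + Q a (b+1) (c+1) e t₁ t₂ t₃ t₄))
    - (M (a+1) (b+1) c e t₁ t₂ t₃ t₄ + M a (b+2) c e t₁ t₂ t₃ t₄
      + (M (a+1) b (c+1) e t₁ t₂ t₃ t₄ + M a (b+1) (c+1) e t₁ t₂ t₃ t₄)) = 0 := by
  set u : ℤ → ℤ → ℤ → ℤ → ℂ → ℂ → ℂ → ℂ → ℂ := fun a b c e t₁ t₂ t₃ t₄ =>
      Q (a+1) (b+1) c e t₁ t₂ t₃ t₄ + Q a (b+2) c e t₁ t₂ t₃ t₄
      + (Q (a+1) b (c+1) e t₁ t₂ t₃ t₄ + Q a (b+1) (c+1) e t₁ t₂ t₃ t₄) with hu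
  have hud : Der4 u := by
    have := (((hd.shift 1 1 0 0).add (hd.shift 0 2 0 0)).add
        ((hd.shift 1 0 1 0).add (hd.shift 0 1 1 0)))
    simpa only [add_zero] using this
  have hC : ∀ a b c e t₁ t₂ t₃ t₄, u (a+1) b c e t₁ t₂ t₃ t₄ + u a b (c+1) e t₁ t₂ t₃ t₄ = 0 := by
    intro a b c e t₁ t₂ t₃ t₄
    have h1 := Inv4.cubic hd hi a b c e t₁ t₂ t₃ t₄
    simp only [hu]
    have e6 : a + 1 + 1 = a + 2 := by ring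
    have e7 : c + 1 + 1 = c + 2 := by ring
    rw [e6, e7]
    linear_combination h1
  have hs := shift13 hud hC a b c e t₁ t₂ t₃ t₄
  apply hZ.const
  have z := hZ.add _ _ (hZ.add _ _ (hz (a+1) (b+1) c e t₁ t₂ t₃ t₄)
    (hz a (b+2) c e t₁ t₂ t₃ t₄)) (hZ.add _ _ (hz (a+1) b (c+1) e t₁ t₂ t₃ t₄)
    (hz a (b+1) (c+1) e t₁ t₂ t₃ t₄))
  have e : (fun s => ((Q (a+1) (b+1) c e (t₁ + s) t₂ (t₃ + s) t₄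
        + (-1) * M (a+1) (b+1) c e (t₁ + s) t₂ (t₃ + s) t₄)
      + (Q a (b+2) c e (t₁ + s) t₂ (t₃ + s) t₄
        + (-1) * M a (b+2) c e (t₁ + s) t₂ (t₃ + s) t₄))
      + ((Q (a+1) b (c+1) e (t₁ + s) t₂ (t₃ + s) t₄
        + (-1) * M (a+1) b (c+1) e (t₁ + s) t₂ (t₃ + s) t₄)
      + (Q a (b+1) (c+1) e (t₁ + s) t₂ (t₃ + s) t₄
        + (-1) * M a (b+1) (c+1) e (t₁ + s) t₂ (t₃ + s) t₄)))
      = fun _ => (Q (a+1) (b+1) c e t₁ t₂ t₃ t₄ + Q a (b+2) c e t₁ t₂ t₃ t₄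
      + (Q (a+1) b (c+1) e t₁ t₂ t₃ t₄ + Q a (b+1) (c+1) e t₁ t₂ t₃ t₄))
    - (M (a+1) (b+1) c e t₁ t₂ t₃ t₄ + M a (b+2) c e t₁ t₂ t₃ t₄
      + (M (a+1) b (c+1) e t₁ t₂ t₃ t₄ + M a (b+1) (c+1) e t₁ t₂ t₃ t₄)) := by
    funext s
    have h1 := hs s
    simp only [hu] at h1
    rw [hMi, hMi, hMi, hMi]
    linear_combination h1
  rw [e] at z
  exact z

/-- **Core lemma II.** If `AB D = BC D = CA D = 0`, and `D` has zero mean along `t₂ ↦ t₂ ± 2s`, then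
the sum of `2 D` over ... : `D` along the three joint shifts sums up to `2D` plus zero mean terms. -/
theorem core2 {D : ℤ → ℤ → ℤ → ℤ → ℂ → ℂ → ℂ → ℂ → ℂ} {Z : (ℂ → ℂ) → Prop} (hZ : ZeroMean Z)
    (hd : Der4 D)
    (hAB : ∀ a b c e t₁ t₂ t₃ t₄, D (a+1) (b+1) c e t₁ t₂ t₃ t₄ + D a (b+2) c e t₁ t₂ t₃ t₄
      + (D (a+1) b (c+1) e t₁ t₂ t₃ t₄ + D a (b+1) (c+1) e t₁ t₂ t₃ t₄) = 0)
    (hBC : ∀ a b c e t₁ t₂ t₃ t₄, D a (b+1) (c+1) e t₁ t₂ t₃ t₄ + D (a+1) (b+1) c e t₁ t₂ t₃ t₄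
      + (D a b (c+2) e t₁ t₂ t₃ t₄ + D (a+1) b (c+1) e t₁ t₂ t₃ t₄) = 0)
    (hCA : ∀ a b c e t₁ t₂ t₃ t₄, D (a+1) b (c+1) e t₁ t₂ t₃ t₄ + D (a+2) b c e t₁ t₂ t₃ t₄
      + (D a (b+1) (c+1) e t₁ t₂ t₃ t₄ + D (a+1) (b+1) c e t₁ t₂ t₃ t₄) = 0)
    (hp : ∀ a b c e t₁ t₂ t₃ t₄, Z (fun s => D a b c e t₁ (t₂ + 2 * s) t₃ t₄))
    (hm : ∀ a b c e t₁ t₂ t₃ t₄, Z (fun s => D a b c e t₁ (t₂ - 2 * s) t₃ t₄))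
    (a b c e : ℤ) (t₁ t₂ t₃ t₄ : ℂ) :
    Z (fun s => D a b c e (t₁ + s) (t₂ + s) t₃ t₄ + D a b c e t₁ (t₂ + s) (t₃ + s) t₄
      + D a b c e (t₁ + s) t₂ (t₃ + s) t₄ - 2 * D a b c e t₁ t₂ t₃ t₄) := by
  set uA : ℤ → ℤ → ℤ → ℤ → ℂ → ℂ → ℂ → ℂ → ℂ := fun a b c e t₁ t₂ t₃ t₄ =>
    D (a+1) b c e t₁ t₂ t₃ t₄ + D a (b+1) c e t₁ t₂ t₃ t₄ with huA
  set uB : ℤ → ℤ → ℤ → ℤ → ℂ → ℂ → ℂ → ℂ → ℂ := fun a b c e t₁ t₂ t₃ t₄ =>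
    D a (b+1) c e t₁ t₂ t₃ t₄ + D a b (c+1) e t₁ t₂ t₃ t₄ with huB
  set uC : ℤ → ℤ → ℤ → ℤ → ℂ → ℂ → ℂ → ℂ → ℂ := fun a b c e t₁ t₂ t₃ t₄ =>
    D a b (c+1) e t₁ t₂ t₃ t₄ + D (a+1) b c e t₁ t₂ t₃ t₄ with huC
  have dA : Der4 uA := by
    have := (hd.shift 1 0 0 0).add (hd.shift 0 1 0 0)
    simpa only [add_zero] using this
  have dB : Der4 uB := by
    have := (hd.shift 0 1 0 0).add (hd.shift 0 0 1 0)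
    simpa only [add_zero] using this
  have dC : Der4 uC := by
    have := (hd.shift 0 0 1 0).add (hd.shift 1 0 0 0)
    simpa only [add_zero] using this
  have n2 : ∀ z : ℤ, z + 1 + 1 = z + 2 := fun z => by ring
  -- invariances
  have A23 := shift23 dA (fun a b c e t₁ t₂ t₃ t₄ => by
    simp only [huA]; rw [n2]; linear_combination hAB a b c e t₁ t₂ t₃ t₄)
  have A13 := shift13 dA (fun a b c e t₁ t₂ t₃ t₄ => by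
    simp only [huA]; rw [n2]; linear_combination hCA a b c e t₁ t₂ t₃ t₄)
  have B12 := shift12 dB (fun a b c e t₁ t₂ t₃ t₄ => by
    simp only [huB]; rw [n2]; linear_combination hAB a b c e t₁ t₂ t₃ t₄)
  have B13 := shift13 dB (fun a b c e t₁ t₂ t₃ t₄ => by
    simp only [huB]; rw [n2]; linear_combination hBC a b c e t₁ t₂ t₃ t₄)
  have C12 := shift12 dC (fun a b c e t₁ t₂ t₃ t₄ => by
    simp only [huC]; rw [n2]; linear_combination hCA a b c e t₁ t₂ t₃ t₄)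
  have C23 := shift23 dC (fun a b c e t₁ t₂ t₃ t₄ => by
    simp only [huC]; rw [n2]; linear_combination hBC a b c e t₁ t₂ t₃ t₄)
  -- D in terms of uA, uB, uC
  have hD : ∀ t₁ t₂ t₃ t₄, 2 * D a b c e t₁ t₂ t₃ t₄ = uA a (b-1) c e t₁ t₂ t₃ t₄
      + uB a (b-1) c e t₁ t₂ t₃ t₄ - uC a (b-1) c e t₁ t₂ t₃ t₄ := by
    intro t₁ t₂ t₃ t₄
    simp only [huA, huB, huC, sub_add_cancel]; ring
  -- the non-invariant directions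
  have vA : ∀ s, uA a (b-1) c e (t₁ + s) (t₂ + s) t₃ t₄ = uA a (b-1) c e t₁ (t₂ + 2 * s) t₃ t₄ := by
    intro s
    have h1 := A13 a (b-1) c e t₁ (t₂ + s) (t₃ - s) t₄ s
    rw [sub_add_cancel] at h1
    have h2 := A23 a (b-1) c e t₁ (t₂ + s) (t₃ - s) t₄ s
    rw [sub_add_cancel] at h2
    rw [h1, ← h2]
    congr 1; ring
  have vB : ∀ s, uB a (b-1) c e t₁ (t₂ + s) (t₃ + s) t₄ = uB a (b-1) c e t₁ (t₂ + 2 * s) t₃ t₄ := by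
    intro s
    have h1 := B13 a (b-1) c e (t₁ - s) (t₂ + s) t₃ t₄ s
    rw [sub_add_cancel] at h1
    have h2 := B12 a (b-1) c e (t₁ - s) (t₂ + s) t₃ t₄ s
    rw [sub_add_cancel] at h2
    rw [h1, ← h2]
    congr 1; ring
  have vC : ∀ s, uC a (b-1) c e (t₁ + s) t₂ (t₃ + s) t₄ = uC a (b-1) c e t₁ (t₂ - 2 * s) t₃ t₄ := by
    intro s
    have h1 := C12 a (b-1) c e t₁ (t₂ - s) (t₃ + s) t₄ s
    rw [sub_add_cancel] at h1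
    have h2 := C23 a (b-1) c e t₁ (t₂ - 2 * s) t₃ t₄ s
    rw [h1, ← h2]
    congr 1; ring
  have zA : Z (fun s => uA a (b-1) c e t₁ (t₂ + 2 * s) t₃ t₄) :=
    hZ.add _ _ (hp _ _ _ _ _ _ _ _) (hp _ _ _ _ _ _ _ _)
  have zB : Z (fun s => uB a (b-1) c e t₁ (t₂ + 2 * s) t₃ t₄) :=
    hZ.add _ _ (hp _ _ _ _ _ _ _ _) (hp _ _ _ _ _ _ _ _)
  have zC : Z (fun s => uC a (b-1) c e t₁ (t₂ - 2 * s) t₃ t₄) :=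
    hZ.add _ _ (hm _ _ _ _ _ _ _ _) (hm _ _ _ _ _ _ _ _)
  have z := hZ.add _ _ (hZ.add _ _ (hZ.mul (1/2) _ zA) (hZ.mul (1/2) _ zB)) (hZ.mul (-(1/2)) _ zC)
  have e : (fun s => D a b c e (t₁ + s) (t₂ + s) t₃ t₄ + D a b c e t₁ (t₂ + s) (t₃ + s) t₄
      + D a b c e (t₁ + s) t₂ (t₃ + s) t₄ - 2 * D a b c e t₁ t₂ t₃ t₄)
      = fun s => (1/2 * uA a (b-1) c e t₁ (t₂ + 2 * s) t₃ t₄
        + 1/2 * uB a (b-1) c e t₁ (t₂ + 2 * s) t₃ t₄)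
        + -(1/2) * uC a (b-1) c e t₁ (t₂ - 2 * s) t₃ t₄ := by
    funext s
    have h1 := hD (t₁ + s) (t₂ + s) t₃ t₄
    have h2 := hD t₁ (t₂ + s) (t₃ + s) t₄
    have h3 := hD (t₁ + s) t₂ (t₃ + s) t₄
    have h4 := hD t₁ t₂ t₃ t₄
    rw [vA, B12 a (b-1) c e t₁ t₂ t₃ t₄ s, C12 a (b-1) c e t₁ t₂ t₃ t₄ s] at h1
    rw [vB, A23 a (b-1) c e t₁ t₂ t₃ t₄ s, C23 a (b-1) c e t₁ t₂ t₃ t₄ s] at h2
    rw [vC, A13 a (b-1) c e t₁ t₂ t₃ t₄ s, B13 a (b-1) c e t₁ t₂ t₃ t₄ s] at h3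
    linear_combination (1/2) * h1 + (1/2) * h2 + (1/2) * h3 - h4
  rw [e]; exact z

/-- the full set of hypotheses, for the four-point function `Q` and the three pairings -/
theorem core2' {Q M12 M23 M13 : ℤ → ℤ → ℤ → ℤ → ℂ → ℂ → ℂ → ℂ → ℂ}
    {Z : (ℂ → ℂ) → Prop} (hZ : ZeroMean Z) (hd : Der4 Q) (hi : Inv4 Q)
    (d12 : Der4 M12) (d23 : Der4 M23) (d13 : Der4 M13)
    (i12 : ∀ a b c e t₁ t₂ t₃ t₄ s,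
      M12 a b c e (t₁ + s) (t₂ + s) t₃ t₄ = M12 a b c e t₁ t₂ t₃ t₄)
    (i23 : ∀ a b c e t₁ t₂ t₃ t₄ s,
      M23 a b c e t₁ (t₂ + s) (t₃ + s) t₄ = M23 a b c e t₁ t₂ t₃ t₄)
    (i13 : ∀ a b c e t₁ t₂ t₃ t₄ s,
      M13 a b c e (t₁ + s) t₂ (t₃ + s) t₄ = M13 a b c e t₁ t₂ t₃ t₄)
    (z12 : ∀ a b c e t₁ t₂ t₃ t₄, Z (fun s => Q a b c e (t₁ + s) (t₂ + s) t₃ t₄
      + (-1) * M12 a b c e (t₁ + s) (t₂ + s) t₃ t₄))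
    (z23 : ∀ a b c e t₁ t₂ t₃ t₄, Z (fun s => Q a b c e t₁ (t₂ + s) (t₃ + s) t₄
      + (-1) * M23 a b c e t₁ (t₂ + s) (t₃ + s) t₄))
    (z13 : ∀ a b c e t₁ t₂ t₃ t₄, Z (fun s => Q a b c e (t₁ + s) t₂ (t₃ + s) t₄
      + (-1) * M13 a b c e (t₁ + s) t₂ (t₃ + s) t₄))
    (hp : ∀ a b c e t₁ t₂ t₃ t₄, Z (fun s => Q a b c e t₁ (t₂ + 2 * s) t₃ t₄
      + (-1) * M12 a b c e t₁ (t₂ + 2 * s) t₃ t₄ + (-1) * M23 a b c e t₁ (t₂ + 2 * s) t₃ t₄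
      + (-1) * M13 a b c e t₁ (t₂ + 2 * s) t₃ t₄))
    (hm : ∀ a b c e t₁ t₂ t₃ t₄, Z (fun s => Q a b c e t₁ (t₂ - 2 * s) t₃ t₄
      + (-1) * M12 a b c e t₁ (t₂ - 2 * s) t₃ t₄ + (-1) * M23 a b c e t₁ (t₂ - 2 * s) t₃ t₄
      + (-1) * M13 a b c e t₁ (t₂ - 2 * s) t₃ t₄))
    (a b c e : ℤ) (t₁ t₂ t₃ t₄ : ℂ) :
    Z (fun s => -(M23 a b c e (t₁ + s) (t₂ + s) t₃ t₄ + M13 a b c e (t₁ + s) (t₂ + s) t₃ t₄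
      + M12 a b c e t₁ (t₂ + s) (t₃ + s) t₄ + M13 a b c e t₁ (t₂ + s) (t₃ + s) t₄
      + M12 a b c e (t₁ + s) t₂ (t₃ + s) t₄ + M23 a b c e (t₁ + s) t₂ (t₃ + s) t₄)
      - 2 * (Q a b c e t₁ t₂ t₃ t₄ - M12 a b c e t₁ t₂ t₃ t₄ - M23 a b c e t₁ t₂ t₃ t₄
        - M13 a b c e t₁ t₂ t₃ t₄)) := by
  set D : ℤ → ℤ → ℤ → ℤ → ℂ → ℂ → ℂ → ℂ → ℂ := fun a b c e t₁ t₂ t₃ t₄ =>
    Q a b c e t₁ t₂ t₃ t₄ + (-1) * M12 a b c e t₁ t₂ t₃ t₄ + (-1) * M23 a b c e t₁ t₂ t₃ t₄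
      + (-1) * M13 a b c e t₁ t₂ t₃ t₄ with hD
  have hDd : Der4 D := ((hd.add (d12.const_mul (-1))).add (d23.const_mul (-1))).add
    (d13.const_mul (-1))
  have n2 : ∀ z : ℤ, z + 1 + 1 = z + 2 := fun z => by ring
  have k12 := kill12 d12 i12
  have k23 := kill23 d23 i23
  have k13 := kill13 d13 i13
  have hBC : ∀ a b c e t₁ t₂ t₃ t₄, D a (b+1) (c+1) e t₁ t₂ t₃ t₄
      + D (a+1) (b+1) c e t₁ t₂ t₃ t₄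
      + (D a b (c+2) e t₁ t₂ t₃ t₄ + D (a+1) b (c+1) e t₁ t₂ t₃ t₄) = 0 := by
    intro a b c e t₁ t₂ t₃ t₄
    have h1 := quad_bc hZ hd hi d12 i12 z12 a b c e t₁ t₂ t₃ t₄
    have h2 := k23 a b (c+1) e t₁ t₂ t₃ t₄
    have h3 := k23 (a+1) b c e t₁ t₂ t₃ t₄
    have h4 := k13 a (b+1) c e t₁ t₂ t₃ t₄
    have h5 := k13 a b (c+1) e t₁ t₂ t₃ t₄
    rw [n2] at h2 h5
    simp only [hD]
    linear_combination h1 - h2 - h3 - h4 - h5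
  have hCA : ∀ a b c e t₁ t₂ t₃ t₄, D (a+1) b (c+1) e t₁ t₂ t₃ t₄ + D (a+2) b c e t₁ t₂ t₃ t₄
      + (D a (b+1) (c+1) e t₁ t₂ t₃ t₄ + D (a+1) (b+1) c e t₁ t₂ t₃ t₄) = 0 := by
    intro a b c e t₁ t₂ t₃ t₄
    have h1 := quad_ac hZ hd hi d23 i23 z23 a b c e t₁ t₂ t₃ t₄
    have h2 := k12 a b (c+1) e t₁ t₂ t₃ t₄
    have h3 := k12 (a+1) b c e t₁ t₂ t₃ t₄
    have h4 := k13 (a+1) b c e t₁ t₂ t₃ t₄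
    have h5 := k13 a (b+1) c e t₁ t₂ t₃ t₄
    rw [n2] at h3 h4
    simp only [hD]
    linear_combination h1 - h2 - h3 - h4 - h5
  have hAB : ∀ a b c e t₁ t₂ t₃ t₄, D (a+1) (b+1) c e t₁ t₂ t₃ t₄ + D a (b+2) c e t₁ t₂ t₃ t₄
      + (D (a+1) b (c+1) e t₁ t₂ t₃ t₄ + D a (b+1) (c+1) e t₁ t₂ t₃ t₄) = 0 := by
    intro a b c e t₁ t₂ t₃ t₄
    have h1 := quad_ab hZ hd hi d13 i13 z13 a b c e t₁ t₂ t₃ t₄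
    have h2 := k12 a (b+1) c e t₁ t₂ t₃ t₄
    have h3 := k12 a b (c+1) e t₁ t₂ t₃ t₄
    have h4 := k23 (a+1) b c e t₁ t₂ t₃ t₄
    have h5 := k23 a (b+1) c e t₁ t₂ t₃ t₄
    rw [n2] at h2 h5
    simp only [hD]
    linear_combination h1 - h2 - h3 - h4 - h5
  have hmain := core2 hZ hDd hAB hBC hCA hp hm a b c e t₁ t₂ t₃ t₄
  have z := hZ.add _ _ (hZ.add _ _ (hZ.add _ _ hmain
    (hZ.mul (-1) _ (z12 a b c e t₁ t₂ t₃ t₄)))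
    (hZ.mul (-1) _ (z23 a b c e t₁ t₂ t₃ t₄))) (hZ.mul (-1) _ (z13 a b c e t₁ t₂ t₃ t₄))
  convert z using 2 with s
  simp only [hD]
  ring

end Berry
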