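import Pool.Agent.LibH11.Berry.MV

/-!
Deterministic local estimates for functions with `|Δ f| ≤ Λ |f|`: the values and the modulus of
continuity are controlled by a local `L⁴` norm.
-/

open Complex Filter Topology MeasureTheory Metric InnerProductSpace Laplacian
open scoped ENNReal Pointwise

namespace Berry

noncomputable section

/-- fourth power of the `L⁴` norm on a ball -/
def N4 (f : ℂ → ℝ) (t : ℂ) (r : ℝ) : ℝ := ∫ y in ball t r, f y ^ 4

/-- fourth root -/
def rt4 (x : ℝ) : ℝ := √(√x)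

lemma rt4_nonneg (x : ℝ) : 0 ≤ rt4 x := Real.sqrt_nonneg _

lemma rt4_pow {x : ℝ} (hx : 0 ≤ x) : rt4 x ^ 4 = x := by
  unfold rt4
  have h1 : √(√x) ^ 2 = √x := Real.sq_sqrt (Real.sqrt_nonneg _)
  have h2 : √x ^ 2 = x := Real.sq_sqrt hx
  calc √(√x) ^ 4 = (√(√x) ^ 2) ^ 2 := by ring
    _ = x := by rw [h1, h2]

lemma rt4_mono {x y : ℝ} (h : x ≤ y) : rt4 x ≤ rt4 y := Real.sqrt_le_sqrt (Real.sqrt_le_sqrt h)

lemma rt4_continuous : Continuous rt4 := Real.continuous_sqrt.comp Real.continuous_sqrt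

lemma N4_nonneg (f : ℂ → ℝ) (t : ℂ) (r : ℝ) : 0 ≤ N4 f t r :=
  integral_nonneg fun y => by positivity

lemma intBall {f : ℂ → ℝ} (hf : Continuous f) (t : ℂ) (r : ℝ) : IntegrableOn f (ball t r) :=
  (hf.continuousOn.integrableOn_compact (isCompact_closedBall t r)).mono_set ball_subset_closedBall

lemma N4_mono {f : ℂ → ℝ} (hf : Continuous f) {t t' : ℂ} {r r' : ℝ}
    (h : ball t r ⊆ ball t' r') : N4 f t r ≤ N4 f t' r' :=
  setIntegral_mono_set (intBall (hf.pow 4) t' r') (Eventually.of_forall fun y => by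
    simp only [Pi.zero_apply]; positivity) h.eventuallyLE

lemma cs_set {S : Set ℂ} (hS : volume S ≠ ∞) {g : ℂ → ℝ} (hg : IntegrableOn g S)
    (hg2 : IntegrableOn (fun z => g z ^ 2) S) :
    (∫ z in S, g z) ^ 2 ≤ (volume : Measure ℂ).real S * ∫ z in S, g z ^ 2 := by
  set V := (volume : Measure ℂ).real S with hV
  have hV0 : 0 ≤ V := measureReal_nonneg
  set A := ∫ z in S, g z with hA
  set Q := ∫ z in S, g z ^ 2 with hQ
  have hQ0 : 0 ≤ Q := integral_nonneg fun z => sq_nonneg _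
  have key : ∀ k : ℝ, 0 ≤ Q - 2 * k * A + k ^ 2 * V := by
    intro k
    have h1 : ∫ z in S, (g z - k) ^ 2 = Q - 2 * k * A + k ^ 2 * V := by
      have e : ∀ z, (g z - k) ^ 2 = g z ^ 2 - 2 * k * g z + k ^ 2 := fun z => by ring
      simp only [e]
      have i1 : IntegrableOn (fun z => 2 * k * g z) S := hg.const_mul _
      have i2 : IntegrableOn (fun z => g z ^ 2 - 2 * k * g z) S := hg2.sub i1
      have i3 : IntegrableOn (fun _ : ℂ => k ^ 2) S := by
        rw [integrableOn_const_iff]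
        exact Or.inr (lt_top_iff_ne_top.2 hS)
      rw [integral_add i2 i3, integral_sub hg2 i1, integral_const_mul, setIntegral_const,
        smul_eq_mul]
      ring
    rw [← h1]
    exact integral_nonneg fun z => sq_nonneg _
  rcases hV0.eq_or_lt with h0 | hpos
  · -- null set
    have hA0 : A = 0 := by
      have : volume S = 0 := by
        rw [hV, Measure.real, eq_comm, ENNReal.toReal_eq_zero_iff] at h0
        exact h0.resolve_right hS
      rw [hA, Measure.restrict_eq_zero.2 this, integral_zero_measure]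
    rw [hA0]
    have : 0 ≤ V * Q := mul_nonneg hV0 hQ0
    simpa using this
  · have h2 := key (A / V)
    have h3 : Q - 2 * (A / V) * A + (A / V) ^ 2 * V = Q - A ^ 2 / V := by
      field_simp; ring
    rw [h3] at h2
    have h4 : A ^ 2 / V ≤ Q := by linarith
    rw [div_le_iff₀ hpos] at h4
    linarith

/-- scaling of the local norm -/
lemma N4_scale (f : ℂ → ℝ) (t : ℂ) {s : ℝ} (hs : 0 < s) (a : ℝ) :
    ∫ z in ball (0:ℂ) a, f (t + s • z) ^ 4 = (s ^ 2)⁻¹ * N4 f t (a * s) := by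
  have h1 := Measure.setIntegral_comp_smul_of_pos (volume : Measure ℂ)
    (fun z => f (t + z) ^ 4) (ball (0:ℂ) a) hs
  rw [Complex.finrank_real_complex, smul_eq_mul] at h1
  rw [h1]
  congr 1
  have h2 : s • ball (0:ℂ) a = ball (0:ℂ) (a * s) := by
    rw [_root_.smul_ball hs.ne', smul_zero, Real.norm_of_nonneg hs.le, mul_comm]
  rw [h2]
  unfold N4
  have h3 := (measurePreserving_add_left (volume : Measure ℂ) t).setIntegral_preimage_emb
    (MeasurableEquiv.addLeft t).measurableEmbedding (fun z => f z ^ 4) (ball t (a * s))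
  rw [← h3]
  congr 2
  ext z
  simp [mem_ball, dist_eq_norm]

/-- the mean of `|f|` over a small ball in terms of the `L⁴` norm -/
lemma mean_le {f : ℂ → ℝ} (hf : Continuous f) (t : ℂ) {s : ℝ} (hs : 0 < s) {a A : ℝ}
    (hA : 0 ≤ A) (hN : N4 f t (a * s) ≤ A ^ 4) :
    ∫ z in ball (0:ℂ) a, |f (t + s • z)|
      ≤ ((volume : Measure ℂ).real (ball (0:ℂ) a) + 1) * A / √s := by
  set V := (volume : Measure ℂ).real (ball (0:ℂ) a) with hV
  have hV0 : 0 ≤ V := measureReal_nonneg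
  have hg : Continuous fun z : ℂ => |f (t + s • z)| := (hf.comp (by fun_prop)).abs
  set I1 := ∫ z in ball (0:ℂ) a, |f (t + s • z)| with hI1
  have hI10 : 0 ≤ I1 := integral_nonneg fun z => abs_nonneg _
  have hfin : (volume : Measure ℂ) (ball (0:ℂ) a) ≠ ∞ := measure_ball_lt_top.ne
  have h1 := cs_set hfin (intBall hg 0 a) (intBall (hg.pow 2) 0 a)
  have hg2 : Continuous fun z : ℂ => |f (t + s • z)| ^ 2 := hg.pow 2
  have h2 := cs_set (g := fun z : ℂ => |f (t + s • z)| ^ 2) hfin (intBall hg2 0 a)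
    (intBall (hg2.pow 2) 0 a)
  have e2 : ∫ z in ball (0:ℂ) a, (|f (t + s • z)| ^ 2) ^ 2 = (s ^ 2)⁻¹ * N4 f t (a * s) := by
    rw [← N4_scale f t hs a]
    congr 1; funext z
    rw [← pow_mul]
    show |f (t + s • z)| ^ 4 = _
    rw [← abs_pow, abs_of_nonneg (by positivity)]
  rw [e2] at h2
  set I2 := ∫ z in ball (0:ℂ) a, |f (t + s • z)| ^ 2 with hI2
  have hI20 : 0 ≤ I2 := integral_nonneg fun z => sq_nonneg _
  have hs2 : 0 < s ^ 2 := by positivity
  have h3 : I1 ^ 4 ≤ V ^ 3 * ((s ^ 2)⁻¹ * A ^ 4) := by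
    calc I1 ^ 4 = (I1 ^ 2) ^ 2 := by ring
      _ ≤ (V * I2) ^ 2 := pow_le_pow_left₀ (sq_nonneg _) h1 2
      _ = V ^ 2 * I2 ^ 2 := by ring
      _ ≤ V ^ 2 * (V * ((s ^ 2)⁻¹ * N4 f t (a * s))) :=
          mul_le_mul_of_nonneg_left h2 (by positivity)
      _ ≤ V ^ 2 * (V * ((s ^ 2)⁻¹ * A ^ 4)) := by gcongr
      _ = V ^ 3 * ((s ^ 2)⁻¹ * A ^ 4) := by ring
  have hsq : √s ^ 2 = s := Real.sq_sqrt hs.le
  have hsp : 0 < √s := Real.sqrt_pos.2 hs
  have h4 : I1 ^ 4 ≤ ((V + 1) * A / √s) ^ 4 := by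
    refine h3.trans ?_
    have e3 : ((V + 1) * A / √s) ^ 4 = (V + 1) ^ 4 * ((s ^ 2)⁻¹ * A ^ 4) := by
      have : √s ^ 4 = s ^ 2 := by
        calc √s ^ 4 = (√s ^ 2) ^ 2 := by ring
          _ = s ^ 2 := by rw [hsq]
      rw [div_pow, mul_pow, this]
      field_simp
    rw [e3]
    have h5 : V ^ 3 ≤ (V + 1) ^ 4 := by nlinarith [pow_nonneg hV0 2, pow_nonneg hV0 3, pow_nonneg hV0 4]
    gcongr
  exact le_of_pow_le_pow_left₀ (by norm_num) (by positivity) h4

end

end Berry
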