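import Pool.Agent.LibH11.Berry.Equi

/-!
Equicontinuity of correlations of approximate solutions of the Helmholtz equation: conclusion.
-/

open Complex Filter Topology MeasureTheory Metric InnerProductSpace Laplacian
open scoped ENNReal

namespace Berry

noncomputable section

variable {Ω : Type*} [MeasurableSpace Ω] {P : Measure Ω} [IsProbabilityMeasure P]

lemma trans_mod {η : ℝ} (hη : 0 < η) : ∃ d > 0, ∀ h : ℂ, ‖h‖ < d →
    ∫ z, |bet z - bet (z - h)| ≤ η := by
  set V := (volume : Measure ℂ).real (closedBall (0:ℂ) 2) with hV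
  have hV0 : 0 ≤ V := measureReal_nonneg
  have huc : UniformContinuous bet := bet_hcs.uniformContinuous_of_continuous bet_continuous
  obtain ⟨d, hd, h⟩ := Metric.uniformContinuous_iff.1 huc (η / (V + 1)) (by positivity)
  refine ⟨min d 1, by positivity, fun h0 hh => ?_⟩
  have h1 : ‖h0‖ < d := lt_of_lt_of_le hh (min_le_left _ _)
  have h2 : ‖h0‖ < 1 := lt_of_lt_of_le hh (min_le_right _ _)
  have hz : ∀ z : ℂ, z ∉ closedBall (0:ℂ) 2 → |bet z - bet (z - h0)| = 0 := by
    intro z hz
    rw [mem_closedBall, dist_zero_right, not_le] at hz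
    have a1 : bet z = 0 := bet_zero (by
      rw [mem_closedBall, dist_zero_right, not_le]; linarith)
    have a2 : bet (z - h0) = 0 := bet_zero (by
      rw [mem_closedBall, dist_zero_right, not_le]
      have := norm_sub_norm_le z h0
      linarith)
    rw [a1, a2]; simp
  rw [← setIntegral_eq_integral_of_forall_compl_eq_zero hz]
  have hc : Continuous fun z => |bet z - bet (z - h0)| :=
    (bet_continuous.sub (bet_continuous.comp (by fun_prop))).abs
  have hle : ∀ z, |bet z - bet (z - h0)| ≤ η / (V + 1) := by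
    intro z
    have := @h z (z - h0) (by rw [dist_eq_norm]; simpa using h1)
    rw [Real.dist_eq] at this
    exact this.le
  calc ∫ z in closedBall (0:ℂ) 2, |bet z - bet (z - h0)|
      ≤ ∫ z in closedBall (0:ℂ) 2, η / (V + 1) := by
        refine integral_mono (hc.continuousOn.integrableOn_compact (isCompact_closedBall (0:ℂ) 2))
          ?_ hle
        exact continuous_const.continuousOn.integrableOn_compact (isCompact_closedBall (0:ℂ) 2)
    _ = V * (η / (V + 1)) := by
        rw [setIntegral_const, smul_eq_mul]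
    _ ≤ η := by
        rw [mul_div_assoc', div_le_iff₀ (by positivity)]
        nlinarith

/-- continuity of correlations -/
lemma corr_continuous {F : ℂ → Ω → ℝ} (hF : SingleW P F) {G : Ω → ℝ} (hG : Measurable G)
    (hGb : ∃ K : ℝ, ∀ ω, |G ω| ≤ K) : Continuous fun y => ∫ ω, F y ω * G ω ∂P := by
  obtain ⟨K, hK⟩ := hF.bdd
  obtain ⟨K', hK'⟩ := hGb
  refine continuous_of_dominated (bound := fun _ => K * K') ?_ ?_ (integrable_const _) ?_
  · intro y; exact ((hF.meas y).mul hG).aestronglyMeasurable
  · intro y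
    refine Eventually.of_forall fun ω => ?_
    rw [norm_mul, Real.norm_eq_abs, Real.norm_eq_abs]
    exact mul_le_mul (hK _ _) (hK' _) (abs_nonneg _) ((abs_nonneg _).trans (hK y ω))
  · refine Eventually.of_forall fun ω => ?_
    exact (hF.smooth ω).continuous.mul continuous_const

/-- **equicontinuity** of correlations -/
lemma equi {M : ℝ} (hM0 : 0 ≤ M) {η : ℝ} (hη : 0 < η) : ∃ d > 0,
    ∀ (F : ℂ → Ω → ℝ), SingleW P F → ∀ (G : Ω → ℝ), Measurable G → (∃ K : ℝ, ∀ ω, |G ω| ≤ K) →
      (∀ y, ∫ ω, |F y ω| * |G ω| ∂P ≤ M) → ∀ (r δ : ℝ), 0 ≤ δ → δ ≤ 1 →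
      (∀ ω, ∀ x ∈ ball (0:ℂ) r, |(Δ (fun x => F x ω)) x + F x ω| ≤ δ * |F x ω|) →
      ∀ t t' : ℂ, ‖t‖ + 1 < r → ‖t'‖ + 1 < r → ‖t - t'‖ < d →
      |(∫ ω, F t ω * G ω ∂P) - ∫ ω, F t' ω * G ω ∂P| ≤ η := by
  have hk : 0 < -kap := by have := kap_neg; linarith
  set κ := -kap with hκ
  -- choose ε
  obtain ⟨ε, hε0, hε1, hε⟩ : ∃ ε : ℝ, 0 < ε ∧ ε ≤ 1 ∧ 2 * (M * kPhi * (ε ^ 2 / 2)) ≤ κ * η / 4 := by
    set A := M * kPhi with hA
    have hA0 : 0 ≤ A := mul_nonneg hM0 kPhi_nonneg
    refine ⟨min 1 (κ * η / (4 * (A + 1))), by positivity, min_le_left _ _, ?_⟩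
    set e := min 1 (κ * η / (4 * (A + 1))) with he
    have h1 : e ≤ 1 := min_le_left _ _
    have h2 : e ≤ κ * η / (4 * (A + 1)) := min_le_right _ _
    have h3 : 0 ≤ e := by positivity
    rw [le_div_iff₀ (by positivity)] at h2
    nlinarith [mul_nonneg hA0 h3]
  obtain ⟨d, hd, hT⟩ := trans_mod (η := κ * η / (4 * (M + 1))) (by positivity)
  refine ⟨ε * d, by positivity, ?_⟩
  intro F hF G hG hGb hM r δ hδ0 hδ1 heq t t' ht ht' htt
  set k : ℂ → ℝ := fun y => ∫ ω, F y ω * G ω ∂P with hkdef
  have hkc : Continuous k := corr_continuous hF hG hGb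
  have hkb : ∀ y, |k y| ≤ M := by
    intro y
    refine le_trans ?_ (hM y)
    rw [← Real.norm_eq_abs]
    refine (norm_integral_le_integral_norm _).trans (le_of_eq ?_)
    congr 1; funext ω; rw [norm_mul, Real.norm_eq_abs, Real.norm_eq_abs]
  have m1 := mean_estimate hF hG hGb hM hδ0 heq hε0.le (t := t) (by linarith)
  have m2 := mean_estimate hF hG hGb hM hδ0 heq hε0.le (t := t') (by linarith)
  have hq : (1 + δ) * (M * kPhi * (ε ^ 2 / 2)) ≤ κ * η / 4 := by
    refine le_trans ?_ hε
    have : 0 ≤ M * kPhi * (ε ^ 2 / 2) := by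
      have := mul_nonneg hM0 kPhi_nonneg
      positivity
    nlinarith
  -- difference of the means
  set h : ℂ := (1 / ε : ℝ) • (t' - t) with hh
  have hhn : ‖h‖ < d := by
    rw [hh, norm_smul, Real.norm_of_nonneg (by positivity), one_div, inv_mul_lt_iff₀ hε0,
      norm_sub_rev]
    exact htt
  have hsm : |(∫ z, bet z * k (t + ε • z)) - ∫ z, bet z * k (t' + ε • z)| ≤ κ * η / 4 := by
    have e1 : ∫ z, bet z * k (t' + ε • z) = ∫ z, bet (z - h) * k (t + ε • z) := by
      rw [← integral_sub_right_eq_self (fun z => bet z * k (t' + ε • z)) h]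
      congr 1
      funext z
      congr 2
      have : ε • h = t' - t := by
        rw [hh, smul_smul, mul_one_div_cancel hε0.ne', one_smul]
      rw [smul_sub, this]; ring
    have hck : Continuous fun z : ℂ => k (t + ε • z) := hkc.comp (by fun_prop)
    have hcb : Continuous fun z : ℂ => bet (z - h) := bet_continuous.comp (by fun_prop)
    have hcs : HasCompactSupport fun z : ℂ => bet (z - h) := by
      apply HasCompactSupport.intro (isCompact_closedBall h 1)
      intro z hz
      apply bet_zero
      rw [mem_closedBall, dist_eq_norm] at hz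
      rw [mem_closedBall, dist_zero_right]
      exact hz
    have i1 : Integrable fun z : ℂ => bet z * k (t + ε • z) :=
      (bet_continuous.mul hck).integrable_of_hasCompactSupport bet_hcs.mul_right
    have i2 : Integrable fun z : ℂ => bet (z - h) * k (t + ε • z) :=
      (hcb.mul hck).integrable_of_hasCompactSupport hcs.mul_right
    rw [e1, ← integral_sub i1 i2]
    have j1 : Integrable bet := bet_continuous.integrable_of_hasCompactSupport bet_hcs
    have j2 : Integrable fun z : ℂ => bet (z - h) := hcb.integrable_of_hasCompactSupport hcs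
    have h5 : ‖∫ z, (bet z * k (t + ε • z) - bet (z - h) * k (t + ε • z))‖
        ≤ ∫ z, |bet z - bet (z - h)| * M := by
      refine norm_integral_le_of_norm_le ((j1.sub j2).norm.mul_const M) ?_
      refine Eventually.of_forall fun z => ?_
      rw [← sub_mul, norm_mul, Real.norm_eq_abs, Real.norm_eq_abs]
      exact mul_le_mul_of_nonneg_left (hkb _) (abs_nonneg _)
    rw [Real.norm_eq_abs] at h5
    refine h5.trans ?_
    rw [integral_mul_const]
    calc (∫ z, |bet z - bet (z - h)|) * M ≤ (κ * η / (4 * (M + 1))) * M :=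
          mul_le_mul_of_nonneg_right (hT h hhn) hM0
      _ ≤ κ * η / 4 := by
          rw [div_mul_eq_mul_div, div_le_div_iff₀ (by positivity) (by norm_num)]
          have : 0 ≤ κ * η := by positivity
          nlinarith
  have hfin : κ * |k t - k t'| ≤ κ * η := by
    have e : κ * |k t - k t'| = |kap * k t - kap * k t'| := by
      rw [← mul_sub, abs_mul, hκ, abs_of_neg kap_neg]
    rw [e]
    have e2 : kap * k t - kap * k t' = (kap * k t - ∫ z, bet z * k (t + ε • z))
        + ((∫ z, bet z * k (t + ε • z)) - ∫ z, bet z * k (t' + ε • z))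
        - (kap * k t' - ∫ z, bet z * k (t' + ε • z)) := by ring
    rw [e2]
    have t1 := abs_sub ((kap * k t - ∫ z, bet z * k (t + ε • z))
        + ((∫ z, bet z * k (t + ε • z)) - ∫ z, bet z * k (t' + ε • z)))
        (kap * k t' - ∫ z, bet z * k (t' + ε • z))
    have t2 := abs_add_le (kap * k t - ∫ z, bet z * k (t + ε • z))
        ((∫ z, bet z * k (t + ε • z)) - ∫ z, bet z * k (t' + ε • z))
    have m1' := m1.trans hq
    have m2' := m2.trans hq
    have hκη : 0 ≤ κ * η := by positivity
    linarith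
  exact le_of_mul_le_mul_left hfin hk

end

end Berry
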