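import Pool.Agent.LibH11.Berry.Det
import Pool.Agent.LibH11.Berry.Equi2

/-!
Deterministic local estimates: conclusion.
-/

open Complex Filter Topology MeasureTheory Metric InnerProductSpace Laplacian
open scoped ENNReal Pointwise

namespace Berry

noncomputable section

/-- the error term in the mean value formula -/
lemma err_le {CP : ℝ} (hCP : ∀ z, |Phi z| ≤ CP) {f : ℂ → ℝ} (hf : ContDiff ℝ 2 f) {t₀ : ℂ}
    {L : ℝ} (hL : 0 ≤ L) (heq : ∀ x ∈ ball t₀ 1, |(Δ f) x| ≤ L * |f x|) {t : ℂ} {ε : ℝ}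
    (hε : 0 < ε) (ht : ‖t - t₀‖ + 2 * ε ≤ 1) :
    |∫ s in (0:ℝ)..ε, s * ∫ z, Phi z * (Δ f) (t + s • z)|
      ≤ CP * L * (((volume : Measure ℂ).real (ball (0:ℂ) 2) + 1) * rt4 (N4 f t₀ 1)) * √ε * ε := by
  have hCP0 : 0 ≤ CP := (abs_nonneg _).trans (hCP 0)
  have hfc := hf.continuous
  set V := (volume : Measure ℂ).real (ball (0:ℂ) 2) with hV
  have hV0 : 0 ≤ V := measureReal_nonneg
  set A := rt4 (N4 f t₀ 1) with hA
  have hA0 : 0 ≤ A := rt4_nonneg _
  have h1 : ∀ s ∈ Set.uIoc (0:ℝ) ε, ‖s * ∫ z, Phi z * (Δ f) (t + s • z)‖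
      ≤ CP * L * ((V + 1) * A) * √ε := by
    intro s hs
    rw [Set.uIoc_of_le hε.le] at hs
    have hs0 : 0 < s := hs.1
    have hball : ball t (2 * s) ⊆ ball t₀ 1 := by
      apply ball_subset_ball'
      rw [dist_eq_norm]
      nlinarith [hs.2]
    have hN : N4 f t (2 * s) ≤ A ^ 4 := by
      rw [hA, rt4_pow (N4_nonneg _ _ _)]
      exact N4_mono hfc hball
    have h2 := mean_le hfc t hs0 (a := 2) hA0 hN
    have h3 : |∫ z, Phi z * (Δ f) (t + s • z)| ≤ CP * L * ∫ z in ball (0:ℂ) 2, |f (t + s • z)| := by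
      have e : ∫ z, Phi z * (Δ f) (t + s • z) = ∫ z in ball (0:ℂ) 2, Phi z * (Δ f) (t + s • z) := by
        rw [setIntegral_eq_integral_of_forall_compl_eq_zero]
        intro z hz
        rw [Phi_zero (fun h => hz ?_)]; · simp
        rw [mem_closedBall] at h
        rw [mem_ball]; linarith
      rw [e, ← Real.norm_eq_abs, ← integral_const_mul]
      refine norm_integral_le_of_norm_le ?_ ?_
      · exact (intBall (f := fun z : ℂ => |f (t + s • z)|) (hfc.comp (by fun_prop)).abs 0 2).const_mul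
          (CP * L)
      · refine (ae_restrict_iff' measurableSet_ball).2 (Eventually.of_forall fun z hz => ?_)
        rw [mem_ball, dist_zero_right] at hz
        have hx : t + s • z ∈ ball t₀ 1 := by
          apply hball
          rw [mem_ball, dist_eq_norm, add_sub_cancel_left, norm_smul, Real.norm_of_nonneg hs0.le]
          nlinarith [norm_nonneg z]
        rw [norm_mul, Real.norm_eq_abs, Real.norm_eq_abs, mul_assoc]
        exact mul_le_mul (hCP z) (heq _ hx) (abs_nonneg _) hCP0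
    have hsp : 0 < √s := Real.sqrt_pos.2 hs0
    have hss : √s * √s = s := Real.mul_self_sqrt hs0.le
    have hse : √s ≤ √ε := Real.sqrt_le_sqrt hs.2
    rw [norm_mul, Real.norm_of_nonneg hs0.le, Real.norm_eq_abs]
    calc s * |∫ z, Phi z * (Δ f) (t + s • z)| ≤ s * (CP * L * ((V + 1) * A / √s)) := by
          refine mul_le_mul_of_nonneg_left (h3.trans ?_) hs0.le
          exact mul_le_mul_of_nonneg_left h2 (by positivity)
      _ = CP * L * ((V + 1) * A) * √s := by
          have : s * (1 / √s) = √s := by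
            rw [mul_one_div, div_eq_iff hsp.ne']; exact hss.symm
          calc s * (CP * L * ((V + 1) * A / √s)) = CP * L * ((V + 1) * A) * (s * (1 / √s)) := by ring
            _ = _ := by rw [this]
      _ ≤ CP * L * ((V + 1) * A) * √ε := mul_le_mul_of_nonneg_left hse (by positivity)
  have h2 := intervalIntegral.norm_integral_le_of_norm_le_const h1
  rw [Real.norm_eq_abs, sub_zero, abs_of_pos hε] at h2
  exact h2

/-- **local sup bound** -/
lemma det_sup {L : ℝ} (hL : 0 ≤ L) : ∃ C : ℝ, 0 < C ∧ ∀ f : ℂ → ℝ, ContDiff ℝ 2 f → ∀ t₀ : ℂ,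
    (∀ x ∈ ball t₀ 1, |(Δ f) x| ≤ L * |f x|) → ∀ t ∈ ball t₀ (1 / 2),
      |f t| ≤ C * rt4 (N4 f t₀ 1) := by
  obtain ⟨CP, hCP⟩ := Phi_le
  obtain ⟨Cb, hCb⟩ := bet_le
  have hCP0 : 0 ≤ CP := (abs_nonneg _).trans (hCP 0)
  have hCb0 : 0 ≤ Cb := (abs_nonneg _).trans (hCb 0)
  set V := (volume : Measure ℂ).real (ball (0:ℂ) 2) with hV
  have hV0 : 0 ≤ V := measureReal_nonneg
  set k := |kap| with hk
  have hk0 : 0 < k := abs_pos.2 kap_neg.ne
  set ε : ℝ := 1 / 4 with hε
  have hε0 : 0 < ε := by norm_num [hε]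
  set C₁ := Cb * ((V + 1) / √ε) + CP * L * (V + 1) * √ε * ε with hC₁
  have hC₁0 : 0 ≤ C₁ := by positivity
  refine ⟨C₁ / k + 1, by positivity, fun f hf t₀ heq t ht => ?_⟩
  rw [mem_ball, dist_eq_norm] at ht
  set A := rt4 (N4 f t₀ 1) with hA
  have hA0 : 0 ≤ A := rt4_nonneg _
  have h1 := err_le hCP hf hL heq (t := t) hε0 (by rw [hε]; linarith)
  have h2 := mean_value hf t ε
  have hball : ball t (2 * ε) ⊆ ball t₀ 1 := by
    apply ball_subset_ball'
    rw [dist_eq_norm, hε]; linarith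
  have hN : N4 f t (2 * ε) ≤ A ^ 4 := by
    rw [hA, rt4_pow (N4_nonneg _ _ _)]
    exact N4_mono hf.continuous hball
  have h3 := mean_le hf.continuous t hε0 (a := 2) hA0 hN
  have h4 : |∫ z, bet z * f (t + ε • z)| ≤ Cb * ∫ z in ball (0:ℂ) 2, |f (t + ε • z)| := by
    have e : ∫ z, bet z * f (t + ε • z) = ∫ z in ball (0:ℂ) 2, bet z * f (t + ε • z) := by
      rw [setIntegral_eq_integral_of_forall_compl_eq_zero]
      intro z hz
      rw [bet_zero (fun h => hz ?_)]; · simp
      rw [mem_closedBall] at h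
      rw [mem_ball]; linarith
    rw [e, ← Real.norm_eq_abs, ← integral_const_mul]
    refine norm_integral_le_of_norm_le ?_ (Eventually.of_forall fun z => ?_)
    · exact (intBall (f := fun z : ℂ => |f (t + ε • z)|)
        (hf.continuous.comp (by fun_prop)).abs 0 2).const_mul Cb
    · rw [norm_mul, Real.norm_eq_abs, Real.norm_eq_abs]
      exact mul_le_mul_of_nonneg_right (hCb z) (abs_nonneg _)
  have h5 : k * |f t| ≤ C₁ * A := by
    rw [hk, ← abs_mul, h2]
    refine (abs_add_le _ _).trans ?_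
    calc |∫ z, bet z * f (t + ε • z)| + |∫ s in (0:ℝ)..ε, s * ∫ z, Phi z * (Δ f) (t + s • z)|
        ≤ Cb * ((V + 1) * A / √ε) + CP * L * ((V + 1) * A) * √ε * ε := by
          refine add_le_add (h4.trans ?_) h1
          exact mul_le_mul_of_nonneg_left h3 hCb0
      _ = C₁ * A := by rw [hC₁]; ring
  have h6 : |f t| ≤ C₁ / k * A := by
    rw [div_mul_eq_mul_div, le_div_iff₀ hk0, mul_comm]; exact h5
  calc |f t| ≤ C₁ / k * A := h6
    _ ≤ (C₁ / k + 1) * A := mul_le_mul_of_nonneg_right (by linarith) hA0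

/-- uniform modulus of continuity of `bet` -/
lemma bet_mod {τ : ℝ} (hτ : 0 < τ) : ∃ d > 0, ∀ h : ℂ, ‖h‖ < d → ∀ z, |bet z - bet (z - h)| ≤ τ := by
  have huc : UniformContinuous bet := bet_hcs.uniformContinuous_of_continuous bet_continuous
  obtain ⟨d, hd, h⟩ := Metric.uniformContinuous_iff.1 huc τ hτ
  refine ⟨d, hd, fun h0 hh z => ?_⟩
  have := @h z (z - h0) (by rw [dist_eq_norm]; simpa using hh)
  rw [Real.dist_eq] at this
  exact this.le

/-- **local modulus of continuity** -/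
lemma det_mod {L : ℝ} (hL : 0 ≤ L) {η : ℝ} (hη : 0 < η) : ∃ d > 0, ∀ f : ℂ → ℝ, ContDiff ℝ 2 f →
    ∀ t₀ : ℂ, (∀ x ∈ ball t₀ 1, |(Δ f) x| ≤ L * |f x|) → ∀ t ∈ ball t₀ (1 / 2),
      ∀ t' ∈ ball t₀ (1 / 2), ‖t - t'‖ < d → |f t - f t'| ≤ η * rt4 (N4 f t₀ 1) := by
  obtain ⟨CP, hCP⟩ := Phi_le
  have hCP0 : 0 ≤ CP := (abs_nonneg _).trans (hCP 0)
  set V := (volume : Measure ℂ).real (ball (0:ℂ) 2) with hV
  set V3 := (volume : Measure ℂ).real (ball (0:ℂ) 3) with hV3
  have hV0 : 0 ≤ V := measureReal_nonneg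
  have hV30 : 0 ≤ V3 := measureReal_nonneg
  set k := |kap| with hk
  have hk0 : 0 < k := abs_pos.2 kap_neg.ne
  -- choice of ε
  set M := CP * L * (V + 1) with hM
  have hM0 : 0 ≤ M := by positivity
  obtain ⟨ε, hε0, hε1, hε2⟩ : ∃ ε : ℝ, 0 < ε ∧ ε ≤ 1 / 8 ∧ M * √ε * ε ≤ k * η / 4 := by
    refine ⟨min (1 / 8) (k * η / (4 * (M + 1))), by positivity, min_le_left _ _, ?_⟩
    set ε := min (1 / 8) (k * η / (4 * (M + 1))) with hε
    have h1 : ε ≤ 1 / 8 := min_le_left _ _
    have h2 : ε ≤ k * η / (4 * (M + 1)) := min_le_right _ _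
    have hε0 : 0 < ε := by positivity
    have h3 : √ε ≤ 1 := by
      rw [Real.sqrt_le_one]; linarith
    have h4 : M * √ε * ε ≤ (M + 1) * ε := by
      have : M * √ε ≤ M * 1 := mul_le_mul_of_nonneg_left h3 hM0
      nlinarith
    refine h4.trans ?_
    calc (M + 1) * ε ≤ (M + 1) * (k * η / (4 * (M + 1))) :=
          mul_le_mul_of_nonneg_left h2 (by positivity)
      _ = k * η / 4 := by field_simp
  have hsp : 0 < √ε := Real.sqrt_pos.2 hε0
  -- choice of d
  set τ := k * η * √ε / (2 * (V3 + 1)) with hτ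
  have hτ0 : 0 < τ := by positivity
  obtain ⟨d₀, hd₀, hbet⟩ := bet_mod hτ0
  refine ⟨min (d₀ * ε) ε, by positivity, fun f hf t₀ heq t ht t' ht' htt => ?_⟩
  rw [mem_ball, dist_eq_norm] at ht ht'
  have htt1 : ‖t - t'‖ < d₀ * ε := lt_of_lt_of_le htt (min_le_left _ _)
  have htt2 : ‖t - t'‖ < ε := lt_of_lt_of_le htt (min_le_right _ _)
  set A := rt4 (N4 f t₀ 1) with hA
  have hA0 : 0 ≤ A := rt4_nonneg _
  have hfc := hf.continuous
  have e1 := err_le hCP hf hL heq (t := t) hε0 (by linarith)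
  have e2 := err_le hCP hf hL heq (t := t') hε0 (by linarith)
  have m1 := mean_value hf t ε
  have m2 := mean_value hf t' ε
  have hball : ball t (3 * ε) ⊆ ball t₀ 1 := by
    apply ball_subset_ball'
    rw [dist_eq_norm]; linarith
  have hN : N4 f t (3 * ε) ≤ A ^ 4 := by
    rw [hA, rt4_pow (N4_nonneg _ _ _)]
    exact N4_mono hfc hball
  have h3 := mean_le hfc t hε0 (a := 3) hA0 hN
  -- the difference of the means
  set h : ℂ := (1 / ε : ℝ) • (t' - t) with hh
  have hhn : ‖h‖ < d₀ := by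
    rw [hh, norm_smul, Real.norm_of_nonneg (by positivity), one_div, inv_mul_lt_iff₀ hε0,
      norm_sub_rev, mul_comm]
    exact htt1
  have hhn1 : ‖h‖ < 1 := by
    rw [hh, norm_smul, Real.norm_of_nonneg (by positivity), one_div, inv_mul_lt_iff₀ hε0,
      norm_sub_rev, mul_one]
    exact htt2
  have hdiff : |(∫ z, bet z * f (t + ε • z)) - ∫ z, bet z * f (t' + ε • z)|
      ≤ τ * ∫ z in ball (0:ℂ) 3, |f (t + ε • z)| := by
    have q1 : ∫ z, bet z * f (t' + ε • z) = ∫ z, bet (z - h) * f (t + ε • z) := by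
      rw [← integral_sub_right_eq_self (fun z => bet z * f (t' + ε • z)) h]
      congr 1
      funext z
      congr 2
      have : ε • h = t' - t := by
        rw [hh, smul_smul, mul_one_div_cancel hε0.ne', one_smul]
      rw [smul_sub, this]; ring
    have hck : Continuous fun z : ℂ => f (t + ε • z) := hfc.comp (by fun_prop)
    have hcb : Continuous fun z : ℂ => bet (z - h) := bet_continuous.comp (by fun_prop)
    have hcs : HasCompactSupport fun z : ℂ => bet (z - h) := by
      apply HasCompactSupport.intro (isCompact_closedBall h 1)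
      intro z hz
      apply bet_zero
      rw [mem_closedBall, dist_eq_norm] at hz
      rw [mem_closedBall, dist_zero_right]
      exact hz
    have i1 : Integrable fun z : ℂ => bet z * f (t + ε • z) :=
      (bet_continuous.mul hck).integrable_of_hasCompactSupport bet_hcs.mul_right
    have i2 : Integrable fun z : ℂ => bet (z - h) * f (t + ε • z) :=
      (hcb.mul hck).integrable_of_hasCompactSupport hcs.mul_right
    rw [q1, ← integral_sub i1 i2]
    have q2 : ∫ z, (bet z * f (t + ε • z) - bet (z - h) * f (t + ε • z))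
        = ∫ z in ball (0:ℂ) 3, (bet z * f (t + ε • z) - bet (z - h) * f (t + ε • z)) := by
      rw [setIntegral_eq_integral_of_forall_compl_eq_zero]
      intro z hz
      rw [mem_ball, dist_zero_right, not_lt] at hz
      have a1 : bet z = 0 := bet_zero (by
        rw [mem_closedBall, dist_zero_right, not_le]; linarith)
      have a2 : bet (z - h) = 0 := bet_zero (by
        rw [mem_closedBall, dist_zero_right, not_le]
        have := norm_sub_norm_le z h
        linarith)
      rw [a1, a2]; simp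
    rw [q2, ← Real.norm_eq_abs, ← integral_const_mul]
    refine norm_integral_le_of_norm_le ?_ (Eventually.of_forall fun z => ?_)
    · exact (intBall (f := fun z : ℂ => |f (t + ε • z)|) hck.abs 0 3).const_mul τ
    · rw [← sub_mul, norm_mul, Real.norm_eq_abs, Real.norm_eq_abs]
      exact mul_le_mul_of_nonneg_right (hbet h hhn z) (abs_nonneg _)
  have hdiff2 : |(∫ z, bet z * f (t + ε • z)) - ∫ z, bet z * f (t' + ε • z)| ≤ k * η / 2 * A := by
    refine hdiff.trans ?_
    calc τ * ∫ z in ball (0:ℂ) 3, |f (t + ε • z)| ≤ τ * ((V3 + 1) * A / √ε) :=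
          mul_le_mul_of_nonneg_left h3 hτ0.le
      _ = k * η / 2 * A := by rw [hτ]; field_simp
  have hE : CP * L * ((V + 1) * A) * √ε * ε ≤ k * η / 4 * A := by
    calc CP * L * ((V + 1) * A) * √ε * ε = (M * √ε * ε) * A := by rw [hM]; ring
      _ ≤ k * η / 4 * A := mul_le_mul_of_nonneg_right hε2 hA0
  have hfin : k * |f t - f t'| ≤ k * (η * A) := by
    rw [hk, ← abs_mul, mul_sub, m1, m2]
    set E1 := ∫ s in (0:ℝ)..ε, s * ∫ z, Phi z * (Δ f) (t + s • z) with hE1
    set E2 := ∫ s in (0:ℝ)..ε, s * ∫ z, Phi z * (Δ f) (t' + s • z) with hE2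
    have r1 : (∫ z, bet z * f (t + ε • z)) + E1 - ((∫ z, bet z * f (t' + ε • z)) + E2)
        = ((∫ z, bet z * f (t + ε • z)) - ∫ z, bet z * f (t' + ε • z)) + (E1 - E2) := by ring
    rw [r1]
    have r2 := abs_add_le ((∫ z, bet z * f (t + ε • z)) - ∫ z, bet z * f (t' + ε • z)) (E1 - E2)
    have r3 := abs_sub E1 E2
    have r4 := e1.trans hE
    have r5 := e2.trans hE
    have r6 : |kap| * (η * A) = k * η / 2 * A + (k * η / 4 * A + k * η / 4 * A) := by
      rw [← hk]; ring
    rw [r6]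
    linarith
  exact le_of_mul_le_mul_left hfin hk0

end

end Berry
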