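import Pool.Agent.LibH11.Berry.MV

/-!
Equicontinuity of correlations of approximate solutions of the Helmholtz equation.
-/

open Complex Filter Topology MeasureTheory Metric InnerProductSpace Laplacian
open scoped ENNReal

namespace Berry

noncomputable section

variable {Ω : Type*} [MeasurableSpace Ω] {P : Measure Ω} [IsProbabilityMeasure P]

lemma integrable_bdd {α : Type*} [MeasurableSpace α] {μ : Measure α} [IsFiniteMeasure μ]
    {f : α → ℝ} (hm : Measurable f) {C : ℝ} (hC : ∀ a, |f a| ≤ C) : Integrable f μ :=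
  Integrable.of_bound hm.aestronglyMeasurable C (Eventually.of_forall fun a => hC a)

lemma swap_bdd {α β : Type*} [MeasurableSpace α] [MeasurableSpace β] {μ : Measure α}
    [IsFiniteMeasure μ] {ν : Measure β} [IsFiniteMeasure ν]
    {f : β → α → ℝ} (hm : Measurable (Function.uncurry f)) {C : ℝ} (hC : ∀ b a, |f b a| ≤ C) :
    ∫ b, ∫ a, f b a ∂μ ∂ν = ∫ a, ∫ b, f b a ∂ν ∂μ :=
  integral_integral_swap (integrable_bdd hm fun _ => hC _ _)

/-- the hypotheses on a single random function -/
structure SingleW (P : Measure Ω) (F : ℂ → Ω → ℝ) : Prop where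
  meas : ∀ x, Measurable (F x)
  smooth : ∀ ω, ContDiff ℝ 2 (fun x => F x ω)
  bdd : ∃ K : ℝ, ∀ x ω, |F x ω| ≤ K

omit [IsProbabilityMeasure P] in
lemma SingleW.meas_uncurry {F : ℂ → Ω → ℝ} (hF : SingleW P F) : Measurable (Function.uncurry F) :=
  measurable_uncurry_of_continuous_of_measurable (fun ω => (hF.smooth ω).continuous) hF.meas

lemma restrict_closedBall_finite : IsFiniteMeasure ((volume : Measure ℂ).restrict (closedBall 0 1)) :=
  ⟨by rw [Measure.restrict_apply_univ]; exact (isCompact_closedBall (0:ℂ) 1).measure_lt_top⟩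

lemma int_Phi_eq (g : ℂ → ℝ) : ∫ z, Phi z * g z = ∫ z in closedBall (0:ℂ) 1, Phi z * g z := by
  rw [setIntegral_eq_integral_of_forall_compl_eq_zero]
  intro z hz
  rw [Phi_zero hz]; simp

lemma int_bet_eq (g : ℂ → ℝ) : ∫ z, bet z * g z = ∫ z in closedBall (0:ℂ) 1, bet z * g z := by
  rw [setIntegral_eq_integral_of_forall_compl_eq_zero]
  intro z hz
  rw [bet_zero hz]; simp

lemma Phi_le : ∃ C : ℝ, ∀ z, |Phi z| ≤ C := by
  obtain ⟨C, hC⟩ := Phi_hcs.exists_bound_of_continuous Phi_continuous
  exact ⟨C, hC⟩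

lemma bet_le : ∃ C : ℝ, ∀ z, |bet z| ≤ C := by
  obtain ⟨C, hC⟩ := bet_hcs.exists_bound_of_continuous bet_continuous
  exact ⟨C, hC⟩

/-- total mass of `Φ` -/
def kPhi : ℝ := ∫ z, Phi z

lemma kPhi_nonneg : 0 ≤ kPhi := integral_nonneg Phi_nonneg

/-- **mean value estimate** for correlations -/
lemma mean_estimate {F : ℂ → Ω → ℝ} (hF : SingleW P F) {G : Ω → ℝ} (hG : Measurable G)
    (hGb : ∃ K : ℝ, ∀ ω, |G ω| ≤ K) {M : ℝ} (hM : ∀ y, ∫ ω, |F y ω| * |G ω| ∂P ≤ M)
    {r δ : ℝ} (hδ : 0 ≤ δ)
    (heq : ∀ ω, ∀ x ∈ ball (0:ℂ) r, |(Δ (fun x => F x ω)) x + F x ω| ≤ δ * |F x ω|)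
    {t : ℂ} {ε : ℝ} (hε : 0 ≤ ε) (ht : ‖t‖ + ε < r) :
    |kap * (∫ ω, F t ω * G ω ∂P) - ∫ z, bet z * ∫ ω, F (t + ε • z) ω * G ω ∂P|
      ≤ (1 + δ) * (M * kPhi * (ε ^ 2 / 2)) := by
  have := restrict_closedBall_finite
  have hfin : IsFiniteMeasure ((volume : Measure ℝ).restrict (Set.Ioc 0 ε)) :=
    ⟨by rw [Measure.restrict_apply_univ]; exact measure_Ioc_lt_top⟩
  obtain ⟨K, hK⟩ := hF.bdd
  obtain ⟨K', hK'⟩ := hGb
  obtain ⟨CP, hCP⟩ := Phi_le
  obtain ⟨Cb, hCb⟩ := bet_le
  have hK0 : ∀ ω : Ω, 0 ≤ K := fun ω => (abs_nonneg _).trans (hK 0 ω)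
  have hmF := hF.meas_uncurry
  -- the pointwise error
  set A : Ω → ℝ := fun ω => kap * F t ω - ∫ z, bet z * F (t + ε • z) ω with hA
  set I : ℝ → Ω → ℝ := fun s ω => ∫ z in closedBall (0:ℂ) 1, Phi z * |F (t + s • z) ω| with hI
  -- measurability
  have hmz : Measurable fun p : (ℝ × Ω) × ℂ => Phi p.2 * |F (t + p.1.1 • p.2) p.1.2| := by
    have h1 : Measurable fun p : (ℝ × Ω) × ℂ => (t + p.1.1 • p.2, p.1.2) := by fun_prop
    have h2 : Measurable fun p : (ℝ × Ω) × ℂ => F (t + p.1.1 • p.2) p.1.2 := hmF.comp h1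
    exact (Phi_continuous.measurable.comp measurable_snd).mul h2.abs
  have hmI : Measurable (Function.uncurry I) := by
    have : StronglyMeasurable fun q : ℝ × Ω => ∫ z, Phi z * |F (t + q.1 • z) q.2|
        ∂((volume : Measure ℂ).restrict (closedBall 0 1)) :=
      hmz.stronglyMeasurable.integral_prod_right'
    exact this.measurable
  have hIb : ∀ s ω, |I s ω| ≤ CP * K * ((volume : Measure ℂ).restrict (closedBall 0 1)).real Set.univ := by
    intro s ω
    have := norm_integral_le_of_norm_le_const
      (μ := (volume : Measure ℂ).restrict (closedBall 0 1)) (f := fun z => Phi z * |F (t + s • z) ω|)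
      (C := CP * K) (Eventually.of_forall fun z => by
        rw [norm_mul, Real.norm_eq_abs, Real.norm_eq_abs, abs_abs]
        exact mul_le_mul (hCP z) (hK _ _) (abs_nonneg _) ((abs_nonneg _).trans (hCP z)))
    exact this
  have hI0 : ∀ s ω, 0 ≤ I s ω := fun s ω => integral_nonneg fun z =>
    mul_nonneg (Phi_nonneg z) (abs_nonneg _)
  -- pointwise bound
  have hpt : ∀ ω, |A ω| ≤ (1 + δ) * ∫ s in Set.Ioc (0:ℝ) ε, s * I s ω := by
    intro ω
    have h1 := mean_value (hF.smooth ω) t ε
    have h2 : A ω = ∫ s in (0:ℝ)..ε, s * ∫ z, Phi z * (Δ (fun x => F x ω)) (t + s • z) := by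
      simp only [hA]; rw [h1]; ring
    rw [h2, intervalIntegral.integral_of_le hε]
    have hcI : Continuous fun s : ℝ => I s ω := by
      have h2 : Continuous (Function.uncurry fun (s : ℝ) (z : ℂ) => Phi z * |F (t + s • z) ω|) := by
        have h1 : Continuous fun p : ℝ × ℂ => t + p.1 • p.2 := by fun_prop
        exact (Phi_continuous.comp continuous_snd).mul (((hF.smooth ω).continuous.comp h1).abs)
      exact continuous_parametric_integral_of_continuous h2 (isCompact_closedBall (0:ℂ) 1)
    rw [← integral_const_mul, ← Real.norm_eq_abs]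
    refine norm_integral_le_of_norm_le ?_ ?_
    · have hcc : Continuous fun s : ℝ => (1 + δ) * (s * I s ω) :=
        continuous_const.mul (continuous_id.mul hcI)
      exact (hcc.integrableOn_Icc (a := 0) (b := ε)).mono_set Set.Ioc_subset_Icc_self
    · refine (ae_restrict_iff' measurableSet_Ioc).2 (Eventually.of_forall fun s hs => ?_)
      rw [norm_mul, Real.norm_eq_abs, abs_of_pos hs.1]
      have h3 : ‖∫ z, Phi z * (Δ (fun x => F x ω)) (t + s • z)‖ ≤ (1 + δ) * I s ω := by
        rw [int_Phi_eq]
        simp only [hI]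
        rw [← integral_const_mul]
        refine norm_integral_le_of_norm_le ?_ ?_
        · have h4 : Continuous fun z : ℂ => (1 + δ) * (Phi z * |F (t + s • z) ω|) := by
            have h1 : Continuous fun z : ℂ => t + s • z := by fun_prop
            exact continuous_const.mul (Phi_continuous.mul
              (((hF.smooth ω).continuous.comp h1).abs))
          exact h4.continuousOn.integrableOn_compact (isCompact_closedBall (0:ℂ) 1)
        · refine (ae_restrict_iff' measurableSet_closedBall).2
            (Eventually.of_forall fun z hz => ?_)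
          rw [norm_mul, Real.norm_eq_abs, abs_of_nonneg (Phi_nonneg z)]
          have hzb : t + s • z ∈ ball (0:ℂ) r := by
            rw [mem_ball, dist_zero_right]
            rw [mem_closedBall, dist_zero_right] at hz
            calc ‖t + s • z‖ ≤ ‖t‖ + ‖s • z‖ := norm_add_le _ _
              _ ≤ ‖t‖ + ε * 1 := by
                  rw [norm_smul, Real.norm_eq_abs, abs_of_pos hs.1]
                  gcongr
                  exact hs.2
              _ < r := by linarith
          have h5 := heq ω _ hzb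
          have h6 : ‖(Δ (fun x => F x ω)) (t + s • z)‖ ≤ (1 + δ) * |F (t + s • z) ω| := by
            rw [Real.norm_eq_abs]
            have h7 : (Δ (fun x => F x ω)) (t + s • z)
                = ((Δ (fun x => F x ω)) (t + s • z) + F (t + s • z) ω) - F (t + s • z) ω := by ring
            rw [h7]
            refine (abs_sub _ _).trans ?_
            linarith
          calc Phi z * ‖(Δ (fun x => F x ω)) (t + s • z)‖
              ≤ Phi z * ((1 + δ) * |F (t + s • z) ω|) :=
                mul_le_mul_of_nonneg_left h6 (Phi_nonneg z)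
            _ = (1 + δ) * (Phi z * |F (t + s • z) ω|) := by ring
      calc s * ‖∫ z, Phi z * (Δ (fun x => F x ω)) (t + s • z)‖ ≤ s * ((1 + δ) * I s ω) :=
            mul_le_mul_of_nonneg_left h3 hs.1.le
        _ = (1 + δ) * (s * I s ω) := by ring
  -- the error in terms of A
  have hmb : Measurable fun p : Ω × ℂ => bet p.2 * F (t + ε • p.2) p.1 * G p.1 := by
    have h1 : Measurable fun p : Ω × ℂ => (t + ε • p.2, p.1) := by fun_prop
    have h2 : Measurable fun p : Ω × ℂ => F (t + ε • p.2) p.1 := hmF.comp h1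
    exact ((bet_continuous.measurable.comp measurable_snd).mul h2).mul (hG.comp measurable_fst)
  have e1 : kap * (∫ ω, F t ω * G ω ∂P) - (∫ z, bet z * ∫ ω, F (t + ε • z) ω * G ω ∂P)
      = ∫ ω, A ω * G ω ∂P := by
    have s1 : ∫ z, bet z * ∫ ω, F (t + ε • z) ω * G ω ∂P
        = ∫ ω, (∫ z, bet z * F (t + ε • z) ω) * G ω ∂P := by
      rw [int_bet_eq]
      have s2 : ∀ z, bet z * ∫ ω, F (t + ε • z) ω * G ω ∂P
          = ∫ ω, bet z * F (t + ε • z) ω * G ω ∂P := by
        intro z
        rw [← integral_const_mul]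
        congr 1; funext ω; ring
      simp only [s2]
      have s3 := swap_bdd (μ := (volume : Measure ℂ).restrict (closedBall 0 1)) (ν := P)
        (f := fun ω z => bet z * F (t + ε • z) ω * G ω) hmb (C := Cb * K * K')
        (fun ω z => by
          rw [abs_mul, abs_mul]
          exact mul_le_mul (mul_le_mul (hCb z) (hK _ _) (abs_nonneg _)
            ((abs_nonneg _).trans (hCb z))) (hK' _) (abs_nonneg _)
            (mul_nonneg ((abs_nonneg _).trans (hCb z)) (hK0 ω)))
      rw [← s3]
      congr 1; funext ω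
      rw [integral_mul_const, ← int_bet_eq]
    rw [s1, ← integral_const_mul, ← integral_sub]
    · congr 1; funext ω; simp only [hA]; ring
    · refine (integrable_bdd (C := K * K') ((hF.meas t).mul hG) fun ω => ?_).const_mul _
      show |F t ω * G ω| ≤ _
      rw [abs_mul]
      exact mul_le_mul (hK _ _) (hK' _) (abs_nonneg _) (hK0 ω)
    · refine integrable_bdd (C := (Cb * K * ((volume : Measure ℂ).restrict (closedBall 0 1)).real Set.univ) * K') ?_ ?_
      · have : Measurable fun ω => ∫ z, bet z * F (t + ε • z) ω := by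
          have h1 : Measurable fun p : Ω × ℂ => (t + ε • p.2, p.1) := by fun_prop
          have h2 : Measurable fun p : Ω × ℂ => bet p.2 * F (t + ε • p.2) p.1 :=
            (bet_continuous.measurable.comp measurable_snd).mul (hmF.comp h1)
          exact (h2.stronglyMeasurable.integral_prod_right' (ν := (volume : Measure ℂ))).measurable
        exact this.mul hG
      · intro ω
        rw [abs_mul]
        have h8 : |∫ z, bet z * F (t + ε • z) ω| ≤ Cb * K * ((volume : Measure ℂ).restrict (closedBall 0 1)).real Set.univ := by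
          rw [int_bet_eq]
          exact norm_integral_le_of_norm_le_const
            (μ := (volume : Measure ℂ).restrict (closedBall 0 1)) (f := fun z => bet z * F (t + ε • z) ω)
            (C := Cb * K) (Eventually.of_forall fun z => by
              rw [norm_mul, Real.norm_eq_abs, Real.norm_eq_abs]
              exact mul_le_mul (hCb z) (hK _ _) (abs_nonneg _) ((abs_nonneg _).trans (hCb z)))
        exact mul_le_mul h8 (hK' _) (abs_nonneg _) ((abs_nonneg _).trans h8)
  rw [e1]
  -- measurability of the product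
  have hmsI : Measurable fun p : Ω × ℝ => p.2 * I p.2 p.1 * |G p.1| := by
    have h1 : Measurable fun p : Ω × ℝ => I p.2 p.1 := hmI.comp measurable_swap
    exact (measurable_snd.mul h1).mul (hG.comp measurable_fst).abs
  set V := ((volume : Measure ℂ).restrict (closedBall 0 1)).real Set.univ with hV
  -- bounded version on Ioc: use the truncation `min (max s 0) ε`
  have hstep1 : |∫ ω, A ω * G ω ∂P|
      ≤ ∫ ω, ((1 + δ) * ∫ s in Set.Ioc (0:ℝ) ε, s * I s ω * |G ω|) ∂P := by
    rw [← Real.norm_eq_abs]
    refine norm_integral_le_of_norm_le ?_ (Eventually.of_forall fun ω => ?_)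
    · apply Integrable.const_mul
      have hm1 : Measurable fun ω => ∫ s in Set.Ioc (0:ℝ) ε, s * I s ω * |G ω| :=
        (hmsI.stronglyMeasurable.integral_prod_right'
          (ν := (volume : Measure ℝ).restrict (Set.Ioc 0 ε))).measurable
      refine integrable_bdd (μ := P) (C := ε * (CP * K * V) * K' * ((volume : Measure ℝ).restrict (Set.Ioc 0 ε)).real Set.univ) hm1 fun ω => ?_
      rw [← Real.norm_eq_abs]
      refine norm_integral_le_of_norm_le_const (C := ε * (CP * K * V) * K') ?_
      refine (ae_restrict_iff' measurableSet_Ioc).2 (Eventually.of_forall fun s hs => ?_)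
      rw [norm_mul, norm_mul, Real.norm_eq_abs, Real.norm_eq_abs, Real.norm_eq_abs, abs_abs,
        abs_of_pos hs.1]
      exact mul_le_mul (mul_le_mul hs.2 (hIb s ω) (abs_nonneg _) hε) (hK' ω) (abs_nonneg _)
        (mul_nonneg hε ((abs_nonneg _).trans (hIb s ω)))
    · rw [norm_mul, Real.norm_eq_abs, Real.norm_eq_abs, integral_mul_const, ← mul_assoc]
      exact mul_le_mul_of_nonneg_right (hpt ω) (abs_nonneg _)
  have hstep2 : ∫ ω, ((1 + δ) * ∫ s in Set.Ioc (0:ℝ) ε, s * I s ω * |G ω|) ∂P
      = (1 + δ) * ∫ s in Set.Ioc (0:ℝ) ε, s * ∫ z in closedBall (0:ℂ) 1,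
        Phi z * ∫ ω, |F (t + s • z) ω| * |G ω| ∂P := by
    rw [integral_const_mul]
    congr 1
    -- replace `s` by a bounded function on the interval
    have hb : ∀ ω, ∫ s in Set.Ioc (0:ℝ) ε, s * I s ω * |G ω|
        = ∫ s in Set.Ioc (0:ℝ) ε, (min (max s 0) ε) * I s ω * |G ω| := by
      intro ω
      apply setIntegral_congr_fun measurableSet_Ioc
      intro s hs
      simp only
      rw [max_eq_left hs.1.le, min_eq_left hs.2]
    simp only [hb]
    have hm2 : Measurable (Function.uncurry fun (ω : Ω) (s : ℝ) =>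
        (min (max s 0) ε) * I s ω * |G ω|) := by
      have h1 : Measurable fun p : Ω × ℝ => I p.2 p.1 := hmI.comp measurable_swap
      exact (((measurable_snd.max measurable_const).min measurable_const).mul h1).mul
        (hG.comp measurable_fst).abs
    have hmin : ∀ s : ℝ, |min (max s 0) ε| ≤ ε := by
      intro s
      rw [abs_of_nonneg (le_min (le_max_right _ _) hε)]
      exact min_le_right _ _
    rw [swap_bdd (μ := (volume : Measure ℝ).restrict (Set.Ioc 0 ε)) (ν := P) hm2
      (C := ε * (CP * K * V) * K') (fun ω s => by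
        rw [abs_mul, abs_mul, abs_abs]
        exact mul_le_mul (mul_le_mul (hmin s) (hIb s ω) (abs_nonneg _) hε) (hK' ω) (abs_nonneg _)
          (mul_nonneg hε ((abs_nonneg _).trans (hIb s ω))))]
    apply setIntegral_congr_fun measurableSet_Ioc
    intro s hs
    simp only
    rw [max_eq_left hs.1.le, min_eq_left hs.2]
    have h9 : ∀ ω, s * I s ω * |G ω| = s * ∫ z in closedBall (0:ℂ) 1,
        Phi z * (|F (t + s • z) ω| * |G ω|) := by
      intro ω
      simp only [hI]
      rw [mul_assoc, ← integral_mul_const]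
      congr 2; funext z; ring
    simp only [h9]
    rw [integral_const_mul]
    congr 1
    have hm3 : Measurable (Function.uncurry fun (ω : Ω) (z : ℂ) =>
        Phi z * (|F (t + s • z) ω| * |G ω|)) := by
      have h1 : Measurable fun p : Ω × ℂ => (t + s • p.2, p.1) := by fun_prop
      have h2 : Measurable fun p : Ω × ℂ => F (t + s • p.2) p.1 := hmF.comp h1
      exact (Phi_continuous.measurable.comp measurable_snd).mul (h2.abs.mul
        (hG.comp measurable_fst).abs)
    rw [swap_bdd (μ := (volume : Measure ℂ).restrict (closedBall 0 1)) (ν := P) hm3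
      (C := CP * (K * K')) (fun ω z => by
        rw [abs_mul, abs_mul, abs_abs, abs_abs]
        exact mul_le_mul (hCP z) (mul_le_mul (hK _ _) (hK' ω) (abs_nonneg _) (hK0 ω))
          (mul_nonneg (abs_nonneg _) (abs_nonneg _)) ((abs_nonneg _).trans (hCP z)))]
    congr 1
    funext z
    rw [integral_const_mul]
  have hM0 : 0 ≤ M := (integral_nonneg fun ω => mul_nonneg (abs_nonneg _) (abs_nonneg _)).trans (hM 0)
  have hstep3 : ∫ s in Set.Ioc (0:ℝ) ε, s * ∫ z in closedBall (0:ℂ) 1,
        Phi z * ∫ ω, |F (t + s • z) ω| * |G ω| ∂P ≤ M * kPhi * (ε ^ 2 / 2) := by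
    have hb : ∀ s : ℝ, ‖∫ z in closedBall (0:ℂ) 1,
        Phi z * ∫ ω, |F (t + s • z) ω| * |G ω| ∂P‖ ≤ M * kPhi := by
      intro s
      have h1 : M * kPhi = ∫ z in closedBall (0:ℂ) 1, Phi z * M := by
        rw [← int_Phi_eq, integral_mul_const]; unfold kPhi; ring
      rw [h1]
      refine norm_integral_le_of_norm_le ?_ (Eventually.of_forall fun z => ?_)
      · exact (Phi_continuous.mul continuous_const).continuousOn.integrableOn_compact
          (isCompact_closedBall (0:ℂ) 1)
      · rw [norm_mul, Real.norm_eq_abs, abs_of_nonneg (Phi_nonneg z)]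
        refine mul_le_mul_of_nonneg_left ?_ (Phi_nonneg z)
        rw [Real.norm_of_nonneg (integral_nonneg fun ω => mul_nonneg (abs_nonneg _) (abs_nonneg _))]
        exact hM _
    have h2 : ∫ s in Set.Ioc (0:ℝ) ε, s * (M * kPhi) = M * kPhi * (ε ^ 2 / 2) := by
      rw [← intervalIntegral.integral_of_le hε, intervalIntegral.integral_mul_const,
        integral_id]
      ring
    rw [← h2]
    refine (le_abs_self _).trans ?_
    rw [← Real.norm_eq_abs]
    refine norm_integral_le_of_norm_le ?_ ?_
    · exact (continuous_id.mul continuous_const).integrableOn_Ioc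
    · refine (ae_restrict_iff' measurableSet_Ioc).2 (Eventually.of_forall fun s hs => ?_)
      rw [norm_mul, Real.norm_eq_abs, abs_of_pos hs.1]
      exact mul_le_mul_of_nonneg_left (hb s) hs.1.le
  calc |∫ ω, A ω * G ω ∂P| ≤ _ := hstep1
    _ = _ := hstep2
    _ ≤ (1 + δ) * (M * kPhi * (ε ^ 2 / 2)) :=
        mul_le_mul_of_nonneg_left hstep3 (by linarith)

end

end Berry
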