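import Pool.Agent.LibH11.Berry.Smear

/-!
Classical solutions of `Δ g = - g` are weak solutions.
-/

open Complex Filter Topology MeasureTheory Convolution InnerProductSpace Laplacian
open scoped ENNReal ContDiff

namespace Berry

noncomputable section

lemma smear_fderiv {ψ g : ℂ → ℂ} (hψ : TestFn ψ) (hg : ContDiff ℝ 1 g) (t v : ℂ) :
    smear (fun y => fderiv ℝ ψ y v) g t = smear ψ (fun z => fderiv ℝ g z v) t := by
  have hgd : Differentiable ℝ g := hg.differentiable (by norm_num)
  have hgc : Continuous fun z => fderiv ℝ g z v :=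
    (hg.continuous_fderiv one_ne_zero).clm_apply continuous_const
  have hf : ∀ y, fderiv ℝ (fun y => g (t - y)) y v = - fderiv ℝ g (t - y) v := by
    intro y
    have h1 : HasFDerivAt (fun y => t - y) (-ContinuousLinearMap.id ℝ ℂ) y := by
      simpa using (hasFDerivAt_id (𝕜 := ℝ) y).const_sub t
    have h2 := (hgd (t - y)).hasFDerivAt.comp y h1
    have h3 := h2.fderiv
    have h4 : (g ∘ fun y => t - y) = fun y => g (t - y) := rfl
    rw [h4] at h3
    rw [h3]
    simp
  have hgt : Differentiable ℝ (fun y => g (t - y)) :=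
    hgd.comp ((differentiable_const t).sub differentiable_id)
  have i1 : Integrable (fun y => fderiv ℝ ψ y v • g (t - y)) :=
    smear_integrable (hψ.fderiv_apply v).continuous (hψ.fderiv_apply v).2 hg.continuous t
  have i2 : Integrable (fun y => ψ y • fderiv ℝ (fun y => g (t - y)) y v) := by
    simp only [hf, smul_neg]
    exact (smear_integrable hψ.continuous hψ.2 hgc t).neg
  have i3 : Integrable (fun y => ψ y • g (t - y)) :=
    smear_integrable hψ.continuous hψ.2 hg.continuous t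
  have := integral_smul_fderiv_eq_neg_fderiv_smul_of_integrable i1 i2 i3
    (fun x _ => hψ.differentiable x) (fun x _ => hgt x)
  simp only [hf, smul_neg, integral_neg] at this
  rw [smear, smear]
  exact (neg_injective this).symm

lemma smear_const_mul_right (k : ℂ) (ψ g : ℂ → ℂ) (t : ℂ) :
    smear ψ (fun z => k * g z) t = k * smear ψ g t := by
  rw [smear, smear, ← integral_const_mul]
  congr 1
  funext y
  simp only [smul_eq_mul]; ring

lemma smear_add_right {ψ g g' : ℂ → ℂ} (hψ : TestFn ψ) (hg : Continuous g) (hg' : Continuous g')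
    (t : ℂ) : smear ψ (fun z => g z + g' z) t = smear ψ g t + smear ψ g' t := by
  rw [smear, smear, smear, ← integral_add (smear_integrable hψ.continuous hψ.2 hg t)
    (smear_integrable hψ.continuous hψ.2 hg' t)]
  congr 1
  funext y
  simp only [smul_eq_mul]; ring

lemma smear_Wop {ψ g : ℂ → ℂ} (hψ : TestFn ψ) (hg : ContDiff ℝ 1 g) (t : ℂ) :
    smear (Wop ψ) g t = smear ψ (Wop g) t := by
  have c1 : ∀ v, Continuous fun z => fderiv ℝ g z v := fun v =>
    (hg.continuous_fderiv one_ne_zero).clm_apply continuous_const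
  have h1 : smear (Wop ψ) g t = smear (fun y => fderiv ℝ ψ y 1) g t
      + I * smear (fun y => fderiv ℝ ψ y I) g t := by
    have := smear_add (hψ.fderiv_apply 1) ((hψ.fderiv_apply I).const_mul I) hg.continuous t
    rw [smear_const_mul] at this
    exact this
  have h2 : smear ψ (Wop g) t = smear ψ (fun y => fderiv ℝ g y 1) t
      + I * smear ψ (fun y => fderiv ℝ g y I) t := by
    have := smear_add_right hψ (c1 1) (continuous_const.mul (c1 I)) t (g' := fun z => I * _)
    rw [smear_const_mul_right] at this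
    exact this
  rw [h1, h2, smear_fderiv hψ hg, smear_fderiv hψ hg]

lemma smear_Vop {ψ g : ℂ → ℂ} (hψ : TestFn ψ) (hg : ContDiff ℝ 1 g) (t : ℂ) :
    smear (Vop ψ) g t = smear ψ (Vop g) t := by
  have c1 : ∀ v, Continuous fun z => fderiv ℝ g z v := fun v =>
    (hg.continuous_fderiv one_ne_zero).clm_apply continuous_const
  have e1 : ∀ φ : ℂ → ℂ, Vop φ = fun y => fderiv ℝ φ y 1 + (-I) * fderiv ℝ φ y I := by
    intro φ; funext y; simp only [Vop]; ring
  have h1 : smear (Vop ψ) g t = smear (fun y => fderiv ℝ ψ y 1) g t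
      + (-I) * smear (fun y => fderiv ℝ ψ y I) g t := by
    have := smear_add (hψ.fderiv_apply 1) ((hψ.fderiv_apply I).const_mul (-I)) hg.continuous t
    rw [smear_const_mul] at this
    rw [e1]
    exact this
  have h2 : smear ψ (Vop g) t = smear ψ (fun y => fderiv ℝ g y 1) t
      + (-I) * smear ψ (fun y => fderiv ℝ g y I) t := by
    have := smear_add_right hψ (c1 1) (continuous_const.mul (c1 I)) t (g' := fun z => (-I) * _)
    rw [smear_const_mul_right] at this
    rw [e1]
    exact this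
  rw [h1, h2, smear_fderiv hψ hg, smear_fderiv hψ hg]

lemma contDiff_Wop {g : ℂ → ℂ} (hg : ContDiff ℝ 2 g) : ContDiff ℝ 1 (Wop g) := by
  have h1 : ContDiff ℝ 1 (fderiv ℝ g) := hg.fderiv_right (m := 1) (by norm_num)
  exact (h1.clm_apply contDiff_const).add (contDiff_const.mul (h1.clm_apply contDiff_const))

lemma contDiff_Vop {g : ℂ → ℂ} (hg : ContDiff ℝ 2 g) : ContDiff ℝ 1 (Vop g) := by
  have h1 : ContDiff ℝ 1 (fderiv ℝ g) := hg.fderiv_right (m := 1) (by norm_num)
  exact (h1.clm_apply contDiff_const).sub (contDiff_const.mul (h1.clm_apply contDiff_const))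

lemma fderiv_fderiv_apply {g : ℂ → ℂ} (hg : ContDiff ℝ 2 g) (y v w : ℂ) :
    fderiv ℝ (fun z => fderiv ℝ g z w) y v = fderiv ℝ (fderiv ℝ g) y v w := by
  have h1 : ContDiff ℝ 1 (fderiv ℝ g) := hg.fderiv_right (m := 1) (by norm_num)
  have h2 : DifferentiableAt ℝ (fderiv ℝ g) y := (h1.differentiable (by norm_num)) y
  rw [fderiv_clm_apply h2 (differentiableAt_const w)]
  simp

lemma fderiv_Wop {g : ℂ → ℂ} (hg : ContDiff ℝ 2 g) (y v : ℂ) :
    fderiv ℝ (Wop g) y v = fderiv ℝ (fderiv ℝ g) y v 1 + I * fderiv ℝ (fderiv ℝ g) y v I := by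
  have h1 : ContDiff ℝ 1 (fderiv ℝ g) := hg.fderiv_right (m := 1) (by norm_num)
  have d : ∀ w, DifferentiableAt ℝ (fun z => fderiv ℝ g z w) y := fun w =>
    ((h1.clm_apply contDiff_const).differentiable (by norm_num)) y
  have : Wop g = fun z => fderiv ℝ g z 1 + I * fderiv ℝ g z I := rfl
  rw [this, fderiv_fun_add (d 1) ((d I).const_mul I), fderiv_const_mul (d I)]
  simp [fderiv_fderiv_apply hg]

lemma fderiv_Vop {g : ℂ → ℂ} (hg : ContDiff ℝ 2 g) (y v : ℂ) :
    fderiv ℝ (Vop g) y v = fderiv ℝ (fderiv ℝ g) y v 1 - I * fderiv ℝ (fderiv ℝ g) y v I := by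
  have h1 : ContDiff ℝ 1 (fderiv ℝ g) := hg.fderiv_right (m := 1) (by norm_num)
  have d : ∀ w, DifferentiableAt ℝ (fun z => fderiv ℝ g z w) y := fun w =>
    ((h1.clm_apply contDiff_const).differentiable (by norm_num)) y
  have : Vop g = fun z => fderiv ℝ g z 1 - I * fderiv ℝ g z I := rfl
  rw [this, fderiv_fun_sub (d 1) ((d I).const_mul I), fderiv_const_mul (d I)]
  simp [fderiv_fderiv_apply hg]

lemma snd_symm {g : ℂ → ℂ} (hg : ContDiff ℝ 2 g) (y : ℂ) :
    fderiv ℝ (fderiv ℝ g) y 1 I = fderiv ℝ (fderiv ℝ g) y I 1 := by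
  have := (hg.contDiffAt (x := y)).isSymmSndFDerivAt (by simp)
  exact this 1 I

lemma laplacian_eq_snd (g : ℂ → ℂ) (y : ℂ) :
    (Δ g) y = fderiv ℝ (fderiv ℝ g) y 1 1 + fderiv ℝ (fderiv ℝ g) y I I := by
  rw [laplacian_eq_iteratedFDeriv_complexPlane]
  simp [iteratedFDeriv_two_apply]

lemma Vop_Wop {g : ℂ → ℂ} (hg : ContDiff ℝ 2 g) : Vop (Wop g) = Δ g := by
  funext y
  rw [laplacian_eq_snd]
  simp only [Vop, fderiv_Wop hg]
  rw [snd_symm hg]
  linear_combination (-(fderiv ℝ (fderiv ℝ g) y I I)) * I_sq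

lemma Wop_Vop {g : ℂ → ℂ} (hg : ContDiff ℝ 2 g) : Wop (Vop g) = Δ g := by
  funext y
  rw [laplacian_eq_snd]
  simp only [Wop, fderiv_Vop hg]
  rw [snd_symm hg]
  linear_combination (-(fderiv ℝ (fderiv ℝ g) y I I)) * I_sq

/-- classical solutions are weak solutions -/
lemma weakHelm_of_classical {g : ℂ → ℂ} (hg : ContDiff ℝ 2 g) (hH : ∀ x, (Δ g) x = - g x) :
    WeakHelm g := by
  intro ψ hψ t
  have hg1 : ContDiff ℝ 1 g := hg.of_le (by norm_num)
  have e : ∀ (h : ℂ → ℂ), (∀ x, h x = - g x) → smear ψ h t = - smear ψ g t := by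
    intro h hh
    have : h = fun z => (-1) * g z := by funext z; rw [hh]; ring
    rw [this, smear_const_mul_right]; ring
  constructor
  · rw [smear_Wop hψ.vop hg1, smear_Vop hψ (contDiff_Wop hg), Vop_Wop hg]
    exact e _ hH
  · rw [smear_Vop hψ.wop hg1, smear_Wop hψ (contDiff_Vop hg), Wop_Vop hg]
    exact e _ hH

end

end Berry
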