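import Pool.Agent.LibH11.Berry.Equi2
import Pool.Agent.LibH11.Berry.Path

/-!
Approximate weak Helmholtz equation for correlations; exchanging ultralimits and integrals.
-/

open Complex Filter Topology MeasureTheory Metric InnerProductSpace Laplacian
open scoped ENNReal

namespace Berry

noncomputable section

variable {Ω : Type*} [MeasurableSpace Ω] {P : Measure Ω} [IsProbabilityMeasure P]

lemma laplacian_ofReal {f : ℂ → ℝ} (hf : ContDiff ℝ 2 f) (x : ℂ) :
    (Δ (fun x => (f x : ℂ))) x = (((Δ f) x : ℝ) : ℂ) := by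
  have := (hf.contDiffAt (x := x)).laplacian_CLM_comp_left (l := Complex.ofRealCLM)
  have e : (fun x => (f x : ℂ)) = Complex.ofRealCLM ∘ f := by
    funext x; simp
  rw [e, this]
  simp

/-- Fubini for smeared correlations -/
lemma smear_corr {F : ℂ → Ω → ℝ} (hF : SingleW P F) {G : Ω → ℝ} (hG : Measurable G)
    (hGb : ∃ K : ℝ, ∀ ω, |G ω| ≤ K) {ψ : ℂ → ℂ} (hψ : TestFn ψ) (t : ℂ) :
    smear ψ (fun y => ((∫ ω, F y ω * G ω ∂P : ℝ) : ℂ)) t
      = ∫ ω, (smear ψ (fun y => (F y ω : ℂ)) t) * (G ω : ℂ) ∂P := by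
  obtain ⟨K, hK⟩ := hF.bdd
  obtain ⟨K', hK'⟩ := hGb
  have hψi : Integrable ψ := hψ.continuous.integrable_of_hasCompactSupport hψ.2
  have hmF := hF.meas_uncurry
  have h1 : ∀ y, ψ y • ((∫ ω, F (t - y) ω * G ω ∂P : ℝ) : ℂ)
      = ∫ ω, ψ y * ((F (t - y) ω * G ω : ℝ) : ℂ) ∂P := by
    intro y
    rw [← integral_complex_ofReal, smul_eq_mul, ← integral_const_mul]
  unfold smear
  simp only [h1]
  rw [integral_integral_swap]
  · congr 1; funext ω
    rw [← integral_mul_const]
    congr 1; funext y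
    simp only [smul_eq_mul]; push_cast; ring
  · have h2 : Integrable (fun p : ℂ × Ω => ψ p.1 * (1:ℂ)) ((volume : Measure ℂ).prod P) :=
      hψi.mul_prod (integrable_const (1:ℂ))
    simp only [mul_one] at h2
    have h3 := h2.mul_bdd (g := fun p : ℂ × Ω => ((F (t - p.1) p.2 * G p.2 : ℝ) : ℂ))
      (c := K * K') ?_ ?_
    · exact h3
    · have h4 : Measurable fun p : ℂ × Ω => (t - p.1, p.2) := by fun_prop
      have h5 : Measurable fun p : ℂ × Ω => F (t - p.1) p.2 := hmF.comp h4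
      exact (Complex.measurable_ofReal.comp (h5.mul (hG.comp measurable_snd))).aestronglyMeasurable
    · refine Eventually.of_forall fun p => ?_
      rw [Complex.norm_real, norm_mul, Real.norm_eq_abs, Real.norm_eq_abs]
      exact mul_le_mul (hK _ _) (hK' _) (abs_nonneg _) ((abs_nonneg _).trans (hK 0 p.2))

/-- the approximate weak Helmholtz equation for correlations -/
lemma approx_helm {F : ℂ → Ω → ℝ} (hF : SingleW P F) {G : Ω → ℝ} (hG : Measurable G)
    (hGb : ∃ K : ℝ, ∀ ω, |G ω| ≤ K) {M : ℝ} (hM : ∀ y, ∫ ω, |F y ω| * |G ω| ∂P ≤ M)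
    {r δ : ℝ} (hδ : 0 ≤ δ)
    (heq : ∀ ω, ∀ x ∈ ball (0:ℂ) r, |(Δ (fun x => F x ω)) x + F x ω| ≤ δ * |F x ω|)
    {ψ : ℂ → ℂ} (hψ : TestFn ψ) {t : ℂ} (ht : ∀ y ∈ tsupport ψ, ‖t - y‖ < r)
    {η : ℂ → ℂ} (hη : η = Wop (Vop ψ) ∨ η = Vop (Wop ψ)) :
    ‖smear η (fun y => ((∫ ω, F y ω * G ω ∂P : ℝ) : ℂ)) t
      + smear ψ (fun y => ((∫ ω, F y ω * G ω ∂P : ℝ) : ℂ)) t‖ ≤ δ * M * ∫ y, ‖ψ y‖ := by
  obtain ⟨K, hK⟩ := hF.bdd
  obtain ⟨K', hK'⟩ := hGb
  have hψi : Integrable ψ := hψ.continuous.integrable_of_hasCompactSupport hψ.2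
  have hηt : TestFn η := by
    rcases hη with h | h
    · rw [h]; exact hψ.vop.wop
    · rw [h]; exact hψ.wop.vop
  have hmF := hF.meas_uncurry
  have hcd : ∀ ω, ContDiff ℝ 2 (fun x => (F x ω : ℂ)) := fun ω =>
    Complex.ofRealCLM.contDiff.comp (hF.smooth ω)
  have key : ∀ ω, smear η (fun y => (F y ω : ℂ)) t = smear ψ (Δ (fun y => (F y ω : ℂ))) t := by
    intro ω
    have hg1 : ContDiff ℝ 1 (fun x => (F x ω : ℂ)) := (hcd ω).of_le (by norm_num)
    rcases hη with h | h
    · rw [h, smear_Wop hψ.vop hg1, smear_Vop hψ (contDiff_Wop (hcd ω)), Vop_Wop (hcd ω)]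
    · rw [h, smear_Vop hψ.wop hg1, smear_Wop hψ (contDiff_Vop (hcd ω)), Wop_Vop (hcd ω)]
  have hpt : ∀ ω, ‖smear η (fun y => (F y ω : ℂ)) t + smear ψ (fun y => (F y ω : ℂ)) t‖
      ≤ ∫ y, ‖ψ y‖ * (δ * |F (t - y) ω|) := by
    intro ω
    have hlc : Continuous (Δ (fun y => (F y ω : ℂ))) := by
      have e : (Δ (fun y => (F y ω : ℂ))) = fun x => (((Δ (fun y => F y ω)) x : ℝ) : ℂ) := by
        funext x; exact laplacian_ofReal (hF.smooth ω) x
      rw [e]
      exact Complex.continuous_ofReal.comp (laplacian_continuous (hF.smooth ω))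
    rw [key ω, smear, smear, ← integral_add (smear_integrable hψ.continuous hψ.2 hlc t)
      (smear_integrable hψ.continuous hψ.2 (hcd ω).continuous t)]
    refine norm_integral_le_of_norm_le ?_ (Eventually.of_forall fun y => ?_)
    · have hc : Continuous fun y => ‖ψ y‖ * (δ * |F (t - y) ω|) :=
        hψ.continuous.norm.mul (continuous_const.mul
          (((hF.smooth ω).continuous.comp (continuous_const.sub continuous_id)).abs))
      exact hc.integrable_of_hasCompactSupport (hψ.2.norm.mul_right)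
    · rw [← smul_add, norm_smul]
      by_cases hy : y ∈ tsupport ψ
      · refine mul_le_mul_of_nonneg_left ?_ (norm_nonneg _)
        have h1 := heq ω (t - y) (by rw [mem_ball, dist_zero_right]; exact ht y hy)
        rw [laplacian_ofReal (hF.smooth ω), ← Complex.ofReal_add, Complex.norm_real,
          Real.norm_eq_abs]
        exact h1
      · have : ψ y = 0 := image_eq_zero_of_notMem_tsupport hy
        rw [this]; simp
  rw [smear_corr hF hG ⟨K', hK'⟩ hηt, smear_corr hF hG ⟨K', hK'⟩ hψ]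
  -- measurability
  have hsm : ∀ {χ : ℂ → ℂ}, TestFn χ → Integrable (fun ω =>
      (smear χ (fun y => (F y ω : ℂ)) t) * (G ω : ℂ)) P := by
    intro χ hχ
    have hχi : Integrable χ := hχ.continuous.integrable_of_hasCompactSupport hχ.2
    refine Integrable.of_bound (C := ((∫ y, ‖χ y‖) * K) * K') ?_ (Eventually.of_forall fun ω => ?_)
    · have h4 : Measurable fun p : Ω × ℂ => (t - p.2, p.1) := by fun_prop
      have h5 : Measurable fun p : Ω × ℂ => F (t - p.2) p.1 := hmF.comp h4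
      have h6 : Measurable fun p : Ω × ℂ => χ p.2 • ((F (t - p.2) p.1 : ℝ) : ℂ) :=
        (hχ.continuous.measurable.comp measurable_snd).smul (Complex.measurable_ofReal.comp h5)
      have h7 := (h6.stronglyMeasurable.integral_prod_right' (ν := (volume : Measure ℂ))).measurable
      exact (h7.mul (Complex.measurable_ofReal.comp hG)).aestronglyMeasurable
    · rw [norm_mul, Complex.norm_real, Real.norm_eq_abs]
      refine mul_le_mul ?_ (hK' ω) (abs_nonneg _) ?_
      · calc ‖smear χ (fun y => (F y ω : ℂ)) t‖ ≤ ∫ y, ‖χ y‖ * K := by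
              refine norm_integral_le_of_norm_le (hχi.norm.mul_const _)
                (Eventually.of_forall fun y => ?_)
              rw [norm_smul, Complex.norm_real, Real.norm_eq_abs]
              exact mul_le_mul_of_nonneg_left (hK _ _) (norm_nonneg _)
          _ = _ := by rw [integral_mul_const]
      · exact mul_nonneg (integral_nonneg fun _ => norm_nonneg _) ((abs_nonneg _).trans (hK 0 ω))
  rw [← integral_add (hsm hηt) (hsm hψ)]
  have h1 : ‖∫ ω, ((smear η (fun y => (F y ω : ℂ)) t) * (G ω : ℂ)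
      + (smear ψ (fun y => (F y ω : ℂ)) t) * (G ω : ℂ)) ∂P‖
      ≤ ∫ ω, (∫ y, ‖ψ y‖ * (δ * |F (t - y) ω|)) * |G ω| ∂P := by
    refine norm_integral_le_of_norm_le ?_ (Eventually.of_forall fun ω => ?_)
    · refine Integrable.of_bound (C := ((∫ y, ‖ψ y‖) * (δ * K)) * K') ?_
        (Eventually.of_forall fun ω => ?_)
      · have h4 : Measurable fun p : Ω × ℂ => (t - p.2, p.1) := by fun_prop
        have h5 : Measurable fun p : Ω × ℂ => F (t - p.2) p.1 := hmF.comp h4
        have h6 : Measurable fun p : Ω × ℂ => ‖ψ p.2‖ * (δ * |F (t - p.2) p.1|) :=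
          ((hψ.continuous.norm.measurable.comp measurable_snd)).mul (measurable_const.mul h5.abs)
        have h7 := (h6.stronglyMeasurable.integral_prod_right' (ν := (volume : Measure ℂ))).measurable
        exact (h7.mul hG.abs).aestronglyMeasurable
      · rw [norm_mul, Real.norm_eq_abs, Real.norm_eq_abs, abs_abs]
        refine mul_le_mul ?_ (hK' ω) (abs_nonneg _) ?_
        · rw [← Real.norm_eq_abs]
          calc ‖∫ y, ‖ψ y‖ * (δ * |F (t - y) ω|)‖ ≤ ∫ y, ‖ψ y‖ * (δ * K) := by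
                refine norm_integral_le_of_norm_le (hψi.norm.mul_const _)
                  (Eventually.of_forall fun y => ?_)
                rw [norm_mul, norm_mul, norm_norm, Real.norm_eq_abs, Real.norm_eq_abs, abs_abs,
                  abs_of_nonneg hδ]
                exact mul_le_mul_of_nonneg_left (mul_le_mul_of_nonneg_left (hK _ _) hδ)
                  (norm_nonneg _)
            _ = _ := by rw [integral_mul_const]
        · exact mul_nonneg (integral_nonneg fun _ => norm_nonneg _)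
            (mul_nonneg hδ ((abs_nonneg _).trans (hK 0 ω)))
    · rw [← add_mul, norm_mul, Complex.norm_real, Real.norm_eq_abs]
      exact mul_le_mul_of_nonneg_right (hpt ω) (abs_nonneg _)
  refine h1.trans ?_
  -- Fubini
  have h2 : ∫ ω, (∫ y, ‖ψ y‖ * (δ * |F (t - y) ω|)) * |G ω| ∂P
      = ∫ y, ∫ ω, ‖ψ y‖ * (δ * |F (t - y) ω|) * |G ω| ∂P := by
    rw [integral_integral_swap]
    · congr 1; funext ω; rw [integral_mul_const]
    · have h2 : Integrable (fun p : ℂ × Ω => ‖ψ p.1‖ * (1:ℝ)) ((volume : Measure ℂ).prod P) :=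
        hψi.norm.mul_prod (integrable_const (1:ℝ))
      simp only [mul_one] at h2
      have h3 := h2.mul_bdd (g := fun p : ℂ × Ω => δ * |F (t - p.1) p.2| * |G p.2|)
        (c := δ * K * K') ?_ ?_
      · refine h3.congr (Eventually.of_forall fun p => ?_)
        simp only [Function.uncurry]; ring
      · have h4 : Measurable fun p : ℂ × Ω => (t - p.1, p.2) := by fun_prop
        have h5 : Measurable fun p : ℂ × Ω => F (t - p.1) p.2 := hmF.comp h4
        exact ((measurable_const.mul h5.abs).mul (hG.comp measurable_snd).abs).aestronglyMeasurable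
      · refine Eventually.of_forall fun p => ?_
        rw [norm_mul, norm_mul, Real.norm_eq_abs, Real.norm_eq_abs, Real.norm_eq_abs, abs_abs,
          abs_abs, abs_of_nonneg hδ]
        exact mul_le_mul (mul_le_mul_of_nonneg_left (hK _ _) hδ) (hK' _) (abs_nonneg _)
          (mul_nonneg hδ ((abs_nonneg _).trans (hK 0 p.2)))
  rw [h2]
  have h3 : ∀ y, ∫ ω, ‖ψ y‖ * (δ * |F (t - y) ω|) * |G ω| ∂P ≤ ‖ψ y‖ * (δ * M) := by
    intro y
    have e : ∀ ω, ‖ψ y‖ * (δ * |F (t - y) ω|) * |G ω| = (‖ψ y‖ * δ) * (|F (t - y) ω| * |G ω|) :=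
      fun ω => by ring
    simp only [e]
    rw [integral_const_mul]
    calc (‖ψ y‖ * δ) * ∫ ω, |F (t - y) ω| * |G ω| ∂P ≤ (‖ψ y‖ * δ) * M :=
          mul_le_mul_of_nonneg_left (hM _) (mul_nonneg (norm_nonneg _) hδ)
      _ = _ := by ring
  calc ∫ y, ∫ ω, ‖ψ y‖ * (δ * |F (t - y) ω|) * |G ω| ∂P ≤ ∫ y, ‖ψ y‖ * (δ * M) := by
        refine integral_mono_of_nonneg (Eventually.of_forall fun y => ?_) (hψi.norm.mul_const _)
          (Eventually.of_forall h3)
        exact integral_nonneg fun ω => mul_nonneg (mul_nonneg (norm_nonneg _)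
          (mul_nonneg hδ (abs_nonneg _))) (abs_nonneg _)
    _ = δ * M * ∫ y, ‖ψ y‖ := by rw [integral_mul_const]; ring

/-- exchanging an ultralimit with an integral against a test function -/
lemma ultra_smear {U : Filter ℕ} {g : ℕ → ℂ → ℝ} {g₀ : ℂ → ℝ}
    (hgc : ∀ᶠ n in U, Continuous (g n)) (hg₀ : Continuous g₀)
    (hlim : ∀ z, Tendsto (fun n => g n z) U (𝓝 (g₀ z)))
    (hequi : ∀ r η : ℝ, 0 < η → ∃ d > 0, ∀ᶠ n in U, ∀ t t' : ℂ, ‖t‖ < r → ‖t'‖ < r →
      ‖t - t'‖ < d → |g n t - g n t'| ≤ η)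
    {ψ : ℂ → ℂ} (hψ : TestFn ψ) (t : ℂ) :
    Tendsto (fun n => smear ψ (fun y => ((g n y : ℝ) : ℂ)) t) U
      (𝓝 (smear ψ (fun y => ((g₀ y : ℝ) : ℂ)) t)) := by
  have hψi : Integrable ψ := hψ.continuous.integrable_of_hasCompactSupport hψ.2
  set K : Set ℂ := (fun y => t - y) '' tsupport ψ with hK
  have hKc : IsCompact K := hψ.2.isCompact.image (by fun_prop)
  obtain ⟨r, hr⟩ := hKc.isBounded.subset_ball (0:ℂ)
  -- uniform convergence on `K`
  have hunif : ∀ η : ℝ, 0 < η → ∀ᶠ n in U, ∀ z ∈ K, |g n z - g₀ z| ≤ 3 * η := by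
    intro η hη
    obtain ⟨d, hd, h1⟩ := hequi r η hη
    obtain ⟨d', hd', h2⟩ : ∃ d' > 0, ∀ z ∈ K, ∀ z' ∈ K, dist z z' < d' → |g₀ z - g₀ z'| ≤ η := by
      have huc := hKc.uniformContinuousOn_of_continuous hg₀.continuousOn
      obtain ⟨d', hd', h⟩ := Metric.uniformContinuousOn_iff.1 huc η hη
      exact ⟨d', hd', fun z hz z' hz' hzz => (h z hz z' hz' hzz).le⟩
    set e := min d d' with he
    have he0 : 0 < e := lt_min hd hd'
    obtain ⟨S, hSK, hSf, hcov⟩ := hKc.finite_cover_balls he0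
    have h3 : ∀ᶠ n in U, ∀ p ∈ S, |g n p - g₀ p| ≤ η := by
      rw [eventually_all_finite hSf]
      intro p _
      have h4 := Metric.tendsto_nhds.1 (hlim p) η hη
      filter_upwards [h4] with n hn
      rw [Real.dist_eq] at hn
      exact hn.le
    filter_upwards [h1, h3] with n hn1 hn3 z hz
    have hz2 := hcov hz
    simp only [Set.mem_iUnion, exists_prop] at hz2
    obtain ⟨p, hp, hzp⟩ := hz2
    rw [mem_ball] at hzp
    have hpK : p ∈ K := hSK hp
    have a1 := hn1 z p (by simpa [mem_ball, dist_zero_right] using hr hz)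
      (by simpa [mem_ball, dist_zero_right] using hr hpK)
      (by rw [← dist_eq_norm]; exact lt_of_lt_of_le hzp (min_le_left _ _))
    have a2 := hn3 p hp
    have a3 := h2 p hpK z hz (by rw [dist_comm]; exact lt_of_lt_of_le hzp (min_le_right _ _))
    have e1 : g n z - g₀ z = (g n z - g n p) + (g n p - g₀ p) + (g₀ p - g₀ z) := by ring
    rw [e1]
    have b1 := abs_add_le ((g n z - g n p) + (g n p - g₀ p)) (g₀ p - g₀ z)
    have b2 := abs_add_le (g n z - g n p) (g n p - g₀ p)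
    linarith
  set L := ∫ y, ‖ψ y‖ with hL
  have hL0 : 0 ≤ L := integral_nonneg fun _ => norm_nonneg _
  rw [Metric.tendsto_nhds]
  intro ε hε
  filter_upwards [hunif (ε / (6 * (L + 1))) (by positivity), hgc] with n hn hnc
  rw [dist_eq_norm]
  have i1 : Integrable fun y => ψ y • ((g n (t - y) : ℝ) : ℂ) :=
    smear_integrable hψ.continuous hψ.2 (Complex.continuous_ofReal.comp hnc) t
  have i2 : Integrable fun y => ψ y • ((g₀ (t - y) : ℝ) : ℂ) :=
    smear_integrable hψ.continuous hψ.2 (Complex.continuous_ofReal.comp hg₀) t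
  have e1 : smear ψ (fun y => ((g n y : ℝ) : ℂ)) t - smear ψ (fun y => ((g₀ y : ℝ) : ℂ)) t
      = ∫ y, (ψ y • ((g n (t - y) : ℝ) : ℂ) - ψ y • ((g₀ (t - y) : ℝ) : ℂ)) := by
    rw [smear, smear, ← integral_sub i1 i2]
  rw [e1]
  have h5 : ‖∫ y, (ψ y • ((g n (t - y) : ℝ) : ℂ) - ψ y • ((g₀ (t - y) : ℝ) : ℂ))‖
      ≤ ∫ y, ‖ψ y‖ * (3 * (ε / (6 * (L + 1)))) := by
    refine norm_integral_le_of_norm_le (hψi.norm.mul_const _) (Eventually.of_forall fun y => ?_)
    rw [← smul_sub, norm_smul, ← Complex.ofReal_sub, Complex.norm_real, Real.norm_eq_abs]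
    by_cases hy : y ∈ tsupport ψ
    · exact mul_le_mul_of_nonneg_left (hn _ ⟨y, hy, rfl⟩) (norm_nonneg _)
    · have : ψ y = 0 := image_eq_zero_of_notMem_tsupport hy
      rw [this]; simp
  refine lt_of_le_of_lt h5 ?_
  rw [integral_mul_const]
  have : L * (3 * (ε / (6 * (L + 1)))) ≤ ε / 2 := by
    have e2 : L * (3 * (ε / (6 * (L + 1)))) = (L / (L + 1)) * (ε / 2) := by
      field_simp; ring
    rw [e2]
    have h6 : L / (L + 1) ≤ 1 := by rw [div_le_one (by positivity)]; linarith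
    nlinarith
  linarith

end

end Berry
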