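import Mathlib

/-!
The Bochner integral of an `Lᵖ`-valued function agrees with the pointwise integral.
-/

open Complex Filter Topology MeasureTheory
open scoped ENNReal

namespace Berry

noncomputable section

variable {Ω : Type*} [MeasurableSpace Ω] {P : Measure Ω} [IsProbabilityMeasure P]

lemma integral_norm_le_Lp {p : ℝ≥0∞} [Fact (1 ≤ p)] (f : Lp ℂ p P) :
    ∫ ω, ‖f ω‖ ∂P ≤ ‖f‖ := by
  have h1 : MemLp f p P := Lp.memLp f
  have h2 : eLpNorm f 1 P ≤ eLpNorm f p P :=
    eLpNorm_le_eLpNorm_of_exponent_le Fact.out h1.1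
  have h3 : ∫ ω, ‖f ω‖ ∂P = (eLpNorm f 1 P).toReal := by
    rw [eLpNorm_one_eq_lintegral_enorm, integral_norm_eq_lintegral_enorm h1.1]
  rw [h3, Lp.norm_def]
  exact ENNReal.toReal_mono h1.2.ne h2

lemma Lp_integrable {p : ℝ≥0∞} [hp : Fact (1 ≤ p)] (f : Lp ℂ p P) : Integrable f P :=
  (Lp.memLp f).integrable hp.out

/-- integration over a set as a continuous linear functional on `Lᵖ` -/
def setIntCLM (P : Measure Ω) [IsProbabilityMeasure P] (p : ℝ≥0∞) [Fact (1 ≤ p)] (s : Set Ω) :
    Lp ℂ p P →L[ℝ] ℂ :=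
  LinearMap.mkContinuous
    { toFun := fun f => ∫ ω in s, f ω ∂P
      map_add' := by
        intro f g
        rw [← integral_add (Lp_integrable f).integrableOn (Lp_integrable g).integrableOn]
        apply integral_congr_ae
        exact ae_restrict_of_ae (Lp.coeFn_add f g)
      map_smul' := by
        intro c f
        rw [RingHom.id_apply, ← integral_smul]
        apply integral_congr_ae
        exact ae_restrict_of_ae (Lp.coeFn_smul c f) }
    1 (by
      intro f
      rw [one_mul]
      calc ‖∫ ω in s, f ω ∂P‖ ≤ ∫ ω in s, ‖f ω‖ ∂P := norm_integral_le_integral_norm _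
        _ ≤ ∫ ω, ‖f ω‖ ∂P := setIntegral_le_integral (Lp_integrable f).norm
            (Eventually.of_forall fun _ => norm_nonneg _)
        _ ≤ ‖f‖ := integral_norm_le_Lp f)

lemma setIntCLM_apply (p : ℝ≥0∞) [Fact (1 ≤ p)] (s : Set Ω) (f : Lp ℂ p P) :
    setIntCLM P p s f = ∫ ω in s, f ω ∂P := rfl

lemma Lp_integrable_prod {α : Type*} [MeasurableSpace α] {μ : Measure α} [SFinite μ]
    {p : ℝ≥0∞} [Fact (1 ≤ p)] {g : α → Ω → ℂ} (hm : StronglyMeasurable (Function.uncurry g))
    (hp : ∀ x, MemLp (g x) p P) (hi : Integrable (fun x => (hp x).toLp (g x)) μ) :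
    Integrable (Function.uncurry g) (μ.prod P) := by
  rw [integrable_prod_iff hm.aestronglyMeasurable]
  refine ⟨Eventually.of_forall fun x => (hp x).integrable Fact.out, ?_⟩
  refine hi.norm.mono' ?_ ?_
  · exact (hm.norm.integral_prod_right).aestronglyMeasurable
  · refine Eventually.of_forall fun x => ?_
    rw [Real.norm_of_nonneg (integral_nonneg fun _ => norm_nonneg _)]
    have := integral_norm_le_Lp ((hp x).toLp (g x))
    refine le_trans (le_of_eq ?_) this
    apply integral_congr_ae
    filter_upwards [(hp x).coeFn_toLp] with ω hω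
    rw [hω]; rfl

/-- The Bochner integral of an `Lᵖ`-valued function agrees a.e. with the pointwise integral. -/
lemma Lp_integral_coeFn {α : Type*} [MeasurableSpace α] {μ : Measure α} [SFinite μ]
    {p : ℝ≥0∞} [Fact (1 ≤ p)] {g : α → Ω → ℂ} (hm : StronglyMeasurable (Function.uncurry g))
    (hp : ∀ x, MemLp (g x) p P) (hi : Integrable (fun x => (hp x).toLp (g x)) μ) :
    (∫ x, (hp x).toLp (g x) ∂μ : Lp ℂ p P) =ᵐ[P] fun ω => ∫ x, g x ω ∂μ := by
  have hprod := Lp_integrable_prod hm hp hi
  apply Integrable.ae_eq_of_forall_setIntegral_eq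
  · exact Lp_integrable _
  · exact hprod.integral_prod_right
  · intro s _ _
    rw [← setIntCLM_apply, ← ContinuousLinearMap.integral_comp_comm _ hi]
    have h1 : ∀ x, setIntCLM P p s ((hp x).toLp (g x)) = ∫ ω in s, g x ω ∂P := by
      intro x
      rw [setIntCLM_apply]
      apply integral_congr_ae
      exact ae_restrict_of_ae (hp x).coeFn_toLp
    simp only [h1]
    have h2 : Integrable (Function.uncurry g) (μ.prod (P.restrict s)) := by
      refine hprod.mono_measure ?_
      exact Measure.prod_mono le_rfl Measure.restrict_le_self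
    exact integral_integral_swap h2

end

end Berry
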