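import Pool.Agent.LibH11.Berry.Path
import Pool.Agent.LibH11.Berry.LpInt
import Pool.Agent.LibH11.Berry.Defs

/-!
Invariant monochromatic waves on the plane and their `L⁴`-valued version.
-/

open Complex Filter Topology MeasureTheory ProbabilityTheory InnerProductSpace Laplacian
open scoped ENNReal

namespace Berry

noncomputable section

variable {Ω : Type*} [MeasurableSpace Ω] {P : Measure Ω} [IsProbabilityMeasure P]
  {F : ℂ → Ω → ℝ}

omit [IsProbabilityMeasure P] in
lemma InvWave.identDistrib (hF : InvWave P F) (x : ℂ) : IdentDistrib (F x) (F 0) P P := by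
  have h1 := (hF.stationary x).comp (u := fun f : ℂ → ℝ => f 0) (measurable_pi_apply 0)
  have e1 : (fun f : ℂ → ℝ => f 0) ∘ (fun ω x' => F (x' + x) ω) = F x := by
    funext ω; simp
  have e2 : (fun f : ℂ → ℝ => f 0) ∘ (fun ω x' => F x' ω) = F 0 := by
    funext ω; simp
  rw [e1, e2] at h1
  exact h1

omit [IsProbabilityMeasure P] in
lemma InvWave.memLp (hF : InvWave P F) (h4 : MemLp (F 0) 4 P) (x : ℂ) : MemLp (F x) 4 P :=
  (hF.identDistrib x).memLp_iff.2 h4

omit [IsProbabilityMeasure P] in
lemma InvWave.memLpC (hF : InvWave P F) (h4 : MemLp (F 0) 4 P) (x : ℂ) :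
    MemLp (fun ω => (F x ω : ℂ)) 4 P := (hF.memLp h4 x).ofReal

omit [IsProbabilityMeasure P] in
lemma InvWave.measurable_uncurry (hF : InvWave P F) : Measurable (Function.uncurry F) :=
  measurable_uncurry_of_continuous_of_measurable (fun ω => (hF.smooth ω).continuous) hF.measurable

/-- the `L⁴`-valued version of the field -/
def InvWave.toL4 (hF : InvWave P F) (h4 : MemLp (F 0) 4 P) (x : ℂ) : Lp ℂ 4 P :=
  (hF.memLpC h4 x).toLp _

omit [IsProbabilityMeasure P] in
lemma InvWave.coeFn_toL4 (hF : InvWave P F) (h4 : MemLp (F 0) 4 P) (x : ℂ) :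
    hF.toL4 h4 x =ᵐ[P] fun ω => (F x ω : ℂ) := (hF.memLpC h4 x).coeFn_toLp

lemma InvWave.continuous_toL4 (hF : InvWave P F) (h4 : MemLp (F 0) 4 P) :
    Continuous (hF.toL4 h4) := by
  rw [continuous_iff_continuousAt]
  intro x
  rw [ContinuousAt, tendsto_nhds_iff_seq_tendsto]
  intro u hu
  have hui : UniformIntegrable F 4 P :=
    MemLp.uniformIntegrable_of_identDistrib (j := 0) (by norm_num) (by norm_num) h4
      hF.identDistrib
  have hui2 : UnifIntegrable (fun n => F (u n)) 4 P := by
    intro ε hε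
    obtain ⟨δ, hδ, h⟩ := hui.2.1 hε
    exact ⟨δ, hδ, fun i s hs hm => h (u i) s hs hm⟩
  have hlim : Tendsto (fun n => eLpNorm (F (u n) - F x) 4 P) atTop (𝓝 0) := by
    refine tendsto_Lp_finite_of_tendsto_ae (by norm_num) (by norm_num)
      (fun n => (hF.measurable _).aestronglyMeasurable) (hF.memLp h4 x) hui2 ?_
    refine Eventually.of_forall fun ω => ?_
    exact ((hF.smooth ω).continuous.tendsto x).comp hu
  have : Tendsto (fun n => (hF.memLpC h4 (u n)).toLp _) atTop (𝓝 ((hF.memLpC h4 x).toLp _)) := by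
    rw [Lp.tendsto_Lp_iff_tendsto_eLpNorm'']
    refine hlim.congr fun n => ?_
    have e : (fun ω => (F (u n) ω : ℂ)) - (fun ω => (F x ω : ℂ)) =
        fun ω => (((F (u n) - F x) ω : ℝ) : ℂ) := by
      funext ω; simp
    rw [e]
    refine (eLpNorm_congr_norm_ae (Eventually.of_forall fun ω => ?_)).symm
    rw [Complex.norm_real]
  exact this

/-- the `L⁴`-valued field is a weak solution of the Helmholtz equation -/
lemma InvWave.weakHelm (hF : InvWave P F) (h4 : MemLp (F 0) 4 P) : WeakHelm (hF.toL4 h4) := by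
  have hcont := hF.continuous_toL4 h4
  -- the pointwise version of smearing
  have key : ∀ ψ, TestFn ψ → ∀ t, (smear ψ (hF.toL4 h4) t : Lp ℂ 4 P) =ᵐ[P]
      fun ω => smear ψ (fun x => (F x ω : ℂ)) t := by
    intro ψ hψ t
    have hm : StronglyMeasurable (Function.uncurry fun (y : ℂ) ω => ψ y * (F (t - y) ω : ℂ)) := by
      have h1 : Measurable (Function.uncurry fun (y : ℂ) ω => ψ y * (F (t - y) ω : ℂ)) := by
        have h2 : Measurable fun p : ℂ × Ω => (t - p.1, p.2) :=
          (measurable_const.sub measurable_fst).prodMk measurable_snd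
        have h3 : Measurable fun p : ℂ × Ω => (F (t - p.1) p.2 : ℂ) :=
          Complex.measurable_ofReal.comp (hF.measurable_uncurry.comp h2)
        exact (hψ.continuous.measurable.comp measurable_fst).mul h3
      exact h1.stronglyMeasurable
    have hp : ∀ y, MemLp (fun ω => ψ y * (F (t - y) ω : ℂ)) 4 P := fun y =>
      (hF.memLpC h4 (t - y)).const_mul (ψ y)
    have he : (fun y => (hp y).toLp _) = fun y => ψ y • hF.toL4 h4 (t - y) := by
      funext y
      rw [InvWave.toL4, ← MemLp.toLp_const_smul]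
      rfl
    have hi : Integrable (fun y => (hp y).toLp _) (volume : Measure ℂ) := by
      rw [he]; exact smear_integrable hψ.continuous hψ.2 hcont t
    have := Lp_integral_coeFn hm hp hi
    rw [he] at this
    exact this
  intro ψ hψ t
  have hpath : ∀ ω, WeakHelm (fun x => (F x ω : ℂ)) := by
    intro ω
    apply weakHelm_of_classical
    · exact Complex.ofRealCLM.contDiff.comp (hF.smooth ω)
    · intro x
      have := ((hF.smooth ω).contDiffAt (x := x)).laplacian_CLM_comp_left (l := Complex.ofRealCLM)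
      have e : (fun x => (F x ω : ℂ)) = Complex.ofRealCLM ∘ (fun x => F x ω) := by
        funext x; simp
      rw [e, this]
      simp [hF.helmholtz ω x]
  constructor
  · apply Lp.ext
    filter_upwards [key _ hψ.vop.wop t, key _ hψ t, Lp.coeFn_neg (smear ψ (hF.toL4 h4) t)]
      with ω h1 h2 h3
    rw [h1, h3, Pi.neg_apply, h2]
    exact (hpath ω ψ hψ t).1
  · apply Lp.ext
    filter_upwards [key _ hψ.wop.vop t, key _ hψ t, Lp.coeFn_neg (smear ψ (hF.toL4 h4) t)]
      with ω h1 h2 h3
    rw [h1, h3, Pi.neg_apply, h2]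
    exact (hpath ω ψ hψ t).2

end

end Berry
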