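import Pool.Agent.LibH11.Berry.Inst

/-!
The general four-point formula for invariant planar monochromatic waves.
-/

open Complex Filter Topology MeasureTheory ProbabilityTheory Metric
open scoped ENNReal NNReal InnerProductSpace

namespace Berry

noncomputable section

variable {Ω : Type*} [MeasurableSpace Ω] {P : Measure Ω} [IsProbabilityMeasure P]
  {F : ℂ → Ω → ℝ}

omit [IsProbabilityMeasure P] in
lemma L2_inner_eq (f g : Lp ℝ 2 P) : inner ℝ f g = ∫ ω, f ω * g ω ∂P := by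
  rw [L2.inner_def]
  congr 1
  funext ω
  simp only [RCLike.inner_apply, conj_trivial]
  ring

/-- **General four-point formula.** -/
theorem InvWave.four_point_formula (hF : InvWave P F) (h4 : MemLp (F 0) 4 P) :
    ∃ (c : ℂ → Ω → ℝ) (h : ℂ → ℝ),
      (∀ a, MemLp (c a) 2 P) ∧
      (∀ a, Tendsto (fun R : ℝ => ∫ ω, (spatialAvg F a R ω - c a ω) ^ 2 ∂P) atTop (𝓝 0)) ∧
      (∀ y, Tendsto (fun R : ℝ => ⨍ s in ball (0:ℂ) R, ∫ ω, c s ω * c (s + y) ω ∂P) atTop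
        (𝓝 (h y))) ∧
      (∀ x₁ x₂ x₃ x₄ : ℂ, ∫ ω, F x₁ ω * F x₂ ω * F x₃ ω * F x₄ ω ∂P
        = (∫ ω, c (x₁ - x₂) ω * c (x₃ - x₄) ω ∂P) + (∫ ω, c (x₁ - x₃) ω * c (x₂ - x₄) ω ∂P)
          + (∫ ω, c (x₁ - x₄) ω * c (x₂ - x₃) ω ∂P)
          - h (x₁ + x₂ - x₃ - x₄) - h (x₁ - x₂ + x₃ - x₄) - h (x₁ - x₂ - x₃ + x₄)) ∧
      0 ≤ h 0 ∧ 2 * h 0 ≤ ∫ ω, c 0 ω ^ 2 ∂P := by
  set hu := hF.pairP h4 with hhu
  obtain ⟨h, hh, hform⟩ := hu.formula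
  refine ⟨fun a => hu.cov a, fun y => (h y).re, fun a => Lp.memLp _, ?_, ?_, ?_, ?_⟩
  · intro a
    have h1 := hu.tendsto_cov a
    rw [tendsto_iff_norm_sub_tendsto_zero] at h1
    have h2 := h1.pow 2
    rw [zero_pow (by norm_num)] at h2
    refine h2.congr fun R => ?_
    rw [← real_inner_self_eq_norm_sq, L2_inner_eq]
    apply integral_congr_ae
    filter_upwards [hF.avg_uR_coeFn h4 a R, Lp.coeFn_sub (⨍ s in ball (0:ℂ) R,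
      hF.uR h4 s (a + s)) (hu.cov a)] with ω e1 e2
    rw [e2, Pi.sub_apply, e1]; ring
  · intro y
    have h2 := (Complex.continuous_re.tendsto _).comp (hh y)
    refine h2.congr fun R => ?_
    simp only [Function.comp]
    have e : hu.gg y = fun s => ((inner ℝ (hu.cov s) (hu.cov (s + y)) : ℝ) : ℂ) := rfl
    rw [e, avg_ofReal, Complex.ofReal_re]
    congr 1
    funext s
    rw [L2_inner_eq]
  · intro x₁ x₂ x₃ x₄
    have h1 := congrArg Complex.re (hform ![x₁, x₂, x₃, x₄])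
    have e0 : hu.C4f ![x₁, x₂, x₃, x₄]
        = ((∫ ω, F x₁ ω * F x₂ ω * F x₃ ω * F x₄ ω ∂P : ℝ) : ℂ) := by
      rw [← hF.uR_inner h4]; rfl
    have e1 : hu.P12 ![x₁, x₂, x₃, x₄]
        = ((∫ ω, hu.cov (x₁ - x₂) ω * hu.cov (x₃ - x₄) ω ∂P : ℝ) : ℂ) := by
      rw [← L2_inner_eq, hu.cov_sub_comm x₁ x₂, hu.cov_sub_comm x₃ x₄]; rfl
    have e2 : hu.P23 ![x₁, x₂, x₃, x₄]
        = ((∫ ω, hu.cov (x₁ - x₄) ω * hu.cov (x₂ - x₃) ω ∂P : ℝ) : ℂ) := by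
      rw [← L2_inner_eq, hu.cov_sub_comm x₁ x₄, hu.cov_sub_comm x₂ x₃, real_inner_comm]; rfl
    have e3 : hu.P13 ![x₁, x₂, x₃, x₄]
        = ((∫ ω, hu.cov (x₁ - x₃) ω * hu.cov (x₂ - x₄) ω ∂P : ℝ) : ℂ) := by
      rw [← L2_inner_eq, hu.cov_sub_comm x₁ x₃, hu.cov_sub_comm x₂ x₄]; rfl
    rw [e0, e1, e2, e3] at h1
    simp only [Complex.add_re, Complex.sub_re, Complex.ofReal_re] at h1
    have f1 : (![x₁, x₂, x₃, x₄] : Fin 4 → ℂ) 0 = x₁ := rfl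
    have f2 : (![x₁, x₂, x₃, x₄] : Fin 4 → ℂ) 1 = x₂ := rfl
    have f3 : (![x₁, x₂, x₃, x₄] : Fin 4 → ℂ) 2 = x₃ := rfl
    have f4 : (![x₁, x₂, x₃, x₄] : Fin 4 → ℂ) 3 = x₄ := rfl
    rw [f1, f2, f3, f4] at h1
    rw [h1]
    ring
  · have h1 := hu.h_zero_bounds (hh 0)
    refine ⟨h1.1, h1.2.trans (le_of_eq ?_)⟩
    rw [← real_inner_self_eq_norm_sq, L2_inner_eq]
    congr 1
    funext ω; ring

/-- sharp bounds for the fourth moment -/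
theorem InvWave.kurtosis (hF : InvWave P F) (h4 : MemLp (F 0) 4 P) :
    ∃ V : Ω → ℝ, MemLp V 2 P ∧
      Tendsto (fun R : ℝ => ∫ ω, (spatialAvg F 0 R ω - V ω) ^ 2 ∂P) atTop (𝓝 0) ∧
      (3 / 2) * ∫ ω, V ω ^ 2 ∂P ≤ ∫ ω, F 0 ω ^ 4 ∂P ∧
      ∫ ω, F 0 ω ^ 4 ∂P ≤ 3 * ∫ ω, V ω ^ 2 ∂P := by
  obtain ⟨c, h, hc, hlim, -, hform, h0, h1⟩ := hF.four_point_formula h4
  have e := hform 0 0 0 0
  have e1 : ∫ ω, F 0 ω * F 0 ω * F 0 ω * F 0 ω ∂P = ∫ ω, F 0 ω ^ 4 ∂P := by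
    congr 1; funext ω; ring
  have e2 : ∫ ω, c (0 - 0) ω * c (0 - 0) ω ∂P = ∫ ω, c 0 ω ^ 2 ∂P := by
    congr 1; funext ω; rw [sub_zero]; ring
  rw [e1, e2] at e
  simp only [add_zero, sub_zero] at e
  refine ⟨c 0, hc 0, hlim 0, ?_, ?_⟩
  · linarith
  · linarith

end

end Berry
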