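import Pool.Agent.LibH11.Berry.Smear
import Pool.Agent.LibH11.Berry.Avg
import Pool.Agent.LibH11.Berry.Core2

/-!
Smearing functions of four planar variables in each variable.
-/

open Complex Filter Topology MeasureTheory Convolution Metric
open scoped ENNReal ContDiff

namespace Berry

noncomputable section

/-- tensor product of four test functions -/
def ten (ψ : Fin 4 → ℂ → ℂ) (y : Fin 4 → ℂ) : ℂ := ∏ j, ψ j (y j)

/-- smearing in four variables -/
def sm (ψ : Fin 4 → ℂ → ℂ) (C : (Fin 4 → ℂ) → ℂ) (t : Fin 4 → ℂ) : ℂ := ∫ y, ten ψ y * C (t - y)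

lemma ten_contDiff {ψ : Fin 4 → ℂ → ℂ} (h : ∀ j, TestFn (ψ j)) : ContDiff ℝ ∞ (ten ψ) := by
  unfold ten
  apply contDiff_prod
  intro j _
  exact (h j).1.comp (contDiff_apply ℝ ℂ j)

lemma ten_hasCompactSupport {ψ : Fin 4 → ℂ → ℂ} (h : ∀ j, TestFn (ψ j)) :
    HasCompactSupport (ten ψ) := by
  apply HasCompactSupport.intro (isCompact_univ_pi (fun j => (h j).2.isCompact))
  intro y hy
  simp only [Set.mem_pi, Set.mem_univ, true_implies, not_forall] at hy
  obtain ⟨j, hj⟩ := hy
  exact Finset.prod_eq_zero (Finset.mem_univ j) (image_eq_zero_of_notMem_tsupport hj)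

lemma ten_continuous {ψ : Fin 4 → ℂ → ℂ} (h : ∀ j, TestFn (ψ j)) : Continuous (ten ψ) :=
  (ten_contDiff h).continuous

lemma ten_integrable {ψ : Fin 4 → ℂ → ℂ} (h : ∀ j, TestFn (ψ j)) : Integrable (ten ψ) :=
  (ten_continuous h).integrable_of_hasCompactSupport (ten_hasCompactSupport h)

lemma sm_integrable {C : (Fin 4 → ℂ) → ℂ} (hC : Continuous C) {ψ : Fin 4 → ℂ → ℂ}
    (h : ∀ j, TestFn (ψ j)) (t : Fin 4 → ℂ) : Integrable (fun y => ten ψ y * C (t - y)) :=
  ((ten_continuous h).mul (hC.comp (continuous_const.sub continuous_id))).integrable_of_hasCompactSupport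
    (ten_hasCompactSupport h).mul_right

lemma update_testFn {ψ : Fin 4 → ℂ → ℂ} (h : ∀ j, TestFn (ψ j)) {χ : ℂ → ℂ} (hχ : TestFn χ)
    (j : Fin 4) : ∀ i, TestFn (Function.update ψ j χ i) := by
  intro i
  by_cases hij : i = j
  · subst hij; simpa using hχ
  · rw [Function.update_of_ne hij]; exact h i

lemma ten_update (ψ : Fin 4 → ℂ → ℂ) (χ : ℂ → ℂ) (j : Fin 4) (y : Fin 4 → ℂ) :
    ten (Function.update ψ j χ) y = χ (y j) * ∏ i ∈ Finset.univ.erase j, ψ i (y i) := by
  unfold ten
  rw [← Finset.mul_prod_erase Finset.univ _ (Finset.mem_univ j), Function.update_self]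
  congr 1
  apply Finset.prod_congr rfl
  intro i hi
  rw [Function.update_of_ne (Finset.ne_of_mem_erase hi)]

lemma ten_fderiv {ψ : Fin 4 → ℂ → ℂ} (h : ∀ j, TestFn (ψ j)) (y v : Fin 4 → ℂ) :
    fderiv ℝ (ten ψ) y v
      = ∑ j, ten (Function.update ψ j (fun z => fderiv ℝ (ψ j) z (v j))) y := by
  have h1 : HasFDerivAt (ten ψ) (∑ j, (∏ i ∈ Finset.univ.erase j, ψ i (y i)) •
      ((fderiv ℝ (ψ j) (y j)).comp (ContinuousLinearMap.proj j : (Fin 4 → ℂ) →L[ℝ] ℂ))) y := by
    unfold ten
    apply HasFDerivAt.finsetProd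
    intro j _
    exact ((h j).differentiable (y j)).hasFDerivAt.comp y
      (ContinuousLinearMap.proj j : (Fin 4 → ℂ) →L[ℝ] ℂ).hasFDerivAt
  rw [h1.fderiv]
  rw [_root_.sum_apply]
  refine Finset.sum_congr rfl fun j _ => ?_
  rw [ten_update]
  simp [mul_comm]

/-- the derivative of a smeared function in four variables -/
lemma sm_hasDerivAt {C : (Fin 4 → ℂ) → ℂ} (hC : Continuous C) {ψ : Fin 4 → ℂ → ℂ}
    (h : ∀ j, TestFn (ψ j)) (t v : Fin 4 → ℂ) :
    HasDerivAt (fun s : ℝ => sm ψ C (t + s • v))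
      (∑ j, sm (Function.update ψ j (fun z => fderiv ℝ (ψ j) z (v j))) C t) 0 := by
  have hcd : ContDiff ℝ 1 (ten ψ) := (ten_contDiff h).of_le (by exact_mod_cast le_top)
  have hcs := ten_hasCompactSupport h
  have h1 := hcs.hasFDerivAt_convolution_left (μ := (volume : Measure (Fin 4 → ℂ)))
    (ContinuousLinearMap.lsmul ℝ ℂ) hcd (hC.locallyIntegrable (μ := volume)) t
  have h2 : HasDerivAt (fun s : ℝ => t + s • v) v 0 := by
    have := ((hasDerivAt_id (0:ℝ)).smul_const v).const_add t
    simpa using this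
  have h3 := HasFDerivAt.comp_hasDerivAt_of_eq (0:ℝ) h1 h2 (by simp)
  have e0 : sm ψ C = (ten ψ ⋆[ContinuousLinearMap.lsmul ℝ ℂ, volume] C) := by
    funext t
    simp [sm, convolution_def]
  rw [e0]
  refine h3.congr_deriv ?_
  rw [convolution_def, ContinuousLinearMap.integral_apply]
  · unfold sm
    rw [← integral_finsetSum]
    · congr 1
      funext y
      have : ((ContinuousLinearMap.precompL (Fin 4 → ℂ) (ContinuousLinearMap.lsmul ℝ ℂ))
        (fderiv ℝ (ten ψ) y) (C (t - y))) v = fderiv ℝ (ten ψ) y v * C (t - y) := rfl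
      rw [this, ten_fderiv h, Finset.sum_mul]
    · intro j _
      exact sm_integrable hC (update_testFn h ((h j).fderiv_apply (v j)) j) t
  · have := (hcs.fderiv ℝ).convolutionExists_left
      ((ContinuousLinearMap.lsmul ℝ ℂ).precompL (Fin 4 → ℂ))
      (hcd.continuous_fderiv one_ne_zero) (hC.locallyIntegrable (μ := volume)) t
    exact this

/-- Fubini: replacing a test function in one slot -/
lemma sm_slot {C : (Fin 4 → ℂ) → ℂ} (hC : Continuous C) {ψ : Fin 4 → ℂ → ℂ}
    (h : ∀ j, TestFn (ψ j)) {χ χ' : ℂ → ℂ} (hχ : TestFn χ) (hχ' : TestFn χ') (j : Fin 4)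
    (t : Fin 4 → ℂ) (heq : ∀ x : Fin 4 → ℂ, ∫ z, χ z * C (Function.update x j (t j - z))
      = ∫ z, χ' z * C (Function.update x j (t j - z))) :
    sm (Function.update ψ j χ) C t = sm (Function.update ψ j χ') C t := by
  have key : ∀ {χ : ℂ → ℂ}, TestFn χ → sm (Function.update ψ j χ) C t
      = ∫ w : Fin 3 → ℂ, (∏ i, ψ (j.succAbove i) (w i)) *
        ∫ z, χ z * C (Function.update (t - (Fin.insertNth (α := fun _ => ℂ) j 0 w)) j (t j - z)) := by
    intro χ hχ
    have hmp := (volume_preserving_piFinSuccAbove (fun _ : Fin 4 => ℂ) j).symm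
    have hint := sm_integrable hC (update_testFn h hχ j) t
    unfold sm
    rw [← hmp.integral_comp (MeasurableEquiv.measurableEmbedding _)]
    have hint2 := (hmp.integrable_comp_emb (MeasurableEquiv.measurableEmbedding _)).2 hint
    rw [Measure.volume_eq_prod] at hint2 ⊢
    simp only [Function.comp_def] at hint2
    rw [integral_prod_symm _ hint2]
    congr 1
    funext w
    rw [← integral_const_mul]
    congr 1
    funext z
    have e1 : (MeasurableEquiv.piFinSuccAbove (fun _ : Fin 4 => ℂ) j).symm (z, w)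
        = Fin.insertNth (α := fun _ => ℂ) j z w := rfl
    simp only [e1]
    have e2 : ten (Function.update ψ j χ) (Fin.insertNth (α := fun _ => ℂ) j z w)
        = (∏ i, ψ (j.succAbove i) (w i)) * χ z := by
      unfold ten
      rw [Fin.prod_univ_succAbove _ j]
      simp [mul_comm]
    have e3 : t - Fin.insertNth (α := fun _ => ℂ) j z w
        = Function.update (t - (Fin.insertNth (α := fun _ => ℂ) j 0 w)) j (t j - z) := by
      funext i
      refine Fin.succAboveCases j ?_ (fun i => ?_) i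
      · simp
      · simp
    rw [e2, e3, mul_assoc]
  rw [key hχ, key hχ']
  congr 1
  funext w
  rw [heq]

end

end Berry
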