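import Pool.Agent.LibH11.Berry.Fn4

/-!
Ladder families attached to functions of four planar variables.
-/

open Complex Filter Topology MeasureTheory Convolution Metric
open scoped ENNReal ContDiff

namespace Berry

noncomputable section

/-- continuous bounded functions of four planar variables solving the Helmholtz equation in each
variable -/
structure Hel4 (C : (Fin 4 → ℂ) → ℂ) : Prop where
  cont : Continuous C
  bdd : ∃ B : ℝ, ∀ x, ‖C x‖ ≤ B
  helm : ∀ j x, WeakHelm (fun z => C (Function.update x j z))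

lemma sm_update_lin {C : (Fin 4 → ℂ) → ℂ} (hC : Continuous C) {ψ : Fin 4 → ℂ → ℂ}
    (h : ∀ j, TestFn (ψ j)) {χ χ' : ℂ → ℂ} (hχ : TestFn χ) (hχ' : TestFn χ') (j : Fin 4)
    (t : Fin 4 → ℂ) (k k' : ℂ) :
    sm (Function.update ψ j (fun z => k * χ z + k' * χ' z)) C t
      = k * sm (Function.update ψ j χ) C t + k' * sm (Function.update ψ j χ') C t := by
  unfold sm
  rw [← integral_const_mul, ← integral_const_mul, ← integral_add
    ((sm_integrable hC (update_testFn h hχ j) t).const_mul k)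
    ((sm_integrable hC (update_testFn h hχ' j) t).const_mul k')]
  congr 1
  funext y
  simp only [ten_update]
  ring

lemma sm_lad {C : (Fin 4 → ℂ) → ℂ} (hC : Hel4 C) {ψ : Fin 4 → ℂ → ℂ}
    (h : ∀ j, TestFn (ψ j)) {φ : ℂ → ℂ} (hφ : TestFn φ) (a : ℤ) (j : Fin 4)
    (t : Fin 4 → ℂ) (v : ℂ) :
    sm (Function.update ψ j (fun z => fderiv ℝ (tl φ a) z v)) C t
      = lad v (sm (Function.update ψ j (tl φ (a+1))) C t)
        (sm (Function.update ψ j (tl φ (a-1))) C t) := by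
  have hψ := tl_testFn hφ a
  have e : (fun z => fderiv ℝ (tl φ a) z v) = fun z =>
      (starRingEnd ℂ v / 2) * Wop (tl φ a) z + (v / 2) * Vop (tl φ a) z := by
    funext y; exact fderiv_eq_wop_vop _ _ _
  rw [e, sm_update_lin hC.cont h hψ.wop hψ.vop]
  have h1 : sm (Function.update ψ j (Wop (tl φ a))) C t
      = sm (Function.update ψ j (tl φ (a+1))) C t := by
    apply sm_slot hC.cont h hψ.wop (tl_testFn hφ (a+1))
    intro x
    exact smear_wop_tl (hC.helm j x) hφ a (t j)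
  have h2 : sm (Function.update ψ j (Vop (tl φ a))) C t
      = - sm (Function.update ψ j (tl φ (a-1))) C t := by
    have h3 : sm (Function.update ψ j (Vop (tl φ a))) C t
      = sm (Function.update ψ j (fun z => (-1) * tl φ (a-1) z + 0 * tl φ (a-1) z)) C t := by
      apply sm_slot hC.cont h hψ.vop
      · exact ((tl_testFn hφ (a-1)).const_mul (-1)).add ((tl_testFn hφ (a-1)).const_mul 0)
      intro x
      have := smear_vop_tl (hC.helm j x) hφ a (t j)
      simp only [smear, smul_eq_mul] at this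
      rw [this, ← integral_neg]
      congr 1; funext z; ring
    rw [h3, sm_update_lin hC.cont h (tl_testFn hφ (a-1)) (tl_testFn hφ (a-1))]
    ring
  rw [h1, h2]
  simp only [lad]
  ring

/-- the ladder family attached to a function of four variables -/
def QS (φ : Fin 4 → ℂ → ℂ) (C : (Fin 4 → ℂ) → ℂ) : ℤ → ℤ → ℤ → ℤ → ℂ → ℂ → ℂ → ℂ → ℂ :=
  fun a b c e t₁ t₂ t₃ t₄ =>
    sm ![tl (φ 0) a, tl (φ 1) b, tl (φ 2) c, tl (φ 3) e] C ![t₁, t₂, t₃, t₄]

lemma vec_testFn {φ : Fin 4 → ℂ → ℂ} (h : ∀ j, TestFn (φ j)) (a b c e : ℤ) :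
    ∀ j, TestFn ((![tl (φ 0) a, tl (φ 1) b, tl (φ 2) c, tl (φ 3) e] : Fin 4 → ℂ → ℂ) j) := by
  intro j
  fin_cases j
  · exact tl_testFn (h 0) a
  · exact tl_testFn (h 1) b
  · exact tl_testFn (h 2) c
  · exact tl_testFn (h 3) e

lemma QS_der {φ : Fin 4 → ℂ → ℂ} (h : ∀ j, TestFn (φ j)) {C : (Fin 4 → ℂ) → ℂ} (hC : Hel4 C) :
    Der4 (QS φ C) := by
  intro a b c e t₁ t₂ t₃ t₄ v₁ v₂ v₃ v₄
  have hv := vec_testFn h a b c e
  have h1 := sm_hasDerivAt hC.cont hv ![t₁, t₂, t₃, t₄] ![v₁, v₂, v₃, v₄]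
  have e1 : (fun s : ℝ => sm ![tl (φ 0) a, tl (φ 1) b, tl (φ 2) c, tl (φ 3) e] C
      (![t₁, t₂, t₃, t₄] + s • ![v₁, v₂, v₃, v₄]))
      = fun s : ℝ => QS φ C a b c e (t₁ + s * v₁) (t₂ + s * v₂) (t₃ + s * v₃) (t₄ + s * v₄) := by
    funext s
    unfold QS
    congr 1
    funext i
    fin_cases i <;> simp
  rw [e1] at h1
  refine h1.congr_deriv ?_
  rw [Fin.sum_univ_four]
  simp only [Matrix.cons_val_zero, Matrix.cons_val_one, Matrix.cons_val]
  rw [sm_lad hC hv (h 0), sm_lad hC hv (h 1), sm_lad hC hv (h 2), sm_lad hC hv (h 3)]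
  have u0 : ∀ z : ℂ → ℂ, Function.update (![tl (φ 0) a, tl (φ 1) b, tl (φ 2) c, tl (φ 3) e] : Fin 4 → ℂ → ℂ) 0 z
    = ![z, tl (φ 1) b, tl (φ 2) c, tl (φ 3) e] := by
    intro z; funext i; fin_cases i <;> simp
  have u1 : ∀ z : ℂ → ℂ, Function.update (![tl (φ 0) a, tl (φ 1) b, tl (φ 2) c, tl (φ 3) e] : Fin 4 → ℂ → ℂ) 1 z
    = ![tl (φ 0) a, z, tl (φ 2) c, tl (φ 3) e] := by
    intro z; funext i; fin_cases i <;> simp
  have u2 : ∀ z : ℂ → ℂ, Function.update (![tl (φ 0) a, tl (φ 1) b, tl (φ 2) c, tl (φ 3) e] : Fin 4 → ℂ → ℂ) 2 z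
    = ![tl (φ 0) a, tl (φ 1) b, z, tl (φ 3) e] := by
    intro z; funext i; fin_cases i <;> simp
  have u3 : ∀ z : ℂ → ℂ, Function.update (![tl (φ 0) a, tl (φ 1) b, tl (φ 2) c, tl (φ 3) e] : Fin 4 → ℂ → ℂ) 3 z
    = ![tl (φ 0) a, tl (φ 1) b, tl (φ 2) c, z] := by
    intro z; funext i; fin_cases i <;> simp
  simp only [u0, u1, u2, u3]
  rfl

end

end Berry
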