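import Pool.Agent.LibH11.Berry.Defs

/-!
The covariance `K(x) = ∫_{S¹} cos⟨x, ω⟩ dσ(ω)` of the monochromatic Gaussian wave in the plane.
-/

open Filter Topology MeasureTheory intervalIntegral

namespace Berry

noncomputable section

lemma waveK_zero : waveK 0 = 1 := by
  have := Real.pi_pos
  simp only [waveK, Complex.zero_re, Complex.zero_im, zero_mul, add_zero, Real.cos_zero,
    intervalIntegral.integral_const, sub_zero, smul_eq_mul, mul_one]
  field_simp

lemma waveK_neg (x : ℂ) : waveK (-x) = waveK x := by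
  simp only [waveK, Complex.neg_re, Complex.neg_im]
  congr 2
  funext θ
  rw [← Real.cos_neg]
  congr 1; ring

lemma waveK_abs_le (x : ℂ) : |waveK x| ≤ 1 := by
  have hpi := Real.pi_pos
  have h : ‖∫ θ in (0:ℝ)..(2 * Real.pi), Real.cos (x.re * Real.cos θ + x.im * Real.sin θ)‖
      ≤ 1 * |2 * Real.pi - 0| := by
    apply intervalIntegral.norm_integral_le_of_norm_le_const
    intro θ _
    exact Real.abs_cos_le_one _
  rw [waveK, abs_mul, abs_of_pos (by positivity)]
  rw [sub_zero, abs_of_pos (by positivity), one_mul, Real.norm_eq_abs] at h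
  calc (2 * Real.pi)⁻¹ * |∫ θ in (0:ℝ)..(2 * Real.pi), Real.cos (x.re * Real.cos θ + x.im * Real.sin θ)|
      ≤ (2 * Real.pi)⁻¹ * (2 * Real.pi) := mul_le_mul_of_nonneg_left h (by positivity)
    _ = 1 := by field_simp

lemma waveK_continuous : Continuous waveK := by
  unfold waveK
  apply continuous_const.mul
  apply intervalIntegral.continuous_parametric_intervalIntegral_of_continuous'
  fun_prop

/-- the van der Corput bound away from the critical points of `cos` -/
lemma osc_bound {a b m r : ℝ} (hab : a ≤ b) (hm : 0 < m) (hr : 0 < r)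
    (hs : ∀ θ ∈ Set.Icc a b, m ≤ |Real.sin θ|) :
    |∫ θ in a..b, Real.cos (r * Real.cos θ)| ≤ (2 / m + (b - a) / m^2) / r := by
  have hne : ∀ θ ∈ Set.uIcc a b, Real.sin θ ≠ 0 := by
    intro θ hθ h0
    rw [Set.uIcc_of_le hab] at hθ
    have := hs θ hθ
    rw [h0, abs_zero] at this
    linarith
  have hu : ∀ θ ∈ Set.uIcc a b, HasDerivAt (fun θ => (Real.sin θ)⁻¹)
      (-(Real.cos θ) / (Real.sin θ)^2) θ := by
    intro θ hθ
    exact (Real.hasDerivAt_sin θ).inv (hne θ hθ)
  have hv : ∀ θ ∈ Set.uIcc a b, HasDerivAt (fun θ => -(Real.sin (r * Real.cos θ)) / r)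
      (Real.cos (r * Real.cos θ) * Real.sin θ) θ := by
    intro θ _
    have h1 : HasDerivAt (fun θ => r * Real.cos θ) (r * (-(Real.sin θ))) θ :=
      (Real.hasDerivAt_cos θ).const_mul r
    have h2 := (h1.sin.neg).div_const r
    refine h2.congr_deriv ?_
    field_simp
  have hcu : ContinuousOn (fun θ => -(Real.cos θ) / (Real.sin θ)^2) (Set.uIcc a b) := by
    apply ContinuousOn.div
    · exact Real.continuous_cos.neg.continuousOn
    · exact (Real.continuous_sin.pow 2).continuousOn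
    · intro θ hθ; exact pow_ne_zero 2 (hne θ hθ)
  have hcv : Continuous (fun θ => Real.cos (r * Real.cos θ) * Real.sin θ) := by fun_prop
  have hibp := intervalIntegral.integral_mul_deriv_eq_deriv_mul hu hv
    (hcu.intervalIntegrable) (hcv.intervalIntegrable a b)
  have e1 : ∫ θ in a..b, Real.cos (r * Real.cos θ) =
      ∫ θ in a..b, (Real.sin θ)⁻¹ * (Real.cos (r * Real.cos θ) * Real.sin θ) := by
    apply intervalIntegral.integral_congr
    intro θ hθ
    have := hne θ hθ
    simp only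
    field_simp
  rw [e1, hibp]
  have hvb : ∀ θ, |-(Real.sin (r * Real.cos θ)) / r| ≤ 1 / r := by
    intro θ
    rw [abs_div, abs_neg, abs_of_pos hr]
    gcongr
    exact Real.abs_sin_le_one _
  have hub : ∀ θ ∈ Set.Icc a b, |(Real.sin θ)⁻¹| ≤ 1 / m := by
    intro θ hθ
    rw [abs_inv, one_div]
    exact inv_anti₀ hm (hs θ hθ)
  have hub' : ∀ θ ∈ Set.Icc a b, |-(Real.cos θ) / (Real.sin θ)^2| ≤ 1 / m^2 := by
    intro θ hθ
    rw [abs_div, abs_neg, abs_pow]
    have h1 := hs θ hθ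
    have h2 : m^2 ≤ |Real.sin θ|^2 := by gcongr
    have h3 : |Real.cos θ| ≤ 1 := Real.abs_cos_le_one _
    exact div_le_div₀ zero_le_one h3 (by positivity) h2
  have hI : ‖∫ θ in a..b, -(Real.cos θ) / (Real.sin θ)^2 * (-(Real.sin (r * Real.cos θ)) / r)‖ ≤
      (1 / m^2 * (1 / r)) * |b - a| := by
    apply intervalIntegral.norm_integral_le_of_norm_le_const
    intro θ hθ
    rw [Set.uIoc_of_le hab] at hθ
    rw [Real.norm_eq_abs, abs_mul]
    exact mul_le_mul (hub' θ ⟨hθ.1.le, hθ.2⟩) (hvb θ) (abs_nonneg _) (by positivity)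
  rw [Real.norm_eq_abs, abs_of_nonneg (sub_nonneg.2 hab)] at hI
  have ha : |(Real.sin a)⁻¹ * (-(Real.sin (r * Real.cos a)) / r)| ≤ 1 / m * (1 / r) := by
    rw [abs_mul]
    exact mul_le_mul (hub a ⟨le_rfl, hab⟩) (hvb a) (abs_nonneg _) (by positivity)
  have hb : |(Real.sin b)⁻¹ * (-(Real.sin (r * Real.cos b)) / r)| ≤ 1 / m * (1 / r) := by
    rw [abs_mul]
    exact mul_le_mul (hub b ⟨hab, le_rfl⟩) (hvb b) (abs_nonneg _) (by positivity)
  calc _ ≤ |(Real.sin b)⁻¹ * (-(Real.sin (r * Real.cos b)) / r)|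
        + |(Real.sin a)⁻¹ * (-(Real.sin (r * Real.cos a)) / r)|
        + |∫ θ in a..b, -(Real.cos θ) / (Real.sin θ)^2 * (-(Real.sin (r * Real.cos θ)) / r)| := by
          refine (abs_sub _ _).trans ?_
          gcongr
          exact abs_sub _ _
    _ ≤ 1 / m * (1 / r) + 1 / m * (1 / r) + (1 / m^2 * (1 / r)) * (b - a) := by
          gcongr
    _ = (2 / m + (b - a) / m^2) / r := by field_simp; ring

lemma waveK_eq_norm (x : ℂ) :
    waveK x = (2 * Real.pi)⁻¹ * ∫ θ in (0:ℝ)..(2 * Real.pi), Real.cos (‖x‖ * Real.cos θ) := by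
  rw [waveK]
  congr 1
  have h1 : ∀ θ, x.re * Real.cos θ + x.im * Real.sin θ = ‖x‖ * Real.cos (θ - x.arg) := by
    intro θ
    rw [Real.cos_sub]
    have h2 : x.re = ‖x‖ * Real.cos x.arg := (Complex.norm_mul_cos_arg x).symm
    have h3 : x.im = ‖x‖ * Real.sin x.arg := (Complex.norm_mul_sin_arg x).symm
    rw [h2, h3]
    have e1 : ‖x‖ * Real.cos x.arg * Real.cos θ + ‖x‖ * Real.sin x.arg * Real.sin θ
      = ‖x‖ * (Real.cos θ * Real.cos x.arg + Real.sin θ * Real.sin x.arg) := by ring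
    exact e1
  simp only [h1]
  have hper : Function.Periodic (fun θ => Real.cos (‖x‖ * Real.cos θ)) (2 * Real.pi) := by
    intro θ
    simp only [Real.cos_add_two_pi]
  rw [intervalIntegral.integral_comp_sub_right (fun θ => Real.cos (‖x‖ * Real.cos θ)) x.arg]
  have h4 := hper.intervalIntegral_add_eq (0 - x.arg) 0
  rw [zero_add] at h4
  rw [← h4]
  congr 1; ring

/-- `K` vanishes at infinity -/
lemma waveK_vanishes : ∀ ε > 0, ∃ N : ℝ, ∀ x : ℂ, N ≤ ‖x‖ → |waveK x| ≤ ε := by
  intro ε hε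
  have hpi := Real.pi_pos
  -- choose δ
  obtain ⟨δ, hδ0, hδ1, hδ2⟩ : ∃ δ : ℝ, 0 < δ ∧ δ < Real.pi / 2 ∧ 4 * δ ≤ ε / 2 := by
    refine ⟨min (ε/8) (Real.pi/4), ?_, ?_, ?_⟩
    · positivity
    · exact lt_of_le_of_lt (min_le_right _ _) (by linarith)
    · have := min_le_left (ε/8) (Real.pi/4); linarith
  set m := Real.sin δ with hm
  have hm0 : 0 < m := Real.sin_pos_of_pos_of_lt_pi hδ0 (by linarith)
  set B := 2 * (2 / m + (Real.pi - 2 * δ) / m^2) with hB
  have hB0 : 0 < B := by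
    have : 0 ≤ (Real.pi - 2 * δ) / m^2 := div_nonneg (by linarith) (by positivity)
    positivity
  refine ⟨2 * B / ε + 1, fun x hx => ?_⟩
  set r := ‖x‖ with hr
  have hr0 : 0 < r := lt_of_lt_of_le (by positivity) hx
  rw [waveK_eq_norm, ← hr]
  set f : ℝ → ℝ := fun θ => Real.cos (r * Real.cos θ) with hf
  have hfc : Continuous f := by fun_prop
  have hi : ∀ a b, IntervalIntegrable f volume a b := fun a b => hfc.intervalIntegrable a b
  have hsmall : ∀ a b, |∫ θ in a..b, f θ| ≤ |b - a| := by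
    intro a b
    have := intervalIntegral.norm_integral_le_of_norm_le_const (a := a) (b := b) (f := f) (C := 1)
      (fun θ _ => Real.abs_cos_le_one _)
    rwa [one_mul] at this
  -- on [δ, π-δ]
  have h1 : |∫ θ in δ..(Real.pi - δ), f θ| ≤ (2 / m + (Real.pi - 2 * δ) / m^2) / r := by
    have := osc_bound (a := δ) (b := Real.pi - δ) (m := m) (r := r) (by linarith) hm0 hr0 (by
      intro θ hθ
      have hs : m ≤ Real.sin θ := by
        rcases le_total θ (Real.pi/2) with h | h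
        · exact Real.sin_le_sin_of_le_of_le_pi_div_two (by linarith) h hθ.1
        · rw [hm, ← Real.sin_pi_sub θ]
          exact Real.sin_le_sin_of_le_of_le_pi_div_two (by linarith) (by linarith)
            (by linarith [hθ.2])
      exact hs.trans (le_abs_self _))
    have e : Real.pi - δ - δ = Real.pi - 2 * δ := by ring
    rw [e] at this
    exact this
  -- on [π+δ, 2π-δ]
  have h2 : |∫ θ in (Real.pi + δ)..(2 * Real.pi - δ), f θ| ≤
      (2 / m + (Real.pi - 2 * δ) / m^2) / r := by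
    have e1 : ∫ θ in (Real.pi + δ)..(2 * Real.pi - δ), f θ
        = ∫ θ in δ..(Real.pi - δ), f (θ + Real.pi) := by
      rw [intervalIntegral.integral_comp_add_right f Real.pi]
      congr 1 <;> ring
    have e2 : ∀ θ, f (θ + Real.pi) = f θ := by
      intro θ
      simp only [hf, Real.cos_add_pi, mul_neg, Real.cos_neg]
    rw [e1]
    simp only [e2]
    exact h1
  have hsplit : ∫ θ in (0:ℝ)..(2 * Real.pi), f θ =
      (∫ θ in (0:ℝ)..δ, f θ) + (∫ θ in δ..(Real.pi - δ), f θ)
      + (∫ θ in (Real.pi - δ)..(Real.pi + δ), f θ)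
      + (∫ θ in (Real.pi + δ)..(2 * Real.pi - δ), f θ)
      + ∫ θ in (2 * Real.pi - δ)..(2 * Real.pi), f θ := by
    rw [intervalIntegral.integral_add_adjacent_intervals (hi _ _) (hi _ _),
      intervalIntegral.integral_add_adjacent_intervals (hi _ _) (hi _ _),
      intervalIntegral.integral_add_adjacent_intervals (hi _ _) (hi _ _),
      intervalIntegral.integral_add_adjacent_intervals (hi _ _) (hi _ _)]
  have h3 := hsmall 0 δ
  have h4 := hsmall (Real.pi - δ) (Real.pi + δ)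
  have h5 := hsmall (2 * Real.pi - δ) (2 * Real.pi)
  have a3 : |δ - 0| = δ := by rw [sub_zero, abs_of_pos hδ0]
  have a4 : |Real.pi + δ - (Real.pi - δ)| = 2 * δ := by
    rw [abs_of_pos (by linarith)]; ring
  have a5 : |2 * Real.pi - (2 * Real.pi - δ)| = δ := by
    rw [abs_of_pos (by linarith)]; ring
  rw [a3] at h3; rw [a4] at h4; rw [a5] at h5
  have htot : |∫ θ in (0:ℝ)..(2 * Real.pi), f θ| ≤ 4 * δ + B / r := by
    rw [hsplit]
    rw [abs_le] at h1 h2 h3 h4 h5 ⊢
    have e : B / r = 2 * ((2 / m + (Real.pi - 2 * δ) / m^2) / r) := by rw [hB]; ring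
    rw [e]
    constructor <;> linarith [h1.1, h1.2, h2.1, h2.2, h3.1, h3.2, h4.1, h4.2, h5.1, h5.2]
  have hBr : B / r ≤ ε / 2 := by
    rw [div_le_iff₀ hr0]
    have : 2 * B / ε ≤ r := by linarith
    have h6 : 2 * B ≤ r * ε := by rwa [div_le_iff₀ hε] at this
    linarith
  rw [abs_mul, abs_of_pos (by positivity : (0:ℝ) < (2 * Real.pi)⁻¹)]
  have h7 : (2 * Real.pi)⁻¹ ≤ 1 := by
    rw [inv_le_one₀ (by positivity)]
    linarith [Real.pi_gt_three]
  calc (2 * Real.pi)⁻¹ * |∫ θ in (0:ℝ)..(2 * Real.pi), f θ|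
      ≤ 1 * |∫ θ in (0:ℝ)..(2 * Real.pi), f θ| := mul_le_mul_of_nonneg_right h7 (abs_nonneg _)
    _ ≤ ε := by linarith

end

end Berry
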