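import Pool.Agent.LibH11.Berry.Wick
import Pool.Agent.LibH11.Berry.WaveK

/-!
Removing the smearing.
-/

open Complex Filter Topology MeasureTheory ProbabilityTheory Metric Convolution
open scoped ENNReal ContDiff

namespace Berry

noncomputable section

/-- a sequence of bumps shrinking to the origin -/
def bumpSeq (n : ℕ) : ContDiffBump (0:ℂ) where
  rIn := 1 / (2 * (n + 1))
  rOut := 1 / (n + 1)
  rIn_pos := by positivity
  rIn_lt_rOut := by
    have : (0:ℝ) < (n:ℝ) + 1 := by positivity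
    rw [div_lt_div_iff₀ (by positivity) this]
    linarith

/-- an approximate identity of test functions -/
def approxId (n : ℕ) (y : ℂ) : ℂ := (((bumpSeq n).normed volume y : ℝ) : ℂ)

lemma approxId_testFn (n : ℕ) : TestFn (approxId n) := by
  constructor
  · exact Complex.ofRealCLM.contDiff.comp ((bumpSeq n).contDiff_normed)
  · have := (bumpSeq n).hasCompactSupport_normed (μ := (volume : Measure ℂ))
    exact this.comp_left (g := fun r : ℝ => (r : ℂ)) (by simp)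

lemma smear_approxId {X : Type*} [NormedAddCommGroup X] [NormedSpace ℂ X] [CompleteSpace X]
    {G : ℂ → X} (hG : Continuous G) (t : ℂ) :
    Tendsto (fun n => smear (approxId n) G t) atTop (𝓝 (G t)) := by
  have h1 : Tendsto (fun n : ℕ => (bumpSeq n).rOut) atTop (𝓝 0) := by
    have := tendsto_one_div_add_atTop_nhds_zero_nat (𝕜 := ℝ)
    exact this
  have h2 := ContDiffBump.convolution_tendsto_right_of_continuous (μ := (volume : Measure ℂ))
    h1 hG t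
  refine h2.congr fun n => ?_
  rw [convolution_def, smear]
  congr 1

lemma tendsto_clm_apply {E F : Type*} [NormedAddCommGroup E] [NormedSpace ℝ E]
    [NormedAddCommGroup F] [NormedSpace ℝ F] {f : ℕ → E →L[ℝ] F} {g : ℕ → E} {f₀ : E →L[ℝ] F}
    {g₀ : E} (hf : Tendsto f atTop (𝓝 f₀)) (hg : Tendsto g atTop (𝓝 g₀)) :
    Tendsto (fun n => f n (g n)) atTop (𝓝 (f₀ g₀)) := by
  have hc := (isBoundedBilinearMap_apply (𝕜 := ℝ) (E := E) (F := F)).continuous
  exact (hc.tendsto (f₀, g₀)).comp (hf.prodMk_nhds hg)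

variable {Ω : Type*} [MeasurableSpace Ω] {P : Measure Ω} [IsProbabilityMeasure P]
variable {G : ℂ → Lp ℂ 4 P}

omit [IsProbabilityMeasure P] in
lemma C4_tendsto {f₁ f₂ f₃ f₄ : ℕ → Lp ℂ 4 P} {a b c d : Lp ℂ 4 P}
    (h₁ : Tendsto f₁ atTop (𝓝 a)) (h₂ : Tendsto f₂ atTop (𝓝 b)) (h₃ : Tendsto f₃ atTop (𝓝 c))
    (h₄ : Tendsto f₄ atTop (𝓝 d)) :
    Tendsto (fun n => C4 P (f₁ n) (f₂ n) (f₃ n) (f₄ n)) atTop (𝓝 (C4 P a b c d)) := by
  unfold C4
  have m1 : Tendsto (fun n => mulX P (f₁ n)) atTop (𝓝 (mulX P a)) :=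
    ((mulX P).continuous.tendsto a).comp h₁
  have k1 : Tendsto (fun n => mulX P (f₁ n) (f₂ n)) atTop (𝓝 (mulX P a b)) :=
    tendsto_clm_apply m1 h₂
  have m2 : Tendsto (fun n => mulX P (f₃ n)) atTop (𝓝 (mulX P c)) :=
    ((mulX P).continuous.tendsto c).comp h₃
  have k2 : Tendsto (fun n => mulX P (f₃ n) (f₄ n)) atTop (𝓝 (mulX P c d)) :=
    tendsto_clm_apply m2 h₄
  have m3 : Tendsto (fun n => pairX P (mulX P (f₁ n) (f₂ n))) atTop
      (𝓝 (pairX P (mulX P a b))) :=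
    ((pairX P).continuous.tendsto (mulX P a b)).comp k1
  exact tendsto_clm_apply m3 k2

lemma C2_tendsto {f₁ f₂ : ℕ → Lp ℂ 4 P} {a b : Lp ℂ 4 P}
    (h₁ : Tendsto f₁ atTop (𝓝 a)) (h₂ : Tendsto f₂ atTop (𝓝 b)) :
    Tendsto (fun n => C2 P (f₁ n) (f₂ n)) atTop (𝓝 (C2 P a b)) :=
  C4_tendsto h₁ h₂ tendsto_const_nhds tendsto_const_nhds

/-- the Wick formula -/
theorem wick_formula (hG : Continuous G) {B : ℝ} (hB : ∀ x, ‖G x‖ ≤ B) (hW : WeakHelm G)
    (hs4 : ∀ x₁ x₂ x₃ x₄ s, C4 P (G (x₁ + s)) (G (x₂ + s)) (G (x₃ + s)) (G (x₄ + s))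
      = C4 P (G x₁) (G x₂) (G x₃) (G x₄))
    (hs2 : ∀ x₁ x₂ s, C2 P (G (x₁ + s)) (G (x₂ + s)) = C2 P (G x₁) (G x₂))
    (hm : MixAvg P G) (hv : VanC2 P G) (t₁ t₂ t₃ t₄ : ℂ) :
    C4 P (G t₁) (G t₂) (G t₃) (G t₄)
      = C2 P (G t₁) (G t₂) * C2 P (G t₃) (G t₄)
      + C2 P (G t₁) (G t₃) * C2 P (G t₂) (G t₄)
      + C2 P (G t₁) (G t₄) * C2 P (G t₂) (G t₃) := by
  have a1 := smear_approxId hG t₁
  have a2 := smear_approxId hG t₂
  have a3 := smear_approxId hG t₃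
  have a4 := smear_approxId hG t₄
  have L := C4_tendsto a1 a2 a3 a4
  have R := (((C2_tendsto a1 a2).mul (C2_tendsto a3 a4)).add
    ((C2_tendsto a1 a3).mul (C2_tendsto a2 a4))).add ((C2_tendsto a1 a4).mul (C2_tendsto a2 a3))
  refine tendsto_nhds_unique L (R.congr fun n => ?_)
  exact (wick_smear hG hB hW hs4 hs2 hm hv (approxId_testFn n) (approxId_testFn n)
    (approxId_testFn n) (approxId_testFn n) t₁ t₂ t₃ t₄).symm

end

end Berry
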