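import Pool.Agent.LibH11.Berry.Fn4b
import Pool.Agent.LibH11.Berry.Unsmear

/-!
Vanishing means: smearing, solutions of the Helmholtz equation, scaling; removing the smearing.
-/

open Complex Filter Topology MeasureTheory Convolution Metric
open scoped ENNReal ContDiff Pointwise

namespace Berry

noncomputable section

/-- smearing in four variables preserves vanishing means -/
lemma MZ.smearV {A : ℂ → (Fin 4 → ℂ) → ℂ} (hA : Continuous (Function.uncurry A)) {C : ℝ}
    (hC : ∀ s y, ‖A s y‖ ≤ C) {Ψ : (Fin 4 → ℂ) → ℂ} (hΨc : Continuous Ψ)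
    (hΨs : HasCompactSupport Ψ)
    (hc : Continuous fun s => ∫ y, Ψ y * A s y)
    (h : ∀ y, Tendsto (fun R : ℝ => ⨍ s in ball (0:ℂ) R, A s y) atTop (𝓝 0)) :
    MZ (fun s => ∫ y, Ψ y * A s y) := by
  refine ⟨hc, ?_⟩
  have hC0 : 0 ≤ C := (norm_nonneg _).trans (hC 0 0)
  have hψi : Integrable Ψ := hΨc.integrable_of_hasCompactSupport hΨs
  have swap : ∀ R : ℝ, ⨍ s in ball (0:ℂ) R, ∫ y, Ψ y * A s y
      = ∫ y, Ψ y * ⨍ s in ball (0:ℂ) R, A s y := by
    intro R
    rw [setAverage_eq]
    have hint : Integrable (Function.uncurry fun (s : ℂ) (y : Fin 4 → ℂ) => Ψ y * A s y)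
        ((volume.restrict (ball (0:ℂ) R)).prod volume) := by
      have h1 : Integrable (fun p : ℂ × (Fin 4 → ℂ) => Ψ p.2 * A p.1 p.2)
          ((volume.restrict (ball (0:ℂ) R)).prod volume) := by
        have h2 : Integrable (fun p : ℂ × (Fin 4 → ℂ) => (1:ℂ) * Ψ p.2)
            ((volume.restrict (ball (0:ℂ) R)).prod volume) :=
          Integrable.mul_prod (f := fun _ : ℂ => (1:ℂ)) (intOn continuous_const 0 R) hψi
        simp only [one_mul] at h2
        have h3 := h2.mul_bdd (g := fun p : ℂ × (Fin 4 → ℂ) => A p.1 p.2) (c := C) ?_ ?_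
        · exact h3
        · exact hA.aestronglyMeasurable
        · exact Eventually.of_forall fun p => hC _ _
      exact h1
    rw [integral_integral_swap hint, ← integral_smul]
    congr 1
    funext y
    rw [setAverage_eq, integral_const_mul, real_smul, real_smul]; ring
  simp only [swap]
  have hlim : Tendsto (fun R : ℝ => ∫ y, Ψ y * ⨍ s in ball (0:ℂ) R, A s y) atTop
      (𝓝 (∫ y, Ψ y * 0)) := by
    apply tendsto_integral_filter_of_dominated_convergence (fun y => ‖Ψ y‖ * C)
    · filter_upwards with R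
      have h1 : StronglyMeasurable fun y => ∫ s in ball (0:ℂ) R, A s y := by
        have : StronglyMeasurable (Function.uncurry fun y s => A s y) :=
          (hA.comp continuous_swap).stronglyMeasurable
        exact this.integral_prod_right
      have h2 : (fun y => Ψ y * ⨍ s in ball (0:ℂ) R, A s y) =
          fun y => Ψ y * ((volume.real (ball (0:ℂ) R))⁻¹ • ∫ s in ball (0:ℂ) R, A s y) := by
        funext y; rw [setAverage_eq]
      rw [h2]
      exact (hΨc.stronglyMeasurable.mul
        (h1.const_smul ((volume.real (ball (0:ℂ) R))⁻¹ : ℝ))).aestronglyMeasurable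
    · filter_upwards [eventually_gt_atTop (0:ℝ)] with R hR
      refine Eventually.of_forall fun y => ?_
      rw [norm_mul]
      refine mul_le_mul_of_nonneg_left ?_ (norm_nonneg _)
      refine (avg_norm_le _ R).trans ?_
      have hcy : Continuous fun s => A s y := hA.comp (continuous_id.prodMk continuous_const)
      exact avg_le_of_le hcy.norm (fun s => hC s y) hR
    · exact hψi.norm.mul_const C
    · refine Eventually.of_forall fun y => ?_
      have := (h y).const_mul (Ψ y)
      exact this
  simpa using hlim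

lemma sm_continuous {C : (Fin 4 → ℂ) → ℂ} (hC : Continuous C) {ψ : Fin 4 → ℂ → ℂ}
    (h : ∀ j, TestFn (ψ j)) : Continuous (sm ψ C) := by
  have e0 : sm ψ C = (ten ψ ⋆[ContinuousLinearMap.lsmul ℝ ℂ, volume] C) := by
    funext t
    simp [sm, convolution_def]
  rw [e0]
  exact (ten_hasCompactSupport h).continuous_convolution_left _ (ten_continuous h)
    (hC.locallyIntegrable (μ := volume))

/-- vanishing means along a complex line are preserved by smearing -/
lemma sm_mz {D : (Fin 4 → ℂ) → ℂ} (hD : Continuous D) {B : ℝ} (hB : ∀ x, ‖D x‖ ≤ B)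
    {ψ : Fin 4 → ℂ → ℂ} (h : ∀ j, TestFn (ψ j)) (d : Fin 4 → ℂ)
    (hz : ∀ x, Tendsto (fun R : ℝ => ⨍ s in ball (0:ℂ) R, D (x + s • d)) atTop (𝓝 0))
    (t : Fin 4 → ℂ) : MZ (fun s => sm ψ D (t + s • d)) := by
  have hc : Continuous fun s : ℂ => sm ψ D (t + s • d) :=
    (sm_continuous hD h).comp (by fun_prop)
  have e : (fun s : ℂ => sm ψ D (t + s • d)) = fun s =>
      ∫ y, ten ψ y * D ((t - y) + s • d) := by
    funext s
    unfold sm
    congr 1; funext y
    congr 2
    abel
  rw [e] at hc ⊢
  refine MZ.smearV (A := fun s y => D ((t - y) + s • d)) ?_ (C := B) (fun s y => hB _)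
    (ten_continuous h) (ten_hasCompactSupport h) hc (fun y => hz (t - y))
  exact hD.comp (by fun_prop)

lemma sm_sub {C D : (Fin 4 → ℂ) → ℂ} (hC : Continuous C) (hD : Continuous D)
    {ψ : Fin 4 → ℂ → ℂ} (h : ∀ j, TestFn (ψ j)) (t : Fin 4 → ℂ) :
    sm ψ (fun x => C x - D x) t = sm ψ C t - sm ψ D t := by
  unfold sm
  rw [← integral_sub (sm_integrable hC h t) (sm_integrable hD h t)]
  congr 1; funext y; ring

/-- the derivative of a test function has vanishing integral -/
lemma integral_fderiv_testFn {ψ : ℂ → ℂ} (hψ : TestFn ψ) (v : ℂ) :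
    ∫ y, fderiv ℝ ψ y v = 0 := by
  have h1 := smear_hasDerivAt hψ (F := fun _ : ℂ => (1:ℂ)) continuous_const 0 v
  have h2 : (fun s : ℝ => smear ψ (fun _ : ℂ => (1:ℂ)) (0 + s * v)) = fun _ =>
      smear ψ (fun _ : ℂ => (1:ℂ)) 0 := by
    funext s; rfl
  rw [h2] at h1
  have h3 := h1.unique (hasDerivAt_const _ _)
  simpa [smear] using h3

lemma integral_wop {ψ : ℂ → ℂ} (hψ : TestFn ψ) : ∫ y, Wop ψ y = 0 := by
  unfold Wop
  have i1 := (hψ.fderiv_apply 1).continuous.integrable_of_hasCompactSupport
    (μ := (volume : Measure ℂ)) (hψ.fderiv_apply 1).2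
  have i2 := (hψ.fderiv_apply I).continuous.integrable_of_hasCompactSupport
    (μ := (volume : Measure ℂ)) (hψ.fderiv_apply I).2
  rw [integral_add i1 (i2.const_mul I), integral_const_mul, integral_fderiv_testFn hψ,
    integral_fderiv_testFn hψ]
  simp

lemma integral_approxId (n : ℕ) : ∫ y, approxId n y = 1 := by
  unfold approxId
  rw [integral_complex_ofReal, ContDiffBump.integral_normed]
  simp

/-- bounded solutions of the Helmholtz equation have mean zero over the plane -/
lemma mz_of_weakHelm {g : ℂ → ℂ} (hg : Continuous g) {B : ℝ} (hB : ∀ x, ‖g x‖ ≤ B)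
    (hW : WeakHelm g) : MZ g := by
  set ψ := approxId 0 with hψ
  have hψt : TestFn ψ := approxId_testFn 0
  set χ := Wop (Vop ψ) with hχ
  have hχt : TestFn χ := hψt.vop.wop
  have hχ0 : ∫ y, χ y = 0 := integral_wop hψt.vop
  have hψ1 : ∫ y, ψ y = 1 := integral_approxId 0
  -- smearing changes the function by a zero-mean one
  have key : ∀ {η : ℂ → ℂ}, TestFn η → MZ (fun s => smear η g s - (∫ y, η y) * g s) := by
    intro η hη
    have hηi : Integrable η := hη.continuous.integrable_of_hasCompactSupport hη.2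
    have e : (fun s => smear η g s - (∫ y, η y) * g s) = fun s => ∫ y, η y * (g (s - y) - g s) := by
      funext s
      rw [smear, ← integral_mul_const, ← integral_sub (smear_integrable hη.continuous hη.2 hg s)
        (hηi.mul_const _)]
      congr 1; funext y; simp only [smul_eq_mul]; ring
    have hc : Continuous (fun s => smear η g s - (∫ y, η y) * g s) :=
      (smear_continuous hg hη).sub (continuous_const.mul hg)
    rw [e] at hc ⊢
    refine MZ.smear (A := fun s y => g (s - y) - g s) ?_ (C := 2 * B) ?_ hη hc ?_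
    · exact (hg.comp (by fun_prop)).sub (hg.comp (by fun_prop))
    · intro s y
      refine (norm_sub_le _ _).trans ?_
      linarith [hB (s - y), hB s]
    · intro y
      have h1 := avg_shift hg hB (-y)
      refine h1.congr fun R => ?_
      have h2 : (⨍ s in ball (0:ℂ) R, (g (s - y) - g s)) =
          (⨍ s in ball (0:ℂ) R, g (s - y)) + ⨍ s in ball (0:ℂ) R, -(g s) := by
        have h5 := avg_add (g := fun s => g (s - y)) (h := fun s => -(g s))
          (hg.comp (by fun_prop)) hg.neg R
        rw [← h5]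
        congr 1
      have h3 : (⨍ s in ball (0:ℂ) R, -(g s)) = - ⨍ s in ball (0:ℂ) R, g s := by
        have := avg_const_mul (-1) g R
        simp only [neg_mul, one_mul] at this
        exact this
      rw [h2, h3, ← sub_eq_add_neg]
      congr 2
      funext s; congr 1; ring
  have k1 := key hχt
  have k2 := key hψt
  rw [hχ0] at k1
  rw [hψ1] at k2
  have k3 := (k1.const_mul (-1)).add (k2.const_mul (-1))
  have e : (fun s => (-1) * (smear χ g s - 0 * g s) + (-1) * (smear ψ g s - 1 * g s)) = g := by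
    funext s
    rw [hχ, (hW ψ hψt s).1]; ring
  rw [e] at k3
  exact k3

/-- vanishing means and real dilations -/
lemma MZ.dilate {g : ℂ → ℂ} (hg : MZ g) {κ : ℝ} (hκ : κ ≠ 0) : MZ (fun s => g (κ • s)) := by
  refine ⟨hg.1.comp (continuous_const_smul κ), ?_⟩
  have h1 : ∀ R : ℝ, 0 < R → (⨍ s in ball (0:ℂ) R, g (κ • s)) = ⨍ s in ball (0:ℂ) (|κ| * R), g s := by
    intro R hR
    have h2 := Measure.setIntegral_comp_smul (volume : Measure ℂ) g (ball (0:ℂ) R) hκ
    have h3 : κ • ball (0:ℂ) R = ball (0:ℂ) (|κ| * R) := by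
      rw [_root_.smul_ball hκ, smul_zero, Real.norm_eq_abs]
    rw [avg_eq _ hR.le, avg_eq _ (by positivity), h2, h3, smul_smul]
    congr 1
    rw [Complex.finrank_real_complex, abs_inv, abs_pow, mul_pow, sq_abs]
    field_simp
  have h4 : Tendsto (fun R : ℝ => |κ| * R) atTop atTop :=
    tendsto_id.const_mul_atTop (abs_pos.2 hκ)
  refine (hg.2.comp h4).congr' ?_
  filter_upwards [eventually_gt_atTop (0:ℝ)] with R hR
  rw [Function.comp, h1 R hR]

/-- vanishing means and translations -/
lemma MZ.translate {g : ℂ → ℂ} (hg : MZ g) {B : ℝ} (hB : ∀ x, ‖g x‖ ≤ B) (x : ℂ) :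
    MZ (fun s => g (x + s)) := by
  refine ⟨hg.1.comp (continuous_const.add continuous_id), ?_⟩
  have h1 := (avg_shift hg.1 hB x).add hg.2
  simpa using h1

end

end Berry
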