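import Pool.Agent.LibH11.Berry.Fn4c

/-!
The general four-point identity for functions of four planar variables.
-/

open Complex Filter Topology MeasureTheory Convolution Metric
open scoped ENNReal ContDiff Pointwise

namespace Berry

noncomputable section

lemma zeroMean_MZ : ZeroMean MZ :=
  ⟨fun _ _ hg hh => hg.add hh, fun k _ hg => hg.const_mul k, fun _ hk => hk.const⟩

lemma sm_inv {C : (Fin 4 → ℂ) → ℂ} {d : Fin 4 → ℂ} (h : ∀ x, C (x + d) = C x)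
    (ψ : Fin 4 → ℂ → ℂ) (t : Fin 4 → ℂ) : sm ψ C (t + d) = sm ψ C t := by
  unfold sm
  congr 1; funext y
  have : t + d - y = (t - y) + d := by abel
  rw [this, h]

lemma vec_add_smul (t₁ t₂ t₃ t₄ d₁ d₂ d₃ d₄ s : ℂ) :
    (![t₁, t₂, t₃, t₄] : Fin 4 → ℂ) + s • ![d₁, d₂, d₃, d₄]
      = ![t₁ + s * d₁, t₂ + s * d₂, t₃ + s * d₃, t₄ + s * d₄] := by
  funext i
  fin_cases i <;> simp

/-- solutions of the Helmholtz equation have mean zero in the second variable -/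
lemma Hel4.mean_two {D : (Fin 4 → ℂ) → ℂ} (hD : Hel4 D) {κ : ℝ} (hκ : κ ≠ 0) (x : Fin 4 → ℂ) :
    Tendsto (fun R : ℝ => ⨍ s in ball (0:ℂ) R, D (x + s • ![0, (κ : ℂ), 0, 0])) atTop (𝓝 0) := by
  obtain ⟨B, hB⟩ := hD.bdd
  have hc : Continuous fun z => D (Function.update x 1 z) :=
    hD.cont.comp (continuous_const.update 1 continuous_id)
  have h1 := mz_of_weakHelm hc (fun z => hB _) (hD.helm 1 x)
  have h2 := h1.translate (fun z => hB _) (x 1)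
  have h3 := h2.dilate hκ
  refine h3.2.congr fun R => ?_
  congr 1
  funext s
  have e : Function.update x 1 (x 1 + κ • s) = x + s • ![0, (κ : ℂ), 0, 0] := by
    funext i
    fin_cases i
    · simp [Function.update]
    · simp [mul_comm]
    · simp [Function.update]
    · simp [Function.update]
  show D (Function.update x 1 (x 1 + κ • s)) = _
  rw [e]

lemma QS_mean_two {φ : Fin 4 → ℂ → ℂ} (h : ∀ j, TestFn (φ j)) {D : (Fin 4 → ℂ) → ℂ}
    (hD : Hel4 D) {κ : ℝ} (hκ : κ ≠ 0) (a b c e : ℤ) (t₁ t₂ t₃ t₄ : ℂ) :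
    MZ (fun s => QS φ D a b c e t₁ (t₂ + κ * s) t₃ t₄) := by
  obtain ⟨B, hB⟩ := hD.bdd
  have h1 := sm_mz hD.cont hB (vec_testFn h a b c e) ![0, (κ : ℂ), 0, 0]
    (fun x => hD.mean_two hκ x) ![t₁, t₂, t₃, t₄]
  simp only [vec_add_smul, mul_zero, add_zero] at h1
  simp only [QS, mul_comm (κ : ℂ)]
  exact h1

/-- the smeared form of the general identity -/
theorem four_general_smear {C M12 M23 M13 : (Fin 4 → ℂ) → ℂ} (hC : Hel4 C) (h12 : Hel4 M12)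
    (h23 : Hel4 M23) (h13 : Hel4 M13)
    (iC : ∀ x (s : ℂ), C (x + s • ![1, 1, 1, 1]) = C x)
    (i12 : ∀ x (s : ℂ), M12 (x + s • ![1, 1, 0, 0]) = M12 x)
    (i23 : ∀ x (s : ℂ), M23 (x + s • ![0, 1, 1, 0]) = M23 x)
    (i13 : ∀ x (s : ℂ), M13 (x + s • ![1, 0, 1, 0]) = M13 x)
    (z12 : ∀ x, Tendsto (fun R : ℝ => ⨍ s in ball (0:ℂ) R,
      (C (x + s • ![1, 1, 0, 0]) - M12 (x + s • ![1, 1, 0, 0]))) atTop (𝓝 0))
    (z23 : ∀ x, Tendsto (fun R : ℝ => ⨍ s in ball (0:ℂ) R,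
      (C (x + s • ![0, 1, 1, 0]) - M23 (x + s • ![0, 1, 1, 0]))) atTop (𝓝 0))
    (z13 : ∀ x, Tendsto (fun R : ℝ => ⨍ s in ball (0:ℂ) R,
      (C (x + s • ![1, 0, 1, 0]) - M13 (x + s • ![1, 0, 1, 0]))) atTop (𝓝 0))
    {φ : Fin 4 → ℂ → ℂ} (h : ∀ j, TestFn (φ j)) (t : Fin 4 → ℂ) :
    MZ (fun s => -(sm φ M23 (t + s • ![1, 1, 0, 0]) + sm φ M13 (t + s • ![1, 1, 0, 0])
      + sm φ M12 (t + s • ![0, 1, 1, 0]) + sm φ M13 (t + s • ![0, 1, 1, 0])
      + sm φ M12 (t + s • ![1, 0, 1, 0]) + sm φ M23 (t + s • ![1, 0, 1, 0]))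
      - 2 * (sm φ C t - sm φ M12 t - sm φ M23 t - sm φ M13 t)) := by
  have hφ : φ = ![tl (φ 0) 0, tl (φ 1) 0, tl (φ 2) 0, tl (φ 3) 0] := by
    funext i; fin_cases i <;> rfl
  have ht : t = ![t 0, t 1, t 2, t 3] := by
    funext i; fin_cases i <;> rfl
  obtain ⟨BC, hBC⟩ := hC.bdd
  have zz : ∀ {M : (Fin 4 → ℂ) → ℂ}, Hel4 M → ∀ d : Fin 4 → ℂ,
      (∀ x, Tendsto (fun R : ℝ => ⨍ s in ball (0:ℂ) R, (C (x + s • d) - M (x + s • d))) atTop
        (𝓝 0)) → ∀ (a b c e : ℤ) (t : Fin 4 → ℂ),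
      MZ (fun s => sm ![tl (φ 0) a, tl (φ 1) b, tl (φ 2) c, tl (φ 3) e] C (t + s • d)
        + (-1) * sm ![tl (φ 0) a, tl (φ 1) b, tl (φ 2) c, tl (φ 3) e] M (t + s • d)) := by
    intro M hM d hz a b c e t
    obtain ⟨BM, hBM⟩ := hM.bdd
    have h1 := sm_mz (D := fun x => C x - M x) (hC.cont.sub hM.cont) (B := BC + BM)
      (fun x => (norm_sub_le _ _).trans (add_le_add (hBC x) (hBM x)))
      (vec_testFn h a b c e) d hz t
    have e1 : (fun s : ℂ => sm ![tl (φ 0) a, tl (φ 1) b, tl (φ 2) c, tl (φ 3) e]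
        (fun x => C x - M x) (t + s • d)) = fun s =>
        sm ![tl (φ 0) a, tl (φ 1) b, tl (φ 2) c, tl (φ 3) e] C (t + s • d)
        + (-1) * sm ![tl (φ 0) a, tl (φ 1) b, tl (φ 2) c, tl (φ 3) e] M (t + s • d) := by
      funext s
      rw [sm_sub hC.cont hM.cont (vec_testFn h a b c e)]; ring
    rw [e1] at h1
    exact h1
  have hp : ∀ {κ : ℝ}, κ ≠ 0 → ∀ (a b c e : ℤ) (t₁ t₂ t₃ t₄ : ℂ),
      MZ (fun s => QS φ C a b c e t₁ (t₂ + κ * s) t₃ t₄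
      + (-1) * QS φ M12 a b c e t₁ (t₂ + κ * s) t₃ t₄ + (-1) * QS φ M23 a b c e t₁ (t₂ + κ * s) t₃ t₄
      + (-1) * QS φ M13 a b c e t₁ (t₂ + κ * s) t₃ t₄) := by
    intro κ hκ a b c e t₁ t₂ t₃ t₄
    exact (((QS_mean_two h hC hκ a b c e t₁ t₂ t₃ t₄).add
      ((QS_mean_two h h12 hκ a b c e t₁ t₂ t₃ t₄).const_mul (-1))).add
      ((QS_mean_two h h23 hκ a b c e t₁ t₂ t₃ t₄).const_mul (-1))).add
      ((QS_mean_two h h13 hκ a b c e t₁ t₂ t₃ t₄).const_mul (-1))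
  have main := core2' zeroMean_MZ (Q := QS φ C) (M12 := QS φ M12) (M23 := QS φ M23)
    (M13 := QS φ M13) (QS_der h hC) ?_ (QS_der h h12) (QS_der h h23) (QS_der h h13)
    ?_ ?_ ?_ ?_ ?_ ?_ ?_ ?_ 0 0 0 0 (t 0) (t 1) (t 2) (t 3)
  · have e : ∀ M : (Fin 4 → ℂ) → ℂ, sm φ M = fun x => QS φ M 0 0 0 0 (x 0) (x 1) (x 2) (x 3) := by
      intro M; funext x
      unfold QS
      rw [← hφ]
      congr 1
      funext i; fin_cases i <;> rfl
    simp only [e]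
    convert main using 2 with s
    simp [QS]
  · intro a b c e t₁ t₂ t₃ t₄ s
    have := sm_inv (fun x => iC x s) ![tl (φ 0) a, tl (φ 1) b, tl (φ 2) c, tl (φ 3) e]
      ![t₁, t₂, t₃, t₄]
    rw [vec_add_smul] at this
    simp only [mul_one] at this
    exact this
  · intro a b c e t₁ t₂ t₃ t₄ s
    have := sm_inv (fun x => i12 x s) ![tl (φ 0) a, tl (φ 1) b, tl (φ 2) c, tl (φ 3) e]
      ![t₁, t₂, t₃, t₄]
    rw [vec_add_smul] at this
    simp only [mul_one, mul_zero, add_zero] at this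
    exact this
  · intro a b c e t₁ t₂ t₃ t₄ s
    have := sm_inv (fun x => i23 x s) ![tl (φ 0) a, tl (φ 1) b, tl (φ 2) c, tl (φ 3) e]
      ![t₁, t₂, t₃, t₄]
    rw [vec_add_smul] at this
    simp only [mul_one, mul_zero, add_zero] at this
    exact this
  · intro a b c e t₁ t₂ t₃ t₄ s
    have := sm_inv (fun x => i13 x s) ![tl (φ 0) a, tl (φ 1) b, tl (φ 2) c, tl (φ 3) e]
      ![t₁, t₂, t₃, t₄]
    rw [vec_add_smul] at this
    simp only [mul_one, mul_zero, add_zero] at this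
    exact this
  · intro a b c e t₁ t₂ t₃ t₄
    have := zz h12 ![1, 1, 0, 0] z12 a b c e ![t₁, t₂, t₃, t₄]
    simp only [vec_add_smul, mul_one, mul_zero, add_zero] at this
    exact this
  · intro a b c e t₁ t₂ t₃ t₄
    have := zz h23 ![0, 1, 1, 0] z23 a b c e ![t₁, t₂, t₃, t₄]
    simp only [vec_add_smul, mul_one, mul_zero, add_zero] at this
    exact this
  · intro a b c e t₁ t₂ t₃ t₄
    have := zz h13 ![1, 0, 1, 0] z13 a b c e ![t₁, t₂, t₃, t₄]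
    simp only [vec_add_smul, mul_one, mul_zero, add_zero] at this
    exact this
  · intro a b c e t₁ t₂ t₃ t₄
    have := hp (κ := 2) (by norm_num) a b c e t₁ t₂ t₃ t₄
    push_cast at this
    exact this
  · intro a b c e t₁ t₂ t₃ t₄
    have := hp (κ := -2) (by norm_num) a b c e t₁ t₂ t₃ t₄
    have e : ∀ s : ℂ, t₂ + ((-2 : ℝ) : ℂ) * s = t₂ - 2 * s := by
      intro s; push_cast; ring
    simp only [e] at this
    exact this

end

end Berry
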