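import Pool.Agent.LibH11.Berry.Fn4d

/-!
Removing the smearing in the general four-point identity.
-/

open Complex Filter Topology MeasureTheory Convolution Metric
open scoped ENNReal ContDiff Pointwise

namespace Berry

noncomputable section

/-- four copies of the approximate identity -/
def aid (n : ℕ) : Fin 4 → ℂ → ℂ := fun _ => approxId n

lemma aid_testFn (n : ℕ) : ∀ j, TestFn (aid n j) := fun _ => approxId_testFn n

lemma ten_aid (n : ℕ) (y : Fin 4 → ℂ) :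
    ten (aid n) y = ((∏ j, (bumpSeq n).normed volume (y j) : ℝ) : ℂ) := by
  unfold ten aid approxId
  push_cast
  rfl

lemma norm_ten_aid (n : ℕ) (y : Fin 4 → ℂ) : ((‖ten (aid n) y‖ : ℝ) : ℂ) = ten (aid n) y := by
  rw [ten_aid, Complex.norm_real, Real.norm_of_nonneg]
  exact Finset.prod_nonneg fun j _ => (bumpSeq n).nonneg_normed _

lemma integral_ten_aid (n : ℕ) : ∫ y, ten (aid n) y = 1 := by
  unfold ten
  rw [integral_fintype_prod_volume_eq_prod]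
  simp [aid, integral_approxId]

lemma integral_norm_ten_aid (n : ℕ) : ∫ y, ‖ten (aid n) y‖ = 1 := by
  have h : ((∫ y, ‖ten (aid n) y‖ : ℝ) : ℂ) = 1 := by
    rw [← integral_complex_ofReal]
    simp only [norm_ten_aid]
    exact integral_ten_aid n
  exact_mod_cast h

lemma ten_aid_support (n : ℕ) {y : Fin 4 → ℂ} (hy : ten (aid n) y ≠ 0) : ‖y‖ < 1 / ((n:ℝ) + 1) := by
  have hpos : (0:ℝ) < 1 / ((n:ℝ) + 1) := by positivity
  rw [pi_norm_lt_iff hpos]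
  intro j
  have h1 : aid n j (y j) ≠ 0 := by
    intro h0
    apply hy
    exact Finset.prod_eq_zero (Finset.mem_univ j) h0
  have h2 : (bumpSeq n).normed volume (y j) ≠ 0 := by
    intro h0
    apply h1
    simp [aid, approxId, h0]
  have h3 : y j ∈ Function.support ((bumpSeq n).normed (volume : Measure ℂ)) := h2
  rw [ContDiffBump.support_normed_eq, mem_ball, dist_zero_right] at h3
  exact h3

lemma sm_aid_close {C : (Fin 4 → ℂ) → ℂ} (hC : Continuous C) (n : ℕ) (t : Fin 4 → ℂ) {δ : ℝ}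
    (h : ∀ y : Fin 4 → ℂ, ‖y‖ < 1 / ((n:ℝ) + 1) → ‖C (t - y) - C t‖ ≤ δ) :
    ‖sm (aid n) C t - C t‖ ≤ δ := by
  have hi := ten_integrable (aid_testFn n)
  have e : sm (aid n) C t - C t = ∫ y, ten (aid n) y * (C (t - y) - C t) := by
    have e1 : C t = ∫ y, ten (aid n) y * C t := by
      rw [integral_mul_const, integral_ten_aid, one_mul]
    conv_lhs => rw [e1]
    unfold sm
    rw [← integral_sub (sm_integrable hC (aid_testFn n) t) (hi.mul_const _)]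
    congr 1; funext y; ring
  rw [e]
  calc ‖∫ y, ten (aid n) y * (C (t - y) - C t)‖ ≤ ∫ y, ‖ten (aid n) y‖ * δ := by
        refine norm_integral_le_of_norm_le (hi.norm.mul_const _) (Eventually.of_forall fun y => ?_)
        rw [norm_mul]
        by_cases hy : ten (aid n) y = 0
        · rw [hy]; simp
        · exact mul_le_mul_of_nonneg_left (h y (ten_aid_support n hy)) (norm_nonneg _)
    _ = δ := by rw [integral_mul_const, integral_norm_ten_aid, one_mul]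

lemma sm_aid_tendsto {C : (Fin 4 → ℂ) → ℂ} (hC : Continuous C) (t : Fin 4 → ℂ) :
    Tendsto (fun n => sm (aid n) C t) atTop (𝓝 (C t)) := by
  rw [Metric.tendsto_atTop]
  intro ε hε
  obtain ⟨δ, hδ, h⟩ := Metric.continuous_iff.1 hC t (ε / 2) (by positivity)
  obtain ⟨N, hN⟩ := exists_nat_one_div_lt hδ
  refine ⟨N, fun n hn => ?_⟩
  rw [dist_eq_norm]
  have h1 : (1:ℝ) / ((n:ℝ) + 1) ≤ 1 / ((N:ℝ) + 1) := by
    apply one_div_le_one_div_of_le (by positivity)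
    have : (N:ℝ) ≤ n := by exact_mod_cast hn
    linarith
  refine lt_of_le_of_lt (sm_aid_close hC n t (δ := ε / 2) fun y hy => ?_) (by linarith)
  have := h (t - y) (by rw [dist_eq_norm]; simp; linarith)
  rw [dist_eq_norm] at this
  exact this.le

lemma sm_aid_unif {C : (Fin 4 → ℂ) → ℂ} (hC : UniformContinuous C) {ε : ℝ} (hε : 0 < ε) :
    ∀ᶠ n : ℕ in atTop, ∀ t, ‖sm (aid n) C t - C t‖ ≤ ε := by
  obtain ⟨δ, hδ, h⟩ := Metric.uniformContinuous_iff.1 hC ε hε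
  obtain ⟨N, hN⟩ := exists_nat_one_div_lt hδ
  filter_upwards [eventually_ge_atTop N] with n hn t
  have h1 : (1:ℝ) / ((n:ℝ) + 1) ≤ 1 / ((N:ℝ) + 1) := by
    apply one_div_le_one_div_of_le (by positivity)
    have : (N:ℝ) ≤ n := by exact_mod_cast hn
    linarith
  refine sm_aid_close hC.continuous n t fun y hy => ?_
  have := @h (t - y) t (by rw [dist_eq_norm]; simp; linarith)
  rw [dist_eq_norm] at this
  exact this.le

/-- uniform limits of functions with vanishing mean -/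
lemma MZ.of_unif {g : ℂ → ℂ} (hg : Continuous g)
    (h : ∀ ε > 0, ∃ g' : ℂ → ℂ, MZ g' ∧ ∀ s, ‖g' s - g s‖ ≤ ε) : MZ g := by
  refine ⟨hg, ?_⟩
  rw [Metric.tendsto_atTop]
  intro ε hε
  obtain ⟨g', hg', hc⟩ := h (ε / 3) (by positivity)
  obtain ⟨R₀, hR₀⟩ := Metric.tendsto_atTop.1 hg'.2 (ε / 3) (by positivity)
  refine ⟨max R₀ 1, fun R hR => ?_⟩
  have hR1 : R₀ ≤ R := (le_max_left _ _).trans hR
  have hRp : 0 < R := lt_of_lt_of_le one_pos ((le_max_right _ _).trans hR)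
  have h1 := hR₀ R hR1
  rw [dist_zero_right] at h1 ⊢
  have h2 : (⨍ s in ball (0:ℂ) R, g' s) - (⨍ s in ball (0:ℂ) R, g s)
      = ⨍ s in ball (0:ℂ) R, (g' s - g s) := by
    have h3 := avg_add (g := g') (h := fun s => -(g s)) hg'.1 hg.neg R
    have h4 := avg_const_mul (-1) g R
    simp only [neg_mul, one_mul] at h4
    rw [h4] at h3
    rw [sub_eq_add_neg, ← h3]
    congr 1
  have h5 : ‖(⨍ s in ball (0:ℂ) R, g' s) - (⨍ s in ball (0:ℂ) R, g s)‖ ≤ ε / 3 := by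
    rw [h2]
    exact (avg_norm_le _ R).trans (avg_le_of_le (hg'.1.sub hg).norm hc hRp)
  have h6 := norm_sub_norm_le (⨍ s in ball (0:ℂ) R, g s) (⨍ s in ball (0:ℂ) R, g' s)
  rw [norm_sub_rev] at h6
  linarith

/-- **The general four-point identity.** -/
theorem four_general {C M12 M23 M13 : (Fin 4 → ℂ) → ℂ} (hC : Hel4 C) (h12 : Hel4 M12)
    (h23 : Hel4 M23) (h13 : Hel4 M13)
    (u12 : UniformContinuous M12) (u23 : UniformContinuous M23) (u13 : UniformContinuous M13)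
    (iC : ∀ x (s : ℂ), C (x + s • ![1, 1, 1, 1]) = C x)
    (i12 : ∀ x (s : ℂ), M12 (x + s • ![1, 1, 0, 0]) = M12 x)
    (i23 : ∀ x (s : ℂ), M23 (x + s • ![0, 1, 1, 0]) = M23 x)
    (i13 : ∀ x (s : ℂ), M13 (x + s • ![1, 0, 1, 0]) = M13 x)
    (z12 : ∀ x, Tendsto (fun R : ℝ => ⨍ s in ball (0:ℂ) R,
      (C (x + s • ![1, 1, 0, 0]) - M12 (x + s • ![1, 1, 0, 0]))) atTop (𝓝 0))
    (z23 : ∀ x, Tendsto (fun R : ℝ => ⨍ s in ball (0:ℂ) R,
      (C (x + s • ![0, 1, 1, 0]) - M23 (x + s • ![0, 1, 1, 0]))) atTop (𝓝 0))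
    (z13 : ∀ x, Tendsto (fun R : ℝ => ⨍ s in ball (0:ℂ) R,
      (C (x + s • ![1, 0, 1, 0]) - M13 (x + s • ![1, 0, 1, 0]))) atTop (𝓝 0))
    (t : Fin 4 → ℂ) :
    MZ (fun s => -(M23 (t + s • ![1, 1, 0, 0]) + M13 (t + s • ![1, 1, 0, 0])
      + M12 (t + s • ![0, 1, 1, 0]) + M13 (t + s • ![0, 1, 1, 0])
      + M12 (t + s • ![1, 0, 1, 0]) + M23 (t + s • ![1, 0, 1, 0]))
      - 2 * (C t - M12 t - M23 t - M13 t)) := by
  apply MZ.of_unif
  · have c1 : ∀ {M : (Fin 4 → ℂ) → ℂ}, Continuous M → ∀ d : Fin 4 → ℂ,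
        Continuous fun s : ℂ => M (t + s • d) := fun hM d => hM.comp (by fun_prop)
    exact (((((((c1 h23.cont _).add (c1 h13.cont _)).add (c1 h12.cont _)).add
      (c1 h13.cont _)).add (c1 h12.cont _)).add (c1 h23.cont _)).neg).sub continuous_const
  intro ε hε
  have k12 := sm_aid_unif u12 (ε := ε / 16) (by positivity)
  have k23 := sm_aid_unif u23 (ε := ε / 16) (by positivity)
  have k13 := sm_aid_unif u13 (ε := ε / 16) (by positivity)
  have kC := (Metric.tendsto_atTop.1 (sm_aid_tendsto hC.cont t)) (ε / 16) (by positivity)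
  obtain ⟨N, hN⟩ := kC
  have kC' : ∀ᶠ n : ℕ in atTop, ‖sm (aid n) C t - C t‖ ≤ ε / 16 := by
    filter_upwards [eventually_ge_atTop N] with n hn
    have := hN n hn
    rw [dist_eq_norm] at this
    exact this.le
  obtain ⟨n, ⟨⟨n12, n23⟩, n13⟩, nC⟩ := (((k12.and k23).and k13).and kC').exists
  refine ⟨_, four_general_smear hC h12 h23 h13 iC i12 i23 i13 z12 z23 z13 (aid_testFn n) t, ?_⟩
  intro s
  have a1 := n23 (t + s • ![1, 1, 0, 0])
  have a2 := n13 (t + s • ![1, 1, 0, 0])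
  have a3 := n12 (t + s • ![0, 1, 1, 0])
  have a4 := n13 (t + s • ![0, 1, 1, 0])
  have a5 := n12 (t + s • ![1, 0, 1, 0])
  have a6 := n23 (t + s • ![1, 0, 1, 0])
  have a7 := n12 t
  have a8 := n23 t
  have a9 := n13 t
  have e : -(sm (aid n) M23 (t + s • ![1, 1, 0, 0]) + sm (aid n) M13 (t + s • ![1, 1, 0, 0])
      + sm (aid n) M12 (t + s • ![0, 1, 1, 0]) + sm (aid n) M13 (t + s • ![0, 1, 1, 0])
      + sm (aid n) M12 (t + s • ![1, 0, 1, 0]) + sm (aid n) M23 (t + s • ![1, 0, 1, 0]))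
      - 2 * (sm (aid n) C t - sm (aid n) M12 t - sm (aid n) M23 t - sm (aid n) M13 t)
      - (-(M23 (t + s • ![1, 1, 0, 0]) + M13 (t + s • ![1, 1, 0, 0])
      + M12 (t + s • ![0, 1, 1, 0]) + M13 (t + s • ![0, 1, 1, 0])
      + M12 (t + s • ![1, 0, 1, 0]) + M23 (t + s • ![1, 0, 1, 0]))
      - 2 * (C t - M12 t - M23 t - M13 t))
      = -(sm (aid n) M23 (t + s • ![1, 1, 0, 0]) - M23 (t + s • ![1, 1, 0, 0]))
      - (sm (aid n) M13 (t + s • ![1, 1, 0, 0]) - M13 (t + s • ![1, 1, 0, 0]))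
      - (sm (aid n) M12 (t + s • ![0, 1, 1, 0]) - M12 (t + s • ![0, 1, 1, 0]))
      - (sm (aid n) M13 (t + s • ![0, 1, 1, 0]) - M13 (t + s • ![0, 1, 1, 0]))
      - (sm (aid n) M12 (t + s • ![1, 0, 1, 0]) - M12 (t + s • ![1, 0, 1, 0]))
      - (sm (aid n) M23 (t + s • ![1, 0, 1, 0]) - M23 (t + s • ![1, 0, 1, 0]))
      - (sm (aid n) C t - C t) - (sm (aid n) C t - C t)
      + (sm (aid n) M12 t - M12 t) + (sm (aid n) M12 t - M12 t)
      + (sm (aid n) M23 t - M23 t) + (sm (aid n) M23 t - M23 t)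
      + (sm (aid n) M13 t - M13 t) + (sm (aid n) M13 t - M13 t) := by ring
  rw [e]
  refine (norm_add_le _ _).trans ?_
  have b1 := norm_add_le (-(sm (aid n) M23 (t + s • ![1, 1, 0, 0]) - M23 (t + s • ![1, 1, 0, 0]))
      - (sm (aid n) M13 (t + s • ![1, 1, 0, 0]) - M13 (t + s • ![1, 1, 0, 0]))
      - (sm (aid n) M12 (t + s • ![0, 1, 1, 0]) - M12 (t + s • ![0, 1, 1, 0]))
      - (sm (aid n) M13 (t + s • ![0, 1, 1, 0]) - M13 (t + s • ![0, 1, 1, 0]))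
      - (sm (aid n) M12 (t + s • ![1, 0, 1, 0]) - M12 (t + s • ![1, 0, 1, 0]))
      - (sm (aid n) M23 (t + s • ![1, 0, 1, 0]) - M23 (t + s • ![1, 0, 1, 0]))
      - (sm (aid n) C t - C t) - (sm (aid n) C t - C t)
      + (sm (aid n) M12 t - M12 t) + (sm (aid n) M12 t - M12 t)
      + (sm (aid n) M23 t - M23 t) + (sm (aid n) M23 t - M23 t)) (sm (aid n) M13 t - M13 t)
  have b2 := norm_add_le (-(sm (aid n) M23 (t + s • ![1, 1, 0, 0]) - M23 (t + s • ![1, 1, 0, 0]))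
      - (sm (aid n) M13 (t + s • ![1, 1, 0, 0]) - M13 (t + s • ![1, 1, 0, 0]))
      - (sm (aid n) M12 (t + s • ![0, 1, 1, 0]) - M12 (t + s • ![0, 1, 1, 0]))
      - (sm (aid n) M13 (t + s • ![0, 1, 1, 0]) - M13 (t + s • ![0, 1, 1, 0]))
      - (sm (aid n) M12 (t + s • ![1, 0, 1, 0]) - M12 (t + s • ![1, 0, 1, 0]))
      - (sm (aid n) M23 (t + s • ![1, 0, 1, 0]) - M23 (t + s • ![1, 0, 1, 0]))
      - (sm (aid n) C t - C t) - (sm (aid n) C t - C t)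
      + (sm (aid n) M12 t - M12 t) + (sm (aid n) M12 t - M12 t)
      + (sm (aid n) M23 t - M23 t)) (sm (aid n) M23 t - M23 t)
  have b3 := norm_add_le (-(sm (aid n) M23 (t + s • ![1, 1, 0, 0]) - M23 (t + s • ![1, 1, 0, 0]))
      - (sm (aid n) M13 (t + s • ![1, 1, 0, 0]) - M13 (t + s • ![1, 1, 0, 0]))
      - (sm (aid n) M12 (t + s • ![0, 1, 1, 0]) - M12 (t + s • ![0, 1, 1, 0]))
      - (sm (aid n) M13 (t + s • ![0, 1, 1, 0]) - M13 (t + s • ![0, 1, 1, 0]))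
      - (sm (aid n) M12 (t + s • ![1, 0, 1, 0]) - M12 (t + s • ![1, 0, 1, 0]))
      - (sm (aid n) M23 (t + s • ![1, 0, 1, 0]) - M23 (t + s • ![1, 0, 1, 0]))
      - (sm (aid n) C t - C t) - (sm (aid n) C t - C t)
      + (sm (aid n) M12 t - M12 t) + (sm (aid n) M12 t - M12 t)) (sm (aid n) M23 t - M23 t)
  have b4 := norm_add_le (-(sm (aid n) M23 (t + s • ![1, 1, 0, 0]) - M23 (t + s • ![1, 1, 0, 0]))
      - (sm (aid n) M13 (t + s • ![1, 1, 0, 0]) - M13 (t + s • ![1, 1, 0, 0]))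
      - (sm (aid n) M12 (t + s • ![0, 1, 1, 0]) - M12 (t + s • ![0, 1, 1, 0]))
      - (sm (aid n) M13 (t + s • ![0, 1, 1, 0]) - M13 (t + s • ![0, 1, 1, 0]))
      - (sm (aid n) M12 (t + s • ![1, 0, 1, 0]) - M12 (t + s • ![1, 0, 1, 0]))
      - (sm (aid n) M23 (t + s • ![1, 0, 1, 0]) - M23 (t + s • ![1, 0, 1, 0]))
      - (sm (aid n) C t - C t) - (sm (aid n) C t - C t)
      + (sm (aid n) M12 t - M12 t)) (sm (aid n) M12 t - M12 t)
  have b5 := norm_add_le (-(sm (aid n) M23 (t + s • ![1, 1, 0, 0]) - M23 (t + s • ![1, 1, 0, 0]))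
      - (sm (aid n) M13 (t + s • ![1, 1, 0, 0]) - M13 (t + s • ![1, 1, 0, 0]))
      - (sm (aid n) M12 (t + s • ![0, 1, 1, 0]) - M12 (t + s • ![0, 1, 1, 0]))
      - (sm (aid n) M13 (t + s • ![0, 1, 1, 0]) - M13 (t + s • ![0, 1, 1, 0]))
      - (sm (aid n) M12 (t + s • ![1, 0, 1, 0]) - M12 (t + s • ![1, 0, 1, 0]))
      - (sm (aid n) M23 (t + s • ![1, 0, 1, 0]) - M23 (t + s • ![1, 0, 1, 0]))
      - (sm (aid n) C t - C t) - (sm (aid n) C t - C t)) (sm (aid n) M12 t - M12 t)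
  have b6 := norm_sub_le (-(sm (aid n) M23 (t + s • ![1, 1, 0, 0]) - M23 (t + s • ![1, 1, 0, 0]))
      - (sm (aid n) M13 (t + s • ![1, 1, 0, 0]) - M13 (t + s • ![1, 1, 0, 0]))
      - (sm (aid n) M12 (t + s • ![0, 1, 1, 0]) - M12 (t + s • ![0, 1, 1, 0]))
      - (sm (aid n) M13 (t + s • ![0, 1, 1, 0]) - M13 (t + s • ![0, 1, 1, 0]))
      - (sm (aid n) M12 (t + s • ![1, 0, 1, 0]) - M12 (t + s • ![1, 0, 1, 0]))
      - (sm (aid n) M23 (t + s • ![1, 0, 1, 0]) - M23 (t + s • ![1, 0, 1, 0]))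
      - (sm (aid n) C t - C t)) (sm (aid n) C t - C t)
  have b7 := norm_sub_le (-(sm (aid n) M23 (t + s • ![1, 1, 0, 0]) - M23 (t + s • ![1, 1, 0, 0]))
      - (sm (aid n) M13 (t + s • ![1, 1, 0, 0]) - M13 (t + s • ![1, 1, 0, 0]))
      - (sm (aid n) M12 (t + s • ![0, 1, 1, 0]) - M12 (t + s • ![0, 1, 1, 0]))
      - (sm (aid n) M13 (t + s • ![0, 1, 1, 0]) - M13 (t + s • ![0, 1, 1, 0]))
      - (sm (aid n) M12 (t + s • ![1, 0, 1, 0]) - M12 (t + s • ![1, 0, 1, 0]))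
      - (sm (aid n) M23 (t + s • ![1, 0, 1, 0]) - M23 (t + s • ![1, 0, 1, 0])))
      (sm (aid n) C t - C t)
  have b8 := norm_sub_le (-(sm (aid n) M23 (t + s • ![1, 1, 0, 0]) - M23 (t + s • ![1, 1, 0, 0]))
      - (sm (aid n) M13 (t + s • ![1, 1, 0, 0]) - M13 (t + s • ![1, 1, 0, 0]))
      - (sm (aid n) M12 (t + s • ![0, 1, 1, 0]) - M12 (t + s • ![0, 1, 1, 0]))
      - (sm (aid n) M13 (t + s • ![0, 1, 1, 0]) - M13 (t + s • ![0, 1, 1, 0]))
      - (sm (aid n) M12 (t + s • ![1, 0, 1, 0]) - M12 (t + s • ![1, 0, 1, 0])))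
      (sm (aid n) M23 (t + s • ![1, 0, 1, 0]) - M23 (t + s • ![1, 0, 1, 0]))
  have b9 := norm_sub_le (-(sm (aid n) M23 (t + s • ![1, 1, 0, 0]) - M23 (t + s • ![1, 1, 0, 0]))
      - (sm (aid n) M13 (t + s • ![1, 1, 0, 0]) - M13 (t + s • ![1, 1, 0, 0]))
      - (sm (aid n) M12 (t + s • ![0, 1, 1, 0]) - M12 (t + s • ![0, 1, 1, 0]))
      - (sm (aid n) M13 (t + s • ![0, 1, 1, 0]) - M13 (t + s • ![0, 1, 1, 0])))
      (sm (aid n) M12 (t + s • ![1, 0, 1, 0]) - M12 (t + s • ![1, 0, 1, 0]))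
  have b10 := norm_sub_le (-(sm (aid n) M23 (t + s • ![1, 1, 0, 0]) - M23 (t + s • ![1, 1, 0, 0]))
      - (sm (aid n) M13 (t + s • ![1, 1, 0, 0]) - M13 (t + s • ![1, 1, 0, 0]))
      - (sm (aid n) M12 (t + s • ![0, 1, 1, 0]) - M12 (t + s • ![0, 1, 1, 0])))
      (sm (aid n) M13 (t + s • ![0, 1, 1, 0]) - M13 (t + s • ![0, 1, 1, 0]))
  have b11 := norm_sub_le (-(sm (aid n) M23 (t + s • ![1, 1, 0, 0]) - M23 (t + s • ![1, 1, 0, 0]))
      - (sm (aid n) M13 (t + s • ![1, 1, 0, 0]) - M13 (t + s • ![1, 1, 0, 0])))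
      (sm (aid n) M12 (t + s • ![0, 1, 1, 0]) - M12 (t + s • ![0, 1, 1, 0]))
  have b12 := norm_sub_le (-(sm (aid n) M23 (t + s • ![1, 1, 0, 0]) - M23 (t + s • ![1, 1, 0, 0])))
      (sm (aid n) M13 (t + s • ![1, 1, 0, 0]) - M13 (t + s • ![1, 1, 0, 0]))
  rw [norm_neg] at b12
  linarith

end

end Berry
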