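import Pool.Agent.LibH11.Berry.Core

/-!
The four-linear form `∫ a b c d` on `L⁴`.
-/

open Complex Filter Topology MeasureTheory ContinuousLinearMap
open scoped ENNReal

namespace Berry

noncomputable section

instance fact_one_le_four : Fact ((1:ℝ≥0∞) ≤ 4) := ⟨by norm_num⟩

instance holderTriple442 : ENNReal.HolderTriple 4 4 2 where
  inv_add_inv_eq_inv := by
    have h : (4:ℝ≥0∞)⁻¹ + 4⁻¹ = 2⁻¹ := by
      rw [← two_mul]
      have h4 : (4:ℝ≥0∞) = 2 * 2 := by norm_num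
      rw [h4, ENNReal.mul_inv (by simp) (by simp), ← mul_assoc,
        ENNReal.mul_inv_cancel (by simp) (by simp), one_mul]
    exact h

variable {Ω : Type*} [MeasurableSpace Ω] {P : Measure Ω} [IsProbabilityMeasure P]

/-- product of two `L⁴` functions, as a continuous bilinear map into `L²` -/
def mulX (P : Measure Ω) : Lp ℂ 4 P →L[ℝ] Lp ℂ 4 P →L[ℝ] Lp ℂ 2 P :=
  (ContinuousLinearMap.mul ℝ ℂ).holderL P 4 4 2

/-- the pairing `∫ f g` on `L²` -/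
def pairX (P : Measure Ω) : Lp ℂ 2 P →L[ℝ] Lp ℂ 2 P →L[ℝ] ℂ :=
  (ContinuousLinearMap.mul ℝ ℂ).lpPairing P 2 2

omit [IsProbabilityMeasure P] in
lemma coeFn_mulX (a b : Lp ℂ 4 P) : mulX P a b =ᵐ[P] fun ω => a ω * b ω :=
  ContinuousLinearMap.coeFn_holder _ a b

omit [IsProbabilityMeasure P] in
lemma pairX_eq (a b : Lp ℂ 2 P) : pairX P a b = ∫ ω, a ω * b ω ∂P :=
  ContinuousLinearMap.lpPairing_eq_integral _ a b

/-- the four-linear form `∫ a b c d` -/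
def C4 (P : Measure Ω) (a b c d : Lp ℂ 4 P) : ℂ := pairX P (mulX P a b) (mulX P c d)

omit [IsProbabilityMeasure P] in
lemma C4_eq (a b c d : Lp ℂ 4 P) : C4 P a b c d = ∫ ω, a ω * b ω * c ω * d ω ∂P := by
  rw [C4, pairX_eq]
  apply integral_congr_ae
  filter_upwards [coeFn_mulX a b, coeFn_mulX c d] with ω h1 h2
  rw [h1, h2]; ring

omit [IsProbabilityMeasure P] in
lemma C4_smul1 (z : ℂ) (a b c d : Lp ℂ 4 P) : C4 P (z • a) b c d = z * C4 P a b c d := by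
  rw [C4_eq, C4_eq, ← integral_const_mul]
  apply integral_congr_ae
  filter_upwards [Lp.coeFn_smul z a] with ω h1
  rw [h1]; simp only [Pi.smul_apply, smul_eq_mul]; ring

omit [IsProbabilityMeasure P] in
lemma C4_swap12 (a b c d : Lp ℂ 4 P) : C4 P a b c d = C4 P b a c d := by
  rw [C4_eq, C4_eq]; congr 1; funext ω; ring

omit [IsProbabilityMeasure P] in
lemma C4_swap23 (a b c d : Lp ℂ 4 P) : C4 P a b c d = C4 P a c b d := by
  rw [C4_eq, C4_eq]; congr 1; funext ω; ring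

omit [IsProbabilityMeasure P] in
lemma C4_swap34 (a b c d : Lp ℂ 4 P) : C4 P a b c d = C4 P a b d c := by
  rw [C4_eq, C4_eq]; congr 1; funext ω; ring

omit [IsProbabilityMeasure P] in
lemma C4_smul2 (z : ℂ) (a b c d : Lp ℂ 4 P) : C4 P a (z • b) c d = z * C4 P a b c d := by
  rw [C4_swap12, C4_smul1, C4_swap12]

omit [IsProbabilityMeasure P] in
lemma C4_smul3 (z : ℂ) (a b c d : Lp ℂ 4 P) : C4 P a b (z • c) d = z * C4 P a b c d := by
  rw [C4_swap23, C4_smul2, C4_swap23]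

omit [IsProbabilityMeasure P] in
lemma C4_smul4 (z : ℂ) (a b c d : Lp ℂ 4 P) : C4 P a b c (z • d) = z * C4 P a b c d := by
  rw [C4_swap34, C4_smul3, C4_swap34]

omit [IsProbabilityMeasure P] in
lemma C4_sub1 (a a' b c d : Lp ℂ 4 P) : C4 P (a - a') b c d = C4 P a b c d - C4 P a' b c d := by
  simp [C4]

omit [IsProbabilityMeasure P] in
lemma C4_sub2 (a b b' c d : Lp ℂ 4 P) : C4 P a (b - b') c d = C4 P a b c d - C4 P a b' c d := by
  simp [C4]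

omit [IsProbabilityMeasure P] in
lemma C4_sub3 (a b c c' d : Lp ℂ 4 P) : C4 P a b (c - c') d = C4 P a b c d - C4 P a b c' d := by
  simp [C4]

omit [IsProbabilityMeasure P] in
lemma C4_sub4 (a b c d d' : Lp ℂ 4 P) : C4 P a b c (d - d') = C4 P a b c d - C4 P a b c d' := by
  simp [C4]

omit [IsProbabilityMeasure P] in
lemma C4_hasDerivAt {f₁ f₂ f₃ f₄ : ℝ → Lp ℂ 4 P} {g₁ g₂ g₃ g₄ : Lp ℂ 4 P} {s : ℝ}
    (h₁ : HasDerivAt f₁ g₁ s) (h₂ : HasDerivAt f₂ g₂ s) (h₃ : HasDerivAt f₃ g₃ s)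
    (h₄ : HasDerivAt f₄ g₄ s) :
    HasDerivAt (fun s => C4 P (f₁ s) (f₂ s) (f₃ s) (f₄ s))
      (C4 P g₁ (f₂ s) (f₃ s) (f₄ s) + C4 P (f₁ s) g₂ (f₃ s) (f₄ s)
        + C4 P (f₁ s) (f₂ s) g₃ (f₄ s) + C4 P (f₁ s) (f₂ s) (f₃ s) g₄) s := by
  have m1 : HasDerivAt (fun s => mulX P (f₁ s)) (mulX P g₁) s :=
    (mulX P).hasFDerivAt.comp_hasDerivAt s h₁
  have m2 := m1.clm_apply h₂
  have m3 : HasDerivAt (fun s => mulX P (f₃ s)) (mulX P g₃) s :=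
    (mulX P).hasFDerivAt.comp_hasDerivAt s h₃
  have m4 := m3.clm_apply h₄
  have m5 : HasDerivAt (fun s => pairX P (mulX P (f₁ s) (f₂ s)))
      (pairX P (mulX P g₁ (f₂ s) + mulX P (f₁ s) g₂)) s :=
    (pairX P).hasFDerivAt.comp_hasDerivAt s m2
  have m6 := m5.clm_apply m4
  refine m6.congr_deriv ?_
  simp only [C4, map_add, _root_.add_apply]
  ring

omit [IsProbabilityMeasure P] in
lemma C4_continuous : Continuous (fun p : Lp ℂ 4 P × Lp ℂ 4 P × Lp ℂ 4 P × Lp ℂ 4 P =>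
    C4 P p.1 p.2.1 p.2.2.1 p.2.2.2) := by
  unfold C4
  have h1 : Continuous (fun p : Lp ℂ 4 P × Lp ℂ 4 P × Lp ℂ 4 P × Lp ℂ 4 P =>
      mulX P p.1 p.2.1) :=
    ((mulX P).continuous.comp continuous_fst).clm_apply (continuous_fst.comp continuous_snd)
  have h2 : Continuous (fun p : Lp ℂ 4 P × Lp ℂ 4 P × Lp ℂ 4 P × Lp ℂ 4 P =>
      mulX P p.2.2.1 p.2.2.2) :=
    ((mulX P).continuous.comp (continuous_fst.comp (continuous_snd.comp continuous_snd))).clm_apply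
      (continuous_snd.comp (continuous_snd.comp continuous_snd))
  exact ((pairX P).continuous.comp h1).clm_apply h2

/-- the constant function `1` in `L⁴` -/
def one4 (P : Measure Ω) [IsProbabilityMeasure P] : Lp ℂ 4 P := MemLp.toLp (fun _ => (1:ℂ)) (memLp_const 1)

lemma coeFn_one4 : one4 P =ᵐ[P] fun _ => (1:ℂ) := MemLp.coeFn_toLp _

/-- the bilinear form `∫ a b` on `L⁴` -/
def C2 (P : Measure Ω) [IsProbabilityMeasure P] (a b : Lp ℂ 4 P) : ℂ := C4 P a b (one4 P) (one4 P)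

lemma C2_eq (a b : Lp ℂ 4 P) : C2 P a b = ∫ ω, a ω * b ω ∂P := by
  rw [C2, C4_eq]
  apply integral_congr_ae
  filter_upwards [coeFn_one4 (P := P)] with ω h
  rw [h]; ring

/-- the trilinear form `∫ a b c` on `L⁴` -/
def C3 (P : Measure Ω) [IsProbabilityMeasure P] (a b c : Lp ℂ 4 P) : ℂ := C4 P a b c (one4 P)

lemma C3_eq (a b c : Lp ℂ 4 P) : C3 P a b c = ∫ ω, a ω * b ω * c ω ∂P := by
  rw [C3, C4_eq]
  apply integral_congr_ae
  filter_upwards [coeFn_one4 (P := P)] with ω h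
  rw [h]; ring

lemma C2_hasDerivAt {f₁ f₂ : ℝ → Lp ℂ 4 P} {g₁ g₂ : Lp ℂ 4 P} {s : ℝ}
    (h₁ : HasDerivAt f₁ g₁ s) (h₂ : HasDerivAt f₂ g₂ s) :
    HasDerivAt (fun s => C2 P (f₁ s) (f₂ s)) (C2 P g₁ (f₂ s) + C2 P (f₁ s) g₂) s := by
  have h := C4_hasDerivAt h₁ h₂ (hasDerivAt_const s (one4 P)) (hasDerivAt_const s (one4 P))
  refine h.congr_deriv ?_
  have e1 : C4 P (f₁ s) (f₂ s) 0 (one4 P) = 0 := by simp [C4]
  have e2 : C4 P (f₁ s) (f₂ s) (one4 P) 0 = 0 := by simp [C4]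
  rw [e1, e2]; simp [C2]

lemma C3_hasDerivAt {f₁ f₂ f₃ : ℝ → Lp ℂ 4 P} {g₁ g₂ g₃ : Lp ℂ 4 P} {s : ℝ}
    (h₁ : HasDerivAt f₁ g₁ s) (h₂ : HasDerivAt f₂ g₂ s) (h₃ : HasDerivAt f₃ g₃ s) :
    HasDerivAt (fun s => C3 P (f₁ s) (f₂ s) (f₃ s))
      (C3 P g₁ (f₂ s) (f₃ s) + C3 P (f₁ s) g₂ (f₃ s) + C3 P (f₁ s) (f₂ s) g₃) s := by
  have h := C4_hasDerivAt h₁ h₂ h₃ (hasDerivAt_const s (one4 P))
  refine h.congr_deriv ?_
  have e2 : C4 P (f₁ s) (f₂ s) (f₃ s) 0 = 0 := by simp [C4]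
  rw [e2]; simp [C3]

lemma C2_symm (a b : Lp ℂ 4 P) : C2 P a b = C2 P b a := C4_swap12 _ _ _ _

lemma C2_smul1 (z : ℂ) (a b : Lp ℂ 4 P) : C2 P (z • a) b = z * C2 P a b := C4_smul1 _ _ _ _ _
lemma C2_smul2 (z : ℂ) (a b : Lp ℂ 4 P) : C2 P a (z • b) = z * C2 P a b := C4_smul2 _ _ _ _ _
lemma C2_sub1 (a a' b : Lp ℂ 4 P) : C2 P (a - a') b = C2 P a b - C2 P a' b := C4_sub1 _ _ _ _ _
lemma C2_sub2 (a b b' : Lp ℂ 4 P) : C2 P a (b - b') = C2 P a b - C2 P a b' := C4_sub2 _ _ _ _ _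

end

end Berry
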