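import Pool.Agent.LibH11.Berry.HWave4

/-!
Fourth moments of Laplace eigenfunctions on hyperbolic surfaces.
-/

open UpperHalfPlane MeasureTheory ProbabilityTheory MatrixGroups Filter Topology Set
  InnerProductSpace Laplacian
open scoped ENNReal NNReal

namespace Berry

noncomputable section

variable {Γ : Subgroup SL(2, ℝ)} {D : Set ℍ} {φ : ℕ → ℍ → ℝ} {m : ℕ → ℝ}

/-- boundedness on a compact quotient -/
lemma EigenSeq.bounded_of_cocompact (hφ : EigenSeq Γ φ m)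
    (hK : ∃ K : Set ℍ, IsCompact K ∧ ∀ z, ∃ γ ∈ Γ, γ • z ∈ K) (n : ℕ) :
    ∃ C : ℝ, ∀ z, |φ n z| ≤ C := by
  obtain ⟨K, hK, hcov⟩ := hK
  obtain ⟨C, hC⟩ := hK.exists_bound_of_continuousOn (hφ.eig n).continuous.continuousOn
  refine ⟨C, fun z => ?_⟩
  obtain ⟨γ, hγ, hz⟩ := hcov z
  rw [← hφ.invariant n γ hγ z]
  exact hC _ hz

lemma EigenSeq.subseq (hφ : EigenSeq Γ φ m) {σ : ℕ → ℕ} (hσ : Tendsto σ atTop atTop) :
    EigenSeq Γ (fun n => φ (σ n)) (fun n => m (σ n)) :=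
  ⟨fun n => hφ.invariant (σ n), fun n => hφ.smooth (σ n), fun n => hφ.eigen (σ n),
    hφ.tendsto.comp hσ⟩

lemma ofComplex_zero (k : ℝ) : (ofComplex (Complex.I + (0:ℂ) / (k : ℂ)) : ℍ) = I := by
  rw [zero_div, add_zero]
  have : (Complex.I : ℂ) = ((I : ℍ) : ℂ) := rfl
  rw [this, ofComplex_apply]

lemma cutWave_zero (φ : ℍ → ℝ) (k : ℝ) (p : ℍ × ℝ) : cutWave φ k 0 p = φ p.1 := by
  rw [cutWave_eq (by simp)]
  unfold localWave
  rw [ofComplex_zero, frame_smul_I]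

lemma EigenSeq.c2_zero [Countable Γ] (hφ : EigenSeq Γ φ m)
    (hD : IsFundamentalDomain Γ D (volume : Measure ℍ)) (hfin : volume D ≠ ∞) (n : ℕ) :
    c2 (frameProb D) (fun n => cutWave (φ n) (m n)) n 0 0 = surfAvg D fun z => φ n z ^ 2 := by
  unfold c2 surfAvg
  simp only [cutWave_zero]
  have h1 : Continuous fun z => φ n z ^ 2 := (hφ.eig n).continuous.pow 2
  rw [← frame_fst hD hfin h1.measurable]
  congr 1; funext p
  ring

lemma EigenSeq.c4_zero [Countable Γ] (hφ : EigenSeq Γ φ m)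
    (hD : IsFundamentalDomain Γ D (volume : Measure ℍ)) (hfin : volume D ≠ ∞) (n : ℕ) :
    c4 (frameProb D) (fun n => cutWave (φ n) (m n)) n 0 0 0 0
      = surfAvg D fun z => φ n z ^ 4 := by
  unfold c4 surfAvg
  simp only [cutWave_zero]
  have h1 : Continuous fun z => φ n z ^ 4 := (hφ.eig n).continuous.pow 4
  rw [← frame_fst hD hfin h1.measurable]
  congr 1; funext p
  ring

/-- **lower bound for the fourth moments of eigenfunctions** -/
theorem EigenSeq.lower [Countable Γ] (hφ : EigenSeq Γ φ m)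
    (hD : IsFundamentalDomain Γ D (volume : Measure ℍ)) (hDm : MeasurableSet D)
    (hfin : volume D ≠ ∞) (hbdd : ∀ n, ∃ C : ℝ, ∀ z, |φ n z| ≤ C)
    (hnorm : ∀ n, surfAvg D (fun z => φ n z ^ 2) = 1) {ε : ℝ} (hε : 0 < ε) :
    ∀ᶠ n in atTop, 3 / 2 - ε ≤ surfAvg D fun z => φ n z ^ 4 := by
  have hP := frameProb_isProb hD hfin
  by_contra hcon
  have hfr : ∃ᶠ n in atTop, (surfAvg D fun z => φ n z ^ 4) < 3 / 2 - ε := by
    rw [Filter.not_eventually] at hcon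
    exact hcon.mono fun n hn => not_le.1 hn
  obtain ⟨σ, hσ, hlt⟩ := extraction_of_frequently_atTop hfr
  have hφ' := hφ.subseq hσ.tendsto_atTop
  have hA := hφ'.aWave hD hDm hfin (fun n => hbdd (σ n)) (B := 3 / 2 - ε)
    (Eventually.of_forall fun n => (hlt n).le)
  have h1 := hA.lower (v := 1) (L := 3 / 2 - ε) (by
    refine tendsto_const_nhds.congr fun n => ?_
    rw [hφ'.c2_zero hD hfin, hnorm (σ n)]) (Eventually.of_forall fun n => by
      rw [hφ'.c4_zero hD hfin]; exact (hlt n).le)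
  linarith

/-- for fixed points and large `n`, the cutoff is invisible -/
lemma EigenSeq.ev_eq (hφ : EigenSeq Γ φ m) (r : ℝ) : ∀ᶠ n in atTop, ∀ x : ℂ, ‖x‖ ≤ r → ∀ p,
    cutWave (φ n) (m n) x p = localWave (φ n) (m n) x p := by
  filter_upwards [(hφ.tendsto.const_div_atTop r).eventually
    (gt_mem_nhds (show (0:ℝ) < 1 / 4 by norm_num)), hφ.tendsto.eventually_gt_atTop 0]
    with n hn hm x hx p
  refine cutWave_eq ?_ p
  rw [norm_div, Complex.norm_real, Real.norm_of_nonneg hm.le]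
  exact (div_le_div_of_nonneg_right hx hm.le).trans hn.le

lemma EigenSeq.c4_ev (hφ : EigenSeq Γ φ m) (x₁ x₂ x₃ x₄ : ℂ) : ∀ᶠ n in atTop,
    c4 (frameProb D) (fun n => cutWave (φ n) (m n)) n x₁ x₂ x₃ x₄
      = ∫ p, localWave (φ n) (m n) x₁ p * localWave (φ n) (m n) x₂ p
        * localWave (φ n) (m n) x₃ p * localWave (φ n) (m n) x₄ p ∂(frameProb D) := by
  filter_upwards [hφ.ev_eq ‖x₁‖, hφ.ev_eq ‖x₂‖, hφ.ev_eq ‖x₃‖, hφ.ev_eq ‖x₄‖] with n h1 h2 h3 h4
  unfold c4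
  congr 1; funext p
  simp only
  rw [h1 x₁ le_rfl, h2 x₂ le_rfl, h3 x₃ le_rfl, h4 x₄ le_rfl]

lemma EigenSeq.c2_ev (hφ : EigenSeq Γ φ m) (x₁ x₂ : ℂ) : ∀ᶠ n in atTop,
    c2 (frameProb D) (fun n => cutWave (φ n) (m n)) n x₁ x₂
      = ∫ p, localWave (φ n) (m n) x₁ p * localWave (φ n) (m n) x₂ p ∂(frameProb D) := by
  filter_upwards [hφ.ev_eq ‖x₁‖, hφ.ev_eq ‖x₂‖] with n h1 h2
  unfold c2
  congr 1; funext p
  simp only
  rw [h1 x₁ le_rfl, h2 x₂ le_rfl]

lemma EigenSeq.spatial_ev (hφ : EigenSeq Γ φ m) (a : ℂ) (R : ℝ) : ∀ᶠ n in atTop, ∀ p,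
    spatialAvg (cutWave (φ n) (m n)) a R p = spatialAvg (localWave (φ n) (m n)) a R p := by
  filter_upwards [hφ.ev_eq (R + ‖a‖)] with n hn p
  unfold spatialAvg
  rw [setAverage_eq, setAverage_eq]
  congr 1
  apply setIntegral_congr_fun measurableSet_ball
  intro x hx
  rw [Metric.mem_ball, dist_zero_right] at hx
  simp only
  rw [hn x (by linarith [norm_nonneg a]), hn (x + a) ((norm_add_le x a).trans (by linarith))]

lemma EigenSeq.planck_iff (hφ : EigenSeq Γ φ m) (a : ℂ) : PlanckAt D φ m a ↔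
    ∀ ε > 0, ∃ R₀ : ℝ, ∀ R ≥ R₀, ∀ᶠ n in atTop,
      ∫ p, (spatialAvg (cutWave (φ n) (m n)) a R p - 1 * waveK a) ^ 2 ∂(frameProb D) ≤ ε := by
  unfold PlanckAt
  constructor
  · intro h ε hε
    obtain ⟨R₀, hR₀⟩ := h ε hε
    refine ⟨R₀, fun R hR => ?_⟩
    filter_upwards [hR₀ R hR, hφ.spatial_ev a R] with n hn hn2
    simp only [hn2, one_mul]
    exact hn
  · intro h ε hε
    obtain ⟨R₀, hR₀⟩ := h ε hε
    refine ⟨R₀, fun R hR => ?_⟩
    filter_upwards [hR₀ R hR, hφ.spatial_ev a R] with n hn hn2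
    simp only [hn2, one_mul] at hn
    exact hn

/-- **upper bound for the fourth moments under Planck-scale equidistribution of mass** -/
theorem EigenSeq.upper [Countable Γ] (hφ : EigenSeq Γ φ m)
    (hD : IsFundamentalDomain Γ D (volume : Measure ℍ)) (hDm : MeasurableSet D)
    (hfin : volume D ≠ ∞) (hbdd : ∀ n, ∃ C : ℝ, ∀ z, |φ n z| ≤ C)
    {B : ℝ} (hB : ∀ n, (surfAvg D fun z => φ n z ^ 4) ≤ B) (hq : PlanckAt D φ m 0)
    {ε : ℝ} (hε : 0 < ε) :
    ∀ᶠ n in atTop, (surfAvg D fun z => φ n z ^ 4) ≤ 3 + ε := by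
  have hP := frameProb_isProb hD hfin
  by_contra hcon
  have hfr : ∃ᶠ n in atTop, 3 + ε < (surfAvg D fun z => φ n z ^ 4) := by
    rw [Filter.not_eventually] at hcon
    exact hcon.mono fun n hn => not_le.1 hn
  obtain ⟨σ, hσ, hlt⟩ := extraction_of_frequently_atTop hfr
  have hφ' := hφ.subseq hσ.tendsto_atTop
  have hA := hφ'.aWave hD hDm hfin (fun n => hbdd (σ n)) (B := B)
    (Eventually.of_forall fun n => hB (σ n))
  have hq1 := (hφ.planck_iff (D := D) 0).1 hq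
  have h1 := hA.upper (v := 1) (L := 3 + ε) (by
    intro ε hε
    obtain ⟨R₀, hR₀⟩ := hq1 ε hε
    refine ⟨R₀, fun R hR => ?_⟩
    have h2 := hσ.tendsto_atTop.eventually (hR₀ R hR)
    filter_upwards [h2] with n hn
    rw [waveK_zero, mul_one] at hn
    exact hn) (Eventually.of_forall fun n => by
      rw [hφ'.c4_zero hD hfin]; exact (hlt n).le)
  linarith

/-- **equivalence of Gaussian four-point correlations and Planck-scale quantum ergodicity** -/
theorem EigenSeq.four_iff [Countable Γ] (hφ : EigenSeq Γ φ m)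
    (hD : IsFundamentalDomain Γ D (volume : Measure ℍ)) (hDm : MeasurableSet D)
    (hfin : volume D ≠ ∞) (hbdd : ∀ n, ∃ C : ℝ, ∀ z, |φ n z| ≤ C)
    (hnorm : ∀ n, surfAvg D (fun z => φ n z ^ 2) = 1) :
    FourPtLimit D φ m ↔
      (∃ B : ℝ, ∀ n, (surfAvg D fun z => φ n z ^ 4) ≤ B) ∧ ∀ a, PlanckAt D φ m a := by
  have hP := frameProb_isProb hD hfin
  constructor
  · intro h
    have h4 : ∀ x₁ x₂ x₃ x₄, Tendsto (fun n => c4 (frameProb D)
        (fun n => cutWave (φ n) (m n)) n x₁ x₂ x₃ x₄) atTop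
        (𝓝 ((1:ℝ) ^ 2 * (waveK (x₁ - x₂) * waveK (x₃ - x₄) + waveK (x₁ - x₃) * waveK (x₂ - x₄)
        + waveK (x₁ - x₄) * waveK (x₂ - x₃)))) := by
      intro x₁ x₂ x₃ x₄
      rw [one_pow, one_mul]
      refine (h x₁ x₂ x₃ x₄).congr' ?_
      filter_upwards [hφ.c4_ev (D := D) x₁ x₂ x₃ x₄] with n hn
      exact hn.symm
    have h0 := h4 0 0 0 0
    simp only [hφ.c4_zero hD hfin] at h0
    obtain ⟨B, hB⟩ := h0.bddAbove_range
    have hB' : ∀ n, (surfAvg D fun z => φ n z ^ 4) ≤ B := fun n => hB ⟨n, rfl⟩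
    refine ⟨⟨B, hB'⟩, fun a => ?_⟩
    have hA := hφ.aWave hD hDm hfin hbdd (B := B) (Eventually.of_forall hB')
    rw [hφ.planck_iff]
    exact hA.planck_of_gauss (v := 1) (by
      refine tendsto_const_nhds.congr fun n => ?_
      rw [hφ.c2_zero hD hfin, hnorm n]) h4 a
  · rintro ⟨⟨B, hB⟩, hq⟩ x₁ x₂ x₃ x₄
    have hA := hφ.aWave hD hDm hfin hbdd (B := B) (Eventually.of_forall hB)
    have h1 := (hA.gauss_of_planck (v := 1) fun a => (hφ.planck_iff a).1 (hq a)).1 x₁ x₂ x₃ x₄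
    rw [one_pow, one_mul] at h1
    refine h1.congr' ?_
    filter_upwards [hφ.c4_ev (D := D) x₁ x₂ x₃ x₄] with n hn
    exact hn

/-- two-point functions -/
theorem EigenSeq.two_of_planck [Countable Γ] (hφ : EigenSeq Γ φ m)
    (hD : IsFundamentalDomain Γ D (volume : Measure ℍ)) (hDm : MeasurableSet D)
    (hfin : volume D ≠ ∞) (hbdd : ∀ n, ∃ C : ℝ, ∀ z, |φ n z| ≤ C)
    {B : ℝ} (hB : ∀ n, (surfAvg D fun z => φ n z ^ 4) ≤ B) (hq : ∀ a, PlanckAt D φ m a)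
    (x₁ x₂ : ℂ) : Tendsto (fun n => ∫ p, localWave (φ n) (m n) x₁ p
      * localWave (φ n) (m n) x₂ p ∂(frameProb D)) atTop (𝓝 (waveK (x₁ - x₂))) := by
  have hP := frameProb_isProb hD hfin
  have hA := hφ.aWave hD hDm hfin hbdd (B := B) (Eventually.of_forall hB)
  have h1 := (hA.gauss_of_planck (v := 1) fun a => (hφ.planck_iff a).1 (hq a)).2 x₁ x₂
  rw [one_mul] at h1
  refine h1.congr' ?_
  filter_upwards [hφ.c2_ev (D := D) x₁ x₂] with n hn
  exact hn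

end

end Berry
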