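import Pool.Agent.LibH11.Berry.SL2

/-!
Unimodularity from a lattice, and the invariance of averages over points and frames.
-/

open UpperHalfPlane MeasureTheory ProbabilityTheory MatrixGroups Filter Topology Set
open scoped ENNReal NNReal

namespace Berry

noncomputable section

variable [MeasurableSpace SL(2, ℝ)] [BorelSpace SL(2, ℝ)]

lemma proj_measurable : Measurable fun g : SL(2, ℝ) => g • I :=
  (continuous_id.smul continuous_const).measurable

lemma map_proj : Measure.map (fun g : SL(2, ℝ) => g • I) nuF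
    = ENNReal.ofReal (2 * Real.pi) • (volume : Measure ℍ) := by
  ext S hS
  rw [Measure.map_apply proj_measurable hS, nuF_preimage hS, Measure.smul_apply, smul_eq_mul,
    mul_comm]

lemma proj_qmp : Measure.QuasiMeasurePreserving (fun g : SL(2, ℝ) => g • I) nuF volume := by
  refine ⟨proj_measurable, ?_⟩
  rw [map_proj]
  exact Measure.smul_absolutelyContinuous

/-- the preimage of a fundamental domain in the group -/
def Fd (D : Set ℍ) : Set SL(2, ℝ) := (fun g : SL(2, ℝ) => g • I) ⁻¹' D

variable {Γ : Subgroup SL(2, ℝ)} {D : Set ℍ}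

lemma fd_isFund (hD : IsFundamentalDomain Γ D (volume : Measure ℍ)) :
    IsFundamentalDomain Γ (Fd D) (nuF : Measure SL(2, ℝ)) :=
  hD.preimage_of_equiv proj_qmp (e := id) Function.bijective_id fun γ g => by
    show (γ • g) • I = γ • (g • I)
    exact mul_smul (γ : SL(2, ℝ)) g I

lemma right_qmp (h : SL(2, ℝ)) :
    Measure.QuasiMeasurePreserving (fun g : SL(2, ℝ) => g * h) nuF nuF := by
  refine ⟨(continuous_mul_const h).measurable, ?_⟩
  rw [Measure.map_right_mul_eq_modularCharacterFun_smul nuF h]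
  exact Measure.smul_absolutelyContinuous

lemma fd_right (hD : IsFundamentalDomain Γ D (volume : Measure ℍ)) (h : SL(2, ℝ)) :
    IsFundamentalDomain Γ ((fun g : SL(2, ℝ) => g * h) ⁻¹' (Fd D)) (nuF : Measure SL(2, ℝ)) :=
  (fd_isFund hD).preimage_of_equiv (right_qmp h) (e := id) Function.bijective_id fun γ g => by
    show ((γ : SL(2, ℝ)) * g) * h = (γ : SL(2, ℝ)) * (g * h)
    rw [mul_assoc]

lemma nuF_fd (hDm : MeasurableSet D) :
    nuF (Fd D) = volume D * ENNReal.ofReal (2 * Real.pi) := nuF_preimage hDm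

/-- right invariance, from a lattice -/
lemma nuF_right [Countable Γ] (hD : IsFundamentalDomain Γ D (volume : Measure ℍ))
    (hDm : MeasurableSet D) (hfin : volume D ≠ ∞) (h : SL(2, ℝ)) :
    Measure.map (fun g : SL(2, ℝ) => g * h) nuF = nuF := by
  have h1 := Measure.map_right_mul_eq_modularCharacterFun_smul (nuF : Measure SL(2, ℝ)) h
  have hFm : MeasurableSet (Fd D) := proj_measurable hDm
  have h2 : nuF ((fun g : SL(2, ℝ) => g * h) ⁻¹' (Fd D)) = nuF (Fd D) :=
    (fd_right hD h).measure_eq (fd_isFund hD)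
  rw [← Measure.map_apply (continuous_mul_const h).measurable hFm, h1, Measure.smul_apply] at h2
  have hne : nuF (Fd D) ≠ 0 := by
    rw [nuF_fd hDm]
    refine mul_ne_zero ?_ ?_
    · refine hD.measure_ne_zero ?_
      intro h0
      have := volume_pos_of_isOpen isOpen_univ ⟨I, mem_univ I⟩
      rw [h0] at this
      simp at this
    · rw [Ne, ENNReal.ofReal_eq_zero, not_le]; positivity
  have hne' : nuF (Fd D) ≠ ∞ := by
    rw [nuF_fd hDm]
    exact ENNReal.mul_ne_top hfin ENNReal.ofReal_ne_top
  have h3 : (Measure.modularCharacterFun h : ℝ≥0∞) = 1 := by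
    have h4 : (Measure.modularCharacterFun h : ℝ≥0∞) * nuF (Fd D) = 1 * nuF (Fd D) := by
      rw [one_mul]; exact h2
    exact (ENNReal.mul_left_inj hne hne').1 h4
  rw [h1]
  have h5 : Measure.modularCharacterFun h = 1 := by exact_mod_cast h3
  rw [h5, one_smul]

lemma frameProb_eq (hDm : MeasurableSet D) : Measure.map frame (frameProb D)
    = ((volume D)⁻¹ * (ENNReal.ofReal (2 * Real.pi))⁻¹) • (nuF : Measure SL(2, ℝ)).restrict (Fd D) := by
  have hFm : MeasurableSet (Fd D) := proj_measurable hDm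
  have e : frame ⁻¹' (Fd D) = D ×ˢ univ := by
    ext p
    simp [Fd, frame_smul_I]
  unfold nuF
  rw [Measure.restrict_map frame_measurable hFm, e]
  unfold pf
  rw [← Measure.prod_restrict, Measure.restrict_univ, ← Measure.map_smul]
  congr 1
  unfold frameProb ProbabilityTheory.cond
  rw [Real.volume_Ioc, sub_zero, Measure.prod_smul_left, Measure.prod_smul_right, smul_smul]

/-- **invariance of the averages over points and frames** -/
lemma frame_invariant [Countable Γ] (hD : IsFundamentalDomain Γ D (volume : Measure ℍ))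
    (hDm : MeasurableSet D) (hfin : volume D ≠ ∞) {f : SL(2, ℝ) → ℝ} (hf : Measurable f)
    (hinv : ∀ γ ∈ Γ, ∀ g, f (γ * g) = f g) (h : SL(2, ℝ)) :
    ∫ p, f (frame p * h) ∂(frameProb D) = ∫ p, f (frame p) ∂(frameProb D) := by
  have hr : Measurable fun g : SL(2, ℝ) => g * h := (continuous_mul_const h).measurable
  have e1 : ∀ F : SL(2, ℝ) → ℝ, Measurable F → ∫ p, F (frame p) ∂(frameProb D)
      = ((volume D)⁻¹ * (ENNReal.ofReal (2 * Real.pi))⁻¹).toReal • ∫ g in Fd D, F g ∂nuF := by
    intro F hF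
    rw [← integral_map frame_measurable.aemeasurable hF.aestronglyMeasurable,
      frameProb_eq hDm, integral_smul_measure]
  rw [e1 (fun g => f (g * h)) (hf.comp hr), e1 f hf]
  congr 1
  have hmp : MeasurePreserving (fun g : SL(2, ℝ) => g * h) nuF nuF :=
    ⟨hr, nuF_right hD hDm hfin h⟩
  have hemb : MeasurableEmbedding fun g : SL(2, ℝ) => g * h :=
    (Homeomorph.mulRight h).measurableEmbedding
  have h1 := hmp.setIntegral_preimage_emb hemb f ((fun g : SL(2, ℝ) => g * h⁻¹) ⁻¹' (Fd D))
  have e2 : (fun g : SL(2, ℝ) => g * h) ⁻¹' ((fun g : SL(2, ℝ) => g * h⁻¹) ⁻¹' (Fd D)) = Fd D := by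
    ext g
    simp
  rw [e2] at h1
  rw [h1]
  exact (fd_right hD h⁻¹).setIntegral_eq (fd_isFund hD) fun γ g => hinv γ γ.2 g

end

end Berry
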