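import Pool.Agent.LibH11.Berry.Lap
import Pool.Agent.LibH11.Berry.SL3
import Pool.Agent.LibH11.Berry.AThm

/-!
Local waves of eigenfunctions on the hyperbolic plane: smoothness and the equation.
-/

open UpperHalfPlane MeasureTheory ProbabilityTheory MatrixGroups Filter Topology Set
  InnerProductSpace Laplacian
open scoped ENNReal NNReal

namespace Berry

noncomputable section

/-- one eigenfunction -/
structure Eig (φ : ℍ → ℝ) (m : ℝ) : Prop where
  smooth : ContDiffOn ℝ 2 (fun w : ℂ => φ (ofComplex w)) {w | 0 < w.im}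
  eigen : ∀ z : ℍ, z.im ^ 2 * (Δ (fun w : ℂ => φ (ofComplex w))) z = - (m ^ 2 * φ z)

lemma isOpen_uhp : IsOpen {w : ℂ | 0 < w.im} := isOpen_lt continuous_const Complex.continuous_im

lemma Eig.continuous {φ : ℍ → ℝ} {m : ℝ} (h : Eig φ m) : Continuous φ := by
  rw [continuous_iff_continuousAt]
  intro z
  have h1 : ContinuousAt (fun w : ℂ => φ (ofComplex w)) (z : ℂ) :=
    h.smooth.continuousOn.continuousAt (isOpen_uhp.mem_nhds z.im_pos)
  have h2 : ContinuousAt (fun z : ℍ => φ (ofComplex (z : ℂ))) z :=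
    ContinuousAt.comp (g := fun w : ℂ => φ (ofComplex w)) (f := fun z : ℍ => (z : ℂ)) h1
      continuous_coe.continuousAt
  simpa only [ofComplex_apply] using h2

lemma coe_ofComplex {w : ℂ} (hw : 0 < w.im) : ((ofComplex w : ℍ) : ℂ) = w := by
  rw [ofComplex_apply_of_im_pos hw]

/-- the map `x ↦ g • (i + x / m)` -/
lemma chart_analytic (g : SL(2, ℝ)) {m : ℝ} {x : ℂ} (hx : 0 < (Complex.I + x / m).im) :
    AnalyticAt ℂ (fun x : ℂ => ((g • ofComplex (Complex.I + x / m) : ℍ) : ℂ)) x := by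
  set τ : ℍ := ⟨Complex.I + x / m, hx⟩ with hτ
  have h1 : AnalyticAt ℂ (fun z : ℂ => (((g : GL (Fin 2) ℝ) • ofComplex z : ℍ) : ℂ)) (τ : ℂ) :=
    analyticAt_smul (by simp) τ
  have h2 : AnalyticAt ℂ (fun x : ℂ => Complex.I + x / m) x :=
    analyticAt_const.add (analyticAt_id.div_const)
  exact AnalyticAt.fun_comp (g := fun z : ℂ => (((g : GL (Fin 2) ℝ) • ofComplex z : ℍ) : ℂ))
    (f := fun x : ℂ => Complex.I + x / m) h1 h2

lemma chart_deriv (g : SL(2, ℝ)) {m : ℝ} {x : ℂ} (hx : 0 < (Complex.I + x / m).im) :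
    ‖deriv (fun x : ℂ => ((g • ofComplex (Complex.I + x / m) : ℍ) : ℂ)) x‖ ^ 2 * m ^ 2
      * (Complex.I + x / m).im ^ 2
      = (if m = 0 then 0 else 1) * (g • ofComplex (Complex.I + x / m) : ℍ).im ^ 2 := by
  set τ : ℍ := ⟨Complex.I + x / m, hx⟩ with hτ
  have h1 : HasDerivAt (fun z : ℂ => (((g : GL (Fin 2) ℝ) • ofComplex z : ℍ) : ℂ))
      (((g : GL (Fin 2) ℝ).val.det : ℂ) / denom (g : GL (Fin 2) ℝ) τ ^ 2) (τ : ℂ) :=
    (hasStrictDerivAt_smul (by simp) τ).hasDerivAt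
  have h2 : HasDerivAt (fun x : ℂ => Complex.I + x / m) (1 / m) x :=
    ((hasDerivAt_id x).div_const (m : ℂ)).const_add Complex.I
  have h3 := HasDerivAt.comp x (h₂ := fun z : ℂ => (((g : GL (Fin 2) ℝ) • ofComplex z : ℍ) : ℂ))
    (h := fun x : ℂ => Complex.I + x / m) h1 h2
  have h4 : deriv (fun x : ℂ => ((g • ofComplex (Complex.I + x / m) : ℍ) : ℂ)) x
      = ((g : GL (Fin 2) ℝ).val.det : ℂ) / denom (g : GL (Fin 2) ℝ) τ ^ 2 * (1 / m) := h3.deriv
  have h5 : (g • ofComplex (Complex.I + x / m) : ℍ).im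
      = |(g : GL (Fin 2) ℝ).det.val| * τ.im / Complex.normSq (denom (g : GL (Fin 2) ℝ) τ) := by
    rw [ofComplex_apply_of_im_pos hx]
    exact im_smul_eq_div_normSq (g : GL (Fin 2) ℝ) τ
  have h6 : (Complex.I + x / m).im = τ.im := rfl
  have hd : Complex.normSq (denom (g : GL (Fin 2) ℝ) τ) ≠ 0 :=
    (normSq_denom_pos _ τ.im_ne_zero).ne'
  have hdn : ‖denom (g : GL (Fin 2) ℝ) τ‖ ^ 2 = Complex.normSq (denom (g : GL (Fin 2) ℝ) τ) :=
    (Complex.normSq_eq_norm_sq _).symm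
  rw [h4, h5, h6]
  have hdet : (g : GL (Fin 2) ℝ).val.det = 1 := by simp
  have hdet' : (g : GL (Fin 2) ℝ).det.val = 1 := by simp
  rw [hdet, hdet']
  simp only [norm_mul, norm_div, norm_pow, Complex.norm_real, abs_one, one_mul, norm_one,
    Complex.ofReal_one]
  rw [Real.norm_eq_abs]
  split_ifs with hm
  · simp [hm]
  · have hdn' : ‖denom (g : GL (Fin 2) ℝ) τ‖ ≠ 0 := by
      intro h
      rw [h] at hdn
      apply hd
      rw [← hdn]; ring
    rw [← hdn]
    have : |m| ^ 2 = m ^ 2 := sq_abs m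
    have hm' : |m| ≠ 0 := abs_ne_zero.2 hm
    field_simp
    rw [this]

lemma Eig.contDiffAt {φ : ℍ → ℝ} {m : ℝ} (h : Eig φ m) (g : SL(2, ℝ)) {x : ℂ}
    (hx : 0 < (Complex.I + x / m).im) :
    ContDiffAt ℝ 2 (fun x : ℂ => φ (g • ofComplex (Complex.I + x / m))) x := by
  set c : ℂ → ℂ := fun x : ℂ => ((g • ofComplex (Complex.I + x / m) : ℍ) : ℂ) with hc
  have h1 : ContDiffAt ℝ 2 (fun w : ℂ => φ (ofComplex w)) (c x) :=
    h.smooth.contDiffAt (isOpen_uhp.mem_nhds (UpperHalfPlane.im_pos _))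
  have h2 : ContDiffAt ℝ 2 c x := (chart_analytic g hx).contDiffAt.restrict_scalars ℝ
  have h3 := ContDiffAt.comp x h1 h2
  have e : (fun x : ℂ => φ (g • ofComplex (Complex.I + x / m)))
      = (fun w : ℂ => φ (ofComplex w)) ∘ c := by
    funext x
    simp only [Function.comp, hc, ofComplex_apply]
  rw [e]; exact h3

lemma Eig.laplacian {φ : ℍ → ℝ} {m : ℝ} (h : Eig φ m) (hm : m ≠ 0) (g : SL(2, ℝ)) {x : ℂ}
    (hx : 0 < (Complex.I + x / m).im) :
    (Δ (fun x : ℂ => φ (g • ofComplex (Complex.I + x / m)))) x * (Complex.I + x / m).im ^ 2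
      = - φ (g • ofComplex (Complex.I + x / m)) := by
  set c : ℂ → ℂ := fun x : ℂ => ((g • ofComplex (Complex.I + x / m) : ℍ) : ℂ) with hc
  have h1 : ContDiffAt ℝ 2 (fun w : ℂ => φ (ofComplex w)) (c x) :=
    h.smooth.contDiffAt (isOpen_uhp.mem_nhds (UpperHalfPlane.im_pos _))
  have h2 := laplacian_conformal h1 (chart_analytic g hx)
  have e : (fun x : ℂ => φ (g • ofComplex (Complex.I + x / m)))
      = (fun x : ℂ => (fun w : ℂ => φ (ofComplex w)) (c x)) := by
    funext x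
    simp only [hc, ofComplex_apply]
  rw [e, h2]
  have h3 := h.eigen (g • ofComplex (Complex.I + x / m))
  have h4 := chart_deriv g (m := m) hx
  rw [if_neg hm, one_mul] at h4
  have h5 : (fun w : ℂ => φ (ofComplex w)) (c x) = φ (g • ofComplex (Complex.I + x / m)) := by
    simp only [hc, ofComplex_apply]
  have hy : (g • ofComplex (Complex.I + x / m) : ℍ).im ≠ 0 := (UpperHalfPlane.im_pos _).ne'
  have hm2 : m ^ 2 ≠ 0 := pow_ne_zero 2 hm
  set L := (Δ (fun w : ℂ => φ (ofComplex w))) (c x) with hL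
  have h3' : (g • ofComplex (Complex.I + x / m) : ℍ).im ^ 2 * L
      = - (m ^ 2 * φ (g • ofComplex (Complex.I + x / m))) := h3
  rw [← h4] at h3'
  have h6 : m ^ 2 * (‖deriv c x‖ ^ 2 * L * (Complex.I + x / m).im ^ 2)
      = m ^ 2 * (- φ (g • ofComplex (Complex.I + x / m))) := by
    rw [hc]
    linear_combination h3'
  exact mul_left_cancel₀ hm2 h6

end

end Berry
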