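import Pool.Agent.LibH11.Berry.HWave

/-!
The local waves of bounded eigenfunctions on a quotient of the hyperbolic plane.
-/

open UpperHalfPlane MeasureTheory ProbabilityTheory MatrixGroups Filter Topology Set
  InnerProductSpace Laplacian
open scoped ENNReal NNReal

namespace Berry

noncomputable section

/-- a smooth cutoff function -/
def cut : ContDiffBump (0 : ℂ) := ⟨1 / 4, 1 / 2, by norm_num, by norm_num⟩

/-- the local wave cut off far away -/
def cutWave (φ : ℍ → ℝ) (m : ℝ) (x : ℂ) (p : ℍ × ℝ) : ℝ :=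
  cut (x / m) * localWave φ m x p

lemma cut_one {z : ℂ} (hz : ‖z‖ ≤ 1 / 4) : cut z = 1 := by
  apply cut.one_of_mem_closedBall
  rw [Metric.mem_closedBall, dist_zero_right]
  exact hz

lemma cut_zero {z : ℂ} (hz : 1 / 2 ≤ ‖z‖) : cut z = 0 := by
  apply cut.zero_of_le_dist
  rw [dist_zero_right]
  exact hz

lemma cutWave_eq {φ : ℍ → ℝ} {m : ℝ} {x : ℂ} (hx : ‖x / m‖ ≤ 1 / 4) (p : ℍ × ℝ) :
    cutWave φ m x p = localWave φ m x p := by
  unfold cutWave
  rw [cut_one hx, one_mul]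

lemma im_pos_of_norm {m : ℝ} {x : ℂ} (hx : ‖x / m‖ < 1) : 0 < (Complex.I + x / m).im := by
  have h1 := Complex.abs_im_le_norm (x / m)
  have h2 := neg_abs_le (x / (m : ℂ)).im
  rw [Complex.add_im, Complex.I_im]
  linarith

lemma cutWave_meas {φ : ℍ → ℝ} (hφ : Continuous φ) (m : ℝ) (x : ℂ) :
    Measurable (cutWave φ m x) := by
  unfold cutWave localWave
  exact ((hφ.comp (frame_continuous.smul continuous_const)).measurable).const_mul _

lemma cutWave_smooth {φ : ℍ → ℝ} {m : ℝ} (h : Eig φ m) (p : ℍ × ℝ) :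
    ContDiff ℝ 2 (fun x => cutWave φ m x p) := by
  rw [contDiff_iff_contDiffAt]
  intro x
  have hcont : Continuous fun y : ℂ => ‖y / (m : ℂ)‖ := by fun_prop
  rcases lt_or_ge ‖x / (m : ℂ)‖ (3 / 4) with hx | hx
  · unfold cutWave localWave
    refine ContDiffAt.mul ?_ (h.contDiffAt (frame p) (im_pos_of_norm (by linarith)))
    have h1 : ContDiff ℝ 2 (cut : ℂ → ℝ) := cut.contDiff
    have h2 : ContDiff ℝ 2 fun y : ℂ => y / (m : ℂ) := by fun_prop
    exact (h1.comp h2).contDiffAt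
  · have h1 : (fun x => cutWave φ m x p) =ᶠ[𝓝 x] fun _ => (0:ℝ) := by
      have h2 : ∀ᶠ y in 𝓝 x, 1 / 2 < ‖y / (m : ℂ)‖ :=
        (hcont.tendsto x).eventually (lt_mem_nhds (by linarith))
      filter_upwards [h2] with y hy
      unfold cutWave
      rw [cut_zero hy.le, zero_mul]
    exact contDiffAt_const.congr_of_eventuallyEq h1

lemma cutWave_bdd {φ : ℍ → ℝ} {C : ℝ} (hC : ∀ z, |φ z| ≤ C) (m : ℝ) (x : ℂ) (p : ℍ × ℝ) :
    |cutWave φ m x p| ≤ C := by
  unfold cutWave localWave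
  rw [abs_mul, abs_of_nonneg cut.nonneg]
  calc cut (x / m) * |φ (frame p • ofComplex (Complex.I + x / m))| ≤ 1 * C :=
        mul_le_mul cut.le_one (hC _) (abs_nonneg _) zero_le_one
    _ = C := one_mul C

lemma cutWave_single {φ : ℍ → ℝ} {m : ℝ} (h : Eig φ m) {C : ℝ} (hC : ∀ z, |φ z| ≤ C)
    (P : Measure (ℍ × ℝ)) : SingleW P (cutWave φ m) :=
  ⟨cutWave_meas h.continuous m, cutWave_smooth h, C, cutWave_bdd hC m⟩

/-- the approximate Helmholtz equation -/
lemma cutWave_eqn {φ : ℍ → ℝ} {m : ℝ} (h : Eig φ m) (hm : 0 < m) {r δ : ℝ} (hδ : 0 < δ)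
    (hr : r / m ≤ 1 / 4) (hrδ : r / m ≤ δ / 4) (p : ℍ × ℝ) {x : ℂ}
    (hx : x ∈ Metric.ball (0:ℂ) r) :
    |(Δ (fun x => cutWave φ m x p)) x + cutWave φ m x p| ≤ δ * |cutWave φ m x p| := by
  rw [Metric.mem_ball, dist_zero_right] at hx
  have hnorm : ‖x / (m : ℂ)‖ = ‖x‖ / m := by
    rw [norm_div, Complex.norm_real, Real.norm_of_nonneg hm.le]
  have hx1 : ‖x / (m : ℂ)‖ < r / m := by
    rw [hnorm]; exact div_lt_div_of_pos_right hx hm
  have hcont : Continuous fun y : ℂ => ‖y / (m : ℂ)‖ := by fun_prop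
  have h1 : (fun x => cutWave φ m x p)
      =ᶠ[𝓝 x] fun x => φ (frame p • ofComplex (Complex.I + x / m)) := by
    have h2 : ∀ᶠ y in 𝓝 x, ‖y / (m : ℂ)‖ < 1 / 4 :=
      (hcont.tendsto x).eventually (gt_mem_nhds (by linarith))
    filter_upwards [h2] with y hy
    exact cutWave_eq hy.le p
  have h3 : (Δ (fun x => cutWave φ m x p)) x
      = (Δ (fun x : ℂ => φ (frame p • ofComplex (Complex.I + x / m)))) x :=
    (laplacian_congr_nhds h1).self_of_nhds
  have h4 := h.laplacian hm.ne' (frame p) (x := x) (im_pos_of_norm (by linarith))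
  have h1' : cutWave φ m x p = φ (frame p • ofComplex (Complex.I + x / m)) := h1.self_of_nhds
  rw [h3, h1']
  set A := φ (frame p • ofComplex (Complex.I + x / m)) with hA
  set t := (Complex.I + x / (m : ℂ)).im with ht
  set L := (Δ (fun x : ℂ => φ (frame p • ofComplex (Complex.I + x / m)))) x with hL
  set ρ := r / m with hρ
  have ht1 : |t - 1| ≤ ρ := by
    have e : t - 1 = (x / (m : ℂ)).im := by
      rw [ht, Complex.add_im, Complex.I_im]; ring
    rw [e]
    exact (Complex.abs_im_le_norm _).trans hx1.le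
  obtain ⟨ht2, ht3⟩ := abs_le.1 ht1
  have hρ0 : 0 ≤ ρ := (abs_nonneg _).trans ht1
  have htpos : 3 / 4 ≤ t := by linarith
  have ht0 : t ^ 2 ≠ 0 := by positivity
  have h5 : L + A = A * ((t ^ 2 - 1) / t ^ 2) := by
    have h6 : L = - A / t ^ 2 := by
      rw [eq_div_iff ht0]; exact h4
    rw [h6]; field_simp; ring
  rw [h5, abs_mul, mul_comm]
  refine mul_le_mul_of_nonneg_right ?_ (abs_nonneg _)
  rw [abs_div, abs_of_pos (by positivity : 0 < t ^ 2), div_le_iff₀ (by positivity)]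
  have h7 : |t ^ 2 - 1| ≤ ρ * (9 / 4) := by
    have e : t ^ 2 - 1 = (t - 1) * (t + 1) := by ring
    rw [e, abs_mul, abs_of_pos (by linarith : 0 < t + 1)]
    exact mul_le_mul ht1 (by linarith) (by linarith) hρ0
  have h8 : (9:ℝ) / 16 ≤ t ^ 2 := by nlinarith
  nlinarith

end

end Berry
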