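import Pool.Agent.LibH11.Berry.HWave2

/-!
The local waves of bounded eigenfunctions are asymptotically translation invariant.
-/

open UpperHalfPlane MeasureTheory ProbabilityTheory MatrixGroups Filter Topology Set
  InnerProductSpace Laplacian
open scoped ENNReal NNReal

namespace Berry

noncomputable section

/-! ### Closeness of correlation functions -/

section Close

variable {Ω : Type*} [MeasurableSpace Ω] {P : Measure Ω} [IsProbabilityMeasure P]
  {F : ℕ → ℂ → Ω → ℝ} {B : ℝ}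

lemma PreWave.close4 (hF : PreWave P F B) {η : ℝ} (hη : 0 < η) : ∃ d > 0, ∀ r : ℝ, ∀ᶠ n in atTop,
    ∀ a b c e a' b' c' e' : ℂ, ‖a‖ < r → ‖b‖ < r → ‖c‖ < r → ‖e‖ < r → ‖a'‖ < r → ‖b'‖ < r →
      ‖c'‖ < r → ‖e'‖ < r → ‖a - a'‖ < d → ‖b - b'‖ < d → ‖c - c'‖ < d → ‖e - e'‖ < d →
      |c4 P F n a b c e - c4 P F n a' b' c' e'| ≤ 4 * η := by
  obtain ⟨d, hd, h⟩ := hF.slot4 hη
  refine ⟨d, hd, fun r => ?_⟩
  filter_upwards [h r] with n hn a b c e a' b' c' e' ha hb hc he ha' hb' hc' he' da db dc de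
  have s12 : ∀ x₁ x₂ x₃ x₄, c4 P F n x₁ x₂ x₃ x₄ = c4 P F n x₂ x₁ x₃ x₄ := by
    intro x₁ x₂ x₃ x₄; unfold c4; congr 1; funext ω; ring
  have s13 : ∀ x₁ x₂ x₃ x₄, c4 P F n x₁ x₂ x₃ x₄ = c4 P F n x₃ x₂ x₁ x₄ := by
    intro x₁ x₂ x₃ x₄; unfold c4; congr 1; funext ω; ring
  have s14 : ∀ x₁ x₂ x₃ x₄, c4 P F n x₁ x₂ x₃ x₄ = c4 P F n x₄ x₂ x₃ x₁ := by
    intro x₁ x₂ x₃ x₄; unfold c4; congr 1; funext ω; ring
  have b1 := hn b c e a a' ha ha' da
  have b2 := hn a' c e b b' hb hb' db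
  have b3 := hn b' a' e c c' hc hc' dc
  have b4 := hn b' c' a' e e' he he' de
  have k1 : c4 P F n b a' c e = c4 P F n a' b c e := s12 _ _ _ _
  have k2 : c4 P F n b' a' c e = c4 P F n a' b' c e := s12 _ _ _ _
  have k3 : c4 P F n c b' a' e = c4 P F n a' b' c e := s13 _ _ _ _
  have k4 : c4 P F n c' b' a' e = c4 P F n a' b' c' e := s13 _ _ _ _
  have k5 : c4 P F n e b' c' a' = c4 P F n a' b' c' e := s14 _ _ _ _
  have k6 : c4 P F n e' b' c' a' = c4 P F n a' b' c' e' := s14 _ _ _ _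
  rw [k1, k2] at b2
  rw [k3, k4] at b3
  rw [k5, k6] at b4
  have e1 : c4 P F n a b c e - c4 P F n a' b' c' e'
      = (c4 P F n a b c e - c4 P F n a' b c e) + (c4 P F n a' b c e - c4 P F n a' b' c e)
        + (c4 P F n a' b' c e - c4 P F n a' b' c' e)
        + (c4 P F n a' b' c' e - c4 P F n a' b' c' e') := by ring
  rw [e1]
  have t1 := abs_add_le ((c4 P F n a b c e - c4 P F n a' b c e)
    + (c4 P F n a' b c e - c4 P F n a' b' c e) + (c4 P F n a' b' c e - c4 P F n a' b' c' e))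
    (c4 P F n a' b' c' e - c4 P F n a' b' c' e')
  have t2 := abs_add_le ((c4 P F n a b c e - c4 P F n a' b c e)
    + (c4 P F n a' b c e - c4 P F n a' b' c e)) (c4 P F n a' b' c e - c4 P F n a' b' c' e)
  have t3 := abs_add_le (c4 P F n a b c e - c4 P F n a' b c e)
    (c4 P F n a' b c e - c4 P F n a' b' c e)
  linarith

lemma PreWave.close2 (hF : PreWave P F B) {η : ℝ} (hη : 0 < η) : ∃ d > 0, ∀ r : ℝ, ∀ᶠ n in atTop,
    ∀ a b a' b' : ℂ, ‖a‖ < r → ‖b‖ < r → ‖a'‖ < r → ‖b'‖ < r → ‖a - a'‖ < d → ‖b - b'‖ < d →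
      |c2 P F n a b - c2 P F n a' b'| ≤ 2 * η := by
  obtain ⟨d, hd, h⟩ := hF.slot2 hη
  refine ⟨d, hd, fun r => ?_⟩
  filter_upwards [h r] with n hn a b a' b' ha hb ha' hb' da db
  have b1 := hn b a a' ha ha' da
  have b2 := hn a' b b' hb hb' db
  rw [c2_swap n b a', c2_swap n b' a'] at b2
  have e1 : c2 P F n a b - c2 P F n a' b'
      = (c2 P F n a b - c2 P F n a' b) + (c2 P F n a' b - c2 P F n a' b') := by ring
  rw [e1]
  have t1 := abs_add_le (c2 P F n a b - c2 P F n a' b) (c2 P F n a' b - c2 P F n a' b')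
  linarith

end Close

/-! ### Invariance of averages -/

variable {Γ : Subgroup SL(2, ℝ)} {D : Set ℍ}

lemma frame_avg [Countable Γ] (hD : IsFundamentalDomain Γ D (volume : Measure ℍ))
    (hDm : MeasurableSet D) (hfin : volume D ≠ ∞) {φ : ℍ → ℝ} (hφ : Continuous φ)
    (hinv : ∀ γ ∈ Γ, ∀ z, φ (γ • z) = φ z) {ι : Type*} [Finite ι] {Φ : (ι → ℝ) → ℝ}
    (hΦ : Continuous Φ) (w : ι → ℍ) (A : SL(2, ℝ)) :
    ∫ p, Φ (fun j => φ (frame p • (A • w j))) ∂(frameProb D)
      = ∫ p, Φ (fun j => φ (frame p • w j)) ∂(frameProb D) := by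
  borelize SL(2, ℝ)
  have hc : Continuous fun g : SL(2, ℝ) => Φ (fun j => φ (g • w j)) :=
    hΦ.comp (continuous_pi fun j => hφ.comp (continuous_id.smul continuous_const))
  have h := frame_invariant hD hDm hfin hc.measurable (fun γ hγ g => by
    simp only [mul_smul, hinv γ hγ]) A
  simp only [mul_smul] at h
  exact h

lemma volume_ne_zero [Countable Γ] (hD : IsFundamentalDomain Γ D (volume : Measure ℍ)) :
    volume D ≠ 0 := by
  refine hD.measure_ne_zero ?_
  intro h0
  have := volume_pos_of_isOpen isOpen_univ ⟨I, mem_univ I⟩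
  rw [h0] at this
  simp at this

lemma frameProb_isProb [Countable Γ] (hD : IsFundamentalDomain Γ D (volume : Measure ℍ))
    (hfin : volume D ≠ ∞) : IsProbabilityMeasure (frameProb D) := by
  have h1 : IsProbabilityMeasure (ProbabilityTheory.cond (volume : Measure ℍ) D) :=
    ProbabilityTheory.cond_isProbabilityMeasure_of_finite (volume_ne_zero hD) hfin
  have h2 : IsProbabilityMeasure
      (ProbabilityTheory.cond (volume : Measure ℝ) (Set.Ioc 0 (2 * Real.pi))) := by
    apply ProbabilityTheory.cond_isProbabilityMeasure_of_finite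
    · rw [Real.volume_Ioc, Ne, ENNReal.ofReal_eq_zero, not_le, sub_zero]; positivity
    · rw [Real.volume_Ioc]; exact ENNReal.ofReal_ne_top
  unfold frameProb
  infer_instance

lemma frame_fst [Countable Γ] (hD : IsFundamentalDomain Γ D (volume : Measure ℍ))
    (hfin : volume D ≠ ∞) {f : ℍ → ℝ} (hf : Measurable f) :
    ∫ p, f p.1 ∂(frameProb D) = ∫ z, f z ∂(ProbabilityTheory.cond (volume : Measure ℍ) D) := by
  have h1 : IsProbabilityMeasure (ProbabilityTheory.cond (volume : Measure ℍ) D) :=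
    ProbabilityTheory.cond_isProbabilityMeasure_of_finite (volume_ne_zero hD) hfin
  have h2 : IsProbabilityMeasure
      (ProbabilityTheory.cond (volume : Measure ℝ) (Set.Ioc 0 (2 * Real.pi))) := by
    apply ProbabilityTheory.cond_isProbabilityMeasure_of_finite
    · rw [Real.volume_Ioc, Ne, ENNReal.ofReal_eq_zero, not_le, sub_zero]; positivity
    · rw [Real.volume_Ioc]; exact ENNReal.ofReal_ne_top
  unfold frameProb
  have h3 := (measurePreserving_fst (μ := ProbabilityTheory.cond (volume : Measure ℍ) D)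
    (ν := ProbabilityTheory.cond (volume : Measure ℝ) (Set.Ioc 0 (2 * Real.pi)))).map_eq
  conv_rhs => rw [← h3]
  rw [integral_map measurable_fst.aemeasurable hf.aestronglyMeasurable]

lemma toSL2R_smul_coe (z w : ℍ) : ((z.toSL2R • w : ℍ) : ℂ) = z.im * w + z.re := by
  rw [coe_specialLinearGroup_apply]
  have h1 : (√z.im : ℝ) ≠ 0 := (Real.sqrt_pos.2 z.im_pos).ne'
  have h2 : (√z.im : ℝ) * √z.im = z.im := Real.mul_self_sqrt z.im_pos.le
  have h1' : ((√z.im : ℝ) : ℂ) ≠ 0 := by exact_mod_cast h1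
  have h2' : ((√z.im : ℝ) : ℂ) * ((√z.im : ℝ) : ℂ) = (z.im : ℂ) := by exact_mod_cast h2
  simp only [coe_toSL2R, Matrix.of_apply, Matrix.cons_val', Matrix.cons_val_zero,
    Matrix.cons_val_one, Algebra.algebraMap_self, RingHom.id_apply]
  simp only [Complex.ofReal_div, Complex.ofReal_one, Complex.ofReal_zero, zero_mul, zero_add]
  rw [← h2']
  field_simp

/-- translations of the local coordinate are, up to a scaling tending to `1`, isometries -/
lemma shift_point {m : ℝ} {s x : ℂ} (hs : 0 < (Complex.I + s / m).im)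
    (hx : 0 < (Complex.I + (x + s) / m).im) :
    (ofComplex (Complex.I + (x + s) / m) : ℍ)
      = (ofComplex (Complex.I + s / m) : ℍ).toSL2R •
        (ofComplex (Complex.I + (x / ((Complex.I + s / m).im : ℂ)) / m) : ℍ) := by
  set a : ℝ := (Complex.I + s / m).im with ha
  have ha0 : (a : ℂ) ≠ 0 := by exact_mod_cast hs.ne'
  have e1 : (a : ℂ) * (Complex.I + (x / (a : ℂ)) / m) + (s / (m : ℂ)).re
      = Complex.I + (x + s) / m := by
    have h1 : (a : ℂ) = 1 + ((s / (m : ℂ)).im : ℂ) := by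
      rw [ha, Complex.add_im, Complex.I_im]; push_cast; ring
    have h2 : (a : ℂ) * (x / (a : ℂ) / m) = x / m := by
      by_cases hm : (m : ℂ) = 0
      · simp [hm]
      · field_simp
    have h3 : (s / (m : ℂ)) = ((s / (m : ℂ)).re : ℂ) + ((s / (m : ℂ)).im : ℂ) * Complex.I :=
      (Complex.re_add_im _).symm
    calc (a : ℂ) * (Complex.I + (x / (a : ℂ)) / m) + (s / (m : ℂ)).re
        = (a : ℂ) * Complex.I + (a : ℂ) * (x / (a : ℂ) / m) + (s / (m : ℂ)).re := by ring
      _ = (1 + ((s / (m : ℂ)).im : ℂ)) * Complex.I + x / m + (s / (m : ℂ)).re := by rw [h2, ← h1]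
      _ = Complex.I + (((s / (m : ℂ)).re : ℂ) + ((s / (m : ℂ)).im : ℂ) * Complex.I) + x / m := by
          ring
      _ = Complex.I + (x + s) / m := by rw [← h3]; ring
  have hw : 0 < (Complex.I + (x / (a : ℂ)) / m).im := by
    have h1 := congrArg Complex.im e1
    rw [Complex.add_im, Complex.ofReal_im, add_zero, Complex.im_ofReal_mul] at h1
    rw [← h1] at hx
    exact (pos_iff_pos_of_mul_pos hx).1 hs
  apply UpperHalfPlane.ext
  rw [toSL2R_smul_coe, coe_ofComplex hx, coe_ofComplex hw, ← e1]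
  have h3 : (ofComplex (Complex.I + s / m) : ℍ).im = a := by
    rw [ofComplex_apply_of_im_pos hs]; rfl
  have h4 : (ofComplex (Complex.I + s / m) : ℍ).re = (s / (m : ℂ)).re := by
    rw [ofComplex_apply_of_im_pos hs]
    show (Complex.I + s / m).re = _
    rw [Complex.add_re, Complex.I_re, zero_add]
  rw [h3, h4]

end

end Berry
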