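import Pool.Agent.LibH11.Berry.HWave3

/-!
Bounded eigenfunctions on a quotient of the hyperbolic plane give asymptotically invariant waves.
-/

open UpperHalfPlane MeasureTheory ProbabilityTheory MatrixGroups Filter Topology Set
  InnerProductSpace Laplacian
open scoped ENNReal NNReal

namespace Berry

noncomputable section

variable {Γ : Subgroup SL(2, ℝ)} {D : Set ℍ} {φ : ℕ → ℍ → ℝ} {m : ℕ → ℝ}

lemma EigenSeq.eig (hφ : EigenSeq Γ φ m) (n : ℕ) : Eig (φ n) (m n) := ⟨hφ.smooth n, hφ.eigen n⟩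

/-- moments at one point -/
lemma frame_pow [Countable Γ] (hD : IsFundamentalDomain Γ D (volume : Measure ℍ))
    (hDm : MeasurableSet D) (hfin : volume D ≠ ∞) {ψ : ℍ → ℝ} (hψ : Continuous ψ)
    (hinv : ∀ γ ∈ Γ, ∀ z, ψ (γ • z) = ψ z) (w : ℍ) :
    ∫ p, ψ (frame p • w) ∂(frameProb D)
      = ∫ z, ψ z ∂(ProbabilityTheory.cond (volume : Measure ℍ) D) := by
  have h1 := frame_avg hD hDm hfin hψ hinv (ι := Fin 1) (Φ := fun v => v 0) (continuous_apply 0)
    (fun _ => I) (w.toSL2R)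
  simp only [toSL2R_smul_I, frame_smul_I] at h1
  rw [h1, frame_fst hD hfin hψ.measurable]

theorem EigenSeq.preWave [Countable Γ] (hφ : EigenSeq Γ φ m)
    (hD : IsFundamentalDomain Γ D (volume : Measure ℍ)) (hDm : MeasurableSet D)
    (hfin : volume D ≠ ∞) (hbdd : ∀ n, ∃ C : ℝ, ∀ z, |φ n z| ≤ C) {B : ℝ}
    (hB : ∀ᶠ n in atTop, ∫ z, φ n z ^ 4 ∂(ProbabilityTheory.cond (volume : Measure ℍ) D) ≤ B) :
    PreWave (frameProb D) (fun n => cutWave (φ n) (m n)) B := by
  have hP := frameProb_isProb hD hfin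
  constructor
  · filter_upwards [hB, hφ.tendsto.eventually_gt_atTop 0] with n hn hm
    obtain ⟨C, hC⟩ := hbdd n
    refine ⟨cutWave_single (hφ.eig n) hC _, fun x => ?_⟩
    have hφc : Continuous (φ n) := (hφ.eig n).continuous
    have hint : Integrable (fun p => φ n (frame p • ofComplex (Complex.I + x / (m n))) ^ 4)
        (frameProb D) := by
      refine integrable_bdd (C := C ^ 4) ?_ fun p => ?_
      · exact (((hφc.comp (frame_continuous.smul continuous_const)).measurable).pow_const 4)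
      · rw [abs_pow]
        exact pow_le_pow_left₀ (abs_nonneg _) (hC _) 4
    calc ∫ p, cutWave (φ n) (m n) x p ^ 4 ∂(frameProb D)
        ≤ ∫ p, φ n (frame p • ofComplex (Complex.I + x / (m n))) ^ 4 ∂(frameProb D) := by
          refine integral_mono_of_nonneg (Eventually.of_forall fun p => by positivity) hint
            (Eventually.of_forall fun p => ?_)
          simp only [cutWave, localWave]
          rw [mul_pow]
          have h1 : cut (x / (m n : ℂ)) ^ 4 ≤ 1 := pow_le_one₀ cut.nonneg cut.le_one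
          have h2 : 0 ≤ φ n (frame p • ofComplex (Complex.I + x / (m n))) ^ 4 := by positivity
          nlinarith
      _ = ∫ z, φ n z ^ 4 ∂(ProbabilityTheory.cond (volume : Measure ℍ) D) :=
          frame_pow hD hDm hfin (ψ := fun z => φ n z ^ 4) (hφc.pow 4)
            (fun γ hγ z => by simp only [hφ.invariant n γ hγ]) _
      _ ≤ B := hn
  · intro r δ hδ
    have h1 : Tendsto (fun n => r / m n) atTop (𝓝 0) := hφ.tendsto.const_div_atTop r
    filter_upwards [hφ.tendsto.eventually_gt_atTop 0,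
      h1.eventually (gt_mem_nhds (show (0:ℝ) < 1 / 4 by norm_num)),
      h1.eventually (gt_mem_nhds (show (0:ℝ) < δ / 4 by positivity))] with n hm h2 h3 p x hx
    exact cutWave_eqn (hφ.eig n) hm hδ h2.le h3.le p hx

lemma tendsto_div_m (hφ : EigenSeq Γ φ m) (x : ℂ) :
    Tendsto (fun n => ‖x / (m n : ℂ)‖) atTop (𝓝 0) := by
  have h1 : Tendsto (fun n => ‖x‖ / m n) atTop (𝓝 0) := hφ.tendsto.const_div_atTop ‖x‖
  refine h1.congr' ?_
  filter_upwards [hφ.tendsto.eventually_gt_atTop 0] with n hm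
  rw [norm_div, Complex.norm_real, Real.norm_of_nonneg hm.le]

lemma tendsto_scaled (hφ : EigenSeq Γ φ m) (x s : ℂ) :
    Tendsto (fun n => x / (((Complex.I + s / (m n : ℂ)).im : ℝ) : ℂ)) atTop (𝓝 x) := by
  have h1 : Tendsto (fun n => (Complex.I + s / (m n : ℂ)).im) atTop (𝓝 1) := by
    have h2 : Tendsto (fun n => s / (m n : ℂ)) atTop (𝓝 0) := by
      rw [tendsto_zero_iff_norm_tendsto_zero]; exact tendsto_div_m hφ s
    have h3 := (Complex.continuous_im.tendsto _).comp (h2.const_add Complex.I)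
    rw [add_zero, Complex.I_im] at h3
    exact h3
  have h2 := (Complex.continuous_ofReal.tendsto _).comp h1
  rw [Complex.ofReal_one] at h2
  have h3 := (tendsto_const_nhds (x := x) (f := atTop (α := ℕ))).div h2 one_ne_zero
  rw [div_one] at h3
  exact h3

theorem EigenSeq.aWave [Countable Γ] (hφ : EigenSeq Γ φ m)
    (hD : IsFundamentalDomain Γ D (volume : Measure ℍ)) (hDm : MeasurableSet D)
    (hfin : volume D ≠ ∞) (hbdd : ∀ n, ∃ C : ℝ, ∀ z, |φ n z| ≤ C) {B : ℝ}
    (hB : ∀ᶠ n in atTop, ∫ z, φ n z ^ 4 ∂(ProbabilityTheory.cond (volume : Measure ℍ) D) ≤ B) :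
    AWave (frameProb D) (fun n => cutWave (φ n) (m n)) B := by
  have hP := frameProb_isProb hD hfin
  have hpre := hφ.preWave hD hDm hfin hbdd hB
  set F : ℕ → ℂ → ℍ × ℝ → ℝ := fun n => cutWave (φ n) (m n) with hF
  -- the scaled points
  have hsc := fun x s => tendsto_scaled hφ x s
  -- for large `n`, exact formula
  have hpt : ∀ x s : ℂ, ∀ᶠ n in atTop, ∀ p,
      F n (x + s) p = φ n (frame p • ((ofComplex (Complex.I + s / (m n : ℂ)) : ℍ).toSL2R •
        (ofComplex (Complex.I + (x / (((Complex.I + s / (m n : ℂ)).im : ℝ) : ℂ)) / (m n : ℂ)) : ℍ)))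
      ∧ F n (x / (((Complex.I + s / (m n : ℂ)).im : ℝ) : ℂ)) p
        = φ n (frame p • (ofComplex
          (Complex.I + (x / (((Complex.I + s / (m n : ℂ)).im : ℝ) : ℂ)) / (m n : ℂ)) : ℍ)) := by
    intro x s
    have h1 := (tendsto_div_m hφ (x + s)).eventually (gt_mem_nhds (show (0:ℝ) < 1 / 4 by norm_num))
    have h2 := (tendsto_div_m hφ s).eventually (gt_mem_nhds (show (0:ℝ) < 1 / 4 by norm_num))
    have h3 : ∀ᶠ n in atTop, ‖x / (((Complex.I + s / (m n : ℂ)).im : ℝ) : ℂ)‖ < ‖x‖ + 1 :=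
      (hsc x s).norm.eventually (gt_mem_nhds (by linarith))
    have h4 : ∀ᶠ n in atTop, (‖x‖ + 1) / m n < 1 / 4 :=
      (hφ.tendsto.const_div_atTop (‖x‖ + 1)).eventually
        (gt_mem_nhds (show (0:ℝ) < 1 / 4 by norm_num))
    filter_upwards [h1, h2, h3, h4, hφ.tendsto.eventually_gt_atTop 0] with n k1 k2 k3 k4 hm p
    constructor
    · show cutWave (φ n) (m n) (x + s) p = _
      rw [cutWave_eq k1.le]
      unfold localWave
      rw [shift_point (im_pos_of_norm (by linarith)) (im_pos_of_norm (by linarith))]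
    · show cutWave (φ n) (m n) _ p = _
      rw [cutWave_eq]
      · rfl
      · rw [norm_div, Complex.norm_real (m n), Real.norm_of_nonneg hm.le]
        refine le_trans ?_ k4.le
        exact div_le_div_of_nonneg_right k3.le hm.le
  refine ⟨hpre, ?_, ?_⟩
  · intro x₁ x₂ x₃ x₄ s
    rw [Metric.tendsto_nhds]
    intro ε hε
    obtain ⟨d, hd, hcl⟩ := hpre.close4 (η := ε / 8) (by positivity)
    set r := max (max ‖x₁‖ ‖x₂‖) (max ‖x₃‖ ‖x₄‖) + 1 with hr
    have hr1 : ‖x₁‖ + 1 ≤ r := by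
      have := (le_max_left ‖x₁‖ ‖x₂‖).trans (le_max_left _ (max ‖x₃‖ ‖x₄‖)); linarith
    have hr2 : ‖x₂‖ + 1 ≤ r := by
      have := (le_max_right ‖x₁‖ ‖x₂‖).trans (le_max_left _ (max ‖x₃‖ ‖x₄‖)); linarith
    have hr3 : ‖x₃‖ + 1 ≤ r := by
      have := (le_max_left ‖x₃‖ ‖x₄‖).trans (le_max_right (max ‖x₁‖ ‖x₂‖) _); linarith
    have hr4 : ‖x₄‖ + 1 ≤ r := by
      have := (le_max_right ‖x₃‖ ‖x₄‖).trans (le_max_right (max ‖x₁‖ ‖x₂‖) _); linarith
    have hnear : ∀ x : ℂ, ∀ᶠ n in atTop,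
        ‖x / (((Complex.I + s / (m n : ℂ)).im : ℝ) : ℂ) - x‖ < d
        ∧ ‖x / (((Complex.I + s / (m n : ℂ)).im : ℝ) : ℂ)‖ < ‖x‖ + 1 := by
      intro x
      have h1 := Metric.tendsto_nhds.1 (hsc x s) d hd
      have h3 : ∀ᶠ n in atTop, ‖x / (((Complex.I + s / (m n : ℂ)).im : ℝ) : ℂ)‖ < ‖x‖ + 1 :=
        (hsc x s).norm.eventually (gt_mem_nhds (by linarith))
      filter_upwards [h1, h3] with n k1 k3
      rw [dist_eq_norm] at k1
      exact ⟨k1, k3⟩
    filter_upwards [hcl r, hnear x₁, hnear x₂, hnear x₃, hnear x₄, hpt x₁ s, hpt x₂ s, hpt x₃ s,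
      hpt x₄ s] with n hn n1 n2 n3 n4 p1 p2 p3 p4
    set a : ℂ := (((Complex.I + s / (m n : ℂ)).im : ℝ) : ℂ) with ha
    have e1 : c4 (frameProb D) F n (x₁ + s) (x₂ + s) (x₃ + s) (x₄ + s)
        = c4 (frameProb D) F n (x₁ / a) (x₂ / a) (x₃ / a) (x₄ / a) := by
      unfold c4
      have h1 := frame_avg hD hDm hfin (hφ.eig n).continuous (hφ.invariant n) (ι := Fin 4)
        (Φ := fun v => v 0 * v 1 * v 2 * v 3) (by fun_prop)
        ![(ofComplex (Complex.I + x₁ / a / (m n : ℂ)) : ℍ), ofComplex (Complex.I + x₂ / a / (m n : ℂ)),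
          ofComplex (Complex.I + x₃ / a / (m n : ℂ)), ofComplex (Complex.I + x₄ / a / (m n : ℂ))]
        (ofComplex (Complex.I + s / (m n : ℂ)) : ℍ).toSL2R
      simp only [Matrix.cons_val_zero, Matrix.cons_val_one, Matrix.cons_val] at h1
      have q1 : ∀ p, F n (x₁ + s) p * F n (x₂ + s) p * F n (x₃ + s) p * F n (x₄ + s) p = _ :=
        fun p => by rw [(p1 p).1, (p2 p).1, (p3 p).1, (p4 p).1]
      have q2 : ∀ p, F n (x₁ / a) p * F n (x₂ / a) p * F n (x₃ / a) p * F n (x₄ / a) p = _ :=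
        fun p => by rw [(p1 p).2, (p2 p).2, (p3 p).2, (p4 p).2]
      simp only [q1, q2]
      exact h1
    rw [e1, dist_zero_right, Real.norm_eq_abs]
    have h2 := hn (x₁ / a) (x₂ / a) (x₃ / a) (x₄ / a) x₁ x₂ x₃ x₄ (by linarith [n1.2])
      (by linarith [n2.2]) (by linarith [n3.2]) (by linarith [n4.2]) (by linarith) (by linarith)
      (by linarith) (by linarith) n1.1 n2.1 n3.1 n4.1
    linarith
  · intro x₁ x₂ s
    rw [Metric.tendsto_nhds]
    intro ε hε
    obtain ⟨d, hd, hcl⟩ := hpre.close2 (η := ε / 8) (by positivity)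
    set r := max ‖x₁‖ ‖x₂‖ + 1 with hr
    have hr1 : ‖x₁‖ + 1 ≤ r := by
      have := le_max_left ‖x₁‖ ‖x₂‖; linarith
    have hr2 : ‖x₂‖ + 1 ≤ r := by
      have := le_max_right ‖x₁‖ ‖x₂‖; linarith
    have hnear : ∀ x : ℂ, ∀ᶠ n in atTop,
        ‖x / (((Complex.I + s / (m n : ℂ)).im : ℝ) : ℂ) - x‖ < d
        ∧ ‖x / (((Complex.I + s / (m n : ℂ)).im : ℝ) : ℂ)‖ < ‖x‖ + 1 := by
      intro x
      have h1 := Metric.tendsto_nhds.1 (hsc x s) d hd
      have h3 : ∀ᶠ n in atTop, ‖x / (((Complex.I + s / (m n : ℂ)).im : ℝ) : ℂ)‖ < ‖x‖ + 1 :=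
        (hsc x s).norm.eventually (gt_mem_nhds (by linarith))
      filter_upwards [h1, h3] with n k1 k3
      rw [dist_eq_norm] at k1
      exact ⟨k1, k3⟩
    filter_upwards [hcl r, hnear x₁, hnear x₂, hpt x₁ s, hpt x₂ s] with n hn n1 n2 p1 p2
    set a : ℂ := (((Complex.I + s / (m n : ℂ)).im : ℝ) : ℂ) with ha
    have e1 : c2 (frameProb D) F n (x₁ + s) (x₂ + s)
        = c2 (frameProb D) F n (x₁ / a) (x₂ / a) := by
      unfold c2
      have h1 := frame_avg hD hDm hfin (hφ.eig n).continuous (hφ.invariant n) (ι := Fin 2)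
        (Φ := fun v => v 0 * v 1) (by fun_prop)
        ![(ofComplex (Complex.I + x₁ / a / (m n : ℂ)) : ℍ), ofComplex (Complex.I + x₂ / a / (m n : ℂ))]
        (ofComplex (Complex.I + s / (m n : ℂ)) : ℍ).toSL2R
      simp only [Matrix.cons_val_zero, Matrix.cons_val_one] at h1
      have q1 : ∀ p, F n (x₁ + s) p * F n (x₂ + s) p = _ :=
        fun p => by rw [(p1 p).1, (p2 p).1]
      have q2 : ∀ p, F n (x₁ / a) p * F n (x₂ / a) p = _ :=
        fun p => by rw [(p1 p).2, (p2 p).2]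
      simp only [q1, q2]
      exact h1
    rw [e1, dist_zero_right, Real.norm_eq_abs]
    have h2 := hn (x₁ / a) (x₂ / a) x₁ x₂ (by linarith [n1.2])
      (by linarith [n2.2]) (by linarith) (by linarith) n1.1 n2.1
    linarith

end

end Berry
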