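import Pool.Agent.LibH11.Berry.Unsmear

/-!
From mean-square convergence of spatial averages to averaged factorisation.
-/

open Complex Filter Topology MeasureTheory ProbabilityTheory Metric
open scoped ENNReal

namespace Berry

noncomputable section

variable {Ω : Type*} [MeasurableSpace Ω] {P : Measure Ω} [IsProbabilityMeasure P]
  {F : ℂ → Ω → ℝ}

/-- the `L²`-valued product process -/
def prodL2 (G : ℂ → Lp ℂ 4 P) (a x : ℂ) : Lp ℂ 2 P := mulX P (G x) (G (x + a))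

omit [IsProbabilityMeasure P] in
lemma prodL2_continuous {G : ℂ → Lp ℂ 4 P} (hG : Continuous G) (a : ℂ) :
    Continuous (prodL2 G a) :=
  ((mulX P).continuous.comp hG).clm_apply (hG.comp (continuous_id.add continuous_const))

omit [IsProbabilityMeasure P] in
lemma InvWave.prodL2_coeFn (hF : InvWave P F) (h4 : MemLp (F 0) 4 P) (a x : ℂ) :
    prodL2 (hF.toL4 h4) a x =ᵐ[P] fun ω => ((F x ω * F (x + a) ω : ℝ) : ℂ) := by
  filter_upwards [coeFn_mulX (hF.toL4 h4 x) (hF.toL4 h4 (x + a)), hF.coeFn_toL4 h4 x,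
    hF.coeFn_toL4 h4 (x + a)] with ω h1 h2 h3
  rw [prodL2, h1, h2, h3]; push_cast; ring

/-- the `L²`-valued average is a.e. equal to the pointwise average -/
lemma InvWave.avg_prodL2_coeFn (hF : InvWave P F) (h4 : MemLp (F 0) 4 P) (a : ℂ) (R : ℝ) :
    (⨍ x in ball (0:ℂ) R, prodL2 (hF.toL4 h4) a x : Lp ℂ 2 P) =ᵐ[P]
      fun ω => (spatialAvg F a R ω : ℂ) := by
  have hcont := hF.continuous_toL4 h4
  have hp : ∀ x, MemLp (fun ω => ((F x ω * F (x + a) ω : ℝ) : ℂ)) 2 P := by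
    intro x
    have := (Lp.memLp (prodL2 (hF.toL4 h4) a x))
    exact this.ae_eq (hF.prodL2_coeFn h4 a x)
  have he : (fun x => (hp x).toLp _) = fun x => prodL2 (hF.toL4 h4) a x := by
    funext x
    apply Lp.ext
    filter_upwards [(hp x).coeFn_toLp, hF.prodL2_coeFn h4 a x] with ω h1 h2
    rw [h1, h2]
  have hm : StronglyMeasurable (Function.uncurry fun (x : ℂ) ω => ((F x ω * F (x + a) ω : ℝ) : ℂ)) := by
    have h1 : Measurable fun p : ℂ × Ω => F p.1 p.2 := hF.measurable_uncurry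
    have h2 : Measurable fun p : ℂ × Ω => F (p.1 + a) p.2 :=
      hF.measurable_uncurry.comp ((measurable_fst.add_const a).prodMk measurable_snd)
    exact (Complex.measurable_ofReal.comp (h1.mul h2)).stronglyMeasurable
  have hi : Integrable (fun x => (hp x).toLp _) (volume.restrict (ball (0:ℂ) R)) := by
    rw [he]
    exact intOn (prodL2_continuous hcont a) 0 R
  have key := Lp_integral_coeFn hm hp hi
  rw [he] at key
  rw [setAverage_eq]
  filter_upwards [key, Lp.coeFn_smul ((volume.real (ball (0:ℂ) R))⁻¹ : ℝ)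
    (∫ x in ball (0:ℂ) R, prodL2 (hF.toL4 h4) a x)] with ω h1 h2
  rw [h2, Pi.smul_apply, h1, spatialAvg, setAverage_eq, integral_complex_ofReal]
  simp

/-- the constant function `1` in `L²` -/
def one2 (P : Measure Ω) [IsProbabilityMeasure P] : Lp ℂ 2 P :=
  MemLp.toLp (fun _ => (1:ℂ)) (memLp_const 1)

lemma coeFn_one2 : one2 P =ᵐ[P] fun _ => (1:ℂ) := MemLp.coeFn_toLp _

lemma mulX_one4 : mulX P (one4 P) (one4 P) = one2 P := by
  apply Lp.ext
  filter_upwards [coeFn_mulX (one4 P) (one4 P), coeFn_one4 (P := P), coeFn_one2 (P := P)]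
    with ω h1 h2 h3
  rw [h1, h2, h3]; ring

lemma norm_sq_sub_const (u : Lp ℂ 2 P) (f : Ω → ℝ) (hf : u =ᵐ[P] fun ω => (f ω : ℂ)) (k : ℝ) :
    ‖u - (k : ℂ) • one2 P‖ ^ 2 = ∫ ω, (f ω - k) ^ 2 ∂P := by
  have h1 := L2.inner_def (𝕜 := ℂ) (u - (k : ℂ) • one2 P) (u - (k : ℂ) • one2 P)
  have h2 : (‖u - (k : ℂ) • one2 P‖ ^ 2 : ℝ) =
      RCLike.re (inner ℂ (u - (k : ℂ) • one2 P) (u - (k : ℂ) • one2 P)) := by
    rw [inner_self_eq_norm_sq]
  rw [h2, h1]
  have h3 : ∫ ω, inner ℂ ((u - (k : ℂ) • one2 P) ω) ((u - (k : ℂ) • one2 P) ω) ∂P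
      = ((∫ ω, (f ω - k) ^ 2 ∂P : ℝ) : ℂ) := by
    rw [← integral_complex_ofReal]
    apply integral_congr_ae
    filter_upwards [Lp.coeFn_sub u ((k : ℂ) • one2 P), Lp.coeFn_smul (k : ℂ) (one2 P),
      coeFn_one2 (P := P), hf] with ω e1 e2 e3 e4
    rw [e1, Pi.sub_apply, e2, Pi.smul_apply, e3, e4, smul_eq_mul, mul_one]
    rw [← ofReal_sub]
    simp only [RCLike.inner_apply, conj_ofReal]
    push_cast; ring
  rw [h3]
  simp

variable (hF : InvWave P F) (h4 : MemLp (F 0) 4 P)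

omit [IsProbabilityMeasure P] in
lemma pairX_avg (G : ℂ → Lp ℂ 2 P) (hG : Continuous G) (H : Lp ℂ 2 P) (R : ℝ) :
    pairX P (⨍ x in ball (0:ℂ) R, G x) H = ⨍ x in ball (0:ℂ) R, pairX P (G x) H := by
  rw [setAverage_eq, setAverage_eq, map_smul]
  have h := ContinuousLinearMap.integral_comp_comm ((pairX P).flip H)
    (intOn hG 0 R)
  have h2 : pairX P (∫ x in ball (0:ℂ) R, G x) H = ∫ x in ball (0:ℂ) R, pairX P (G x) H := h.symm
  rw [← h2]
  rfl

/-- mean-square convergence as convergence in `L²` -/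
lemma InvWave.planck_L2 (hq : PlanckQE P F) (a : ℂ) :
    Tendsto (fun R : ℝ => (⨍ x in ball (0:ℂ) R, prodL2 (hF.toL4 h4) a x : Lp ℂ 2 P)) atTop
      (𝓝 ((((∫ ω', F 0 ω' ^ 2 ∂P) * waveK a : ℝ) : ℂ) • one2 P)) := by
  rw [tendsto_iff_norm_sub_tendsto_zero]
  have h1 : ∀ R : ℝ, ‖(⨍ x in ball (0:ℂ) R, prodL2 (hF.toL4 h4) a x : Lp ℂ 2 P)
      - (((∫ ω', F 0 ω' ^ 2 ∂P) * waveK a : ℝ) : ℂ) • one2 P‖ =
      Real.sqrt (∫ ω, (spatialAvg F a R ω - (∫ ω', F 0 ω' ^ 2 ∂P) * waveK a) ^ 2 ∂P) := by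
    intro R
    rw [← norm_sq_sub_const _ _ (hF.avg_prodL2_coeFn h4 a R), Real.sqrt_sq (norm_nonneg _)]
  simp only [h1]
  have := (hq a).sqrt
  simpa using this

include hF h4 in
/-- the two-point function is determined by the spatial averages -/
lemma InvWave.planck_two_point (hq : PlanckQE P F) (x y : ℂ) :
    ∫ ω, F x ω * F y ω ∂P = (∫ ω', F 0 ω' ^ 2 ∂P) * waveK (y - x) := by
  have hcont := hF.continuous_toL4 h4
  set a := y - x with ha
  have h1 := hF.planck_L2 h4 hq a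
  have h2 : Tendsto (fun R : ℝ => pairX P (⨍ x in ball (0:ℂ) R, prodL2 (hF.toL4 h4) a x) (one2 P))
      atTop (𝓝 (pairX P ((((∫ ω', F 0 ω' ^ 2 ∂P) * waveK a : ℝ) : ℂ) • one2 P) (one2 P))) :=
    (((pairX P).flip (one2 P)).continuous.tendsto _).comp h1
  have h3 : pairX P ((((∫ ω', F 0 ω' ^ 2 ∂P) * waveK a : ℝ) : ℂ) • one2 P) (one2 P)
      = (((∫ ω', F 0 ω' ^ 2 ∂P) * waveK a : ℝ) : ℂ) := by
    rw [pairX_eq]
    have : ∫ ω, (((((∫ ω', F 0 ω' ^ 2 ∂P) * waveK a : ℝ) : ℂ) • one2 P : Lp ℂ 2 P) ω)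
        * (one2 P) ω ∂P = ∫ _, (((∫ ω', F 0 ω' ^ 2 ∂P) * waveK a : ℝ) : ℂ) ∂P := by
      apply integral_congr_ae
      filter_upwards [Lp.coeFn_smul (((∫ ω', F 0 ω' ^ 2 ∂P) * waveK a : ℝ) : ℂ) (one2 P),
        coeFn_one2 (P := P)] with ω e1 e2
      rw [e1, Pi.smul_apply, e2]; simp
    rw [this]; simp
  have h4' : ∀ s, pairX P (prodL2 (hF.toL4 h4) a s) (one2 P)
      = ((∫ ω, F x ω * F y ω ∂P : ℝ) : ℂ) := by
    intro s
    have e : pairX P (prodL2 (hF.toL4 h4) a s) (one2 P) = C2 P (hF.toL4 h4 s) (hF.toL4 h4 (s + a)) := by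
      rw [C2, C4, mulX_one4]; rfl
    rw [e, hF.C2_F]
    congr 1
    have := hF.int2_shift x y (s - x)
    have e1 : x + (s - x) = s := by ring
    have e2 : y + (s - x) = s + a := by rw [ha]; ring
    rw [e1, e2] at this
    exact this
  have h5 : Tendsto (fun R : ℝ => pairX P (⨍ x in ball (0:ℂ) R, prodL2 (hF.toL4 h4) a x) (one2 P))
      atTop (𝓝 ((∫ ω, F x ω * F y ω ∂P : ℝ) : ℂ)) := by
    refine tendsto_const_nhds.congr' ?_
    filter_upwards [eventually_gt_atTop (0:ℝ)] with R hR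
    rw [pairX_avg _ (prodL2_continuous hcont a)]
    simp only [h4']
    rw [avg_const hR]
  have h6 := tendsto_nhds_unique h5 h2
  rw [h3] at h6
  exact_mod_cast h6

/-- averaged factorisation -/
lemma InvWave.planck_mixAvg (hq : PlanckQE P F) : MixAvg P (hF.toL4 h4) := by
  have hcont := hF.continuous_toL4 h4
  intro x₁ x₂ c d
  set G := hF.toL4 h4 with hGdef
  set a := x₂ - x₁ with ha
  set H := mulX P c d with hH
  obtain ⟨M, hM0, hM⟩ := C4_bound (P := P)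
  set g : ℂ → ℂ := fun s => C4 P (G s) (G (s + a)) c d with hg
  have hgc : Continuous g := C4_comp_continuous hcont (hcont.comp (continuous_id.add continuous_const))
    continuous_const continuous_const
  have hgb : ∀ s, ‖g s‖ ≤ M * ‖G 0‖ * ‖G 0‖ * ‖c‖ * ‖d‖ := by
    intro s
    refine (hM _ _ _ _).trans (le_of_eq ?_)
    rw [hGdef, hF.norm_toL4 h4 s, hF.norm_toL4 h4 (s + a)]
  have h1 := hF.planck_L2 h4 hq a
  have h2 : Tendsto (fun R : ℝ => pairX P (⨍ x in ball (0:ℂ) R, prodL2 G a x) H)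
      atTop (𝓝 (pairX P ((((∫ ω', F 0 ω' ^ 2 ∂P) * waveK a : ℝ) : ℂ) • one2 P) H)) :=
    (((pairX P).flip H).continuous.tendsto _).comp h1
  have h3 : pairX P ((((∫ ω', F 0 ω' ^ 2 ∂P) * waveK a : ℝ) : ℂ) • one2 P) H
      = C2 P (G x₁) (G x₂) * C2 P c d := by
    have e1 : C2 P (G x₁) (G x₂) = (((∫ ω', F 0 ω' ^ 2 ∂P) * waveK a : ℝ) : ℂ) := by
      rw [hGdef, hF.C2_F, hF.planck_two_point h4 hq]
    rw [e1, pairX_eq, C2_eq, ← integral_const_mul]
    apply integral_congr_ae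
    filter_upwards [Lp.coeFn_smul (((∫ ω', F 0 ω' ^ 2 ∂P) * waveK a : ℝ) : ℂ) (one2 P),
      coeFn_one2 (P := P), coeFn_mulX c d] with ω e1 e2 e3
    rw [e1, Pi.smul_apply, e2, hH, e3, smul_eq_mul, mul_one]
  rw [h3] at h2
  have h4' : Tendsto (fun R : ℝ => ⨍ s in ball (0:ℂ) R, g s) atTop
      (𝓝 (C2 P (G x₁) (G x₂) * C2 P c d)) := by
    refine h2.congr fun R => ?_
    rw [pairX_avg _ (prodL2_continuous hcont a)]
    rfl
  have h5 := avg_shift hgc hgb x₁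
  have h6 := h5.add h4'
  simp only [sub_add_cancel, zero_add] at h6
  have h7 : Tendsto (fun R : ℝ => (⨍ s in ball (0:ℂ) R, g (x₁ + s))
      - C2 P (G x₁) (G x₂) * C2 P c d) atTop (𝓝 0) := by
    have := h6.sub_const (C2 P (G x₁) (G x₂) * C2 P c d)
    simpa using this
  refine h7.congr' ?_
  filter_upwards [eventually_gt_atTop (0:ℝ)] with R hR
  have hc1 : Continuous fun s => g (x₁ + s) := hgc.comp (continuous_const.add continuous_id)
  have := avg_add hc1 (continuous_const (y := -(C2 P (G x₁) (G x₂) * C2 P c d))) R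
  rw [avg_const hR, ← sub_eq_add_neg] at this
  rw [← this]
  congr 1
  funext s
  simp only [hg]
  rw [← sub_eq_add_neg]
  congr 3
  rw [ha]; ring

lemma InvWave.planck_vanC2 (hq : PlanckQE P F) : VanC2 P (hF.toL4 h4) := by
  intro x y ε hε
  set v := ∫ ω', F 0 ω' ^ 2 ∂P with hv
  obtain ⟨N, hN⟩ := waveK_vanishes (ε / (|v| + 1)) (by positivity)
  refine ⟨N + ‖y - x‖, fun s hs => ?_⟩
  simp only
  rw [hF.C2_F, hF.planck_two_point h4 hq, Complex.norm_real, Real.norm_eq_abs, abs_mul]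
  have h1 : N ≤ ‖y - (x + s)‖ := by
    have : ‖s‖ ≤ ‖y - (x + s)‖ + ‖y - x‖ := by
      calc ‖s‖ = ‖(y - x) - (y - (x + s))‖ := by congr 1; ring
        _ ≤ ‖y - x‖ + ‖y - (x + s)‖ := norm_sub_le _ _
        _ = _ := add_comm _ _
    linarith
  have h2 := hN _ h1
  calc |v| * |waveK (y - (x + s))| ≤ |v| * (ε / (|v| + 1)) :=
        mul_le_mul_of_nonneg_left h2 (abs_nonneg _)
    _ ≤ ε := by
        rw [mul_div_assoc', div_le_iff₀ (by positivity)]
        nlinarith [abs_nonneg v]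

include hF h4 in
/-- Planck-scale quantum ergodicity implies the Gaussian four-point function. -/
theorem InvWave.planck_four_point (hq : PlanckQE P F) (x₁ x₂ x₃ x₄ : ℂ) :
    ∫ ω, F x₁ ω * F x₂ ω * F x₃ ω * F x₄ ω ∂P = (∫ ω', F 0 ω' ^ 2 ∂P) ^ 2 *
      (waveK (x₁ - x₂) * waveK (x₃ - x₄) + waveK (x₁ - x₃) * waveK (x₂ - x₄)
        + waveK (x₁ - x₄) * waveK (x₂ - x₃)) := by
  have hcont := hF.continuous_toL4 h4
  have h := wick_formula hcont (B := ‖hF.toL4 h4 0‖) (fun x => (hF.norm_toL4 h4 x).le)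
    (hF.weakHelm h4) (hF.C4_shift h4) (hF.C2_shift h4) (hF.planck_mixAvg h4 hq)
    (hF.planck_vanC2 h4 hq) x₁ x₂ x₃ x₄
  have e : ∀ x y, ∫ ω, F x ω * F y ω ∂P = (∫ ω', F 0 ω' ^ 2 ∂P) * waveK (x - y) := by
    intro x y
    rw [hF.planck_two_point h4 hq, ← waveK_neg (x - y), neg_sub]
  simp only [hF.C4_F, hF.C2_F, e] at h
  have h' : (∫ ω, F x₁ ω * F x₂ ω * F x₃ ω * F x₄ ω ∂P) =
      (∫ ω', F 0 ω' ^ 2 ∂P) * waveK (x₁ - x₂) * ((∫ ω', F 0 ω' ^ 2 ∂P) * waveK (x₃ - x₄))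
      + (∫ ω', F 0 ω' ^ 2 ∂P) * waveK (x₁ - x₃) * ((∫ ω', F 0 ω' ^ 2 ∂P) * waveK (x₂ - x₄))
      + (∫ ω', F 0 ω' ^ 2 ∂P) * waveK (x₁ - x₄) * ((∫ ω', F 0 ω' ^ 2 ∂P) * waveK (x₂ - x₃)) := by
    exact_mod_cast h
  rw [h']; ring

end

end Berry
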