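import Pool.Agent.LibH11.Berry.Pair4
import Pool.Agent.LibH11.Berry.LpIntR

/-!
The pair process of an invariant wave.
-/

open Complex Filter Topology MeasureTheory ProbabilityTheory Metric
open scoped ENNReal NNReal InnerProductSpace

namespace Berry

noncomputable section

variable {Ω : Type*} [MeasurableSpace Ω] {P : Measure Ω} [IsProbabilityMeasure P]
  {F : ℂ → Ω → ℝ}

omit [IsProbabilityMeasure P] in
lemma InvWave.memLp_mul (hF : InvWave P F) (h4 : MemLp (F 0) 4 P) (x y : ℂ) :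
    MemLp (fun ω => F x ω * F y ω) 2 P := by
  have h := (hF.memLp h4 y).mul (r := 2) (hF.memLp h4 x) (hpqr := by
    constructor
    have : (4:ℝ≥0∞)⁻¹ + 4⁻¹ = 2⁻¹ := by
      rw [← two_mul, show (4:ℝ≥0∞) = 2 * 2 by norm_num, ENNReal.mul_inv (by simp) (by simp),
        ← mul_assoc, ENNReal.mul_inv_cancel (by simp) (by simp), one_mul]
    exact this)
  exact h

/-- the pair process -/
def InvWave.uR (hF : InvWave P F) (h4 : MemLp (F 0) 4 P) (x y : ℂ) : Lp ℝ 2 P :=
  (hF.memLp_mul h4 x y).toLp _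

omit [IsProbabilityMeasure P] in
lemma InvWave.uR_coeFn (hF : InvWave P F) (h4 : MemLp (F 0) 4 P) (x y : ℂ) :
    hF.uR h4 x y =ᵐ[P] fun ω => F x ω * F y ω := (hF.memLp_mul h4 x y).coeFn_toLp

omit [IsProbabilityMeasure P] in
lemma InvWave.uR_inner (hF : InvWave P F) (h4 : MemLp (F 0) 4 P) (x₁ x₂ x₃ x₄ : ℂ) :
    inner ℝ (hF.uR h4 x₁ x₂) (hF.uR h4 x₃ x₄) = ∫ ω, F x₁ ω * F x₂ ω * F x₃ ω * F x₄ ω ∂P := by
  rw [L2.inner_def]
  apply integral_congr_ae
  filter_upwards [hF.uR_coeFn h4 x₁ x₂, hF.uR_coeFn h4 x₃ x₄] with ω h1 h2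
  rw [h1, h2]
  simp only [RCLike.inner_apply, conj_trivial]
  ring

omit [IsProbabilityMeasure P] in
lemma weakHelm_C4 {G : ℂ → Lp ℂ 4 P} (hG : Continuous G) (hW : WeakHelm G) (b c d : Lp ℂ 4 P) :
    WeakHelm (fun x => C4 P (G x) b c d) := by
  intro ψ hψ t
  have e : ∀ {η : ℂ → ℂ}, TestFn η → smear η (fun x => C4 P (G x) b c d) t
      = C4 P (smear η G t) b c d := by
    intro η hη
    rw [C4_smear1 hG hη]; rfl
  have neg : ∀ v : Lp ℂ 4 P, C4 P (-v) b c d = - C4 P v b c d := by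
    intro v
    have := C4_smul1 (-1) v b c d
    simpa using this
  rw [e hψ.vop.wop, e hψ.wop.vop, e hψ, (hW ψ hψ t).1, (hW ψ hψ t).2, neg]
  exact ⟨rfl, rfl⟩

/-- the pair process of an invariant wave with finite fourth moment -/
lemma InvWave.pairP (hF : InvWave P F) (h4 : MemLp (F 0) 4 P) : PairP (hF.uR h4) where
  cont := by
    apply cont_of_kernel
    have h1 : Continuous fun x : Fin 4 → ℂ => (C4 P (hF.toL4 h4 (x 0)) (hF.toL4 h4 (x 1))
        (hF.toL4 h4 (x 2)) (hF.toL4 h4 (x 3))).re := by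
      have hc := hF.continuous_toL4 h4
      exact Complex.continuous_re.comp (C4_comp_continuous (hc.comp (continuous_apply 0))
        (hc.comp (continuous_apply 1)) (hc.comp (continuous_apply 2))
        (hc.comp (continuous_apply 3)))
    refine h1.congr fun x => ?_
    rw [hF.C4_F h4, hF.uR_inner h4, Complex.ofReal_re]
  symm x y := by
    unfold InvWave.uR
    congr 1
    funext ω; ring
  symm4 x₁ x₂ x₃ x₄ := by
    rw [hF.uR_inner h4, hF.uR_inner h4]
    congr 1; funext ω; ring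
  stat x₁ x₂ x₃ x₄ s := by
    rw [hF.uR_inner h4, hF.uR_inner h4]
    exact hF.int4_shift x₁ x₂ x₃ x₄ s
  helm x₂ x₃ x₄ := by
    have := weakHelm_C4 (hF.continuous_toL4 h4) (hF.weakHelm h4) (hF.toL4 h4 x₂)
      (hF.toL4 h4 x₃) (hF.toL4 h4 x₄)
    have e : (fun x => C4 P (hF.toL4 h4 x) (hF.toL4 h4 x₂) (hF.toL4 h4 x₃) (hF.toL4 h4 x₄))
        = fun x => ((inner ℝ (hF.uR h4 x x₂) (hF.uR h4 x₃ x₄) : ℝ) : ℂ) := by
      funext x
      rw [hF.C4_F h4, hF.uR_inner h4]
    rw [e] at this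
    exact this

/-- the `L²`-valued average is a.e. the pointwise average -/
lemma InvWave.avg_uR_coeFn (hF : InvWave P F) (h4 : MemLp (F 0) 4 P) (a : ℂ) (R : ℝ) :
    (⨍ x in ball (0:ℂ) R, hF.uR h4 x (a + x) : Lp ℝ 2 P) =ᵐ[P]
      fun ω => spatialAvg F a R ω := by
  have hm : StronglyMeasurable (Function.uncurry fun (x : ℂ) ω => F x ω * F (a + x) ω) := by
    have h1 : Measurable fun p : ℂ × Ω => F p.1 p.2 := hF.measurable_uncurry
    have h2 : Measurable fun p : ℂ × Ω => F (a + p.1) p.2 :=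
      hF.measurable_uncurry.comp ((measurable_fst.const_add a).prodMk measurable_snd)
    exact (h1.mul h2).stronglyMeasurable
  have hi : Integrable (fun x => (hF.memLp_mul h4 x (a + x)).toLp _)
      (volume.restrict (ball (0:ℂ) R)) :=
    intOn ((hF.pairP h4).cont₂ continuous_id (continuous_const.add continuous_id)) 0 R
  have key := RealLp.Lp_integral_coeFn hm (fun x => hF.memLp_mul h4 x (a + x)) hi
  rw [setAverage_eq]
  filter_upwards [key, Lp.coeFn_smul ((volume.real (ball (0:ℂ) R))⁻¹ : ℝ)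
    (∫ x in ball (0:ℂ) R, hF.uR h4 x (a + x))] with ω h1 h2
  have h3 : ((∫ x in ball (0:ℂ) R, hF.uR h4 x (a + x) : Lp ℝ 2 P)) ω
      = ∫ x in ball (0:ℂ) R, F x ω * F (a + x) ω := h1
  rw [h2, Pi.smul_apply, h3, spatialAvg, setAverage_eq]
  congr 2
  funext x
  rw [add_comm]

end

end Berry
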