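import Pool.Agent.LibH11.Berry.Forms

/-!
Ladder families with values in `L⁴` and the derivative rules of the associated forms.
-/

open Complex Filter Topology MeasureTheory
open scoped ENNReal

namespace Berry

noncomputable section

/-- A ladder family: `f (a+1) = W f a`, `f (a-1) = -(W̄ f a)` with `W = ∂_x + i∂_y`. -/
structure Ladder (X : Type*) [NormedAddCommGroup X] [NormedSpace ℂ X] where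
  toFun : ℤ → ℂ → X
  deriv' : ∀ a t v, HasDerivAt (fun s : ℝ => toFun a (t + s * v))
    ((starRingEnd ℂ v / 2) • toFun (a+1) t - (v / 2) • toFun (a-1) t) 0

variable {X : Type*} [NormedAddCommGroup X] [NormedSpace ℂ X]

instance : CoeFun (Ladder X) (fun _ => ℤ → ℂ → X) := ⟨Ladder.toFun⟩

variable {Ω : Type*} [MeasurableSpace Ω] {P : Measure Ω} [IsProbabilityMeasure P]

/-- the four-point ladder function -/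
def QC4 (P : Measure Ω) (f₁ f₂ f₃ f₄ : Ladder (Lp ℂ 4 P)) : ℤ → ℤ → ℤ → ℤ → ℂ → ℂ → ℂ → ℂ → ℂ :=
  fun a b c e t₁ t₂ t₃ t₄ => C4 P (f₁ a t₁) (f₂ b t₂) (f₃ c t₃) (f₄ e t₄)

omit [IsProbabilityMeasure P] in
lemma QC4_der (f₁ f₂ f₃ f₄ : Ladder (Lp ℂ 4 P)) : Der4 (QC4 P f₁ f₂ f₃ f₄) := by
  intro a b c e t₁ t₂ t₃ t₄ v₁ v₂ v₃ v₄
  have h := C4_hasDerivAt (f₁.deriv' a t₁ v₁) (f₂.deriv' b t₂ v₂) (f₃.deriv' c t₃ v₃)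
    (f₄.deriv' e t₄ v₄)
  refine h.congr_deriv ?_
  simp only [C4_sub1, C4_sub2, C4_sub3, C4_sub4, C4_smul1, C4_smul2, C4_smul3, C4_smul4,
    ofReal_zero, zero_mul, add_zero, lad, QC4]

/-- product of two two-point ladder functions, pairing `12|34` -/
def QW12 (P : Measure Ω) [IsProbabilityMeasure P] (f₁ f₂ f₃ f₄ : Ladder (Lp ℂ 4 P)) :
    ℤ → ℤ → ℤ → ℤ → ℂ → ℂ → ℂ → ℂ → ℂ :=
  fun a b c e t₁ t₂ t₃ t₄ => C2 P (f₁ a t₁) (f₂ b t₂) * C2 P (f₃ c t₃) (f₄ e t₄)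

lemma QW12_der (f₁ f₂ f₃ f₄ : Ladder (Lp ℂ 4 P)) : Der4 (QW12 P f₁ f₂ f₃ f₄) := by
  intro a b c e t₁ t₂ t₃ t₄ v₁ v₂ v₃ v₄
  have h := (C2_hasDerivAt (f₁.deriv' a t₁ v₁) (f₂.deriv' b t₂ v₂)).mul
    (C2_hasDerivAt (f₃.deriv' c t₃ v₃) (f₄.deriv' e t₄ v₄))
  refine h.congr_deriv ?_
  simp only [C2_sub1, C2_sub2, C2_smul1, C2_smul2,
    ofReal_zero, zero_mul, add_zero, lad, QW12]
  ring

/-- pairing `13|24` -/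
def QW13 (P : Measure Ω) [IsProbabilityMeasure P] (f₁ f₂ f₃ f₄ : Ladder (Lp ℂ 4 P)) :
    ℤ → ℤ → ℤ → ℤ → ℂ → ℂ → ℂ → ℂ → ℂ :=
  fun a b c e t₁ t₂ t₃ t₄ => C2 P (f₁ a t₁) (f₃ c t₃) * C2 P (f₂ b t₂) (f₄ e t₄)

lemma QW13_der (f₁ f₂ f₃ f₄ : Ladder (Lp ℂ 4 P)) : Der4 (QW13 P f₁ f₂ f₃ f₄) := by
  intro a b c e t₁ t₂ t₃ t₄ v₁ v₂ v₃ v₄
  have h := (C2_hasDerivAt (f₁.deriv' a t₁ v₁) (f₃.deriv' c t₃ v₃)).mul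
    (C2_hasDerivAt (f₂.deriv' b t₂ v₂) (f₄.deriv' e t₄ v₄))
  refine h.congr_deriv ?_
  simp only [C2_sub1, C2_sub2, C2_smul1, C2_smul2,
    ofReal_zero, zero_mul, add_zero, lad, QW13]
  ring

/-- pairing `14|23` -/
def QW14 (P : Measure Ω) [IsProbabilityMeasure P] (f₁ f₂ f₃ f₄ : Ladder (Lp ℂ 4 P)) :
    ℤ → ℤ → ℤ → ℤ → ℂ → ℂ → ℂ → ℂ → ℂ :=
  fun a b c e t₁ t₂ t₃ t₄ => C2 P (f₁ a t₁) (f₄ e t₄) * C2 P (f₂ b t₂) (f₃ c t₃)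

lemma QW14_der (f₁ f₂ f₃ f₄ : Ladder (Lp ℂ 4 P)) : Der4 (QW14 P f₁ f₂ f₃ f₄) := by
  intro a b c e t₁ t₂ t₃ t₄ v₁ v₂ v₃ v₄
  have h := (C2_hasDerivAt (f₁.deriv' a t₁ v₁) (f₄.deriv' e t₄ v₄)).mul
    (C2_hasDerivAt (f₂.deriv' b t₂ v₂) (f₃.deriv' c t₃ v₃))
  refine h.congr_deriv ?_
  simp only [C2_sub1, C2_sub2, C2_smul1, C2_smul2,
    ofReal_zero, zero_mul, add_zero, lad, QW14]
  ring

/-- the fourth cumulant ladder function -/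
def QD (P : Measure Ω) [IsProbabilityMeasure P] (f₁ f₂ f₃ f₄ : Ladder (Lp ℂ 4 P)) :
    ℤ → ℤ → ℤ → ℤ → ℂ → ℂ → ℂ → ℂ → ℂ :=
  fun a b c e t₁ t₂ t₃ t₄ => QC4 P f₁ f₂ f₃ f₄ a b c e t₁ t₂ t₃ t₄ +
    ((-1) * QW12 P f₁ f₂ f₃ f₄ a b c e t₁ t₂ t₃ t₄ +
    ((-1) * QW13 P f₁ f₂ f₃ f₄ a b c e t₁ t₂ t₃ t₄ +
      (-1) * QW14 P f₁ f₂ f₃ f₄ a b c e t₁ t₂ t₃ t₄))

lemma QD_der (f₁ f₂ f₃ f₄ : Ladder (Lp ℂ 4 P)) : Der4 (QD P f₁ f₂ f₃ f₄) :=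
  (QC4_der f₁ f₂ f₃ f₄).add (((QW12_der f₁ f₂ f₃ f₄).const_mul (-1)).add
    (((QW13_der f₁ f₂ f₃ f₄).const_mul (-1)).add ((QW14_der f₁ f₂ f₃ f₄).const_mul (-1))))

/-- the three-point ladder function -/
def QC3 (P : Measure Ω) [IsProbabilityMeasure P] (f₁ f₂ f₃ : Ladder (Lp ℂ 4 P)) :
    ℤ → ℤ → ℤ → ℂ → ℂ → ℂ → ℂ :=
  fun a b c t₁ t₂ t₃ => C3 P (f₁ a t₁) (f₂ b t₂) (f₃ c t₃)

lemma QC3_der (f₁ f₂ f₃ : Ladder (Lp ℂ 4 P)) : Der3 (QC3 P f₁ f₂ f₃) := by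
  intro a b c t₁ t₂ t₃ v₁ v₂ v₃
  have h := C3_hasDerivAt (f₁.deriv' a t₁ v₁) (f₂.deriv' b t₂ v₂) (f₃.deriv' c t₃ v₃)
  refine h.congr_deriv ?_
  simp only [C3, C4_sub1, C4_sub2, C4_sub3, C4_smul1, C4_smul2, C4_smul3,
    ofReal_zero, zero_mul, add_zero, lad, QC3]

end

end Berry
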