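import Mathlib

/-!
The Laplacian of the composition with a holomorphic map.
-/

open Complex Filter Topology InnerProductSpace Laplacian

namespace Berry

noncomputable section

/-- **conformal covariance of the Laplacian** -/
lemma laplacian_conformal {f : ℂ → ℝ} {h : ℂ → ℂ} {w : ℂ} (hf : ContDiffAt ℝ 2 f (h w))
    (hh : AnalyticAt ℂ h w) :
    (Δ (fun z => f (h z))) w = ‖deriv h w‖ ^ 2 * (Δ f) (h w) := by
  have hev : ∀ᶠ z in 𝓝 w, AnalyticAt ℂ h z := hh.eventually_analyticAt
  have hfd : ∀ᶠ y in 𝓝 (h w), DifferentiableAt ℝ f y := by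
    have h1 : ∀ᶠ y in 𝓝 (h w), ContDiffAt ℝ 2 f y := by
      have := hf.eventually (by norm_num)
      exact this
    exact h1.mono fun y hy => hy.differentiableAt (by norm_num)
  have hfd' : ∀ᶠ z in 𝓝 w, DifferentiableAt ℝ f (h z) := hh.continuousAt.eventually hfd
  set M : ℂ → (ℂ →L[ℝ] ℂ) := fun z => ContinuousLinearMap.mul ℝ ℂ (deriv h z) with hM
  have hder : ∀ᶠ z in 𝓝 w, HasFDerivAt h (M z) z := by
    filter_upwards [hev] with z hz
    have h1 : HasDerivAt h (deriv h z) z := hz.differentiableAt.hasDerivAt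
    have h2 := h1.hasFDerivAt.restrictScalars ℝ
    refine h2.congr_fderiv ?_
    ext v
    simp [hM, mul_comm]
  have hu1 : fderiv ℝ (fun z => f (h z)) =ᶠ[𝓝 w] fun z => (fderiv ℝ f (h z)).comp (M z) := by
    filter_upwards [hder, hfd'] with z hz hz2
    exact (hz2.hasFDerivAt.comp z hz).fderiv
  -- second derivative
  have hL : HasFDerivAt (fun z => fderiv ℝ f (h z)) ((fderiv ℝ (fderiv ℝ f) (h w)).comp (M w)) w := by
    have h1 : DifferentiableAt ℝ (fderiv ℝ f) (h w) := by
      have h2 : ContDiffAt ℝ 1 (fderiv ℝ f) (h w) := hf.fderiv_right (by norm_num)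
      exact h2.differentiableAt (by norm_num)
    exact h1.hasFDerivAt.comp w hder.self_of_nhds
  have hM' : HasFDerivAt M ((ContinuousLinearMap.mul ℝ ℂ).comp
      (ContinuousLinearMap.mul ℝ ℂ (deriv (deriv h) w))) w := by
    have h1 : HasDerivAt (deriv h) (deriv (deriv h) w) w := hh.deriv.differentiableAt.hasDerivAt
    have h2 := h1.hasFDerivAt.restrictScalars ℝ
    have h3 : HasFDerivAt (deriv h) (ContinuousLinearMap.mul ℝ ℂ (deriv (deriv h) w)) w := by
      refine h2.congr_fderiv ?_
      ext v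
      simp [mul_comm]
    exact (ContinuousLinearMap.mul ℝ ℂ).hasFDerivAt.comp w h3
  have hu2 := hL.clm_comp hM'
  have hval : ∀ v : ℂ, fderiv ℝ (fderiv ℝ (fun z => f (h z))) w v v
      = fderiv ℝ f (h w) (deriv (deriv h) w * v * v)
        + fderiv ℝ (fderiv ℝ f) (h w) (deriv h w * v) (deriv h w * v) := by
    intro v
    rw [hu1.fderiv_eq, hu2.fderiv]
    simp [hM]
  rw [laplacian_eq_iteratedFDeriv_complexPlane, laplacian_eq_iteratedFDeriv_complexPlane]
  simp only [iteratedFDeriv_two_apply, Matrix.cons_val_zero, Matrix.cons_val_one]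
  rw [hval 1, hval I]
  set D := fderiv ℝ (fderiv ℝ f) (h w) with hD
  set a := deriv h w with ha
  have e1 : fderiv ℝ f (h w) (deriv (deriv h) w * 1 * 1)
      + fderiv ℝ f (h w) (deriv (deriv h) w * I * I) = 0 := by
    rw [← map_add]
    have : deriv (deriv h) w * 1 * 1 + deriv (deriv h) w * I * I = 0 := by
      have hI : I * I = -1 := I_mul_I
      linear_combination (deriv (deriv h) w) * hI
    rw [this, map_zero]
  have ea : a = a.re • (1:ℂ) + a.im • I := by
    simp only [real_smul, mul_one]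
    exact (re_add_im a).symm
  have eb : a * I = (-a.im) • (1:ℂ) + a.re • I := by
    simp only [real_smul, mul_one]
    apply Complex.ext <;> simp
  have e2 : D (a * 1) (a * 1) + D (a * I) (a * I) = ‖a‖ ^ 2 * (D 1 1 + D I I) := by
    rw [mul_one, eb]
    nth_rewrite 1 [ea]
    nth_rewrite 3 [ea]
    simp only [map_add, map_smul, ContinuousLinearMap.add_apply, ContinuousLinearMap.smul_apply,
      smul_eq_mul]
    have : ‖a‖ ^ 2 = a.re ^ 2 + a.im ^ 2 := by
      rw [← Complex.normSq_eq_norm_sq, Complex.normSq_apply]; ring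
    rw [this]; ring
  linear_combination e1 + e2

end

end Berry
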