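import Mathlib

/-!
A mean value formula with smooth compactly supported radial weights.
-/

open Complex Filter Topology MeasureTheory Metric InnerProductSpace Laplacian
open scoped ENNReal ContDiff

namespace Berry

noncomputable section

/-- a smooth decreasing function vanishing on `[1, ∞)` -/
def bfun (s : ℝ) : ℝ := expNegInvGlue (1 - s)

/-- a smooth radial bump -/
def Phi (z : ℂ) : ℝ := bfun (‖z‖ ^ 2)

/-- the radial weight with `∇ Φ(z) = β(z) z` -/
def bet (z : ℂ) : ℝ := 2 * deriv bfun (‖z‖ ^ 2)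

lemma bfun_contDiff {n : ℕ∞} : ContDiff ℝ n bfun :=
  expNegInvGlue.contDiff.comp (contDiff_const.sub contDiff_id)

lemma bfun_zero {s : ℝ} (hs : 1 ≤ s) : bfun s = 0 :=
  expNegInvGlue.zero_of_nonpos (by linarith)

lemma bfun_antitone : Antitone bfun := fun _ _ h => expNegInvGlue.monotone (by linarith)

lemma bfun_nonneg (s : ℝ) : 0 ≤ bfun s := expNegInvGlue.nonneg _

lemma deriv_bfun_continuous : Continuous (deriv bfun) :=
  (bfun_contDiff (n := 1)).continuous_deriv (by norm_num)

lemma deriv_bfun_nonpos (s : ℝ) : deriv bfun s ≤ 0 := bfun_antitone.deriv_nonpos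

lemma deriv_bfun_zero {s : ℝ} (hs : 1 ≤ s) : deriv bfun s = 0 := by
  have h1 : ∀ s : ℝ, 1 < s → deriv bfun s = 0 := by
    intro s hs
    have : bfun =ᶠ[𝓝 s] fun _ => 0 := by
      filter_upwards [lt_mem_nhds hs] with x hx
      exact bfun_zero hx.le
    rw [this.deriv_eq]; simp
  have hcl : IsClosed {s : ℝ | deriv bfun s = 0} := isClosed_eq deriv_bfun_continuous continuous_const
  have h2 : Set.Ici (1:ℝ) ⊆ {s : ℝ | deriv bfun s = 0} := by
    rw [← closure_Ioi (1:ℝ)]
    exact hcl.closure_subset_iff.2 (fun s hs => h1 s hs)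
  exact h2 hs

lemma norm_sq_contDiff {n : WithTop ℕ∞} : ContDiff ℝ n (fun z : ℂ => ‖z‖ ^ 2) := contDiff_norm_sq ℝ

lemma Phi_contDiff {n : ℕ∞} : ContDiff ℝ n Phi := bfun_contDiff.comp norm_sq_contDiff

lemma Phi_nonneg (z : ℂ) : 0 ≤ Phi z := bfun_nonneg _

lemma Phi_zero {z : ℂ} (hz : z ∉ closedBall (0:ℂ) 1) : Phi z = 0 := by
  rw [mem_closedBall, dist_zero_right, not_le] at hz
  exact bfun_zero (by nlinarith [norm_nonneg z])

lemma bet_zero {z : ℂ} (hz : z ∉ closedBall (0:ℂ) 1) : bet z = 0 := by
  rw [mem_closedBall, dist_zero_right, not_le] at hz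
  unfold bet
  rw [deriv_bfun_zero (by nlinarith [norm_nonneg z])]; ring

lemma Phi_hcs : HasCompactSupport Phi :=
  HasCompactSupport.intro (isCompact_closedBall (0:ℂ) 1) fun _ hz => Phi_zero hz

lemma bet_hcs : HasCompactSupport bet :=
  HasCompactSupport.intro (isCompact_closedBall (0:ℂ) 1) fun _ hz => bet_zero hz

lemma Phi_continuous : Continuous Phi := (Phi_contDiff (n := 0)).continuous

lemma bet_continuous : Continuous bet :=
  continuous_const.mul (deriv_bfun_continuous.comp (continuous_norm.pow 2))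

lemma bet_nonpos (z : ℂ) : bet z ≤ 0 := by
  unfold bet
  have := deriv_bfun_nonpos (‖z‖ ^ 2)
  linarith

/-- the total mass of the weight -/
def kap : ℝ := ∫ z, bet z

lemma kap_neg : kap < 0 := by
  -- `b` is not constant on `[0,1]`
  obtain ⟨s, hs, hd⟩ : ∃ s ∈ Set.Ioo (0:ℝ) 1, deriv bfun s = (bfun 1 - bfun 0) / (1 - 0) := by
    apply exists_deriv_eq_slope bfun (by norm_num)
    · exact (bfun_contDiff (n := 0)).continuous.continuousOn
    · exact ((bfun_contDiff (n := 1)).differentiable (by norm_num)).differentiableOn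
  have h1 : bfun 1 = 0 := bfun_zero le_rfl
  have h0 : 0 < bfun 0 := expNegInvGlue.pos_of_pos (by norm_num)
  have hneg : deriv bfun s < 0 := by rw [hd, h1]; linarith
  have hz : bet ((Real.sqrt s : ℝ) : ℂ) ≠ 0 := by
    unfold bet
    rw [Complex.norm_real, Real.norm_of_nonneg (Real.sqrt_nonneg _), Real.sq_sqrt hs.1.le]
    linarith
  have hpos : 0 < ∫ z, -(bet z) := by
    apply Continuous.integral_pos_of_hasCompactSupport_nonneg_nonzero (bet_continuous.neg)
      bet_hcs.neg (fun z => by
        have := bet_nonpos z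
        simp only [Pi.zero_apply, Pi.neg_apply]; linarith) (x := ((Real.sqrt s : ℝ) : ℂ))
    simpa using hz
  rw [integral_neg] at hpos
  unfold kap
  linarith

lemma fderiv_Phi (z v : ℂ) : fderiv ℝ Phi z v = bet z * inner ℝ z v := by
  have h1 : HasFDerivAt (fun z : ℂ => ‖z‖ ^ 2) (2 • (innerSL ℝ z)) z :=
    (hasStrictFDerivAt_norm_sq z).hasFDerivAt
  have h2 : HasDerivAt bfun (deriv bfun (‖z‖ ^ 2)) (‖z‖ ^ 2) :=
    (((bfun_contDiff (n := 1)).differentiable (by norm_num)) _).hasDerivAt
  have h3 := h2.comp_hasFDerivAt z h1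
  have h4 : (bfun ∘ fun z : ℂ => ‖z‖ ^ 2) = Phi := rfl
  rw [h4] at h3
  rw [h3.fderiv]
  simp [bet]
  ring

lemma inner_one (z : ℂ) : inner ℝ z (1:ℂ) = z.re := by
  simp [Complex.inner]

lemma inner_I (z : ℂ) : inner ℝ z I = z.im := by
  simp [Complex.inner]

lemma fderiv_coord {f : ℂ → ℝ} (p z : ℂ) :
    fderiv ℝ f p z = z.re * fderiv ℝ f p 1 + z.im * fderiv ℝ f p I := by
  have h1 : z = z.re • (1:ℂ) + z.im • I := by simp
  conv_lhs => rw [h1]
  rw [map_add, map_smul, map_smul, smul_eq_mul, smul_eq_mul]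

lemma laplacian_eq_sndR (g : ℂ → ℝ) (y : ℂ) :
    (Δ g) y = fderiv ℝ (fderiv ℝ g) y 1 1 + fderiv ℝ (fderiv ℝ g) y I I := by
  rw [laplacian_eq_iteratedFDeriv_complexPlane]
  simp [iteratedFDeriv_two_apply]

lemma laplacian_continuous {f : ℂ → ℝ} (hf : ContDiff ℝ 2 f) : Continuous (Δ f) := by
  have h1 : ContDiff ℝ 1 (fderiv ℝ f) := hf.fderiv_right (m := 1) (by norm_num)
  have h2 : Continuous (fderiv ℝ (fderiv ℝ f)) := h1.continuous_fderiv (by norm_num)
  have h3 : (Δ f) = fun y => fderiv ℝ (fderiv ℝ f) y 1 1 + fderiv ℝ (fderiv ℝ f) y I I := by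
    funext y; exact laplacian_eq_sndR f y
  rw [h3]
  exact ((h2.clm_apply continuous_const).clm_apply continuous_const).add
    ((h2.clm_apply continuous_const).clm_apply continuous_const)

/-- integration by parts against `Φ` -/
lemma ibp_Phi {f : ℂ → ℝ} (hf : ContDiff ℝ 2 f) (t : ℂ) (s : ℝ) :
    ∫ z, bet z * fderiv ℝ f (t + s • z) z = - s * ∫ z, Phi z * (Δ f) (t + s • z) := by
  have h1 : ContDiff ℝ 1 (fderiv ℝ f) := hf.fderiv_right (m := 1) (by norm_num)
  have hcm : Continuous fun z : ℂ => t + s • z := by fun_prop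
  have key : ∀ v : ℂ, ∫ z, bet z * inner ℝ z v * fderiv ℝ f (t + s • z) v
      = - ∫ z, Phi z * (s * fderiv ℝ (fderiv ℝ f) (t + s • z) v v) := by
    intro v
    have hg1 : ContDiff ℝ 1 fun p => fderiv ℝ f p v := h1.clm_apply contDiff_const
    have hgd : ∀ z, HasFDerivAt (fun z : ℂ => fderiv ℝ f (t + s • z) v)
        ((fderiv ℝ (fun p => fderiv ℝ f p v) (t + s • z)).comp (s • ContinuousLinearMap.id ℝ ℂ)) z := by
      intro z
      have a1 : HasFDerivAt (fun z : ℂ => t + s • z) (s • ContinuousLinearMap.id ℝ ℂ) z :=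
        ((hasFDerivAt_id (𝕜 := ℝ) z).const_smul s).const_add t
      exact ((hg1.differentiable (by norm_num)) (t + s • z)).hasFDerivAt.comp z a1
    have hgf : ∀ z, fderiv ℝ (fun z : ℂ => fderiv ℝ f (t + s • z) v) z v
        = s * fderiv ℝ (fderiv ℝ f) (t + s • z) v v := by
      intro z
      rw [(hgd z).fderiv]
      have a2 : fderiv ℝ (fun p => fderiv ℝ f p v) (t + s • z) v
          = fderiv ℝ (fderiv ℝ f) (t + s • z) v v := by
        have h2 : DifferentiableAt ℝ (fderiv ℝ f) (t + s • z) :=
          (h1.differentiable (by norm_num)) _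
        rw [fderiv_clm_apply h2 (differentiableAt_const v)]
        simp
      rw [ContinuousLinearMap.comp_apply, _root_.smul_apply, ContinuousLinearMap.id_apply,
        map_smul, smul_eq_mul, a2]
    have c1 : Continuous fun z : ℂ => fderiv ℝ f (t + s • z) v :=
      (hg1.continuous).comp hcm
    have h2c : Continuous (fderiv ℝ (fderiv ℝ f)) := h1.continuous_fderiv (by norm_num)
    have c2 : Continuous fun z : ℂ => s * fderiv ℝ (fderiv ℝ f) (t + s • z) v v :=
      continuous_const.mul (((h2c.comp hcm).clm_apply continuous_const).clm_apply continuous_const)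
    have i1 : Integrable (fun z => fderiv ℝ Phi z v * fderiv ℝ f (t + s • z) v) := by
      have hc : Continuous fun z => fderiv ℝ Phi z v :=
        ((Phi_contDiff (n := 1)).continuous_fderiv (by norm_num)).clm_apply continuous_const
      refine (hc.mul c1).integrable_of_hasCompactSupport ?_
      have : HasCompactSupport fun z => fderiv ℝ Phi z v := by
        have := (Phi_hcs).fderiv ℝ
        refine this.mono ?_
        intro y hy
        simp only [Function.mem_support, ne_eq] at hy ⊢
        intro h2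
        apply hy
        rw [h2]; simp
      exact this.mul_right
    have i2 : Integrable (fun z => Phi z * fderiv ℝ (fun z : ℂ => fderiv ℝ f (t + s • z) v) z v) := by
      simp only [hgf]
      exact (Phi_continuous.mul c2).integrable_of_hasCompactSupport Phi_hcs.mul_right
    have i3 : Integrable (fun z => Phi z * fderiv ℝ f (t + s • z) v) :=
      (Phi_continuous.mul c1).integrable_of_hasCompactSupport Phi_hcs.mul_right
    have := integral_mul_fderiv_eq_neg_fderiv_mul_of_integrable i1 i2 i3
      (fun x _ => ((Phi_contDiff (n := 1)).differentiable (by norm_num)) x)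
      (fun x _ => (hgd x).differentiableAt)
    simp only [hgf, fderiv_Phi] at this
    rw [this, neg_neg]
  have k1 := key 1
  have k2 := key I
  simp only [inner_one, inner_I] at k1 k2
  have h2c : Continuous (fderiv ℝ (fderiv ℝ f)) := h1.continuous_fderiv (by norm_num)
  have cc : ∀ v : ℂ, Continuous fun z : ℂ => s * fderiv ℝ (fderiv ℝ f) (t + s • z) v v := fun v =>
    continuous_const.mul (((h2c.comp hcm).clm_apply continuous_const).clm_apply continuous_const)
  have c1 : ∀ v : ℂ, Continuous fun z : ℂ => fderiv ℝ f (t + s • z) v := fun v =>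
    ((h1.continuous).comp hcm).clm_apply continuous_const
  have j1 : Integrable fun z => bet z * z.re * fderiv ℝ f (t + s • z) 1 :=
    (((bet_continuous.mul continuous_re).mul (c1 1))).integrable_of_hasCompactSupport
      (bet_hcs.mul_right.mul_right)
  have j2 : Integrable fun z => bet z * z.im * fderiv ℝ f (t + s • z) I :=
    (((bet_continuous.mul continuous_im).mul (c1 I))).integrable_of_hasCompactSupport
      (bet_hcs.mul_right.mul_right)
  have l1 : Integrable fun z => Phi z * (s * fderiv ℝ (fderiv ℝ f) (t + s • z) 1 1) :=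
    (Phi_continuous.mul (cc 1)).integrable_of_hasCompactSupport Phi_hcs.mul_right
  have l2 : Integrable fun z => Phi z * (s * fderiv ℝ (fderiv ℝ f) (t + s • z) I I) :=
    (Phi_continuous.mul (cc I)).integrable_of_hasCompactSupport Phi_hcs.mul_right
  calc ∫ z, bet z * fderiv ℝ f (t + s • z) z
      = ∫ z, (bet z * z.re * fderiv ℝ f (t + s • z) 1 + bet z * z.im * fderiv ℝ f (t + s • z) I) := by
        congr 1; funext z
        rw [fderiv_coord (f := f) (t + s • z) z]; ring
    _ = - ∫ z, (Phi z * (s * fderiv ℝ (fderiv ℝ f) (t + s • z) 1 1)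
        + Phi z * (s * fderiv ℝ (fderiv ℝ f) (t + s • z) I I)) := by
        rw [integral_add j1 j2, integral_add l1 l2, k1, k2]; ring
    _ = ∫ z, (- s) * (Phi z * (Δ f) (t + s • z)) := by
        rw [← integral_neg]
        congr 1; funext z
        rw [laplacian_eq_sndR]; ring
    _ = _ := by rw [integral_const_mul]

/-- derivative of the smooth means in the radius -/
lemma hasDerivAt_mean {f : ℂ → ℝ} (hf : ContDiff ℝ 2 f) (t : ℂ) (s : ℝ) :
    HasDerivAt (fun s : ℝ => ∫ z, bet z * f (t + s • z))
      (- s * ∫ z, Phi z * (Δ f) (t + s • z)) s := by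
  rw [← ibp_Phi hf t s]
  have hfc : Continuous f := hf.continuous
  have hdf : Continuous (fderiv ℝ f) := hf.continuous_fderiv (by norm_num)
  -- bound on the derivative
  obtain ⟨M, hM⟩ := (isCompact_closedBall t (|s| + 1)).exists_bound_of_continuousOn hdf.continuousOn
  have hM0 : 0 ≤ M := (norm_nonneg _).trans (hM t (mem_closedBall_self (by positivity)))
  have hb : ∀ z : ℂ, ∀ x ∈ ball s 1, ‖bet z * fderiv ℝ f (t + x • z) z‖ ≤ ‖bet z‖ * M := by
    intro z x hx
    by_cases hz : z ∈ closedBall (0:ℂ) 1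
    · rw [norm_mul]
      refine mul_le_mul_of_nonneg_left ?_ (norm_nonneg _)
      rw [mem_closedBall, dist_zero_right] at hz
      rw [mem_ball, Real.dist_eq] at hx
      have hx2 : |x| ≤ |s| + 1 := by
        have := abs_sub_abs_le_abs_sub x s
        linarith
      have h1 : t + x • z ∈ closedBall t (|s| + 1) := by
        rw [mem_closedBall, dist_eq_norm, add_sub_cancel_left, norm_smul, Real.norm_eq_abs]
        calc |x| * ‖z‖ ≤ (|s| + 1) * 1 := by gcongr
          _ = _ := mul_one _
      calc ‖fderiv ℝ f (t + x • z) z‖ ≤ ‖fderiv ℝ f (t + x • z)‖ * ‖z‖ :=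
            ContinuousLinearMap.le_opNorm _ _
        _ ≤ M * 1 := mul_le_mul (hM _ h1) hz (norm_nonneg _) hM0
        _ = M := mul_one _
    · rw [bet_zero hz]; simp
  have := hasDerivAt_integral_of_dominated_loc_of_deriv_le (μ := (volume : Measure ℂ))
    (F := fun (x : ℝ) (z : ℂ) => bet z * f (t + x • z))
    (F' := fun (x : ℝ) (z : ℂ) => bet z * fderiv ℝ f (t + x • z) z)
    (x₀ := s) (bound := fun z => ‖bet z‖ * M) (s := ball s 1) (ball_mem_nhds s one_pos)
    (Eventually.of_forall fun x => ?_) ?_ ?_ (Eventually.of_forall hb) ?_ ?_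
  · exact this.2
  · exact (bet_continuous.mul (hfc.comp (by fun_prop))).aestronglyMeasurable
  · exact (bet_continuous.mul (hfc.comp (by fun_prop))).integrable_of_hasCompactSupport
      bet_hcs.mul_right
  · have hc : Continuous fun z : ℂ => t + s • z := by fun_prop
    exact (bet_continuous.mul ((hdf.comp hc).clm_apply continuous_id)).aestronglyMeasurable
  · have hi : Integrable bet := bet_continuous.integrable_of_hasCompactSupport bet_hcs
    exact hi.norm.mul_const M
  · refine Eventually.of_forall fun z x _ => ?_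
    have a1 : HasDerivAt (fun x : ℝ => t + x • z) z x := by
      have := ((hasDerivAt_id x).smul_const z).const_add t
      simpa using this
    have a2 := ((hf.differentiable (by norm_num)) (t + x • z)).hasFDerivAt.comp_hasDerivAt x a1
    exact a2.const_mul (bet z)

/-- **Mean value formula.** -/
lemma mean_value {f : ℂ → ℝ} (hf : ContDiff ℝ 2 f) (t : ℂ) (ε : ℝ) :
    kap * f t = (∫ z, bet z * f (t + ε • z))
      + ∫ s in (0:ℝ)..ε, s * ∫ z, Phi z * (Δ f) (t + s • z) := by
  have hc : Continuous fun s : ℝ => ∫ z, Phi z * (Δ f) (t + s • z) := by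
    have e : (fun s : ℝ => ∫ z, Phi z * (Δ f) (t + s • z))
        = fun s : ℝ => ∫ z in closedBall (0:ℂ) 1, Phi z * (Δ f) (t + s • z) := by
      funext s
      rw [setIntegral_eq_integral_of_forall_compl_eq_zero]
      intro z hz
      rw [Phi_zero hz]; simp
    rw [e]
    have hl := laplacian_continuous hf
    have h1 : Continuous fun p : ℝ × ℂ => t + p.1 • p.2 := by fun_prop
    have h2 : Continuous (Function.uncurry fun (s : ℝ) (z : ℂ) => Phi z * (Δ f) (t + s • z)) :=
      (Phi_continuous.comp continuous_snd).mul (hl.comp h1)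
    exact continuous_parametric_integral_of_continuous h2 (isCompact_closedBall (0:ℂ) 1)
  have h1 : ∫ s in (0:ℝ)..ε, (- s * ∫ z, Phi z * (Δ f) (t + s • z))
      = (∫ z, bet z * f (t + ε • z)) - ∫ z, bet z * f (t + (0:ℝ) • z) := by
    apply intervalIntegral.integral_eq_sub_of_hasDerivAt
    · intro s _
      exact hasDerivAt_mean hf t s
    · exact (continuous_neg.mul hc).intervalIntegrable _ _
  have h2 : ∫ z, bet z * f (t + (0:ℝ) • z) = kap * f t := by
    simp only [zero_smul, add_zero]
    rw [integral_mul_const]; rfl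
  have h3 : ∫ s in (0:ℝ)..ε, (- s * ∫ z, Phi z * (Δ f) (t + s • z))
      = - ∫ s in (0:ℝ)..ε, s * ∫ z, Phi z * (Δ f) (t + s • z) := by
    rw [← intervalIntegral.integral_neg]
    congr 1; funext s; ring
  rw [h2, h3] at h1
  linarith

end

end Berry
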