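import Pool.Agent.LibH11.Berry.Met

/-!
A mean ergodic theorem for stationary processes on the plane with values in a real Hilbert space.
-/

open Complex Filter Topology MeasureTheory Metric
open scoped ENNReal NNReal

namespace Berry

noncomputable section

variable {H : Type*} [NormedAddCommGroup H] [InnerProductSpace ℝ H] [CompleteSpace H]

/-- **Mean ergodic theorem** for a stationary continuous process in a Hilbert space. -/
theorem metR {u : ℂ → H} (hu : Continuous u)
    (hst : ∀ s s' r, inner ℝ (u (s + r)) (u (s' + r)) = inner ℝ (u s) (u s')) :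
    ∃ m : H, Tendsto (fun R : ℝ => ⨍ s in ball (0:ℂ) R, u s) atTop (𝓝 m) := by
  have hnorm : ∀ s, ‖u s‖ = ‖u 0‖ := by
    intro s
    have h := hst 0 0 s
    rw [zero_add, real_inner_self_eq_norm_sq, real_inner_self_eq_norm_sq] at h
    exact (sq_eq_sq₀ (norm_nonneg _) (norm_nonneg _)).1 h
  set K : Set H := convexHull ℝ (Set.range u) with hK
  set S : Set ℝ := (fun w : H => ‖w‖) '' K with hS
  have hSne : S.Nonempty := ⟨_, ⟨u 0, subset_convexHull ℝ _ ⟨0, rfl⟩, rfl⟩⟩
  have hSbdd : BddBelow S := ⟨0, by rintro _ ⟨w, -, rfl⟩; exact norm_nonneg w⟩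
  set μ := sInf S with hμ
  have hμ0 : 0 ≤ μ := le_csInf hSne (by rintro _ ⟨w, -, rfl⟩; exact norm_nonneg w)
  -- lower bound on the closure
  have hlow : ∀ w ∈ closure K, μ ≤ ‖w‖ := by
    intro w hw
    have hcl : IsClosed {w : H | μ ≤ ‖w‖} := isClosed_le continuous_const continuous_norm
    have hsub : K ⊆ {w : H | μ ≤ ‖w‖} := fun w hw => csInf_le hSbdd ⟨w, hw, rfl⟩
    exact closure_minimal hsub hcl hw
  -- the averages lie in the closed convex hull
  have hmem : ∀ R : ℝ, 0 < R → (⨍ s in ball (0:ℂ) R, u s) ∈ closure K := by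
    intro R hR
    apply Convex.set_average_mem (convex_convexHull ℝ _).closure isClosed_closure
    · exact (measure_ball_pos _ _ hR).ne'
    · exact measure_ball_lt_top.ne
    · exact Eventually.of_forall fun s => subset_closure (subset_convexHull ℝ _ ⟨s, rfl⟩)
    · exact intOn hu 0 R
  -- upper bound
  have hup : ∀ ε > 0, ∃ R₀ : ℝ, ∀ R ≥ R₀, ‖⨍ s in ball (0:ℂ) R, u s‖ ≤ μ + ε := by
    intro ε hε
    obtain ⟨_, ⟨w, hw, rfl⟩, hwlt⟩ := exists_lt_of_csInf_lt hSne
      (show sInf S < μ + ε / 2 by rw [← hμ]; linarith)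
    rw [hK, convexHull_eq] at hw
    obtain ⟨ι, t, c, z, hc0, hc1, hz, hcm⟩ := hw
    have hz' : ∀ i, ∃ p, i ∈ t → u p = z i := by
      intro i
      by_cases hi : i ∈ t
      · obtain ⟨p, hp⟩ := hz i hi
        exact ⟨p, fun _ => hp⟩
      · exact ⟨0, fun h => absurd h hi⟩
    choose p hp using hz'
    have hwsum : w = ∑ i ∈ t, c i • u (p i) := by
      rw [← hcm, Finset.centerMass_eq_of_sum_1 _ _ hc1]
      exact Finset.sum_congr rfl fun i hi => by rw [hp i hi]
    set v : ℂ → H := fun s => ∑ i ∈ t, c i • u (p i + s) with hv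
    have hvnorm : ∀ s, ‖v s‖ = ‖w‖ := by
      intro s
      have h1 : inner ℝ (v s) (v s) = inner ℝ w w := by
        rw [hwsum]
        simp only [hv, sum_inner, inner_sum]
        refine Finset.sum_congr rfl fun i _ => Finset.sum_congr rfl fun j _ => ?_
        simp only [inner_smul_left, inner_smul_right, hst]
      rw [real_inner_self_eq_norm_sq, real_inner_self_eq_norm_sq] at h1
      exact (sq_eq_sq₀ (norm_nonneg _) (norm_nonneg _)).1 h1
    have hcu : ∀ i, Continuous fun s => u (p i + s) := fun i =>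
      hu.comp (continuous_const.add continuous_id)
    have hvavg : ∀ R : ℝ, ⨍ s in ball (0:ℂ) R, v s = ∑ i ∈ t, c i • ⨍ s in ball (0:ℂ) R, u (p i + s) := by
      intro R
      have := avg_sumE t (g := fun i s => c i • u (p i + s)) (fun i => (hcu i).const_smul (c i)) R
      rw [this]
      exact Finset.sum_congr rfl fun i _ => avg_smulE _ _ _
    have hlim : Tendsto (fun R : ℝ => (⨍ s in ball (0:ℂ) R, v s) - ⨍ s in ball (0:ℂ) R, u s) atTop
        (𝓝 0) := by
      have h1 : Tendsto (fun R : ℝ => ∑ i ∈ t, c i • ((⨍ s in ball (0:ℂ) R, u (p i + s))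
          - ⨍ s in ball (0:ℂ) R, u s)) atTop (𝓝 (∑ i ∈ t, c i • (0:H))) := by
        refine tendsto_finsetSum _ fun i _ => ?_
        exact (avg_shiftE hu (C := ‖u 0‖) (fun s => (hnorm s).le) (p i)).const_smul (c i)
      simp only [smul_zero, Finset.sum_const_zero] at h1
      refine h1.congr fun R => ?_
      rw [hvavg]
      simp only [smul_sub, Finset.sum_sub_distrib]
      rw [← Finset.sum_smul, hc1, one_smul]
    have h2 := hlim.norm
    rw [norm_zero] at h2
    have h3 := (h2.eventually (gt_mem_nhds (show (0:ℝ) < ε / 2 by linarith)))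
    obtain ⟨R₁, hR₁⟩ := eventually_atTop.1 h3
    refine ⟨max R₁ 1, fun R hR => ?_⟩
    have hRpos : 0 < R := lt_of_lt_of_le one_pos ((le_max_right _ _).trans hR)
    have h4 := hR₁ R ((le_max_left _ _).trans hR)
    have hcv : Continuous v := by
      simp only [hv]
      exact continuous_finsetSum _ fun i _ => (hcu i).const_smul (c i)
    have h5 : ‖⨍ s in ball (0:ℂ) R, v s‖ ≤ ‖w‖ :=
      (avg_norm_le _ R).trans (avg_le_of_le hcv.norm (fun s => (hvnorm s).le) hRpos)
    have h6 : ‖⨍ s in ball (0:ℂ) R, u s‖ ≤ ‖⨍ s in ball (0:ℂ) R, v s‖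
        + ‖(⨍ s in ball (0:ℂ) R, v s) - ⨍ s in ball (0:ℂ) R, u s‖ := by
      have := norm_sub_norm_le (⨍ s in ball (0:ℂ) R, u s) (⨍ s in ball (0:ℂ) R, v s)
      rw [norm_sub_rev] at this
      linarith
    have h7 : ‖w‖ < μ + ε / 2 := hwlt
    linarith
  -- Cauchy
  have hcau : CauchySeq (fun R : ℝ => ⨍ s in ball (0:ℂ) R, u s) := by
    rw [Metric.cauchySeq_iff]
    intro ε hε
    -- choose δ with 8 μ δ + 4 δ² < ε²
    obtain ⟨δ, hδ0, hδ⟩ : ∃ δ : ℝ, 0 < δ ∧ 4 * ((μ + δ) ^ 2 - μ ^ 2) < ε ^ 2 := by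
      refine ⟨min 1 (ε ^ 2 / (8 * (2 * μ + 1))), by positivity, ?_⟩
      set δ := min 1 (ε ^ 2 / (8 * (2 * μ + 1))) with hδ
      have h1 : δ ≤ 1 := min_le_left _ _
      have h2 : δ ≤ ε ^ 2 / (8 * (2 * μ + 1)) := min_le_right _ _
      have h3 : 0 ≤ δ := by positivity
      rw [le_div_iff₀ (by positivity)] at h2
      have h4 : 0 < ε ^ 2 := by positivity
      nlinarith
    obtain ⟨R₀, hR₀⟩ := hup δ hδ0
    refine ⟨max R₀ 1, fun R hR R' hR' => ?_⟩
    have hRp : 0 < R := lt_of_lt_of_le one_pos ((le_max_right _ _).trans hR)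
    have hRp' : 0 < R' := lt_of_lt_of_le one_pos ((le_max_right _ _).trans hR')
    set x := ⨍ s in ball (0:ℂ) R, u s with hx
    set y := ⨍ s in ball (0:ℂ) R', u s with hy
    have hx1 : ‖x‖ ≤ μ + δ := hR₀ R ((le_max_left _ _).trans hR)
    have hy1 : ‖y‖ ≤ μ + δ := hR₀ R' ((le_max_left _ _).trans hR')
    have hmid : μ ≤ ‖(1/2 : ℝ) • x + (1/2 : ℝ) • y‖ := by
      apply hlow
      exact (convex_convexHull ℝ (Set.range u)).closure (hmem R hRp) (hmem R' hRp')
        (by norm_num) (by norm_num) (by norm_num)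
    have hpar := parallelogram_law_with_norm ℝ x y
    have hmid2 : ‖x + y‖ = 2 * ‖(1/2 : ℝ) • x + (1/2 : ℝ) • y‖ := by
      rw [← smul_add, norm_smul, Real.norm_of_nonneg (by norm_num)]; ring
    have hmid3 : 2 * μ ≤ ‖x + y‖ := by rw [hmid2]; linarith
    rw [dist_eq_norm]
    have hx0 := norm_nonneg x
    have hy0 := norm_nonneg y
    have hsq : ‖x - y‖ ^ 2 < ε ^ 2 := by
      have e1 : ‖x - y‖ ^ 2 = 2 * (‖x‖ * ‖x‖ + ‖y‖ * ‖y‖) - ‖x + y‖ * ‖x + y‖ := by
        linarith
      rw [e1]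
      have e2 : ‖x‖ * ‖x‖ ≤ (μ + δ) ^ 2 := by nlinarith
      have e3 : ‖y‖ * ‖y‖ ≤ (μ + δ) ^ 2 := by nlinarith
      have e4 : (2 * μ) * (2 * μ) ≤ ‖x + y‖ * ‖x + y‖ := by nlinarith
      nlinarith
    exact lt_of_pow_lt_pow_left₀ 2 hε.le hsq
  exact cauchySeq_tendsto_of_complete hcau

end

end Berry
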