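import Pool.Agent.LibH11.Berry.MetR
import Pool.Agent.LibH11.Berry.Fn4e

/-!
Pair processes: an abstract form of `(x, y) ↦ F(x) F(y)`.
-/

open Complex Filter Topology MeasureTheory Metric
open scoped ENNReal NNReal InnerProductSpace

namespace Berry

noncomputable section

variable {H : Type*} [NormedAddCommGroup H] [InnerProductSpace ℝ H]

/-- an abstract version of the process `(x, y) ↦ F(x) F(y)` of an invariant monochromatic wave -/
structure PairP (u : ℂ → ℂ → H) : Prop where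
  cont : Continuous (fun p : ℂ × ℂ => u p.1 p.2)
  symm : ∀ x y, u x y = u y x
  symm4 : ∀ x₁ x₂ x₃ x₄, inner ℝ (u x₁ x₂) (u x₃ x₄) = inner ℝ (u x₁ x₃) (u x₂ x₄)
  stat : ∀ x₁ x₂ x₃ x₄ s, inner ℝ (u (x₁ + s) (x₂ + s)) (u (x₃ + s) (x₄ + s))
    = inner ℝ (u x₁ x₂) (u x₃ x₄)
  helm : ∀ x₂ x₃ x₄, WeakHelm (fun x => ((inner ℝ (u x x₂) (u x₃ x₄) : ℝ) : ℂ))

variable {u : ℂ → ℂ → H}

namespace PairP

variable (hu : PairP u)
include hu

lemma cont₂ {α : Type*} [TopologicalSpace α] {f g : α → ℂ} (hf : Continuous f) (hg : Continuous g) :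
    Continuous fun a => u (f a) (g a) := hu.cont.comp (hf.prodMk hg)

lemma norm_shift (x y s : ℂ) : ‖u (x + s) (y + s)‖ = ‖u x y‖ := by
  have h := hu.stat x y x y s
  rw [real_inner_self_eq_norm_sq, real_inner_self_eq_norm_sq] at h
  exact (sq_eq_sq₀ (norm_nonneg _) (norm_nonneg _)).1 h

lemma norm_le (x y : ℂ) : ‖u x y‖ ≤ ‖u 0 0‖ := by
  have h1 : ‖u x y‖ ^ 2 = inner ℝ (u x x) (u y y) := by
    rw [← real_inner_self_eq_norm_sq, hu.symm4 x x y y]
  have hx : ‖u x x‖ = ‖u 0 0‖ := by simpa using hu.norm_shift 0 0 x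
  have hy : ‖u y y‖ = ‖u 0 0‖ := by simpa using hu.norm_shift 0 0 y
  have h2 : ‖u x y‖ ^ 2 ≤ ‖u 0 0‖ ^ 2 := by
    rw [h1]
    refine (real_inner_le_norm _ _).trans ?_
    rw [hx, hy]; exact le_of_eq (by ring)
  exact (sq_le_sq₀ (norm_nonneg _) (norm_nonneg _)).1 h2

/-- second difference -/
lemma norm_w_shift (x y s : ℂ) :
    ‖u (x + s) (x + s) - (2:ℝ) • u (x + s) (y + s) + u (y + s) (y + s)‖
      = ‖u x x - (2:ℝ) • u x y + u y y‖ := by
  have h : ∀ a b : ℂ, inner ℝ (u a a - (2:ℝ) • u a b + u b b) (u a a - (2:ℝ) • u a b + u b b)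
      = inner ℝ (u a a) (u a a) - 4 * inner ℝ (u a a) (u a b) + 2 * inner ℝ (u a a) (u b b)
        + 4 * inner ℝ (u a b) (u a b) - 4 * inner ℝ (u a b) (u b b) + inner ℝ (u b b) (u b b) := by
    intro a b
    simp only [inner_add_left, inner_add_right, inner_sub_left, inner_sub_right,
      inner_smul_left, inner_smul_right]
    rw [real_inner_comm (u a a) (u a b), real_inner_comm (u a a) (u b b),
      real_inner_comm (u a b) (u b b)]
    simp
    ring
  have h2 : ‖u (x + s) (x + s) - (2:ℝ) • u (x + s) (y + s) + u (y + s) (y + s)‖ ^ 2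
      = ‖u x x - (2:ℝ) • u x y + u y y‖ ^ 2 := by
    rw [← real_inner_self_eq_norm_sq, ← real_inner_self_eq_norm_sq, h, h]
    simp only [hu.stat]
  exact (sq_eq_sq₀ (norm_nonneg _) (norm_nonneg _)).1 h2

lemma unif {ε : ℝ} (hε : 0 < ε) : ∃ δ > 0, ∀ x y y', dist y y' < δ → ‖u x y - u x y'‖ ≤ ε := by
  have hc : Continuous fun z => ‖u 0 0 - (2:ℝ) • u 0 z + u z z‖ := by
    exact ((continuous_const.sub ((hu.cont₂ continuous_const continuous_id).const_smul _)).add
      (hu.cont₂ continuous_id continuous_id)).norm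
  have h0 : ‖u 0 0 - (2:ℝ) • u 0 0 + u 0 0‖ = 0 := by
    rw [two_smul]; simp
  have hpos : 0 < ε ^ 2 / (‖u 0 0‖ + 1) := by positivity
  obtain ⟨δ, hδ, h⟩ := Metric.continuous_iff.1 hc 0 _ hpos
  refine ⟨δ, hδ, fun x y y' hyy => ?_⟩
  have h1 : ‖u x y - u x y'‖ ^ 2 = inner ℝ (u x x) (u y y - (2:ℝ) • u y y' + u y' y') := by
    rw [← real_inner_self_eq_norm_sq]
    simp only [inner_add_right, inner_sub_left, inner_sub_right, inner_smul_right]
    rw [hu.symm4 x y x y, hu.symm4 x y x y', hu.symm4 x y' x y, hu.symm4 x y' x y',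
      hu.symm y' y]
    ring
  have h2 : ‖u y y - (2:ℝ) • u y y' + u y' y'‖ = ‖u 0 0 - (2:ℝ) • u 0 (y' - y) + u (y' - y) (y' - y)‖ := by
    have := hu.norm_w_shift 0 (y' - y) y
    simpa using this
  have h3 := h (y' - y) (by rw [dist_zero_right, ← dist_eq_norm, dist_comm]; exact hyy)
  rw [h0, dist_zero_right, Real.norm_of_nonneg (norm_nonneg _)] at h3
  have hx : ‖u x x‖ = ‖u 0 0‖ := by simpa using hu.norm_shift 0 0 x
  have h4 : ‖u x y - u x y'‖ ^ 2 ≤ ε ^ 2 := by
    rw [h1]
    refine (real_inner_le_norm _ _).trans ?_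
    rw [hx, h2]
    calc ‖u 0 0‖ * ‖u 0 0 - (2:ℝ) • u 0 (y' - y) + u (y' - y) (y' - y)‖
        ≤ ‖u 0 0‖ * (ε ^ 2 / (‖u 0 0‖ + 1)) := by gcongr
      _ ≤ ε ^ 2 := by
          rw [mul_div_assoc', div_le_iff₀ (by positivity)]
          nlinarith [norm_nonneg (u 0 0), sq_nonneg ε]
  exact (sq_le_sq₀ (norm_nonneg _) hε.le).1 h4

variable [CompleteSpace H]

/-- the random covariance -/
def cov (a : ℂ) : H :=
  (metR (u := fun s => u s (a + s)) (hu.cont₂ continuous_id (continuous_const.add continuous_id))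
    (fun s s' r => by
      have := hu.stat s (a + s) s' (a + s') r
      rw [add_assoc, add_assoc] at this
      exact this)).choose

lemma tendsto_cov (a : ℂ) : Tendsto (fun R : ℝ => ⨍ s in ball (0:ℂ) R, u s (a + s)) atTop
    (𝓝 (hu.cov a)) :=
  (metR (u := fun s => u s (a + s)) (hu.cont₂ continuous_id (continuous_const.add continuous_id))
    (fun s s' r => by
      have := hu.stat s (a + s) s' (a + s') r
      rw [add_assoc, add_assoc] at this
      exact this)).choose_spec

lemma tendsto_cov_shift (x y : ℂ) : Tendsto (fun R : ℝ => ⨍ s in ball (0:ℂ) R, u (x + s) (y + s))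
    atTop (𝓝 (hu.cov (y - x))) := by
  have hc : Continuous fun s => u s (y - x + s) :=
    hu.cont₂ continuous_id (continuous_const.add continuous_id)
  have h1 := (avg_shiftE hc (C := ‖u 0 0‖) (fun s => hu.norm_le _ _) x).add
    (hu.tendsto_cov (y - x))
  simp only [sub_add_cancel, zero_add] at h1
  refine h1.congr fun R => ?_
  congr 1
  funext s
  congr 1; ring

lemma cov_neg (a : ℂ) : hu.cov (-a) = hu.cov a := by
  have h1 := hu.tendsto_cov_shift a 0
  have h2 := hu.tendsto_cov_shift 0 a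
  rw [zero_sub] at h1
  rw [sub_zero] at h2
  refine tendsto_nhds_unique h1 (h2.congr fun R => ?_)
  congr 1
  funext s
  exact hu.symm _ _

lemma cov_sub_comm (a b : ℂ) : hu.cov (a - b) = hu.cov (b - a) := by
  rw [← hu.cov_neg (b - a), neg_sub]

lemma norm_cov_le (a : ℂ) : ‖hu.cov a‖ ≤ ‖u 0 0‖ := by
  refine le_of_tendsto (hu.tendsto_cov a).norm ?_
  filter_upwards [eventually_gt_atTop (0:ℝ)] with R hR
  exact (avg_norm_le _ R).trans (avg_le_of_le
    (hu.cont₂ continuous_id (continuous_const.add continuous_id)).norm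
    (fun s => hu.norm_le _ _) hR)

omit hu in
lemma avg_subE {E : Type*} [NormedAddCommGroup E] [NormedSpace ℝ E] {g h : ℂ → E}
    (hg : Continuous g) (hh : Continuous h) (R : ℝ) :
    (⨍ s in ball (0:ℂ) R, g s) - (⨍ s in ball (0:ℂ) R, h s) = ⨍ s in ball (0:ℂ) R, (g s - h s) := by
  rw [setAverage_eq, setAverage_eq, setAverage_eq, ← smul_sub,
    integral_sub (intOn hg 0 R) (intOn hh 0 R)]

lemma cov_unif : UniformContinuous hu.cov := by
  rw [Metric.uniformContinuous_iff]
  intro ε hε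
  obtain ⟨δ, hδ, h⟩ := hu.unif (ε := ε / 2) (by positivity)
  refine ⟨δ, hδ, fun a b hab => ?_⟩
  rw [dist_eq_norm]
  refine lt_of_le_of_lt ?_ (half_lt_self hε)
  refine le_of_tendsto ((hu.tendsto_cov a).sub (hu.tendsto_cov b)).norm ?_
  filter_upwards [eventually_gt_atTop (0:ℝ)] with R hR
  have hca : Continuous fun s => u s (a + s) :=
    hu.cont₂ continuous_id (continuous_const.add continuous_id)
  have hcb : Continuous fun s => u s (b + s) :=
    hu.cont₂ continuous_id (continuous_const.add continuous_id)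
  rw [avg_subE hca hcb]
  refine (avg_norm_le _ R).trans (avg_le_of_le (hca.sub hcb).norm (fun s => ?_) hR)
  apply h
  simpa using hab

omit hu in
lemma inner_avg {v : ℂ → H} (hv : Continuous v) (w : H) (R : ℝ) :
    inner ℝ (⨍ s in ball (0:ℂ) R, v s) w = ⨍ s in ball (0:ℂ) R, inner ℝ (v s) w := by
  rw [setAverage_eq, setAverage_eq, inner_smul_left, smul_eq_mul]
  congr 1
  have h1 := integral_inner (𝕜 := ℝ) (intOn hv 0 R) w
  rw [real_inner_comm, ← h1]
  congr 1; funext s; rw [real_inner_comm]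

lemma inner_tendsto (x y : ℂ) (w : H) : Tendsto (fun R : ℝ => ⨍ s in ball (0:ℂ) R,
    inner ℝ (u (x + s) (y + s)) w) atTop (𝓝 (inner ℝ (hu.cov (y - x)) w)) := by
  have h1 : Tendsto (fun R : ℝ => inner ℝ (⨍ s in ball (0:ℂ) R, u (x + s) (y + s)) w) atTop
      (𝓝 (inner ℝ (hu.cov (y - x)) w)) := (hu.tendsto_cov_shift x y).inner tendsto_const_nhds
  refine h1.congr fun R => ?_
  exact inner_avg (v := fun s => u (x + s) (y + s))
    (hu.cont₂ (continuous_const.add continuous_id) (continuous_const.add continuous_id)) w R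

/-- `⟨u(x,y), c(b)⟩ = ⟨c(y-x), c(b)⟩` -/
lemma inner_cov (x y b : ℂ) : inner ℝ (u x y) (hu.cov b) = inner ℝ (hu.cov (y - x)) (hu.cov b) := by
  -- the left side does not change under joint shifts
  have h1 : ∀ x y, Tendsto (fun R : ℝ => ⨍ s in ball (0:ℂ) R,
      inner ℝ (u s (b + s)) (u x y)) atTop (𝓝 (inner ℝ (hu.cov b) (u x y))) := by
    intro x y
    have := hu.inner_tendsto 0 b (u x y)
    simpa using this
  have hshift : ∀ r, inner ℝ (hu.cov b) (u (x + r) (y + r)) = inner ℝ (hu.cov b) (u x y) := by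
    intro r
    have hc : Continuous fun s => inner ℝ (u s (b + s)) (u x y) :=
      (hu.cont₂ continuous_id (continuous_const.add continuous_id)).inner continuous_const
    have hb : ∀ s, ‖inner ℝ (u s (b + s)) (u x y)‖ ≤ ‖u 0 0‖ * ‖u 0 0‖ := by
      intro s
      refine (norm_inner_le_norm _ _).trans ?_
      gcongr
      · exact hu.norm_le _ _
      · exact hu.norm_le _ _
    have h2 := (avg_shiftE hc hb (-r)).add (h1 x y)
    simp only [sub_add_cancel, zero_add] at h2
    refine tendsto_nhds_unique (h1 (x + r) (y + r)) (h2.congr fun R => ?_)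
    congr 1
    funext s
    have := hu.stat (-r + s) (b + (-r + s)) x y r
    rw [← this]
    congr 2 <;> ring
  have h2 := hu.inner_tendsto x y (hu.cov b)
  have h3 : Tendsto (fun R : ℝ => ⨍ s in ball (0:ℂ) R,
    inner ℝ (u (x + s) (y + s)) (hu.cov b)) atTop (𝓝 (inner ℝ (u x y) (hu.cov b))) := by
    refine tendsto_const_nhds.congr' ?_
    filter_upwards [eventually_gt_atTop (0:ℝ)] with R hR
    have : ∀ s, inner ℝ (u (x + s) (y + s)) (hu.cov b) = inner ℝ (u x y) (hu.cov b) := by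
      intro s
      rw [real_inner_comm, hshift s, real_inner_comm]
    simp only [this]
    rw [avg_const hR]
  exact tendsto_nhds_unique h3 h2

end PairP

end

end Berry
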