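import Pool.Agent.LibH11.Berry.Pair

/-!
The general four-point formula for pair processes.
-/

open Complex Filter Topology MeasureTheory Metric
open scoped ENNReal NNReal InnerProductSpace

namespace Berry

noncomputable section

/-- averages of solutions of the Helmholtz equation are solutions -/
lemma WeakHelm.of_avg {A : ℂ → ℂ → ℂ} (hA : Continuous (Function.uncurry A)) {B : ℝ}
    (hB : ∀ s z, ‖A s z‖ ≤ B) (hW : ∀ s, WeakHelm (A s)) {g : ℂ → ℂ} (hg : Continuous g)
    (hlim : ∀ z, Tendsto (fun R : ℝ => ⨍ s in ball (0:ℂ) R, A s z) atTop (𝓝 (g z))) :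
    WeakHelm g := by
  have hgB : ∀ z, ‖g z‖ ≤ B := by
    intro z
    refine le_of_tendsto (hlim z).norm ?_
    filter_upwards [eventually_gt_atTop (0:ℝ)] with R hR
    exact (avg_norm_le _ R).trans (avg_le_of_le
      (hA.comp (continuous_id.prodMk continuous_const)).norm (fun s => hB s z) hR)
  have key : ∀ {η : ℂ → ℂ}, TestFn η → ∀ t, Tendsto (fun R : ℝ => ⨍ s in ball (0:ℂ) R,
      smear η (A s) t) atTop (𝓝 (smear η g t)) ∧ Continuous fun s => smear η (A s) t := by
    intro η hη t
    have hηi : Integrable η := hη.continuous.integrable_of_hasCompactSupport hη.2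
    have hcs : Continuous fun s => smear η (A s) t := by
      unfold smear
      refine continuous_of_dominated (bound := fun y => ‖η y‖ * B) ?_ ?_ (hηi.norm.mul_const B) ?_
      · intro s
        exact (hη.continuous.smul ((hA.comp (continuous_const.prodMk
          (continuous_const.sub continuous_id))))).aestronglyMeasurable
      · intro s
        refine Eventually.of_forall fun y => ?_
        rw [norm_smul]
        exact mul_le_mul_of_nonneg_left (hB _ _) (norm_nonneg _)
      · refine Eventually.of_forall fun y => ?_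
        have h1 : Continuous fun s : ℂ => A s (t - y) :=
          hA.comp (continuous_id.prodMk continuous_const)
        exact h1.const_smul (η y)
    refine ⟨?_, hcs⟩
    have e : (fun s => smear η (A s) t - smear η g t)
        = fun s => ∫ y, η y * (A s (t - y) - g (t - y)) := by
      funext s
      have i1 := smear_integrable (F := A s) hη.continuous hη.2
        (hA.comp (continuous_const.prodMk continuous_id)) t
      have i2 := smear_integrable (F := g) hη.continuous hη.2 hg t
      rw [smear, smear, ← integral_sub i1 i2]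
      congr 1; funext y; simp only [smul_eq_mul]; ring
    have hc : Continuous (fun s => smear η (A s) t - smear η g t) := hcs.sub continuous_const
    have h1 : MZ (fun s => smear η (A s) t - smear η g t) := by
      rw [e] at hc ⊢
      refine MZ.smear (A := fun s y => A s (t - y) - g (t - y)) ?_ (C := 2 * B) ?_ hη hc ?_
      · have h1 : Continuous fun p : ℂ × ℂ => A p.1 (t - p.2) :=
          hA.comp (continuous_fst.prodMk (continuous_const.sub continuous_snd))
        have h2 : Continuous fun p : ℂ × ℂ => g (t - p.2) :=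
          hg.comp (continuous_const.sub continuous_snd)
        exact h1.sub h2
      · intro s y
        refine (norm_sub_le _ _).trans ?_
        linarith [hB s (t - y), hgB (t - y)]
      · intro y
        have h2 := (hlim (t - y)).sub_const (g (t - y))
        rw [sub_self] at h2
        refine h2.congr' ?_
        filter_upwards [eventually_gt_atTop (0:ℝ)] with R hR
        have h3 := avg_add (g := fun s => A s (t - y)) (h := fun _ => -(g (t - y)))
          (hA.comp (continuous_id.prodMk continuous_const)) continuous_const R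
        rw [avg_const hR] at h3
        rw [sub_eq_add_neg, ← h3]
        congr 1
    have h4 := h1.2.add_const (smear η g t)
    rw [zero_add] at h4
    refine h4.congr' ?_
    filter_upwards [eventually_gt_atTop (0:ℝ)] with R hR
    have h5 := avg_add (g := fun s => smear η (A s) t) (h := fun _ => -(smear η g t)) hcs
      continuous_const R
    rw [avg_const hR] at h5
    have h6 : (fun s => smear η (A s) t - smear η g t)
      = fun s => smear η (A s) t + -(smear η g t) := by funext s; ring
    rw [h6, h5]
    ring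
  intro ψ hψ t
  have gen : ∀ {η : ℂ → ℂ}, TestFn η → (∀ s, smear η (A s) t = - smear ψ (A s) t) →
      smear η g t = - smear ψ g t := by
    intro η hη h
    have h1 := (key hη t).1
    have h2 := ((key hψ t).1).neg
    refine tendsto_nhds_unique h1 (h2.congr fun R => ?_)
    have h3 := avg_const_mul (-1) (fun s => smear ψ (A s) t) R
    simp only [neg_mul, one_mul] at h3
    rw [← h3]
    congr 1; funext s; exact (h s).symm
  exact ⟨gen hψ.vop.wop (fun s => (hW s ψ hψ t).1), gen hψ.wop.vop (fun s => (hW s ψ hψ t).2)⟩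

variable {H : Type*} [NormedAddCommGroup H] [InnerProductSpace ℝ H] [CompleteSpace H]
variable {u : ℂ → ℂ → H}

namespace PairP

variable (hu : PairP u)
include hu

/-- covariance of the random covariances -/
def cc (a b : ℂ) : ℂ := ((inner ℝ (hu.cov a) (hu.cov b) : ℝ) : ℂ)

lemma cc_comm (a b : ℂ) : hu.cc a b = hu.cc b a := by
  unfold cc; rw [real_inner_comm]

lemma cc_sub_left (a b q : ℂ) : hu.cc (a - b) q = hu.cc (b - a) q := by
  unfold cc; rw [hu.cov_sub_comm]

lemma cc_sub_right (a b q : ℂ) : hu.cc q (a - b) = hu.cc q (b - a) := by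
  unfold cc; rw [hu.cov_sub_comm]

lemma cc_neg_left (a q : ℂ) : hu.cc (-a) q = hu.cc a q := by
  unfold cc; rw [hu.cov_neg]

lemma cc_neg_right (a q : ℂ) : hu.cc q (-a) = hu.cc q a := by
  unfold cc; rw [hu.cov_neg]

lemma cc_bound (a b : ℂ) : ‖hu.cc a b‖ ≤ ‖u 0 0‖ * ‖u 0 0‖ := by
  unfold cc
  rw [Complex.norm_real]
  refine (norm_inner_le_norm _ _).trans ?_
  gcongr
  · exact hu.norm_cov_le a
  · exact hu.norm_cov_le b

lemma cc_continuous : Continuous fun p : ℂ × ℂ => hu.cc p.1 p.2 := by
  unfold cc
  exact Complex.continuous_ofReal.comp ((hu.cov_unif.continuous.comp continuous_fst).inner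
    (hu.cov_unif.continuous.comp continuous_snd))

lemma cc_unif {ε : ℝ} (hε : 0 < ε) : ∃ δ > 0, ∀ a a' b b', dist a a' < δ → dist b b' < δ →
    ‖hu.cc a b - hu.cc a' b'‖ < ε := by
  set K := ‖u 0 0‖ with hK
  have hK0 : 0 ≤ K := norm_nonneg _
  obtain ⟨δ, hδ, h⟩ := Metric.uniformContinuous_iff.1 hu.cov_unif (ε / (4 * (K + 1)))
    (by positivity)
  refine ⟨δ, hδ, fun a a' b b' ha hb => ?_⟩
  have h1 := h ha
  have h2 := h hb
  rw [dist_eq_norm] at h1 h2
  have e : hu.cc a b - hu.cc a' b' = ((inner ℝ (hu.cov a - hu.cov a') (hu.cov b)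
      + inner ℝ (hu.cov a') (hu.cov b - hu.cov b') : ℝ) : ℂ) := by
    unfold cc
    rw [inner_sub_left, inner_sub_right]; push_cast; ring
  rw [e, Complex.norm_real]
  refine lt_of_le_of_lt (norm_add_le _ _) ?_
  have h3 : ‖inner ℝ (hu.cov a - hu.cov a') (hu.cov b)‖ ≤ (ε / (4 * (K + 1))) * K :=
    (norm_inner_le_norm _ _).trans (mul_le_mul h1.le (hu.norm_cov_le b) (norm_nonneg _)
      (by positivity))
  have h4 : ‖inner ℝ (hu.cov a') (hu.cov b - hu.cov b')‖ ≤ K * (ε / (4 * (K + 1))) :=
    (norm_inner_le_norm _ _).trans (mul_le_mul (hu.norm_cov_le a') h2.le (norm_nonneg _) hK0)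
  have h5 : (ε / (4 * (K + 1))) * K ≤ ε / 4 := by
    rw [div_mul_eq_mul_div, div_le_div_iff₀ (by positivity) (by norm_num)]
    nlinarith
  linarith

lemma cc_helm (p q : ℂ) : WeakHelm (fun z => hu.cc (p - z) q) := by
  refine WeakHelm.of_avg (A := fun s z => ((inner ℝ (u z p) (u s (q + s)) : ℝ) : ℂ)) ?_
    (B := ‖u 0 0‖ * ‖u 0 0‖) ?_ (fun s => hu.helm p s (q + s)) ?_ ?_
  · exact Complex.continuous_ofReal.comp ((hu.cont₂ continuous_snd continuous_const).inner
      (hu.cont₂ continuous_fst (continuous_const.add continuous_fst)))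
  · intro s z
    rw [Complex.norm_real]
    refine (norm_inner_le_norm _ _).trans ?_
    gcongr
    · exact hu.norm_le _ _
    · exact hu.norm_le _ _
  · have h1 : Continuous fun z : ℂ => ((p - z, q) : ℂ × ℂ) := by fun_prop
    exact hu.cc_continuous.comp h1
  · intro z
    have h1 := hu.inner_tendsto 0 q (u z p)
    simp only [sub_zero, zero_add] at h1
    rw [real_inner_comm, hu.inner_cov z p q] at h1
    have h2 := (Complex.continuous_ofReal.tendsto _).comp h1
    refine h2.congr fun R => ?_
    simp only [Function.comp]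
    rw [setAverage_eq, setAverage_eq, real_smul, smul_eq_mul, Complex.ofReal_mul,
      ← integral_complex_ofReal]
    congr 1
    congr 1
    funext s
    rw [real_inner_comm]

lemma cc_helm' (p q : ℂ) : WeakHelm (fun z => hu.cc (z - p) q) := by
  have := hu.cc_helm p q
  have e : (fun z => hu.cc (z - p) q) = fun z => hu.cc (p - z) q := by
    funext z; exact hu.cc_sub_left _ _ _
  rw [e]; exact this

lemma cc_helm_r (p q : ℂ) : WeakHelm (fun z => hu.cc q (p - z)) := by
  have e : (fun z => hu.cc q (p - z)) = fun z => hu.cc (p - z) q := by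
    funext z; exact hu.cc_comm _ _
  rw [e]; exact hu.cc_helm p q

lemma cc_helm_r' (p q : ℂ) : WeakHelm (fun z => hu.cc q (z - p)) := by
  have e : (fun z => hu.cc q (z - p)) = fun z => hu.cc (z - p) q := by
    funext z; exact hu.cc_comm _ _
  rw [e]; exact hu.cc_helm' p q

/-- the four-point function -/
def C4f (_hu : PairP u) (x : Fin 4 → ℂ) : ℂ := ((inner ℝ (u (x 0) (x 1)) (u (x 2) (x 3)) : ℝ) : ℂ)

/-- the pairings -/
def P12 (x : Fin 4 → ℂ) : ℂ := hu.cc (x 1 - x 0) (x 3 - x 2)
def P23 (x : Fin 4 → ℂ) : ℂ := hu.cc (x 2 - x 1) (x 3 - x 0)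
def P13 (x : Fin 4 → ℂ) : ℂ := hu.cc (x 2 - x 0) (x 3 - x 1)

omit [CompleteSpace H] in
lemma C4f_hel : Hel4 (hu.C4f) where
  cont := Complex.continuous_ofReal.comp
    ((hu.cont₂ (continuous_apply 0) (continuous_apply 1)).inner
      (hu.cont₂ (continuous_apply 2) (continuous_apply 3)))
  bdd := by
    refine ⟨‖u 0 0‖ * ‖u 0 0‖, fun x => ?_⟩
    unfold C4f
    rw [Complex.norm_real]
    refine (norm_inner_le_norm _ _).trans ?_
    gcongr
    · exact hu.norm_le _ _
    · exact hu.norm_le _ _
  helm := by
    intro j x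
    fin_cases j
    · have := hu.helm (x 1) (x 2) (x 3)
      simpa [C4f, Function.update] using this
    · have := hu.helm (x 0) (x 2) (x 3)
      simp only [hu.symm _ (x 0)] at this
      simpa [C4f, Function.update] using this
    · have := hu.helm (x 3) (x 0) (x 1)
      simp only [real_inner_comm (u (x 0) (x 1))] at this
      simpa [C4f, Function.update] using this
    · have := hu.helm (x 2) (x 0) (x 1)
      simp only [real_inner_comm (u (x 0) (x 1)), hu.symm _ (x 2)] at this
      simpa [C4f, Function.update] using this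

lemma P12_hel : Hel4 (hu.P12) where
  cont := by
    have h1 : Continuous fun x : Fin 4 → ℂ => ((x 1 - x 0, x 3 - x 2) : ℂ × ℂ) := by fun_prop
    exact hu.cc_continuous.comp h1
  bdd := ⟨_, fun x => hu.cc_bound _ _⟩
  helm := by
    intro j x
    fin_cases j
    · simpa [P12, Function.update] using hu.cc_helm (x 1) (x 3 - x 2)
    · simpa [P12, Function.update] using hu.cc_helm' (x 0) (x 3 - x 2)
    · simpa [P12, Function.update] using hu.cc_helm_r (x 3) (x 1 - x 0)
    · simpa [P12, Function.update] using hu.cc_helm_r' (x 2) (x 1 - x 0)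

lemma P23_hel : Hel4 (hu.P23) where
  cont := by
    have h1 : Continuous fun x : Fin 4 → ℂ => ((x 2 - x 1, x 3 - x 0) : ℂ × ℂ) := by fun_prop
    exact hu.cc_continuous.comp h1
  bdd := ⟨_, fun x => hu.cc_bound _ _⟩
  helm := by
    intro j x
    fin_cases j
    · simpa [P23, Function.update] using hu.cc_helm_r (x 3) (x 2 - x 1)
    · simpa [P23, Function.update] using hu.cc_helm (x 2) (x 3 - x 0)
    · simpa [P23, Function.update] using hu.cc_helm' (x 1) (x 3 - x 0)
    · simpa [P23, Function.update] using hu.cc_helm_r' (x 0) (x 2 - x 1)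

lemma P13_hel : Hel4 (hu.P13) where
  cont := by
    have h1 : Continuous fun x : Fin 4 → ℂ => ((x 2 - x 0, x 3 - x 1) : ℂ × ℂ) := by fun_prop
    exact hu.cc_continuous.comp h1
  bdd := ⟨_, fun x => hu.cc_bound _ _⟩
  helm := by
    intro j x
    fin_cases j
    · simpa [P13, Function.update] using hu.cc_helm (x 2) (x 3 - x 1)
    · simpa [P13, Function.update] using hu.cc_helm_r (x 3) (x 2 - x 0)
    · simpa [P13, Function.update] using hu.cc_helm' (x 0) (x 3 - x 1)
    · simpa [P13, Function.update] using hu.cc_helm_r' (x 1) (x 2 - x 0)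

omit hu [CompleteSpace H] in
lemma dist_sub_lt {x x' : Fin 4 → ℂ} {δ : ℝ} (h : dist x x' < δ / 2) (i j : Fin 4) :
    dist (x i - x j) (x' i - x' j) < δ := by
  have h1 : dist (x i) (x' i) ≤ dist x x' := dist_le_pi_dist x x' i
  have h2 : dist (x j) (x' j) ≤ dist x x' := dist_le_pi_dist x x' j
  have h3 := dist_sub_sub_le (x i) (x j) (x' i) (x' j)
  linarith

lemma cc_unif4 (i j k l : Fin 4) :
    UniformContinuous fun x : Fin 4 → ℂ => hu.cc (x i - x j) (x k - x l) := by
  rw [Metric.uniformContinuous_iff]
  intro ε hε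
  obtain ⟨δ, hδ, h⟩ := hu.cc_unif hε
  refine ⟨δ / 2, by positivity, fun x x' hx => ?_⟩
  rw [dist_eq_norm]
  exact h _ _ _ _ (dist_sub_lt hx i j) (dist_sub_lt hx k l)

end PairP

end

end Berry
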