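import Pool.Agent.LibH11.Berry.Pair2

/-!
The general four-point formula for pair processes: conclusion.
-/

open Complex Filter Topology MeasureTheory Metric
open scoped ENNReal NNReal InnerProductSpace

namespace Berry

noncomputable section

/-- average of a real function, as a complex number -/
lemma avg_ofReal (f : ℂ → ℝ) (R : ℝ) :
    (⨍ s in ball (0:ℂ) R, ((f s : ℝ) : ℂ)) = ((⨍ s in ball (0:ℂ) R, f s : ℝ) : ℂ) := by
  rw [setAverage_eq, setAverage_eq, real_smul, smul_eq_mul, Complex.ofReal_mul,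
      ← integral_complex_ofReal]

/-- convergence of averages of shifted functions minus a constant -/
lemma avg_sub_const {f : ℂ → ℂ} (hf : Continuous f) {k : ℂ}
    (h : Tendsto (fun R : ℝ => ⨍ s in ball (0:ℂ) R, f s) atTop (𝓝 k)) :
    Tendsto (fun R : ℝ => ⨍ s in ball (0:ℂ) R, (f s - k)) atTop (𝓝 0) := by
  have h1 := h.sub_const k
  rw [sub_self] at h1
  refine h1.congr' ?_
  filter_upwards [eventually_gt_atTop (0:ℝ)] with R hR
  have h3 := avg_add (g := f) (h := fun _ => -k) hf continuous_const R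
  rw [avg_const hR] at h3
  rw [sub_eq_add_neg, ← h3]
  congr 1

variable {H : Type*} [NormedAddCommGroup H] [InnerProductSpace ℝ H] [CompleteSpace H]
variable {u : ℂ → ℂ → H}

namespace PairP

variable (hu : PairP u)
include hu

lemma C4f_shift (x : Fin 4 → ℂ) (s : ℂ) : hu.C4f (x + s • ![1, 1, 1, 1]) = hu.C4f x := by
  have := hu.stat (x 0) (x 1) (x 2) (x 3) s
  simp [C4f, this]

lemma P12_shift (x : Fin 4 → ℂ) (s : ℂ) : hu.P12 (x + s • ![1, 1, 0, 0]) = hu.P12 x := by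
  simp [P12]

lemma P23_shift (x : Fin 4 → ℂ) (s : ℂ) : hu.P23 (x + s • ![0, 1, 1, 0]) = hu.P23 x := by
  simp [P23]

lemma P13_shift (x : Fin 4 → ℂ) (s : ℂ) : hu.P13 (x + s • ![1, 0, 1, 0]) = hu.P13 x := by
  simp [P13]

/-- averages of the four-point function over joint shifts of two points -/
lemma avg_pair (x₁ x₂ x₃ x₄ : ℂ) : Tendsto (fun R : ℝ => ⨍ s in ball (0:ℂ) R,
    (((inner ℝ (u (x₁ + s) (x₂ + s)) (u x₃ x₄) : ℝ) : ℂ) - hu.cc (x₂ - x₁) (x₄ - x₃))) atTop
    (𝓝 0) := by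
  apply avg_sub_const
  · exact Complex.continuous_ofReal.comp ((hu.cont₂ (continuous_const.add continuous_id)
      (continuous_const.add continuous_id)).inner continuous_const)
  · have h1 := hu.inner_tendsto x₁ x₂ (u x₃ x₄)
    rw [real_inner_comm, hu.inner_cov x₃ x₄ (x₂ - x₁), real_inner_comm] at h1
    have h2 := (Complex.continuous_ofReal.tendsto _).comp h1
    refine h2.congr fun R => ?_
    simp only [Function.comp]
    rw [avg_ofReal]

lemma z12 (x : Fin 4 → ℂ) : Tendsto (fun R : ℝ => ⨍ s in ball (0:ℂ) R,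
      (hu.C4f (x + s • ![1, 1, 0, 0]) - hu.P12 (x + s • ![1, 1, 0, 0]))) atTop (𝓝 0) := by
  refine (hu.avg_pair (x 0) (x 1) (x 2) (x 3)).congr fun R => ?_
  congr 1; funext s
  rw [hu.P12_shift]
  simp [C4f, P12]

lemma z23 (x : Fin 4 → ℂ) : Tendsto (fun R : ℝ => ⨍ s in ball (0:ℂ) R,
      (hu.C4f (x + s • ![0, 1, 1, 0]) - hu.P23 (x + s • ![0, 1, 1, 0]))) atTop (𝓝 0) := by
  refine (hu.avg_pair (x 1) (x 2) (x 0) (x 3)).congr fun R => ?_
  congr 1; funext s
  rw [hu.P23_shift]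
  have e : inner ℝ (u (x 0) (x 1 + s)) (u (x 2 + s) (x 3))
      = inner ℝ (u (x 1 + s) (x 2 + s)) (u (x 0) (x 3)) := by
    rw [hu.symm (x 0) (x 1 + s), hu.symm4]
  simp [C4f, P23, e]

lemma z13 (x : Fin 4 → ℂ) : Tendsto (fun R : ℝ => ⨍ s in ball (0:ℂ) R,
      (hu.C4f (x + s • ![1, 0, 1, 0]) - hu.P13 (x + s • ![1, 0, 1, 0]))) atTop (𝓝 0) := by
  refine (hu.avg_pair (x 0) (x 2) (x 1) (x 3)).congr fun R => ?_
  congr 1; funext s
  rw [hu.P13_shift]
  have e : inner ℝ (u (x 0 + s) (x 1)) (u (x 2 + s) (x 3))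
      = inner ℝ (u (x 0 + s) (x 2 + s)) (u (x 1) (x 3)) := by
    rw [hu.symm4]
  simp [C4f, P13, e]

theorem identity (t : Fin 4 → ℂ) :
    MZ (fun s => -(hu.P23 (t + s • ![1, 1, 0, 0]) + hu.P13 (t + s • ![1, 1, 0, 0])
      + hu.P12 (t + s • ![0, 1, 1, 0]) + hu.P13 (t + s • ![0, 1, 1, 0])
      + hu.P12 (t + s • ![1, 0, 1, 0]) + hu.P23 (t + s • ![1, 0, 1, 0]))
      - 2 * (hu.C4f t - hu.P12 t - hu.P23 t - hu.P13 t)) :=
  four_general hu.C4f_hel hu.P12_hel hu.P23_hel hu.P13_hel (hu.cc_unif4 1 0 3 2)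
    (hu.cc_unif4 2 1 3 0) (hu.cc_unif4 2 0 3 1) hu.C4f_shift hu.P12_shift hu.P23_shift
    hu.P13_shift hu.z12 hu.z23 hu.z13 t

/-- the function `s ↦ ⟨c(s), c(s+y)⟩` -/
def gg (y s : ℂ) : ℂ := hu.cc s (s + y)

lemma gg_continuous (y : ℂ) : Continuous (hu.gg y) := by
  have h1 : Continuous fun s : ℂ => ((s, s + y) : ℂ × ℂ) := by fun_prop
  exact hu.cc_continuous.comp h1

lemma gg_bound (y s : ℂ) : ‖hu.gg y s‖ ≤ ‖u 0 0‖ * ‖u 0 0‖ := hu.cc_bound _ _

/-- shifted averages of `gg` -/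
lemma gg_shift {y k : ℂ}
    (h : Tendsto (fun R : ℝ => ⨍ s in ball (0:ℂ) R, hu.gg y s) atTop (𝓝 k)) (x : ℂ) :
    Tendsto (fun R : ℝ => ⨍ s in ball (0:ℂ) R, hu.gg y (x + s)) atTop (𝓝 k) := by
  have := (avg_shift (hu.gg_continuous y) (hu.gg_bound y) x).add h
  simpa using this

lemma gg_mz {y k : ℂ}
    (h : Tendsto (fun R : ℝ => ⨍ s in ball (0:ℂ) R, hu.gg y s) atTop (𝓝 k)) (x : ℂ) :
    MZ (fun s => hu.gg y (x + s) - k) :=
  ⟨((hu.gg_continuous y).comp (continuous_const.add continuous_id)).sub continuous_const,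
    avg_sub_const ((hu.gg_continuous y).comp (continuous_const.add continuous_id))
      (hu.gg_shift h x)⟩

/-- the cubic correction `h(y) = lim ⨍ ⟨c(s), c(s+y)⟩ ds` exists -/
lemma exists_h (y : ℂ) : Tendsto (fun R : ℝ => ⨍ s in ball (0:ℂ) R, hu.gg y s) atTop
    (𝓝 (-(1/3) * (hu.C4f ![y, 0, 0, 0] - 3 * hu.cc y 0))) := by
  set t : Fin 4 → ℂ := ![y, 0, 0, 0] with ht
  set D := hu.C4f t - 3 * hu.cc y 0 with hD
  have h1 := hu.identity t
  have e1 : ∀ s : ℂ, hu.P23 (t + s • ![1, 1, 0, 0]) = hu.gg y s := by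
    intro s
    have : hu.P23 (t + s • ![1, 1, 0, 0]) = hu.cc (0 - s) (0 - (y + s)) := by
      simp [P23, ht]
    rw [this, hu.cc_sub_left, hu.cc_sub_right, sub_zero, sub_zero, add_comm y]; rfl
  have e2 : ∀ s : ℂ, hu.P13 (t + s • ![1, 1, 0, 0]) = hu.gg y s := by
    intro s
    have : hu.P13 (t + s • ![1, 1, 0, 0]) = hu.cc (0 - (y + s)) (0 - s) := by
      simp [P13, ht]
    rw [this, hu.cc_sub_left, hu.cc_sub_right, sub_zero, sub_zero, add_comm y, hu.cc_comm]; rfl
  have e3 : ∀ s : ℂ, hu.P12 (t + s • ![0, 1, 1, 0]) = hu.gg y (-y + s) := by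
    intro s
    have : hu.P12 (t + s • ![0, 1, 1, 0]) = hu.cc (s - y) (0 - s) := by
      simp [P12, ht]
    rw [this, hu.cc_sub_right, sub_zero]
    unfold gg
    congr 1 <;> ring
  have e4 : ∀ s : ℂ, hu.P13 (t + s • ![0, 1, 1, 0]) = hu.gg y (-y + s) := by
    intro s
    have : hu.P13 (t + s • ![0, 1, 1, 0]) = hu.cc (s - y) (0 - s) := by
      simp [P13, ht]
    rw [this, hu.cc_sub_right, sub_zero]
    unfold gg
    congr 1 <;> ring
  have e5 : ∀ s : ℂ, hu.P12 (t + s • ![1, 0, 1, 0]) = hu.gg y s := by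
    intro s
    have : hu.P12 (t + s • ![1, 0, 1, 0]) = hu.cc (0 - (y + s)) (0 - s) := by
      simp [P12, ht]
    rw [this, hu.cc_sub_left, hu.cc_sub_right, sub_zero, sub_zero, add_comm y, hu.cc_comm]; rfl
  have e6 : ∀ s : ℂ, hu.P23 (t + s • ![1, 0, 1, 0]) = hu.gg y s := by
    intro s
    have : hu.P23 (t + s • ![1, 0, 1, 0]) = hu.cc (s - 0) (0 - (y + s)) := by
      simp [P23, ht]
    rw [this, hu.cc_sub_right, sub_zero, sub_zero, add_comm y]; rfl
  have p1 : hu.P12 t = hu.cc y 0 := by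
    have : hu.P12 t = hu.cc (0 - y) (0 - 0) := by simp [P12, ht]
    rw [this, hu.cc_sub_left, sub_zero, sub_zero]
  have p2 : hu.P23 t = hu.cc y 0 := by
    have : hu.P23 t = hu.cc (0 - 0) (0 - y) := by simp [P23, ht]
    rw [this, hu.cc_sub_right, sub_zero, sub_zero, hu.cc_comm]
  have p3 : hu.P13 t = hu.cc y 0 := by
    have : hu.P13 t = hu.cc (0 - y) (0 - 0) := by simp [P13, ht]
    rw [this, hu.cc_sub_left, sub_zero, sub_zero]
  simp only [e1, e2, e3, e4, e5, e6, p1, p2, p3] at h1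
  have h2 : (fun s => -(hu.gg y s + hu.gg y s + hu.gg y (-y + s) + hu.gg y (-y + s) + hu.gg y s
      + hu.gg y s) - 2 * (hu.C4f t - hu.cc y 0 - hu.cc y 0 - hu.cc y 0))
      = fun s => (-4) * hu.gg y s + ((-2) * hu.gg y (-y + s) + (-2) * D) := by
    funext s; simp only [hD]; ring
  rw [h2] at h1
  -- averages
  have hc := hu.gg_continuous y
  have hcs : Continuous fun s => hu.gg y (-y + s) :=
    hc.comp (continuous_const.add continuous_id)
  have h3 : Tendsto (fun R : ℝ => (-6 : ℂ) * (⨍ s in ball (0:ℂ) R, hu.gg y s) + (-2) * D)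
      atTop (𝓝 0) := by
    have h4 := (h1.2).sub ((avg_shift hc (hu.gg_bound y) (-y)).const_mul (-2))
    rw [mul_zero, sub_zero] at h4
    refine h4.congr' ?_
    filter_upwards [eventually_gt_atTop (0:ℝ)] with R hR
    have a1 := avg_add (g := fun s => (-4) * hu.gg y s)
      (h := fun s => (-2) * hu.gg y (-y + s) + (-2) * D) (continuous_const.mul hc)
      ((continuous_const.mul hcs).add continuous_const) R
    have a2 := avg_add (g := fun s => (-2) * hu.gg y (-y + s))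
      (h := fun _ => (-2) * D) (continuous_const.mul hcs) continuous_const R
    rw [a2, avg_const hR, avg_const_mul, avg_const_mul] at a1
    rw [a1]; ring
  have h5 := (h3.sub_const ((-2) * D)).const_mul (-(1/6))
  have h6 : (-(1/6) * ((0:ℂ) - (-2) * D)) = -(1/3) * D := by ring
  rw [h6] at h5
  refine h5.congr fun R => ?_
  ring

/-- **General four-point formula** for pair processes. -/
theorem formula : ∃ h : ℂ → ℂ,
    (∀ y, Tendsto (fun R : ℝ => ⨍ s in ball (0:ℂ) R, hu.gg y s) atTop (𝓝 (h y))) ∧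
    ∀ x : Fin 4 → ℂ, hu.C4f x = hu.P12 x + hu.P23 x + hu.P13 x
      - h (x 0 + x 1 - x 2 - x 3) - h (x 0 - x 1 + x 2 - x 3) - h (x 0 - x 1 - x 2 + x 3) := by
  refine ⟨fun y => -(1/3) * (hu.C4f ![y, 0, 0, 0] - 3 * hu.cc y 0), hu.exists_h, fun x => ?_⟩
  set h : ℂ → ℂ := fun y => -(1/3) * (hu.C4f ![y, 0, 0, 0] - 3 * hu.cc y 0) with hh
  have H1 := hu.identity x
  have neg_h : ∀ y x₀ : ℂ, MZ (fun s => hu.gg y (x₀ - s) - h y) := by
    intro y x₀
    have h1 : Tendsto (fun R : ℝ => ⨍ s in ball (0:ℂ) R, hu.gg y (-s)) atTop (𝓝 (h y)) := by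
      refine (hu.exists_h y).congr fun R => ?_
      rw [setAverage_eq, setAverage_eq]
      congr 1
      have := (Measure.measurePreserving_neg (volume : Measure ℂ)).setIntegral_preimage_emb
        (MeasurableEquiv.neg ℂ).measurableEmbedding (hu.gg y) (ball (0:ℂ) R)
      rw [← this]
      congr 2
      ext s; simp [mem_ball]
    have hc' : Continuous fun s => hu.gg y (-s) := (hu.gg_continuous y).comp continuous_neg
    have h2 := (avg_shift hc' (fun s => hu.gg_bound y (-s)) (-x₀)).add h1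
    simp only [sub_add_cancel, zero_add] at h2
    have hc2 : Continuous fun s => hu.gg y (x₀ - s) :=
      (hu.gg_continuous y).comp (continuous_const.sub continuous_id)
    have h3 : (fun s : ℂ => hu.gg y (-(-x₀ + s))) = fun s => hu.gg y (x₀ - s) := by
      funext s; congr 1; ring
    rw [h3] at h2
    exact ⟨hc2.sub continuous_const, avg_sub_const hc2 h2⟩
  -- the six terms
  set yb := x 0 - x 1 + x 2 - x 3 with hyb
  set yc := x 0 - x 1 - x 2 + x 3 with hyc
  set ya := x 0 + x 1 - x 2 - x 3 with hya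
  -- h is even
  have heven : ∀ y, h (-y) = h y := by
    intro y
    have k1 := hu.gg_shift (hu.exists_h (-y)) 0
    have k2 := hu.gg_shift (hu.exists_h y) (-y)
    refine tendsto_nhds_unique k1 (k2.congr fun R => ?_)
    congr 1; funext s
    unfold gg
    rw [hu.cc_comm]
    congr 1 <;> ring
  have m1 : MZ (fun s => hu.P23 (x + s • ![1, 1, 0, 0]) - h yb) := by
    have := hu.gg_mz (hu.exists_h yb) (x 1 - x 2)
    have e : (fun s => hu.P23 (x + s • ![1, 1, 0, 0]) - h yb)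
        = fun s => hu.gg yb (x 1 - x 2 + s) - h yb := by
      funext s
      have e1 : hu.P23 (x + s • ![1, 1, 0, 0]) = hu.cc (x 2 - (x 1 + s)) (x 3 - (x 0 + s)) := by
        simp [P23]
      rw [e1, hu.cc_sub_left, hu.cc_sub_right]
      unfold gg
      rw [hyb]
      congr 2 <;> ring
    rw [e]; exact this
  have m2 : MZ (fun s => hu.P13 (x + s • ![1, 1, 0, 0]) - h yc) := by
    have := hu.gg_mz (hu.exists_h (-yc)) (x 0 - x 2)
    have e : (fun s => hu.P13 (x + s • ![1, 1, 0, 0]) - h yc)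
        = fun s => hu.gg (-yc) (x 0 - x 2 + s) - h (-yc) := by
      funext s
      have e1 : hu.P13 (x + s • ![1, 1, 0, 0]) = hu.cc (x 2 - (x 0 + s)) (x 3 - (x 1 + s)) := by
        simp [P13]
      rw [e1, hu.cc_sub_left, hu.cc_sub_right, heven]
      unfold gg
      rw [hyc]
      congr 2 <;> ring
    rw [e]; exact this
  have m3 : MZ (fun s => hu.P12 (x + s • ![0, 1, 1, 0]) - h yb) := by
    have := hu.gg_mz (hu.exists_h yb) (x 1 - x 0)
    have e : (fun s => hu.P12 (x + s • ![0, 1, 1, 0]) - h yb)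
        = fun s => hu.gg yb (x 1 - x 0 + s) - h yb := by
      funext s
      have e1 : hu.P12 (x + s • ![0, 1, 1, 0]) = hu.cc (x 1 + s - x 0) (x 3 - (x 2 + s)) := by
        simp [P12]
      rw [e1, hu.cc_sub_right]
      unfold gg
      rw [hyb]
      congr 2 <;> ring
    rw [e]; exact this
  have m4 : MZ (fun s => hu.P13 (x + s • ![0, 1, 1, 0]) - h ya) := by
    have := hu.gg_mz (hu.exists_h ya) (x 2 - x 0)
    have e : (fun s => hu.P13 (x + s • ![0, 1, 1, 0]) - h ya)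
        = fun s => hu.gg ya (x 2 - x 0 + s) - h ya := by
      funext s
      have e1 : hu.P13 (x + s • ![0, 1, 1, 0]) = hu.cc (x 2 + s - x 0) (x 3 - (x 1 + s)) := by
        simp [P13]
      rw [e1, hu.cc_sub_right]
      unfold gg
      rw [hya]
      congr 2 <;> ring
    rw [e]; exact this
  have m5 : MZ (fun s => hu.P12 (x + s • ![1, 0, 1, 0]) - h yc) := by
    have := hu.gg_mz (hu.exists_h (-yc)) (x 0 - x 1)
    have e : (fun s => hu.P12 (x + s • ![1, 0, 1, 0]) - h yc)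
        = fun s => hu.gg (-yc) (x 0 - x 1 + s) - h (-yc) := by
      funext s
      have e1 : hu.P12 (x + s • ![1, 0, 1, 0]) = hu.cc (x 1 - (x 0 + s)) (x 3 - (x 2 + s)) := by
        simp [P12]
      rw [e1, hu.cc_sub_left, hu.cc_sub_right, heven]
      unfold gg
      rw [hyc]
      congr 2 <;> ring
    rw [e]; exact this
  have m6 : MZ (fun s => hu.P23 (x + s • ![1, 0, 1, 0]) - h ya) := by
    have := hu.gg_mz (hu.exists_h ya) (x 2 - x 1)
    have e : (fun s => hu.P23 (x + s • ![1, 0, 1, 0]) - h ya)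
        = fun s => hu.gg ya (x 2 - x 1 + s) - h ya := by
      funext s
      have e1 : hu.P23 (x + s • ![1, 0, 1, 0]) = hu.cc (x 2 + s - x 1) (x 3 - (x 0 + s)) := by
        simp [P23]
      rw [e1, hu.cc_sub_right]
      unfold gg
      rw [hya]
      congr 2 <;> ring
    rw [e]; exact this
  have tot := H1.add (((((m1.add m2).add m3).add m4).add m5).add m6)
  have e : (fun s => (-(hu.P23 (x + s • ![1, 1, 0, 0]) + hu.P13 (x + s • ![1, 1, 0, 0])
      + hu.P12 (x + s • ![0, 1, 1, 0]) + hu.P13 (x + s • ![0, 1, 1, 0])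
      + hu.P12 (x + s • ![1, 0, 1, 0]) + hu.P23 (x + s • ![1, 0, 1, 0]))
      - 2 * (hu.C4f x - hu.P12 x - hu.P23 x - hu.P13 x))
      + (hu.P23 (x + s • ![1, 1, 0, 0]) - h yb + (hu.P13 (x + s • ![1, 1, 0, 0]) - h yc)
        + (hu.P12 (x + s • ![0, 1, 1, 0]) - h yb) + (hu.P13 (x + s • ![0, 1, 1, 0]) - h ya)
        + (hu.P12 (x + s • ![1, 0, 1, 0]) - h yc) + (hu.P23 (x + s • ![1, 0, 1, 0]) - h ya)))
      = fun _ : ℂ => - 2 * (hu.C4f x - hu.P12 x - hu.P23 x - hu.P13 x)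
        - 2 * (h ya + h yb + h yc) := by
    funext s; ring
  rw [e] at tot
  have := tot.const
  linear_combination (-1/2) * this

end PairP

end

end Berry
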