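import Pool.Agent.LibH11.Berry.Conv
import Pool.Agent.LibH11.Berry.Met
import Pool.Agent.LibH11.Berry.Core2

/-!
The random covariance of an invariant wave and the projection onto its span.
-/

open Complex Filter Topology MeasureTheory ProbabilityTheory Metric
open scoped ENNReal

namespace Berry

noncomputable section

variable {Ω : Type*} [MeasurableSpace Ω] {P : Measure Ω} [IsProbabilityMeasure P]
  {F : ℂ → Ω → ℝ}

/-- real elements of `L²` (expressed through the bilinear pairing) -/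
def ReL (u : Lp ℂ 2 P) : Prop := ∀ w : Lp ℂ 2 P, inner ℂ u w = pairX P u w

omit [IsProbabilityMeasure P] in
lemma reL_of_ae (u : Lp ℂ 2 P) (f : Ω → ℝ) (hf : u =ᵐ[P] fun ω => (f ω : ℂ)) : ReL u := by
  intro w
  rw [L2.inner_def, pairX_eq]
  apply integral_congr_ae
  filter_upwards [hf] with ω h
  rw [h, RCLike.inner_apply, conj_ofReal]; ring

omit [IsProbabilityMeasure P] in
lemma ReL.limit {ι : Type*} {l : Filter ι} [l.NeBot] {u : ι → Lp ℂ 2 P} {m : Lp ℂ 2 P}
    (hu : ∀ i, ReL (u i)) (h : Tendsto u l (𝓝 m)) : ReL m := by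
  intro w
  have h1 : Tendsto (fun i => inner ℂ (u i) w) l (𝓝 (inner ℂ m w)) :=
    h.inner tendsto_const_nhds
  have h2 : Tendsto (fun i => pairX P (u i) w) l (𝓝 (pairX P m w)) :=
    (((pairX P).flip w).continuous.tendsto m).comp h
  refine tendsto_nhds_unique h1 (h2.congr fun i => ?_)
  exact (hu i w).symm

variable (hF : InvWave P F) (h4 : MemLp (F 0) 4 P)

omit [IsProbabilityMeasure P] in
lemma InvWave.prodL2_reL (a x : ℂ) : ReL (prodL2 (hF.toL4 h4) a x) :=
  reL_of_ae _ _ (hF.prodL2_coeFn h4 a x)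

lemma InvWave.prodL2_stat (a b s s' r : ℂ) :
    inner ℂ (prodL2 (hF.toL4 h4) a (s + r)) (prodL2 (hF.toL4 h4) b (s' + r))
      = inner ℂ (prodL2 (hF.toL4 h4) a s) (prodL2 (hF.toL4 h4) b s') := by
  rw [hF.prodL2_reL h4, hF.prodL2_reL h4]
  have h := hF.C4_shift h4 s (s + a) s' (s' + b) r
  have e1 : s + r + a = s + a + r := by ring
  have e2 : s' + r + b = s' + b + r := by ring
  simp only [prodL2]
  rw [e1, e2]
  exact h

/-- the random covariance, as an element of `L²` -/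
def InvWave.cc (a : ℂ) : Lp ℂ 2 P :=
  (met (prodL2_continuous (hF.continuous_toL4 h4) a)
    (fun s s' r => hF.prodL2_stat h4 a a s s' r)).choose

lemma InvWave.tendsto_cc (a : ℂ) : Tendsto (fun R : ℝ => ⨍ s in ball (0:ℂ) R,
    prodL2 (hF.toL4 h4) a s) atTop (𝓝 (hF.cc h4 a)) :=
  (met (prodL2_continuous (hF.continuous_toL4 h4) a)
    (fun s s' r => hF.prodL2_stat h4 a a s s' r)).choose_spec

lemma InvWave.cc_reL (a : ℂ) : ReL (hF.cc h4 a) :=
  ReL.limit (fun R => reL_of_ae _ _ (hF.avg_prodL2_coeFn h4 a R)) (hF.tendsto_cc h4 a)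

omit [IsProbabilityMeasure P] in
lemma InvWave.prodL2_norm_le (a x : ℂ) :
    ‖prodL2 (hF.toL4 h4) a x‖ ≤ ‖mulX P‖ * ‖hF.toL4 h4 0‖ * ‖hF.toL4 h4 0‖ := by
  refine ((mulX P).le_opNorm₂ _ _).trans (le_of_eq ?_)
  rw [hF.norm_toL4 h4 x, hF.norm_toL4 h4 (x + a)]

lemma InvWave.tendsto_cc_shift (x₁ x₂ : ℂ) : Tendsto (fun R : ℝ => ⨍ s in ball (0:ℂ) R,
    mulX P (hF.toL4 h4 (x₁ + s)) (hF.toL4 h4 (x₂ + s))) atTop (𝓝 (hF.cc h4 (x₂ - x₁))) := by
  have hcont := prodL2_continuous (hF.continuous_toL4 h4) (x₂ - x₁)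
  have h1 := avg_shiftE hcont (hF.prodL2_norm_le h4 (x₂ - x₁)) x₁
  have h2 := h1.add (hF.tendsto_cc h4 (x₂ - x₁))
  simp only [sub_add_cancel, zero_add] at h2
  refine h2.congr fun R => ?_
  congr 1
  funext s
  simp only [prodL2]
  congr 2
  ring

omit [IsProbabilityMeasure P] in
lemma mulX_symm (a b : Lp ℂ 4 P) : mulX P a b = mulX P b a := by
  apply Lp.ext
  filter_upwards [coeFn_mulX a b, coeFn_mulX b a] with ω h1 h2
  rw [h1, h2]; ring

omit [IsProbabilityMeasure P] in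
lemma mulX_smul1 (z : ℂ) (a b : Lp ℂ 4 P) : mulX P (z • a) b = z • mulX P a b := by
  apply Lp.ext
  filter_upwards [coeFn_mulX (z • a) b, coeFn_mulX a b, Lp.coeFn_smul z a,
    Lp.coeFn_smul z (mulX P a b)] with ω h1 h2 h3 h4
  rw [h1, h3, h4, Pi.smul_apply, Pi.smul_apply, h2, smul_eq_mul, smul_eq_mul]; ring

omit [IsProbabilityMeasure P] in
lemma mulX_smul2 (z : ℂ) (a b : Lp ℂ 4 P) : mulX P a (z • b) = z • mulX P a b := by
  rw [mulX_symm, mulX_smul1, mulX_symm]

lemma InvWave.cc_neg (a : ℂ) : hF.cc h4 (-a) = hF.cc h4 a := by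
  have h1 := hF.tendsto_cc_shift h4 a 0
  have h2 := hF.tendsto_cc_shift h4 0 a
  rw [zero_sub] at h1
  rw [sub_zero] at h2
  refine tendsto_nhds_unique h1 (h2.congr fun R => ?_)
  congr 1
  funext s
  rw [mulX_symm]

/-- the product process is correlated with `c` as `c` itself -/
lemma InvWave.inner_prod_cc (a b x : ℂ) :
    inner ℂ (prodL2 (hF.toL4 h4) a x) (hF.cc h4 b) = inner ℂ (hF.cc h4 a) (hF.cc h4 b) := by
  have hca := prodL2_continuous (hF.continuous_toL4 h4) a
  have hcb := prodL2_continuous (hF.continuous_toL4 h4) b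
  -- the inner product with c b does not depend on x
  have h1 : ∀ x, Tendsto (fun R : ℝ => ⨍ s in ball (0:ℂ) R,
      inner ℂ (prodL2 (hF.toL4 h4) a x) (prodL2 (hF.toL4 h4) b s)) atTop
      (𝓝 (inner ℂ (prodL2 (hF.toL4 h4) a x) (hF.cc h4 b))) := by
    intro x
    have h2 : Tendsto (fun R : ℝ => inner ℂ (prodL2 (hF.toL4 h4) a x)
        (⨍ s in ball (0:ℂ) R, prodL2 (hF.toL4 h4) b s)) atTop
        (𝓝 (inner ℂ (prodL2 (hF.toL4 h4) a x) (hF.cc h4 b))) :=
      tendsto_const_nhds.inner (hF.tendsto_cc h4 b)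
    refine h2.congr fun R => ?_
    rw [hF.prodL2_reL h4, pairX_avg2 _ hcb]
    congr 1
    funext s
    rw [hF.prodL2_reL h4]
  have hconst : ∀ x, inner ℂ (prodL2 (hF.toL4 h4) a x) (hF.cc h4 b)
      = inner ℂ (prodL2 (hF.toL4 h4) a 0) (hF.cc h4 b) := by
    intro x
    set g : ℂ → ℂ := fun s => inner ℂ (prodL2 (hF.toL4 h4) a 0) (prodL2 (hF.toL4 h4) b s) with hg
    have hgc : Continuous g := continuous_const.inner hcb
    have hgb : ∀ s, ‖g s‖ ≤ (‖mulX P‖ * ‖hF.toL4 h4 0‖ * ‖hF.toL4 h4 0‖)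
        * (‖mulX P‖ * ‖hF.toL4 h4 0‖ * ‖hF.toL4 h4 0‖) := by
      intro s
      refine (norm_inner_le_norm _ _).trans ?_
      gcongr
      · exact hF.prodL2_norm_le h4 a 0
      · exact hF.prodL2_norm_le h4 b s
    have h2 := avg_shift hgc hgb (-x)
    have h3 := h2.add (h1 0)
    simp only [hg, sub_add_cancel, zero_add] at h3
    refine tendsto_nhds_unique (h1 x) (h3.congr fun R => ?_)
    congr 1
    funext s
    have := hF.prodL2_stat h4 a b 0 (-x + s) x
    rw [zero_add] at this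
    rw [← this]
    congr 2; ring
  have h5 : Tendsto (fun R : ℝ => inner ℂ (⨍ s in ball (0:ℂ) R, prodL2 (hF.toL4 h4) a s)
      (hF.cc h4 b)) atTop (𝓝 (inner ℂ (hF.cc h4 a) (hF.cc h4 b))) :=
    (hF.tendsto_cc h4 a).inner tendsto_const_nhds
  have h6 : Tendsto (fun R : ℝ => inner ℂ (⨍ s in ball (0:ℂ) R, prodL2 (hF.toL4 h4) a s)
      (hF.cc h4 b)) atTop (𝓝 (inner ℂ (prodL2 (hF.toL4 h4) a x) (hF.cc h4 b))) := by
    refine tendsto_const_nhds.congr' ?_
    filter_upwards [eventually_gt_atTop (0:ℝ)] with R hR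
    rw [reL_of_ae _ _ (hF.avg_prodL2_coeFn h4 a R), pairX_avg _ hca]
    have : ∀ s, pairX P (prodL2 (hF.toL4 h4) a s) (hF.cc h4 b)
        = inner ℂ (prodL2 (hF.toL4 h4) a x) (hF.cc h4 b) := by
      intro s
      rw [← hF.prodL2_reL h4, hconst s, hconst x]
    simp only [this]
    rw [avg_const hR]
  exact tendsto_nhds_unique h6 h5

/-- the closed span of the random covariances -/
def InvWave.csp : Submodule ℂ (Lp ℂ 2 P) :=
  (Submodule.span ℂ (Set.range (hF.cc h4))).topologicalClosure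

instance InvWave.csp_complete : CompleteSpace (hF.csp h4) :=
  (Submodule.isClosed_topologicalClosure _).completeSpace_coe

/-- the orthogonal projection onto the closed span of the random covariances -/
def InvWave.pr : Lp ℂ 2 P →L[ℂ] Lp ℂ 2 P := (hF.csp h4).starProjection

lemma InvWave.cc_mem (a : ℂ) : hF.cc h4 a ∈ hF.csp h4 :=
  Submodule.le_topologicalClosure _ (Submodule.subset_span ⟨a, rfl⟩)

lemma InvWave.pr_mem (u : Lp ℂ 2 P) : hF.pr h4 u ∈ hF.csp h4 :=
  Submodule.starProjection_apply_mem _ _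

/-- orthogonality extends from the generators -/
lemma InvWave.csp_induction {p : Lp ℂ 2 P → Prop} (h0 : p 0) (hc : ∀ a, p (hF.cc h4 a))
    (hadd : ∀ x y, p x → p y → p (x + y)) (hs : ∀ (z : ℂ) x, p x → p (z • x))
    (hcl : IsClosed {x | p x}) {u : Lp ℂ 2 P} (hu : u ∈ hF.csp h4) : p u := by
  have hspan : ∀ x ∈ Submodule.span ℂ (Set.range (hF.cc h4)), p x := by
    intro x hx
    induction hx using Submodule.span_induction with
    | mem x hx => obtain ⟨a, rfl⟩ := hx; exact hc a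
    | zero => exact h0
    | add x y _ _ hx hy => exact hadd x y hx hy
    | smul z x _ hx => exact hs z x hx
  have : (hF.csp h4 : Set (Lp ℂ 2 P)) ⊆ {x | p x} := by
    rw [InvWave.csp, Submodule.topologicalClosure_coe]
    exact closure_minimal hspan hcl
  exact this hu

/-- the projection of the product process -/
lemma InvWave.pr_prod (x y : ℂ) :
    hF.pr h4 (mulX P (hF.toL4 h4 x) (hF.toL4 h4 y)) = hF.cc h4 (y - x) := by
  have hp : mulX P (hF.toL4 h4 x) (hF.toL4 h4 y) = prodL2 (hF.toL4 h4) (y - x) x := by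
    simp only [prodL2]; congr 2; ring
  rw [hp]
  apply Submodule.eq_starProjection_of_mem_of_inner_eq_zero (hF.cc_mem h4 _)
  intro w hw
  refine hF.csp_induction h4 (p := fun w => inner ℂ (prodL2 (hF.toL4 h4) (y - x) x
    - hF.cc h4 (y - x)) w = 0) ?_ ?_ ?_ ?_ ?_ hw
  · simp
  · intro b
    rw [inner_sub_left, hF.inner_prod_cc, sub_self]
  · intro u v hu hv
    rw [inner_add_right, hu, hv, add_zero]
  · intro z u hu
    rw [inner_smul_right, hu, mul_zero]
  · exact isClosed_eq (continuous_const.inner continuous_id) continuous_const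

/-- the projection is self-adjoint for the bilinear pairing -/
lemma InvWave.pairX_pr (u w : Lp ℂ 2 P) :
    pairX P (hF.pr h4 u) (hF.pr h4 w) = pairX P (hF.pr h4 u) w := by
  have hort : w - hF.pr h4 w ∈ (hF.csp h4)ᗮ := Submodule.sub_starProjection_mem_orthogonal w
  have h0 : pairX P (hF.pr h4 u) (w - hF.pr h4 w) = 0 := by
    refine hF.csp_induction h4 (p := fun z => pairX P z (w - hF.pr h4 w) = 0) ?_ ?_ ?_ ?_ ?_
      (hF.pr_mem h4 u)
    · simp
    · intro b
      rw [← hF.cc_reL h4 b]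
      exact hort _ (hF.cc_mem h4 b)
    · intro x y hx hy
      rw [map_add, _root_.add_apply, hx, hy, add_zero]
    · intro z x hx
      rw [pairX_smul1, hx, mul_zero]
    · exact isClosed_eq (((pairX P).flip (w - hF.pr h4 w)).continuous) continuous_const
  rw [map_sub, sub_eq_zero] at h0
  exact h0.symm

lemma InvWave.pr_cc (a : ℂ) : hF.pr h4 (hF.cc h4 a) = hF.cc h4 a :=
  Submodule.starProjection_eq_self_iff.2 (hF.cc_mem h4 a)

end

end Berry
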