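import Pool.Agent.LibH11.Berry.HWave4
import Pool.Agent.LibH11.Berry.RDefs
import Pool.Agent.LibH11.Berry.Det2

/-!
The base wave of an eigenfunction for a conformal metric: smoothness, the equation, and local
estimates.
-/

open UpperHalfPlane MeasureTheory ProbabilityTheory MatrixGroups Filter Topology Set
  InnerProductSpace Laplacian
open scoped ENNReal NNReal

namespace Berry

noncomputable section

/-- one eigenfunction for the metric `e^{2ρ} g` -/
structure REig (ρ : ℍ → ℝ) (φ : ℍ → ℝ) (m : ℝ) : Prop where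
  smooth : ContDiffOn ℝ 2 (fun w : ℂ => φ (ofComplex w)) {w | 0 < w.im}
  eigen : ∀ z : ℍ, z.im ^ 2 * (Δ (fun w : ℂ => φ (ofComplex w))) z
    = - (m ^ 2 * Real.exp (2 * ρ z) * φ z)

variable {ρ φ : ℍ → ℝ} {m : ℝ}

lemma REig.continuous (h : REig ρ φ m) : Continuous φ := by
  rw [continuous_iff_continuousAt]
  intro z
  have h1 : ContinuousAt (fun w : ℂ => φ (ofComplex w)) (z : ℂ) :=
    h.smooth.continuousOn.continuousAt (isOpen_uhp.mem_nhds z.im_pos)
  have h2 : ContinuousAt (fun z : ℍ => φ (ofComplex (z : ℂ))) z :=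
    ContinuousAt.comp (g := fun w : ℂ => φ (ofComplex w)) (f := fun z : ℍ => (z : ℂ)) h1
      continuous_coe.continuousAt
  simpa only [ofComplex_apply] using h2

lemma REig.contDiffAt (h : REig ρ φ m) (k : ℝ) (g : SL(2, ℝ)) {x : ℂ}
    (hx : 0 < (Complex.I + x / k).im) :
    ContDiffAt ℝ 2 (fun x : ℂ => φ (g • ofComplex (Complex.I + x / k))) x := by
  set c : ℂ → ℂ := fun x : ℂ => ((g • ofComplex (Complex.I + x / k) : ℍ) : ℂ) with hc
  have h1 : ContDiffAt ℝ 2 (fun w : ℂ => φ (ofComplex w)) (c x) :=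
    h.smooth.contDiffAt (isOpen_uhp.mem_nhds (UpperHalfPlane.im_pos _))
  have h2 : ContDiffAt ℝ 2 c x := (chart_analytic g hx).contDiffAt.restrict_scalars ℝ
  have h3 := ContDiffAt.comp x h1 h2
  have e : (fun x : ℂ => φ (g • ofComplex (Complex.I + x / k)))
      = (fun w : ℂ => φ (ofComplex w)) ∘ c := by
    funext x
    simp only [Function.comp, hc, ofComplex_apply]
  rw [e]; exact h3

lemma REig.laplacian (h : REig ρ φ m) (hm : m ≠ 0) (g : SL(2, ℝ)) {x : ℂ}
    (hx : 0 < (Complex.I + x / m).im) :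
    (Δ (fun x : ℂ => φ (g • ofComplex (Complex.I + x / m)))) x * (Complex.I + x / m).im ^ 2
      = - (Real.exp (2 * ρ (g • ofComplex (Complex.I + x / m)))
        * φ (g • ofComplex (Complex.I + x / m))) := by
  set c : ℂ → ℂ := fun x : ℂ => ((g • ofComplex (Complex.I + x / m) : ℍ) : ℂ) with hc
  have h1 : ContDiffAt ℝ 2 (fun w : ℂ => φ (ofComplex w)) (c x) :=
    h.smooth.contDiffAt (isOpen_uhp.mem_nhds (UpperHalfPlane.im_pos _))
  have h2 := laplacian_conformal h1 (chart_analytic g hx)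
  have e : (fun x : ℂ => φ (g • ofComplex (Complex.I + x / m)))
      = (fun x : ℂ => (fun w : ℂ => φ (ofComplex w)) (c x)) := by
    funext x
    simp only [hc, ofComplex_apply]
  rw [e, h2]
  have h3 := h.eigen (g • ofComplex (Complex.I + x / m))
  have h4 := chart_deriv g (m := m) hx
  rw [if_neg hm, one_mul] at h4
  have hm2 : m ^ 2 ≠ 0 := pow_ne_zero 2 hm
  set L := (Δ (fun w : ℂ => φ (ofComplex w))) (c x) with hL
  have h3' : (g • ofComplex (Complex.I + x / m) : ℍ).im ^ 2 * L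
      = - (m ^ 2 * Real.exp (2 * ρ (g • ofComplex (Complex.I + x / m)))
        * φ (g • ofComplex (Complex.I + x / m))) := h3
  rw [← h4] at h3'
  have h6 : m ^ 2 * (‖deriv c x‖ ^ 2 * L * (Complex.I + x / m).im ^ 2)
      = m ^ 2 * (- (Real.exp (2 * ρ (g • ofComplex (Complex.I + x / m)))
        * φ (g • ofComplex (Complex.I + x / m)))) := by
    rw [hc]
    linear_combination h3'
  exact mul_left_cancel₀ hm2 h6

lemma REig.cutWave_smooth (h : REig ρ φ m) (p : ℍ × ℝ) :
    ContDiff ℝ 2 (fun x => cutWave φ m x p) := by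
  rw [contDiff_iff_contDiffAt]
  intro x
  have hcont : Continuous fun y : ℂ => ‖y / (m : ℂ)‖ := by fun_prop
  rcases lt_or_ge ‖x / (m : ℂ)‖ (3 / 4) with hx | hx
  · unfold cutWave localWave
    refine ContDiffAt.mul ?_ (h.contDiffAt m (frame p) (im_pos_of_norm (by linarith)))
    have h1 : ContDiff ℝ 2 (cut : ℂ → ℝ) := cut.contDiff
    have h2 : ContDiff ℝ 2 fun y : ℂ => y / (m : ℂ) := by fun_prop
    exact (h1.comp h2).contDiffAt
  · have h1 : (fun x => cutWave φ m x p) =ᶠ[𝓝 x] fun _ => (0:ℝ) := by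
      have h2 : ∀ᶠ y in 𝓝 x, 1 / 2 < ‖y / (m : ℂ)‖ :=
        (hcont.tendsto x).eventually (lt_mem_nhds (by linarith))
      filter_upwards [h2] with y hy
      unfold cutWave
      rw [cut_zero hy.le, zero_mul]
    exact contDiffAt_const.congr_of_eventuallyEq h1

/-- the equation for the base wave -/
lemma REig.cutWave_lap (h : REig ρ φ m) (hm : 0 < m) (p : ℍ × ℝ) {x : ℂ} (hx : ‖x‖ / m < 1 / 4) :
    (Δ (fun x => cutWave φ m x p)) x * (Complex.I + x / m).im ^ 2
      = - (Real.exp (2 * ρ (frame p • ofComplex (Complex.I + x / m))) * cutWave φ m x p) := by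
  have hnorm : ‖x / (m : ℂ)‖ = ‖x‖ / m := by
    rw [norm_div, Complex.norm_real, Real.norm_of_nonneg hm.le]
  have hcont : Continuous fun y : ℂ => ‖y / (m : ℂ)‖ := by fun_prop
  have h1 : (fun x => cutWave φ m x p)
      =ᶠ[𝓝 x] fun x => φ (frame p • ofComplex (Complex.I + x / m)) := by
    have h2 : ∀ᶠ y in 𝓝 x, ‖y / (m : ℂ)‖ < 1 / 4 :=
      (hcont.tendsto x).eventually (gt_mem_nhds (by rw [hnorm]; exact hx))
    filter_upwards [h2] with y hy
    exact cutWave_eq hy.le p
  have h3 : (Δ (fun x => cutWave φ m x p)) x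
      = (Δ (fun x : ℂ => φ (frame p • ofComplex (Complex.I + x / m)))) x :=
    (laplacian_congr_nhds h1).self_of_nhds
  have h1' : cutWave φ m x p = φ (frame p • ofComplex (Complex.I + x / m)) := h1.self_of_nhds
  rw [h3, h1']
  exact h.laplacian hm.ne' (frame p) (im_pos_of_norm (by rw [hnorm]; linarith))

/-- the local bound on the Laplacian -/
lemma REig.cutWave_bound (h : REig ρ φ m) (hm : 0 < m) {K : ℝ} (hK : ∀ z, |ρ z| ≤ K) (p : ℍ × ℝ)
    {x : ℂ} (hx : ‖x‖ / m < 1 / 4) :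
    |(Δ (fun x => cutWave φ m x p)) x| ≤ 2 * Real.exp (2 * K) * |cutWave φ m x p| := by
  have h1 := h.cutWave_lap hm p hx
  have hnorm : ‖x / (m : ℂ)‖ = ‖x‖ / m := by
    rw [norm_div, Complex.norm_real, Real.norm_of_nonneg hm.le]
  set t := (Complex.I + x / (m : ℂ)).im with ht
  have ht1 : 3 / 4 ≤ t := by
    have h2 := Complex.abs_im_le_norm (x / m)
    have h3 := neg_abs_le (x / (m : ℂ)).im
    rw [ht, Complex.add_im, Complex.I_im]
    rw [hnorm] at h2
    linarith
  have ht2 : 9 / 16 ≤ t ^ 2 := by nlinarith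
  have h2 := congrArg abs h1
  rw [abs_mul, abs_neg, abs_mul, abs_of_nonneg (by positivity : 0 ≤ t ^ 2),
    abs_of_pos (Real.exp_pos _)] at h2
  have h3 : Real.exp (2 * ρ (frame p • ofComplex (Complex.I + x / m))) ≤ Real.exp (2 * K) :=
    Real.exp_le_exp.2 (by have := (le_abs_self _).trans (hK (frame p • ofComplex (Complex.I + x / m))); linarith)
  have h4 : |(Δ (fun x => cutWave φ m x p)) x| * t ^ 2 ≤ Real.exp (2 * K) * |cutWave φ m x p| := by
    rw [h2]
    exact mul_le_mul_of_nonneg_right h3 (abs_nonneg _)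
  have h5 : |(Δ (fun x => cutWave φ m x p)) x| * (9 / 16)
      ≤ |(Δ (fun x => cutWave φ m x p)) x| * t ^ 2 := mul_le_mul_of_nonneg_left ht2 (abs_nonneg _)
  have h6 : 0 ≤ Real.exp (2 * K) * |cutWave φ m x p| := by positivity
  nlinarith

end

end Berry
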