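import Pool.Agent.LibH11.Berry.RInv3

/-!
The local waves for a conformal metric: test functions, the measure, the equation.
-/

open UpperHalfPlane MeasureTheory ProbabilityTheory MatrixGroups Filter Topology Set
  InnerProductSpace Laplacian
open scoped ENNReal NNReal

namespace Berry

noncomputable section

/-- the product of four variables -/
def pr4 (v : Fin 4 → ℝ) : ℝ := v 0 * v 1 * v 2 * v 3

/-- the product of two variables -/
def pr2 (v : Fin 4 → ℝ) : ℝ := v 0 * v 1

lemma tst_pr4 : Tst pr4 4 := by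
  have hb : ∀ (v : Fin 4 → ℝ) (j : Fin 4), |v j| ≤ ‖v‖ := fun v j => by
    rw [← Real.norm_eq_abs]; exact norm_le_pi_norm v j
  refine ⟨by unfold pr4; fun_prop, fun v v' => ?_, fun v => ?_⟩
  · unfold pr4
    set a := ‖v‖ with ha
    set a' := ‖v'‖ with ha'
    set e := ‖v - v'‖ with he
    have ha0 : 0 ≤ a := norm_nonneg _
    have ha'0 : 0 ≤ a' := norm_nonneg _
    have he0 : 0 ≤ e := norm_nonneg _
    have hd : ∀ j : Fin 4, |v j - v' j| ≤ e := fun j => by
      have := hb (v - v') j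
      rwa [Pi.sub_apply] at this
    have e1 : v 0 * v 1 * v 2 * v 3 - v' 0 * v' 1 * v' 2 * v' 3
        = (v 0 - v' 0) * (v 1 * v 2 * v 3) + (v 1 - v' 1) * (v' 0 * v 2 * v 3)
          + (v 2 - v' 2) * (v' 0 * v' 1 * v 3) + (v 3 - v' 3) * (v' 0 * v' 1 * v' 2) := by ring
    have hM : ∀ x y z : ℝ, |x| ≤ 1 + a + a' → |y| ≤ 1 + a + a' → |z| ≤ 1 + a + a' →
        |x * y * z| ≤ (1 + a + a') ^ 3 := by
      intro x y z hx hy hz
      rw [abs_mul, abs_mul]
      calc |x| * |y| * |z| ≤ (1 + a + a') * (1 + a + a') * (1 + a + a') := by gcongr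
        _ = _ := by ring
    have hv : ∀ j, |v j| ≤ 1 + a + a' := fun j => (hb v j).trans (by linarith)
    have hv' : ∀ j, |v' j| ≤ 1 + a + a' := fun j => (hb v' j).trans (by linarith)
    rw [e1]
    have t : ∀ x y : ℝ, |x| ≤ e → |y| ≤ (1 + a + a') ^ 3 → |x * y| ≤ e * (1 + a + a') ^ 3 := by
      intro x y hx hy
      rw [abs_mul]; gcongr
    have t1 := t _ _ (hd 0) (hM _ _ _ (hv 1) (hv 2) (hv 3))
    have t2 := t _ _ (hd 1) (hM _ _ _ (hv' 0) (hv 2) (hv 3))
    have t3 := t _ _ (hd 2) (hM _ _ _ (hv' 0) (hv' 1) (hv 3))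
    have t4 := t _ _ (hd 3) (hM _ _ _ (hv' 0) (hv' 1) (hv' 2))
    refine (abs_add_le _ _).trans ?_
    have s1 := abs_add_le ((v 0 - v' 0) * (v 1 * v 2 * v 3) + (v 1 - v' 1) * (v' 0 * v 2 * v 3))
      ((v 2 - v' 2) * (v' 0 * v' 1 * v 3))
    have s2 := abs_add_le ((v 0 - v' 0) * (v 1 * v 2 * v 3)) ((v 1 - v' 1) * (v' 0 * v 2 * v 3))
    linarith
  · unfold pr4
    have ha0 : 0 ≤ ‖v‖ := norm_nonneg _
    rw [abs_mul, abs_mul, abs_mul]
    calc |v 0| * |v 1| * |v 2| * |v 3| ≤ ‖v‖ * ‖v‖ * ‖v‖ * ‖v‖ := by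
          gcongr <;> exact hb v _
      _ = ‖v‖ ^ 4 := by ring
      _ ≤ (1 + ‖v‖) ^ 4 := pow_le_pow_left₀ ha0 (by linarith) 4
      _ ≤ 4 * (1 + ‖v‖) ^ 4 := by nlinarith [pow_nonneg (by linarith : 0 ≤ 1 + ‖v‖) 4]

lemma tst_pr2 : Tst pr2 4 := by
  have hb : ∀ (v : Fin 4 → ℝ) (j : Fin 4), |v j| ≤ ‖v‖ := fun v j => by
    rw [← Real.norm_eq_abs]; exact norm_le_pi_norm v j
  refine ⟨by unfold pr2; fun_prop, fun v v' => ?_, fun v => ?_⟩
  · unfold pr2
    set a := ‖v‖ with ha
    set a' := ‖v'‖ with ha'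
    set e := ‖v - v'‖ with he
    have ha0 : 0 ≤ a := norm_nonneg _
    have ha'0 : 0 ≤ a' := norm_nonneg _
    have he0 : 0 ≤ e := norm_nonneg _
    have hd : ∀ j : Fin 4, |v j - v' j| ≤ e := fun j => by
      have := hb (v - v') j
      rwa [Pi.sub_apply] at this
    have e1 : v 0 * v 1 - v' 0 * v' 1 = (v 0 - v' 0) * v 1 + (v 1 - v' 1) * v' 0 := by ring
    rw [e1]
    have t1 : |(v 0 - v' 0) * v 1| ≤ e * a := by
      rw [abs_mul]; exact mul_le_mul (hd 0) (hb v 1) (abs_nonneg _) he0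
    have t2 : |(v 1 - v' 1) * v' 0| ≤ e * a' := by
      rw [abs_mul]; exact mul_le_mul (hd 1) (hb v' 0) (abs_nonneg _) he0
    refine (abs_add_le _ _).trans ?_
    have s : (1:ℝ) ≤ 1 + a + a' := by linarith
    have s3 : 1 + a + a' ≤ (1 + a + a') ^ 3 := by
      calc 1 + a + a' = (1 + a + a') ^ 1 := (pow_one _).symm
        _ ≤ (1 + a + a') ^ 3 := pow_le_pow_right₀ s (by norm_num)
    have s4 : e * (a + a') ≤ e * (1 + a + a') ^ 3 := mul_le_mul_of_nonneg_left (by linarith) he0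
    have s5 : 0 ≤ e * (1 + a + a') ^ 3 := by positivity
    nlinarith
  · unfold pr2
    have ha0 : 0 ≤ ‖v‖ := norm_nonneg _
    rw [abs_mul]
    calc |v 0| * |v 1| ≤ ‖v‖ * ‖v‖ := by gcongr <;> exact hb v _
      _ ≤ (1 + ‖v‖) ^ 2 := by nlinarith
      _ ≤ (1 + ‖v‖) ^ 4 := pow_le_pow_right₀ (by linarith) (by norm_num)
      _ ≤ 4 * (1 + ‖v‖) ^ 4 := by nlinarith [pow_nonneg (by linarith : 0 ≤ 1 + ‖v‖) 4]

variable {Γ : Subgroup SL(2, ℝ)} {ρ : ℍ → ℝ} {D : Set ℍ} {φ : ℕ → ℍ → ℝ} {m : ℕ → ℝ} {B : ℝ}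

/-! ### The measure -/

lemma area_ne_zero [Countable Γ] (hg : Geo Γ ρ D) : area ρ D ≠ 0 := by
  unfold area
  have hm : Measurable fun z => ENNReal.ofReal (Real.exp (2 * ρ z)) :=
    ENNReal.measurable_ofReal.comp
      (Real.continuous_exp.comp (continuous_const.mul hg.unif.continuous)).measurable
  rw [withDensity_apply _ hg.meas]
  intro h0
  rw [lintegral_eq_zero_iff hm] at h0
  have h1 : ∀ᵐ z ∂((volume : Measure ℍ).restrict D), False := by
    filter_upwards [h0] with z hz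
    rw [Pi.zero_apply, ENNReal.ofReal_eq_zero] at hz
    exact absurd hz (not_le.2 (Real.exp_pos _))
  rw [ae_iff] at h1
  simp only [not_false_eq_true, Set.ofPred_true, Measure.restrict_apply_univ] at h1
  exact volume_ne_zero hg.dom h1

lemma area_ne_top (hg : Geo Γ ρ D) : area ρ D ≠ ∞ := by
  unfold area
  rw [withDensity_apply _ hg.meas]
  obtain ⟨K, hK⟩ := hg.bdd
  refine ne_top_of_le_ne_top (b := ENNReal.ofReal (Real.exp (2 * K)) * volume D)
    (ENNReal.mul_ne_top ENNReal.ofReal_ne_top hg.fin) ?_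
  rw [← setLIntegral_const]
  refine lintegral_mono fun z => ENNReal.ofReal_le_ofReal (Real.exp_le_exp.2 ?_)
  have := (le_abs_self _).trans (hK z)
  linarith

lemma angle_prob : IsProbabilityMeasure
    (ProbabilityTheory.cond (volume : Measure ℝ) (Set.Ioc 0 (2 * Real.pi))) := by
  apply ProbabilityTheory.cond_isProbabilityMeasure_of_finite
  · rw [Real.volume_Ioc, Ne, ENNReal.ofReal_eq_zero, not_le, sub_zero]; positivity
  · rw [Real.volume_Ioc]; exact ENNReal.ofReal_ne_top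

lemma rFrameProb_isProb [Countable Γ] (hg : Geo Γ ρ D) : IsProbabilityMeasure (rFrameProb ρ D) := by
  have h1 : IsProbabilityMeasure (ProbabilityTheory.cond (area ρ) D) :=
    ProbabilityTheory.cond_isProbabilityMeasure_of_finite (area_ne_zero hg) (area_ne_top hg)
  have h2 := angle_prob
  unfold rFrameProb
  infer_instance

/-- the density of the random frames -/
lemma rFrame_int [Countable Γ] (hg : Geo Γ ρ D) : ∃ κ : ℝ, 0 < κ ∧ ∀ H : ℍ × ℝ → ℝ,
    ∫ p, H p ∂(rFrameProb ρ D) = κ * ∫ p, Real.exp (2 * ρ p.1) * H p ∂(frameProb D) := by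
  have hv0 := volume_ne_zero hg.dom
  have hvt := hg.fin
  have ha0 := area_ne_zero hg
  have hat := area_ne_top hg
  have hang := angle_prob
  have hcond : IsProbabilityMeasure (ProbabilityTheory.cond (volume : Measure ℍ) D) :=
    ProbabilityTheory.cond_isProbabilityMeasure_of_finite hv0 hvt
  set f : ℍ → ℝ≥0 := fun z => Real.toNNReal (Real.exp (2 * ρ z)) with hf
  have hfm : Measurable f := measurable_real_toNNReal.comp
    (Real.continuous_exp.comp (continuous_const.mul hg.unif.continuous)).measurable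
  have e1 : ProbabilityTheory.cond (area ρ) D
      = ((area ρ D)⁻¹ * volume D) • (ProbabilityTheory.cond (volume : Measure ℍ) D).withDensity
        (fun z => (f z : ℝ≥0∞)) := by
    unfold ProbabilityTheory.cond
    have e2 : (area ρ).restrict D = ((volume : Measure ℍ).restrict D).withDensity
        (fun z => (f z : ℝ≥0∞)) := by
      unfold area
      rw [restrict_withDensity hg.meas]
      rfl
    rw [e2, withDensity_smul_measure, smul_smul, mul_assoc, ENNReal.mul_inv_cancel hv0 hvt, mul_one]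
  refine ⟨((area ρ D)⁻¹ * volume D).toReal, ?_, fun H => ?_⟩
  · apply ENNReal.toReal_pos
    · exact mul_ne_zero (ENNReal.inv_ne_zero.2 hat) hv0
    · exact ENNReal.mul_ne_top (ENNReal.inv_ne_top.2 ha0) hvt
  · unfold rFrameProb frameProb
    rw [e1, Measure.prod_smul_left, integral_smul_measure, smul_eq_mul]
    congr 1
    rw [prod_withDensity_left hfm.coe_nnreal_ennreal]
    have h3 := integral_withDensity_eq_integral_smul (μ := (ProbabilityTheory.cond (volume : Measure ℍ) D).prod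
      (ProbabilityTheory.cond (volume : Measure ℝ) (Set.Ioc 0 (2 * Real.pi))))
      (f := fun p : ℍ × ℝ => f p.1) (hfm.comp measurable_fst) H
    rw [h3]
    congr 1; funext p
    rw [NNReal.smul_def, smul_eq_mul, hf, Real.coe_toNNReal _ (Real.exp_pos _).le]

lemma rFrame_fst [Countable Γ] (hg : Geo Γ ρ D) {f : ℍ → ℝ} (hf : Measurable f) :
    ∫ p, f p.1 ∂(rFrameProb ρ D) = rAvg ρ D f := by
  have h1 : IsProbabilityMeasure (ProbabilityTheory.cond (area ρ) D) :=
    ProbabilityTheory.cond_isProbabilityMeasure_of_finite (area_ne_zero hg) (area_ne_top hg)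
  have h2 := angle_prob
  unfold rFrameProb rAvg
  have h3 := (measurePreserving_fst (μ := ProbabilityTheory.cond (area ρ) D)
    (ν := ProbabilityTheory.cond (volume : Measure ℝ) (Set.Ioc 0 (2 * Real.pi)))).map_eq
  conv_rhs => rw [← h3]
  rw [integral_map measurable_fst.aemeasurable hf.aestronglyMeasurable]

/-- hyperbolic averages are controlled by averages for the metric -/
lemma hyp_le [Countable Γ] (hg : Geo Γ ρ D) : ∃ c : ℝ, 0 ≤ c ∧ ∀ f : ℍ → ℝ, Continuous f →
    (∀ z, 0 ≤ f z) → (∃ C, ∀ z, |f z| ≤ C) →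
    ∫ z, f z ∂(ProbabilityTheory.cond (volume : Measure ℍ) D) ≤ c * rAvg ρ D f := by
  obtain ⟨κ, hκ, hint⟩ := rFrame_int hg
  obtain ⟨K, hK⟩ := hg.bdd
  have hP := frameProb_isProb hg.dom hg.fin
  refine ⟨Real.exp (2 * K) / κ, by positivity, fun f hf hf0 hfb => ?_⟩
  obtain ⟨C, hC⟩ := hfb
  have h1 := hint fun p => f p.1
  rw [rFrame_fst hg hf.measurable] at h1
  rw [h1, ← frame_fst hg.dom hg.fin hf.measurable]
  have h2 : ∫ p, f p.1 ∂(frameProb D)
      ≤ ∫ p, Real.exp (2 * K) * (Real.exp (2 * ρ p.1) * f p.1) ∂(frameProb D) := by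
    refine integral_mono_of_nonneg (Eventually.of_forall fun p => hf0 _) ?_
      (Eventually.of_forall fun p => ?_)
    · apply Integrable.const_mul
      refine integrable_bdd (C := Real.exp (2 * K) * C) ?_ fun p => ?_
      · exact ((Real.continuous_exp.comp (continuous_const.mul
          (hg.unif.continuous.comp continuous_fst))).mul (hf.comp continuous_fst)).measurable
      · rw [abs_mul, abs_of_pos (Real.exp_pos _)]
        refine mul_le_mul (Real.exp_le_exp.2 ?_) (hC _) (abs_nonneg _) (Real.exp_pos _).le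
        have := (le_abs_self _).trans (hK p.1)
        linarith
    · have h3 : 1 ≤ Real.exp (2 * K) * Real.exp (2 * ρ p.1) := by
        rw [← Real.exp_add]
        apply Real.one_le_exp
        have := (abs_le.1 (hK p.1)).1
        linarith
      have h4 := hf0 p.1
      simp only
      nlinarith
  rw [integral_const_mul] at h2
  refine h2.trans (le_of_eq ?_)
  field_simp

/-! ### The scaled wave -/

/-- the local wave, cut off far away -/
def sW (ρ : ℍ → ℝ) (φ : ℍ → ℝ) (m : ℝ) (x : ℂ) (p : ℍ × ℝ) : ℝ :=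
  cutWave φ m (x / (Real.exp (ρ p.1) : ℂ)) p

lemma Dat.sW_single (h : Dat Γ ρ D φ m B) (n : ℕ) (P : Measure (ℍ × ℝ)) :
    SingleW P (sW ρ (φ n) (m n)) := by
  obtain ⟨C, hC⟩ := h.bdd n
  refine ⟨fun x => h.scaled_meas n x, fun p => ?_, C, fun x p => cutWave_bdd hC _ _ _⟩
  have h1 := (h.reig n).cutWave_smooth p
  have h2 : ContDiff ℝ 2 fun x : ℂ => x / (Real.exp (ρ p.1) : ℂ) := by
    simp only [div_eq_mul_inv]
    exact contDiff_id.mul contDiff_const
  exact h1.comp h2

/-- the approximate Helmholtz equation for the local waves -/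
lemma Dat.sW_eqn (h : Dat Γ ρ D φ m B) (r : ℝ) {δ : ℝ} (hδ : 0 < δ) :
    ∀ᶠ n in atTop, ∀ p, ∀ x ∈ Metric.ball (0:ℂ) r,
      |(Δ (fun x => sW ρ (φ n) (m n) x p)) x + sW ρ (φ n) (m n) x p|
        ≤ δ * |sW ρ (φ n) (m n) x p| := by
  obtain ⟨K, hK⟩ := h.geo.bdd
  have hK0 : 0 ≤ K := (abs_nonneg _).trans (hK I)
  obtain ⟨δ₂, hδ₂, hρ⟩ := Metric.uniformContinuous_iff.1 h.geo.unif (min (δ / 16) (1 / 2))
    (by positivity)
  -- continuity of the chart at `i`
  have hcont : ContinuousAt (fun ζ : ℂ => (ofComplex (Complex.I + ζ) : ℍ)) 0 := by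
    have h4 : ContinuousAt (ofComplex : ℂ → ℍ) (Complex.I + 0) := by
      rw [add_zero]
      exact (contMDiffAt_ofComplex (n := 0) (z := Complex.I) (by simp)).continuousAt
    exact ContinuousAt.comp (f := fun ζ : ℂ => Complex.I + ζ) (g := (ofComplex : ℂ → ℍ)) h4
      (by fun_prop)
  have e0 : (ofComplex (Complex.I + 0) : ℍ) = I := by
    rw [add_zero]
    have : (Complex.I : ℂ) = ((I : ℍ) : ℂ) := rfl
    rw [this, ofComplex_apply]
  obtain ⟨κ, hκ, hch⟩ := Metric.continuousAt_iff.1 hcont δ₂ hδ₂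
  set R := |r| * Real.exp K with hR
  have hlim := h.eig.tendsto.const_div_atTop R
  filter_upwards [h.eig.tendsto.eventually_gt_atTop 0,
    hlim.eventually (gt_mem_nhds (show (0:ℝ) < min (1 / 4) (min κ (δ / 8)) by positivity))]
    with n hm hn p x hx
  rw [Metric.mem_ball, dist_zero_right] at hx
  have hn1 : R / m n < 1 / 4 := lt_of_lt_of_le hn (min_le_left _ _)
  have hn2 : R / m n < κ := lt_of_lt_of_le hn ((min_le_right _ _).trans (min_le_left _ _))
  have hn3 : R / m n < δ / 8 := lt_of_lt_of_le hn ((min_le_right _ _).trans (min_le_right _ _))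
  set c : ℝ := Real.exp (ρ p.1) with hc
  have hc0 : 0 < c := Real.exp_pos _
  have hcC : (c : ℂ) ≠ 0 := by
    rw [Ne, Complex.ofReal_eq_zero]; exact hc0.ne'
  set y : ℂ := x / (c : ℂ) with hy
  have hyn : ‖y‖ ≤ R := by
    rw [hy, norm_div, Complex.norm_real, Real.norm_of_nonneg hc0.le, div_eq_mul_inv, hc,
      ← Real.exp_neg, hR]
    have a1 : Real.exp (-ρ p.1) ≤ Real.exp K :=
      Real.exp_le_exp.2 (by have := (abs_le.1 (hK p.1)).1; linarith)
    exact mul_le_mul (hx.le.trans (le_abs_self r)) a1 (Real.exp_pos _).le (abs_nonneg _)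
  have hym : ‖y‖ / m n ≤ R / m n := div_le_div_of_nonneg_right hyn hm.le
  have hnorm : ‖y / (m n : ℂ)‖ = ‖y‖ / m n := by
    rw [norm_div, Complex.norm_real, Real.norm_of_nonneg hm.le]
  -- the Laplacian
  have h1 := (h.reig n).cutWave_smooth p
  have hA : AnalyticAt ℂ (fun x : ℂ => x / (c : ℂ)) x := analyticAt_id.div_const
  have h2 := laplacian_conformal (f := fun y => cutWave (φ n) (m n) y p)
    (h := fun x : ℂ => x / (c : ℂ)) (w := x) h1.contDiffAt hA
  have hder : deriv (fun x : ℂ => x / (c : ℂ)) x = 1 / (c : ℂ) :=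
    ((hasDerivAt_id x).div_const (c : ℂ)).deriv
  rw [hder] at h2
  have h3 : (Δ (fun x => sW ρ (φ n) (m n) x p)) x
      = ‖1 / (c : ℂ)‖ ^ 2 * (Δ (fun y => cutWave (φ n) (m n) y p)) y := h2
  have h4 := (h.reig n).cutWave_lap hm p (x := y) (by linarith)
  set t := (Complex.I + y / (m n : ℂ)).im with ht
  set w : ℍ := frame p • ofComplex (Complex.I + y / (m n : ℂ)) with hw
  set A := cutWave (φ n) (m n) y p with hAdef
  have hsA : sW ρ (φ n) (m n) x p = A := rfl
  have ht1 : |t - 1| ≤ R / m n := by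
    have e : t - 1 = (y / (m n : ℂ)).im := by
      rw [ht, Complex.add_im, Complex.I_im]; ring
    rw [e]
    refine (Complex.abs_im_le_norm _).trans ?_
    rw [hnorm]; exact hym
  obtain ⟨ht2, ht3⟩ := abs_le.1 ht1
  have ht4 : 3 / 4 ≤ t := by linarith
  have ht5 : t ^ 2 ≠ 0 := by positivity
  -- the conformal factor
  have hdist : dist w (p.1 : ℍ) < δ₂ := by
    have q : dist w (p.1 : ℍ) = dist w (frame p • I) := by rw [frame_smul_I]
    rw [q, hw, dist_smul]
    have := hch (x := y / (m n : ℂ)) (by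
      rw [dist_zero_right, hnorm]; linarith)
    simp only [e0] at this
    exact this
  have hb := hρ hdist
  rw [Real.dist_eq] at hb
  set b := ρ w - ρ p.1 with hbdef
  have hb1 : |b| < δ / 16 := lt_of_lt_of_le hb (min_le_left _ _)
  have hb2 : |b| < 1 / 2 := lt_of_lt_of_le hb (min_le_right _ _)
  have h5 : (Δ (fun x => sW ρ (φ n) (m n) x p)) x = - (Real.exp (2 * b) / t ^ 2) * A := by
    rw [h3]
    have h6 : (Δ (fun y => cutWave (φ n) (m n) y p)) y = - (Real.exp (2 * ρ w) * A) / t ^ 2 := by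
      rw [eq_div_iff ht5]; exact h4
    rw [h6]
    have h7 : ‖1 / (c : ℂ)‖ ^ 2 = Real.exp (-(2 * ρ p.1)) := by
      rw [norm_div, norm_one, Complex.norm_real, Real.norm_of_nonneg hc0.le, hc, one_div,
        ← Real.exp_neg, ← Real.exp_nat_mul]
      congr 1; push_cast; ring
    have h8 : Real.exp (2 * b) = Real.exp (-(2 * ρ p.1)) * Real.exp (2 * ρ w) := by
      rw [← Real.exp_add]; congr 1; rw [hbdef]; ring
    rw [h7, h8]; ring
  rw [hsA, h5]
  have h9 : - (Real.exp (2 * b) / t ^ 2) * A + A = ((t ^ 2 - Real.exp (2 * b)) / t ^ 2) * A := by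
    field_simp; ring
  rw [h9, abs_mul]
  refine mul_le_mul_of_nonneg_right ?_ (abs_nonneg _)
  rw [abs_div, abs_of_pos (by positivity : 0 < t ^ 2), div_le_iff₀ (by positivity)]
  have h10 : |t ^ 2 - 1| ≤ (R / m n) * (9 / 4) := by
    have e : t ^ 2 - 1 = (t - 1) * (t + 1) := by ring
    rw [e, abs_mul, abs_of_pos (by linarith : 0 < t + 1)]
    exact mul_le_mul ht1 (by linarith) (by linarith) ((abs_nonneg _).trans ht1)
  have h11 : |Real.exp (2 * b) - 1| ≤ 2 * |2 * b| :=
    Real.abs_exp_sub_one_le (by rw [abs_mul, abs_two]; linarith)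
  rw [abs_mul, abs_two] at h11
  have h12 : |t ^ 2 - Real.exp (2 * b)| ≤ |t ^ 2 - 1| + |Real.exp (2 * b) - 1| := by
    have e : t ^ 2 - Real.exp (2 * b) = (t ^ 2 - 1) - (Real.exp (2 * b) - 1) := by ring
    rw [e]; exact abs_sub _ _
  have h13 : (9:ℝ) / 16 ≤ t ^ 2 := by nlinarith
  nlinarith

end

end Berry
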