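import Pool.Agent.LibH11.Berry.RFin1

/-!
The local waves for a conformal metric are asymptotically translation invariant waves.
-/

open UpperHalfPlane MeasureTheory ProbabilityTheory MatrixGroups Filter Topology Set
  InnerProductSpace Laplacian
open scoped ENNReal NNReal

namespace Berry

noncomputable section

variable {Γ : Subgroup SL(2, ℝ)} {ρ : ℍ → ℝ} {D : Set ℍ} {φ : ℕ → ℍ → ℝ} {m : ℕ → ℝ} {B : ℝ}

/-- equicontinuity of the averages of the local waves -/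
lemma Dat.TF_equi [Countable Γ] (h : Dat Γ ρ D φ m B) {Φ : (Fin 4 → ℝ) → ℝ} {L : ℝ}
    (hΦ : Tst Φ L) (X : ℝ) {ε : ℝ} (hε : 0 < ε) : ∃ d > 0, ∀ᶠ n in atTop, ∀ x x' : Fin 4 → ℂ,
      (∀ j, ‖x j‖ ≤ X) → (∀ j, ‖x' j‖ ≤ X) → (∀ j, ‖x' j - x j‖ < d) →
        |TF D ρ φ m Φ n x - TF D ρ φ m Φ n x'| ≤ ε := by
  have hP := h.prob
  have hρc : Continuous ρ := h.geo.unif.continuous
  obtain ⟨K, hK⟩ := h.geo.bdd
  have hK0 : 0 ≤ K := (abs_nonneg _).trans (hK I)
  set r := Real.exp K * |X| + 1 with hr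
  set V := (volume : Measure ℂ).real (Metric.ball (0:ℂ) (r + 1)) with hV
  have hV0 : 0 ≤ V := measureReal_nonneg
  have hB0 := h.B_nonneg
  set Q := 1 + V * B with hQ
  have hQ0 : 0 < Q := by positivity
  obtain ⟨d, hd, hmod⟩ := h.tmod hΦ (η := ε / (Real.exp (2 * K) * Q)) (by positivity)
  refine ⟨d / Real.exp K, by positivity, ?_⟩
  filter_upwards [hmod r, h.Nn_mean (r + 1)] with n hn hn2 x x' hx hx' hxx
  obtain ⟨CN, hCN⟩ := h.tst_bdd hΦ n
  have hCN0 : 0 ≤ CN := (abs_nonneg _).trans (hCN 0 (I, 0))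
  have hscale : ∀ (p : ℍ × ℝ) (z : ℂ), ‖z / (Real.exp (ρ p.1) : ℂ)‖ ≤ Real.exp K * ‖z‖ := by
    intro p z
    rw [norm_div, Complex.norm_real, Real.norm_of_nonneg (Real.exp_pos _).le, div_eq_mul_inv,
      ← Real.exp_neg, mul_comm]
    exact mul_le_mul_of_nonneg_right (Real.exp_le_exp.2
      (by have := (abs_le.1 (hK p.1)).1; linarith)) (norm_nonneg _)
  have iE : ∀ y : Fin 4 → ℂ, Integrable (fun p : ℍ × ℝ => Real.exp (2 * ρ p.1)
      * Φ (fun j => cutWave (φ n) (m n) (y j / (Real.exp (ρ p.1) : ℂ)) p)) (frameProb D) := by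
    intro y
    have mE : Measurable fun p : ℍ × ℝ => Real.exp (2 * ρ p.1) :=
      (Real.continuous_exp.comp (continuous_const.mul (hρc.comp continuous_fst))).measurable
    refine integrable_bdd (C := Real.exp (2 * K) * CN) (mE.mul (h.tst_meas' hΦ.cont n y)) fun p => ?_
    rw [abs_mul, abs_of_pos (Real.exp_pos _)]
    refine mul_le_mul (Real.exp_le_exp.2 ?_) (hCN (fun j => y j / (Real.exp (ρ p.1) : ℂ)) p)
      (abs_nonneg _) (Real.exp_pos _).le
    have := (le_abs_self _).trans (hK p.1)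
    linarith
  have iN : Integrable (fun p => 1 + Nn φ m (r + 1) n p) (frameProb D) :=
    (integrable_const _).add (h.Nn_int (r + 1) n)
  have hEN : ∫ p, (1 + Nn φ m (r + 1) n p) ∂(frameProb D) ≤ Q := by
    rw [integral_add (integrable_const _) (h.Nn_int (r + 1) n)]
    simp only [integral_const, probReal_univ, smul_eq_mul, one_mul]
    rw [hQ]; linarith
  have hpw : ∀ p : ℍ × ℝ, ‖Real.exp (2 * ρ p.1)
      * Φ (fun j => cutWave (φ n) (m n) (x j / (Real.exp (ρ p.1) : ℂ)) p)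
      - Real.exp (2 * ρ p.1)
      * Φ (fun j => cutWave (φ n) (m n) (x' j / (Real.exp (ρ p.1) : ℂ)) p)‖
      ≤ (ε / Q) * (1 + Nn φ m (r + 1) n p) := by
    intro p
    set N1 := 1 + Nn φ m (r + 1) n p with hN1
    have hN0 : 0 ≤ N1 := by
      have := Nn_nonneg (φ := φ) (m := m) (r + 1) n p; linarith
    rw [← mul_sub, norm_mul, Real.norm_of_nonneg (Real.exp_pos _).le, Real.norm_eq_abs]
    have hXa : ∀ z : ℂ, ‖z‖ ≤ X → ‖z / (Real.exp (ρ p.1) : ℂ)‖ < r := by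
      intro z hz
      have := hscale p z
      have h2 : Real.exp K * ‖z‖ ≤ Real.exp K * |X| :=
        mul_le_mul_of_nonneg_left (hz.trans (le_abs_self X)) (Real.exp_pos _).le
      rw [hr]; linarith
    have h1 := hn p (fun j => x j / (Real.exp (ρ p.1) : ℂ)) (fun j => x' j / (Real.exp (ρ p.1) : ℂ))
      (fun j => hXa _ (hx j)) (fun j => hXa _ (hx' j)) (fun j => by
        show ‖x' j / (Real.exp (ρ p.1) : ℂ) - x j / (Real.exp (ρ p.1) : ℂ)‖ < d
        rw [← sub_div]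
        refine lt_of_le_of_lt (hscale p _) ?_
        have := hxx j
        rw [lt_div_iff₀ (Real.exp_pos _)] at this
        linarith)
    have a1 : Real.exp (2 * ρ p.1) ≤ Real.exp (2 * K) :=
      Real.exp_le_exp.2 (by have := (le_abs_self _).trans (hK p.1); linarith)
    calc _ ≤ Real.exp (2 * K) * ((ε / (Real.exp (2 * K) * Q)) * N1) :=
          mul_le_mul a1 h1 (abs_nonneg _) (Real.exp_pos _).le
      _ = (ε / Q) * N1 := by field_simp
  unfold TF
  rw [← integral_sub (iE x) (iE x'), ← Real.norm_eq_abs]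
  refine (norm_integral_le_of_norm_le (iN.const_mul _) (Eventually.of_forall hpw)).trans ?_
  rw [integral_const_mul]
  calc (ε / Q) * ∫ p, (1 + Nn φ m (r + 1) n p) ∂(frameProb D) ≤ (ε / Q) * Q :=
        mul_le_mul_of_nonneg_left hEN (by positivity)
    _ = ε := by field_simp

/-- the fourth moments are bounded locally uniformly -/
lemma Dat.TF_bound [Countable Γ] (h : Dat Γ ρ D φ m B) (R : ℝ) : ∀ᶠ n in atTop,
    ∀ x ∈ Metric.ball (0:ℂ) R, TF D ρ φ m pr4 n (fun _ => x) ≤ TF D ρ φ m pr4 n (fun _ => 0) + 1 := by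
  obtain ⟨d, hd, heq⟩ := h.TF_equi tst_pr4 |R| (ε := 1 / 2) (by norm_num)
  have hcpt : IsCompact (Metric.closedBall (0:ℂ) |R|) := isCompact_closedBall _ _
  obtain ⟨S, hSK, hSf, hcov⟩ := hcpt.finite_cover_balls hd
  have h1 : ∀ᶠ n in atTop, ∀ s ∈ S, |TF D ρ φ m pr4 n (fun _ => 0 + s)
      - TF D ρ φ m pr4 n (fun _ => 0)| ≤ 1 / 2 := by
    rw [eventually_all_finite hSf]
    intro s _
    have h2 := Metric.tendsto_nhds.1 (h.shift tst_pr4 (fun _ => 0) s) (1 / 2) (by norm_num)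
    filter_upwards [h2] with n hn
    rw [dist_zero_right, Real.norm_eq_abs] at hn
    exact hn.le
  filter_upwards [heq, h1] with n hn hn1 x hx
  have hxR : ‖x‖ ≤ |R| := by
    rw [Metric.mem_ball, dist_zero_right] at hx
    exact hx.le.trans (le_abs_self R)
  have hxc : x ∈ Metric.closedBall (0:ℂ) |R| := by
    rw [Metric.mem_closedBall, dist_zero_right]; exact hxR
  have h3 := hcov hxc
  simp only [Set.mem_iUnion, exists_prop] at h3
  obtain ⟨s, hs, hxs⟩ := h3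
  rw [Metric.mem_ball, dist_eq_norm] at hxs
  have hsR : ‖s‖ ≤ |R| := by
    have := hSK hs
    rwa [Metric.mem_closedBall, dist_zero_right] at this
  have a1 := hn (fun _ => x) (fun _ => s) (fun _ => hxR) (fun _ => hsR)
    (fun _ => by rw [norm_sub_rev]; exact hxs)
  have a2 := hn1 s hs
  simp only [zero_add] at a2
  have b1 := (abs_le.1 a1).2
  have b2 := (abs_le.1 a2).2
  linarith

/-- a diagonal argument -/
lemma diag_seq {Q : ℕ → ℕ → Prop} (h0 : ∀ n, Q n 0) (h : ∀ k, ∀ᶠ n in atTop, Q n k) :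
    ∃ R : ℕ → ℕ, Tendsto R atTop atTop ∧ ∀ n, Q n (R n) := by
  classical
  refine ⟨fun n => Nat.findGreatest (Q n) n, ?_, fun n => ?_⟩
  · rw [tendsto_atTop]
    intro k
    filter_upwards [h k, eventually_ge_atTop k] with n hn hk
    exact Nat.le_findGreatest hk hn
  · exact Nat.findGreatest_spec (Nat.zero_le n) (h0 n)

/-- the local waves cut off at a radius `R n` -/
def wW (ρ : ℍ → ℝ) (φ : ℕ → ℍ → ℝ) (m : ℕ → ℝ) (R : ℕ → ℕ) (n : ℕ) (x : ℂ) (p : ℍ × ℝ) : ℝ :=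
  cut (x / (R n : ℂ)) * sW ρ (φ n) (m n) x p

lemma wW_eq {R : ℕ → ℕ} (hR : Tendsto R atTop atTop) (r : ℝ) : ∀ᶠ n in atTop, ∀ x : ℂ, ‖x‖ ≤ r →
    ∀ p, wW ρ φ m R n x p = sW ρ (φ n) (m n) x p := by
  have hR' : Tendsto (fun n => (R n : ℝ)) atTop atTop := tendsto_natCast_atTop_atTop.comp hR
  filter_upwards [(hR'.const_div_atTop r).eventually
    (gt_mem_nhds (show (0:ℝ) < 1 / 4 by norm_num)), hR'.eventually_gt_atTop 0] with n hn hm x hx p
  unfold wW
  rw [cut_one, one_mul]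
  rw [norm_div, Complex.norm_natCast]
  exact (div_le_div_of_nonneg_right hx hm.le).trans hn.le

lemma sW_zero (φ : ℍ → ℝ) (k : ℝ) (p : ℍ × ℝ) : sW ρ φ k 0 p = φ p.1 := by
  unfold sW
  rw [zero_div, cutWave_eq (by simp)]
  unfold localWave
  have : (ofComplex (Complex.I + (0:ℂ) / (k : ℂ)) : ℍ) = I := by
    rw [zero_div, add_zero]
    have : (Complex.I : ℂ) = ((I : ℍ) : ℂ) := rfl
    rw [this, ofComplex_apply]
  rw [this, frame_smul_I]

/-- correlation functions in terms of the weighted averages -/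
lemma c4_TF {κ : ℝ} (hint : ∀ H : ℍ × ℝ → ℝ,
    ∫ p, H p ∂(rFrameProb ρ D) = κ * ∫ p, Real.exp (2 * ρ p.1) * H p ∂(frameProb D))
    (n : ℕ) (x₁ x₂ x₃ x₄ : ℂ) :
    c4 (rFrameProb ρ D) (fun n => sW ρ (φ n) (m n)) n x₁ x₂ x₃ x₄
      = κ * TF D ρ φ m pr4 n ![x₁, x₂, x₃, x₄] := by
  unfold c4 TF
  rw [hint]
  congr 2

lemma c2_TF {κ : ℝ} (hint : ∀ H : ℍ × ℝ → ℝ,
    ∫ p, H p ∂(rFrameProb ρ D) = κ * ∫ p, Real.exp (2 * ρ p.1) * H p ∂(frameProb D))
    (n : ℕ) (x₁ x₂ : ℂ) :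
    c2 (rFrameProb ρ D) (fun n => sW ρ (φ n) (m n)) n x₁ x₂
      = κ * TF D ρ φ m pr2 n ![x₁, x₂, 0, 0] := by
  unfold c2 TF
  rw [hint]
  congr 2

/-- **the local waves, suitably cut off, are asymptotically invariant waves** -/
theorem Dat.aWave [Countable Γ] (h : Dat Γ ρ D φ m B) {B₁ : ℝ}
    (hB₁ : ∀ n, rAvg ρ D (fun z => φ n z ^ 4) ≤ B₁) : ∃ (R : ℕ → ℕ) (B' : ℝ),
      Tendsto R atTop atTop ∧ AWave (rFrameProb ρ D) (wW ρ φ m R) B' := by
  have hP := h.prob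
  have hPr := rFrameProb_isProb h.geo
  obtain ⟨κ, hκ, hint⟩ := rFrame_int h.geo
  set F : ℕ → ℂ → ℍ × ℝ → ℝ := fun n => sW ρ (φ n) (m n) with hF
  have hTF0 : ∀ n, κ * TF D ρ φ m pr4 n (fun _ => 0) = rAvg ρ D (fun z => φ n z ^ 4) := by
    intro n
    have h1 : Continuous fun z => φ n z ^ 4 := (h.reig n).continuous.pow 4
    rw [← rFrame_fst h.geo h1.measurable, hint]
    unfold TF
    congr 2; funext p
    congr 1
    have e : ∀ p : ℍ × ℝ, cutWave (φ n) (m n) ((0:ℂ) / (Real.exp (ρ p.1) : ℂ)) p = φ n p.1 :=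
      fun p => sW_zero (φ n) (m n) p
    unfold pr4
    simp only [e]
    ring
  have hTFx : ∀ n x, κ * TF D ρ φ m pr4 n (fun _ => x) = ∫ p, F n x p ^ 4 ∂(rFrameProb ρ D) := by
    intro n x
    rw [hint]
    unfold TF
    congr 2; funext p
    congr 1
    unfold pr4
    show _ = sW ρ (φ n) (m n) x p ^ 4
    unfold sW
    ring
  set B' := |B₁| + κ with hB'
  have hB'0 : 0 ≤ B' := by positivity
  set Q : ℕ → ℕ → Prop := fun n k => ∀ x ∈ Metric.ball (0:ℂ) k,
    ∫ p, F n x p ^ 4 ∂(rFrameProb ρ D) ≤ B' with hQ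
  obtain ⟨R, hR, hRQ⟩ := diag_seq (Q := Q) (fun n x hx => by
    simp at hx) (fun k => by
      filter_upwards [h.TF_bound k] with n hn x hx
      rw [← hTFx]
      have h1 := mul_le_mul_of_nonneg_left (hn x hx) hκ.le
      rw [mul_add, hTF0, mul_one] at h1
      have h2 := (hB₁ n).trans (le_abs_self B₁)
      linarith)
  have hR' : Tendsto (fun n => (R n : ℝ)) atTop atTop := tendsto_natCast_atTop_atTop.comp hR
  refine ⟨R, B', hR, ⟨⟨?_, ?_⟩, ?_, ?_⟩⟩
  · filter_upwards [hR'.eventually_gt_atTop 0] with n hRn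
    have hs := h.sW_single n (rFrameProb ρ D)
    obtain ⟨C, hC⟩ := hs.bdd
    refine ⟨⟨fun x => (hs.meas x).const_mul _, fun p => ?_, C, fun x p => ?_⟩, fun x => ?_⟩
    · unfold wW
      refine ContDiff.mul ?_ (hs.smooth p)
      have h1 : ContDiff ℝ 2 (cut : ℂ → ℝ) := cut.contDiff
      have h2 : ContDiff ℝ 2 fun x : ℂ => x / (R n : ℂ) := by
        simp only [div_eq_mul_inv]
        exact contDiff_id.mul contDiff_const
      exact h1.comp h2
    · unfold wW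
      rw [abs_mul, abs_of_nonneg cut.nonneg]
      calc cut (x / (R n : ℂ)) * |sW ρ (φ n) (m n) x p| ≤ 1 * C :=
            mul_le_mul cut.le_one (hC x p) (abs_nonneg _) zero_le_one
        _ = C := one_mul C
    · by_cases hx : x ∈ Metric.ball (0:ℂ) (R n)
      · refine le_trans ?_ (hRQ n x hx)
        refine integral_mono_of_nonneg (Eventually.of_forall fun p => by positivity)
          (hs.int4 x) (Eventually.of_forall fun p => ?_)
        simp only [wW]
        rw [mul_pow]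
        have h1 : cut (x / (R n : ℂ)) ^ 4 ≤ 1 := pow_le_one₀ cut.nonneg cut.le_one
        have h2 : 0 ≤ sW ρ (φ n) (m n) x p ^ 4 := by positivity
        show cut (x / (R n : ℂ)) ^ 4 * sW ρ (φ n) (m n) x p ^ 4 ≤ sW ρ (φ n) (m n) x p ^ 4
        nlinarith
      · have h1 : ∀ p, wW ρ φ m R n x p = 0 := by
          intro p
          unfold wW
          rw [cut_zero, zero_mul]
          rw [Metric.mem_ball, dist_zero_right, not_lt] at hx
          rw [norm_div, Complex.norm_natCast, le_div_iff₀ hRn]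
          linarith
        simp only [h1]
        simpa using hB'0
  · intro r δ hδ
    filter_upwards [h.sW_eqn r hδ, wW_eq (ρ := ρ) (φ := φ) (m := m) hR (r + 1)] with n hn hn2 p x hx
    rw [Metric.mem_ball, dist_zero_right] at hx
    have h1 : (fun x => wW ρ φ m R n x p) =ᶠ[𝓝 x] fun x => sW ρ (φ n) (m n) x p := by
      have h2 : ∀ᶠ y in 𝓝 x, ‖y‖ < r + 1 :=
        (continuous_norm.tendsto x).eventually (gt_mem_nhds (by linarith))
      filter_upwards [h2] with y hy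
      exact hn2 y hy.le p
    have h3 : (Δ (fun x => wW ρ φ m R n x p)) x = (Δ (fun x => sW ρ (φ n) (m n) x p)) x :=
      (laplacian_congr_nhds h1).self_of_nhds
    have h4 : wW ρ φ m R n x p = sW ρ (φ n) (m n) x p := h1.self_of_nhds
    rw [h3, h4]
    exact hn p x (by rw [Metric.mem_ball, dist_zero_right]; exact hx)
  · intro x₁ x₂ x₃ x₄ s
    have hc : ∀ y₁ y₂ y₃ y₄ : ℂ, ∀ᶠ n in atTop, c4 (rFrameProb ρ D) (wW ρ φ m R) n y₁ y₂ y₃ y₄
        = κ * TF D ρ φ m pr4 n ![y₁, y₂, y₃, y₄] := by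
      intro y₁ y₂ y₃ y₄
      filter_upwards [wW_eq (ρ := ρ) (φ := φ) (m := m) hR ‖y₁‖,
        wW_eq (ρ := ρ) (φ := φ) (m := m) hR ‖y₂‖, wW_eq (ρ := ρ) (φ := φ) (m := m) hR ‖y₃‖,
        wW_eq (ρ := ρ) (φ := φ) (m := m) hR ‖y₄‖] with n h1 h2 h3 h4
      rw [← c4_TF hint]
      unfold c4
      congr 1; funext p
      rw [h1 y₁ le_rfl, h2 y₂ le_rfl, h3 y₃ le_rfl, h4 y₄ le_rfl]
    have h1 := (h.shift tst_pr4 ![x₁, x₂, x₃, x₄] s).const_mul κ
    rw [mul_zero] at h1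
    refine h1.congr' ?_
    filter_upwards [hc (x₁ + s) (x₂ + s) (x₃ + s) (x₄ + s), hc x₁ x₂ x₃ x₄] with n k1 k2
    rw [k1, k2, mul_sub]
    have e : (fun j => (![x₁, x₂, x₃, x₄] : Fin 4 → ℂ) j + s)
        = ![x₁ + s, x₂ + s, x₃ + s, x₄ + s] := by
      funext j; fin_cases j <;> rfl
    rw [e]
  · intro x₁ x₂ s
    have hc : ∀ y₁ y₂ : ℂ, ∀ᶠ n in atTop, c2 (rFrameProb ρ D) (wW ρ φ m R) n y₁ y₂
        = κ * TF D ρ φ m pr2 n ![y₁, y₂, 0, 0] := by
      intro y₁ y₂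
      filter_upwards [wW_eq (ρ := ρ) (φ := φ) (m := m) hR ‖y₁‖,
        wW_eq (ρ := ρ) (φ := φ) (m := m) hR ‖y₂‖] with n h1 h2
      rw [← c2_TF hint]
      unfold c2
      congr 1; funext p
      rw [h1 y₁ le_rfl, h2 y₂ le_rfl]
    have h1 := (h.shift tst_pr2 ![x₁, x₂, 0, 0] s).const_mul κ
    rw [mul_zero] at h1
    refine h1.congr' ?_
    filter_upwards [hc (x₁ + s) (x₂ + s), hc x₁ x₂] with n k1 k2
    rw [k1, k2, mul_sub]
    have e : TF D ρ φ m pr2 n (fun j => (![x₁, x₂, 0, 0] : Fin 4 → ℂ) j + s)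
        = TF D ρ φ m pr2 n ![x₁ + s, x₂ + s, 0, 0] := by
      unfold TF pr2
      rfl
    rw [e]

end

end Berry
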