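import Pool.Agent.LibH11.Berry.AUp
import Pool.Agent.LibH11.Berry.RFinal

/-!
Fourth moments of Laplace eigenfunctions on closed surfaces against local masses at the scale of the
wavelength, and the equivalence of Gaussian four-point correlations with Planck-scale quantum
ergodicity.
-/

open UpperHalfPlane MeasureTheory ProbabilityTheory MatrixGroups Filter Topology Set
  InnerProductSpace Laplacian
open scoped ENNReal NNReal Pointwise

namespace Berry

noncomputable section

section Spatial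

variable {Ω : Type*} [MeasurableSpace Ω] {P : Measure Ω} [IsProbabilityMeasure P]

omit [IsProbabilityMeasure P] in
lemma SingleW.spatial_meas {F : ℂ → Ω → ℝ} (hF : SingleW P F) (a : ℂ) (R : ℝ) :
    Measurable (spatialAvg F a R) ∧ ∃ C : ℝ, ∀ ω, |spatialAvg F a R ω| ≤ C := by
  have := ball_finite R
  obtain ⟨K, hK⟩ := hF.bdd
  have hm := hF.meas_uncurry
  have hgm : Measurable (Function.uncurry fun (ω : Ω) (s : ℂ) => F s ω * F (s + a) ω) := by
    have h1 : Measurable fun p : Ω × ℂ => F p.2 p.1 := hm.comp measurable_swap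
    have h2 : Measurable fun p : Ω × ℂ => F (p.2 + a) p.1 := by
      have h3 : Measurable fun p : Ω × ℂ => (p.2 + a, p.1) := by fun_prop
      exact hm.comp h3
    exact h1.mul h2
  have hI : Measurable fun ω => ∫ s in Metric.ball (0:ℂ) R, F s ω * F (s + a) ω :=
    (hgm.stronglyMeasurable.integral_prod_right'
      (ν := (volume : Measure ℂ).restrict (Metric.ball 0 R))).measurable
  set w : ℝ := ((volume : Measure ℂ).real (Metric.ball (0:ℂ) R))⁻¹ with hw
  have e1 : ∀ ω, spatialAvg F a R ω = w * ∫ s in Metric.ball (0:ℂ) R, F s ω * F (s + a) ω := by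
    intro ω
    unfold spatialAvg
    rw [setAverage_eq, smul_eq_mul]
  have e2 : spatialAvg F a R = fun ω => w * ∫ s in Metric.ball (0:ℂ) R, F s ω * F (s + a) ω :=
    funext e1
  refine ⟨by rw [e2]; exact hI.const_mul w,
    |w| * (K * K * ((volume : Measure ℂ).restrict (Metric.ball (0:ℂ) R)).real Set.univ), fun ω => ?_⟩
  rw [e1, abs_mul]
  refine mul_le_mul_of_nonneg_left ?_ (abs_nonneg _)
  have h1 : ‖∫ s in Metric.ball (0:ℂ) R, F s ω * F (s + a) ω‖
      ≤ K * K * ((volume : Measure ℂ).restrict (Metric.ball (0:ℂ) R)).real Set.univ := by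
    refine norm_integral_le_of_norm_le_const (Eventually.of_forall fun s => ?_)
    rw [norm_mul, Real.norm_eq_abs, Real.norm_eq_abs]
    exact mul_le_mul (hK _ _) (hK _ _) (abs_nonneg _) ((abs_nonneg _).trans (hK 0 ω))
  exact h1

lemma SingleW.sq_le {F : ℂ → Ω → ℝ} (hF : SingleW P F) (a : ℂ) (R : ℝ) (k : ℝ) :
    ∫ ω, spatialAvg F a R ω ^ 2 ∂P ≤ 2 * (∫ ω, (spatialAvg F a R ω - k) ^ 2 ∂P) + 2 * k ^ 2 := by
  obtain ⟨hm, C, hC⟩ := hF.spatial_meas a R
  have i1 : Integrable (fun ω => (spatialAvg F a R ω - k) ^ 2) P := by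
    refine integrable_bdd (C := (C + |k|) ^ 2) ((hm.sub_const k).pow_const 2) fun ω => ?_
    rw [abs_pow]
    exact pow_le_pow_left₀ (abs_nonneg _) ((abs_sub _ _).trans (by linarith [hC ω])) 2
  have h1 : ∫ ω, spatialAvg F a R ω ^ 2 ∂P
      ≤ ∫ ω, (2 * (spatialAvg F a R ω - k) ^ 2 + 2 * k ^ 2) ∂P := by
    refine integral_mono_of_nonneg (Eventually.of_forall fun ω => sq_nonneg _)
      ((i1.const_mul 2).add (integrable_const _)) (Eventually.of_forall fun ω => ?_)
    simp only
    nlinarith [sq_nonneg (spatialAvg F a R ω - 2 * k)]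
  rw [integral_add (i1.const_mul 2) (integrable_const _), integral_const_mul] at h1
  simpa using h1

end Spatial

variable {Γ : Subgroup SL(2, ℝ)} {ρ : ℍ → ℝ} {D : Set ℍ} {φ : ℕ → ℍ → ℝ} {m : ℕ → ℝ}

lemma Surf.scale (h : Surf Γ ρ D φ m) (c : ℕ → ℝ) : Surf Γ ρ D (fun n z => c n * φ n z) m := by
  refine ⟨h.geo, ⟨fun n γ hγ z => by simp only [h.eig.invariant n γ hγ],
    fun n => contDiffOn_const.mul (h.eig.smooth n), fun n z => ?_, h.eig.tendsto⟩, fun n => ?_⟩
  · have h1 : ContDiffAt ℝ 2 (fun w : ℂ => φ n (ofComplex w)) (z : ℂ) :=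
      (h.eig.smooth n).contDiffAt (isOpen_uhp.mem_nhds z.im_pos)
    have h2 : (Δ (fun w : ℂ => c n * φ n (ofComplex w))) (z : ℂ)
        = c n * (Δ (fun w : ℂ => φ n (ofComplex w))) (z : ℂ) := by
      have := laplacian_smul (c n) h1
      exact this
    rw [h2]
    have := h.eig.eigen n z
    linear_combination (c n) * this
  · obtain ⟨C, hC⟩ := h.bdd n
    exact ⟨|c n| * C, fun z => by rw [abs_mul]; exact mul_le_mul_of_nonneg_left (hC z) (abs_nonneg _)⟩

lemma Surf.sW_single (h : Surf Γ ρ D φ m) (n : ℕ) (P : Measure (ℍ × ℝ)) :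
    SingleW P (sW ρ (φ n) (m n)) := by
  obtain ⟨C, hC⟩ := h.bdd n
  refine ⟨fun x => ?_, fun p => ?_, C, fun x p => cutWave_bdd hC _ _ _⟩
  · have hρc : Continuous ρ := h.geo.unif.continuous
    have k1 : Measurable (Function.uncurry (cutWave (φ n) (m n))) :=
      measurable_uncurry_of_continuous_of_measurable
        (fun p => ((h.reig n).cutWave_smooth p).continuous)
        (fun y => cutWave_meas (h.reig n).continuous (m n) y)
    have hc1 : Continuous fun p : ℍ × ℝ => ((Real.exp (ρ p.1) : ℝ) : ℂ) :=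
      Complex.continuous_ofReal.comp (Real.continuous_exp.comp (hρc.comp continuous_fst))
    have hc : Continuous fun p : ℍ × ℝ => x / ((Real.exp (ρ p.1) : ℝ) : ℂ) := by
      refine continuous_const.div hc1 fun p => ?_
      rw [Ne, Complex.ofReal_eq_zero]
      exact (Real.exp_pos _).ne'
    have h2 : Measurable fun p : ℍ × ℝ => (x / ((Real.exp (ρ p.1) : ℝ) : ℂ), p) :=
      hc.measurable.prodMk measurable_id
    have h3 : Measurable fun p : ℍ × ℝ =>
        cutWave (φ n) (m n) (x / ((Real.exp (ρ p.1) : ℝ) : ℂ)) p := by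
      have h4 := k1.comp h2
      simpa only [Function.comp_def, Function.uncurry_apply_pair] using h4
    exact h3
  · have k1 := (h.reig n).cutWave_smooth p
    have k2 : ContDiff ℝ 2 fun x : ℂ => x / (Real.exp (ρ p.1) : ℂ) := by
      simp only [div_eq_mul_inv]
      exact contDiff_id.mul contDiff_const
    exact k1.comp k2

lemma Surf.wW_single (h : Surf Γ ρ D φ m) (R : ℕ → ℕ) (n : ℕ) (P : Measure (ℍ × ℝ)) :
    SingleW P (wW ρ φ m R n) := by
  have hsm := h.sW_single n P
  obtain ⟨C, hC⟩ := hsm.bdd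
  refine ⟨fun x => (hsm.meas x).const_mul _, fun p => ?_, C, fun x p => ?_⟩
  · unfold wW
    refine ContDiff.mul ?_ (hsm.smooth p)
    have k1 : ContDiff ℝ 2 (cut : ℂ → ℝ) := cut.contDiff
    have k2 : ContDiff ℝ 2 fun x : ℂ => x / (R n : ℂ) := by
      simp only [div_eq_mul_inv]
      exact contDiff_id.mul contDiff_const
    exact k1.comp k2
  · unfold wW
    rw [abs_mul, abs_of_nonneg cut.nonneg]
    calc cut (x / (R n : ℂ)) * |sW ρ (φ n) (m n) x p| ≤ 1 * C :=
          mul_le_mul cut.le_one (hC x p) (abs_nonneg _) zero_le_one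
      _ = C := one_mul C

/-- **fourth moments are at most three times the mean square of the local mass** -/
theorem Surf.upper_loc [Countable Γ] (h : Surf Γ ρ D φ m) {R : ℝ} (hR : 0 < R) {ε : ℝ}
    (hε : 0 < ε) : ∀ᶠ n in atTop,
    (rAvg ρ D fun z => φ n z ^ 4) ≤ (3 + ε) * massSq ρ D (φ n) (m n) R := by
  have hP := rFrameProb_isProb h.geo
  by_contra hcon
  have hfr : ∃ᶠ n in atTop, (3 + ε) * massSq ρ D (φ n) (m n) R < (rAvg ρ D fun z => φ n z ^ 4) := by
    rw [Filter.not_eventually] at hcon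
    exact hcon.mono fun n hn => not_le.1 hn
  obtain ⟨σ, hσ, hlt⟩ := extraction_of_frequently_atTop hfr
  have h' := h.subseq hσ.tendsto_atTop
  set N : ℕ → ℝ := fun n => rAvg ρ D fun z => φ (σ n) z ^ 4 with hN
  have hms : ∀ n, 0 ≤ massSq ρ D (φ (σ n)) (m (σ n)) R := fun n =>
    integral_nonneg fun p => sq_nonneg _
  have hNpos : ∀ n, 0 < N n := fun n =>
    lt_of_le_of_lt (mul_nonneg (by linarith) (hms n)) (hlt n)
  set c : ℕ → ℝ := fun n => (rt4 (N n))⁻¹ with hc
  have hrt : ∀ n, rt4 (N n) ^ 4 = N n := fun n => rt4_pow (hNpos n).le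
  have hc4 : ∀ n, c n ^ 4 * N n = 1 := by
    intro n
    rw [hc]
    simp only
    rw [inv_pow, hrt, inv_mul_cancel₀ (hNpos n).ne']
  have h'' := h'.scale c
  have hfour : ∀ n, (rAvg ρ D fun z => (c n * φ (σ n) z) ^ 4) = 1 := by
    intro n
    unfold rAvg
    simp only [mul_pow]
    rw [integral_const_mul]
    exact hc4 n
  have hmass : ∀ n, massSq ρ D (fun z => c n * φ (σ n) z) (m (σ n)) R ≤ 1 / (3 + ε) := by
    intro n
    have e1 : ∀ p, spatialAvg (rWave ρ (fun z => c n * φ (σ n) z) (m (σ n))) 0 R p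
        = c n ^ 2 * spatialAvg (rWave ρ (φ (σ n)) (m (σ n))) 0 R p := by
      intro p
      unfold spatialAvg rWave
      rw [setAverage_eq, setAverage_eq, smul_eq_mul, smul_eq_mul, mul_left_comm (c n ^ 2)]
      congr 1
      rw [← integral_const_mul]
      congr 1; funext x; ring
    unfold massSq
    simp only [e1]
    have e2 : ∀ p, (c n ^ 2 * spatialAvg (rWave ρ (φ (σ n)) (m (σ n))) 0 R p) ^ 2
        = c n ^ 4 * spatialAvg (rWave ρ (φ (σ n)) (m (σ n))) 0 R p ^ 2 := fun p => by ring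
    simp only [e2]
    rw [integral_const_mul, le_div_iff₀ (by linarith)]
    have h1 := (hlt n).le
    have h2 : 0 ≤ c n ^ 4 := by positivity
    calc c n ^ 4 * (∫ p, spatialAvg (rWave ρ (φ (σ n)) (m (σ n))) 0 R p ^ 2
          ∂(rFrameProb ρ D)) * (3 + ε)
        = c n ^ 4 * ((3 + ε) * massSq ρ D (φ (σ n)) (m (σ n)) R) := by unfold massSq; ring
      _ ≤ c n ^ 4 * N n := mul_le_mul_of_nonneg_left h1 h2
      _ = 1 := hc4 n
  obtain ⟨B₂, hdat⟩ := h''.dat (B₁ := 1) fun n => (hfour n).le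
  obtain ⟨R', B', hR', hA⟩ := hdat.aWave (B₁ := 1) fun n => (hfour n).le
  have h1 := hA.upper_loc hR (L := 1) (M := 1 / (3 + ε)) (Eventually.of_forall fun n => by
    rw [h''.c4_zero, hfour n]) (by
      filter_upwards [h''.spatial_ev hR' 0 R] with n hn
      simp only [hn]
      exact hmass n)
  have h2 : 3 * (1 / (3 + ε)) < 1 := by
    rw [mul_one_div, div_lt_one (by linarith)]; linarith
  linarith

/-- Planck-scale equidistribution of mass bounds the fourth moments -/
theorem Surf.four_bounded [Countable Γ] (h : Surf Γ ρ D φ m) (hq : RPlanckAt ρ D φ m 0) :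
    ∃ B : ℝ, ∀ n, (rAvg ρ D fun z => φ n z ^ 4) ≤ B := by
  have hP := rFrameProb_isProb h.geo
  obtain ⟨R₀, hR₀⟩ := hq 1 one_pos
  set R := max R₀ 1 with hR
  have hR0 : 0 < R := lt_of_lt_of_le one_pos (le_max_right _ _)
  have hev : ∀ᶠ n in atTop, (rAvg ρ D fun z => φ n z ^ 4) ≤ 16 := by
    filter_upwards [hR₀ R (le_max_left _ _), h.upper_loc hR0 (ε := 1) one_pos,
      h.spatial_ev tendsto_id 0 R, h.eig.tendsto.eventually_gt_atTop 0] with n h1 h2 h3 hm
    have hsw := h.wW_single id n (rFrameProb ρ D)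
    have h4 := hsw.sq_le 0 R 1
    simp only [h3] at h4
    rw [waveK_zero] at h1
    have h5 : massSq ρ D (φ n) (m n) R ≤ 4 := by
      unfold massSq
      linarith
    linarith
  have hb : IsBoundedUnder (· ≤ ·) atTop fun n => (rAvg ρ D fun z => φ n z ^ 4) :=
    ⟨16, by simpa using hev⟩
  obtain ⟨B, hB⟩ := hb.bddAbove_range
  exact ⟨B, fun n => hB ⟨n, rfl⟩⟩

/-- **Gaussian four-point correlations are equivalent to Planck-scale quantum ergodicity.** -/
theorem Surf.four_iff' [Countable Γ] (h : Surf Γ ρ D φ m)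
    (hnorm : ∀ n, rAvg ρ D (fun z => φ n z ^ 2) = 1) :
    RFourPt ρ D φ m ↔ ∀ a, RPlanckAt ρ D φ m a := by
  rw [h.four_iff hnorm]
  exact ⟨fun hh => hh.2, fun hh => ⟨h.four_bounded (hh 0), hh⟩⟩

/-- **mass equidistribution at the Planck scale bounds the fourth moments by `3`** -/
theorem Surf.upper' [Countable Γ] (h : Surf Γ ρ D φ m) (hq : RPlanckAt ρ D φ m 0)
    {ε : ℝ} (hε : 0 < ε) : ∀ᶠ n in atTop, (rAvg ρ D fun z => φ n z ^ 4) ≤ 3 + ε := by
  obtain ⟨B, hB⟩ := h.four_bounded hq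
  exact h.upper hB hq hε

end

end Berry
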