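import Pool.Agent.LibH11.Berry.AMono2
import Pool.Agent.LibH11.Berry.RUp

/-!
Two-sided bounds for the fourth moments of Laplace eigenfunctions on closed surfaces.
-/

open UpperHalfPlane MeasureTheory ProbabilityTheory MatrixGroups Filter Topology Set
  InnerProductSpace Laplacian
open scoped ENNReal NNReal Pointwise

namespace Berry

noncomputable section

variable {Γ : Subgroup SL(2, ℝ)} {ρ : ℍ → ℝ} {D : Set ℍ} {φ : ℕ → ℍ → ℝ} {m : ℕ → ℝ}

lemma massSq_scale (c : ℝ) (f : ℍ → ℝ) (k R : ℝ) :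
    massSq ρ D (fun z => c * f z) k R = c ^ 4 * massSq ρ D f k R := by
  have e1 : ∀ p, spatialAvg (rWave ρ (fun z => c * f z) k) 0 R p
      = c ^ 2 * spatialAvg (rWave ρ f k) 0 R p := by
    intro p
    unfold spatialAvg rWave
    rw [setAverage_eq, setAverage_eq, smul_eq_mul, smul_eq_mul, mul_left_comm (c ^ 2)]
    congr 1
    rw [← integral_const_mul]
    congr 1; funext x; ring
  unfold massSq
  simp only [e1]
  rw [← integral_const_mul]
  congr 1; funext p; ring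

/-- **fourth moments against local masses at large scales** -/
theorem Surf.lower_loc [Countable Γ] (h : Surf Γ ρ D φ m)
    (hpos : ∀ᶠ n in atTop, 0 < rAvg ρ D fun z => φ n z ^ 4) {ε : ℝ} (hε : 0 < ε) :
    ∃ R₀ : ℝ, ∀ R ≥ R₀, ∀ᶠ n in atTop,
      (3 / 2) * massSq ρ D (φ n) (m n) R ≤ (1 + ε) * rAvg ρ D fun z => φ n z ^ 4 := by
  have hP := rFrameProb_isProb h.geo
  set N : ℕ → ℝ := fun n => rAvg ρ D fun z => φ n z ^ 4 with hN
  have hN0 : ∀ n, 0 ≤ N n := fun n => integral_nonneg fun z => by positivity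
  set c : ℕ → ℝ := fun n => (rt4 (N n))⁻¹ with hc
  have hrt : ∀ n, rt4 (N n) ^ 4 = N n := fun n => rt4_pow (hN0 n)
  have hc4 : ∀ n, 0 < N n → c n ^ 4 * N n = 1 := by
    intro n hn
    rw [hc]
    simp only
    rw [inv_pow, hrt, inv_mul_cancel₀ hn.ne']
  have h'' := h.scale c
  have hfour : ∀ n, (rAvg ρ D fun z => (c n * φ n z) ^ 4) = c n ^ 4 * N n := by
    intro n
    unfold rAvg
    simp only [mul_pow]
    rw [integral_const_mul]
    rfl
  have hle : ∀ n, (rAvg ρ D fun z => (c n * φ n z) ^ 4) ≤ 1 := by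
    intro n
    rw [hfour]
    rcases (hN0 n).eq_or_lt with h0 | h0
    · rw [← h0, mul_zero]; exact zero_le_one
    · rw [hc4 n h0]
  obtain ⟨B₂, hdat⟩ := h''.dat (B₁ := 1) hle
  obtain ⟨R', B', hR', hA⟩ := hdat.aWave (B₁ := 1) hle
  obtain ⟨R₀, hR₀⟩ := hA.lower_loc hε
  refine ⟨R₀, fun R hR => ?_⟩
  filter_upwards [hR₀ R hR, h''.spatial_ev hR' 0 R, hpos] with n h1 h2 h3
  rw [h''.c4_zero] at h1
  have e1 : mSq (rFrameProb ρ D) (wW ρ (fun n z => c n * φ n z) m R') R n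
      = c n ^ 4 * massSq ρ D (φ n) (m n) R := by
    rw [← massSq_scale]
    unfold mSq massSq
    simp only [h2]
  rw [e1, hfour, hc4 n h3] at h1
  have h4 : (3 / 2) * (c n ^ 4 * massSq ρ D (φ n) (m n) R) * N n ≤ (1 + ε) * N n :=
    mul_le_mul_of_nonneg_right h1 h3.le
  have h5 : (3 / 2) * (c n ^ 4 * massSq ρ D (φ n) (m n) R) * N n
      = (3 / 2) * massSq ρ D (φ n) (m n) R * (c n ^ 4 * N n) := by ring
  rw [h5, hc4 n h3, mul_one] at h4
  exact h4

/-- **two-sided bound for the fourth moments of eigenfunctions** -/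
theorem Surf.two_sided [Countable Γ] (h : Surf Γ ρ D φ m)
    (hnorm : ∀ n, rAvg ρ D (fun z => φ n z ^ 2) = 1) {ε : ℝ} (hε : 0 < ε) :
    ∃ R₀ > 0, ∀ R ≥ R₀, ∀ᶠ n in atTop,
      (3 / 2 - ε) * max 1 (massSq ρ D (φ n) (m n) R) ≤ (rAvg ρ D fun z => φ n z ^ 4) ∧
      (rAvg ρ D fun z => φ n z ^ 4) ≤ (3 + ε) * massSq ρ D (φ n) (m n) R := by
  have hpos : ∀ᶠ n in atTop, 0 < rAvg ρ D fun z => φ n z ^ 4 := by
    filter_upwards [h.lower hnorm (ε := 1) one_pos] with n hn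
    linarith
  obtain ⟨R₀, hR₀⟩ := h.lower_loc hpos (ε := (2 / 3) * ε) (by positivity)
  refine ⟨max R₀ 1, lt_of_lt_of_le one_pos (le_max_right _ _), fun R hR => ?_⟩
  have hR1 : R₀ ≤ R := (le_max_left _ _).trans hR
  have hR2 : 0 < R := lt_of_lt_of_le one_pos ((le_max_right _ _).trans hR)
  filter_upwards [hR₀ R hR1, h.lower hnorm hε, h.upper_loc hR2 hε, hpos] with n h1 h2 h3 h4
  refine ⟨?_, h3⟩
  set M := massSq ρ D (φ n) (m n) R with hM
  set N := rAvg ρ D fun z => φ n z ^ 4 with hN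
  have hM0 : 0 ≤ M := integral_nonneg fun p => sq_nonneg _
  rcases le_total (3 / 2 - ε) 0 with h5 | h5
  · have : (3 / 2 - ε) * max 1 M ≤ 0 :=
      mul_nonpos_of_nonpos_of_nonneg h5 (le_max_of_le_left zero_le_one)
    linarith
  · rw [mul_max_of_nonneg _ _ h5, mul_one]
    refine max_le h2 ?_
    -- (3/2 - ε) M ≤ N
    have h6 : (3 / 2 - ε) * ((3 / 2) * M) ≤ (3 / 2 - ε) * ((1 + (2 / 3) * ε) * N) :=
      mul_le_mul_of_nonneg_left h1 h5
    have h7 : (3 / 2 - ε) * (1 + (2 / 3) * ε) ≤ 3 / 2 := by nlinarith [sq_nonneg ε]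
    have h8 : (3 / 2 - ε) * (1 + (2 / 3) * ε) * N ≤ 3 / 2 * N :=
      mul_le_mul_of_nonneg_right h7 h4.le
    nlinarith

end

end Berry
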