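import Pool.Agent.LibH11.Berry.ALim3
import Pool.Agent.LibH11.Berry.RTwo

/-!
Odd moments of the local waves of Laplace eigenfunctions on closed surfaces.
-/

open UpperHalfPlane MeasureTheory ProbabilityTheory MatrixGroups Filter Topology Set
  InnerProductSpace Laplacian
open scoped ENNReal NNReal Pointwise

namespace Berry

noncomputable section

/-- the product of three variables -/
def pr3 (v : Fin 4 → ℝ) : ℝ := v 0 * v 1 * v 2

/-- the first variable -/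
def pr1 (v : Fin 4 → ℝ) : ℝ := v 0

lemma tst_pr3 : Tst pr3 4 := by
  have hb : ∀ (v : Fin 4 → ℝ) (j : Fin 4), |v j| ≤ ‖v‖ := fun v j => by
    rw [← Real.norm_eq_abs]; exact norm_le_pi_norm v j
  refine ⟨by unfold pr3; fun_prop, fun v v' => ?_, fun v => ?_⟩
  · unfold pr3
    set a := ‖v‖ with ha
    set a' := ‖v'‖ with ha'
    set e := ‖v - v'‖ with he
    have ha0 : 0 ≤ a := norm_nonneg _
    have ha'0 : 0 ≤ a' := norm_nonneg _
    have he0 : 0 ≤ e := norm_nonneg _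
    have hd : ∀ j : Fin 4, |v j - v' j| ≤ e := fun j => by
      have := hb (v - v') j
      rwa [Pi.sub_apply] at this
    have e1 : v 0 * v 1 * v 2 - v' 0 * v' 1 * v' 2
        = (v 0 - v' 0) * (v 1 * v 2) + (v 1 - v' 1) * (v' 0 * v 2)
          + (v 2 - v' 2) * (v' 0 * v' 1) := by ring
    set S := 1 + a + a' with hS
    have hS1 : 1 ≤ S := by linarith
    have hM : ∀ x y : ℝ, |x| ≤ S → |y| ≤ S → |x * y| ≤ S ^ 3 := by
      intro x y hx hy
      rw [abs_mul]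
      calc |x| * |y| ≤ S * S := by gcongr
        _ = S ^ 2 := by ring
        _ ≤ S ^ 3 := pow_le_pow_right₀ hS1 (by norm_num)
    have hv : ∀ j, |v j| ≤ S := fun j => (hb v j).trans (by linarith)
    have hv' : ∀ j, |v' j| ≤ S := fun j => (hb v' j).trans (by linarith)
    rw [e1]
    have t : ∀ x y : ℝ, |x| ≤ e → |y| ≤ S ^ 3 → |x * y| ≤ e * S ^ 3 := by
      intro x y hx hy
      rw [abs_mul]; gcongr
    have t1 := t _ _ (hd 0) (hM _ _ (hv 1) (hv 2))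
    have t2 := t _ _ (hd 1) (hM _ _ (hv' 0) (hv 2))
    have t3 := t _ _ (hd 2) (hM _ _ (hv' 0) (hv' 1))
    refine (abs_add_le _ _).trans ?_
    have s2 := abs_add_le ((v 0 - v' 0) * (v 1 * v 2)) ((v 1 - v' 1) * (v' 0 * v 2))
    have s3 : 0 ≤ e * S ^ 3 := by positivity
    nlinarith
  · unfold pr3
    have ha0 : 0 ≤ ‖v‖ := norm_nonneg _
    rw [abs_mul, abs_mul]
    calc |v 0| * |v 1| * |v 2| ≤ ‖v‖ * ‖v‖ * ‖v‖ := by
          gcongr <;> exact hb v _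
      _ = ‖v‖ ^ 3 := by ring
      _ ≤ (1 + ‖v‖) ^ 3 := pow_le_pow_left₀ ha0 (by linarith) 3
      _ ≤ (1 + ‖v‖) ^ 4 := pow_le_pow_right₀ (by linarith) (by norm_num)
      _ ≤ 4 * (1 + ‖v‖) ^ 4 := by nlinarith [pow_nonneg (by linarith : 0 ≤ 1 + ‖v‖) 4]

lemma tst_pr1 : Tst pr1 4 := by
  have hb : ∀ (v : Fin 4 → ℝ) (j : Fin 4), |v j| ≤ ‖v‖ := fun v j => by
    rw [← Real.norm_eq_abs]; exact norm_le_pi_norm v j
  refine ⟨by unfold pr1; fun_prop, fun v v' => ?_, fun v => ?_⟩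
  · unfold pr1
    set a := ‖v‖ with ha
    set a' := ‖v'‖ with ha'
    set e := ‖v - v'‖ with he
    have ha0 : 0 ≤ a := norm_nonneg _
    have ha'0 : 0 ≤ a' := norm_nonneg _
    have he0 : 0 ≤ e := norm_nonneg _
    have hd : |v 0 - v' 0| ≤ e := by
      have := hb (v - v') 0
      rwa [Pi.sub_apply] at this
    have s : (1:ℝ) ≤ (1 + a + a') ^ 3 := one_le_pow₀ (by linarith)
    have s5 : e ≤ e * (1 + a + a') ^ 3 := le_mul_of_one_le_right he0 s
    nlinarith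
  · unfold pr1
    have ha0 : 0 ≤ ‖v‖ := norm_nonneg _
    calc |v 0| ≤ ‖v‖ := hb v 0
      _ ≤ (1 + ‖v‖) ^ 1 := by rw [pow_one]; linarith
      _ ≤ (1 + ‖v‖) ^ 4 := pow_le_pow_right₀ (by linarith) (by norm_num)
      _ ≤ 4 * (1 + ‖v‖) ^ 4 := by nlinarith [pow_nonneg (by linarith : 0 ≤ 1 + ‖v‖) 4]

variable {Γ : Subgroup SL(2, ℝ)} {ρ : ℍ → ℝ} {D : Set ℍ} {φ : ℕ → ℍ → ℝ} {m : ℕ → ℝ} {B : ℝ}

/-- the odd moments of the local waves are asymptotically translation invariant -/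
theorem Dat.odd [Countable Γ] (h : Dat Γ ρ D φ m B) {R : ℕ → ℕ} (hR : Tendsto R atTop atTop) :
    OddInv (rFrameProb ρ D) (wW ρ φ m R) := by
  obtain ⟨κ, hκ, hint⟩ := rFrame_int h.geo
  constructor
  · intro x₁ x₂ x₃ s
    have hc : ∀ y₁ y₂ y₃ : ℂ, ∀ᶠ n in atTop, c3 (rFrameProb ρ D) (wW ρ φ m R) n y₁ y₂ y₃
        = κ * TF D ρ φ m pr3 n ![y₁, y₂, y₃, 0] := by
      intro y₁ y₂ y₃
      filter_upwards [wW_eq (ρ := ρ) (φ := φ) (m := m) hR ‖y₁‖,
        wW_eq (ρ := ρ) (φ := φ) (m := m) hR ‖y₂‖, wW_eq (ρ := ρ) (φ := φ) (m := m) hR ‖y₃‖]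
        with n h1 h2 h3
      have e : c3 (rFrameProb ρ D) (fun n => sW ρ (φ n) (m n)) n y₁ y₂ y₃
          = κ * TF D ρ φ m pr3 n ![y₁, y₂, y₃, 0] := by
        unfold c3 TF
        rw [hint]
        congr 2
      rw [← e]
      unfold c3
      congr 1; funext p
      rw [h1 y₁ le_rfl, h2 y₂ le_rfl, h3 y₃ le_rfl]
    have h1 := (h.shift tst_pr3 ![x₁, x₂, x₃, 0] s).const_mul κ
    rw [mul_zero] at h1
    refine h1.congr' ?_
    filter_upwards [hc (x₁ + s) (x₂ + s) (x₃ + s), hc x₁ x₂ x₃] with n k1 k2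
    rw [k1, k2, mul_sub]
    have e : TF D ρ φ m pr3 n (fun j => (![x₁, x₂, x₃, 0] : Fin 4 → ℂ) j + s)
        = TF D ρ φ m pr3 n ![x₁ + s, x₂ + s, x₃ + s, 0] := by
      unfold TF pr3
      rfl
    rw [e]
  · intro x s
    have hc : ∀ y : ℂ, ∀ᶠ n in atTop, c1 (rFrameProb ρ D) (wW ρ φ m R) n y
        = κ * TF D ρ φ m pr1 n ![y, 0, 0, 0] := by
      intro y
      filter_upwards [wW_eq (ρ := ρ) (φ := φ) (m := m) hR ‖y‖] with n h1
      have e : c1 (rFrameProb ρ D) (fun n => sW ρ (φ n) (m n)) n y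
          = κ * TF D ρ φ m pr1 n ![y, 0, 0, 0] := by
        unfold c1 TF
        rw [hint]
        congr 2
      rw [← e]
      unfold c1
      congr 1; funext p
      rw [h1 y le_rfl]
    have h1 := (h.shift tst_pr1 ![x, 0, 0, 0] s).const_mul κ
    rw [mul_zero] at h1
    refine h1.congr' ?_
    filter_upwards [hc (x + s), hc x] with n k1 k2
    rw [k1, k2, mul_sub]
    have e : TF D ρ φ m pr1 n (fun j => (![x, 0, 0, 0] : Fin 4 → ℂ) j + s)
        = TF D ρ φ m pr1 n ![x + s, 0, 0, 0] := by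
      unfold TF pr1
      rfl
    rw [e]

lemma Surf.c3_ev (h : Surf Γ ρ D φ m) {R : ℕ → ℕ} (hR : Tendsto R atTop atTop)
    (x₁ x₂ x₃ : ℂ) : ∀ᶠ n in atTop, c3 (rFrameProb ρ D) (wW ρ φ m R) n x₁ x₂ x₃
      = ∫ p, rWave ρ (φ n) (m n) x₁ p * rWave ρ (φ n) (m n) x₂ p
        * rWave ρ (φ n) (m n) x₃ p ∂(rFrameProb ρ D) := by
  filter_upwards [h.ev_eq hR ‖x₁‖, h.ev_eq hR ‖x₂‖, h.ev_eq hR ‖x₃‖] with n h1 h2 h3
  unfold c3
  congr 1; funext p
  rw [h1 x₁ le_rfl, h2 x₂ le_rfl, h3 x₃ le_rfl]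

lemma Surf.c1_ev (h : Surf Γ ρ D φ m) {R : ℕ → ℕ} (hR : Tendsto R atTop atTop)
    (x : ℂ) : ∀ᶠ n in atTop, c1 (rFrameProb ρ D) (wW ρ φ m R) n x
      = ∫ p, rWave ρ (φ n) (m n) x p ∂(rFrameProb ρ D) := by
  filter_upwards [h.ev_eq hR ‖x‖] with n h1
  unfold c1
  congr 1; funext p
  rw [h1 x le_rfl]

/-- **Planck-scale quantum ergodicity forces Gaussian moments up to order four.** -/
theorem Surf.gauss_of_planck [Countable Γ] (h : Surf Γ ρ D φ m)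
    (hnorm : ∀ n, rAvg ρ D (fun z => φ n z ^ 2) = 1) (hq : ∀ a, RPlanckAt ρ D φ m a) :
    RGaussUpToFour ρ D φ m := by
  have hP := rFrameProb_isProb h.geo
  obtain ⟨B, hB⟩ := h.four_bounded (hq 0)
  obtain ⟨B₂, hdat⟩ := h.dat hB
  obtain ⟨R, B', hR, hA⟩ := hdat.aWave hB
  have hq' : AsyPlanck (rFrameProb ρ D) (wW ρ φ m R) 1 := fun a => (h.planck_iff hR a).1 (hq a)
  obtain ⟨h3, h1⟩ := hA.odd_of_planck (hdat.odd hR) hq'
  refine ⟨fun x => ?_, fun x y => h.two_of_planck hB hq x y, fun x y z => ?_,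
    (h.four_iff' hnorm).2 hq⟩
  · refine (h1 x).congr' ?_
    filter_upwards [h.c1_ev hR x] with n hn
    exact hn
  · refine (h3 x y z).congr' ?_
    filter_upwards [h.c3_ev hR x y z] with n hn
    exact hn

end

end Berry
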