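import Pool.Agent.LibH11.Berry.RBase

/-!
Local norms and equicontinuity for the base waves.
-/

open UpperHalfPlane MeasureTheory ProbabilityTheory MatrixGroups Filter Topology Set
  InnerProductSpace Laplacian
open scoped ENNReal NNReal

namespace Berry

noncomputable section

/-- the geometric data -/
structure Geo (Γ : Subgroup SL(2, ℝ)) (ρ : ℍ → ℝ) (D : Set ℍ) : Prop where
  dom : IsFundamentalDomain Γ D (volume : Measure ℍ)
  meas : MeasurableSet D
  fin : volume D ≠ ∞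
  inv : ∀ γ ∈ Γ, ∀ z, ρ (γ • z) = ρ z
  bdd : ∃ K : ℝ, ∀ z, |ρ z| ≤ K
  unif : UniformContinuous ρ

/-- test functions of growth at most four -/
structure Tst (Φ : (Fin 4 → ℝ) → ℝ) (L : ℝ) : Prop where
  cont : Continuous Φ
  lip : ∀ v v', |Φ v - Φ v'| ≤ L * ‖v - v'‖ * (1 + ‖v‖ + ‖v'‖) ^ 3
  grow : ∀ v, |Φ v| ≤ L * (1 + ‖v‖) ^ 4

lemma Tst.L_nonneg {Φ : (Fin 4 → ℝ) → ℝ} {L : ℝ} (h : Tst Φ L) : 0 ≤ L := by
  have h1 := (abs_nonneg _).trans (h.grow 0)
  rw [norm_zero, add_zero, one_pow, mul_one] at h1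
  exact h1

/-- the data of a sequence of eigenfunctions with bounded fourth moments -/
structure Dat (Γ : Subgroup SL(2, ℝ)) (ρ : ℍ → ℝ) (D : Set ℍ) (φ : ℕ → ℍ → ℝ) (m : ℕ → ℝ)
    (B : ℝ) : Prop where
  geo : Geo Γ ρ D
  eig : REigenSeq Γ ρ φ m
  bdd : ∀ n, ∃ C : ℝ, ∀ z, |φ n z| ≤ C
  four : ∀ᶠ n in atTop, ∫ z, φ n z ^ 4 ∂(ProbabilityTheory.cond (volume : Measure ℍ) D) ≤ B

variable {Γ : Subgroup SL(2, ℝ)} {ρ : ℍ → ℝ} {D : Set ℍ} {φ : ℕ → ℍ → ℝ} {m : ℕ → ℝ} {B : ℝ}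

lemma Dat.reig (h : Dat Γ ρ D φ m B) (n : ℕ) : REig ρ (φ n) (m n) :=
  ⟨h.eig.smooth n, h.eig.eigen n⟩

lemma Dat.single (h : Dat Γ ρ D φ m B) (n : ℕ) (P : Measure (ℍ × ℝ)) :
    SingleW P (cutWave (φ n) (m n)) := by
  obtain ⟨C, hC⟩ := h.bdd n
  exact ⟨cutWave_meas (h.reig n).continuous (m n), (h.reig n).cutWave_smooth, C, cutWave_bdd hC (m n)⟩

lemma Dat.prob [Countable Γ] (h : Dat Γ ρ D φ m B) : IsProbabilityMeasure (frameProb D) :=
  frameProb_isProb h.geo.dom h.geo.fin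

lemma Dat.B_nonneg (h : Dat Γ ρ D φ m B) : 0 ≤ B := by
  obtain ⟨n, hn⟩ := h.four.exists
  exact (integral_nonneg fun z => by positivity).trans hn

/-- fourth moments of the base wave at a point -/
lemma Dat.four_point [Countable Γ] (h : Dat Γ ρ D φ m B) : ∀ᶠ n in atTop, ∀ y : ℂ,
    ∫ p, cutWave (φ n) (m n) y p ^ 4 ∂(frameProb D) ≤ B := by
  have hP := h.prob
  filter_upwards [h.four] with n hn y
  obtain ⟨C, hC⟩ := h.bdd n
  have hφc : Continuous (φ n) := (h.reig n).continuous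
  have hint : Integrable (fun p => φ n (frame p • ofComplex (Complex.I + y / (m n))) ^ 4)
      (frameProb D) := by
    refine integrable_bdd (C := C ^ 4) ?_ fun p => ?_
    · exact (((hφc.comp (frame_continuous.smul continuous_const)).measurable).pow_const 4)
    · rw [abs_pow]
      exact pow_le_pow_left₀ (abs_nonneg _) (hC _) 4
  calc ∫ p, cutWave (φ n) (m n) y p ^ 4 ∂(frameProb D)
      ≤ ∫ p, φ n (frame p • ofComplex (Complex.I + y / (m n))) ^ 4 ∂(frameProb D) := by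
        refine integral_mono_of_nonneg (Eventually.of_forall fun p => by positivity) hint
          (Eventually.of_forall fun p => ?_)
        simp only [cutWave, localWave]
        rw [mul_pow]
        have h1 : cut (y / (m n : ℂ)) ^ 4 ≤ 1 := pow_le_one₀ cut.nonneg cut.le_one
        have h2 : 0 ≤ φ n (frame p • ofComplex (Complex.I + y / (m n))) ^ 4 := by positivity
        nlinarith
    _ = ∫ z, φ n z ^ 4 ∂(ProbabilityTheory.cond (volume : Measure ℍ) D) :=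
        frame_pow h.geo.dom h.geo.meas h.geo.fin (ψ := fun z => φ n z ^ 4) (hφc.pow 4)
          (fun γ hγ z => by simp only [h.eig.invariant n γ hγ]) _
    _ ≤ B := hn

/-- the local norm -/
def Nn (φ : ℕ → ℍ → ℝ) (m : ℕ → ℝ) (r : ℝ) (n : ℕ) (p : ℍ × ℝ) : ℝ :=
  N4 (fun y => cutWave (φ n) (m n) y p) 0 r

lemma Nn_nonneg (r : ℝ) (n : ℕ) (p : ℍ × ℝ) : 0 ≤ Nn φ m r n p := N4_nonneg _ _ _

lemma Dat.Nn_meas (h : Dat Γ ρ D φ m B) (r : ℝ) (n : ℕ) : Measurable (Nn φ m r n) := by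
  have h1 : Measurable (Function.uncurry fun (p : ℍ × ℝ) (y : ℂ) => cutWave (φ n) (m n) y p ^ 4) := by
    have h2 := (h.single n (frameProb D)).meas_uncurry.comp measurable_swap
    exact h2.pow_const 4
  exact (h1.stronglyMeasurable.integral_prod_right'
    (ν := (volume : Measure ℂ).restrict (Metric.ball 0 r))).measurable

lemma Dat.Nn_bdd (h : Dat Γ ρ D φ m B) (r : ℝ) (n : ℕ) : ∃ C : ℝ, ∀ p, |Nn φ m r n p| ≤ C := by
  obtain ⟨C, hC⟩ := h.bdd n
  have hfin := ball_finite r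
  refine ⟨C ^ 4 * ((volume : Measure ℂ).restrict (Metric.ball 0 r)).real Set.univ, fun p => ?_⟩
  have h1 : ‖∫ y in Metric.ball (0:ℂ) r, cutWave (φ n) (m n) y p ^ 4‖
      ≤ C ^ 4 * ((volume : Measure ℂ).restrict (Metric.ball 0 r)).real Set.univ := by
    refine norm_integral_le_of_norm_le_const (Eventually.of_forall fun y => ?_)
    rw [Real.norm_eq_abs, abs_pow]
    exact pow_le_pow_left₀ (abs_nonneg _) (cutWave_bdd hC _ _ _) 4
  exact h1

lemma Dat.Nn_int [Countable Γ] (h : Dat Γ ρ D φ m B) (r : ℝ) (n : ℕ) :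
    Integrable (Nn φ m r n) (frameProb D) := by
  have hP := h.prob
  obtain ⟨C, hC⟩ := h.Nn_bdd r n
  exact integrable_bdd (h.Nn_meas r n) hC

/-- the local norms are bounded in mean -/
lemma Dat.Nn_mean [Countable Γ] (h : Dat Γ ρ D φ m B) (r : ℝ) : ∀ᶠ n in atTop,
    ∫ p, Nn φ m r n p ∂(frameProb D) ≤ (volume : Measure ℂ).real (Metric.ball 0 r) * B := by
  have hP := h.prob
  have hfin := ball_finite r
  filter_upwards [h.four_point] with n hn
  obtain ⟨C, hC⟩ := h.bdd n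
  have h1 : Measurable (Function.uncurry fun (p : ℍ × ℝ) (y : ℂ) => cutWave (φ n) (m n) y p ^ 4) := by
    have h2 := (h.single n (frameProb D)).meas_uncurry.comp measurable_swap
    exact h2.pow_const 4
  have h3 := swap_bdd (ν := frameProb D) (μ := (volume : Measure ℂ).restrict (Metric.ball (0:ℂ) r))
    h1 (C := C ^ 4) (fun p y => by
      rw [abs_pow]
      exact pow_le_pow_left₀ (abs_nonneg _) (cutWave_bdd hC _ _ _) 4)
  have h4 : ∫ p, Nn φ m r n p ∂(frameProb D)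
      = ∫ y in Metric.ball (0:ℂ) r, ∫ p, cutWave (φ n) (m n) y p ^ 4 ∂(frameProb D) := h3
  rw [h4]
  have h5 : ‖∫ y in Metric.ball (0:ℂ) r, ∫ p, cutWave (φ n) (m n) y p ^ 4 ∂(frameProb D)‖
      ≤ B * ((volume : Measure ℂ).restrict (Metric.ball 0 r)).real Set.univ := by
    refine norm_integral_le_of_norm_le_const (Eventually.of_forall fun y => ?_)
    rw [Real.norm_of_nonneg (integral_nonneg fun p => by positivity)]
    exact hn y
  have h6 : ((volume : Measure ℂ).restrict (Metric.ball 0 r)).real Set.univ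
      = (volume : Measure ℂ).real (Metric.ball 0 r) := by
    simp [Measure.real]
  rw [h6] at h5
  calc _ ≤ _ := Real.le_norm_self _
    _ ≤ _ := h5
    _ = _ := mul_comm _ _

lemma four_conv {ν : ℝ} (_hν : 0 ≤ ν) : (1 + ν) ^ 4 ≤ 8 * (1 + ν ^ 4) := by
  nlinarith [sq_nonneg (ν - 1), sq_nonneg (ν ^ 2 - 1), mul_nonneg _hν (sq_nonneg (ν - 1)),
    mul_nonneg (sq_nonneg ν) (sq_nonneg (ν - 1)), sq_nonneg (ν ^ 2 - ν)]

/-- **local sup bound for the base wave** -/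
lemma Dat.sup (h : Dat Γ ρ D φ m B) : ∃ C : ℝ, 0 < C ∧ ∀ r : ℝ, ∀ᶠ n in atTop, ∀ p, ∀ t : ℂ,
    ‖t‖ < r → |cutWave (φ n) (m n) t p| ≤ C * rt4 (Nn φ m (r + 1) n p) := by
  obtain ⟨K, hK⟩ := h.geo.bdd
  obtain ⟨C, hC0, hC⟩ := det_sup (L := 2 * Real.exp (2 * K)) (by positivity)
  refine ⟨C, hC0, fun r => ?_⟩
  filter_upwards [(h.eig.tendsto.const_div_atTop (r + 1)).eventually
    (gt_mem_nhds (show (0:ℝ) < 1 / 4 by norm_num)), h.eig.tendsto.eventually_gt_atTop 0]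
    with n hn hm p t ht
  have hsm := (h.reig n).cutWave_smooth p
  have hball : Metric.ball t 1 ⊆ Metric.ball (0:ℂ) (r + 1) := by
    apply Metric.ball_subset_ball'
    rw [dist_zero_right]; linarith
  have h1 := hC _ hsm t (fun x hx => (h.reig n).cutWave_bound hm hK p (by
    have := hball hx
    rw [Metric.mem_ball, dist_zero_right] at this
    exact (div_lt_div_of_pos_right this hm).trans hn)) t (Metric.mem_ball_self (by norm_num))
  refine h1.trans (mul_le_mul_of_nonneg_left (rt4_mono ?_) hC0.le)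
  exact N4_mono hsm.continuous hball

/-- **local modulus of continuity for the base wave** -/
lemma Dat.mod (h : Dat Γ ρ D φ m B) {η : ℝ} (hη : 0 < η) : ∃ d > 0, ∀ r : ℝ, ∀ᶠ n in atTop,
    ∀ p, ∀ t t' : ℂ, ‖t‖ < r → ‖t' - t‖ < d →
      |cutWave (φ n) (m n) t p - cutWave (φ n) (m n) t' p| ≤ η * rt4 (Nn φ m (r + 1) n p) := by
  obtain ⟨K, hK⟩ := h.geo.bdd
  obtain ⟨d, hd, hdm⟩ := det_mod (L := 2 * Real.exp (2 * K)) (by positivity) hη
  refine ⟨min d (1 / 2), by positivity, fun r => ?_⟩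
  filter_upwards [(h.eig.tendsto.const_div_atTop (r + 1)).eventually
    (gt_mem_nhds (show (0:ℝ) < 1 / 4 by norm_num)), h.eig.tendsto.eventually_gt_atTop 0]
    with n hn hm p t t' ht htt
  have hsm := (h.reig n).cutWave_smooth p
  have hball : Metric.ball t 1 ⊆ Metric.ball (0:ℂ) (r + 1) := by
    apply Metric.ball_subset_ball'
    rw [dist_zero_right]; linarith
  have h1 := hdm _ hsm t (fun x hx => (h.reig n).cutWave_bound hm hK p (by
    have := hball hx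
    rw [Metric.mem_ball, dist_zero_right] at this
    exact (div_lt_div_of_pos_right this hm).trans hn)) t (Metric.mem_ball_self (by norm_num)) t'
    (by rw [Metric.mem_ball, dist_eq_norm]; exact lt_of_lt_of_le htt (min_le_right _ _))
    (by rw [norm_sub_rev]; exact lt_of_lt_of_le htt (min_le_left _ _))
  refine h1.trans (mul_le_mul_of_nonneg_left (rt4_mono ?_) hη.le)
  exact N4_mono hsm.continuous hball

/-- growth of test functions of the base wave -/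
lemma Dat.grow (h : Dat Γ ρ D φ m B) {Φ : (Fin 4 → ℝ) → ℝ} {L : ℝ} (hΦ : Tst Φ L) :
    ∃ C : ℝ, 0 ≤ C ∧ ∀ r : ℝ, ∀ᶠ n in atTop, ∀ p, ∀ t : Fin 4 → ℂ, (∀ j, ‖t j‖ < r) →
      |Φ fun j => cutWave (φ n) (m n) (t j) p| ≤ C * (1 + Nn φ m (r + 1) n p) := by
  obtain ⟨C, hC0, hC⟩ := h.sup
  have hL := hΦ.L_nonneg
  refine ⟨8 * L * (1 + C) ^ 4, by positivity, fun r => ?_⟩
  filter_upwards [hC r] with n hn p t ht
  set N := Nn φ m (r + 1) n p with hN
  have hN0 : 0 ≤ N := Nn_nonneg _ _ _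
  set ν := rt4 N with hν
  have hν0 : 0 ≤ ν := rt4_nonneg _
  have hν4 : ν ^ 4 = N := rt4_pow hN0
  set v : Fin 4 → ℝ := fun j => cutWave (φ n) (m n) (t j) p with hv
  have h1 : ‖v‖ ≤ C * ν := by
    rw [pi_norm_le_iff_of_nonneg (by positivity)]
    intro j
    rw [Real.norm_eq_abs]
    exact hn p (t j) (ht j)
  have h2 : (1 + ‖v‖) ^ 4 ≤ ((1 + C) * (1 + ν)) ^ 4 := by
    refine pow_le_pow_left₀ (by positivity) ?_ 4
    nlinarith
  calc |Φ v| ≤ L * (1 + ‖v‖) ^ 4 := hΦ.grow v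
    _ ≤ L * ((1 + C) * (1 + ν)) ^ 4 := mul_le_mul_of_nonneg_left h2 hL
    _ = L * (1 + C) ^ 4 * (1 + ν) ^ 4 := by ring
    _ ≤ L * (1 + C) ^ 4 * (8 * (1 + ν ^ 4)) :=
        mul_le_mul_of_nonneg_left (four_conv hν0) (by positivity)
    _ = 8 * L * (1 + C) ^ 4 * (1 + N) := by rw [hν4]; ring

/-- modulus of continuity of test functions of the base wave -/
lemma Dat.tmod (h : Dat Γ ρ D φ m B) {Φ : (Fin 4 → ℝ) → ℝ} {L : ℝ} (hΦ : Tst Φ L) {η : ℝ}
    (hη : 0 < η) :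
    ∃ d > 0, ∀ r : ℝ, ∀ᶠ n in atTop, ∀ p, ∀ t t' : Fin 4 → ℂ, (∀ j, ‖t j‖ < r) →
      (∀ j, ‖t' j‖ < r) → (∀ j, ‖t' j - t j‖ < d) →
      |Φ (fun j => cutWave (φ n) (m n) (t j) p) - Φ (fun j => cutWave (φ n) (m n) (t' j) p)|
        ≤ η * (1 + Nn φ m (r + 1) n p) := by
  obtain ⟨C, hC0, hC⟩ := h.sup
  have hL := hΦ.L_nonneg
  set η' := η / (8 * (L + 1) * (1 + 2 * C) ^ 3) with hη'
  have hη'0 : 0 < η' := by positivity
  obtain ⟨d, hd, hmod⟩ := h.mod hη'0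
  refine ⟨d, hd, fun r => ?_⟩
  filter_upwards [hC r, hmod r] with n hn hn2 p t t' ht ht' htt
  set N := Nn φ m (r + 1) n p with hN
  have hN0 : 0 ≤ N := Nn_nonneg _ _ _
  set ν := rt4 N with hν
  have hν0 : 0 ≤ ν := rt4_nonneg _
  have hν4 : ν ^ 4 = N := rt4_pow hN0
  set v : Fin 4 → ℝ := fun j => cutWave (φ n) (m n) (t j) p with hv
  set v' : Fin 4 → ℝ := fun j => cutWave (φ n) (m n) (t' j) p with hv'
  have h1 : ‖v‖ ≤ C * ν := by
    rw [pi_norm_le_iff_of_nonneg (by positivity)]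
    intro j
    rw [Real.norm_eq_abs]
    exact hn p (t j) (ht j)
  have h1' : ‖v'‖ ≤ C * ν := by
    rw [pi_norm_le_iff_of_nonneg (by positivity)]
    intro j
    rw [Real.norm_eq_abs]
    exact hn p (t' j) (ht' j)
  have h2 : ‖v - v'‖ ≤ η' * ν := by
    rw [pi_norm_le_iff_of_nonneg (by positivity)]
    intro j
    rw [Real.norm_eq_abs, Pi.sub_apply]
    exact hn2 p (t j) (t' j) (ht j) (htt j)
  have h3 : (1 + ‖v‖ + ‖v'‖) ^ 3 ≤ ((1 + 2 * C) * (1 + ν)) ^ 3 := by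
    refine pow_le_pow_left₀ (by positivity) ?_ 3
    nlinarith
  calc |Φ v - Φ v'| ≤ L * ‖v - v'‖ * (1 + ‖v‖ + ‖v'‖) ^ 3 := hΦ.lip v v'
    _ ≤ L * (η' * ν) * ((1 + 2 * C) * (1 + ν)) ^ 3 := by gcongr
    _ = L * η' * (1 + 2 * C) ^ 3 * (ν * (1 + ν) ^ 3) := by ring
    _ ≤ (L + 1) * η' * (1 + 2 * C) ^ 3 * (1 + ν) ^ 4 := by
        have a1 : ν * (1 + ν) ^ 3 ≤ (1 + ν) ^ 4 := by
          have : (1 + ν) ^ 4 = (1 + ν) * (1 + ν) ^ 3 := by ring
          rw [this]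
          exact mul_le_mul_of_nonneg_right (by linarith) (by positivity)
        have a2 : L * η' * (1 + 2 * C) ^ 3 ≤ (L + 1) * η' * (1 + 2 * C) ^ 3 := by
          have : 0 ≤ η' * (1 + 2 * C) ^ 3 := by positivity
          nlinarith
        exact mul_le_mul a2 a1 (by positivity) (by positivity)
    _ ≤ (L + 1) * η' * (1 + 2 * C) ^ 3 * (8 * (1 + ν ^ 4)) :=
        mul_le_mul_of_nonneg_left (four_conv hν0) (by positivity)
    _ = η * (1 + N) := by
        rw [hν4, hη']; field_simp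

end

end Berry
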