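import Pool.Agent.LibH11.Berry.RInv

/-!
Asymptotic translation invariance of the base wave against weights depending on `ρ`.
-/

open UpperHalfPlane MeasureTheory ProbabilityTheory MatrixGroups Filter Topology Set
  InnerProductSpace Laplacian
open scoped ENNReal NNReal

namespace Berry

noncomputable section

variable {Γ : Subgroup SL(2, ℝ)} {ρ : ℍ → ℝ} {D : Set ℍ} {φ : ℕ → ℍ → ℝ} {m : ℕ → ℝ} {B : ℝ}

/-- weighted averages of a test function of the base wave -/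
def Tw (D : Set ℍ) (ρ : ℍ → ℝ) (φ : ℕ → ℍ → ℝ) (m : ℕ → ℝ) (Φ : (Fin 4 → ℝ) → ℝ) (h : ℝ → ℝ)
    (n : ℕ) (t : Fin 4 → ℂ) : ℝ :=
  ∫ p, h (ρ p.1) * Φ (fun j => cutWave (φ n) (m n) (t j) p) ∂(frameProb D)

lemma Dat.tendsto_div (h : Dat Γ ρ D φ m B) (x : ℂ) :
    Tendsto (fun n => ‖x / (m n : ℂ)‖) atTop (𝓝 0) := by
  have h1 : Tendsto (fun n => ‖x‖ / m n) atTop (𝓝 0) := h.eig.tendsto.const_div_atTop ‖x‖
  refine h1.congr' ?_
  filter_upwards [h.eig.tendsto.eventually_gt_atTop 0] with n hm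
  rw [norm_div, Complex.norm_real, Real.norm_of_nonneg hm.le]

lemma Dat.tendsto_scaled (h : Dat Γ ρ D φ m B) (x s : ℂ) :
    Tendsto (fun n => x / (((Complex.I + s / (m n : ℂ)).im : ℝ) : ℂ)) atTop (𝓝 x) := by
  have h1 : Tendsto (fun n => (Complex.I + s / (m n : ℂ)).im) atTop (𝓝 1) := by
    have h2 : Tendsto (fun n => s / (m n : ℂ)) atTop (𝓝 0) := by
      rw [tendsto_zero_iff_norm_tendsto_zero]; exact h.tendsto_div s
    have h3 := (Complex.continuous_im.tendsto _).comp (h2.const_add Complex.I)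
    rw [add_zero, Complex.I_im] at h3
    exact h3
  have h2 := (Complex.continuous_ofReal.tendsto _).comp h1
  rw [Complex.ofReal_one] at h2
  have h3 := (tendsto_const_nhds (x := x) (f := atTop (α := ℕ))).div h2 one_ne_zero
  rw [div_one] at h3
  exact h3

/-- the base point moves little -/
lemma Dat.tendsto_point (h : Dat Γ ρ D φ m B) (s : ℂ) :
    Tendsto (fun n => (ofComplex (Complex.I + s / (m n : ℂ)) : ℍ)) atTop (𝓝 I) := by
  have h2 : Tendsto (fun n => s / (m n : ℂ)) atTop (𝓝 0) := by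
    rw [tendsto_zero_iff_norm_tendsto_zero]; exact h.tendsto_div s
  have h3 : Tendsto (fun n => Complex.I + s / (m n : ℂ)) atTop (𝓝 (Complex.I + 0)) :=
    h2.const_add Complex.I
  rw [add_zero] at h3
  have h4 : ContinuousAt (ofComplex : ℂ → ℍ) Complex.I := by
    have := (contMDiffAt_ofComplex (n := 0) (z := Complex.I) (by simp)).continuousAt
    exact this
  have h5 := h4.tendsto.comp h3
  have e : (ofComplex Complex.I : ℍ) = I := by
    have : (Complex.I : ℂ) = ((I : ℍ) : ℂ) := rfl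
    rw [this, ofComplex_apply]
  rw [e] at h5
  exact h5

lemma Dat.points (h : Dat Γ ρ D φ m B) (x s : ℂ) : ∀ᶠ n in atTop, ∀ p,
      cutWave (φ n) (m n) (x + s) p
        = φ n (frame p • ((ofComplex (Complex.I + s / (m n : ℂ)) : ℍ).toSL2R •
        (ofComplex (Complex.I + (x / (((Complex.I + s / (m n : ℂ)).im : ℝ) : ℂ)) / (m n : ℂ)) : ℍ)))
      ∧ cutWave (φ n) (m n) (x / (((Complex.I + s / (m n : ℂ)).im : ℝ) : ℂ)) p
        = φ n (frame p • (ofComplex
          (Complex.I + (x / (((Complex.I + s / (m n : ℂ)).im : ℝ) : ℂ)) / (m n : ℂ)) : ℍ)) := by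
  have h1 := (h.tendsto_div (x + s)).eventually (gt_mem_nhds (show (0:ℝ) < 1 / 4 by norm_num))
  have h2 := (h.tendsto_div s).eventually (gt_mem_nhds (show (0:ℝ) < 1 / 4 by norm_num))
  have h3 : ∀ᶠ n in atTop, ‖x / (((Complex.I + s / (m n : ℂ)).im : ℝ) : ℂ)‖ < ‖x‖ + 1 :=
    (h.tendsto_scaled x s).norm.eventually (gt_mem_nhds (by linarith))
  have h4 : ∀ᶠ n in atTop, (‖x‖ + 1) / m n < 1 / 4 :=
    (h.eig.tendsto.const_div_atTop (‖x‖ + 1)).eventually
      (gt_mem_nhds (show (0:ℝ) < 1 / 4 by norm_num))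
  filter_upwards [h1, h2, h3, h4, h.eig.tendsto.eventually_gt_atTop 0] with n k1 k2 k3 k4 hm p
  constructor
  · rw [cutWave_eq k1.le]
    unfold localWave
    rw [shift_point (im_pos_of_norm (by linarith)) (im_pos_of_norm (by linarith))]
  · rw [cutWave_eq]
    · rfl
    · rw [norm_div, Complex.norm_real (m n), Real.norm_of_nonneg hm.le]
      refine le_trans ?_ k4.le
      exact div_le_div_of_nonneg_right k3.le hm.le

/-- uniform continuity of the weights -/
lemma Geo.weight (hg : Geo Γ ρ D) {w : ℝ → ℝ} (hw : Continuous w) {ε : ℝ} (hε : 0 < ε) :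
    ∃ δ > 0, ∀ z z' : ℍ, dist z z' < δ → |w (ρ z) - w (ρ z')| < ε := by
  obtain ⟨K, hK⟩ := hg.bdd
  have h1 := (isCompact_Icc (a := -K) (b := K)).uniformContinuousOn_of_continuous hw.continuousOn
  obtain ⟨δ₁, hδ₁, h2⟩ := Metric.uniformContinuousOn_iff.1 h1 ε hε
  obtain ⟨δ₂, hδ₂, h3⟩ := Metric.uniformContinuous_iff.1 hg.unif δ₁ hδ₁
  refine ⟨δ₂, hδ₂, fun z z' hz => ?_⟩
  have := h2 (ρ z) (abs_le.1 (hK z)) (ρ z') (abs_le.1 (hK z')) (h3 hz)
  rw [Real.dist_eq] at this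
  exact this

lemma Geo.weight_bdd (hg : Geo Γ ρ D) {w : ℝ → ℝ} (hw : Continuous w) :
    ∃ H : ℝ, 0 ≤ H ∧ ∀ z, |w (ρ z)| ≤ H := by
  obtain ⟨K, hK⟩ := hg.bdd
  obtain ⟨H, hH⟩ := (isCompact_Icc (a := -K) (b := K)).exists_bound_of_continuousOn
    hw.continuousOn
  refine ⟨H, (norm_nonneg _).trans (hH (ρ I) (abs_le.1 (hK I))), fun z => ?_⟩
  exact hH (ρ z) (abs_le.1 (hK z))

lemma Dat.tst_meas (h : Dat Γ ρ D φ m B) {Φ : (Fin 4 → ℝ) → ℝ} (hΦ : Continuous Φ) (n : ℕ)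
    (t : Fin 4 → ℂ) : Measurable fun p => Φ (fun j => cutWave (φ n) (m n) (t j) p) :=
  hΦ.measurable.comp (measurable_pi_lambda _ fun j => cutWave_meas (h.reig n).continuous (m n) (t j))

lemma Dat.tst_bdd (h : Dat Γ ρ D φ m B) {Φ : (Fin 4 → ℝ) → ℝ} {L : ℝ} (hΦ : Tst Φ L) (n : ℕ) :
    ∃ C : ℝ, ∀ (t : Fin 4 → ℂ) p, |Φ (fun j => cutWave (φ n) (m n) (t j) p)| ≤ C := by
  obtain ⟨C, hC⟩ := h.bdd n
  have hL := hΦ.L_nonneg
  have hC0 : 0 ≤ C := (abs_nonneg _).trans (hC I)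
  refine ⟨L * (1 + C) ^ 4, fun t p => (hΦ.grow _).trans ?_⟩
  refine mul_le_mul_of_nonneg_left (pow_le_pow_left₀ (by positivity) ?_ 4) hL
  have : ‖fun j => cutWave (φ n) (m n) (t j) p‖ ≤ C := by
    rw [pi_norm_le_iff_of_nonneg hC0]
    intro j
    rw [Real.norm_eq_abs]
    exact cutWave_bdd hC _ _ _
  linarith

/-- **asymptotic invariance of the weighted averages** -/
lemma Dat.tw_shift [Countable Γ] (h : Dat Γ ρ D φ m B) {Φ : (Fin 4 → ℝ) → ℝ} {L : ℝ}
    (hΦ : Tst Φ L) {w : ℝ → ℝ} (hw : Continuous w) (t : Fin 4 → ℂ) (s : ℂ) :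
    Tendsto (fun n => Tw D ρ φ m Φ w n (fun j => t j + s) - Tw D ρ φ m Φ w n t) atTop (𝓝 0) := by
  have hP := h.prob
  have hL := hΦ.L_nonneg
  have hρc : Continuous ρ := h.geo.unif.continuous
  obtain ⟨H, hH0, hH⟩ := h.geo.weight_bdd hw
  obtain ⟨CΦ, hCΦ0, hgrow⟩ := h.grow hΦ
  set r := ‖t 0‖ + ‖t 1‖ + ‖t 2‖ + ‖t 3‖ + 1 with hr
  have hrj : ∀ j, ‖t j‖ + 1 ≤ r := by
    intro j
    have h0 := norm_nonneg (t 0)
    have h1 := norm_nonneg (t 1)
    have h2 := norm_nonneg (t 2)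
    have h3 := norm_nonneg (t 3)
    fin_cases j <;> simp only [Fin.zero_eta, Fin.mk_one, Fin.reduceFinMk] <;> linarith
  set V := (volume : Measure ℂ).real (Metric.ball (0:ℂ) (r + 1)) with hV
  have hV0 : 0 ≤ V := measureReal_nonneg
  have hB0 := h.B_nonneg
  set Q := 1 + V * B with hQ
  have hQ0 : 0 < Q := by positivity
  rw [Metric.tendsto_nhds]
  intro ε hε
  -- modulus for the test function
  obtain ⟨d, hd, hmod⟩ := h.tmod hΦ (η := ε / (4 * (H + 1) * Q)) (by positivity)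
  -- modulus for the weight
  obtain ⟨δ, hδ, hwt⟩ := h.geo.weight hw (ε := ε / (4 * (CΦ + 1) * Q)) (by positivity)
  have hnear : ∀ j, ∀ᶠ n in atTop,
      ‖t j / (((Complex.I + s / (m n : ℂ)).im : ℝ) : ℂ) - t j‖ < d
      ∧ ‖t j / (((Complex.I + s / (m n : ℂ)).im : ℝ) : ℂ)‖ < ‖t j‖ + 1 := by
    intro j
    have h1 := Metric.tendsto_nhds.1 (h.tendsto_scaled (t j) s) d hd
    have h3 : ∀ᶠ n in atTop, ‖t j / (((Complex.I + s / (m n : ℂ)).im : ℝ) : ℂ)‖ < ‖t j‖ + 1 :=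
      (h.tendsto_scaled (t j) s).norm.eventually (gt_mem_nhds (by linarith))
    filter_upwards [h1, h3] with n k1 k3
    rw [dist_eq_norm] at k1
    exact ⟨k1, k3⟩
  have hpt : ∀ᶠ n in atTop, ∀ j, ∀ p, cutWave (φ n) (m n) (t j + s) p
        = φ n (frame p • ((ofComplex (Complex.I + s / (m n : ℂ)) : ℍ).toSL2R •
        (ofComplex (Complex.I + (t j / (((Complex.I + s / (m n : ℂ)).im : ℝ) : ℂ)) / (m n : ℂ)) : ℍ)))
      ∧ cutWave (φ n) (m n) (t j / (((Complex.I + s / (m n : ℂ)).im : ℝ) : ℂ)) p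
        = φ n (frame p • (ofComplex
          (Complex.I + (t j / (((Complex.I + s / (m n : ℂ)).im : ℝ) : ℂ)) / (m n : ℂ)) : ℍ)) :=
    eventually_all.2 fun j => h.points (t j) s
  have hbase := Metric.tendsto_nhds.1 (h.tendsto_point s) δ hδ
  filter_upwards [hmod r, hgrow r, eventually_all.2 hnear, hpt, hbase, h.Nn_mean (r + 1)]
    with n hn1 hn2 hn3 hn4 hn5 hn6
  set a : ℂ := (((Complex.I + s / (m n : ℂ)).im : ℝ) : ℂ) with ha
  set A : SL(2, ℝ) := (ofComplex (Complex.I + s / (m n : ℂ)) : ℍ).toSL2R with hA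
  set W : Fin 4 → ℍ := fun j => ofComplex (Complex.I + (t j / a) / (m n : ℂ)) with hW
  have hφc : Continuous (φ n) := (h.reig n).continuous
  obtain ⟨CN, hCN⟩ := h.tst_bdd hΦ n
  set G : Fin 4 → ℂ → ℍ × ℝ → ℝ := fun j x p => cutWave (φ n) (m n) x p with hG
  -- exact invariance
  have hinvar : Tw D ρ φ m Φ w n (fun j => t j + s)
      = ∫ p, w (ρ (frame p • (A⁻¹ • I))) * Φ (fun j => cutWave (φ n) (m n) (t j / a) p)
        ∂(frameProb D) := by
    borelize SL(2, ℝ)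
    have hc : Continuous fun g : SL(2, ℝ) => w (ρ (g • (A⁻¹ • I))) * Φ (fun j => φ n (g • W j)) :=
      (hw.comp (hρc.comp (continuous_id.smul continuous_const))).mul
        (hΦ.cont.comp (continuous_pi fun j => hφc.comp (continuous_id.smul continuous_const)))
    have h1 := frame_invariant h.geo.dom h.geo.meas h.geo.fin hc.measurable (fun γ hγ g => by
      simp only [mul_smul, h.eig.invariant n γ hγ, h.geo.inv γ hγ]) A
    have e1 : ∀ p : ℍ × ℝ, (frame p * A) • (A⁻¹ • I) = (p.1 : ℍ) := by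
      intro p
      rw [mul_smul, smul_inv_smul, frame_smul_I]
    simp only [e1] at h1
    have e2 : Tw D ρ φ m Φ w n (fun j => t j + s)
        = ∫ p, w (ρ p.1) * Φ (fun j => φ n ((frame p * A) • W j)) ∂(frameProb D) := by
      unfold Tw
      congr 1; funext p
      congr 2; funext j
      rw [(hn4 j p).1, mul_smul]
    rw [e2, h1]
    congr 1; funext p
    congr 2; funext j
    rw [(hn4 j p).2]
  -- integrability
  have m0 : ∀ z : ℍ, Measurable fun p : ℍ × ℝ => w (ρ (frame p • z)) := fun z =>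
    (hw.comp (hρc.comp (frame_continuous.smul continuous_const))).measurable
  have m1 : Measurable fun p : ℍ × ℝ => w (ρ p.1) := (hw.comp (hρc.comp continuous_fst)).measurable
  have hCN0 : 0 ≤ CN := (abs_nonneg _).trans (hCN t (I, 0))
  have i1 : Integrable (fun p => w (ρ (frame p • (A⁻¹ • I)))
      * Φ (fun j => cutWave (φ n) (m n) (t j / a) p)) (frameProb D) :=
    integrable_bdd (C := H * CN) ((m0 _).mul (h.tst_meas hΦ.cont n _)) fun p => by
      rw [abs_mul]; exact mul_le_mul (hH _) (hCN _ _) (abs_nonneg _) hH0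
  have i2 : Integrable (fun p => w (ρ p.1) * Φ (fun j => cutWave (φ n) (m n) (t j) p))
      (frameProb D) :=
    integrable_bdd (C := H * CN) (m1.mul (h.tst_meas hΦ.cont n _)) fun p => by
      rw [abs_mul]; exact mul_le_mul (hH _) (hCN _ _) (abs_nonneg _) hH0
  have iN : Integrable (fun p => 1 + Nn φ m (r + 1) n p) (frameProb D) :=
    (integrable_const _).add (h.Nn_int (r + 1) n)
  have hEN : ∫ p, (1 + Nn φ m (r + 1) n p) ∂(frameProb D) ≤ Q := by
    rw [integral_add (integrable_const _) (h.Nn_int (r + 1) n)]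
    simp only [integral_const, probReal_univ, smul_eq_mul, one_mul]
    rw [hQ]; linarith
  -- pointwise estimate
  have hpw : ∀ p, |w (ρ (frame p • (A⁻¹ • I))) * Φ (fun j => cutWave (φ n) (m n) (t j / a) p)
      - w (ρ p.1) * Φ (fun j => cutWave (φ n) (m n) (t j) p)|
      ≤ (ε / (2 * Q)) * (1 + Nn φ m (r + 1) n p) := by
    intro p
    have hN0 : 0 ≤ 1 + Nn φ m (r + 1) n p := by
      have := Nn_nonneg (φ := φ) (m := m) (r + 1) n p; linarith
    have g1 := hn1 p t (fun j => t j / a) (fun j => by have := hrj j; linarith)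
      (fun j => lt_of_lt_of_le (hn3 j).2 (hrj j)) (fun j => (hn3 j).1)
    have g2 := hn2 p (fun j => t j / a) (fun j => lt_of_lt_of_le (hn3 j).2 (hrj j))
    have hdist : dist (frame p • (A⁻¹ • I)) (p.1 : ℍ) < δ := by
      have q : dist (frame p • (A⁻¹ • I)) (p.1 : ℍ) = dist (frame p • (A⁻¹ • I)) (frame p • I) := by
        rw [frame_smul_I]
      rw [q, dist_smul, ← dist_smul A, smul_inv_smul, hA, toSL2R_smul_I, dist_comm]
      exact hn5
    have g3 := (hwt _ _ hdist).le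
    have e1 : w (ρ (frame p • (A⁻¹ • I))) * Φ (fun j => cutWave (φ n) (m n) (t j / a) p)
      - w (ρ p.1) * Φ (fun j => cutWave (φ n) (m n) (t j) p)
      = (w (ρ (frame p • (A⁻¹ • I))) - w (ρ p.1))
          * Φ (fun j => cutWave (φ n) (m n) (t j / a) p)
        - w (ρ p.1) * (Φ (fun j => cutWave (φ n) (m n) (t j) p)
          - Φ (fun j => cutWave (φ n) (m n) (t j / a) p)) := by ring
    rw [e1]
    refine (abs_sub _ _).trans ?_
    rw [abs_mul, abs_mul]
    have b1 : |w (ρ (frame p • (A⁻¹ • I))) - w (ρ p.1)|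
        * |Φ (fun j => cutWave (φ n) (m n) (t j / a) p)|
        ≤ (ε / (4 * (CΦ + 1) * Q)) * (CΦ * (1 + Nn φ m (r + 1) n p)) :=
      mul_le_mul g3 g2 (abs_nonneg _) (by positivity)
    have b2 : |w (ρ p.1)| * |Φ (fun j => cutWave (φ n) (m n) (t j) p)
          - Φ (fun j => cutWave (φ n) (m n) (t j / a) p)|
        ≤ H * ((ε / (4 * (H + 1) * Q)) * (1 + Nn φ m (r + 1) n p)) :=
      mul_le_mul (hH _) g1 (abs_nonneg _) hH0
    have c1 : (ε / (4 * (CΦ + 1) * Q)) * (CΦ * (1 + Nn φ m (r + 1) n p))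
        ≤ (ε / (4 * Q)) * (1 + Nn φ m (r + 1) n p) := by
      have : (ε / (4 * (CΦ + 1) * Q)) * CΦ ≤ ε / (4 * Q) := by
        rw [div_mul_eq_mul_div, div_le_div_iff₀ (by positivity) (by positivity)]
        nlinarith [mul_pos hε hQ0]
      calc _ = ((ε / (4 * (CΦ + 1) * Q)) * CΦ) * (1 + Nn φ m (r + 1) n p) := by ring
        _ ≤ _ := mul_le_mul_of_nonneg_right this hN0
    have c2 : H * ((ε / (4 * (H + 1) * Q)) * (1 + Nn φ m (r + 1) n p))
        ≤ (ε / (4 * Q)) * (1 + Nn φ m (r + 1) n p) := by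
      have : H * (ε / (4 * (H + 1) * Q)) ≤ ε / (4 * Q) := by
        rw [mul_div_assoc', div_le_div_iff₀ (by positivity) (by positivity)]
        nlinarith [mul_pos hε hQ0]
      calc _ = (H * (ε / (4 * (H + 1) * Q))) * (1 + Nn φ m (r + 1) n p) := by ring
        _ ≤ _ := mul_le_mul_of_nonneg_right this hN0
    have c3 : (ε / (2 * Q)) * (1 + Nn φ m (r + 1) n p)
        = (ε / (4 * Q)) * (1 + Nn φ m (r + 1) n p) + (ε / (4 * Q)) * (1 + Nn φ m (r + 1) n p) := by
      field_simp; ring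
    linarith
  rw [dist_zero_right, hinvar]
  unfold Tw
  rw [← integral_sub i1 i2]
  have hfin : ‖∫ p, (w (ρ (frame p • (A⁻¹ • I))) * Φ (fun j => cutWave (φ n) (m n) (t j / a) p)
      - w (ρ p.1) * Φ (fun j => cutWave (φ n) (m n) (t j) p)) ∂(frameProb D)‖
      ≤ ∫ p, (ε / (2 * Q)) * (1 + Nn φ m (r + 1) n p) ∂(frameProb D) :=
    norm_integral_le_of_norm_le (iN.const_mul _) (Eventually.of_forall hpw)
  refine lt_of_le_of_lt hfin ?_
  rw [integral_const_mul]
  calc (ε / (2 * Q)) * ∫ p, (1 + Nn φ m (r + 1) n p) ∂(frameProb D) ≤ (ε / (2 * Q)) * Q :=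
        mul_le_mul_of_nonneg_left hEN (by positivity)
    _ = ε / 2 := by field_simp
    _ < ε := half_lt_self hε

end

end Berry
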