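import Pool.Agent.LibH11.Berry.RInv2

/-!
Asymptotic translation invariance of the local waves for a conformal metric.
-/

open UpperHalfPlane MeasureTheory ProbabilityTheory MatrixGroups Filter Topology Set
  InnerProductSpace Laplacian
open scoped ENNReal NNReal

namespace Berry

noncomputable section

/-! ### A partition of unity on the line -/

/-- clamping to `[0, 1]` -/
def clamp (u : ℝ) : ℝ := min 1 (max 0 u)

lemma clamp_continuous : Continuous clamp := by unfold clamp; fun_prop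

lemma clamp_mono : Monotone clamp := fun a b h => by
  unfold clamp
  exact min_le_min le_rfl (max_le_max le_rfl h)

lemma clamp_one {u : ℝ} (h : 1 ≤ u) : clamp u = 1 := by
  unfold clamp
  rw [max_eq_right (by linarith), min_eq_left h]

lemma clamp_zero {u : ℝ} (h : u ≤ 0) : clamp u = 0 := by
  unfold clamp
  rw [max_eq_left h, min_eq_right zero_le_one]

/-- one bump of the partition of unity -/
def bmp (δ u₀ : ℝ) (k : ℕ) (u : ℝ) : ℝ :=
  clamp ((u - (u₀ + k * δ)) / δ) - clamp ((u - (u₀ + (k + 1 : ℕ) * δ)) / δ)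

lemma bmp_continuous (δ u₀ : ℝ) (k : ℕ) : Continuous (bmp δ u₀ k) := by
  unfold bmp
  exact (clamp_continuous.comp (by fun_prop)).sub (clamp_continuous.comp (by fun_prop))

lemma bmp_nonneg {δ : ℝ} (hδ : 0 < δ) (u₀ : ℝ) (k : ℕ) (u : ℝ) : 0 ≤ bmp δ u₀ k u := by
  unfold bmp
  rw [sub_nonneg]
  apply clamp_mono
  apply div_le_div_of_nonneg_right _ hδ.le
  push_cast
  nlinarith

lemma bmp_zero {δ : ℝ} (hδ : 0 < δ) (u₀ : ℝ) (k : ℕ) {u : ℝ}
    (h : δ ≤ |u - (u₀ + (k + 1) * δ)|) : bmp δ u₀ k u = 0 := by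
  unfold bmp
  rcases le_abs.1 h with h1 | h1
  · rw [clamp_one, clamp_one, sub_self]
    · rw [le_div_iff₀ hδ]; push_cast; linarith
    · rw [le_div_iff₀ hδ]; nlinarith
  · rw [clamp_zero, clamp_zero, sub_self]
    · apply div_nonpos_of_nonpos_of_nonneg _ hδ.le
      push_cast; linarith
    · apply div_nonpos_of_nonpos_of_nonneg _ hδ.le
      nlinarith

lemma bmp_sum {δ : ℝ} (hδ : 0 < δ) {K : ℝ} {M : ℕ} (hM : 2 * K + δ ≤ M * δ) {u : ℝ}
    (hu : |u| ≤ K) : ∑ k ∈ Finset.range M, bmp δ (-K - δ) k u = 1 := by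
  obtain ⟨h1, h2⟩ := abs_le.1 hu
  unfold bmp
  have := Finset.sum_range_sub' (fun k : ℕ => clamp ((u - (-K - δ + k * δ)) / δ)) M
  rw [this, clamp_one, clamp_zero, sub_zero]
  · apply div_nonpos_of_nonpos_of_nonneg _ hδ.le
    linarith
  · rw [le_div_iff₀ hδ]; push_cast; linarith

variable {Γ : Subgroup SL(2, ℝ)} {ρ : ℍ → ℝ} {D : Set ℍ} {φ : ℕ → ℍ → ℝ} {m : ℕ → ℝ} {B : ℝ}

/-- averages of a test function of the local wave -/
def TF (D : Set ℍ) (ρ : ℍ → ℝ) (φ : ℕ → ℍ → ℝ) (m : ℕ → ℝ) (Φ : (Fin 4 → ℝ) → ℝ)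
    (n : ℕ) (x : Fin 4 → ℂ) : ℝ :=
  ∫ p, Real.exp (2 * ρ p.1) * Φ (fun j => cutWave (φ n) (m n) (x j / (Real.exp (ρ p.1) : ℂ)) p)
    ∂(frameProb D)

lemma Dat.scaled_meas (h : Dat Γ ρ D φ m B) (n : ℕ) (x : ℂ) :
    Measurable fun p : ℍ × ℝ => cutWave (φ n) (m n) (x / (Real.exp (ρ p.1) : ℂ)) p := by
  have hρc : Continuous ρ := h.geo.unif.continuous
  have h1 : Measurable (Function.uncurry (cutWave (φ n) (m n))) :=
    (h.single n (frameProb D)).meas_uncurry
  have hc1 : Continuous fun p : ℍ × ℝ => ((Real.exp (ρ p.1) : ℝ) : ℂ) :=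
    Complex.continuous_ofReal.comp (Real.continuous_exp.comp (hρc.comp continuous_fst))
  have hc : Continuous fun p : ℍ × ℝ => x / ((Real.exp (ρ p.1) : ℝ) : ℂ) := by
    refine continuous_const.div hc1 fun p => ?_
    rw [Ne, Complex.ofReal_eq_zero]
    exact (Real.exp_pos _).ne'
  have h2 : Measurable fun p : ℍ × ℝ => (x / ((Real.exp (ρ p.1) : ℝ) : ℂ), p) :=
    hc.measurable.prodMk measurable_id
  have h3 := h1.comp h2
  simpa only [Function.comp_def, Function.uncurry_apply_pair] using h3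

lemma Dat.tst_meas' (h : Dat Γ ρ D φ m B) {Φ : (Fin 4 → ℝ) → ℝ} (hΦ : Continuous Φ) (n : ℕ)
    (x : Fin 4 → ℂ) : Measurable fun p : ℍ × ℝ =>
      Φ (fun j => cutWave (φ n) (m n) (x j / (Real.exp (ρ p.1) : ℂ)) p) :=
  hΦ.measurable.comp (measurable_pi_lambda _ fun j => h.scaled_meas n (x j))

lemma exp_diff {ρ₀ c δ K : ℝ} (hρ : |ρ₀| ≤ K) (hδ1 : δ ≤ 1) (h : |ρ₀ - c| < δ) (x : ℂ) :
    ‖(Real.exp (-c) : ℂ) * x - x / (Real.exp ρ₀ : ℂ)‖ ≤ 2 * Real.exp K * δ * ‖x‖ := by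
  have e1 : (Real.exp (-c) : ℂ) * x - x / (Real.exp ρ₀ : ℂ)
      = ((Real.exp (-ρ₀) * (Real.exp (ρ₀ - c) - 1) : ℝ) : ℂ) * x := by
    have h1 : Real.exp (-c) = Real.exp (-ρ₀) * Real.exp (ρ₀ - c) := by
      rw [← Real.exp_add]; congr 1; ring
    rw [h1, div_eq_mul_inv, ← Complex.ofReal_inv, ← Real.exp_neg]
    push_cast
    ring
  rw [e1, norm_mul, Complex.norm_real, norm_mul, Real.norm_of_nonneg (Real.exp_pos _).le,
    Real.norm_eq_abs]
  have h2 : |Real.exp (ρ₀ - c) - 1| ≤ 2 * |ρ₀ - c| :=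
    Real.abs_exp_sub_one_le (by linarith)
  have h3 : Real.exp (-ρ₀) ≤ Real.exp K :=
    Real.exp_le_exp.2 (by have := (abs_le.1 hρ).1; linarith)
  have h4 : Real.exp (-ρ₀) * |Real.exp (ρ₀ - c) - 1| ≤ Real.exp K * (2 * δ) :=
    mul_le_mul h3 (by linarith) (abs_nonneg _) (Real.exp_pos _).le
  calc Real.exp (-ρ₀) * |Real.exp (ρ₀ - c) - 1| * ‖x‖ ≤ Real.exp K * (2 * δ) * ‖x‖ :=
        mul_le_mul_of_nonneg_right h4 (norm_nonneg _)
    _ = 2 * Real.exp K * δ * ‖x‖ := by ring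

/-- approximation by averages at finitely many fixed scales -/
lemma Dat.approx [Countable Γ] (h : Dat Γ ρ D φ m B) {Φ : (Fin 4 → ℝ) → ℝ} {L : ℝ}
    (hΦ : Tst Φ L) (X : ℝ) {ε : ℝ} (hε : 0 < ε) :
    ∃ (M : ℕ) (w : ℕ → ℝ → ℝ) (c : ℕ → ℝ), (∀ k, Continuous (w k)) ∧ ∀ᶠ n in atTop,
      ∀ x : Fin 4 → ℂ, (∀ j, ‖x j‖ ≤ X) →
        |TF D ρ φ m Φ n x - ∑ k ∈ Finset.range M, Tw D ρ φ m Φ (w k) n (fun j => (c k : ℂ) * x j)|
          ≤ ε := by
  have hP := h.prob
  have hL := hΦ.L_nonneg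
  have hρc : Continuous ρ := h.geo.unif.continuous
  obtain ⟨K₀, hK₀⟩ := h.geo.bdd
  set K := K₀ with hKdef
  have hK := hK₀
  have hK0 : 0 ≤ K := (abs_nonneg _).trans (hK I)
  set r := Real.exp (K + 1) * (|X| + 1) + 1 with hr
  have hr0 : 0 < r := by positivity
  set V := (volume : Measure ℂ).real (Metric.ball (0:ℂ) (r + 1)) with hV
  have hV0 : 0 ≤ V := measureReal_nonneg
  have hB0 := h.B_nonneg
  set Q := 1 + V * B with hQ
  have hQ0 : 0 < Q := by positivity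
  obtain ⟨d, hd, hmod⟩ := h.tmod hΦ (η := ε / (Real.exp (2 * K) * Q)) (by positivity)
  set δ := min 1 (d / (2 * Real.exp K * (|X| + 1) + 1)) with hδ
  have hδ0 : 0 < δ := by positivity
  have hδ1 : δ ≤ 1 := min_le_left _ _
  have hδd : 2 * Real.exp K * δ * (|X| + 1) < d := by
    have h1 : δ ≤ d / (2 * Real.exp K * (|X| + 1) + 1) := min_le_right _ _
    rw [le_div_iff₀ (by positivity)] at h1
    have : 2 * Real.exp K * δ * (|X| + 1) = δ * (2 * Real.exp K * (|X| + 1)) := by ring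
    rw [this]
    nlinarith
  obtain ⟨M, hM⟩ := exists_nat_ge ((2 * K + δ) / δ)
  rw [div_le_iff₀ hδ0] at hM
  set w : ℕ → ℝ → ℝ := fun k u => bmp δ (-K - δ) k u * Real.exp (2 * u) with hw
  set c : ℕ → ℝ := fun k => Real.exp (-(-K - δ + (k + 1) * δ)) with hc
  have hwc : ∀ k, Continuous (w k) := fun k => (bmp_continuous _ _ _).mul (by fun_prop)
  refine ⟨M, w, c, hwc, ?_⟩
  filter_upwards [hmod r, h.Nn_mean (r + 1)] with n hn hn2 x hx
  obtain ⟨CN, hCN⟩ := h.tst_bdd hΦ n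
  have hCN0 : 0 ≤ CN := (abs_nonneg _).trans (hCN 0 (I, 0))
  have hCN' : ∀ p : ℍ × ℝ,
      |Φ (fun j => cutWave (φ n) (m n) (x j / (Real.exp (ρ p.1) : ℂ)) p)| ≤ CN := fun p =>
    hCN (fun j => x j / (Real.exp (ρ p.1) : ℂ)) p
  have mE : Measurable fun p : ℍ × ℝ => Real.exp (2 * ρ p.1) :=
    (Real.continuous_exp.comp (continuous_const.mul (hρc.comp continuous_fst))).measurable
  have mw : ∀ k, Measurable fun p : ℍ × ℝ => w k (ρ p.1) := fun k =>
    ((hwc k).comp (hρc.comp continuous_fst)).measurable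
  have bw : ∀ k, ∃ H, 0 ≤ H ∧ ∀ z, |w k (ρ z)| ≤ H := fun k => h.geo.weight_bdd (hwc k)
  -- integrability
  have i1 : ∀ k, Integrable (fun p : ℍ × ℝ => w k (ρ p.1)
      * Φ (fun j => cutWave (φ n) (m n) (x j / (Real.exp (ρ p.1) : ℂ)) p)) (frameProb D) := by
    intro k
    obtain ⟨H, hH0, hH⟩ := bw k
    exact integrable_bdd (C := H * CN) ((mw k).mul (h.tst_meas' hΦ.cont n x)) fun p => by
      rw [abs_mul]; exact mul_le_mul (hH _) (hCN' p) (abs_nonneg _) hH0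
  have i2 : ∀ k, Integrable (fun p : ℍ × ℝ => w k (ρ p.1)
      * Φ (fun j => cutWave (φ n) (m n) ((c k : ℂ) * x j) p)) (frameProb D) := by
    intro k
    obtain ⟨H, hH0, hH⟩ := bw k
    exact integrable_bdd (C := H * CN) ((mw k).mul (h.tst_meas hΦ.cont n _)) fun p => by
      rw [abs_mul]; exact mul_le_mul (hH _) (hCN _ p) (abs_nonneg _) hH0
  have hsumE : ∀ p : ℍ × ℝ, ∑ k ∈ Finset.range M, w k (ρ p.1) = Real.exp (2 * ρ p.1) := by
    intro p
    simp only [hw]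
    rw [← Finset.sum_mul, bmp_sum hδ0 hM (hK p.1), one_mul]
  have e1 : TF D ρ φ m Φ n x = ∑ k ∈ Finset.range M, ∫ p : ℍ × ℝ, w k (ρ p.1)
      * Φ (fun j => cutWave (φ n) (m n) (x j / (Real.exp (ρ p.1) : ℂ)) p) ∂(frameProb D) := by
    rw [← integral_finsetSum _ fun k _ => i1 k]
    unfold TF
    congr 1; funext p
    rw [← Finset.sum_mul, hsumE]
  have e2 : TF D ρ φ m Φ n x - ∑ k ∈ Finset.range M, Tw D ρ φ m Φ (w k) n (fun j => (c k : ℂ) * x j)
      = ∫ p : ℍ × ℝ, ∑ k ∈ Finset.range M, (w k (ρ p.1)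
        * Φ (fun j => cutWave (φ n) (m n) (x j / (Real.exp (ρ p.1) : ℂ)) p)
        - w k (ρ p.1) * Φ (fun j => cutWave (φ n) (m n) ((c k : ℂ) * x j) p)) ∂(frameProb D) := by
    have i3 : ∀ k, Integrable (fun p : ℍ × ℝ => w k (ρ p.1)
        * Φ (fun j => cutWave (φ n) (m n) (x j / (Real.exp (ρ p.1) : ℂ)) p)
        - w k (ρ p.1) * Φ (fun j => cutWave (φ n) (m n) ((c k : ℂ) * x j) p)) (frameProb D) :=
      fun k => (i1 k).sub (i2 k)
    rw [e1, ← Finset.sum_sub_distrib, integral_finsetSum _ fun k _ => i3 k]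
    refine Finset.sum_congr rfl fun k _ => ?_
    rw [integral_sub (i1 k) (i2 k)]
    rfl
  rw [e2, ← Real.norm_eq_abs]
  have iN : Integrable (fun p => 1 + Nn φ m (r + 1) n p) (frameProb D) :=
    (integrable_const _).add (h.Nn_int (r + 1) n)
  have hEN : ∫ p, (1 + Nn φ m (r + 1) n p) ∂(frameProb D) ≤ Q := by
    rw [integral_add (integrable_const _) (h.Nn_int (r + 1) n)]
    simp only [integral_const, probReal_univ, smul_eq_mul, one_mul]
    rw [hQ]; linarith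
  have hpw : ∀ p : ℍ × ℝ, ‖∑ k ∈ Finset.range M, (w k (ρ p.1)
        * Φ (fun j => cutWave (φ n) (m n) (x j / (Real.exp (ρ p.1) : ℂ)) p)
        - w k (ρ p.1) * Φ (fun j => cutWave (φ n) (m n) ((c k : ℂ) * x j) p))‖
      ≤ (ε / Q) * (1 + Nn φ m (r + 1) n p) := by
    intro p
    set N1 := 1 + Nn φ m (r + 1) n p with hN1
    have hN0 : 0 ≤ N1 := by
      have := Nn_nonneg (φ := φ) (m := m) (r + 1) n p; linarith
    have hterm : ∀ k ∈ Finset.range M, ‖w k (ρ p.1)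
        * Φ (fun j => cutWave (φ n) (m n) (x j / (Real.exp (ρ p.1) : ℂ)) p)
        - w k (ρ p.1) * Φ (fun j => cutWave (φ n) (m n) ((c k : ℂ) * x j) p)‖
        ≤ w k (ρ p.1) * ((ε / (Real.exp (2 * K) * Q)) * N1) := by
      intro k _
      have hwk : 0 ≤ w k (ρ p.1) := mul_nonneg (bmp_nonneg hδ0 _ _ _) (Real.exp_pos _).le
      rw [← mul_sub, norm_mul, Real.norm_of_nonneg hwk, Real.norm_eq_abs]
      by_cases hz : |ρ p.1 - (-K - δ + (k + 1) * δ)| < δ
      · refine mul_le_mul_of_nonneg_left ?_ hwk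
        have hxj : ∀ j, ‖x j‖ ≤ |X| := fun j => (hx j).trans (le_abs_self X)
        have q1 : ∀ j, ‖x j / (Real.exp (ρ p.1) : ℂ)‖ < r := by
          intro j
          rw [norm_div, Complex.norm_real, Real.norm_of_nonneg (Real.exp_pos _).le,
            div_eq_mul_inv, ← Real.exp_neg]
          have a1 : Real.exp (-ρ p.1) ≤ Real.exp (K + 1) :=
            Real.exp_le_exp.2 (by have := (abs_le.1 (hK p.1)).1; linarith)
          have a2 : ‖x j‖ * Real.exp (-ρ p.1) ≤ (|X| + 1) * Real.exp (K + 1) :=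
            mul_le_mul (by have := hxj j; linarith) a1 (Real.exp_pos _).le (by positivity)
          rw [hr]; linarith
        have q2 : ∀ j, ‖(c k : ℂ) * x j - x j / (Real.exp (ρ p.1) : ℂ)‖ < d := by
          intro j
          refine lt_of_le_of_lt (exp_diff (hK p.1) hδ1 hz (x j)) (lt_of_le_of_lt ?_ hδd)
          exact mul_le_mul_of_nonneg_left (by have := hxj j; linarith) (by positivity)
        have q3 : ∀ j, ‖(c k : ℂ) * x j‖ < r := by
          intro j
          rw [norm_mul, Complex.norm_real, hc, Real.norm_of_nonneg (Real.exp_pos _).le]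
          have a1 : Real.exp (-(-K - δ + (k + 1) * δ)) ≤ Real.exp (K + 1) := by
            apply Real.exp_le_exp.2
            have b1 := (abs_lt.1 hz).2
            have b2 := (abs_le.1 (hK p.1)).1
            linarith
          have a2 : Real.exp (-(-K - δ + (k + 1) * δ)) * ‖x j‖ ≤ Real.exp (K + 1) * (|X| + 1) :=
            mul_le_mul a1 (by have := hxj j; linarith) (norm_nonneg _) (Real.exp_pos _).le
          rw [hr]; linarith
        exact hn p (fun j => x j / (Real.exp (ρ p.1) : ℂ)) (fun j => (c k : ℂ) * x j) q1 q3 q2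
      · have hzero : w k (ρ p.1) = 0 := by
          simp only [hw]
          rw [bmp_zero hδ0 _ _ (not_lt.1 hz), zero_mul]
        rw [hzero, zero_mul, zero_mul]
    refine (norm_sum_le_of_le _ hterm).trans ?_
    rw [← Finset.sum_mul, hsumE]
    have a1 : Real.exp (2 * ρ p.1) ≤ Real.exp (2 * K) :=
      Real.exp_le_exp.2 (by have := (le_abs_self _).trans (hK p.1); linarith)
    calc Real.exp (2 * ρ p.1) * ((ε / (Real.exp (2 * K) * Q)) * N1)
        ≤ Real.exp (2 * K) * ((ε / (Real.exp (2 * K) * Q)) * N1) :=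
          mul_le_mul_of_nonneg_right a1 (by positivity)
      _ = (ε / Q) * N1 := by field_simp
  refine (norm_integral_le_of_norm_le (iN.const_mul _) (Eventually.of_forall hpw)).trans ?_
  rw [integral_const_mul]
  calc (ε / Q) * ∫ p, (1 + Nn φ m (r + 1) n p) ∂(frameProb D) ≤ (ε / Q) * Q :=
        mul_le_mul_of_nonneg_left hEN (by positivity)
    _ = ε := by field_simp

/-- **asymptotic translation invariance** -/
theorem Dat.shift [Countable Γ] (h : Dat Γ ρ D φ m B) {Φ : (Fin 4 → ℝ) → ℝ} {L : ℝ}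
    (hΦ : Tst Φ L) (x : Fin 4 → ℂ) (s : ℂ) :
    Tendsto (fun n => TF D ρ φ m Φ n (fun j => x j + s) - TF D ρ φ m Φ n x) atTop (𝓝 0) := by
  rw [Metric.tendsto_nhds]
  intro ε hε
  set X := ‖x 0‖ + ‖x 1‖ + ‖x 2‖ + ‖x 3‖ + ‖s‖ with hX
  have hs0 := norm_nonneg s
  have hxj : ∀ j, ‖x j‖ + ‖s‖ ≤ X := by
    intro j
    have h0 := norm_nonneg (x 0)
    have h1 := norm_nonneg (x 1)
    have h2 := norm_nonneg (x 2)
    have h3 := norm_nonneg (x 3)
    fin_cases j <;> simp only [Fin.zero_eta, Fin.mk_one, Fin.reduceFinMk] <;> linarith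
  obtain ⟨M, w, c, hwc, hap⟩ := h.approx hΦ X (ε := ε / 4) (by positivity)
  have hsum : Tendsto (fun n => ∑ k ∈ Finset.range M,
      (Tw D ρ φ m Φ (w k) n (fun j => (c k : ℂ) * (x j + s))
        - Tw D ρ φ m Φ (w k) n (fun j => (c k : ℂ) * x j))) atTop (𝓝 0) := by
    have : Tendsto (fun n => ∑ k ∈ Finset.range M,
      (Tw D ρ φ m Φ (w k) n (fun j => (c k : ℂ) * (x j + s))
        - Tw D ρ φ m Φ (w k) n (fun j => (c k : ℂ) * x j))) atTop
        (𝓝 (∑ k ∈ Finset.range M, (0:ℝ))) := by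
      refine tendsto_finsetSum _ fun k _ => ?_
      have h1 := h.tw_shift hΦ (hwc k) (fun j => (c k : ℂ) * x j) ((c k : ℂ) * s)
      refine h1.congr fun n => ?_
      congr 2
      funext j; ring
    simpa using this
  filter_upwards [hap, Metric.tendsto_nhds.1 hsum (ε / 4) (by positivity)] with n hn hn2
  have a1 := hn (fun j => x j + s) (fun j => (norm_add_le _ _).trans (hxj j))
  have a2 := hn x (fun j => by have := hxj j; linarith)
  rw [dist_zero_right, Real.norm_eq_abs] at hn2 ⊢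
  rw [Finset.sum_sub_distrib] at hn2
  rw [abs_lt] at hn2 ⊢
  rw [abs_le] at a1 a2
  constructor <;> linarith [a1.1, a1.2, a2.1, a2.2, hn2.1, hn2.2]

end

end Berry
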