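import Pool.Agent.LibH11.Berry.HDefs

/-!
Haar measure on `SL(2, ℝ)` in terms of points and frames.
-/

open UpperHalfPlane MeasureTheory ProbabilityTheory MatrixGroups Filter Topology
open scoped ENNReal NNReal

namespace Berry

noncomputable section

instance : LocallyCompactSpace SL(2, ℝ) := by
  have : LocallyCompactSpace (Matrix (Fin 2) (Fin 2) ℝ) :=
    inferInstanceAs (LocallyCompactSpace (Fin 2 → Fin 2 → ℝ))
  exact Matrix.SpecialLinearGroup.isClosedEmbedding_val.locallyCompactSpace

instance : SecondCountableTopology SL(2, ℝ) := by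
  have : SecondCountableTopology (Matrix (Fin 2) (Fin 2) ℝ) :=
    inferInstanceAs (SecondCountableTopology (Fin 2 → Fin 2 → ℝ))
  exact Matrix.SpecialLinearGroup.isClosedEmbedding_val.isEmbedding.secondCountableTopology

instance : SMulInvariantMeasure SL(2, ℝ) ℍ volume where
  measure_preimage_smul g s hs := by
    have := measure_preimage_smul (volume : Measure ℍ) (g : GL (Fin 2) ℝ) s
    exact this

instance (Γ : Subgroup SL(2, ℝ)) : SMulInvariantMeasure Γ ℍ volume where
  measure_preimage_smul g s _ := by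
    have := measure_preimage_smul (volume : Measure ℍ) (g : SL(2, ℝ)) s
    exact this

lemma rot_add (a b : ℝ) : rot (a + b) = rot a * rot b := by
  apply Subtype.ext
  show _ = (rot a).1 * (rot b).1
  simp only [rot, Matrix.mul_fin_two]
  rw [Real.cos_add, Real.sin_add]
  ext i j
  fin_cases i <;> fin_cases j <;> simp <;> ring

lemma rot_two_pi (a : ℝ) : rot (a + 2 * Real.pi) = rot a := by
  apply Subtype.ext
  simp [rot]

lemma rot_continuous : Continuous rot := by
  apply continuous_induced_rng.mpr
  simp only [Function.comp_def]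
  show Continuous fun θ => !![Real.cos θ, -Real.sin θ; Real.sin θ, Real.cos θ]
  fun_prop

lemma rot_smul_I (θ : ℝ) : rot θ • I = I := by
  apply UpperHalfPlane.ext
  rw [coe_specialLinearGroup_apply]
  have h : ((algebraMap ℝ ℝ) ((rot θ) 1 0) : ℂ) * (I : ℂ) + ((algebraMap ℝ ℝ) ((rot θ) 1 1) : ℂ)
      ≠ 0 := by
    intro h
    have h1 := congrArg Complex.re h
    have h2 := congrArg Complex.im h
    simp [rot, -Complex.ofReal_cos,
      -Complex.ofReal_sin] at h1 h2
    have := Real.sin_sq_add_cos_sq θ
    rw [h1, h2] at this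
    norm_num at this
  rw [div_eq_iff h]
  simp [rot]
  apply Complex.ext <;> simp

lemma stab_I {g : SL(2, ℝ)} (h : g • I = I) : ∃ α, g = rot α := by
  have h1 := congrArg (UpperHalfPlane.coe) h
  rw [coe_specialLinearGroup_apply] at h1
  have hne : ((algebraMap ℝ ℝ) (g 1 0) : ℂ) * (I : ℂ) + ((algebraMap ℝ ℝ) (g 1 1) : ℂ) ≠ 0 := by
    intro h
    have h2 := congrArg Complex.re h
    have h3 := congrArg Complex.im h
    simp at h2 h3
    have hdet := g.det_coe
    rw [Matrix.det_fin_two, h2, h3] at hdet
    norm_num at hdet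
  rw [div_eq_iff hne] at h1
  have h2 := congrArg Complex.re h1
  have h3 := congrArg Complex.im h1
  simp at h2 h3
  have hdet := g.det_coe
  rw [Matrix.det_fin_two] at hdet
  have hsq : g 0 0 ^ 2 + g 1 0 ^ 2 = 1 := by
    rw [h3, h2] at hdet
    rw [h3]
    linarith
  -- choose the angle
  set z : ℂ := ⟨g 0 0, g 1 0⟩ with hz
  have hz1 : ‖z‖ = 1 := by
    have : ‖z‖ ^ 2 = 1 := by
      rw [← Complex.normSq_eq_norm_sq, Complex.normSq_apply]; simp only [hz]; linarith
    nlinarith [norm_nonneg z]
  refine ⟨Complex.arg z, ?_⟩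
  have hc := Complex.norm_mul_cos_arg z
  have hs := Complex.norm_mul_sin_arg z
  rw [hz1, one_mul] at hc hs
  apply Subtype.ext
  simp only [rot]
  rw [hc, hs]
  ext i j
  fin_cases i <;> fin_cases j
  · simp [hz]
  · simpa [hz] using h2
  · simp [hz]
  · simpa [hz] using h3.symm

lemma frame_smul_I (p : ℍ × ℝ) : frame p • I = p.1 := by
  unfold frame
  rw [mul_smul, rot_smul_I, toSL2R_smul_I]

lemma frame_continuous : Continuous frame := by
  unfold frame
  exact (continuous_toSL2R.comp continuous_fst).mul (rot_continuous.comp continuous_snd)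

lemma frame_periodic (z : ℍ) (θ : ℝ) : frame (z, θ + 2 * Real.pi) = frame (z, θ) := by
  unfold frame
  rw [rot_two_pi]

/-- left multiplication in terms of frames -/
lemma mul_frame (h : SL(2, ℝ)) (z : ℍ) : ∃ α, ∀ θ, h * frame (z, θ) = frame (h • z, α + θ) := by
  have h1 : (((h • z).toSL2R)⁻¹ * h * z.toSL2R) • I = I := by
    rw [mul_smul, mul_smul, toSL2R_smul_I, inv_smul_eq_iff, toSL2R_smul_I]
  obtain ⟨α, hα⟩ := stab_I h1
  refine ⟨α, fun θ => ?_⟩
  unfold frame
  simp only
  rw [rot_add, ← hα]
  group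

end

end Berry
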