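import Pool.Agent.LibH11.Berry.SL

/-!
The measure on `SL(2, ℝ)` given by points and frames is a Haar measure.
-/

open UpperHalfPlane MeasureTheory ProbabilityTheory MatrixGroups Filter Topology Set
open scoped ENNReal NNReal

namespace Berry

noncomputable section

lemma lintegral_periodic {G : ℝ → ℝ≥0∞} (hG : ∀ θ, G (θ + 2 * Real.pi) = G θ) (α : ℝ) :
    ∫⁻ θ in Ioc 0 (2 * Real.pi), G (α + θ) = ∫⁻ θ in Ioc 0 (2 * Real.pi), G θ := by
  have hT : 0 < 2 * Real.pi := by positivity
  have h1 : ∫⁻ θ in Ioc 0 (2 * Real.pi), G (α + θ) = ∫⁻ θ in Ioc α (α + 2 * Real.pi), G θ := by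
    have h2 := (measurePreserving_add_left (volume : Measure ℝ) α).setLIntegral_comp_preimage_emb
      (MeasurableEquiv.addLeft α).measurableEmbedding G (Ioc α (α + 2 * Real.pi))
    rw [← h2]
    congr 2
    ext θ
    simp [mem_Ioc]
  rw [h1]
  have d1 := isAddFundamentalDomain_Ioc hT α volume
  have d2 := isAddFundamentalDomain_Ioc hT 0 volume
  have h3 := d1.setLIntegral_eq d2 G (fun g x => by
    obtain ⟨g, hg⟩ := g
    obtain ⟨k, rfl⟩ := AddSubgroup.mem_zmultiples_iff.1 hg
    show G (k • (2 * Real.pi) + x) = G x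
    have hp : Function.Periodic G (2 * Real.pi) := hG
    rw [add_comm]
    exact hp.zsmul k x)
  rw [zero_add] at h3
  exact h3

/-- the product measure on points and frames -/
def pf : Measure (ℍ × ℝ) :=
  (volume : Measure ℍ).prod ((volume : Measure ℝ).restrict (Ioc 0 (2 * Real.pi)))

variable [MeasurableSpace SL(2, ℝ)] [BorelSpace SL(2, ℝ)]

/-- the measure on `SL(2, ℝ)` -/
def nuF : Measure SL(2, ℝ) := Measure.map frame pf

lemma frame_measurable : Measurable frame := frame_continuous.measurable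

lemma lintegral_nuF {f : SL(2, ℝ) → ℝ≥0∞} (hf : Measurable f) :
    ∫⁻ g, f g ∂nuF = ∫⁻ z : ℍ, ∫⁻ θ in Ioc 0 (2 * Real.pi), f (frame (z, θ)) := by
  unfold nuF pf
  rw [lintegral_map hf frame_measurable, lintegral_prod]
  exact (hf.comp frame_measurable).aemeasurable

instance : (nuF : Measure SL(2, ℝ)).IsMulLeftInvariant where
  map_mul_left_eq_self h := by
    refine Measure.ext_of_lintegral _ fun f hf => ?_
    have hm : Measurable fun g : SL(2, ℝ) => h * g := (continuous_const_mul h).measurable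
    rw [lintegral_map hf hm, lintegral_nuF (f := fun g => f (h * g)) (hf.comp hm),
      lintegral_nuF hf]
    set Ψ : ℍ → ℝ≥0∞ := fun z => ∫⁻ θ in Ioc 0 (2 * Real.pi), f (frame (z, θ)) with hΨ
    have h1 : ∀ z : ℍ, ∫⁻ θ in Ioc 0 (2 * Real.pi), f (h * frame (z, θ)) = Ψ (h • z) := by
      intro z
      obtain ⟨α, hα⟩ := mul_frame h z
      simp only [hα, hΨ]
      exact lintegral_periodic (G := fun θ => f (frame (h • z, θ)))
        (fun θ => by simp only [frame_periodic]) α
    simp only [h1]
    have h2 := (measurePreserving_smul h (volume : Measure ℍ)).lintegral_comp_emb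
      (measurableEmbedding_const_smul h) Ψ
    exact h2

lemma nuF_preimage {S : Set ℍ} (hS : MeasurableSet S) :
    nuF ((fun g : SL(2, ℝ) => g • I) ⁻¹' S) = volume S * ENNReal.ofReal (2 * Real.pi) := by
  unfold nuF pf
  have hm : Measurable fun g : SL(2, ℝ) => g • I :=
    (continuous_id.smul continuous_const).measurable
  rw [Measure.map_apply frame_measurable (hm hS)]
  have e : frame ⁻¹' ((fun g : SL(2, ℝ) => g • I) ⁻¹' S) = S ×ˢ univ := by
    ext p
    simp [frame_smul_I]
  rw [e, Measure.prod_prod, Measure.restrict_apply_univ, Real.volume_Ioc, sub_zero]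

omit [MeasurableSpace SL(2, ℝ)] [BorelSpace SL(2, ℝ)] in
lemma volume_pos_of_isOpen {S : Set ℍ} (hS : IsOpen S) (hne : S.Nonempty) :
    0 < (volume : Measure ℍ) S := by
  rw [pos_iff_ne_zero]
  intro h0
  rw [volume_eq_lintegral] at h0
  have hopen : IsOpen (UpperHalfPlane.coe '' S) := isOpenEmbedding_coe.isOpenMap S hS
  have hmeas : Measurable fun z : ℂ => (((1 / ‖z.im‖₊) ^ 2 : NNReal) : ℝ≥0∞) := by
    have h1 : Measurable fun z : ℂ => ‖z.im‖₊ := Complex.measurable_im.nnnorm
    exact ((measurable_const.div h1).pow_const 2).coe_nnreal_ennreal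
  rw [lintegral_eq_zero_iff hmeas] at h0
  have h2 : ∀ᵐ z : ℂ ∂(volume.restrict (UpperHalfPlane.coe '' S)), False := by
    filter_upwards [h0, ae_restrict_mem hopen.measurableSet] with z hz hz2
    obtain ⟨w, -, rfl⟩ := hz2
    have h3 : w.im ≠ 0 := w.im_ne_zero
    simp at hz
    exact h3 hz
  have h3 : (volume : Measure ℂ) (UpperHalfPlane.coe '' S) = 0 := by
    rw [ae_iff] at h2
    simpa using h2
  exact (hopen.measure_pos volume (hne.image _)).ne' h3

instance : (nuF : Measure SL(2, ℝ)).IsHaarMeasure := by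
  have hprop := isProperMap_smul_I
  set B : Set ℍ := Metric.closedBall I 1 with hB
  have hBc : IsCompact B := isCompact_closedBall _ _
  have hBm : MeasurableSet B := hBc.isClosed.measurableSet
  have hcont : Continuous fun g : SL(2, ℝ) => g • I := continuous_id.smul continuous_const
  refine Measure.isHaarMeasure_of_isCompact_nonempty_interior nuF
    ((fun g : SL(2, ℝ) => g • I) ⁻¹' B) (hprop.isCompact_preimage hBc) ?_ ?_ ?_
  · refine ⟨1, ?_⟩
    have h1 : (fun g : SL(2, ℝ) => g • I) ⁻¹' (Metric.ball I 1)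
        ⊆ (fun g : SL(2, ℝ) => g • I) ⁻¹' B := preimage_mono Metric.ball_subset_closedBall
    refine interior_maximal h1 (Metric.isOpen_ball.preimage hcont) ?_
    simp
  · rw [nuF_preimage hBm]
    refine mul_ne_zero ?_ ?_
    · have h2 : 0 < (volume : Measure ℍ) (Metric.ball I 1) :=
        volume_pos_of_isOpen Metric.isOpen_ball ⟨I, Metric.mem_ball_self one_pos⟩
      exact (lt_of_lt_of_le h2 (measure_mono Metric.ball_subset_closedBall)).ne'
    · rw [Ne, ENNReal.ofReal_eq_zero, not_le]; positivity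
  · rw [nuF_preimage hBm]
    exact ENNReal.mul_ne_top hBc.measure_lt_top.ne ENNReal.ofReal_ne_top

end

end Berry
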