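import Pool.Agent.LibH11.Berry.Ladder

/-!
Test functions, smearing, and ladder families obtained from weak solutions of the Helmholtz
equation.
-/

open Complex Filter Topology MeasureTheory Convolution
open scoped ENNReal ContDiff

namespace Berry

noncomputable section

/-- `∂_x + i ∂_y` -/
def Wop (φ : ℂ → ℂ) (y : ℂ) : ℂ := fderiv ℝ φ y 1 + I * fderiv ℝ φ y I

/-- `∂_x - i ∂_y` -/
def Vop (φ : ℂ → ℂ) (y : ℂ) : ℂ := fderiv ℝ φ y 1 - I * fderiv ℝ φ y I

/-- smooth compactly supported functions -/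
def TestFn (φ : ℂ → ℂ) : Prop := ContDiff ℝ ∞ φ ∧ HasCompactSupport φ

lemma TestFn.continuous {φ : ℂ → ℂ} (h : TestFn φ) : Continuous φ := h.1.continuous

lemma TestFn.contDiff_one {φ : ℂ → ℂ} (h : TestFn φ) : ContDiff ℝ 1 φ := h.1.of_le (by exact_mod_cast le_top)

lemma TestFn.differentiable {φ : ℂ → ℂ} (h : TestFn φ) : Differentiable ℝ φ :=
  h.contDiff_one.differentiable (by norm_num)

lemma TestFn.fderiv_apply {φ : ℂ → ℂ} (h : TestFn φ) (v : ℂ) :
    TestFn (fun y => fderiv ℝ φ y v) := by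
  constructor
  · have h1 : ContDiff ℝ ∞ (fderiv ℝ φ) := h.1.fderiv_right (m := ∞) (by simp)
    exact h1.clm_apply contDiff_const
  · have h1 : HasCompactSupport (fderiv ℝ φ) := h.2.fderiv ℝ
    refine h1.mono ?_
    intro y hy
    simp only [Function.mem_support, ne_eq] at hy ⊢
    intro h2
    apply hy
    rw [h2]; simp

lemma TestFn.add {φ ψ : ℂ → ℂ} (h : TestFn φ) (h' : TestFn ψ) : TestFn (fun y => φ y + ψ y) :=
  ⟨h.1.add h'.1, h.2.add h'.2⟩

lemma TestFn.const_mul {φ : ℂ → ℂ} (h : TestFn φ) (k : ℂ) : TestFn (fun y => k * φ y) :=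
  ⟨contDiff_const.mul h.1, h.2.mul_left⟩

lemma TestFn.wop {φ : ℂ → ℂ} (h : TestFn φ) : TestFn (Wop φ) :=
  (h.fderiv_apply 1).add ((h.fderiv_apply I).const_mul I)

lemma TestFn.vop {φ : ℂ → ℂ} (h : TestFn φ) : TestFn (Vop φ) := by
  have := (h.fderiv_apply 1).add ((h.fderiv_apply I).const_mul (-I))
  have e : Vop φ = fun y => fderiv ℝ φ y 1 + (-I) * fderiv ℝ φ y I := by
    funext y; simp only [Vop]; ring
  rw [e]; exact this

lemma fderiv_eq_wop_vop (φ : ℂ → ℂ) (y v : ℂ) :
    fderiv ℝ φ y v = (starRingEnd ℂ v / 2) * Wop φ y + (v / 2) * Vop φ y := by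
  have h1 : v = v.re • (1:ℂ) + v.im • I := by
    simp
  have h2 : fderiv ℝ φ y v = v.re • fderiv ℝ φ y 1 + v.im • fderiv ℝ φ y I := by
    conv_lhs => rw [h1]
    rw [map_add, map_smul, map_smul]
  rw [h2]
  simp only [Wop, Vop, real_smul]
  have h3 : (v.re : ℂ) = (v + starRingEnd ℂ v) / 2 := by
    rw [Complex.add_conj]; push_cast; ring
  have h4 : (v.im : ℂ) = (v - starRingEnd ℂ v) / (2 * I) := by
    rw [Complex.sub_conj]; push_cast
    field_simp
  rw [h3, h4]
  have h5 : (v - starRingEnd ℂ v) / (2 * I) = - I * (v - starRingEnd ℂ v) / 2 := by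
    field_simp
    rw [I_sq]; ring
  rw [h5]; ring

/-- the ladder of test functions -/
def tl (φ : ℂ → ℂ) : ℤ → ℂ → ℂ
  | Int.ofNat n => Wop^[n] φ
  | Int.negSucc n => (fun ψ y => -(Vop ψ y))^[n+1] φ

lemma tl_testFn {φ : ℂ → ℂ} (h : TestFn φ) (a : ℤ) : TestFn (tl φ a) := by
  have h1 : ∀ n : ℕ, TestFn (Wop^[n] φ) := by
    intro n
    induction n with
    | zero => exact h
    | succ n ih => rw [Function.iterate_succ_apply']; exact ih.wop
  have h2 : ∀ n : ℕ, TestFn ((fun ψ y => -(Vop ψ y))^[n] φ) := by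
    intro n
    induction n with
    | zero => exact h
    | succ n ih =>
      rw [Function.iterate_succ_apply']
      have := ih.vop.const_mul (-1)
      simpa using this
  cases a with
  | ofNat n => exact h1 n
  | negSucc n => exact h2 (n+1)

lemma tl_zero (φ : ℂ → ℂ) : tl φ 0 = φ := rfl

variable {X : Type*} [NormedAddCommGroup X] [NormedSpace ℂ X]

/-- smearing `∫ ψ(y) 𝔽(t - y) dy` -/
def smear (ψ : ℂ → ℂ) (F : ℂ → X) (t : ℂ) : X := ∫ y, ψ y • F (t - y)

lemma smear_integrable {ψ : ℂ → ℂ} {F : ℂ → X} (hc : Continuous ψ) (hs : HasCompactSupport ψ)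
    (hF : Continuous F) (t : ℂ) : Integrable (fun y => ψ y • F (t - y)) := by
  apply Continuous.integrable_of_hasCompactSupport
  · exact hc.smul (hF.comp (continuous_const.sub continuous_id))
  · exact hs.smul_right

lemma smear_eq_conv (ψ : ℂ → ℂ) (F : ℂ → X) :
    smear ψ F = (ψ ⋆[ContinuousLinearMap.lsmul ℝ ℂ, volume] F) := by
  funext t
  simp [smear, convolution_def]

lemma smear_hasDerivAt [CompleteSpace X] {ψ : ℂ → ℂ} {F : ℂ → X} (hψ : TestFn ψ)
    (hF : Continuous F) (t v : ℂ) :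
    HasDerivAt (fun s : ℝ => smear ψ F (t + s * v))
      (smear (fun y => fderiv ℝ ψ y v) F t) 0 := by
  have h1 := hψ.2.hasFDerivAt_convolution_left (ContinuousLinearMap.lsmul ℝ ℂ)
    hψ.contDiff_one (hF.locallyIntegrable (μ := volume)) t
  have h2 : HasDerivAt (fun s : ℝ => t + s * v) v 0 := by
    have := ((hasDerivAt_id (0:ℝ)).ofReal_comp.mul_const v).const_add t
    simpa using this
  have h3 := HasFDerivAt.comp_hasDerivAt_of_eq (0:ℝ) h1 h2 (by simp)
  rw [smear_eq_conv]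
  refine h3.congr_deriv ?_
  rw [convolution_def, smear, ContinuousLinearMap.integral_apply]
  · rfl
  · have := (hψ.2.fderiv ℝ).convolutionExists_left
      ((ContinuousLinearMap.lsmul ℝ ℂ).precompL ℂ)
      (hψ.contDiff_one.continuous_fderiv one_ne_zero) (hF.locallyIntegrable (μ := volume)) t
    exact this

lemma smear_add {ψ ψ' : ℂ → ℂ} {F : ℂ → X} (hψ : TestFn ψ) (hψ' : TestFn ψ')
    (hF : Continuous F) (t : ℂ) :
    smear (fun y => ψ y + ψ' y) F t = smear ψ F t + smear ψ' F t := by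
  rw [smear, smear, smear, ← integral_add (smear_integrable hψ.continuous hψ.2 hF t)
    (smear_integrable hψ'.continuous hψ'.2 hF t)]
  congr 1
  funext y
  rw [add_smul]

lemma smear_const_mul (k : ℂ) (ψ : ℂ → ℂ) (F : ℂ → X) (t : ℂ) :
    smear (fun y => k * ψ y) F t = k • smear ψ F t := by
  rw [smear, smear, ← integral_smul]
  congr 1
  funext y
  rw [mul_smul]

/-- weak Helmholtz equation for an `X`-valued function -/
def WeakHelm (F : ℂ → X) : Prop := ∀ ψ, TestFn ψ → ∀ t,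
  smear (Wop (Vop ψ)) F t = - smear ψ F t ∧ smear (Vop (Wop ψ)) F t = - smear ψ F t

lemma smear_neg (ψ : ℂ → ℂ) (F : ℂ → X) (t : ℂ) :
    smear (fun y => -(ψ y)) F t = - smear ψ F t := by
  have := smear_const_mul (-1) ψ F t
  simpa using this

lemma fderiv_neg_fun (ψ : ℂ → ℂ) (y v : ℂ) :
    fderiv ℝ (fun z => -(ψ z)) y v = - fderiv ℝ ψ y v := by
  have : fderiv ℝ (fun z => -(ψ z)) y = - fderiv ℝ ψ y := fderiv_fun_neg
  rw [this]; rfl

lemma Wop_neg (ψ : ℂ → ℂ) : Wop (fun z => -(ψ z)) = fun z => -(Wop ψ z) := by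
  funext y
  simp only [Wop, fderiv_neg_fun]; ring

lemma Vop_neg (ψ : ℂ → ℂ) : Vop (fun z => -(ψ z)) = fun z => -(Vop ψ z) := by
  funext y
  simp only [Vop, fderiv_neg_fun]; ring

lemma smear_wop_tl {F : ℂ → X} (hW : WeakHelm F) {φ : ℂ → ℂ} (hφ : TestFn φ) (a : ℤ) (t : ℂ) :
    smear (Wop (tl φ a)) F t = smear (tl φ (a+1)) F t := by
  match a with
  | Int.ofNat n =>
    have e : (Int.ofNat n + 1) = Int.ofNat (n+1) := rfl
    rw [e]
    simp only [tl, Function.iterate_succ_apply']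
  | Int.negSucc n =>
    have e0 : tl φ (Int.negSucc n + 1) = (fun ψ y => -(Vop ψ y))^[n] φ := by
      cases n with
      | zero => rfl
      | succ m => rfl
    have hψ : TestFn ((fun ψ y => -(Vop ψ y))^[n] φ) := by
      rw [← e0]; exact tl_testFn hφ _
    rw [e0]
    simp only [tl, Function.iterate_succ_apply']
    rw [Wop_neg, smear_neg, (hW _ hψ t).1, neg_neg]

lemma smear_vop_tl {F : ℂ → X} (hW : WeakHelm F) {φ : ℂ → ℂ} (hφ : TestFn φ) (a : ℤ) (t : ℂ) :
    smear (Vop (tl φ a)) F t = - smear (tl φ (a-1)) F t := by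
  match a with
  | Int.ofNat 0 =>
    have e : tl φ (Int.ofNat 0 - 1) = fun y => -(Vop φ y) := rfl
    rw [e, smear_neg, neg_neg]
    rfl
  | Int.ofNat (n+1) =>
    have e : (Int.ofNat (n+1) - 1) = Int.ofNat n := by
      simp
    rw [e]
    have hψ : TestFn (Wop^[n] φ) := tl_testFn hφ (Int.ofNat n)
    simp only [tl, Function.iterate_succ_apply']
    exact (hW _ hψ t).2
  | Int.negSucc n =>
    have e0 : tl φ (Int.negSucc n - 1) = fun y => -(Vop (tl φ (Int.negSucc n)) y) := by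
      have e1 : Int.negSucc n - 1 = Int.negSucc (n+1) := by
        rw [Int.negSucc_eq, Int.negSucc_eq]; push_cast; ring
      rw [e1]
      simp only [tl, Function.iterate_succ_apply']
    rw [e0, smear_neg, neg_neg]

/-- the ladder family of a smeared weak solution of the Helmholtz equation -/
def smearLadder [CompleteSpace X] {F : ℂ → X} (hF : Continuous F) (hW : WeakHelm F) {φ : ℂ → ℂ}
    (hφ : TestFn φ) : Ladder X where
  toFun a t := smear (tl φ a) F t
  deriv' a t v := by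
    have h := smear_hasDerivAt (tl_testFn hφ a) hF t v
    refine h.congr_deriv ?_
    have hψ := tl_testFn hφ a
    have e : (fun y => fderiv ℝ (tl φ a) y v) = fun y =>
        (starRingEnd ℂ v / 2) * Wop (tl φ a) y + (v / 2) * Vop (tl φ a) y := by
      funext y; exact fderiv_eq_wop_vop _ _ _
    rw [e, smear_add (hψ.wop.const_mul _) (hψ.vop.const_mul _) hF, smear_const_mul,
      smear_const_mul, smear_wop_tl hW hφ, smear_vop_tl hW hφ, smul_neg, ← sub_eq_add_neg]

end

end Berry
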