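import Pool.Agent.LibH11.Berry.Field
import Pool.Agent.LibH11.Berry.Avg

/-!
Stationarity of the forms, and smearing in each slot.
-/

open Complex Filter Topology MeasureTheory ProbabilityTheory
open scoped ENNReal

namespace Berry

noncomputable section

variable {Ω : Type*} [MeasurableSpace Ω] {P : Measure Ω} [IsProbabilityMeasure P]
  {F : ℂ → Ω → ℝ}

omit [IsProbabilityMeasure P] in
/-- the four-linear form is bounded -/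
lemma C4_bound : ∃ M : ℝ, 0 ≤ M ∧ ∀ a b c d : Lp ℂ 4 P,
    ‖C4 P a b c d‖ ≤ M * ‖a‖ * ‖b‖ * ‖c‖ * ‖d‖ := by
  refine ⟨‖pairX P‖ * ‖mulX P‖ * ‖mulX P‖, by positivity, fun a b c d => ?_⟩
  have h1 : ‖mulX P a b‖ ≤ ‖mulX P‖ * ‖a‖ * ‖b‖ := (mulX P).le_opNorm₂ a b
  have h2 : ‖mulX P c d‖ ≤ ‖mulX P‖ * ‖c‖ * ‖d‖ := (mulX P).le_opNorm₂ c d
  have h3 : ‖C4 P a b c d‖ ≤ ‖pairX P‖ * ‖mulX P a b‖ * ‖mulX P c d‖ :=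
    (pairX P).le_opNorm₂ _ _
  calc ‖C4 P a b c d‖ ≤ ‖pairX P‖ * ‖mulX P a b‖ * ‖mulX P c d‖ := h3
    _ ≤ ‖pairX P‖ * (‖mulX P‖ * ‖a‖ * ‖b‖) * (‖mulX P‖ * ‖c‖ * ‖d‖) := by gcongr
    _ = _ := by ring

/-- the form as a continuous linear functional of the first variable -/
def C4L (P : Measure Ω) (b c d : Lp ℂ 4 P) : Lp ℂ 4 P →L[ℝ] ℂ :=
  ((pairX P).flip (mulX P c d)) ∘L ((mulX P).flip b)

omit [IsProbabilityMeasure P] in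
lemma C4L_apply (a b c d : Lp ℂ 4 P) : C4L P b c d a = C4 P a b c d := rfl

omit [IsProbabilityMeasure P] in
lemma C4_smear1 {G : ℂ → Lp ℂ 4 P} (hG : Continuous G) {ψ : ℂ → ℂ} (hψ : TestFn ψ) (t : ℂ)
    (b c d : Lp ℂ 4 P) :
    C4 P (smear ψ G t) b c d = ∫ y, ψ y * C4 P (G (t - y)) b c d := by
  have h := ContinuousLinearMap.integral_comp_comm (C4L P b c d)
    (smear_integrable hψ.continuous hψ.2 hG t)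
  have h2 : C4 P (smear ψ G t) b c d = ∫ y, C4L P b c d (ψ y • G (t - y)) := h.symm
  rw [h2]
  congr 1
  funext y
  rw [C4L_apply, C4_smul1]

omit [IsProbabilityMeasure P] in
lemma C4_smear2 {G : ℂ → Lp ℂ 4 P} (hG : Continuous G) {ψ : ℂ → ℂ} (hψ : TestFn ψ) (t : ℂ)
    (a c d : Lp ℂ 4 P) :
    C4 P a (smear ψ G t) c d = ∫ y, ψ y * C4 P a (G (t - y)) c d := by
  rw [C4_swap12, C4_smear1 hG hψ]
  congr 1; funext y; rw [C4_swap12]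

omit [IsProbabilityMeasure P] in
lemma C4_smear3 {G : ℂ → Lp ℂ 4 P} (hG : Continuous G) {ψ : ℂ → ℂ} (hψ : TestFn ψ) (t : ℂ)
    (a b d : Lp ℂ 4 P) :
    C4 P a b (smear ψ G t) d = ∫ y, ψ y * C4 P a b (G (t - y)) d := by
  rw [C4_swap23, C4_smear2 hG hψ]
  congr 1; funext y; rw [C4_swap23]

omit [IsProbabilityMeasure P] in
lemma C4_smear4 {G : ℂ → Lp ℂ 4 P} (hG : Continuous G) {ψ : ℂ → ℂ} (hψ : TestFn ψ) (t : ℂ)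
    (a b c : Lp ℂ 4 P) :
    C4 P a b c (smear ψ G t) = ∫ y, ψ y * C4 P a b c (G (t - y)) := by
  rw [C4_swap34, C4_smear3 hG hψ]
  congr 1; funext y; rw [C4_swap34]

lemma C2_smear1 {G : ℂ → Lp ℂ 4 P} (hG : Continuous G) {ψ : ℂ → ℂ} (hψ : TestFn ψ) (t : ℂ)
    (b : Lp ℂ 4 P) : C2 P (smear ψ G t) b = ∫ y, ψ y * C2 P (G (t - y)) b :=
  C4_smear1 hG hψ t _ _ _

lemma C2_smear2 {G : ℂ → Lp ℂ 4 P} (hG : Continuous G) {ψ : ℂ → ℂ} (hψ : TestFn ψ) (t : ℂ)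
    (a : Lp ℂ 4 P) : C2 P a (smear ψ G t) = ∫ y, ψ y * C2 P a (G (t - y)) :=
  C4_smear2 hG hψ t _ _ _

section shift

omit [IsProbabilityMeasure P] in
lemma C4_smear_shift {G : ℂ → Lp ℂ 4 P} (hG : Continuous G)
    (hs : ∀ x₁ x₂ x₃ x₄ s, C4 P (G (x₁ + s)) (G (x₂ + s)) (G (x₃ + s)) (G (x₄ + s))
      = C4 P (G x₁) (G x₂) (G x₃) (G x₄))
    {ψ₁ ψ₂ ψ₃ ψ₄ : ℂ → ℂ} (h₁ : TestFn ψ₁) (h₂ : TestFn ψ₂) (h₃ : TestFn ψ₃) (h₄ : TestFn ψ₄)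
    (t₁ t₂ t₃ t₄ s : ℂ) :
    C4 P (smear ψ₁ G (t₁ + s)) (smear ψ₂ G (t₂ + s)) (smear ψ₃ G (t₃ + s)) (smear ψ₄ G (t₄ + s))
      = C4 P (smear ψ₁ G t₁) (smear ψ₂ G t₂) (smear ψ₃ G t₃) (smear ψ₄ G t₄) := by
  rw [C4_smear1 hG h₁, C4_smear1 hG h₁]
  congr 1; funext y₁; congr 1
  rw [C4_smear2 hG h₂, C4_smear2 hG h₂]
  congr 1; funext y₂; congr 1
  rw [C4_smear3 hG h₃, C4_smear3 hG h₃]
  congr 1; funext y₃; congr 1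
  rw [C4_smear4 hG h₄, C4_smear4 hG h₄]
  congr 1; funext y₄; congr 1
  rw [← hs (t₁ - y₁) (t₂ - y₂) (t₃ - y₃) (t₄ - y₄) s]
  congr 2 <;> ring

lemma C3_smear_shift {G : ℂ → Lp ℂ 4 P} (hG : Continuous G)
    (hs : ∀ x₁ x₂ x₃ s, C3 P (G (x₁ + s)) (G (x₂ + s)) (G (x₃ + s))
      = C3 P (G x₁) (G x₂) (G x₃))
    {ψ₁ ψ₂ ψ₃ : ℂ → ℂ} (h₁ : TestFn ψ₁) (h₂ : TestFn ψ₂) (h₃ : TestFn ψ₃)
    (t₁ t₂ t₃ s : ℂ) :
    C3 P (smear ψ₁ G (t₁ + s)) (smear ψ₂ G (t₂ + s)) (smear ψ₃ G (t₃ + s))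
      = C3 P (smear ψ₁ G t₁) (smear ψ₂ G t₂) (smear ψ₃ G t₃) := by
  unfold C3 at *
  rw [C4_smear1 hG h₁, C4_smear1 hG h₁]
  congr 1; funext y₁; congr 1
  rw [C4_smear2 hG h₂, C4_smear2 hG h₂]
  congr 1; funext y₂; congr 1
  rw [C4_smear3 hG h₃, C4_smear3 hG h₃]
  congr 1; funext y₃; congr 1
  rw [← hs (t₁ - y₁) (t₂ - y₂) (t₃ - y₃) s]
  congr 2 <;> ring

lemma C2_smear_shift {G : ℂ → Lp ℂ 4 P} (hG : Continuous G)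
    (hs : ∀ x₁ x₂ s, C2 P (G (x₁ + s)) (G (x₂ + s)) = C2 P (G x₁) (G x₂))
    {ψ₁ ψ₂ : ℂ → ℂ} (h₁ : TestFn ψ₁) (h₂ : TestFn ψ₂) (t₁ t₂ s : ℂ) :
    C2 P (smear ψ₁ G (t₁ + s)) (smear ψ₂ G (t₂ + s)) = C2 P (smear ψ₁ G t₁) (smear ψ₂ G t₂) := by
  rw [C2_smear1 hG h₁, C2_smear1 hG h₁]
  congr 1; funext y₁; congr 1
  rw [C2_smear2 hG h₂, C2_smear2 hG h₂]
  congr 1; funext y₂; congr 1
  rw [← hs (t₁ - y₁) (t₂ - y₂) s]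
  congr 2 <;> ring

end shift

omit [IsProbabilityMeasure P] in
lemma InvWave.C4_F (hF : InvWave P F) (h4 : MemLp (F 0) 4 P) (x₁ x₂ x₃ x₄ : ℂ) :
    C4 P (hF.toL4 h4 x₁) (hF.toL4 h4 x₂) (hF.toL4 h4 x₃) (hF.toL4 h4 x₄)
      = ((∫ ω, F x₁ ω * F x₂ ω * F x₃ ω * F x₄ ω ∂P : ℝ) : ℂ) := by
  rw [C4_eq, ← integral_complex_ofReal]
  apply integral_congr_ae
  filter_upwards [hF.coeFn_toL4 h4 x₁, hF.coeFn_toL4 h4 x₂, hF.coeFn_toL4 h4 x₃,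
    hF.coeFn_toL4 h4 x₄] with ω e1 e2 e3 e4
  rw [e1, e2, e3, e4]; push_cast; ring

lemma InvWave.C3_F (hF : InvWave P F) (h4 : MemLp (F 0) 4 P) (x₁ x₂ x₃ : ℂ) :
    C3 P (hF.toL4 h4 x₁) (hF.toL4 h4 x₂) (hF.toL4 h4 x₃)
      = ((∫ ω, F x₁ ω * F x₂ ω * F x₃ ω ∂P : ℝ) : ℂ) := by
  rw [C3_eq, ← integral_complex_ofReal]
  apply integral_congr_ae
  filter_upwards [hF.coeFn_toL4 h4 x₁, hF.coeFn_toL4 h4 x₂, hF.coeFn_toL4 h4 x₃]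
    with ω e1 e2 e3
  rw [e1, e2, e3]; push_cast; ring

lemma InvWave.C2_F (hF : InvWave P F) (h4 : MemLp (F 0) 4 P) (x₁ x₂ : ℂ) :
    C2 P (hF.toL4 h4 x₁) (hF.toL4 h4 x₂) = ((∫ ω, F x₁ ω * F x₂ ω ∂P : ℝ) : ℂ) := by
  rw [C2_eq, ← integral_complex_ofReal]
  apply integral_congr_ae
  filter_upwards [hF.coeFn_toL4 h4 x₁, hF.coeFn_toL4 h4 x₂] with ω e1 e2
  rw [e1, e2]; push_cast; ring

omit [IsProbabilityMeasure P] in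
lemma InvWave.int4_shift (hF : InvWave P F) (x₁ x₂ x₃ x₄ s : ℂ) :
    ∫ ω, F (x₁ + s) ω * F (x₂ + s) ω * F (x₃ + s) ω * F (x₄ + s) ω ∂P
      = ∫ ω, F x₁ ω * F x₂ ω * F x₃ ω * F x₄ ω ∂P := by
  have h := (hF.stationary s).comp (u := fun f : ℂ → ℝ => f x₁ * f x₂ * f x₃ * f x₄)
    ((((measurable_pi_apply x₁).mul (measurable_pi_apply x₂)).mul (measurable_pi_apply x₃)).mul
      (measurable_pi_apply x₄))
  exact h.integral_eq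

omit [IsProbabilityMeasure P] in
lemma InvWave.int3_shift (hF : InvWave P F) (x₁ x₂ x₃ s : ℂ) :
    ∫ ω, F (x₁ + s) ω * F (x₂ + s) ω * F (x₃ + s) ω ∂P
      = ∫ ω, F x₁ ω * F x₂ ω * F x₃ ω ∂P := by
  have h := (hF.stationary s).comp (u := fun f : ℂ → ℝ => f x₁ * f x₂ * f x₃)
    (((measurable_pi_apply x₁).mul (measurable_pi_apply x₂)).mul (measurable_pi_apply x₃))
  exact h.integral_eq

omit [IsProbabilityMeasure P] in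
lemma InvWave.int2_shift (hF : InvWave P F) (x₁ x₂ s : ℂ) :
    ∫ ω, F (x₁ + s) ω * F (x₂ + s) ω ∂P = ∫ ω, F x₁ ω * F x₂ ω ∂P := by
  have h := (hF.stationary s).comp (u := fun f : ℂ → ℝ => f x₁ * f x₂)
    ((measurable_pi_apply x₁).mul (measurable_pi_apply x₂))
  exact h.integral_eq

omit [IsProbabilityMeasure P] in
lemma InvWave.C4_shift (hF : InvWave P F) (h4 : MemLp (F 0) 4 P) (x₁ x₂ x₃ x₄ s : ℂ) :
    C4 P (hF.toL4 h4 (x₁ + s)) (hF.toL4 h4 (x₂ + s)) (hF.toL4 h4 (x₃ + s)) (hF.toL4 h4 (x₄ + s))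
      = C4 P (hF.toL4 h4 x₁) (hF.toL4 h4 x₂) (hF.toL4 h4 x₃) (hF.toL4 h4 x₄) := by
  rw [hF.C4_F, hF.C4_F, hF.int4_shift]

lemma InvWave.C3_shift (hF : InvWave P F) (h4 : MemLp (F 0) 4 P) (x₁ x₂ x₃ s : ℂ) :
    C3 P (hF.toL4 h4 (x₁ + s)) (hF.toL4 h4 (x₂ + s)) (hF.toL4 h4 (x₃ + s))
      = C3 P (hF.toL4 h4 x₁) (hF.toL4 h4 x₂) (hF.toL4 h4 x₃) := by
  rw [hF.C3_F, hF.C3_F, hF.int3_shift]

lemma InvWave.C2_shift (hF : InvWave P F) (h4 : MemLp (F 0) 4 P) (x₁ x₂ s : ℂ) :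
    C2 P (hF.toL4 h4 (x₁ + s)) (hF.toL4 h4 (x₂ + s))
      = C2 P (hF.toL4 h4 x₁) (hF.toL4 h4 x₂) := by
  rw [hF.C2_F, hF.C2_F, hF.int2_shift]

omit [IsProbabilityMeasure P] in
lemma InvWave.norm_toL4 (hF : InvWave P F) (h4 : MemLp (F 0) 4 P) (x : ℂ) :
    ‖hF.toL4 h4 x‖ = ‖hF.toL4 h4 0‖ := by
  rw [InvWave.toL4, InvWave.toL4, Lp.norm_toLp, Lp.norm_toLp]
  congr 1
  have e : ∀ y, eLpNorm (fun ω => (F y ω : ℂ)) 4 P = eLpNorm (F y) 4 P := by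
    intro y
    refine eLpNorm_congr_norm_ae (Eventually.of_forall fun ω => ?_)
    rw [Complex.norm_real]
  rw [e, e]
  exact (hF.identDistrib x).eLpNorm_eq (p := 4)

end

end Berry
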