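import Pool.Agent.LibH11.Berry.Conv

/-!
Vanishing of the one-point and three-point functions.
-/

open Complex Filter Topology MeasureTheory ProbabilityTheory Metric
open scoped ENNReal

namespace Berry

noncomputable section

variable {Ω : Type*} [MeasurableSpace Ω] {P : Measure Ω} [IsProbabilityMeasure P]
  {F : ℂ → Ω → ℝ}

lemma IsZeta.norm {η : ℂ} (h : IsZeta η) : ‖η‖ = 1 := by
  have h1 : (‖η‖ ^ 2 : ℂ) = 1 := by rw [← mul_conj']; exact h.2
  have h2 : ‖η‖ ^ 2 = 1 := by exact_mod_cast h1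
  nlinarith [norm_nonneg η]

lemma IsZeta.one_add_ne {η : ℂ} (h : IsZeta η) : 1 + η ≠ 0 := by
  intro h0
  have h1 : (1 + η) * (1 + starRingEnd ℂ η) = 1 := by
    linear_combination h.1 + h.2
  rw [h0, zero_mul] at h1
  exact zero_ne_one h1

lemma IsZeta.conj {η : ℂ} (h : IsZeta η) : IsZeta (starRingEnd ℂ η) := by
  refine ⟨?_, ?_⟩
  · rw [conj_conj, add_comm]; exact h.1
  · rw [conj_conj, mul_comm]; exact h.2

variable (hF : InvWave P F) (h4 : MemLp (F 0) 4 P)

include hF h4 in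
/-- products along the two directions `v`, `-ηv` have vanishing averages in `L²` -/
lemma InvWave.avg_transversal (h : FourPt P F) {η : ℂ} (hη : IsZeta η) (x₁ x₂ : ℂ) :
    Tendsto (fun R : ℝ => (⨍ s in ball (0:ℂ) R,
      mulX P (hF.toL4 h4 (x₁ + s)) (hF.toL4 h4 (x₂ - η * s)) : Lp ℂ 2 P)) atTop (𝓝 0) := by
  have hcont := hF.continuous_toL4 h4
  set v := ∫ ω, F 0 ω ^ 2 ∂P with hv
  have hα : Continuous fun s : ℂ => x₁ + s := by fun_prop
  have hβ : Continuous fun s : ℂ => x₂ - η * s := by fun_prop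
  set A : ℂ → Lp ℂ 2 P := fun s => mulX P (hF.toL4 h4 (x₁ + s)) (hF.toL4 h4 (x₂ - η * s)) with hA
  have hAc : Continuous A :=
    ((mulX P).continuous.comp (hcont.comp hα)).clm_apply (hcont.comp hβ)
  have hη1 := hη.one_add_ne
  have hpair : Tendsto (fun R : ℝ => pairX P (⨍ s in ball (0:ℂ) R, A s)
      (⨍ s in ball (0:ℂ) R, A s)) atTop (𝓝 0) := by
    refine dbl_avg hAc hAc (g := Kc) (g' := fun s => Kc ((x₁ - x₂) + (1 + η) * s)) (C := 1)
      (q := fun s => -s) (q₂ := fun s => x₁ - x₂ + η * s) (q' := fun _ => 0) (v := v ^ 2)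
      Kc_continuous Kc_van Kc_le (by positivity) (Kc_continuous.comp (by fun_prop))
      (Kc_lin_van hη1 _) (fun _ => Kc_le _) ?_
    intro s s'
    have e1 : pairX P (A s) (A s') = C4 P (hF.toL4 h4 (x₁ + s)) (hF.toL4 h4 (x₂ - η * s))
        (hF.toL4 h4 (x₁ + s')) (hF.toL4 h4 (x₂ - η * s')) := rfl
    rw [e1, hF.C4_F, h, sub_zero, Complex.norm_real, Real.norm_eq_abs, Kc_norm, Kc_norm, Kc_norm]
    have k1 : waveK (x₁ + s' - (x₂ - η * s')) = waveK ((x₁ - x₂) + (1 + η) * (0 + s')) := by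
      congr 1; ring
    have k2 : waveK (x₁ + s - (x₁ + s')) = waveK (-s + s') := by
      rw [← waveK_neg]; congr 1; ring
    have k3 : waveK (x₂ - η * s - (x₁ + s')) = waveK (x₁ - x₂ + η * s + s') := by
      rw [← waveK_neg]; congr 1; ring
    rw [k1, k2, k3]
    have a1 := waveK_abs_le (x₁ + s - (x₂ - η * s))
    have a2 := waveK_abs_le (x₂ - η * s - (x₂ - η * s'))
    have a3 := waveK_abs_le (x₁ + s - (x₂ - η * s'))
    set u1 := waveK ((x₁ - x₂) + (1 + η) * (0 + s')) with hu1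
    set u2 := waveK (-s + s') with hu2
    set u3 := waveK (x₁ - x₂ + η * s + s') with hu3
    set w1 := waveK (x₁ + s - (x₂ - η * s)) with hw1
    set w2 := waveK (x₂ - η * s - (x₂ - η * s')) with hw2
    set w3 := waveK (x₁ + s - (x₂ - η * s')) with hw3
    have e2 : v ^ 2 * (w1 * u1 + u2 * w2 + w3 * u3)
        = v ^ 2 * (u2 * w2) + v ^ 2 * (w3 * u3) + v ^ 2 * (w1 * u1) := by ring
    rw [e2]
    have hv2 : (0:ℝ) ≤ v ^ 2 := by positivity
    have b : ∀ u w : ℝ, |w| ≤ 1 → |v ^ 2 * (u * w)| ≤ v ^ 2 * |u| := by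
      intro u w hw
      rw [abs_mul, abs_of_nonneg hv2, abs_mul]
      refine mul_le_mul_of_nonneg_left ?_ hv2
      nlinarith [abs_nonneg u]
    refine (abs_add_three _ _ _).trans (add_le_add (add_le_add (b _ _ a2) ?_) ?_)
    · rw [mul_comm w3 u3]; exact b _ _ a3
    · rw [mul_comm w1 u1]; exact b _ _ a1
  rw [tendsto_zero_iff_norm_tendsto_zero]
  have h1 : ∀ R : ℝ, ‖(⨍ s in ball (0:ℂ) R, A s)‖ =
      Real.sqrt (pairX P (⨍ s in ball (0:ℂ) R, A s) (⨍ s in ball (0:ℂ) R, A s)).re := by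
    intro R
    have hco := hF.avg_prod_coeFn h4 hα hβ R
    have n1 := norm_sq_sub_const _ _ hco 0
    have n2 := pairX_self_sub _ _ hco 0
    rw [ofReal_zero, zero_smul, sub_zero] at n1 n2
    have n3 : ‖(⨍ s in ball (0:ℂ) R, A s)‖ ^ 2 =
        (pairX P (⨍ s in ball (0:ℂ) R, A s) (⨍ s in ball (0:ℂ) R, A s)).re := by
      rw [hA, n1, n2, ofReal_re]
    rw [← n3, Real.sqrt_sq (norm_nonneg _)]
  simp only [h1]
  have h2 := ((Complex.continuous_re.tendsto _).comp hpair).sqrt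
  simpa [Function.comp_def] using h2

omit [IsProbabilityMeasure P] in
/-- smeared version of the vanishing of transversal averages -/
lemma trans_mz {G : ℂ → Lp ℂ 4 P} (hG : Continuous G) {B : ℝ} (hB : ∀ x, ‖G x‖ ≤ B) {η : ℂ}
    (ht : ∀ x₁ x₂ c d, Tendsto (fun R : ℝ => ⨍ s in ball (0:ℂ) R,
      C4 P (G (x₁ + s)) (G (x₂ - η * s)) c d) atTop (𝓝 0))
    {ψ₁ ψ₂ : ℂ → ℂ} (h₁ : TestFn ψ₁) (h₂ : TestFn ψ₂) (t₁ t₂ : ℂ) (c d : Lp ℂ 4 P) :
    MZ (fun s => C4 P (smear ψ₁ G (t₁ + s)) (smear ψ₂ G (t₂ - η * s)) c d) := by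
  obtain ⟨M, hM0, hM⟩ := C4_bound (P := P)
  have hB0 : 0 ≤ B := (norm_nonneg _).trans (hB 0)
  have cs2 := smear_continuous hG h₂
  have cs1 := smear_continuous hG h₁
  set B₂ := (∫ y, ‖ψ₂ y‖) * B with hB₂
  have hB₂0 : 0 ≤ B₂ := mul_nonneg (integral_nonneg fun _ => norm_nonneg _) hB0
  have b2 : ∀ t, ‖smear ψ₂ G t‖ ≤ B₂ := smear_norm_le hB h₂
  have inner : ∀ x₁, MZ (fun s => C4 P (G (x₁ + s)) (smear ψ₂ G (t₂ - η * s)) c d) := by
    intro x₁
    set A : ℂ → ℂ → ℂ := fun s y => C4 P (G (x₁ + s)) (G (t₂ - y - η * s)) c d with hA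
    have e : (fun s => C4 P (G (x₁ + s)) (smear ψ₂ G (t₂ - η * s)) c d)
        = fun s => ∫ y, ψ₂ y * A s y := by
      funext s
      rw [C4_smear2 hG h₂]
      congr 1; funext y
      simp only [hA]
      have : t₂ - η * s - y = t₂ - y - η * s := by ring
      rw [this]
    have hcont : Continuous (fun s => C4 P (G (x₁ + s)) (smear ψ₂ G (t₂ - η * s)) c d) :=
      C4_comp_continuous (hG.comp (by fun_prop)) (cs2.comp (by fun_prop)) continuous_const
        continuous_const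
    rw [e] at hcont ⊢
    have hAc : Continuous (Function.uncurry A) := by
      simp only [hA, Function.uncurry_def]
      exact C4_comp_continuous (hG.comp (by fun_prop)) (hG.comp (by fun_prop))
          continuous_const continuous_const
    have hAb : ∀ s y, ‖A s y‖ ≤ M * B * B * ‖c‖ * ‖d‖ := by
      intro s y
      refine (hM _ _ _ _).trans ?_
      gcongr <;> exact hB _
    exact MZ.smear hAc hAb h₂ hcont (fun y => ht x₁ (t₂ - y) c d)
  set A : ℂ → ℂ → ℂ := fun s y => C4 P (G (t₁ - y + s)) (smear ψ₂ G (t₂ - η * s)) c d with hA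
  have e : (fun s => C4 P (smear ψ₁ G (t₁ + s)) (smear ψ₂ G (t₂ - η * s)) c d)
      = fun s => ∫ y, ψ₁ y * A s y := by
    funext s
    rw [C4_smear1 hG h₁]
    congr 1; funext y
    simp only [hA]
    have : t₁ + s - y = t₁ - y + s := by ring
    rw [this]
  have hcont : Continuous (fun s => C4 P (smear ψ₁ G (t₁ + s)) (smear ψ₂ G (t₂ - η * s)) c d) :=
    C4_comp_continuous (cs1.comp (by fun_prop)) (cs2.comp (by fun_prop)) continuous_const
      continuous_const
  rw [e] at hcont ⊢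
  have hAc : Continuous (Function.uncurry A) := by
    simp only [hA, Function.uncurry_def]
    exact C4_comp_continuous (hG.comp (by fun_prop)) (cs2.comp (by fun_prop))
        continuous_const continuous_const
  have hAb : ∀ s y, ‖A s y‖ ≤ M * B * B₂ * ‖c‖ * ‖d‖ := by
    intro s y
    refine (hM _ _ _ _).trans ?_
    gcongr
    · exact hB _
    · exact b2 _
  exact MZ.smear hAc hAb h₁ hcont (fun y => (inner (t₁ - y)).2)

/-- the primitive cube root of unity -/
def zeta : ℂ := ⟨-(1/2), Real.sqrt 3 / 2⟩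

lemma zeta_isZeta : IsZeta zeta := by
  have h3 : Real.sqrt 3 * Real.sqrt 3 = 3 := Real.mul_self_sqrt (by norm_num)
  constructor
  · apply Complex.ext <;> simp [zeta] <;> norm_num
  · apply Complex.ext
    · simp [zeta]; nlinarith
    · simp [zeta]; ring

include hF h4 in
/-- the three-point function vanishes -/
theorem InvWave.three_point (h : FourPt P F) (x₁ x₂ x₃ : ℂ) :
    ∫ ω, F x₁ ω * F x₂ ω * F x₃ ω ∂P = 0 := by
  have hG := hF.continuous_toL4 h4
  have hW := hF.weakHelm h4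
  have hB : ∀ x, ‖hF.toL4 h4 x‖ ≤ ‖hF.toL4 h4 0‖ := fun x => (hF.norm_toL4 h4 x).le
  have ht : ∀ {η : ℂ}, IsZeta η → ∀ x₁ x₂ c d, Tendsto (fun R : ℝ => ⨍ s in ball (0:ℂ) R,
      C4 P (hF.toL4 h4 (x₁ + s)) (hF.toL4 h4 (x₂ - η * s)) c d) atTop (𝓝 0) := by
    intro η hη x₁ x₂ c d
    have h1 := hF.avg_transversal h4 h hη x₁ x₂
    have h2 : Tendsto (fun R : ℝ => pairX P (⨍ s in ball (0:ℂ) R,
      mulX P (hF.toL4 h4 (x₁ + s)) (hF.toL4 h4 (x₂ - η * s))) (mulX P c d)) atTop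
      (𝓝 (pairX P 0 (mulX P c d))) :=
      (((pairX P).flip (mulX P c d)).continuous.tendsto _).comp h1
    have h3 : pairX P 0 (mulX P c d) = 0 := by simp
    rw [h3] at h2
    refine h2.congr fun R => ?_
    rw [pairX_avg]
    · rfl
    · exact ((mulX P).continuous.comp (hG.comp (by fun_prop))).clm_apply (hG.comp (by fun_prop))
  have hsm : ∀ {φ₁ φ₂ φ₃ : ℂ → ℂ} (k₁ : TestFn φ₁) (k₂ : TestFn φ₂) (k₃ : TestFn φ₃)
      (t₁ t₂ t₃ : ℂ), C3 P (smear φ₁ (hF.toL4 h4) t₁) (smear φ₂ (hF.toL4 h4) t₂)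
        (smear φ₃ (hF.toL4 h4) t₃) = 0 := by
    intro φ₁ φ₂ φ₃ k₁ k₂ k₃ t₁ t₂ t₃
    exact core3 (Q := QC3 P (smearLadder hG hW k₁) (smearLadder hG hW k₂) (smearLadder hG hW k₃))
      zeta_isZeta (QC3_der _ _ _)
      (fun a b c t₁ t₂ t₃ s => C3_smear_shift hG (hF.C3_shift h4) (tl_testFn k₁ a)
        (tl_testFn k₂ b) (tl_testFn k₃ c) t₁ t₂ t₃ s) MZ
      (fun g h hg hh => hg.add hh) (fun k g hg => hg.const_mul k) (fun k hk => hk.const)
      (fun a b c t₁ t₂ t₃ => trans_mz hG hB (ht zeta_isZeta.conj) (tl_testFn k₁ a)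
        (tl_testFn k₂ b) t₁ t₂ _ _)
      (fun a b c t₁ t₂ t₃ => trans_mz hG hB (ht zeta_isZeta) (tl_testFn k₁ a)
        (tl_testFn k₂ b) t₁ t₂ _ _) 0 0 0 t₁ t₂ t₃
  have L := C4_tendsto (smear_approxId hG x₁) (smear_approxId hG x₂) (smear_approxId hG x₃)
    (tendsto_const_nhds (x := one4 P))
  have hz : C3 P (hF.toL4 h4 x₁) (hF.toL4 h4 x₂) (hF.toL4 h4 x₃) = 0 := by
    refine tendsto_nhds_unique L ?_
    refine tendsto_const_nhds.congr fun n => ?_
    exact (hsm (approxId_testFn n) (approxId_testFn n) (approxId_testFn n) x₁ x₂ x₃).symm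
  rw [hF.C3_F] at hz
  exact_mod_cast hz

include hF h4 in
/-- the one-point function vanishes -/
theorem InvWave.one_point (x : ℂ) : ∫ ω, F x ω ∂P = 0 := by
  have hG := hF.continuous_toL4 h4
  have hW := hF.weakHelm h4
  have e1 : ∀ x, C4 P (hF.toL4 h4 x) (one4 P) (one4 P) (one4 P) = ((∫ ω, F x ω ∂P : ℝ) : ℂ) := by
    intro x
    rw [C4_eq, ← integral_complex_ofReal]
    apply integral_congr_ae
    filter_upwards [hF.coeFn_toL4 h4 x, coeFn_one4 (P := P)] with ω h1 h2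
    rw [h1, h2]; ring
  have hsh : ∀ x, ∫ ω, F x ω ∂P = ∫ ω, F 0 ω ∂P := fun x => (hF.identDistrib x).integral_eq
  have hsm : ∀ {φ : ℂ → ℂ} (_ : TestFn φ) (t : ℂ),
      C4 P (smear φ (hF.toL4 h4) t) (one4 P) (one4 P) (one4 P) = 0 := by
    intro φ hφ t
    set f := smearLadder hG hW hφ with hf
    have hconst : ∀ a t s, C4 P (f a (t + s)) (one4 P) (one4 P) (one4 P)
        = C4 P (f a t) (one4 P) (one4 P) (one4 P) := by
      intro a t s
      have hψ := tl_testFn hφ a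
      change C4 P (smear (tl φ a) _ (t + s)) _ _ _ = C4 P (smear (tl φ a) _ t) _ _ _
      rw [C4_smear1 hG hψ, C4_smear1 hG hψ]
      congr 1; funext y; congr 1
      rw [e1, e1, hsh, hsh (t - y)]
    have hd : ∀ a t v, lad v (C4 P (f (a+1) t) (one4 P) (one4 P) (one4 P))
        (C4 P (f (a-1) t) (one4 P) (one4 P) (one4 P)) = 0 := by
      intro a t v
      have h := C4_hasDerivAt (f.deriv' a t v) (hasDerivAt_const (0:ℝ) (one4 P))
        (hasDerivAt_const (0:ℝ) (one4 P)) (hasDerivAt_const (0:ℝ) (one4 P))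
      have h2 : (fun s : ℝ => C4 P (f a (t + s * v)) (one4 P) (one4 P) (one4 P))
          = fun _ => C4 P (f a t) (one4 P) (one4 P) (one4 P) := by
        funext s; exact hconst a t _
      rw [h2] at h
      have h3 := h.unique (hasDerivAt_const _ _)
      have z1 : ∀ x y z : Lp ℂ 4 P, C4 P x 0 y z = 0 := fun x y z => by simp [C4]
      have z2 : ∀ x y z : Lp ℂ 4 P, C4 P x y 0 z = 0 := fun x y z => by simp [C4]
      have z3 : ∀ x y z : Lp ℂ 4 P, C4 P x y z 0 = 0 := fun x y z => by simp [C4]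
      rw [z1, z2, z3, C4_sub1, C4_smul1, C4_smul1] at h3
      simpa [lad] using h3
    have h0 := lad_zero_imp (p := ![C4 P (f (-1+1) t) (one4 P) (one4 P) (one4 P), 0, 0, 0])
      (m := ![C4 P (f (-1-1) t) (one4 P) (one4 P) (one4 P), 0, 0, 0]) (by
        intro v
        have := hd (-1) t v
        simp only [lad] at this ⊢
        simpa using this)
    have h1 := h0.1
    simp at h1
    exact h1
  have L := C4_tendsto (smear_approxId hG x) (tendsto_const_nhds (x := one4 P))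
    (tendsto_const_nhds (x := one4 P)) (tendsto_const_nhds (x := one4 P))
  have hz : C4 P (hF.toL4 h4 x) (one4 P) (one4 P) (one4 P) = 0 := by
    refine tendsto_nhds_unique L ?_
    refine tendsto_const_nhds.congr fun n => ?_
    exact (hsm (approxId_testFn n) x).symm
  rw [e1] at hz
  exact_mod_cast hz

end

end Berry
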