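import Pool.Agent.LibH11.Berry.AThm
import Pool.Agent.LibH11.Berry.Three

/-!
Three-point functions of pair processes with Gaussian four-point functions vanish.
-/

open Complex Filter Topology MeasureTheory Metric InnerProductSpace Laplacian
open scoped ENNReal

namespace Berry

noncomputable section

/-! ### Ladders in three variables -/

/-- continuous bounded functions of four planar variables solving the Helmholtz equation in each of
the first three variables -/
structure Hel3 (C : (Fin 4 → ℂ) → ℂ) : Prop where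
  cont : Continuous C
  bdd : ∃ B : ℝ, ∀ x, ‖C x‖ ≤ B
  helm : ∀ j : Fin 4, j ≠ 3 → ∀ x, WeakHelm (fun z => C (Function.update x j z))

lemma sm_lad3 {C : (Fin 4 → ℂ) → ℂ} (hC : Continuous C) {ψ : Fin 4 → ℂ → ℂ}
    (h : ∀ j, TestFn (ψ j)) {φ : ℂ → ℂ} (hφ : TestFn φ) (a : ℤ) (j : Fin 4)
    (hj : ∀ x, WeakHelm (fun z => C (Function.update x j z)))
    (t : Fin 4 → ℂ) (v : ℂ) :
    sm (Function.update ψ j (fun z => fderiv ℝ (tl φ a) z v)) C t
      = lad v (sm (Function.update ψ j (tl φ (a+1))) C t)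
        (sm (Function.update ψ j (tl φ (a-1))) C t) := by
  have hψ := tl_testFn hφ a
  have e : (fun z => fderiv ℝ (tl φ a) z v) = fun z =>
      (starRingEnd ℂ v / 2) * Wop (tl φ a) z + (v / 2) * Vop (tl φ a) z := by
    funext y; exact fderiv_eq_wop_vop _ _ _
  rw [e, sm_update_lin hC h hψ.wop hψ.vop]
  have h1 : sm (Function.update ψ j (Wop (tl φ a))) C t
      = sm (Function.update ψ j (tl φ (a+1))) C t := by
    apply sm_slot hC h hψ.wop (tl_testFn hφ (a+1))
    intro x
    exact smear_wop_tl (hj x) hφ a (t j)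
  have h2 : sm (Function.update ψ j (Vop (tl φ a))) C t
      = - sm (Function.update ψ j (tl φ (a-1))) C t := by
    have h3 : sm (Function.update ψ j (Vop (tl φ a))) C t
      = sm (Function.update ψ j (fun z => (-1) * tl φ (a-1) z + 0 * tl φ (a-1) z)) C t := by
      apply sm_slot hC h hψ.vop
      · exact ((tl_testFn hφ (a-1)).const_mul (-1)).add ((tl_testFn hφ (a-1)).const_mul 0)
      intro x
      have := smear_vop_tl (hj x) hφ a (t j)
      simp only [smear, smul_eq_mul] at this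
      rw [this, ← integral_neg]
      congr 1; funext z; ring
    rw [h3, sm_update_lin hC h (tl_testFn hφ (a-1)) (tl_testFn hφ (a-1))]
    ring
  rw [h1, h2]
  simp only [lad]
  ring

/-- the ladder family in three variables attached to a function of four variables -/
def Q3 (φ : Fin 4 → ℂ → ℂ) (C : (Fin 4 → ℂ) → ℂ) : ℤ → ℤ → ℤ → ℂ → ℂ → ℂ → ℂ :=
  fun a b c t₁ t₂ t₃ =>
    sm ![tl (φ 0) a, tl (φ 1) b, tl (φ 2) c, tl (φ 3) 0] C ![t₁, t₂, t₃, 0]

lemma Q3_der {φ : Fin 4 → ℂ → ℂ} (h : ∀ j, TestFn (φ j)) {C : (Fin 4 → ℂ) → ℂ} (hC : Hel3 C) :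
    Der3 (Q3 φ C) := by
  intro a b c t₁ t₂ t₃ v₁ v₂ v₃
  have hv := vec_testFn h a b c 0
  have h1 := sm_hasDerivAt hC.cont hv ![t₁, t₂, t₃, 0] ![v₁, v₂, v₃, 0]
  have e1 : (fun s : ℝ => sm ![tl (φ 0) a, tl (φ 1) b, tl (φ 2) c, tl (φ 3) 0] C
      (![t₁, t₂, t₃, 0] + s • ![v₁, v₂, v₃, 0]))
      = fun s : ℝ => Q3 φ C a b c (t₁ + s * v₁) (t₂ + s * v₂) (t₃ + s * v₃) := by
    funext s
    unfold Q3
    congr 1
    funext i
    fin_cases i <;> simp
  rw [e1] at h1
  refine h1.congr_deriv ?_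
  rw [Fin.sum_univ_four]
  simp only [Matrix.cons_val_zero, Matrix.cons_val_one, Matrix.cons_val]
  rw [sm_lad3 hC.cont hv (h 0) a 0 (hC.helm 0 (by decide)),
    sm_lad3 hC.cont hv (h 1) b 1 (hC.helm 1 (by decide)),
    sm_lad3 hC.cont hv (h 2) c 2 (hC.helm 2 (by decide))]
  have z3 : sm (Function.update (![tl (φ 0) a, tl (φ 1) b, tl (φ 2) c, tl (φ 3) 0] :
      Fin 4 → ℂ → ℂ) 3 (fun z => fderiv ℝ (tl (φ 3) 0) z 0)) C ![t₁, t₂, t₃, 0] = 0 := by
    unfold sm
    simp only [ten_update, map_zero, zero_mul, integral_zero]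
  rw [z3, add_zero]
  have u0 : ∀ z : ℂ → ℂ, Function.update (![tl (φ 0) a, tl (φ 1) b, tl (φ 2) c, tl (φ 3) 0] : Fin 4 → ℂ → ℂ) 0 z
    = ![z, tl (φ 1) b, tl (φ 2) c, tl (φ 3) 0] := by
    intro z; funext i; fin_cases i <;> simp
  have u1 : ∀ z : ℂ → ℂ, Function.update (![tl (φ 0) a, tl (φ 1) b, tl (φ 2) c, tl (φ 3) 0] : Fin 4 → ℂ → ℂ) 1 z
    = ![tl (φ 0) a, z, tl (φ 2) c, tl (φ 3) 0] := by
    intro z; funext i; fin_cases i <;> simp
  have u2 : ∀ z : ℂ → ℂ, Function.update (![tl (φ 0) a, tl (φ 1) b, tl (φ 2) c, tl (φ 3) 0] : Fin 4 → ℂ → ℂ) 2 z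
    = ![tl (φ 0) a, tl (φ 1) b, z, tl (φ 3) 0] := by
    intro z; funext i; fin_cases i <;> simp
  simp only [u0, u1, u2]
  rfl

/-- a function of three variables, invariant under joint translations, monochromatic in each
variable, and with vanishing transversal means, vanishes -/
theorem three_general {C : (Fin 4 → ℂ) → ℂ} (hC : Hel3 C)
    (iC : ∀ x (s : ℂ), C (x + s • ![1, 1, 1, 0]) = C x)
    (hz : ∀ η : ℂ, IsZeta η → ∀ x, Tendsto (fun R : ℝ => ⨍ s in ball (0:ℂ) R,
      C (x + s • ![1, -η, 0, 0])) atTop (𝓝 0)) (t₁ t₂ t₃ : ℂ) : C ![t₁, t₂, t₃, 0] = 0 := by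
  obtain ⟨B, hB⟩ := hC.bdd
  have key : ∀ n, sm (aid n) C ![t₁, t₂, t₃, 0] = 0 := by
    intro n
    have h := aid_testFn n
    have hφ : aid n = ![tl (aid n 0) 0, tl (aid n 1) 0, tl (aid n 2) 0, tl (aid n 3) 0] := by
      funext i; fin_cases i <;> rfl
    have htr : ∀ η : ℂ, IsZeta η → ∀ a b c t₁ t₂ t₃,
        MZ (fun s => Q3 (aid n) C a b c (t₁ + s) (t₂ - η * s) t₃) := by
      intro η hη a b c t₁ t₂ t₃
      have h1 := sm_mz hC.cont hB (vec_testFn h a b c 0) ![1, -η, 0, 0] (hz η hη) ![t₁, t₂, t₃, 0]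
      simp only [vec_add_smul, mul_one, mul_zero, add_zero] at h1
      have e : ∀ s : ℂ, t₂ - η * s = t₂ + s * -η := fun s => by ring
      simp only [Q3, e]
      exact h1
    have := core3 (Q := Q3 (aid n) C) zeta_isZeta (Q3_der h hC)
      (fun a b c t₁ t₂ t₃ s => by
        have h1 := sm_inv (fun x => iC x s) ![tl (aid n 0) a, tl (aid n 1) b, tl (aid n 2) c,
          tl (aid n 3) 0] ![t₁, t₂, t₃, 0]
        rw [vec_add_smul] at h1
        simp only [mul_one, mul_zero, add_zero] at h1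
        exact h1) MZ
      (fun g h hg hh => hg.add hh) (fun k g hg => hg.const_mul k) (fun k hk => hk.const)
      (fun a b c t₁ t₂ t₃ => htr _ zeta_isZeta.conj a b c t₁ t₂ t₃)
      (fun a b c t₁ t₂ t₃ => htr _ zeta_isZeta a b c t₁ t₂ t₃) 0 0 0 t₁ t₂ t₃
    unfold Q3 at this
    rw [← hφ] at this
    exact this
  have h1 := sm_aid_tendsto hC.cont ![t₁, t₂, t₃, 0]
  simp only [key] at h1
  exact (tendsto_nhds_unique h1 tendsto_const_nhds)

/-! ### Weak Helmholtz equation for vector valued functions -/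

section Vec

variable {H : Type*} [NormedAddCommGroup H] [InnerProductSpace ℝ H] [CompleteSpace H]

/-- if a smearing of `g` vanishes against all values of `g`, it vanishes against all vectors -/
lemma vec_smear_zero {g : ℂ → H} (hg : Continuous g) {χ : ℂ → ℂ} (hχ : TestFn χ) (t : ℂ)
    (h0 : ∀ x', smear χ (fun x => ((inner ℝ (g x) (g x') : ℝ) : ℂ)) t = 0) (w : H) :
    smear χ (fun x => ((inner ℝ (g x) w : ℝ) : ℂ)) t = 0 := by
  set G : ℂ → H := fun y => g (t - y) with hG
  have hGc : Continuous G := hg.comp (by fun_prop)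
  have hre : Continuous fun y => (χ y).re := Complex.continuous_re.comp hχ.continuous
  have him : Continuous fun y => (χ y).im := Complex.continuous_im.comp hχ.continuous
  have sre : HasCompactSupport fun y => (χ y).re := hχ.2.comp_left (g := Complex.re) rfl
  have sim : HasCompactSupport fun y => (χ y).im := hχ.2.comp_left (g := Complex.im) rfl
  have i1 : Integrable fun y => (χ y).re • G y :=
    (hre.smul hGc).integrable_of_hasCompactSupport sre.smul_right
  have i2 : Integrable fun y => (χ y).im • G y :=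
    (him.smul hGc).integrable_of_hasCompactSupport sim.smul_right
  set v₁ := ∫ y, (χ y).re • G y with hv₁
  set v₂ := ∫ y, (χ y).im • G y with hv₂
  have e1 : ∀ w, inner ℝ v₁ w = ∫ y, (χ y).re * inner ℝ (G y) w := by
    intro w
    rw [real_inner_comm, hv₁, ← integral_inner i1 w]
    congr 1; funext y
    rw [inner_smul_right, real_inner_comm]
  have e2 : ∀ w, inner ℝ v₂ w = ∫ y, (χ y).im * inner ℝ (G y) w := by
    intro w
    rw [real_inner_comm, hv₂, ← integral_inner i2 w]
    congr 1; funext y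
    rw [inner_smul_right, real_inner_comm]
  have key : ∀ w, smear χ (fun x => ((inner ℝ (g x) w : ℝ) : ℂ)) t
      = ((inner ℝ v₁ w : ℝ) : ℂ) + Complex.I * ((inner ℝ v₂ w : ℝ) : ℂ) := by
    intro w
    rw [e1, e2]
    have hc : Continuous fun y => inner ℝ (G y) w := hGc.inner continuous_const
    have j1 : Integrable fun y => (χ y).re * inner ℝ (G y) w :=
      (hre.mul hc).integrable_of_hasCompactSupport sre.mul_right
    have j2 : Integrable fun y => (χ y).im * inner ℝ (G y) w :=
      (him.mul hc).integrable_of_hasCompactSupport sim.mul_right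
    rw [← integral_complex_ofReal, ← integral_complex_ofReal, ← integral_const_mul,
      ← integral_add j1.ofReal (j2.ofReal.const_mul _)]
    unfold smear
    congr 1; funext y
    have e3 : χ y = ((χ y).re : ℂ) + Complex.I * ((χ y).im : ℂ) := by
      conv_lhs => rw [← Complex.re_add_im (χ y)]
      ring
    rw [smul_eq_mul]
    nth_rewrite 1 [e3]
    push_cast
    ring
  have hz : ∀ x', inner ℝ v₁ (g x') = 0 ∧ inner ℝ v₂ (g x') = 0 := by
    intro x'
    have h1 := h0 x'
    rw [key] at h1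
    have hr := congrArg Complex.re h1
    have hi := congrArg Complex.im h1
    simp at hr hi
    exact ⟨hr, hi⟩
  have hv1 : v₁ = 0 := by
    have : inner ℝ v₁ v₁ = 0 := by
      rw [e1]
      have : ∀ y, inner ℝ (G y) v₁ = 0 := fun y => by
        rw [real_inner_comm]; exact (hz (t - y)).1
      simp only [this, mul_zero, integral_zero]
    exact inner_self_eq_zero.1 this
  have hv2 : v₂ = 0 := by
    have : inner ℝ v₂ v₂ = 0 := by
      rw [e2]
      have : ∀ y, inner ℝ (G y) v₂ = 0 := fun y => by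
        rw [real_inner_comm]; exact (hz (t - y)).2
      simp only [this, mul_zero, integral_zero]
    exact inner_self_eq_zero.1 this
  rw [key, hv1, hv2, inner_zero_left]
  simp

/-- a Hilbert space valued function is monochromatic as soon as its kernel is -/
lemma vec_helm {g : ℂ → H} (hg : Continuous g)
    (h0 : ∀ x', WeakHelm (fun x => ((inner ℝ (g x) (g x') : ℝ) : ℂ))) (w : H) :
    WeakHelm (fun x => ((inner ℝ (g x) w : ℝ) : ℂ)) := by
  intro ψ hψ t
  have gen : ∀ {χ : ℂ → ℂ}, TestFn χ →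
      (∀ x', smear χ (fun x => ((inner ℝ (g x) (g x') : ℝ) : ℂ)) t
        = - smear ψ (fun x => ((inner ℝ (g x) (g x') : ℝ) : ℂ)) t) →
      smear χ (fun x => ((inner ℝ (g x) w : ℝ) : ℂ)) t
        = - smear ψ (fun x => ((inner ℝ (g x) w : ℝ) : ℂ)) t := by
    intro χ hχ h1
    have hsum : TestFn (fun y => χ y + ψ y) := hχ.add hψ
    have hadd : ∀ w, smear (fun y => χ y + ψ y) (fun x => ((inner ℝ (g x) w : ℝ) : ℂ)) t
        = smear χ (fun x => ((inner ℝ (g x) w : ℝ) : ℂ)) t
          + smear ψ (fun x => ((inner ℝ (g x) w : ℝ) : ℂ)) t := by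
      intro w
      have hc : Continuous fun x => ((inner ℝ (g x) w : ℝ) : ℂ) :=
        Complex.continuous_ofReal.comp (hg.inner continuous_const)
      unfold smear
      rw [← integral_add (smear_integrable hχ.continuous hχ.2 hc t)
        (smear_integrable hψ.continuous hψ.2 hc t)]
      congr 1; funext y; rw [add_smul]
    have h2 := vec_smear_zero hg hsum t (fun x' => by rw [hadd, h1 x']; ring) w
    rw [hadd] at h2
    linear_combination h2
  exact ⟨gen hψ.vop.wop fun x' => (h0 x' ψ hψ t).1, gen hψ.wop.vop fun x' => (h0 x' ψ hψ t).2⟩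

end Vec

end

end Berry
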