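import Pool.Agent.LibH11.Berry.Trip

/-!
Three-point functions of pair processes with Gaussian four-point functions vanish.
-/

open Complex Filter Topology MeasureTheory Metric InnerProductSpace Laplacian
open scoped ENNReal

namespace Berry

noncomputable section

variable {H : Type*} [NormedAddCommGroup H] [InnerProductSpace ℝ H] [CompleteSpace H]
  {u : ℂ → ℂ → H} {f : ℂ → H}

/-- averages of processes with small correlations vanish -/
lemma dbl_avgH {A : ℂ → H} (hA : Continuous A)
    {g : ℂ → ℂ} (hg : Continuous g) (hv : VanInf g) {C : ℝ} (hC : ∀ s, ‖g s‖ ≤ C)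
    {q q₂ q' : ℂ → ℂ} {v : ℝ} (hv0 : 0 ≤ v) {g' : ℂ → ℂ} (hg' : Continuous g') (hv' : VanInf g')
    (hC' : ∀ s, ‖g' s‖ ≤ C)
    (hb : ∀ s s', |inner ℝ (A s') (A s)| ≤ v * ‖g (q s + s')‖ + v * ‖g (q₂ s + s')‖
      + v * ‖g' (q' s + s')‖) :
    Tendsto (fun R : ℝ => ⨍ s in ball (0:ℂ) R, A s) atTop (𝓝 0) := by
  rw [tendsto_zero_iff_norm_tendsto_zero]
  have hsq : Tendsto (fun R : ℝ => ‖⨍ s in ball (0:ℂ) R, A s‖ ^ 2) atTop (𝓝 0) := by
    rw [Metric.tendsto_atTop]
    intro ε hε
    obtain ⟨R₀, hR₀, h1⟩ := unif_avg hg hv hC (ε / (6 * (v + 1))) (by positivity)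
    obtain ⟨R₁, hR₁, h2⟩ := unif_avg hg' hv' hC' (ε / (6 * (v + 1))) (by positivity)
    refine ⟨max R₀ R₁, fun R hR => ?_⟩
    have hRpos : 0 < R := lt_of_lt_of_le hR₀ ((le_max_left _ _).trans hR)
    rw [Real.dist_eq, sub_zero, abs_of_nonneg (sq_nonneg _), ← real_inner_self_eq_norm_sq,
      PairP.inner_avg hA]
    set W := ⨍ s in ball (0:ℂ) R, A s with hW
    have hcW : Continuous fun s => inner ℝ (A s) W := hA.inner continuous_const
    refine lt_of_le_of_lt (le_abs_self _) (lt_of_le_of_lt ?_ (half_lt_self hε))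
    rw [← Real.norm_eq_abs]
    refine (avg_norm_le _ R).trans (avg_le_of_le hcW.norm (fun s => ?_) hRpos)
    have e1 : inner ℝ (A s) W = ⨍ s' in ball (0:ℂ) R, inner ℝ (A s') (A s) := by
      rw [real_inner_comm, hW, PairP.inner_avg hA]
    rw [e1]
    have hcB : Continuous fun s' => inner ℝ (A s') (A s) := hA.inner continuous_const
    refine (avg_norm_le _ R).trans ?_
    have c1 : Continuous fun s' => v * ‖g (q s + s')‖ :=
      continuous_const.mul (hg.comp (continuous_const.add continuous_id)).norm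
    have c1' : Continuous fun s' => v * ‖g (q₂ s + s')‖ :=
      continuous_const.mul (hg.comp (continuous_const.add continuous_id)).norm
    have c2 : Continuous fun s' => v * ‖g' (q' s + s')‖ :=
      continuous_const.mul (hg'.comp (continuous_const.add continuous_id)).norm
    have c11 : Continuous fun s' => v * ‖g (q s + s')‖ + v * ‖g (q₂ s + s')‖ := c1.add c1'
    have c12 : Continuous fun s' => v * ‖g (q s + s')‖ + v * ‖g (q₂ s + s')‖
      + v * ‖g' (q' s + s')‖ := c11.add c2
    refine (avg_mono hcB.norm c12 (fun s' => by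
      rw [Real.norm_eq_abs]; exact hb s s') R).trans ?_
    rw [avg_add c11 c2 R, avg_add c1 c1' R]
    have hm : ∀ (k : ℂ → ℂ) (p : ℂ), ⨍ s' in ball (0:ℂ) R, v * ‖k (p + s')‖
        = v * ⨍ s' in ball (0:ℂ) R, ‖k (p + s')‖ := by
      intro k p
      rw [setAverage_eq, setAverage_eq, integral_const_mul, smul_eq_mul, smul_eq_mul]; ring
    rw [hm g (q s), hm g (q₂ s), hm g' (q' s)]
    have hsm : ∀ z : ℝ, z ≤ ε / (6 * (v + 1)) → v * z ≤ ε / 6 := by
      intro z hz
      calc v * z ≤ v * (ε / (6 * (v + 1))) := mul_le_mul_of_nonneg_left hz hv0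
        _ ≤ (v + 1) * (ε / (6 * (v + 1))) := mul_le_mul_of_nonneg_right (by linarith)
            (by positivity)
        _ = ε / 6 := by field_simp
    have b1 := hsm _ (h1 R ((le_max_left _ _).trans hR) (q s))
    have b1' := hsm _ (h1 R ((le_max_left _ _).trans hR) (q₂ s))
    have b2 := hsm _ (h2 R ((le_max_right _ _).trans hR) (q' s))
    linarith
  have h3 := hsq.sqrt
  simp only [Real.sqrt_zero, Real.sqrt_sq (norm_nonneg _)] at h3
  exact h3

/-- a Gaussian four-point function, in terms of a pair process -/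
def WickP (u : ℂ → ℂ → H) (v : ℝ) : Prop :=
  ∀ x₁ x₂ x₃ x₄, inner ℝ (u x₁ x₂) (u x₃ x₄) = v ^ 2 * (waveK (x₁ - x₂) * waveK (x₃ - x₄)
      + waveK (x₁ - x₃) * waveK (x₂ - x₄) + waveK (x₁ - x₄) * waveK (x₂ - x₃))

/-- products along the two directions `v`, `-ηv` have vanishing averages -/
lemma PairP.avg_transversal (hu : PairP u) {v : ℝ} (hw : WickP u v) {η : ℂ} (hη : IsZeta η)
    (x₁ x₂ : ℂ) :
    Tendsto (fun R : ℝ => ⨍ s in ball (0:ℂ) R, u (x₁ + s) (x₂ - η * s)) atTop (𝓝 0) := by
  have hAc : Continuous fun s => u (x₁ + s) (x₂ - η * s) := hu.cont₂ (by fun_prop) (by fun_prop)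
  have hη1 := hη.one_add_ne
  refine dbl_avgH hAc (g := Kc) (g' := fun s => Kc ((x₁ - x₂) + (1 + η) * s)) (C := 1)
    (q := fun s => -s) (q₂ := fun s => x₁ - x₂ + η * s) (q' := fun _ => 0) (v := v ^ 2)
    Kc_continuous Kc_van Kc_le (by positivity) (Kc_continuous.comp (by fun_prop))
    (Kc_lin_van hη1 _) (fun _ => Kc_le _) ?_
  intro s s'
  rw [real_inner_comm, hw, Kc_norm, Kc_norm, Kc_norm]
  have k1 : waveK (x₁ + s' - (x₂ - η * s')) = waveK ((x₁ - x₂) + (1 + η) * (0 + s')) := by
    congr 1; ring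
  have k2 : waveK (x₁ + s - (x₁ + s')) = waveK (-s + s') := by
    rw [← waveK_neg]; congr 1; ring
  have k3 : waveK (x₂ - η * s - (x₁ + s')) = waveK (x₁ - x₂ + η * s + s') := by
    rw [← waveK_neg]; congr 1; ring
  rw [k1, k2, k3]
  have a1 := waveK_abs_le (x₁ + s - (x₂ - η * s))
  have a2 := waveK_abs_le (x₂ - η * s - (x₂ - η * s'))
  have a3 := waveK_abs_le (x₁ + s - (x₂ - η * s'))
  set u1 := waveK ((x₁ - x₂) + (1 + η) * (0 + s')) with hu1
  set u2 := waveK (-s + s') with hu2
  set u3 := waveK (x₁ - x₂ + η * s + s') with hu3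
  set w1 := waveK (x₁ + s - (x₂ - η * s)) with hw1
  set w2 := waveK (x₂ - η * s - (x₂ - η * s')) with hw2
  set w3 := waveK (x₁ + s - (x₂ - η * s')) with hw3
  have e2 : v ^ 2 * (w1 * u1 + u2 * w2 + w3 * u3)
      = v ^ 2 * (u2 * w2) + v ^ 2 * (w3 * u3) + v ^ 2 * (w1 * u1) := by ring
  rw [e2]
  have hv2 : (0:ℝ) ≤ v ^ 2 := by positivity
  have b : ∀ u w : ℝ, |w| ≤ 1 → |v ^ 2 * (u * w)| ≤ v ^ 2 * |u| := by
    intro u w hw
    rw [abs_mul, abs_of_nonneg hv2, abs_mul]
    refine mul_le_mul_of_nonneg_left ?_ hv2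
    nlinarith [abs_nonneg u]
  refine (abs_add_three _ _ _).trans (add_le_add (add_le_add (b _ _ a2) ?_) ?_)
  · rw [mul_comm w3 u3]; exact b _ _ a3
  · rw [mul_comm w1 u1]; exact b _ _ a1

/-- a pair process together with a process of single values -/
structure TripP (u : ℂ → ℂ → H) (f : ℂ → H) : Prop where
  pair : PairP u
  fcont : Continuous f
  fbdd : ∃ B : ℝ, ∀ x, ‖f x‖ ≤ B
  sym3 : ∀ x y z, inner ℝ (u x y) (f z) = inner ℝ (u z y) (f x)
  stat3 : ∀ x y z s, inner ℝ (u (x + s) (y + s)) (f (z + s)) = inner ℝ (u x y) (f z)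

/-- the pair process is monochromatic in the first variable, against every vector -/
lemma PairP.helm_w (hu : PairP u) (y : ℂ) (w : H) :
    WeakHelm (fun x => ((inner ℝ (u x y) w : ℝ) : ℂ)) :=
  vec_helm (g := fun x => u x y) (hu.cont₂ continuous_id continuous_const)
    (fun x' => hu.helm y x' y) w

/-- **the three-point function vanishes** -/
theorem TripP.three (h : TripP u f) {v : ℝ} (hw : WickP u v) (x y z : ℂ) :
    inner ℝ (u x y) (f z) = 0 := by
  obtain ⟨B, hB⟩ := h.fbdd
  have hu := h.pair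
  set C : (Fin 4 → ℂ) → ℂ := fun x => ((inner ℝ (u (x 0) (x 1)) (f (x 2)) : ℝ) : ℂ) with hC
  have hcont : Continuous C := by
    have h1 : Continuous fun x : Fin 4 → ℂ => u (x 0) (x 1) :=
      hu.cont₂ (continuous_apply 0) (continuous_apply 1)
    have h2 : Continuous fun x : Fin 4 → ℂ => f (x 2) := h.fcont.comp (continuous_apply 2)
    exact Complex.continuous_ofReal.comp (h1.inner h2)
  have hHel : Hel3 C := by
    refine ⟨hcont, ⟨‖u 0 0‖ * B, fun x => ?_⟩, fun j hj x => ?_⟩
    · simp only [hC]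
      rw [Complex.norm_real, Real.norm_eq_abs]
      refine (abs_real_inner_le_norm _ _).trans ?_
      exact mul_le_mul (hu.norm_le _ _) (hB _) (norm_nonneg _) (norm_nonneg _)
    · have c0 : ∀ w : Fin 4 → ℂ, C w = ((inner ℝ (u (w 0) (w 1)) (f (w 2)) : ℝ) : ℂ) := fun _ => rfl
      fin_cases j
      · have e : (fun z => C (Function.update x (0 : Fin 4) z))
            = fun z => ((inner ℝ (u z (x 1)) (f (x 2)) : ℝ) : ℂ) := by
          funext z
          rw [c0]
          have h1 : Function.update x (0 : Fin 4) z 1 = x 1 := Function.update_of_ne (by decide) _ _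
          have h2 : Function.update x (0 : Fin 4) z 2 = x 2 := Function.update_of_ne (by decide) _ _
          rw [Function.update_self, h1, h2]
        simp only [Fin.zero_eta]
        rw [e]
        exact hu.helm_w (x 1) (f (x 2))
      · have e : (fun z => C (Function.update x (1 : Fin 4) z))
            = fun z => ((inner ℝ (u z (x 0)) (f (x 2)) : ℝ) : ℂ) := by
          funext z
          rw [c0]
          have h1 : Function.update x (1 : Fin 4) z 0 = x 0 := Function.update_of_ne (by decide) _ _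
          have h2 : Function.update x (1 : Fin 4) z 2 = x 2 := Function.update_of_ne (by decide) _ _
          rw [Function.update_self, h1, h2, hu.symm]
        simp only [Fin.mk_one]
        rw [e]
        exact hu.helm_w (x 0) (f (x 2))
      · have e : (fun z => C (Function.update x (2 : Fin 4) z))
            = fun z => ((inner ℝ (u z (x 1)) (f (x 0)) : ℝ) : ℂ) := by
          funext z
          rw [c0]
          have h1 : Function.update x (2 : Fin 4) z 0 = x 0 := Function.update_of_ne (by decide) _ _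
          have h2 : Function.update x (2 : Fin 4) z 1 = x 1 := Function.update_of_ne (by decide) _ _
          rw [Function.update_self, h1, h2, h.sym3]
        simp only [Fin.reduceFinMk]
        rw [e]
        exact hu.helm_w (x 1) (f (x 0))
      · exact absurd rfl hj
  have hinv : ∀ x (s : ℂ), C (x + s • ![1, 1, 1, 0]) = C x := by
    intro x s
    have h0 : (x + s • (![1, 1, 1, 0] : Fin 4 → ℂ)) 0 = x 0 + s := by simp
    have h1 : (x + s • (![1, 1, 1, 0] : Fin 4 → ℂ)) 1 = x 1 + s := by simp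
    have h2 : (x + s • (![1, 1, 1, 0] : Fin 4 → ℂ)) 2 = x 2 + s := by simp
    simp only [hC]
    rw [h0, h1, h2, h.stat3]
  have hz : ∀ η : ℂ, IsZeta η → ∀ x, Tendsto (fun R : ℝ => ⨍ s in ball (0:ℂ) R,
      C (x + s • ![1, -η, 0, 0])) atTop (𝓝 0) := by
    intro η hη x
    have h1 := Filter.Tendsto.inner (𝕜 := ℝ) (hu.avg_transversal hw hη (x 0) (x 1))
      (tendsto_const_nhds (x := f (x 2)))
    rw [inner_zero_left] at h1
    have h2 := (Complex.continuous_ofReal.tendsto _).comp h1
    rw [Complex.ofReal_zero] at h2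
    refine h2.congr fun R => ?_
    simp only [Function.comp]
    have hAc : Continuous fun s => u (x 0 + s) (x 1 - η * s) :=
      hu.cont₂ (by fun_prop) (by fun_prop)
    rw [PairP.inner_avg hAc, ← avg_ofReal]
    congr 1; funext s
    have e0 : (x + s • (![1, -η, 0, 0] : Fin 4 → ℂ)) 0 = x 0 + s := by simp
    have e1 : (x + s • (![1, -η, 0, 0] : Fin 4 → ℂ)) 1 = x 1 - η * s := by simp; ring
    have e2 : (x + s • (![1, -η, 0, 0] : Fin 4 → ℂ)) 2 = x 2 := by simp
    simp only [hC]
    rw [e0, e1, e2]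
  have := three_general hHel hinv hz x y z
  simp only [hC] at this
  exact_mod_cast this

/-- a translation invariant monochromatic one-point function vanishes -/
lemma const_helm {k : ℂ} (hW : WeakHelm (fun _ : ℂ => k)) : k = 0 := by
  have h := (mz_of_weakHelm continuous_const (B := ‖k‖) (fun _ => le_rfl) hW)
  exact h.const

end

end Berry
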