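import Pool.Agent.LibH11.Berry.Stat

/-!
Second-order mixing on average implies the Wick formula for the four-point function.
-/

open Complex Filter Topology MeasureTheory ProbabilityTheory Metric
open scoped ENNReal

namespace Berry

noncomputable section

variable {Ω : Type*} [MeasurableSpace Ω] {P : Measure Ω} [IsProbabilityMeasure P]

section smearlemmas

variable {X : Type*} [NormedAddCommGroup X] [NormedSpace ℂ X]

lemma smear_continuous {G : ℂ → X} (hG : Continuous G) {ψ : ℂ → ℂ} (hψ : TestFn ψ) :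
    Continuous (smear ψ G) := by
  rw [smear_eq_conv]
  exact hψ.2.continuous_convolution_left _ hψ.continuous (hG.locallyIntegrable (μ := volume))

lemma smear_norm_le {G : ℂ → X} {B : ℝ} (hB : ∀ x, ‖G x‖ ≤ B) {ψ : ℂ → ℂ} (hψ : TestFn ψ)
    (t : ℂ) : ‖smear ψ G t‖ ≤ (∫ y, ‖ψ y‖) * B := by
  have hψi : Integrable ψ := hψ.continuous.integrable_of_hasCompactSupport hψ.2
  calc ‖smear ψ G t‖ ≤ ∫ y, ‖ψ y‖ * B := by
        refine norm_integral_le_of_norm_le (hψi.norm.mul_const _) (Eventually.of_forall fun y => ?_)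
        rw [norm_smul]
        exact mul_le_mul_of_nonneg_left (hB _) (norm_nonneg _)
    _ = _ := by rw [integral_mul_const]

end smearlemmas

variable {G : ℂ → Lp ℂ 4 P}

/-- averaged factorisation for the unsmeared field -/
def MixAvg (P : Measure Ω) [IsProbabilityMeasure P] (G : ℂ → Lp ℂ 4 P) : Prop :=
  ∀ x₁ x₂ c d, Tendsto (fun R : ℝ => ⨍ s in ball (0:ℂ) R,
    (C4 P (G (x₁ + s)) (G (x₂ + s)) c d - C2 P (G x₁) (G x₂) * C2 P c d)) atTop (𝓝 0)

omit [IsProbabilityMeasure P] in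
lemma C4_comp_continuous {α : Type*} [TopologicalSpace α] {f₁ f₂ f₃ f₄ : α → Lp ℂ 4 P}
    (h₁ : Continuous f₁) (h₂ : Continuous f₂) (h₃ : Continuous f₃) (h₄ : Continuous f₄) :
    Continuous fun x => C4 P (f₁ x) (f₂ x) (f₃ x) (f₄ x) := by
  unfold C4
  have k1 : Continuous (fun x => mulX P (f₁ x) (f₂ x)) :=
    ((mulX P).continuous.comp h₁).clm_apply h₂
  have k2 : Continuous (fun x => mulX P (f₃ x) (f₄ x)) :=
    ((mulX P).continuous.comp h₃).clm_apply h₄
  exact ((pairX P).continuous.comp k1).clm_apply k2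

lemma C2_comp_continuous {α : Type*} [TopologicalSpace α] {f₁ f₂ : α → Lp ℂ 4 P}
    (h₁ : Continuous f₁) (h₂ : Continuous f₂) :
    Continuous fun x => C2 P (f₁ x) (f₂ x) :=
  C4_comp_continuous h₁ h₂ continuous_const continuous_const

lemma C2_bound : ∃ M : ℝ, 0 ≤ M ∧ ∀ a b : Lp ℂ 4 P, ‖C2 P a b‖ ≤ M * ‖a‖ * ‖b‖ := by
  obtain ⟨M, hM, h⟩ := C4_bound (P := P)
  refine ⟨M * ‖one4 P‖ * ‖one4 P‖, by positivity, fun a b => ?_⟩
  refine (h a b _ _).trans (le_of_eq ?_)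
  ring

/-- Lemma A -/
lemma mixAvg_smear (hG : Continuous G) {B : ℝ} (hB : ∀ x, ‖G x‖ ≤ B) (hm : MixAvg P G)
    {ψ₁ ψ₂ : ℂ → ℂ} (h₁ : TestFn ψ₁) (h₂ : TestFn ψ₂) (t₁ t₂ : ℂ) (c d : Lp ℂ 4 P) :
    MZ (fun s => C4 P (smear ψ₁ G (t₁ + s)) (smear ψ₂ G (t₂ + s)) c d
      - C2 P (smear ψ₁ G t₁) (smear ψ₂ G t₂) * C2 P c d) := by
  obtain ⟨M, hM0, hM⟩ := C4_bound (P := P)
  obtain ⟨M', hM'0, hM'⟩ := C2_bound (P := P)
  have hB0 : 0 ≤ B := (norm_nonneg _).trans (hB 0)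
  have cs2 := smear_continuous hG h₂
  have cs1 := smear_continuous hG h₁
  set B₂ := (∫ y, ‖ψ₂ y‖) * B with hB₂
  have hB₂0 : 0 ≤ B₂ := mul_nonneg (integral_nonneg fun _ => norm_nonneg _) hB0
  have b2 : ∀ t, ‖smear ψ₂ G t‖ ≤ B₂ := smear_norm_le hB h₂
  -- inner smearing
  have inner : ∀ x₁, MZ (fun s => C4 P (G (x₁ + s)) (smear ψ₂ G (t₂ + s)) c d
      - C2 P (G x₁) (smear ψ₂ G t₂) * C2 P c d) := by
    intro x₁
    set A : ℂ → ℂ → ℂ := fun s y => C4 P (G (x₁ + s)) (G (t₂ - y + s)) c d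
      - C2 P (G x₁) (G (t₂ - y)) * C2 P c d with hA
    have e : (fun s => C4 P (G (x₁ + s)) (smear ψ₂ G (t₂ + s)) c d
      - C2 P (G x₁) (smear ψ₂ G t₂) * C2 P c d) = fun s => ∫ y, ψ₂ y * A s y := by
      funext s
      rw [C4_smear2 hG h₂, C2_smear2 hG h₂, ← integral_mul_const, ← integral_sub]
      · congr 1; funext y
        simp only [hA]
        have : t₂ + s - y = t₂ - y + s := by ring
        rw [this]; ring
      · apply Continuous.integrable_of_hasCompactSupport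
        · exact h₂.continuous.mul (C4_comp_continuous continuous_const
            (hG.comp (continuous_const.sub continuous_id)) continuous_const continuous_const)
        · exact h₂.2.mul_right
      · apply Integrable.mul_const
        apply Continuous.integrable_of_hasCompactSupport
        · exact h₂.continuous.mul (C2_comp_continuous continuous_const
            (hG.comp (continuous_const.sub continuous_id)))
        · exact h₂.2.mul_right
    have hcont : Continuous (fun s => C4 P (G (x₁ + s)) (smear ψ₂ G (t₂ + s)) c d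
      - C2 P (G x₁) (smear ψ₂ G t₂) * C2 P c d) :=
      (C4_comp_continuous (hG.comp (continuous_const.add continuous_id))
        (cs2.comp (continuous_const.add continuous_id)) continuous_const continuous_const).sub
        continuous_const
    rw [e] at hcont ⊢
    have hAc : Continuous (Function.uncurry A) := by
      simp only [hA, Function.uncurry_def]
      refine Continuous.sub ?_ ?_
      · exact C4_comp_continuous (hG.comp (by fun_prop)) (hG.comp (by fun_prop))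
          continuous_const continuous_const
      · exact (C2_comp_continuous continuous_const (hG.comp (by fun_prop))).mul continuous_const
    have hAb : ∀ s y, ‖A s y‖ ≤ M * B * B * ‖c‖ * ‖d‖ + M' * B * B * ‖C2 P c d‖ := by
      intro s y
      refine (norm_sub_le _ _).trans (add_le_add ?_ ?_)
      · refine (hM _ _ _ _).trans ?_
        gcongr <;> exact hB _
      · rw [norm_mul]
        refine mul_le_mul_of_nonneg_right ((hM' _ _).trans ?_) (norm_nonneg _)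
        gcongr <;> exact hB _
    exact MZ.smear hAc hAb h₂ hcont (fun y => hm x₁ (t₂ - y) c d)
  -- outer smearing
  set A : ℂ → ℂ → ℂ := fun s y => C4 P (G (t₁ - y + s)) (smear ψ₂ G (t₂ + s)) c d
      - C2 P (G (t₁ - y)) (smear ψ₂ G t₂) * C2 P c d with hA
  have e : (fun s => C4 P (smear ψ₁ G (t₁ + s)) (smear ψ₂ G (t₂ + s)) c d
      - C2 P (smear ψ₁ G t₁) (smear ψ₂ G t₂) * C2 P c d) = fun s => ∫ y, ψ₁ y * A s y := by
    funext s
    rw [C4_smear1 hG h₁, C2_smear1 hG h₁, ← integral_mul_const, ← integral_sub]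
    · congr 1; funext y
      simp only [hA]
      have : t₁ + s - y = t₁ - y + s := by ring
      rw [this]; ring
    · apply Continuous.integrable_of_hasCompactSupport
      · exact h₁.continuous.mul (C4_comp_continuous
          (hG.comp (continuous_const.sub continuous_id)) continuous_const continuous_const
          continuous_const)
      · exact h₁.2.mul_right
    · apply Integrable.mul_const
      apply Continuous.integrable_of_hasCompactSupport
      · exact h₁.continuous.mul (C2_comp_continuous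
          (hG.comp (continuous_const.sub continuous_id)) continuous_const)
      · exact h₁.2.mul_right
  have hcont : Continuous (fun s => C4 P (smear ψ₁ G (t₁ + s)) (smear ψ₂ G (t₂ + s)) c d
      - C2 P (smear ψ₁ G t₁) (smear ψ₂ G t₂) * C2 P c d) :=
    (C4_comp_continuous (cs1.comp (continuous_const.add continuous_id))
      (cs2.comp (continuous_const.add continuous_id)) continuous_const continuous_const).sub
      continuous_const
  rw [e] at hcont ⊢
  have hAc : Continuous (Function.uncurry A) := by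
    simp only [hA, Function.uncurry_def]
    refine Continuous.sub ?_ ?_
    · exact C4_comp_continuous (hG.comp (by fun_prop)) (cs2.comp (by fun_prop))
        continuous_const continuous_const
    · exact (C2_comp_continuous (hG.comp (by fun_prop)) continuous_const).mul continuous_const
  have hAb : ∀ s y, ‖A s y‖ ≤ M * B * B₂ * ‖c‖ * ‖d‖ + M' * B * B₂ * ‖C2 P c d‖ := by
    intro s y
    refine (norm_sub_le _ _).trans (add_le_add ?_ ?_)
    · refine (hM _ _ _ _).trans ?_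
      gcongr
      · exact hB _
      · exact b2 _
    · rw [norm_mul]
      refine mul_le_mul_of_nonneg_right ((hM' _ _).trans ?_) (norm_nonneg _)
      gcongr
      · exact hB _
      · exact b2 _
  exact MZ.smear hAc hAb h₁ hcont (fun y => (inner (t₁ - y)).2)

/-- the two-point function vanishes at infinity -/
def VanC2 (P : Measure Ω) [IsProbabilityMeasure P] (G : ℂ → Lp ℂ 4 P) : Prop :=
  ∀ x y, VanInf (fun s => C2 P (G (x + s)) (G y))

lemma vanC2_smear (hG : Continuous G)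
    (hs2 : ∀ x₁ x₂ s, C2 P (G (x₁ + s)) (G (x₂ + s)) = C2 P (G x₁) (G x₂))
    (hv : VanC2 P G) {ψ₁ ψ₃ : ℂ → ℂ} (h₁ : TestFn ψ₁) (h₃ : TestFn ψ₃)
    (t₁ t₃ : ℂ) : VanInf (fun s => C2 P (smear ψ₁ G (t₁ + s)) (smear ψ₃ G t₃)) := by
  -- first smear the second slot
  have inner : ∀ x, VanInf (fun s => C2 P (G (x + s)) (smear ψ₃ G t₃)) := by
    intro x
    have h0 := (hv x 0)
    have h2 := VanInf.smear (A := fun u => C2 P (G (x + u)) (G 0)) h0 (ψ := fun y => ψ₃ (-y))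
      ⟨h₃.1.comp contDiff_neg, h₃.2.comp_homeomorph (Homeomorph.neg ℂ)⟩ (-t₃)
    have e : (fun s => C2 P (G (x + s)) (smear ψ₃ G t₃)) = fun s =>
        ∫ y, ψ₃ (-y) * C2 P (G (x + (-t₃ - y + s))) (G 0) := by
      funext s
      rw [C2_smear2 hG h₃, ← integral_neg_eq_self]
      congr 1
      funext y
      congr 1
      rw [← hs2 (x + (-t₃ - y + s)) 0 (t₃ - -y)]
      congr 2 <;> ring
    rw [e]; exact h2
  have h2 := VanInf.smear (A := fun u => C2 P (G u) (smear ψ₃ G t₃))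
    (by simpa using inner 0) h₁ t₁
  have e : (fun s => C2 P (smear ψ₁ G (t₁ + s)) (smear ψ₃ G t₃)) = fun s =>
      ∫ y, ψ₁ y * C2 P (G (t₁ - y + s)) (smear ψ₃ G t₃) := by
    funext s
    rw [C2_smear1 hG h₁]
    congr 1; funext y
    have : t₁ + s - y = t₁ - y + s := by ring
    rw [this]
  rw [e]; exact h2

/-- Lemma B -/
lemma prod_mz (hG : Continuous G) {B : ℝ} (hB : ∀ x, ‖G x‖ ≤ B)
    (hs2 : ∀ x₁ x₂ s, C2 P (G (x₁ + s)) (G (x₂ + s)) = C2 P (G x₁) (G x₂))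
    (hv : VanC2 P G) {ψ₁ ψ₂ ψ₃ ψ₄ : ℂ → ℂ} (h₁ : TestFn ψ₁) (h₂ : TestFn ψ₂) (h₃ : TestFn ψ₃)
    (h₄ : TestFn ψ₄) (t₁ t₂ t₃ t₄ : ℂ) :
    MZ (fun s => C2 P (smear ψ₁ G (t₁ + s)) (smear ψ₃ G t₃)
      * C2 P (smear ψ₂ G (t₂ + s)) (smear ψ₄ G t₄)) := by
  obtain ⟨M', hM'0, hM'⟩ := C2_bound (P := P)
  have hB0 : 0 ≤ B := (norm_nonneg _).trans (hB 0)
  have cs1 := smear_continuous hG h₁
  have cs2 := smear_continuous hG h₂
  have bd : ∀ {ψ χ : ℂ → ℂ}, TestFn ψ → TestFn χ → ∃ C, 0 ≤ C ∧ ∀ t t',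
      ‖C2 P (smear ψ G t) (smear χ G t')‖ ≤ C := by
    intro ψ χ hψ hχ
    refine ⟨M' * ((∫ y, ‖ψ y‖) * B) * ((∫ y, ‖χ y‖) * B), ?_, fun t t' => ?_⟩
    · have := integral_nonneg (μ := (volume : Measure ℂ)) (f := fun y => ‖ψ y‖) fun _ => norm_nonneg _
      have := integral_nonneg (μ := (volume : Measure ℂ)) (f := fun y => ‖χ y‖) fun _ => norm_nonneg _
      positivity
    · refine (hM' _ _).trans ?_
      have h1 := smear_norm_le hB hψ t
      have h2 := smear_norm_le hB hχ t'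
      have := (norm_nonneg _).trans h1
      gcongr
  obtain ⟨C, hC0, hC⟩ := bd h₁ h₃
  obtain ⟨C', hC'0, hC'⟩ := bd h₂ h₄
  refine VanInf.mz (C := C * C') ?_ ?_ ?_
  · exact (C2_comp_continuous (cs1.comp (continuous_const.add continuous_id))
      continuous_const).mul (C2_comp_continuous (cs2.comp (continuous_const.add continuous_id))
      continuous_const)
  · intro ε hε
    obtain ⟨N, hN⟩ := vanC2_smear hG hs2 hv h₁ h₃ t₁ t₃ (ε / (C' + 1)) (by positivity)
    refine ⟨N, fun s hs => ?_⟩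
    rw [norm_mul]
    calc _ ≤ (ε / (C' + 1)) * C' := mul_le_mul (hN s hs) (hC' _ _) (norm_nonneg _) (by positivity)
      _ ≤ ε := by
          rw [div_mul_eq_mul_div, div_le_iff₀ (by positivity)]
          nlinarith
  · intro s
    rw [norm_mul]
    exact mul_le_mul (hC _ _) (hC' _ _) (norm_nonneg _) hC0

lemma QD_perm_231 (f₁ f₂ f₃ f₄ : Ladder (Lp ℂ 4 P)) (a b c e : ℤ) (t₁ t₂ t₃ t₄ : ℂ) :
    QD P f₁ f₂ f₃ f₄ a b c e t₁ t₂ t₃ t₄ = QD P f₂ f₃ f₁ f₄ b c a e t₂ t₃ t₁ t₄ := by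
  simp only [QD, QC4, QW12, QW13, QW14]
  rw [C4_swap12 (f₁ a t₁), C4_swap23 (f₂ b t₂), C2_symm (f₁ a t₁) (f₂ b t₂),
    C2_symm (f₁ a t₁) (f₃ c t₃)]
  ring

lemma QD_perm_132 (f₁ f₂ f₃ f₄ : Ladder (Lp ℂ 4 P)) (a b c e : ℤ) (t₁ t₂ t₃ t₄ : ℂ) :
    QD P f₁ f₂ f₃ f₄ a b c e t₁ t₂ t₃ t₄ = QD P f₁ f₃ f₂ f₄ a c b e t₁ t₃ t₂ t₄ := by
  simp only [QD, QC4, QW12, QW13, QW14]
  rw [C4_swap23 (f₁ a t₁), C2_symm (f₂ b t₂) (f₃ c t₃)]
  ring

/-- the Wick formula for smeared fields -/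
theorem wick_smear (hG : Continuous G) {B : ℝ} (hB : ∀ x, ‖G x‖ ≤ B) (hW : WeakHelm G)
    (hs4 : ∀ x₁ x₂ x₃ x₄ s, C4 P (G (x₁ + s)) (G (x₂ + s)) (G (x₃ + s)) (G (x₄ + s))
      = C4 P (G x₁) (G x₂) (G x₃) (G x₄))
    (hs2 : ∀ x₁ x₂ s, C2 P (G (x₁ + s)) (G (x₂ + s)) = C2 P (G x₁) (G x₂))
    (hm : MixAvg P G) (hv : VanC2 P G)
    {φ₁ φ₂ φ₃ φ₄ : ℂ → ℂ} (h₁ : TestFn φ₁) (h₂ : TestFn φ₂) (h₃ : TestFn φ₃) (h₄ : TestFn φ₄)
    (t₁ t₂ t₃ t₄ : ℂ) :
    C4 P (smear φ₁ G t₁) (smear φ₂ G t₂) (smear φ₃ G t₃) (smear φ₄ G t₄)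
      = C2 P (smear φ₁ G t₁) (smear φ₂ G t₂) * C2 P (smear φ₃ G t₃) (smear φ₄ G t₄)
      + C2 P (smear φ₁ G t₁) (smear φ₃ G t₃) * C2 P (smear φ₂ G t₂) (smear φ₄ G t₄)
      + C2 P (smear φ₁ G t₁) (smear φ₄ G t₄) * C2 P (smear φ₂ G t₂) (smear φ₃ G t₃) := by
  -- the means of the fourth cumulant over joint shifts of two points vanish
  have h12 : ∀ {χ₁ χ₂ χ₃ χ₄ : ℂ → ℂ} (k₁ : TestFn χ₁) (k₂ : TestFn χ₂) (k₃ : TestFn χ₃)
      (k₄ : TestFn χ₄) (a b c e : ℤ) (t₁ t₂ t₃ t₄ : ℂ),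
      MZ (fun s => QD P (smearLadder hG hW k₁) (smearLadder hG hW k₂) (smearLadder hG hW k₃)
        (smearLadder hG hW k₄) a b c e (t₁ + s) (t₂ + s) t₃ t₄) := by
    intro χ₁ χ₂ χ₃ χ₄ k₁ k₂ k₃ k₄ a b c e t₁ t₂ t₃ t₄
    have l₁ := tl_testFn k₁ a
    have l₂ := tl_testFn k₂ b
    have l₃ := tl_testFn k₃ c
    have l₄ := tl_testFn k₄ e
    have z1 := mixAvg_smear hG hB hm l₁ l₂ t₁ t₂ (smear (tl χ₃ c) G t₃) (smear (tl χ₄ e) G t₄)
    have z2 := (prod_mz hG hB hs2 hv l₁ l₂ l₃ l₄ t₁ t₂ t₃ t₄).const_mul (-1)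
    have z3 := (prod_mz hG hB hs2 hv l₁ l₂ l₄ l₃ t₁ t₂ t₄ t₃).const_mul (-1)
    have z := z1.add (z2.add z3)
    have e : (fun s => QD P (smearLadder hG hW k₁) (smearLadder hG hW k₂) (smearLadder hG hW k₃)
        (smearLadder hG hW k₄) a b c e (t₁ + s) (t₂ + s) t₃ t₄) = fun s =>
        (C4 P (smear (tl χ₁ a) G (t₁ + s)) (smear (tl χ₂ b) G (t₂ + s)) (smear (tl χ₃ c) G t₃)
          (smear (tl χ₄ e) G t₄)
        - C2 P (smear (tl χ₁ a) G t₁) (smear (tl χ₂ b) G t₂)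
          * C2 P (smear (tl χ₃ c) G t₃) (smear (tl χ₄ e) G t₄))
        + ((-1) * (C2 P (smear (tl χ₁ a) G (t₁ + s)) (smear (tl χ₃ c) G t₃)
            * C2 P (smear (tl χ₂ b) G (t₂ + s)) (smear (tl χ₄ e) G t₄))
        + (-1) * (C2 P (smear (tl χ₁ a) G (t₁ + s)) (smear (tl χ₄ e) G t₄)
            * C2 P (smear (tl χ₂ b) G (t₂ + s)) (smear (tl χ₃ c) G t₃))) := by
      funext s
      simp only [QD, QC4, QW12, QW13, QW14, smearLadder]
      rw [C2_smear_shift hG hs2 l₁ l₂]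
      ring
    rw [e]; exact z
  have hzero := core4 (Q := QD P (smearLadder hG hW h₁) (smearLadder hG hW h₂)
      (smearLadder hG hW h₃) (smearLadder hG hW h₄)) (QD_der _ _ _ _) ?_ MZ
    (fun g h hg hh => hg.add hh) (fun k hk => hk.const)
    (fun a b c e t₁ t₂ t₃ t₄ => h12 h₁ h₂ h₃ h₄ a b c e t₁ t₂ t₃ t₄)
    (fun a b c e t₁ t₂ t₃ t₄ => by
      have := h12 h₂ h₃ h₁ h₄ b c a e t₂ t₃ t₁ t₄
      refine (by
        have e : (fun s => QD P (smearLadder hG hW h₁) (smearLadder hG hW h₂)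
          (smearLadder hG hW h₃) (smearLadder hG hW h₄) a b c e t₁ (t₂ + s) (t₃ + s) t₄) =
          fun s => QD P (smearLadder hG hW h₂) (smearLadder hG hW h₃)
          (smearLadder hG hW h₁) (smearLadder hG hW h₄) b c a e (t₂ + s) (t₃ + s) t₁ t₄ := by
            funext s; exact QD_perm_231 _ _ _ _ _ _ _ _ _ _ _ _
        rw [e]; exact this))
    (fun a b c e t₁ t₂ t₃ t₄ => by
      have := h12 h₁ h₃ h₂ h₄ a c b e t₁ t₃ t₂ t₄
      have e : (fun s => QD P (smearLadder hG hW h₁) (smearLadder hG hW h₂)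
          (smearLadder hG hW h₃) (smearLadder hG hW h₄) a b c e (t₁ + s) t₂ (t₃ + s) t₄) =
          fun s => QD P (smearLadder hG hW h₁) (smearLadder hG hW h₃)
          (smearLadder hG hW h₂) (smearLadder hG hW h₄) a c b e (t₁ + s) (t₃ + s) t₂ t₄ := by
            funext s; exact QD_perm_132 _ _ _ _ _ _ _ _ _ _ _ _
      rw [e]; exact this)
    0 0 0 0 t₁ t₂ t₃ t₄
  · simp only [QD, QC4, QW12, QW13, QW14, smearLadder, tl_zero] at hzero
    linear_combination hzero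
  · intro a b c e t₁ t₂ t₃ t₄ s
    have l₁ := tl_testFn h₁ a
    have l₂ := tl_testFn h₂ b
    have l₃ := tl_testFn h₃ c
    have l₄ := tl_testFn h₄ e
    simp only [QD, QC4, QW12, QW13, QW14, smearLadder]
    rw [C4_smear_shift hG hs4 l₁ l₂ l₃ l₄, C2_smear_shift hG hs2 l₁ l₂,
      C2_smear_shift hG hs2 l₃ l₄, C2_smear_shift hG hs2 l₁ l₃, C2_smear_shift hG hs2 l₂ l₄,
      C2_smear_shift hG hs2 l₁ l₄, C2_smear_shift hG hs2 l₂ l₃]

end

end Berry
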